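import Pool.Agent.V8H63.OW.DGA
import Pool.Agent.V8H53.AX.Sob
import Pool.Agent.Q24.AXI.Cut

/-!
Project OW (helper53), job DG (helper63): De Giorgi's lemma.
-/

set_option autoImplicit false

open MeasureTheory Set Metric Filter Topology
open scoped ContDiff
open H459R3.NS
open Pool.Agent.TH305.AX (sg)
open Pool.Agent.Q67.AXI (RR gr2 GD Co Cy Cut StmCut)
open Pool.Agent.V8H63.OW (K0 K0_Co K0_Co' Co_open Co_sub Hyp pd_congr1 kap sg_nn)

namespace Pool.Agent.V8H53.OW

theorem p_DG : StmDG := by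
  intro Λ hΛ
  obtain ⟨C, hC, hS⟩ := Pool.Agent.V8H53.AX.sob6
  obtain ⟨η, hη, hm⟩ := Pool.Agent.V8H63.OW.main hC hS Λ hΛ
  obtain ⟨K, χ, hK, hχ⟩ := Pool.Agent.Q24.AXI.t_Cut 0 (1 / 2) (1 / 2) (49 / 100) (49 / 100)
    (by norm_num) (by norm_num) (by norm_num) (by norm_num)
  refine ⟨η, hη, fun w ψ hlin hub hpot hvol t ht x hx => ?_⟩
  have hU : ∀ y ∈ Co 0 (49 / 100) (49 / 100), χ y = 1 := fun y hy =>
    hχ.one y ⟨hy.1.le, hy.2.le⟩
  have hout : ∀ y, y ∉ Co 0 (1 / 2) (1 / 2) → χ y = 0 := fun y hy =>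
    image_eq_zero_of_notMem_tsupport fun h => hy (hχ.supp h)
  have hpd : ∀ s, ∀ y ∈ Co 0 (49 / 100) (49 / 100), ∀ j,
      pd j (fun z => χ z * w s z) y = pd j (w s) y := by
    intro s y hy j
    refine pd_congr1 ?_ j
    filter_upwards [(Co_open _ _ _).mem_nhds hy] with z hz
    rw [hU z hz, one_mul]
  have hyp : Hyp Λ η (fun t x => χ x * w t x) ψ := by
    refine ⟨?_, hlin.smψ, ?_, ?_, ?_, hpot, ?_⟩
    · exact (hχ.sm.comp contDiff_snd).contDiffOn.mul hlin.sm
    · intro s hs y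
      by_cases hy : y ∈ Co 0 (1 / 2) (1 / 2)
      · have h1 := (hub s hs y hy).1
        have h2 := hχ.nn y
        have h3 := hχ.le y
        nlinarith
      · rw [hout y hy]
        norm_num
    · intro s hs y hy0
      by_cases hy : y ∈ Co 0 (1 / 2) (1 / 2)
      · have h1 := (hub s hs y hy).2 hy0
        have h2 := hχ.nn y
        nlinarith
      · rw [hout y hy]
        norm_num
    · intro s hs y hy hs0
      have hyU := K0_Co hy
      have h1 := hlin.eq s hs y (K0_Co' hy) hs0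
      have e1 : (fun r => χ y * w r y) = fun r => w r y := by
        funext r
        rw [hU y hyU, one_mul]
      have e2 : lap (fun z => χ z * w s z) y = lap (w s) y := by
        unfold lap
        refine Finset.sum_congr rfl fun j _ => ?_
        refine pd_congr1 ?_ j
        filter_upwards [(Co_open _ _ _).mem_nhds hyU] with z hz
        exact hpd s z hz j
      have e3 : RR (fun z => χ z * w s z) y = RR (w s) y := by
        unfold RR
        rw [hpd s y hyU, hpd s y hyU]
      rw [e1, e2, e3, hpd s y hyU]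
      exact h1
    · intro s hs
      refine le_trans ?_ (hvol s hs)
      have hsub : {x | x ∈ Co 0 (1 / 2) (1 / 2) ∧ 0 < χ x * w s x}
          ⊆ {x | x ∈ Co 0 (1 / 2) (1 / 2) ∧ 0 < w s x} := by
        intro y hy
        refine ⟨hy.1, ?_⟩
        by_contra hc
        push Not at hc
        have h1 := hχ.nn y
        have h2 : 0 < χ y * w s y := hy.2
        nlinarith
      have hfin : volume {x | x ∈ Co 0 (1 / 2) (1 / 2) ∧ 0 < w s x} ≠ ⊤ :=
        ((measure_mono fun y hy => Co_sub hy.1).trans_lt measure_closedBall_lt_top).ne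
      exact measureReal_mono hsub hfin
  have h1 := hm _ _ hyp t ⟨by linarith [ht.1], ht.2⟩ x
  have hxU : x ∈ Co 0 (49 / 100) (49 / 100) :=
    ⟨hx.1.trans (by norm_num), hx.2.trans (by norm_num)⟩
  unfold Pool.Agent.V8H63.OW.SS kap at h1
  beta_reduce at h1
  rw [hU x hxU, one_mul] at h1
  have h2 : sg x < 1 / 16 := by
    have := hx.1
    norm_num at this
    linarith
  have h3 : |x 2| < 1 / 4 := by
    have := hx.2
    rwa [sub_zero] at this
  have h4 : x 2 ^ 2 < 1 / 16 := by
    have := sq_lt_sq.2 (show |x 2| < |(1 / 4 : ℝ)| by rwa [abs_of_pos (by norm_num : (0:ℝ) < 1 / 4)])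
    norm_num at this
    linarith
  have h5 := sg_nn x
  have h6 : sg x ^ 2 ≤ 1 / 256 := by nlinarith
  have h7 : x 2 ^ 4 ≤ 1 / 256 := by nlinarith [sq_nonneg (x 2)]
  have h8 : t ^ 2 ≤ 1 / 16 := by nlinarith [ht.1, ht.2]
  linarith

end Pool.Agent.V8H53.OW
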