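import Pool.Agent.V8H53.OW.Defs4
import Pool.Agent.V8H53.OW.L1g

/-!
Project OW: the production is finite in the region `(T - t) ^ g ≤ ρ²`.
-/

set_option autoImplicit false

open MeasureTheory Set Metric Filter Topology
open scoped ContDiff
open H459R3.NS Pool.Agent.W268.NS Pool.Agent.Q67.VD

namespace Pool.Agent.V8H53.OW

open Pool.Agent.Q85.CC Pool.Agent.Q85.CL Pool.Agent.TH305.AX
open Pool.Agent.Q67.AXI
open Pool.Agent.V8Lead (p_AAs p_Alg p_AxF p_H0 p_Dt p_Jnt)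
open Pool.Agent.Q175.AX (Co_open Cy_compact Co_meas Co_sub_Cy sg_nn)

/-- The gradient of the velocity controls `ω_ρ`. -/
lemma J_gsq {v : V → V} (hv : ContDiff ℝ ∞ v) (ha : Axi v) {x : V} (hx : sg x ≠ 0) :
    sg x * JJ v x ^ 2 ≤ W221.NS.gsq v x := by
  obtain ⟨-, -, -, h⟩ := p_Alg v hv ha
  obtain ⟨-, -, h0, h1, -, -, -, -, -, -, -, h12⟩ := h x
  have hs : 0 < sg x := lt_of_le_of_ne (sg_nn x) (Ne.symm hx)
  have e1 : sg x * JJ v x = x 1 * pd 2 (fun y => v y 0) x - x 0 * pd 2 (fun y => v y 1) x := by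
    have q0 : x 0 * vort v x 0 + x 1 * vort v x 1 = sg x * JJ v x := by
      rw [h0, h1]
      unfold sg
      ring
    rw [← q0]
    change x 0 * (pd 1 (fun y => v y 2) x - pd 2 (fun y => v y 1) x) +
      x 1 * (pd 2 (fun y => v y 0) x - pd 0 (fun y => v y 2) x) = _
    linarith
  have e2 : (sg x * JJ v x) ^ 2 ≤ sg x *
      (pd 2 (fun y => v y 0) x ^ 2 + pd 2 (fun y => v y 1) x ^ 2) := by
    rw [e1]
    unfold sg
    nlinarith [sq_nonneg (x 0 * pd 2 (fun y => v y 0) x + x 1 * pd 2 (fun y => v y 1) x)]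
  have e3 : pd 2 (fun y => v y 0) x ^ 2 + pd 2 (fun y => v y 1) x ^ 2 ≤ W221.NS.gsq v x := by
    unfold W221.NS.gsq
    simp only [Fin.sum_univ_three]
    nlinarith [sq_nonneg (pd 0 (fun y => v y 0) x), sq_nonneg (pd 1 (fun y => v y 0) x),
      sq_nonneg (pd 0 (fun y => v y 1) x), sq_nonneg (pd 1 (fun y => v y 1) x),
      sq_nonneg (pd 0 (fun y => v y 2) x), sq_nonneg (pd 1 (fun y => v y 2) x),
      sq_nonneg (pd 2 (fun y => v y 2) x)]
  have e4 := mul_le_mul_of_nonneg_left e3 hs.le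
  have e5 : sg x * (sg x * JJ v x ^ 2) ≤ sg x * W221.NS.gsq v x := by
    calc sg x * (sg x * JJ v x ^ 2) = (sg x * JJ v x) ^ 2 := by ring
      _ ≤ _ := e2
      _ ≤ _ := e4
  exact le_of_mul_le_mul_left e5 hs

/-- The pointwise estimate. -/
lemma far1_pt {v : V → V} (hv : ContDiff ℝ ∞ v) (ha : Axi v) {x : V} {C₀ P e : ℝ} (hP : 0 < P)
    (hPx : P ≤ sg x) (he0 : 0 < e) (hc : |circ v x| ≤ C₀) :
    |2 * WW v x * JJ v x| ≤ W221.NS.gsq v x + C₀ ^ 2 * P ^ (-(2 + e)) * sg x ^ (-(1 - e)) := by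
  have hs : 0 < sg x := hP.trans_le hPx
  have hJ := J_gsq hv ha hs.ne'
  obtain ⟨-, -, -, h⟩ := p_Alg v hv ha
  obtain ⟨-, -, -, -, -, -, -, -, h9, -, -, -⟩ := h x
  have hC0 : 0 ≤ C₀ := (abs_nonneg _).trans hc
  have w1 : (sg x * WW v x) ^ 2 ≤ C₀ ^ 2 := by
    rw [← h9, ← sq_abs]
    exact pow_le_pow_left₀ (abs_nonneg _) hc 2
  have w2 : WW v x ^ 2 / sg x ≤ C₀ ^ 2 * sg x ^ (-3 : ℝ) := by
    have e3 : sg x ^ (-3 : ℝ) = (sg x ^ 3)⁻¹ := by
      rw [Real.rpow_neg hs.le]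
      norm_num
    rw [e3, ← div_eq_mul_inv, div_le_div_iff₀ hs (by positivity)]
    have : WW v x ^ 2 * sg x ^ 3 = (sg x * WW v x) ^ 2 * sg x := by ring
    rw [this]
    exact mul_le_mul_of_nonneg_right w1 hs.le
  have w3 : sg x ^ (-3 : ℝ) ≤ P ^ (-(2 + e)) * sg x ^ (-(1 - e)) := by
    have e4 : sg x ^ (-3 : ℝ) = sg x ^ (-(2 + e)) * sg x ^ (-(1 - e)) := by
      rw [← Real.rpow_add hs]
      congr 1
      ring
    rw [e4]
    exact mul_le_mul_of_nonneg_right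
      (Real.rpow_le_rpow_of_nonpos hP hPx (by linarith)) (Real.rpow_nonneg hs.le _)
  have w4 : |2 * WW v x * JJ v x| ≤ sg x * JJ v x ^ 2 + WW v x ^ 2 / sg x := by
    have e5 : sg x * (WW v x ^ 2 / sg x) = WW v x ^ 2 := by field_simp
    have e6 : |2 * WW v x * JJ v x| = 2 * |WW v x| * |JJ v x| := by
      rw [abs_mul, abs_mul, abs_two]
    rw [e6]
    refine le_of_mul_le_mul_left (a := sg x) ?_ hs
    rw [mul_add, e5]
    have q1 := sq_nonneg (sg x * |JJ v x| - |WW v x|)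
    have q2 := sq_abs (JJ v x)
    have q3 := sq_abs (WW v x)
    have q4 : (sg x * |JJ v x| - |WW v x|) ^ 2 =
        sg x * (sg x * JJ v x ^ 2) + WW v x ^ 2 - sg x * (2 * |WW v x| * |JJ v x|) := by
      rw [← q2, ← q3]
      ring
    linarith
  have w5 := mul_le_mul_of_nonneg_left w3 (sq_nonneg C₀)
  calc |2 * WW v x * JJ v x| ≤ sg x * JJ v x ^ 2 + WW v x ^ 2 / sg x := w4
    _ ≤ W221.NS.gsq v x + C₀ ^ 2 * (P ^ (-(2 + e)) * sg x ^ (-(1 - e))) := by linarith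
    _ = _ := by ring

/-- Negative powers of `T - t` are integrable. -/
lemma int_pow {T T₁ κ : ℝ} (hT : T₁ < T) (hκ : κ < 1) (A : ℝ) :
    ∫⁻ t in Ioo T₁ T, ENNReal.ofReal (A * (T - t) ^ (-κ)) < ⊤ := by
  have h1 := (intervalIntegral.intervalIntegrable_rpow' (a := T - T₁) (b := 0) (r := -κ)
    (by linarith)).comp_sub_left T
  have h2 : IntervalIntegrable (fun x => (T - x) ^ (-κ)) volume T₁ T := by
    simpa using h1
  have h3 : IntegrableOn (fun x => A * (T - x) ^ (-κ)) (Ioo T₁ T) :=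
    (((intervalIntegrable_iff_integrableOn_Ioc_of_le hT.le).1 h2).mono_set
      Ioo_subset_Ioc_self).const_mul A
  exact h3.lintegral_lt_top

theorem p_Far1 (hFi : StmFi) : StmFar1 := by
  intro T E c R H r h T₁ C₀ g u p hsol hr hrR hh hhH hT₁ hT₁T hg0 hg hC
  have hsub : Co c r h ⊆ Co c R H := Pool.Agent.Q285.AXI.co_mono hr hrR hhH
  have hus : ∀ t ∈ Ioo 0 T, ContDiff ℝ ∞ (u t) := fun t ht =>
    Pool.Agent.Q285.AXI.slice hsol.smooth_u ht
  obtain ⟨e, he⟩ : ∃ e : ℝ, e = (1 - 2 * g) / 2 := ⟨_, rfl⟩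
  have he0 : 0 < e := by rw [he]; linarith
  have he1 : e < 1 := by rw [he]; linarith
  have hge : g * (2 + e) < 1 := by rw [he]; nlinarith
  obtain ⟨B, hB⟩ : ∃ B : ENNReal, B = ∫⁻ x in Co c r h, ENNReal.ofReal (sg x ^ (-(1 - e))) :=
    ⟨_, rfl⟩
  have hBt : B < ⊤ := by
    rw [hB]
    exact hFi c r h (1 - e) (by linarith) (by linarith)
  -- the dissipation as a measurable function
  obtain ⟨D, hD⟩ : ∃ D : ℝ × V → ENNReal, D = (Ioo (0 : ℝ) T ×ˢ (univ : Set V)).piecewise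
      (fun z => ENNReal.ofReal (W221.NS.gsq (u z.1) z.2)) (fun _ => 0) := ⟨_, rfl⟩
  have hms : MeasurableSet (Ioo (0 : ℝ) T ×ˢ (univ : Set V)) :=
    measurableSet_Ioo.prod MeasurableSet.univ
  have hgc : ContinuousOn (fun z : ℝ × V => W221.NS.gsq (u z.1) z.2) (Ioo 0 T ×ˢ univ) := by
    have e3 : ∀ i j, ContinuousOn (fun z : ℝ × V => pd j (fun y => u z.1 y i) z.2)
        (Ioo 0 T ×ˢ univ) := fun i j =>
      (Pool.Agent.Q153.AXI.jpd (f := fun t x => u t x i)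
        (contDiffOn_pi.1 hsol.smooth_u i) j).continuousOn
    unfold W221.NS.gsq
    exact continuousOn_finsetSum _ fun i _ => continuousOn_finsetSum _ fun j _ => (e3 i j).pow 2
  have hDm : Measurable D := by
    rw [hD]
    exact ContinuousOn.measurable_piecewise
      (ENNReal.continuous_ofReal.comp_continuousOn hgc) continuousOn_const hms
  have hDt : ∀ t ∈ Ioo 0 T, ∀ x, D (t, x) = ENNReal.ofReal (W221.NS.gsq (u t) x) := by
    intro t ht x
    rw [hD, Set.piecewise_eq_of_mem _ _ _ (show (t, x) ∈ Ioo (0 : ℝ) T ×ˢ (univ : Set V) from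
      ⟨ht, mem_univ _⟩)]
  have hDf : ∫⁻ t in Ioo T₁ T, ∫⁻ x in Co c r h, D (t, x) < ⊤ := by
    have h1 : IntegrableOn (fun z : ℝ × V => W221.NS.gsq (u z.1) z.2) (Ioo T₁ T ×ˢ Co c r h) :=
      hsol.dis.mono_set (prod_mono (Ioo_subset_Ioo_left hT₁.le) hsub)
    have h2 := h1.lintegral_lt_top
    have h3 : ∫⁻ z in Ioo T₁ T ×ˢ Co c r h, ENNReal.ofReal (W221.NS.gsq (u z.1) z.2)
        = ∫⁻ z in Ioo T₁ T ×ˢ Co c r h, D z := by
      refine setLIntegral_congr_fun (measurableSet_Ioo.prod (Co_meas c r h)) fun z hz => ?_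
      exact (hDt z.1 ⟨hT₁.trans hz.1.1, hz.1.2⟩ z.2).symm
    rw [h3, Measure.volume_eq_prod, ← Measure.prod_restrict, lintegral_prod _ hDm.aemeasurable] at h2
    exact h2
  refine ⟨fun t => (∫⁻ x in Co c r h, D (t, x))
    + ENNReal.ofReal (C₀ ^ 2 * (T - t) ^ (-(g * (2 + e)))) * B, ?_, ?_, ?_⟩
  · have m1 : Measurable fun t => ∫⁻ x in Co c r h, D (t, x) := hDm.lintegral_prod_right'
    have m2 : Measurable fun t : ℝ => ENNReal.ofReal (C₀ ^ 2 * (T - t) ^ (-(g * (2 + e)))) :=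
      (((measurable_const.sub measurable_id).pow_const _).const_mul _).ennreal_ofReal
    exact m1.add (m2.mul_const B)
  · have m1 : Measurable fun t => ∫⁻ x in Co c r h, D (t, x) := hDm.lintegral_prod_right'
    rw [lintegral_add_left m1, lintegral_mul_const' _ _ hBt.ne]
    exact ENNReal.add_lt_top.2 ⟨hDf, ENNReal.mul_lt_top (int_pow hT₁T hge _) hBt⟩
  · intro t ht
    have htI : t ∈ Ioo 0 T := ⟨hT₁.trans ht.1, ht.2⟩
    have htp : 0 < T - t := by linarith [ht.2]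
    have hP : 0 < (T - t) ^ g := Real.rpow_pos_of_pos htp g
    have hsgc : Continuous (sg : V → ℝ) := by
      unfold sg
      fun_prop
    have hS : MeasurableSet {x | x ∈ Co c r h ∧ (T - t) ^ g ≤ sg x} :=
      (Co_meas c r h).inter (measurableSet_le measurable_const hsgc.measurable)
    have hPe : ((T - t) ^ g) ^ (-(2 + e)) = (T - t) ^ (-(g * (2 + e))) := by
      rw [← Real.rpow_mul htp.le]
      congr 1
      ring
    calc ∫⁻ x in {x | x ∈ Co c r h ∧ (T - t) ^ g ≤ sg x},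
          ENNReal.ofReal |2 * WW (u t) x * JJ (u t) x|
        ≤ ∫⁻ x in {x | x ∈ Co c r h ∧ (T - t) ^ g ≤ sg x}, (ENNReal.ofReal (W221.NS.gsq (u t) x)
          + ENNReal.ofReal (C₀ ^ 2 * (T - t) ^ (-(g * (2 + e))))
            * ENNReal.ofReal (sg x ^ (-(1 - e)))) := by
          refine setLIntegral_mono' hS fun x hx => ?_
          have h1 := far1_pt (hus t htI) (hsol.axi t htI) hP hx.2 he0
            (hC t ⟨ht.1.le, ht.2⟩ x (Co_sub_Cy c r h hx.1))
          rw [hPe] at h1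
          have h2 : 0 ≤ C₀ ^ 2 * (T - t) ^ (-(g * (2 + e))) := by positivity
          have h3 : 0 ≤ sg x ^ (-(1 - e)) := Real.rpow_nonneg (sg_nn x) _
          rw [← ENNReal.ofReal_mul h2, ← ENNReal.ofReal_add
            (Pool.Agent.Q285.AXI.gsq_nn _ x) (mul_nonneg h2 h3)]
          exact ENNReal.ofReal_le_ofReal h1
      _ ≤ ∫⁻ x in Co c r h, (ENNReal.ofReal (W221.NS.gsq (u t) x)
          + ENNReal.ofReal (C₀ ^ 2 * (T - t) ^ (-(g * (2 + e))))
            * ENNReal.ofReal (sg x ^ (-(1 - e)))) :=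
          lintegral_mono_set fun x hx => hx.1
      _ = _ := by
          rw [lintegral_add_left
            (Pool.Agent.Q153.AXI.gsqCont (hus t htI)).measurable.ennreal_ofReal,
            lintegral_const_mul' _ _ ENNReal.ofReal_ne_top, ← hB]
          congr 1
          exact lintegral_congr fun x => (hDt t htI x).symm

end Pool.Agent.V8H53.OW
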