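import Pool.Agent.V8H53.OW.Defs4

/-!
Project OW, fourth part: powers of `ρ²` are integrable (helper63).
-/

set_option autoImplicit false

open MeasureTheory Set Metric Filter Topology
open scoped ContDiff
open H459R3.NS Pool.Agent.W268.NS Pool.Agent.Q67.VD

namespace Pool.Agent.V8H53.OW

open Pool.Agent.Q85.CC Pool.Agent.Q85.CL Pool.Agent.TH305.AX Pool.Agent.Q67.AXI

namespace Fi

lemma int_abs {b R : ℝ} (hb1 : b < 1) :
    IntegrableOn (fun t : ℝ => |t| ^ (-b)) (Icc (-R) R) := by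
  rcases lt_or_ge R 0 with hR | hR
  · rw [Icc_eq_empty (by linarith)]
    exact integrableOn_empty
  have h1 : IntegrableOn (fun t : ℝ => |t| ^ (-b)) (Icc 0 R) := by
    have h2 : IntervalIntegrable (fun t : ℝ => t ^ (-b)) volume 0 R :=
      intervalIntegral.intervalIntegrable_rpow' (by linarith)
    rw [intervalIntegrable_iff_integrableOn_Icc_of_le hR] at h2
    refine h2.congr_fun (fun t ht => ?_) measurableSet_Icc
    simp only
    rw [abs_of_nonneg ht.1]
  have h3 : IntegrableOn (fun t : ℝ => |t| ^ (-b)) (Icc (-R) 0) := by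
    have h4 := (Measure.measurePreserving_neg (volume : Measure ℝ)).integrableOn_comp_preimage
      (MeasurableEquiv.neg ℝ).measurableEmbedding (f := fun t : ℝ => |t| ^ (-b)) (s := Icc 0 R)
    have h5 := h4.2 h1
    have e1 : (fun t : ℝ => |t| ^ (-b)) ∘ (fun t : ℝ => -t) = fun t : ℝ => |t| ^ (-b) := by
      funext t
      simp
    have e2 : (fun t : ℝ => -t) ⁻¹' Icc 0 R = Icc (-R) 0 := by
      ext t
      simp only [mem_preimage, mem_Icc]
      constructor <;> rintro ⟨a1, a2⟩ <;> constructor <;> linarith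
    rw [← e2, ← e1]
    exact h5
  have h6 := h3.union h1
  rwa [Icc_union_Icc_eq_Icc (by linarith) hR] at h6

end Fi

/-- FI. Powers of `ρ²` are integrable. -/
theorem p_Fi : StmFi := by
  intro c r h b hb hb1
  have hg0 : Integrable ((Icc (-|r|) |r|).indicator (fun t : ℝ => |t| ^ (-b))) :=
    (Fi.int_abs hb1).integrable_indicator measurableSet_Icc
  have hg2 : Integrable ((Icc (c - h) (c + h)).indicator (fun _ : ℝ => (1 : ℝ))) := by
    refine IntegrableOn.integrable_indicator ?_ measurableSet_Icc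
    exact integrableOn_const (by simp) (by simp)
  let g : Fin 3 → ℝ → ℝ := ![(Icc (-|r|) |r|).indicator (fun t : ℝ => |t| ^ (-b)),
    (Icc (-|r|) |r|).indicator (fun t : ℝ => |t| ^ (-b)),
    (Icc (c - h) (c + h)).indicator (fun _ : ℝ => (1 : ℝ))]
  have hg : ∀ i, Integrable (g i) := by
    intro i
    fin_cases i
    · exact hg0
    · exact hg0
    · exact hg2
  have hG : Integrable (fun x : Fin 3 → ℝ => ∏ i, g i (x i)) := Integrable.fintype_prod hg
  have hmeas : MeasurableSet (Co c r h) := by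
    have o1 : IsOpen {x : V | sg x < r ^ 2} := by
      refine isOpen_lt ?_ continuous_const
      unfold sg
      fun_prop
    have o2 : IsOpen {x : V | |x 2 - c| < h} := by
      refine isOpen_lt ?_ continuous_const
      fun_prop
    exact (o1.inter o2).measurableSet
  refine lt_of_le_of_lt ?_ hG.2
  refine (lintegral_mono_ae ?_).trans (setLIntegral_le_lintegral (Co c r h) _)
  refine (ae_restrict_iff' hmeas).2 ?_
  filter_upwards [Measure.ae_eval_ne (μ := fun _ : Fin 3 => (volume : Measure ℝ)) 0 0,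
    Measure.ae_eval_ne (μ := fun _ : Fin 3 => (volume : Measure ℝ)) 1 0] with x h0 h1 hx
  have hx1 : sg x < r ^ 2 := hx.1
  have hx2 : |x 2 - c| < h := hx.2
  have esg : sg x = x 0 ^ 2 + x 1 ^ 2 := rfl
  have m0 : x 0 ∈ Icc (-|r|) |r| := by
    have : x 0 ^ 2 ≤ r ^ 2 := by nlinarith [sq_nonneg (x 1)]
    exact abs_le.1 (sq_le_sq.1 this)
  have m1 : x 1 ∈ Icc (-|r|) |r| := by
    have : x 1 ^ 2 ≤ r ^ 2 := by nlinarith [sq_nonneg (x 0)]
    exact abs_le.1 (sq_le_sq.1 this)
  have m2 : x 2 ∈ Icc (c - h) (c + h) := by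
    have := abs_lt.1 hx2
    exact ⟨by linarith, by linarith⟩
  have e : ∏ i, g i (x i) = |x 0| ^ (-b) * |x 1| ^ (-b) := by
    rw [Fin.prod_univ_three]
    show (Icc (-|r|) |r|).indicator (fun t : ℝ => |t| ^ (-b)) (x 0) *
      (Icc (-|r|) |r|).indicator (fun t : ℝ => |t| ^ (-b)) (x 1) *
      (Icc (c - h) (c + h)).indicator (fun _ : ℝ => (1 : ℝ)) (x 2) = _
    rw [indicator_of_mem m0, indicator_of_mem m1, indicator_of_mem m2, mul_one]
  have p0 : 0 < |x 0| := abs_pos.2 h0
  have p1 : 0 < |x 1| := abs_pos.2 h1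
  have hnn : 0 ≤ |x 0| ^ (-b) * |x 1| ^ (-b) := by positivity
  rw [e, Real.enorm_eq_ofReal hnn]
  refine ENNReal.ofReal_le_ofReal ?_
  rw [← Real.mul_rpow p0.le p1.le]
  refine Real.rpow_le_rpow_of_nonpos (mul_pos p0 p1) ?_ (by linarith)
  rw [esg]
  nlinarith [sq_nonneg (|x 0| - |x 1|), sq_abs (x 0), sq_abs (x 1), mul_pos p0 p1]

end Pool.Agent.V8H53.OW
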