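import Pool.Agent.V8H53.OW.L5b

/-!
Project OW: the production where `|v_θ / ρ|` is small is absorbed by the dissipation, second
version.
-/

set_option autoImplicit false

open MeasureTheory Set Metric Filter Topology
open scoped ContDiff
open H459R3.NS Pool.Agent.W268.NS Pool.Agent.Q67.VD

namespace Pool.Agent.V8H53.OW

open Pool.Agent.Q85.CC Pool.Agent.Q85.CL Pool.Agent.TH305.AX
open Pool.Agent.Q67.AXI
open Pool.Agent.W583.MD (sm_pd cs_pd pd_mul' Z Z.add Z.sub Z.smul Z.sum int_cs Z_pd)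
open Pool.Agent.TH305.DR (pd_add' pd_sub' pd_neg' pd_cmul pd_const')
open Pool.Agent.V8Lead (p_AAs p_Alg p_AxF p_H0 p_Dt p_Jnt p_EqO p_EqW)
open Pool.Agent.Q175.AX (Co_open Cy_compact Co_meas Co_fin ind_int ind_val cut_dich const_pd cut_out
  cut_mem Co_sub_Cy sq_pd sg_nn gr2_nn sg_cd pd_sg gr2_sm pd_comp_at)

variable {v : V → V} {φ : V → ℝ} {c r h r1 h1 K σ : ℝ}

lemma kk_bd {s : ℝ} (hs : 0 ≤ s) : |k0 (s - 1) - s * k1 (s - 1)| ≤ 2 := by
  have h1 := k0_nn (s - 1)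
  have h2 := k0_ge (s - 1)
  have h4 := k1_nn (s - 1)
  have h5 := k1_le (s - 1)
  have h6 := mul_nonneg hs h4
  have h7 := mul_le_mul_of_nonneg_left h5 hs
  rw [abs_le]
  rcases le_or_gt s 2 with h | h
  · have h3 : k0 (s - 1) ≤ 1 := (k0_le _).trans (max_le (by linarith) zero_le_one)
    constructor <;> linarith
  · have h8 : k1 (s - 1) = 1 := k1_one (by linarith)
    have h3 : k0 (s - 1) ≤ s - 1 := (k0_le _).trans (max_le le_rfl (by linarith))
    rw [h8]
    constructor <;> linarith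

/-- Integration by parts in the term of the production, where `W ^ 2` is not above `μ`. -/
lemma win_en4 {q μ : V → ℝ} (hv : ContDiff ℝ ∞ v) (ha : Axi v) (hK : 0 ≤ K) (hr : 0 ≤ r)
    (hφ : Cut c r h r1 h1 K φ) (hb : ∀ x ∈ Out c r h r1 h1, BdA K v x) (hq : ContDiff ℝ ∞ q)
    (hμ : ContDiff ℝ ∞ μ) (hμ0 : ∀ x, 0 < μ x) {B : ℝ} (hB : ∀ x, k2 x ≤ B) :
    ∫ x, φ x ^ 2 * (-(k2 (-q x) * gr2 q x) + k1 (-q x) * (σ * (2 * WW v x * JJ v x))) ≤
      (∫ x, φ x ^ 2 * (k1 (-q x) * (k1 (WW v x ^ 2 / μ x - 1) * (σ * (2 * WW v x * JJ v x)))))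
        + σ ^ 2 * B * (∫ x, φ x ^ 2 * μ x ^ 2) + 2 * |σ| * (∫ x, φ x ^ 2 * |pd 2 μ x|)
        + (volume (Co c r h)).toReal * (|σ| * (2 * K ^ 3)) := by
  obtain ⟨⟨-, sW, sJ, -⟩, -, -, hid⟩ := p_Alg v hv ha
  have hφ2c : HasCompactSupport (fun y => φ y ^ 2) := by
    have e : (fun y => φ y ^ 2) = fun y => φ y * φ y := by
      funext y
      ring
    rw [e]
    exact hφ.cs.mul_right
  have hφ2 : Continuous (fun y => φ y ^ 2) := hφ.sm.continuous.pow 2
  obtain ⟨ζ, hζ⟩ : ∃ ζ : V → ℝ, ζ = fun y => φ y ^ 2 := ⟨_, rfl⟩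
  have hζs : ContDiff ℝ ∞ ζ := by rw [hζ]; exact hφ.sm.pow 2
  have hζc : HasCompactSupport ζ := by rw [hζ]; exact hφ2c
  have hW2 : ContDiff ℝ ∞ (fun y => WW v y ^ 2) := sW.pow 2
  have hdv : ContDiff ℝ ∞ (fun y => WW v y ^ 2 / μ y) := hW2.div hμ fun x => (hμ0 x).ne'
  have hdp : ∀ x, pd 2 (fun y => WW v y ^ 2 / μ y) x
      = (2 * WW v x * pd 2 (WW v) x - WW v x ^ 2 / μ x * pd 2 μ x) / μ x := by
    intro x
    have h1 : (fun y => WW v y ^ 2) = fun y => (fun y => WW v y ^ 2 / μ y) y * μ y := by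
      funext y
      have := (hμ0 y).ne'
      field_simp
    have h2 : pd 2 (fun y => WW v y ^ 2) x = WW v x ^ 2 / μ x * pd 2 μ x
        + pd 2 (fun y => WW v y ^ 2 / μ y) x * μ x := by
      conv_lhs => rw [h1]
      rw [pd_mulf hdv hμ]
    rw [sq_pd sW] at h2
    rw [eq_div_iff (hμ0 x).ne']
    linarith
  have hdv1 : ContDiff ℝ ∞ (fun y => WW v y ^ 2 / μ y - 1) := hdv.sub contDiff_const
  have hdp1 : ∀ x, pd 2 (fun y => WW v y ^ 2 / μ y - 1) x
      = (2 * WW v x * pd 2 (WW v) x - WW v x ^ 2 / μ x * pd 2 μ x) / μ x := by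
    intro x
    rw [pd_sub' hdv contDiff_const, pd_const', ← hdp]
    ring
  obtain ⟨H, hH⟩ : ∃ H : V → ℝ, H = fun y => tr (μ y) (WW v y) := ⟨_, rfl⟩
  have hkc : ContDiff ℝ ∞ (fun y => k0 (WW v y ^ 2 / μ y - 1)) := k0_cd.comp hdv1
  have hHs : ContDiff ℝ ∞ H := by
    rw [hH]
    unfold tr
    exact hW2.sub (hμ.mul hkc)
  have hHp : ∀ x, pd 2 H x = 2 * WW v x * pd 2 (WW v) x
      * (1 - k1 (WW v x ^ 2 / μ x - 1)) - pd 2 μ x * (k0 (WW v x ^ 2 / μ x - 1)
        - WW v x ^ 2 / μ x * k1 (WW v x ^ 2 / μ x - 1)) := by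
    intro x
    have h1 : H = fun y => (fun y => WW v y ^ 2) y
        - (fun y => μ y * (fun y => k0 (WW v y ^ 2 / μ y - 1)) y) y := by
      rw [hH]
      rfl
    rw [h1, pd_sub' hW2 (hμ.mul hkc), pd_mulf hμ hkc, sq_pd sW]
    beta_reduce
    rw [pd_comp_at (k0_hd _) ((hdv1.differentiable (by simp)) x), hdp1]
    have := (hμ0 x).ne'
    field_simp
    ring
  have hkq : ContDiff ℝ ∞ (fun y => k1 (-q y)) := k1_cd.comp hq.neg
  have hqn : ContDiff ℝ ∞ (fun y => -q y) := hq.neg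
  have hqp : ∀ j x, pd j (fun y => -q y) x = -pd j q x := by
    intro j x
    have e : (fun y => -q y) = fun y => (fun _ => (-1 : ℝ)) y * q y := by
      funext y
      ring
    rw [e, pd_mulf contDiff_const hq, pd_const']
    ring
  have hkp : ∀ x, pd 2 (fun y => k1 (-q y)) x = -(k2 (-q x) * pd 2 q x) := by
    intro x
    rw [pd_comp_at (k1_hd (-q x)) ((hqn.differentiable (by simp)) x), hqp]
    ring
  have Z3 := (Z_pd (hζs.mul (hkq.mul hHs)) hζc.mul_right 2).smul (-σ)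
  have ck1 : Continuous (fun x => k1 (-q x)) := hkq.continuous
  have ck2 : Continuous (fun x => k2 (-q x)) := k2_cd.continuous.comp hq.continuous.neg
  have ck3 : Continuous (fun x => k1 (WW v x ^ 2 / μ x - 1)) := k1_cd.continuous.comp hdv1.continuous
  have cWJ : Continuous (fun x => σ * (2 * WW v x * JJ v x)) := continuous_const.mul
    ((continuous_const.mul sW.continuous).mul sJ.continuous)
  have iR : Integrable (fun x => φ x ^ 2 * (k1 (-q x) * (k1 (WW v x ^ 2 / μ x - 1)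
      * (σ * (2 * WW v x * JJ v x))))) :=
    int_cs (hφ2.mul (ck1.mul (ck3.mul cWJ))) hφ2c.mul_right
  have iM : Integrable (fun x => φ x ^ 2 * μ x ^ 2) :=
    int_cs (hφ2.mul (hμ.continuous.pow 2)) hφ2c.mul_right
  have iP : Integrable (fun x => φ x ^ 2 * |pd 2 μ x|) :=
    int_cs (hφ2.mul (sm_pd hμ 2).continuous.abs) hφ2c.mul_right
  have iL : Integrable (fun x => φ x ^ 2 * (-(k2 (-q x) * gr2 q x)
      + k1 (-q x) * (σ * (2 * WW v x * JJ v x)))) := by
    refine int_cs (hφ2.mul ?_) hφ2c.mul_right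
    exact ((ck2.mul (gr2_sm hq).continuous).neg).add (ck1.mul cWJ)
  have iO := ind_int (c := c) (h := h) hr (|σ| * (2 * K ^ 3))
  have hpt : ∀ x, φ x ^ 2 * (-(k2 (-q x) * gr2 q x) + k1 (-q x) * (σ * (2 * WW v x * JJ v x))) ≤
      (((-σ * pd 2 (fun y => ζ y * (k1 (-q y) * H y)) x
        + φ x ^ 2 * (k1 (-q x) * (k1 (WW v x ^ 2 / μ x - 1) * (σ * (2 * WW v x * JJ v x)))))
        + σ ^ 2 * B * (φ x ^ 2 * μ x ^ 2)) + 2 * |σ| * (φ x ^ 2 * |pd 2 μ x|))
        + (Co c r h).indicator (fun _ : V => |σ| * (2 * K ^ 3)) x := by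
    intro x
    have e2 : φ x ^ 2 = ζ x := by rw [hζ]
    have hζ0 : 0 ≤ ζ x := by rw [hζ]; positivity
    have hHx : H x = tr (μ x) (WW v x) := by rw [hH]
    obtain ⟨t1, t2, t3⟩ := tr_bd (hμ0 x) (WW v x)
    rw [← hHx] at t1 t2 t3
    have hout : σ * (pd 2 ζ x * (k1 (-q x) * H x)) ≤
        (Co c r h).indicator (fun _ : V => |σ| * (2 * K ^ 3)) x := by
      rcases cut_dich hφ x with ⟨ho, hc⟩ | ⟨k, hk⟩
      · rw [indicator_of_mem hc]
        obtain ⟨b1, b2, b3, b4, b5, b6⟩ := hb x ho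
        obtain ⟨c1, c2, c3⟩ := hφ.bd x
        have hp : |pd 2 ζ x| ≤ 2 * K := by
          rw [hζ, sq_pd hφ.sm]
          rw [abs_mul, abs_mul, abs_two, abs_of_nonneg (hφ.nn x)]
          calc 2 * φ x * |pd 2 φ x| ≤ 2 * 1 * K := by
                gcongr
                · exact hφ.le x
                · exact c1 2
            _ = 2 * K := by ring
        have t3 : |k1 (-q x) * H x| ≤ 1 * K ^ 2 := by
          rw [abs_mul, abs_of_nonneg (k1_nn _), abs_of_nonneg t1]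
          refine mul_le_mul (k1_le _) (t2.trans ?_) t1 zero_le_one
          rw [← sq_abs]
          exact pow_le_pow_left₀ (abs_nonneg _) b3 2
        have t4 : |σ * (pd 2 ζ x * (k1 (-q x) * H x))| ≤ |σ| * (2 * K * (1 * K ^ 2)) := by
          rw [abs_mul, abs_mul]
          exact mul_le_mul_of_nonneg_left (mul_le_mul hp t3 (abs_nonneg _) (by positivity))
            (abs_nonneg _)
        have e : |σ| * (2 * K * (1 * K ^ 2)) = |σ| * (2 * K ^ 3) := by ring
        rw [← e]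
        exact (le_abs_self _).trans t4
      · have hk' : ζ =ᶠ[𝓝 x] fun _ => k ^ 2 := by
          filter_upwards [hk] with y hy
          rw [hζ]
          beta_reduce
          rw [hy]
        obtain ⟨a1, a2, a3⟩ := const_pd hk'
        rw [a1 2, zero_mul, mul_zero]
        exact indicator_nonneg (fun _ _ => by positivity) _
    have hgr : pd 2 q x ^ 2 ≤ gr2 q x := by
      unfold gr2
      rw [Fin.sum_univ_three]
      have := sq_nonneg (pd 0 q x)
      have := sq_nonneg (pd 1 q x)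
      linarith
    have hkk : 0 ≤ ζ x * k2 (-q x) := mul_nonneg hζ0 (k2_nn _)
    have h1 := mul_le_mul_of_nonneg_left hgr hkk
    -- the term with the derivative of `k1`
    have hY : -(pd 2 q x ^ 2) - σ * pd 2 q x * H x ≤ σ ^ 2 * μ x ^ 2 := by
      have g1 : H x ^ 2 ≤ (2 * μ x) ^ 2 := pow_le_pow_left₀ t1 t3 2
      nlinarith [sq_nonneg (pd 2 q x + σ * H x / 2), mul_le_mul_of_nonneg_left g1 (sq_nonneg σ)]
    have hY2 : ζ x * k2 (-q x) * (-(pd 2 q x ^ 2) - σ * pd 2 q x * H x)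
        ≤ σ ^ 2 * B * (ζ x * μ x ^ 2) := by
      calc _ ≤ ζ x * k2 (-q x) * (σ ^ 2 * μ x ^ 2) := mul_le_mul_of_nonneg_left hY hkk
        _ ≤ ζ x * B * (σ ^ 2 * μ x ^ 2) := by
            refine mul_le_mul_of_nonneg_right ?_ (by positivity)
            exact mul_le_mul_of_nonneg_left (hB _) hζ0
        _ = _ := by ring
    have hY3 : -(σ * (ζ x * (k1 (-q x) * (pd 2 μ x * (k0 (WW v x ^ 2 / μ x - 1)
        - WW v x ^ 2 / μ x * k1 (WW v x ^ 2 / μ x - 1))))))
        ≤ 2 * |σ| * (ζ x * |pd 2 μ x|) := by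
      have g1 := kk_bd (s := WW v x ^ 2 / μ x) (div_nonneg (sq_nonneg _) (hμ0 x).le)
      refine (neg_le_abs _).trans ?_
      rw [abs_mul, abs_mul, abs_mul, abs_mul, abs_of_nonneg hζ0, abs_of_nonneg (k1_nn (-q x))]
      calc |σ| * (ζ x * (k1 (-q x) * (|pd 2 μ x| * |k0 (WW v x ^ 2 / μ x - 1)
              - WW v x ^ 2 / μ x * k1 (WW v x ^ 2 / μ x - 1)|)))
          ≤ |σ| * (ζ x * (1 * (|pd 2 μ x| * 2))) := by
            refine mul_le_mul_of_nonneg_left (mul_le_mul_of_nonneg_left (mul_le_mul (k1_le _)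
              (mul_le_mul_of_nonneg_left g1 (abs_nonneg _)) (by positivity) zero_le_one) hζ0)
              (abs_nonneg _)
        _ = _ := by ring
    have e6 : pd 2 (fun y => ζ y * (k1 (-q y) * H y)) x
        = ζ x * (k1 (-q x) * pd 2 H x + -(k2 (-q x) * pd 2 q x) * H x)
          + pd 2 ζ x * (k1 (-q x) * H x) := by
      rw [pd_mulf hζs (hkq.mul hHs), pd_mulf hkq hHs]
      beta_reduce
      rw [hkp]
    rw [e6, (hid x).2.2.2.2.2.1, e2, hHp]
    linarith
  have h1 := integral_mono iL ((((Z3.1.add iR).add (iM.const_mul (σ ^ 2 * B))).add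
    (iP.const_mul (2 * |σ|))).add iO) hpt
  have h2 := integral_add (((Z3.1.add iR).add (iM.const_mul (σ ^ 2 * B))).add
    (iP.const_mul (2 * |σ|))) iO
  have h2' := integral_add ((Z3.1.add iR).add (iM.const_mul (σ ^ 2 * B)))
    (iP.const_mul (2 * |σ|))
  have h3 := integral_add (Z3.1.add iR) (iM.const_mul (σ ^ 2 * B))
  have h4 := integral_add Z3.1 iR
  simp only [Pi.add_apply] at h1 h2 h2' h3 h4
  rw [h2, h2', h3, h4, Z3.2, zero_add, ind_val, integral_const_mul, integral_const_mul] at h1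
  exact h1

end Pool.Agent.V8H53.OW
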