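import Pool.Agent.V8H53.OW.Defs2
import Pool.Agent.V8H63.OW.DGA
import Pool.Agent.Q257.AXI.Alg
import Pool.Agent.Q182.AXI.AAs

/-!
Project OW, second part: the threshold `C (|x - a|² + τ) ^ (-d)` (helper63).
-/

set_option autoImplicit false

open MeasureTheory Set Metric Filter Topology
open scoped ContDiff
open H459R3.NS Pool.Agent.W268.NS Pool.Agent.Q67.VD

namespace Pool.Agent.V8H53.OW

open Pool.Agent.Q85.CC Pool.Agent.Q85.CL Pool.Agent.TH305.AX Pool.Agent.Q67.AXI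

namespace Thr2

theorem alg : StmAlg := Pool.Agent.Q257.AXI.t_Alg Pool.Agent.Q182.AXI.aas
  (Pool.Agent.Q257.AXI.t_AxF Pool.Agent.Q182.AXI.aas)

variable {c τ : ℝ}

lemma sg_nn (x : V) : 0 ≤ sg x := by unfold sg; positivity

lemma X2_pos (hτ : 0 < τ) (x : V) : 0 < X2 c τ x := by
  have h1 := sg_nn x
  have h2 := sq_nonneg (x 2 - c)
  unfold X2
  linarith

lemma X2_cd : ContDiff ℝ ∞ (X2 c τ) := by unfold X2 sg; fun_prop

/-- the centre -/
def ce (c : ℝ) (j : Fin 3) : ℝ := if j = 2 then c else 0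

lemma pd_X2 (j : Fin 3) (x : V) : pd j (X2 c τ) x = 2 * (x j - ce c j) := by
  have e : X2 c τ = fun y : V => sg y + ((y 2 * y 2 + (-2 * c) * y 2) + (c ^ 2 + τ)) := by
    funext y
    unfold X2
    ring
  have d : ∀ i : Fin 3, Differentiable ℝ fun y : V => y i := fun i => by fun_prop
  have d1 : Differentiable ℝ fun y : V => y 2 * y 2 := by fun_prop
  have d2 : Differentiable ℝ fun y : V => (-2 * c) * y 2 := by fun_prop
  have d3 : Differentiable ℝ fun _ : V => c ^ 2 + τ := by fun_prop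
  have d4 : Differentiable ℝ fun y : V => y 2 * y 2 + (-2 * c) * y 2 := d1.add d2
  have d5 : Differentiable ℝ fun y : V => (y 2 * y 2 + (-2 * c) * y 2) + (c ^ 2 + τ) := d4.add d3
  have ds : Differentiable ℝ sg := Pool.Agent.V8H63.OW.sg_cd.differentiable (by simp)
  have c1 : pd j (fun _ : V => (c ^ 2 + τ : ℝ)) x = 0 := by
    unfold pd
    simp
  rw [e, Pool.Agent.V8H63.OW.pd_add1 ds d5, Pool.Agent.V8H63.OW.pd_add1 d4 d3,
    Pool.Agent.V8H63.OW.pd_add1 d1 d2, Pool.Agent.V8H63.OW.pd_cmul1 _ (d 2),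
    Pool.Agent.V8H63.OW.pd_mul1 (d 2) (d 2), Pool.Agent.V8H63.OW.pd_crd1,
    Pool.Agent.V8H63.OW.pd_sg, c1]
  unfold ce
  fin_cases j <;> simp <;> ring

lemma pw_cd (hτ : 0 < τ) (a : ℝ) : ContDiff ℝ ∞ (fun y : V => X2 c τ y ^ a) :=
  X2_cd.rpow_const_of_ne fun x => (X2_pos hτ x).ne'

lemma pw_pd (hτ : 0 < τ) (a : ℝ) (j : Fin 3) (x : V) :
    pd j (fun y : V => X2 c τ y ^ a) x = a * X2 c τ x ^ (a - 1) * (2 * (x j - ce c j)) := by
  rw [Pool.Agent.V8H63.OW.pd_comp1 (g := fun s : ℝ => s ^ a) (f := X2 c τ)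
    (Real.hasDerivAt_rpow_const (Or.inl (X2_pos hτ x).ne'))
    ((X2_cd.differentiable (by simp)) x), pd_X2]

lemma pw_pd2 (hτ : 0 < τ) (C a : ℝ) (j : Fin 3) (x : V) :
    pd j (pd j (fun y : V => C * X2 c τ y ^ a)) x =
      C * a * ((a - 1) * X2 c τ x ^ (a - 2) * (4 * (x j - ce c j) ^ 2) + 2 * X2 c τ x ^ (a - 1)) := by
  have h1 : pd j (fun y : V => C * X2 c τ y ^ a) =
      fun y => (C * a * 2) * (X2 c τ y ^ (a - 1) * (y j - ce c j)) := by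
    funext y
    rw [Pool.Agent.V8H63.OW.pd_cmul1 C ((pw_cd hτ a).differentiable (by simp)), pw_pd hτ]
    ring
  have h2 : Differentiable ℝ fun y : V => X2 c τ y ^ (a - 1) :=
    (pw_cd hτ (a - 1)).differentiable (by simp)
  have h3 : Differentiable ℝ fun y : V => y j - ce c j := by fun_prop
  have h4 : Differentiable ℝ fun y : V => X2 c τ y ^ (a - 1) * (y j - ce c j) := h2.mul h3
  have h5 : pd j (fun y : V => y j - ce c j) x = 1 := by
    rw [Pool.Agent.V8H63.OW.pd_sub1 (by fun_prop) (by fun_prop), Pool.Agent.V8H63.OW.pd_crd1,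
      if_pos rfl]
    have : pd j (fun _ : V => ce c j) x = 0 := by unfold pd; simp
    rw [this]; ring
  rw [h1, Pool.Agent.V8H63.OW.pd_cmul1 _ h4, Pool.Agent.V8H63.OW.pd_mul1 h2 h3, h5, pw_pd hτ]
  have e : (a - 1 - 1 : ℝ) = a - 2 := by ring
  rw [e]
  ring

lemma LL_pw (hτ : 0 < τ) (C a : ℝ) {x : V} (hx : sg x ≠ 0) :
    LL (fun y : V => C * X2 c τ y ^ a) x =
      C * a * (4 * (a - 1) * ((X2 c τ x - τ) * X2 c τ x ^ (a - 2)) + 10 * X2 c τ x ^ (a - 1)) := by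
  unfold LL lap RR
  rw [Fin.sum_univ_three, pw_pd2 hτ, pw_pd2 hτ, pw_pd2 hτ,
    Pool.Agent.V8H63.OW.pd_cmul1 C ((pw_cd hτ a).differentiable (by simp)),
    Pool.Agent.V8H63.OW.pd_cmul1 C ((pw_cd hτ a).differentiable (by simp)), pw_pd hτ, pw_pd hτ]
  have e0 : ce c 0 = 0 := by unfold ce; simp
  have e1 : ce c 1 = 0 := by unfold ce; simp
  have e2 : ce c 2 = c := by unfold ce; simp
  rw [e0, e1, e2]
  have e3 : X2 c τ x - τ = x 0 ^ 2 + x 1 ^ 2 + (x 2 - c) ^ 2 := by unfold X2 sg; ring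
  have e4 : x 0 * (C * (a * X2 c τ x ^ (a - 1) * (2 * (x 0 - 0)))) +
      x 1 * (C * (a * X2 c τ x ^ (a - 1) * (2 * (x 1 - 0)))) =
      sg x * (2 * C * a * X2 c τ x ^ (a - 1)) := by unfold sg; ring
  rw [e4, e3]
  have e5 : 2 / sg x * (sg x * (2 * C * a * X2 c τ x ^ (a - 1))) = 4 * C * a * X2 c τ x ^ (a - 1) := by
    field_simp
    ring
  rw [e5]
  ring

lemma adv_pw (hτ : 0 < τ) (C a : ℝ) {v : V → V} (hv : ContDiff ℝ ∞ v) (ha : Axi v) (x : V) :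
    W221.NS.adv v (fun y : V => C * X2 c τ y ^ a) x =
      2 * (C * a) * X2 c τ x ^ (a - 1) * (sg x * UU v x + (x 2 - c) * v x 2) := by
  have hrad : x 0 * v x 0 + x 1 * v x 1 = sg x * UU v x := by
    obtain ⟨-, -, -, hid⟩ := alg v hv ha
    exact (hid x).2.2.2.2.2.2.2.2.2.1
  have hd := (pw_cd (c := c) hτ a).differentiable (by simp)
  unfold W221.NS.adv
  rw [Fin.sum_univ_three, Pool.Agent.V8H63.OW.pd_cmul1 C hd, Pool.Agent.V8H63.OW.pd_cmul1 C hd,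
    Pool.Agent.V8H63.OW.pd_cmul1 C hd, pw_pd hτ, pw_pd hτ, pw_pd hτ, ← hrad]
  have e0 : ce c 0 = 0 := by unfold ce; simp
  have e1 : ce c 1 = 0 := by unfold ce; simp
  have e2 : ce c 2 = c := by unfold ce; simp
  rw [e0, e1, e2]
  ring

end Thr2

open Thr2

theorem p_Thr2 : StmThr2 := by
  intro C d X₀ hC hd0 hd1 hX₀
  obtain ⟨κ, hκ⟩ : ∃ κ : ℝ, κ = max 1 (2 * d - 1) := ⟨_, rfl⟩
  have hκ1 : 1 ≤ κ := by rw [hκ]; exact le_max_left _ _
  have hκ2 : 2 * d - 1 ≤ κ := by rw [hκ]; exact le_max_right _ _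
  have hκ3 : d ≤ κ := by
    rcases le_total d 1 with h | h <;> linarith
  refine ⟨C * d * (1 + 2 * X₀ ^ (κ + 1 - 2 * d) + 10 * X₀ ^ (κ - d)), by positivity, ?_⟩
  intro c τ v hτ hv ha x hx hX
  rw [← hκ]
  have hXp := X2_pos (c := c) hτ x
  obtain ⟨X, hXd⟩ : ∃ X : ℝ, X = X2 c τ x := ⟨_, rfl⟩
  rw [← hXd] at hXp hX
  rw [LL_pw hτ C (-d) hx, adv_pw hτ C (-d) hv ha x, ← hXd]
  -- powers
  have p1 : X ^ (-d - 2) * X = X ^ (-d - 1) := by
    rw [← Real.rpow_add_one hXp.ne']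
    congr 1
    ring
  have p2 : X ^ (-(2 * d)) ≤ X₀ ^ (κ + 1 - 2 * d) * X ^ (-κ - 1) := by
    have e : X ^ (-(2 * d)) = X ^ (κ + 1 - 2 * d) * X ^ (-κ - 1) := by
      rw [← Real.rpow_add hXp]
      congr 1
      ring
    rw [e]
    exact mul_le_mul_of_nonneg_right (Real.rpow_le_rpow hXp.le hX (by linarith))
      (Real.rpow_nonneg hXp.le _)
  have p3 : X ^ (-d - 1) ≤ X₀ ^ (κ - d) * X ^ (-κ - 1) := by
    have e : X ^ (-d - 1) = X ^ (κ - d) * X ^ (-κ - 1) := by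
      rw [← Real.rpow_add hXp]
      congr 1
      ring
    rw [e]
    exact mul_le_mul_of_nonneg_right (Real.rpow_le_rpow hXp.le hX (by linarith))
      (Real.rpow_nonneg hXp.le _)
  obtain ⟨Y, hY⟩ : ∃ Y : ℝ, Y = X ^ (-d - 1) := ⟨_, rfl⟩
  obtain ⟨Z, hZ⟩ : ∃ Z : ℝ, Z = X ^ (-(2 * d)) := ⟨_, rfl⟩
  obtain ⟨Q, hQ⟩ : ∃ Q : ℝ, Q = X ^ (-κ - 1) := ⟨_, rfl⟩
  have hY0 : 0 < Y := by rw [hY]; exact Real.rpow_pos_of_pos hXp _
  have hZ0 : 0 < Z := by rw [hZ]; exact Real.rpow_pos_of_pos hXp _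
  have hQ0 : 0 < Q := by rw [hQ]; exact Real.rpow_pos_of_pos hXp _
  have hYZ : Y ^ 2 * X ^ 2 = Z := by
    rw [hY, hZ, ← Real.rpow_natCast (X ^ (-d - 1)) 2, ← Real.rpow_mul hXp.le, ← Real.rpow_natCast X 2,
      ← Real.rpow_add hXp]
    congr 1
    push_cast
    ring
  have hs : sg x ≤ X := by
    rw [hXd]; unfold X2
    have := sq_nonneg (x 2 - c)
    linarith
  have hz : (x 2 - c) ^ 2 ≤ X := by
    rw [hXd]; unfold X2
    have := sg_nn x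
    linarith
  have hs0 := sg_nn x
  -- the first order term
  have a1 : |sg x * UU v x * Y| ≤ (UU v x ^ 2 + Z) / 2 := by
    have h1 : |sg x * UU v x * Y| ≤ |UU v x| * (X * Y) := by
      rw [abs_mul, abs_mul, abs_of_nonneg hs0, abs_of_pos hY0]
      have := mul_le_mul_of_nonneg_right hs (mul_nonneg (abs_nonneg (UU v x)) hY0.le)
      nlinarith
    have h2 : (|UU v x| - X * Y) ^ 2 = UU v x ^ 2 - 2 * (|UU v x| * (X * Y)) + Z := by
      rw [← hYZ, ← sq_abs (UU v x)]; ring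
    nlinarith [sq_nonneg (|UU v x| - X * Y)]
  have a2 : |(x 2 - c) * v x 2 * Y| ≤ (v x 2 ^ 2 / X + Z) / 2 := by
    have h0 : v x 2 ^ 2 / X * X = v x 2 ^ 2 := by field_simp
    have h1 : ((x 2 - c) * v x 2 * Y) ^ 2 ≤ (v x 2 ^ 2 / X) * Z := by
      have : ((x 2 - c) * v x 2 * Y) ^ 2 = (x 2 - c) ^ 2 * ((v x 2 ^ 2 / X) * X * Y ^ 2) := by
        rw [h0]; ring
      rw [this, ← hYZ]
      have h3 : 0 ≤ (v x 2 ^ 2 / X) * X * Y ^ 2 := by positivity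
      calc (x 2 - c) ^ 2 * ((v x 2 ^ 2 / X) * X * Y ^ 2) ≤ X * ((v x 2 ^ 2 / X) * X * Y ^ 2) :=
            mul_le_mul_of_nonneg_right hz h3
        _ = v x 2 ^ 2 / X * (Y ^ 2 * X ^ 2) := by ring
    apply abs_le_of_sq_le_sq
    · have h4 : 0 ≤ v x 2 ^ 2 / X := by positivity
      nlinarith [sq_nonneg (v x 2 ^ 2 / X - Z)]
    · positivity
  have hCd : 0 ≤ C * d := mul_nonneg hC hd0
  have b1 : |2 * (C * -d) * Y * (sg x * UU v x + (x 2 - c) * v x 2)| ≤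
      C * d * (UU v x ^ 2 + v x 2 ^ 2 / X) + 2 * (C * d) * Z := by
    have e : 2 * (C * -d) * Y * (sg x * UU v x + (x 2 - c) * v x 2) =
        -(2 * (C * d) * (sg x * UU v x * Y + (x 2 - c) * v x 2 * Y)) := by ring
    rw [e, abs_neg, abs_mul, abs_of_nonneg (by positivity : 0 ≤ 2 * (C * d))]
    have h := (abs_add_le (sg x * UU v x * Y) ((x 2 - c) * v x 2 * Y)).trans (add_le_add a1 a2)
    have := mul_le_mul_of_nonneg_left h (by positivity : 0 ≤ 2 * (C * d))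
    linarith
  have b2 := abs_le.1 b1
  -- the second order term
  have c1 : 0 ≤ (X - τ) * X ^ (-d - 2) := by
    apply mul_nonneg _ (Real.rpow_nonneg hXp.le _)
    rw [hXd]; unfold X2
    have := sq_nonneg (x 2 - c)
    linarith
  have c2 : (X - τ) * X ^ (-d - 2) ≤ Y := by
    rw [hY, ← p1]
    have := Real.rpow_nonneg hXp.le (-d - 2)
    nlinarith
  rw [← hY]
  have hm1 : (-d - 1 : ℝ) = -d - 1 := rfl
  have d1 : C * -d * (4 * (-d - 1) * ((X - τ) * X ^ (-d - 2)) + 10 * Y) ≤ -(C * d * Y) := by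
    have e : C * -d * (4 * (-d - 1) * ((X - τ) * X ^ (-d - 2)) + 10 * Y) =
        C * d * (4 * (d + 1) * ((X - τ) * X ^ (-d - 2)) - 10 * Y) := by ring
    rw [e]
    have h1 : 4 * (d + 1) * ((X - τ) * X ^ (-d - 2)) ≤ 4 * (d + 1) * Y :=
      mul_le_mul_of_nonneg_left c2 (by positivity)
    have h2 : 4 * (d + 1) * Y ≤ 9 * Y := mul_le_mul_of_nonneg_right (by linarith) hY0.le
    have h3 : 4 * (d + 1) * ((X - τ) * X ^ (-d - 2)) - 10 * Y ≤ -Y := by linarith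
    have := mul_le_mul_of_nonneg_left h3 hCd
    linarith
  have d2 : -(10 * (C * d) * Y) ≤ C * -d * (4 * (-d - 1) * ((X - τ) * X ^ (-d - 2)) + 10 * Y) := by
    have e : C * -d * (4 * (-d - 1) * ((X - τ) * X ^ (-d - 2)) + 10 * Y) =
        C * d * (4 * (d + 1) * ((X - τ) * X ^ (-d - 2))) - 10 * (C * d) * Y := by ring
    rw [e]
    have : 0 ≤ C * d * (4 * (d + 1) * ((X - τ) * X ^ (-d - 2))) := by positivity
    linarith
  have k1 : 2 * (C * d) * Z ≤ 2 * (C * d) * (X₀ ^ (κ + 1 - 2 * d) * Q) := by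
    apply mul_le_mul_of_nonneg_left _ (by positivity)
    rw [hZ, hQ]; exact p2
  have k2 : 10 * (C * d) * Y ≤ 10 * (C * d) * (X₀ ^ (κ - d) * Q) := by
    apply mul_le_mul_of_nonneg_left _ (by positivity)
    rw [hY, hQ]; exact p3
  rw [← hQ]
  have q1 : 0 ≤ X₀ ^ (κ + 1 - 2 * d) := Real.rpow_nonneg hX₀.le _
  have q2 : 0 ≤ X₀ ^ (κ - d) := Real.rpow_nonneg hX₀.le _
  have q3 : 0 ≤ UU v x ^ 2 + v x 2 ^ 2 / X := by positivity
  have m1 : 0 ≤ C * d * Q := by positivity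
  have m2 : 0 ≤ C * d * (X₀ ^ (κ + 1 - 2 * d) * Q) := by positivity
  have m3 : 0 ≤ C * d * (X₀ ^ (κ - d) * Q) := by positivity
  have m4 : 0 ≤ C * d * (2 * X₀ ^ (κ + 1 - 2 * d) + 10 * X₀ ^ (κ - d)) *
      (UU v x ^ 2 + v x 2 ^ 2 / X) := by positivity
  have e1 : C * d * (1 + 2 * X₀ ^ (κ + 1 - 2 * d) + 10 * X₀ ^ (κ - d)) * Q =
      C * d * Q + 2 * (C * d * (X₀ ^ (κ + 1 - 2 * d) * Q)) + 10 * (C * d * (X₀ ^ (κ - d) * Q)) := by
    ring
  have e2 : C * d * (1 + 2 * X₀ ^ (κ + 1 - 2 * d) + 10 * X₀ ^ (κ - d)) *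
      (UU v x ^ 2 + v x 2 ^ 2 / X) = C * d * (UU v x ^ 2 + v x 2 ^ 2 / X) +
      C * d * (2 * X₀ ^ (κ + 1 - 2 * d) + 10 * X₀ ^ (κ - d)) * (UU v x ^ 2 + v x 2 ^ 2 / X) := by
    ring
  rw [e1, e2]
  have m5 : 0 ≤ C * d * Y := by positivity
  constructor
  · linarith [b2.1, b2.2]
  · linarith [b2.1, b2.2]

end Pool.Agent.V8H53.OW
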