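import Pool.Agent.V8H53.OW.Defs6
import Pool.Agent.V8H53.OW.Fi
import Pool.Agent.V8H53.OW.Far1
import Pool.Agent.V8H53.OW.L6b

/-!
Project OW: the production is finite where `|ω_ρ / ρ|` is not above the threshold.
-/

set_option autoImplicit false

open MeasureTheory Set Metric Filter Topology
open scoped ContDiff
open H459R3.NS Pool.Agent.W268.NS Pool.Agent.Q67.VD

namespace Pool.Agent.V8H53.OW

open Pool.Agent.Q85.CC Pool.Agent.Q85.CL Pool.Agent.TH305.AX
open Pool.Agent.Q67.AXI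
open Pool.Agent.V8Lead (p_AAs p_Alg p_AxF p_H0 p_Dt p_Jnt)
open Pool.Agent.Q175.AX (Co_open Cy_compact Co_meas Co_sub_Cy sg_nn)

lemma int_abs_c {b c h : ℝ} (hb1 : b < 1) :
    IntegrableOn (fun t : ℝ => |t - c| ^ (-b)) (Icc (c - h) (c + h)) := by
  have h4 := (measurePreserving_sub_right (volume : Measure ℝ) c).integrableOn_comp_preimage
    (MeasurableEquiv.subRight c).measurableEmbedding (f := fun t : ℝ => |t| ^ (-b))
    (s := Icc (-h) h)
  have h5 := h4.2 (Fi.int_abs hb1)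
  have e2 : (fun t : ℝ => t - c) ⁻¹' Icc (-h) h = Icc (c - h) (c + h) := by
    ext t
    simp only [mem_preimage, mem_Icc]
    constructor <;> rintro ⟨a1, a2⟩ <;> constructor <;> linarith
  rw [← e2]
  exact h5

/-- FJ. Powers of `|x - a|²` are integrable. -/
theorem p_Fj : StmFj := by
  intro c r h κ hκ0 hκ
  obtain ⟨b, hb⟩ : ∃ b : ℝ, b = 2 * κ / 3 := ⟨_, rfl⟩
  have hb1 : b < 1 := by rw [hb]; linarith
  have hg0 : Integrable ((Icc (-|r|) |r|).indicator (fun t : ℝ => |t| ^ (-b))) :=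
    (Fi.int_abs hb1).integrable_indicator measurableSet_Icc
  have hg2 : Integrable ((Icc (c - h) (c + h)).indicator (fun t : ℝ => |t - c| ^ (-b))) :=
    (int_abs_c hb1).integrable_indicator measurableSet_Icc
  let g : Fin 3 → ℝ → ℝ := ![(Icc (-|r|) |r|).indicator (fun t : ℝ => |t| ^ (-b)),
    (Icc (-|r|) |r|).indicator (fun t : ℝ => |t| ^ (-b)),
    (Icc (c - h) (c + h)).indicator (fun t : ℝ => |t - c| ^ (-b))]
  have hg : ∀ i, Integrable (g i) := by
    intro i
    fin_cases i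
    · exact hg0
    · exact hg0
    · exact hg2
  have hG : Integrable (fun x : Fin 3 → ℝ => ∏ i, g i (x i)) := Integrable.fintype_prod hg
  refine lt_of_le_of_lt ?_ hG.2
  refine (lintegral_mono_ae ?_).trans (setLIntegral_le_lintegral (Co c r h) _)
  refine (ae_restrict_iff' (Co_meas c r h)).2 ?_
  filter_upwards [Measure.ae_eval_ne (μ := fun _ : Fin 3 => (volume : Measure ℝ)) 0 0,
    Measure.ae_eval_ne (μ := fun _ : Fin 3 => (volume : Measure ℝ)) 1 0,
    Measure.ae_eval_ne (μ := fun _ : Fin 3 => (volume : Measure ℝ)) 2 c] with x h0 h1 h2 hx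
  have hx1 : sg x < r ^ 2 := hx.1
  have hx2 : |x 2 - c| < h := hx.2
  have esg : sg x = x 0 ^ 2 + x 1 ^ 2 := rfl
  have m0 : x 0 ∈ Icc (-|r|) |r| := by
    have : x 0 ^ 2 ≤ r ^ 2 := by nlinarith [sq_nonneg (x 1)]
    exact abs_le.1 (sq_le_sq.1 this)
  have m1 : x 1 ∈ Icc (-|r|) |r| := by
    have : x 1 ^ 2 ≤ r ^ 2 := by nlinarith [sq_nonneg (x 0)]
    exact abs_le.1 (sq_le_sq.1 this)
  have m2 : x 2 ∈ Icc (c - h) (c + h) := by
    have := abs_lt.1 hx2
    exact ⟨by linarith, by linarith⟩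
  have e : ∏ i, g i (x i) = |x 0| ^ (-b) * |x 1| ^ (-b) * |x 2 - c| ^ (-b) := by
    rw [Fin.prod_univ_three]
    show (Icc (-|r|) |r|).indicator (fun t : ℝ => |t| ^ (-b)) (x 0) *
      (Icc (-|r|) |r|).indicator (fun t : ℝ => |t| ^ (-b)) (x 1) *
      (Icc (c - h) (c + h)).indicator (fun t : ℝ => |t - c| ^ (-b)) (x 2) = _
    rw [indicator_of_mem m0, indicator_of_mem m1, indicator_of_mem m2]
  have p0 : 0 < |x 0| := abs_pos.2 h0
  have p1 : 0 < |x 1| := abs_pos.2 h1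
  have p2 : 0 < |x 2 - c| := abs_pos.2 (sub_ne_zero.2 h2)
  have hnn : 0 ≤ |x 0| ^ (-b) * |x 1| ^ (-b) * |x 2 - c| ^ (-b) := by positivity
  rw [e, Real.enorm_eq_ofReal hnn]
  refine ENNReal.ofReal_le_ofReal ?_
  have hX : X2 c 0 x = x 0 ^ 2 + x 1 ^ 2 + (x 2 - c) ^ 2 := by
    unfold X2
    rw [esg, add_zero]
  have hX0 : 0 < X2 c 0 x := by
    rw [hX, ← sq_abs (x 0), ← sq_abs (x 1), ← sq_abs (x 2 - c)]
    positivity
  have key : ∀ y : ℝ, 0 < |y| → y ^ 2 ≤ X2 c 0 x → X2 c 0 x ^ (-(κ / 3)) ≤ |y| ^ (-b) := by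
    intro y hy hyX
    have e1 : |y| ^ (-b) = (|y| ^ 2) ^ (-(κ / 3)) := by
      rw [← Real.rpow_natCast, ← Real.rpow_mul hy.le]
      congr 1
      rw [hb]
      push_cast
      ring
    rw [e1]
    exact Real.rpow_le_rpow_of_nonpos (by positivity) (by rw [sq_abs]; exact hyX) (by linarith)
  have k0' := key (x 0) p0 (by rw [hX]; nlinarith [sq_nonneg (x 1), sq_nonneg (x 2 - c)])
  have k1' := key (x 1) p1 (by rw [hX]; nlinarith [sq_nonneg (x 0), sq_nonneg (x 2 - c)])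
  have k2' := key (x 2 - c) p2 (by rw [hX]; nlinarith [sq_nonneg (x 0), sq_nonneg (x 1)])
  have e3 : X2 c 0 x ^ (-κ) = X2 c 0 x ^ (-(κ / 3)) * X2 c 0 x ^ (-(κ / 3))
      * X2 c 0 x ^ (-(κ / 3)) := by
    rw [← Real.rpow_add hX0, ← Real.rpow_add hX0]
    congr 1
    ring
  rw [e3]
  have q0 := Real.rpow_nonneg hX0.le (-(κ / 3))
  exact mul_le_mul (mul_le_mul k0' k1' q0 (by positivity)) k2' q0 (by positivity)

/-- The pointwise estimate. -/
lemma far4_pt {v : V → V} (hv : ContDiff ℝ ∞ v) (ha : Axi v) {x : V} {c τ l M b d : ℝ}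
    (hx : sg x ≠ 0) (hτ : 0 < τ) (hl : 0 < l) (hM : 0 ≤ M) (hb0 : 0 ≤ b) (hd0 : 0 ≤ d)
    (h : |JJ v x| ≤ M * (sq0 l (WW v x) + X2 c τ x ^ (-d) + (sg x + τ) ^ (-b))) :
    |2 * WW v x * JJ v x| ≤ 5 * M * W221.NS.gsq v x + M * l ^ 2
      + M * τ ^ (-(4 * d / 5)) * X2 c 0 x ^ (-(6 * d / 5)) + M * τ ^ (-b) * sg x ^ (-b) := by
  have hs : 0 < sg x := lt_of_le_of_ne (sg_nn x) (Ne.symm hx)
  obtain ⟨A, hA⟩ : ∃ A : ℝ, A = X2 c τ x ^ (-d) := ⟨_, rfl⟩
  obtain ⟨B, hB⟩ : ∃ B : ℝ, B = (sg x + τ) ^ (-b) := ⟨_, rfl⟩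
  obtain ⟨w, hw⟩ : ∃ w : ℝ, w = |WW v x| := ⟨_, rfl⟩
  have hw0 : 0 ≤ w := by rw [hw]; positivity
  have hX : 0 < X2 c τ x := X2_pos hτ x
  have hXt : τ ≤ X2 c τ x := by
    have g2 := sq_nonneg (x 2 - c)
    unfold X2
    linarith
  have hX0 : 0 < X2 c 0 x := by
    have g2 := sq_nonneg (x 2 - c)
    unfold X2
    linarith
  have hX0t : X2 c 0 x ≤ X2 c τ x := by
    unfold X2
    linarith
  have h1 := sq0_le hl (WW v x)
  rw [← hw] at h1
  have h2 : |JJ v x| ≤ M * (l + w + A + B) := by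
    refine h.trans (mul_le_mul_of_nonneg_left ?_ hM)
    rw [← hA, ← hB]
    linarith
  have e1 : |2 * WW v x * JJ v x| = 2 * w * |JJ v x| := by
    rw [abs_mul, abs_mul, abs_two, hw]
  have h3 := mul_le_mul_of_nonneg_left h2 (show 0 ≤ 2 * w by positivity)
  have h4 : 2 * w * (M * (l + w + A + B)) ≤ M * (5 * w ^ 2 + l ^ 2 + A ^ 2 + B ^ 2) := by
    have g1 : 2 * w * (l + w + A + B) ≤ 5 * w ^ 2 + l ^ 2 + A ^ 2 + B ^ 2 := by
      nlinarith [sq_nonneg (w - l), sq_nonneg (w - A), sq_nonneg (w - B)]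
    have g2 := mul_le_mul_of_nonneg_left g1 hM
    linarith
  have h5 : w ^ 2 ≤ W221.NS.gsq v x := by
    have g1 := Pool.Agent.V8H53.AX.UW_gsq p_Alg hv ha hx
    have g2 := sq_nonneg (UU v x)
    rw [hw, sq_abs]
    linarith
  have h6 : A ^ 2 ≤ τ ^ (-(4 * d / 5)) * X2 c 0 x ^ (-(6 * d / 5)) := by
    have g1 := pw_split (X := X2 c τ x) (a := 2 * d) (k := 6 * d / 5) hτ hXt (by linarith)
    have e2 : -(2 * d - 6 * d / 5) = -(4 * d / 5) := by ring
    rw [e2] at g1
    have e3 : X2 c τ x ^ (-(2 * d)) = A ^ 2 := by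
      rw [hA, ← Real.rpow_natCast, ← Real.rpow_mul hX.le]
      congr 1
      push_cast
      ring
    rw [e3] at g1
    refine g1.trans (mul_le_mul_of_nonneg_left ?_ (Real.rpow_nonneg hτ.le _))
    exact Real.rpow_le_rpow_of_nonpos hX0 hX0t (by linarith)
  have h7 : B ^ 2 ≤ τ ^ (-b) * sg x ^ (-b) := by
    have hst : 0 < sg x + τ := by linarith
    have g1 := pw_split (X := sg x + τ) (a := 2 * b) (k := b) hτ (by linarith) (by linarith)
    have e2 : -(2 * b - b) = -b := by ring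
    rw [e2] at g1
    have e3 : (sg x + τ) ^ (-(2 * b)) = B ^ 2 := by
      rw [hB, ← Real.rpow_natCast, ← Real.rpow_mul hst.le]
      congr 1
      push_cast
      ring
    rw [e3] at g1
    refine g1.trans (mul_le_mul_of_nonneg_left ?_ (Real.rpow_nonneg hτ.le _))
    exact Real.rpow_le_rpow_of_nonpos hs (by linarith) (by linarith)
  have g5 := mul_le_mul_of_nonneg_left h5 (show 0 ≤ 5 * M by positivity)
  have g6 := mul_le_mul_of_nonneg_left h6 hM
  have g7 := mul_le_mul_of_nonneg_left h7 hM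
  rw [e1]
  linarith

theorem p_Far4 (hFi : StmFi) (hFj : StmFj) : StmFar4 := by
  intro T E c R H r h T₁ l M b d u p hsol hr hrR hh hhH hT₁ hT₁T hl hM hb0 hb1 hd0 hd1
  have hsub : Co c r h ⊆ Co c R H := Pool.Agent.Q285.AXI.co_mono hr hrR hhH
  have hus : ∀ t ∈ Ioo 0 T, ContDiff ℝ ∞ (u t) := fun t ht =>
    Pool.Agent.Q285.AXI.slice hsol.smooth_u ht
  obtain ⟨BI, hBI⟩ : ∃ B : ENNReal, B = ∫⁻ x in Co c r h, ENNReal.ofReal (sg x ^ (-b)) :=
    ⟨_, rfl⟩
  have hBIt : BI < ⊤ := by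
    rw [hBI]
    exact hFi c r h b hb0 hb1
  obtain ⟨BJ, hBJ⟩ : ∃ B : ENNReal, B = ∫⁻ x in Co c r h,
    ENNReal.ofReal (X2 c 0 x ^ (-(6 * d / 5))) := ⟨_, rfl⟩
  have hBJt : BJ < ⊤ := by
    rw [hBJ]
    exact hFj c r h (6 * d / 5) (by positivity) (by linarith)
  -- the dissipation as a measurable function
  obtain ⟨D, hD⟩ : ∃ D : ℝ × V → ENNReal, D = (Ioo (0 : ℝ) T ×ˢ (univ : Set V)).piecewise
      (fun z => ENNReal.ofReal (W221.NS.gsq (u z.1) z.2)) (fun _ => 0) := ⟨_, rfl⟩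
  have hms : MeasurableSet (Ioo (0 : ℝ) T ×ˢ (univ : Set V)) :=
    measurableSet_Ioo.prod MeasurableSet.univ
  have hgc : ContinuousOn (fun z : ℝ × V => W221.NS.gsq (u z.1) z.2) (Ioo 0 T ×ˢ univ) := by
    have e3 : ∀ i j, ContinuousOn (fun z : ℝ × V => pd j (fun y => u z.1 y i) z.2)
        (Ioo 0 T ×ˢ univ) := fun i j =>
      (Pool.Agent.Q153.AXI.jpd (f := fun t x => u t x i)
        (contDiffOn_pi.1 hsol.smooth_u i) j).continuousOn
    unfold W221.NS.gsq
    exact continuousOn_finsetSum _ fun i _ => continuousOn_finsetSum _ fun j _ => (e3 i j).pow 2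
  have hDm : Measurable D := by
    rw [hD]
    exact ContinuousOn.measurable_piecewise
      (ENNReal.continuous_ofReal.comp_continuousOn hgc) continuousOn_const hms
  have hDt : ∀ t ∈ Ioo 0 T, ∀ x, D (t, x) = ENNReal.ofReal (W221.NS.gsq (u t) x) := by
    intro t ht x
    rw [hD, Set.piecewise_eq_of_mem _ _ _ (show (t, x) ∈ Ioo (0 : ℝ) T ×ˢ (univ : Set V) from
      ⟨ht, mem_univ _⟩)]
  have hDf : ∫⁻ t in Ioo T₁ T, ∫⁻ x in Co c r h, D (t, x) < ⊤ := by
    have h1 : IntegrableOn (fun z : ℝ × V => W221.NS.gsq (u z.1) z.2) (Ioo T₁ T ×ˢ Co c r h) :=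
      hsol.dis.mono_set (prod_mono (Ioo_subset_Ioo_left hT₁.le) hsub)
    have h2 := h1.lintegral_lt_top
    have h3 : ∫⁻ z in Ioo T₁ T ×ˢ Co c r h, ENNReal.ofReal (W221.NS.gsq (u z.1) z.2)
        = ∫⁻ z in Ioo T₁ T ×ˢ Co c r h, D z := by
      refine setLIntegral_congr_fun (measurableSet_Ioo.prod (Co_meas c r h)) fun z hz => ?_
      exact (hDt z.1 ⟨hT₁.trans hz.1.1, hz.1.2⟩ z.2).symm
    rw [h3, Measure.volume_eq_prod, ← Measure.prod_restrict, lintegral_prod _ hDm.aemeasurable] at h2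
    exact h2
  have m1 : Measurable fun t => ENNReal.ofReal (5 * M) * ∫⁻ x in Co c r h, D (t, x) :=
    hDm.lintegral_prod_right'.const_mul _
  have m2 : ∀ a : ℝ, Measurable fun t : ℝ => ENNReal.ofReal (M * (T - t) ^ (-a)) := fun a =>
    (((measurable_const.sub measurable_id).pow_const _).const_mul _).ennreal_ofReal
  have hvol : volume (Co c r h) < ⊤ := Pool.Agent.Q175.AX.Co_fin (le_of_lt hr)
  refine ⟨fun t => ENNReal.ofReal (5 * M) * (∫⁻ x in Co c r h, D (t, x))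
    + (ENNReal.ofReal (M * l ^ 2) * volume (Co c r h)
      + (ENNReal.ofReal (M * (T - t) ^ (-(4 * d / 5))) * BJ
        + ENNReal.ofReal (M * (T - t) ^ (-b)) * BI)), ?_, ?_, ?_⟩
  · exact m1.add (measurable_const.add (((m2 _).mul_const _).add ((m2 _).mul_const _)))
  · rw [lintegral_add_left m1, lintegral_add_left measurable_const,
      lintegral_add_left ((m2 _).mul_const _), lintegral_mul_const' _ _ hBJt.ne,
      lintegral_mul_const' _ _ hBIt.ne, lintegral_const_mul' _ _ ENNReal.ofReal_ne_top,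
      setLIntegral_const]
    refine ENNReal.add_lt_top.2 ⟨ENNReal.mul_lt_top ENNReal.ofReal_lt_top hDf,
      ENNReal.add_lt_top.2 ⟨ENNReal.mul_lt_top (ENNReal.mul_lt_top ENNReal.ofReal_lt_top hvol)
        measure_Ioo_lt_top, ENNReal.add_lt_top.2 ⟨?_, ?_⟩⟩⟩
    · exact ENNReal.mul_lt_top (int_pow hT₁T (by linarith) _) hBJt
    · exact ENNReal.mul_lt_top (int_pow hT₁T hb1 _) hBIt
  · intro t ht
    have htI : t ∈ Ioo 0 T := ⟨hT₁.trans ht.1, ht.2⟩
    have htp : 0 < T - t := by linarith [ht.2]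
    obtain ⟨-, sW, sJ, -⟩ := (p_Alg (u t) (hus t htI) (hsol.axi t htI)).1
    have hsgc : Continuous (sg : V → ℝ) := by
      unfold sg
      fun_prop
    have hS : MeasurableSet {x | x ∈ Co c r h ∧ |JJ (u t) x| ≤ M * (sq0 l (WW (u t) x)
        + X2 c (T - t) x ^ (-d) + (sg x + (T - t)) ^ (-b))} := by
      refine (Co_meas c r h).inter (measurableSet_le sJ.continuous.abs.measurable
        (Measurable.const_mul ?_ M))
      exact ((((sq0_cd hl).continuous.comp sW.continuous).add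
        (Thr2.pw_cd htp _).continuous).add (thr_sm htp _).continuous).measurable
    calc ∫⁻ x in {x | x ∈ Co c r h ∧ |JJ (u t) x| ≤ M * (sq0 l (WW (u t) x)
          + X2 c (T - t) x ^ (-d) + (sg x + (T - t)) ^ (-b))},
          ENNReal.ofReal |2 * WW (u t) x * JJ (u t) x|
        ≤ ∫⁻ x in {x | x ∈ Co c r h ∧ |JJ (u t) x| ≤ M * (sq0 l (WW (u t) x)
          + X2 c (T - t) x ^ (-d) + (sg x + (T - t)) ^ (-b))},
          (ENNReal.ofReal (5 * M) * ENNReal.ofReal (W221.NS.gsq (u t) x)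
          + (ENNReal.ofReal (M * l ^ 2)
          + (ENNReal.ofReal (M * (T - t) ^ (-(4 * d / 5)))
            * ENNReal.ofReal (X2 c 0 x ^ (-(6 * d / 5)))
          + ENNReal.ofReal (M * (T - t) ^ (-b)) * ENNReal.ofReal (sg x ^ (-b))))) := by
          refine lintegral_mono_ae ((ae_restrict_iff' hS).2 ?_)
          filter_upwards [Pool.Agent.Q175.AX.axis_ae] with x hx0 hx
          have h1 := far4_pt (hus t htI) (hsol.axi t htI) hx0 htp hl hM hb0 hd0 hx.2
          have q0 : 0 ≤ W221.NS.gsq (u t) x := Pool.Agent.Q285.AXI.gsq_nn _ x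
          have q1 : 0 ≤ M * (T - t) ^ (-(4 * d / 5)) :=
            mul_nonneg hM (Real.rpow_nonneg htp.le _)
          have q2 : 0 ≤ M * (T - t) ^ (-b) := mul_nonneg hM (Real.rpow_nonneg htp.le _)
          have q3 : 0 ≤ X2 c 0 x ^ (-(6 * d / 5)) := by
            refine Real.rpow_nonneg ?_ _
            have g1 := sg_nn x
            have g2 := sq_nonneg (x 2 - c)
            unfold X2
            linarith
          have q4 : 0 ≤ sg x ^ (-b) := Real.rpow_nonneg (sg_nn x) _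
          rw [← ENNReal.ofReal_mul (by positivity), ← ENNReal.ofReal_mul q1,
            ← ENNReal.ofReal_mul q2, ← ENNReal.ofReal_add (mul_nonneg q1 q3) (mul_nonneg q2 q4),
            ← ENNReal.ofReal_add (by positivity) (by positivity),
            ← ENNReal.ofReal_add (by positivity) (by positivity)]
          refine ENNReal.ofReal_le_ofReal ?_
          linarith
      _ ≤ ∫⁻ x in Co c r h, (ENNReal.ofReal (5 * M) * ENNReal.ofReal (W221.NS.gsq (u t) x)
          + (ENNReal.ofReal (M * l ^ 2)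
          + (ENNReal.ofReal (M * (T - t) ^ (-(4 * d / 5)))
            * ENNReal.ofReal (X2 c 0 x ^ (-(6 * d / 5)))
          + ENNReal.ofReal (M * (T - t) ^ (-b)) * ENNReal.ofReal (sg x ^ (-b))))) :=
          lintegral_mono_set fun x hx => hx.1
      _ = _ := by
          have mX : Measurable fun x : V => ENNReal.ofReal (X2 c 0 x ^ (-(6 * d / 5))) := by
            have : Measurable fun x : V => X2 c 0 x := (X2_cd c 0).continuous.measurable
            exact (this.pow_const _).ennreal_ofReal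
          rw [lintegral_add_left
            ((Pool.Agent.Q153.AXI.gsqCont (hus t htI)).measurable.ennreal_ofReal.const_mul _),
            lintegral_add_left measurable_const, lintegral_add_left (mX.const_mul _),
            lintegral_const_mul' _ _ ENNReal.ofReal_ne_top,
            lintegral_const_mul' _ _ ENNReal.ofReal_ne_top,
            lintegral_const_mul' _ _ ENNReal.ofReal_ne_top, ← hBI, ← hBJ, setLIntegral_const]
          congr 2
          exact lintegral_congr fun x => (hDt t htI x).symm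

end Pool.Agent.V8H53.OW
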