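import Pool.Agent.V8H53.OW.Defs
import Pool.Agent.V8H36.OW.Ker2

/-!
Project OW (helper53), part OW-KER (by helper36).
-/

set_option autoImplicit false

namespace Pool.Agent.V8H53.OW

theorem p_Ker : StmKer := Pool.Agent.V8H36.OW.ker

end Pool.Agent.V8H53.OW
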