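import Pool.Agent.V8H53.OW.LgC

/-!
OW-LG (helper40): the estimate of the logarithm.
-/

set_option autoImplicit false

open MeasureTheory Set Metric Filter Topology
open scoped ContDiff
open H459R3.NS Pool.Agent.W268.NS Pool.Agent.Q67.VD

namespace Pool.Agent.V8H53.OW

open Pool.Agent.Q85.CC Pool.Agent.Q85.CL Pool.Agent.TH305.AX Pool.Agent.Q67.AXI
open Pool.Agent.W583.MD (sm_pd pd_mul' slice hd_slice)
open Pool.Agent.Q149.AXI (Cy_bdd sg_cont)
open Pool.Agent.Q150.AXI (sm_sg)
open LgP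

/-- a linear differential inequality -/
lemma ode_ineq {a b C : ℝ} {Y Y' : ℝ → ℝ} (hd : ∀ t ∈ Ioo a b, HasDerivAt Y (Y' t) t)
    (hY : ∀ t ∈ Ioo a b, Y' t ≤ -4 * Y t + C) {s t : ℝ} (hs : s ∈ Ioo a b) (ht : t ∈ Ioo a b)
    (hst : s ≤ t) : Y t ≤ Real.exp (-(4 * (t - s))) * (Y s - C / 4) + C / 4 := by
  obtain ⟨Z, hZ⟩ : ∃ Z : ℝ → ℝ, Z = fun r => Real.exp (4 * r) * (Y r - C / 4) := ⟨_, rfl⟩
  have hZd : ∀ r ∈ Ioo a b, HasDerivAt Z (Real.exp (4 * r) * 4 * (Y r - C / 4)
      + Real.exp (4 * r) * Y' r) r := by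
    intro r hr
    rw [hZ]
    have h1 : HasDerivAt (fun r : ℝ => Real.exp (4 * r)) (Real.exp (4 * r) * 4) r := by
      have h2 : HasDerivAt (fun r : ℝ => 4 * r) 4 r := by
        simpa using (hasDerivAt_id r).const_mul 4
      exact h2.exp
    exact h1.mul ((hd r hr).sub_const (C / 4))
  have hanti : AntitoneOn Z (Ioo a b) := by
    refine antitoneOn_of_deriv_nonpos (convex_Ioo a b)
      (fun r hr => (hZd r hr).continuousAt.continuousWithinAt) (fun r hr => ?_) (fun r hr => ?_)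
    · rw [interior_Ioo] at hr
      exact (hZd r hr).differentiableAt.differentiableWithinAt
    · rw [interior_Ioo] at hr
      rw [(hZd r hr).deriv]
      have h1 := hY r hr
      have h2 := Real.exp_pos (4 * r)
      nlinarith
  have h1 := hanti hs ht hst
  rw [hZ] at h1
  simp only at h1
  have h2 : Real.exp (-(4 * (t - s))) = Real.exp (4 * s) * Real.exp (-(4 * t)) := by
    rw [← Real.exp_add]
    congr 1
    ring
  have h3 : Real.exp (4 * t) * Real.exp (-(4 * t)) = 1 := by
    rw [← Real.exp_add]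
    simp
  have h4 := mul_le_mul_of_nonneg_right h1 (Real.exp_pos (-(4 * t))).le
  have h5 : Real.exp (4 * t) * (Y t - C / 4) * Real.exp (-(4 * t)) = Y t - C / 4 := by
    calc _ = (Real.exp (4 * t) * Real.exp (-(4 * t))) * (Y t - C / 4) := by ring
      _ = _ := by rw [h3, one_mul]
  rw [h5] at h4
  rw [h2]
  linarith

theorem p_Lg : StmLg := by
  intro Λ η hΛ hη
  obtain ⟨v, hv⟩ : ∃ v : ℝ, v = volume.real (Co 0 1 1) := ⟨_, rfl⟩
  have hv0 : 0 ≤ v := by rw [hv]; exact measureReal_nonneg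
  obtain ⟨C₁, hC⟩ : ∃ C : ℝ, C = 404 * v + 192 * Λ := ⟨_, rfl⟩
  have hC0 : 0 ≤ C₁ := by rw [hC]; positivity
  obtain ⟨M, hM⟩ : ∃ M : ℝ, M = 1 + C₁ / 4 + v := ⟨_, rfl⟩
  have hM0 : 0 < M := by rw [hM]; positivity
  have hx4 := Real.exp_pos (-4)
  obtain ⟨k, hk⟩ : ∃ k : ℝ, k = M / (Real.exp (-4) * η) := ⟨_, rfl⟩
  have hk0 : 0 < k := by rw [hk]; positivity
  obtain ⟨ε, hε'⟩ : ∃ ε : ℝ, ε = Real.exp (-k) / 2 := ⟨_, rfl⟩
  have hε : 0 < ε := by rw [hε']; have := Real.exp_pos (-k); positivity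
  have hε1 : ε < 1 := by
    have : Real.exp (-k) ≤ 1 := Real.exp_le_one_iff.2 (by linarith)
    linarith
  obtain ⟨l, hl'⟩ : ∃ l : ℝ, l = Real.log ((1 + ε) / ε) := ⟨_, rfl⟩
  have hl0 : 0 ≤ l := by
    rw [hl']
    apply Real.log_nonneg
    rw [le_div_iff₀ hε]
    linarith
  obtain ⟨N, hN⟩ : ∃ N : ℝ, N = 3 + v * l := ⟨_, rfl⟩
  have hN3 : 3 ≤ N := by
    have := mul_nonneg hv0 hl0
    linarith
  refine ⟨N, ε, by linarith, hε, hε1, fun W ψ hL hW hb hψΛ t ht => ?_⟩
  -- the integral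
  have hFsm : ContDiffOn ℝ ∞ (fun z : ℝ × V => ze z.2 * hl ε (sg z.2 * W z.1 z.2))
      (Ioo (-N) 0 ×ˢ univ) := by
    have h1 : ContDiffOn ℝ ∞ (fun z : ℝ × V => sg z.2 * W z.1 z.2) (Ioo (-N) 0 ×ˢ univ) :=
      (sm_sg.comp contDiff_snd).contDiffOn.mul hW
    exact (ze_sm.comp contDiff_snd).contDiffOn.mul ((hl_sm hε).comp_contDiffOn h1)
  obtain ⟨ρ, hρ⟩ := Cy_bdd (c := 0) (r := 1) (h := 1) zero_le_one
  have hF0 : ∀ s ∈ Ioo (-N) 0, ∀ z ∉ closedBall (0 : V) ρ,
      ze z * hl ε (sg z * W s z) = 0 := by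
    intro s _ z hz
    rw [ze_off fun h => hz (hρ (co_cy h)), zero_mul]
  obtain ⟨Y, hY⟩ : ∃ Y : ℝ → ℝ, Y = fun s => ∫ x, ze x * hl ε (sg x * W s x) := ⟨_, rfl⟩
  obtain ⟨Y', hY'⟩ : ∃ Y' : ℝ → ℝ, Y' = fun s => ∫ x, deriv (fun r => ze x * hl ε (sg x * W r x)) s :=
    ⟨_, rfl⟩
  have hYd : ∀ s ∈ Ioo (-N) 0, HasDerivAt Y (Y' s) s := by
    intro s hs
    rw [hY, hY']
    exact Pool.Agent.Q119.AXI.hd_int' (F := fun s x => ze x * hl ε (sg x * W s x)) hFsm hF0 hs
  have hslW : ∀ s ∈ Ioo (-N) 0, ContDiff ℝ ∞ (W s) := fun s hs => slice hW hs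
  have hYi : ∀ s ∈ Ioo (-N) 0, Y' s ≤ -4 * Y s + C₁ := by
    intro s hs
    have hw := hL.sm
    have hder : ∀ x, deriv (fun r => ze x * hl ε (sg x * W r x)) s =
        ze x * (deriv (hl ε) (sg x * W s x) * deriv (fun r => sg x * W r x) s) := by
      intro x
      have h1 := hd_slice (F := fun t x => sg x * W t x) hw hs x
      have h2 : HasDerivAt (hl ε) (deriv (hl ε) (sg x * W s x)) (sg x * W s x) :=
        ((hl_sm hε).differentiable (by norm_cast) _).hasDerivAt
      have h3 := (h2.comp s h1).const_mul (ze x)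
      have h4 : (fun r => ze x * hl ε (sg x * W r x)) =
          fun r => ze x * (hl ε ∘ fun r => sg x * W r x) r := rfl
      rw [h4, h3.deriv, h1.deriv]
    have h1 := diff_ineq hε (Λ := Λ) (W := W s) (ψ := ψ s)
      (D := fun x => deriv (fun r => sg x * W r x) s) (hslW s hs) (hL.smψ s hs) (hb s hs)
      (hψΛ s hs) (fun x hx hx0 => (hL.eq s hs x hx hx0).deriv)
    rw [hY', hY, hC, hv]
    simp only
    simp only [hder]
    exact h1
  -- integrability
  have hint : ∀ s ∈ Ioo (-N) 0, Integrable (fun x => ze x * hl ε (sg x * W s x)) := by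
    intro s hs
    exact ic ze_sm.continuous ze_cs
      ((hl_sm hε).continuous.comp (sg_cont.mul (hslW s hs).continuous))
  have hop : IsOpen (Co 0 1 1) :=
    (isOpen_lt sg_cont continuous_const).inter
      (isOpen_lt (f := fun z : V => |z 2 - 0|) (g := fun _ => 1) (by fun_prop) continuous_const)
  have hm : MeasurableSet (Co 0 1 1) := hop.measurableSet
  have hcom : IsCompact (Cy 0 1 1) := Pool.Agent.Q95.AXP.cy_compact 0 one_pos
  have hfin : volume (Co 0 1 1) ≠ ⊤ := ((measure_mono co_cy).trans_lt hcom.measure_lt_top).ne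
  -- the initial value
  have hup : ∀ s ∈ Ioo (-N) 0, Y s ≤ v * l := by
    intro s hs
    have i1 : Integrable ((Co 0 1 1).indicator (fun _ : V => l)) :=
      (integrableOn_const hfin).integrable_indicator hm
    have h1 : Y s ≤ ∫ x, (Co 0 1 1).indicator (fun _ : V => l) x := by
      rw [hY]
      refine integral_mono (hint s hs) i1 fun x => ?_
      by_cases hx : x ∈ Co 0 1 1
      · rw [indicator_of_mem hx]
        have h2 := hl_top hε (abs_le.1 (hb s hs x hx)).2
        rw [← hl'] at h2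
        have h3 := ze_nn x
        have h4 := ze_le x
        nlinarith
      · rw [indicator_of_notMem hx]
        simp only
        rw [ze_off hx, zero_mul]
    rwa [integral_indicator hm, setIntegral_const, smul_eq_mul, ← hv] at h1
  -- the value at the time `t`
  obtain ⟨s, hs⟩ : ∃ s : ℝ, s = -N + 1 := ⟨_, rfl⟩
  have hsI : s ∈ Ioo (-N) 0 := ⟨by linarith, by linarith⟩
  have htI : t ∈ Ioo (-N) 0 := ⟨by linarith [ht.1], ht.2⟩
  have hst : s ≤ t := by linarith [ht.1]
  have hYt : Y t ≤ 1 + C₁ / 4 := by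
    have h1 := ode_ineq hYd hYi hsI htI hst
    have h2 := hup s hsI
    have h3 : v * l ≤ 4 * (t - s) := by linarith [ht.1]
    have h4 : Real.exp (-(4 * (t - s))) * (v * l) ≤ 1 := by
      have h5 : v * l + 1 ≤ Real.exp (v * l) := Real.add_one_le_exp _
      have h6 : Real.exp (v * l) ≤ Real.exp (4 * (t - s)) := Real.exp_le_exp.2 h3
      have h7 : Real.exp (-(4 * (t - s))) * Real.exp (4 * (t - s)) = 1 := by
        rw [← Real.exp_add]
        simp
      have h8 := Real.exp_pos (-(4 * (t - s)))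
      nlinarith
    have h5 := Real.exp_pos (-(4 * (t - s)))
    have h6 : Real.exp (-(4 * (t - s))) * (Y s - C₁ / 4) ≤ Real.exp (-(4 * (t - s))) * (v * l) :=
      mul_le_mul_of_nonneg_left (by linarith) h5.le
    linarith
  -- Chebyshev
  obtain ⟨S, hS⟩ : ∃ S : Set V, S = {x | x ∈ Co 0 (1 / 2) (1 / 2) ∧ 1 - ε < sg x * W t x} :=
    ⟨_, rfl⟩
  have hop2 : IsOpen (Co 0 (1 / 2) (1 / 2)) :=
    (isOpen_lt sg_cont continuous_const).inter
      (isOpen_lt (f := fun z : V => |z 2 - 0|) (g := fun _ => 1 / 2) (by fun_prop)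
        continuous_const)
  have hSo : IsOpen S := by
    rw [hS]
    exact hop2.inter (isOpen_lt continuous_const (sg_cont.mul (hslW t htI).continuous))
  have hsubC : Co 0 (1 / 2) (1 / 2) ⊆ Co 0 1 1 := fun x hx =>
    ⟨hx.1.trans (by norm_num), hx.2.trans (by norm_num)⟩
  have hSsub : S ⊆ Co 0 1 1 := by
    rw [hS]
    exact fun x hx => hsubC hx.1
  have hSfin : volume S ≠ ⊤ := ((measure_mono hSsub).trans_lt hfin.lt_top).ne
  rw [← hS]
  have i1 : Integrable (S.indicator (fun _ : V => Real.exp (-4) * k)) :=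
    (integrableOn_const hSfin).integrable_indicator hSo.measurableSet
  have i2 : Integrable (fun x => ze x * hl ε (sg x * W t x) + ze x) :=
    (hint t htI).add (ze_sm.continuous.integrable_of_hasCompactSupport ze_cs)
  have h1 : (∫ x, S.indicator (fun _ : V => Real.exp (-4) * k) x) ≤
      ∫ x, (ze x * hl ε (sg x * W t x) + ze x) := by
    refine integral_mono i1 i2 fun x => ?_
    by_cases hx : x ∈ S
    · rw [indicator_of_mem hx]
      have hxC := hSsub hx
      rw [hS] at hx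
      have h2 := ze_low hx.1
      have h3 := (abs_le.1 (hb t htI x hxC)).2
      have h4 := hl_low hε (δ := ε) (k := k) h3 (by rw [hε']; linarith) hx.2
      have h5 : Real.exp (-4) * k ≤ ze x * hl ε (sg x * W t x) :=
        mul_le_mul h2 h4 hk0.le (ze_nn x)
      have h6 := ze_nn x
      simp only
      linarith
    · rw [indicator_of_notMem hx]
      simp only
      by_cases hxC : x ∈ Co 0 1 1
      · have h2 := hl_ge hε (hb t htI x hxC)
        have h3 := ze_nn x
        nlinarith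
      · rw [ze_off hxC]
        simp
  have h2 : (∫ x, (ze x * hl ε (sg x * W t x) + ze x)) ≤ M := by
    rw [integral_add (hint t htI) (ze_sm.continuous.integrable_of_hasCompactSupport ze_cs)]
    have h3 : (∫ x, ze x) ≤ v := by
      have i3 : Integrable ((Co 0 1 1).indicator (fun _ : V => (1 : ℝ))) :=
        (integrableOn_const hfin).integrable_indicator hm
      have h4 : (∫ x, ze x) ≤ ∫ x, (Co 0 1 1).indicator (fun _ : V => (1 : ℝ)) x := by
        refine integral_mono (ze_sm.continuous.integrable_of_hasCompactSupport ze_cs) i3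
          fun x => ?_
        by_cases hx : x ∈ Co 0 1 1
        · rw [indicator_of_mem hx]
          exact ze_le x
        · rw [indicator_of_notMem hx, ze_off hx]
      rwa [integral_indicator hm, setIntegral_const, smul_eq_mul, mul_one, ← hv] at h4
    have h4 : (∫ x, ze x * hl ε (sg x * W t x)) = Y t := by rw [hY]
    rw [h4, hM]
    linarith
  rw [integral_indicator hSo.measurableSet, setIntegral_const, smul_eq_mul] at h1
  have h3 : volume.real S * (Real.exp (-4) * k) ≤ M := h1.trans h2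
  have h4 : Real.exp (-4) * k = M / η := by
    rw [hk]
    field_simp
  rw [h4] at h3
  have h5 : volume.real S * (M / η) * (η / M) ≤ M * (η / M) :=
    mul_le_mul_of_nonneg_right h3 (by positivity)
  have h6 : volume.real S * (M / η) * (η / M) = volume.real S := by
    field_simp
  have h7 : M * (η / M) = η := by
    field_simp
  rwa [h6, h7] at h5

end Pool.Agent.V8H53.OW
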