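import Pool.Agent.V8H53.OW.Defs2
import Pool.Agent.Q175.AX.CutL
import Pool.Agent.Q175.AX.Rho
import Pool.Agent.W583.MD.EN

/-!
Project OW: the integral of a power of the distance to a point of the axis and the Hardy
inequality, both by the divergence theorem (helper36).
-/

set_option autoImplicit false

open MeasureTheory Set Metric Filter Topology
open scoped ContDiff
open H459R3.NS Pool.Agent.W268.NS Pool.Agent.Q67.VD

namespace Pool.Agent.V8H53.OW

open Pool.Agent.Q85.CC Pool.Agent.Q85.CL Pool.Agent.TH305.AX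
open Pool.Agent.Q67.AXI
open Pool.Agent.W583.MD (sm_pd cs_pd Z Z.add Z.smul int_cs Z_pd)
open Pool.Agent.TH305.DR (pd_add' pd_sub' pd_const')
open Pool.Agent.Q175.AX (Co_meas Co_fin Cy_compact Co_sub_Cy ind_int ind_val cut_dich cut_mem
  const_pd sq_pd sg_nn pd_comp_at sg_cd pd_sg gr2_nn gr2_sm)

namespace MH

variable {φ : V → ℝ} {c r h r1 h1 K τ : ℝ}

/-- The derivative in the direction `x - a`, `a = (0, 0, c)`. -/
noncomputable def DD (c : ℝ) (f : V → ℝ) (x : V) : ℝ := RR f x + (x 2 - c) * pd 2 f x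

lemma DD_mul {f g : V → ℝ} (hf : ContDiff ℝ ∞ f) (hg : ContDiff ℝ ∞ g) (c : ℝ) (x : V) :
    DD c (fun y => f y * g y) x = f x * DD c g x + g x * DD c f x := by
  unfold DD RR
  simp only [pd_mulf hf hg]
  ring

lemma DD_sq {f : V → ℝ} (hf : ContDiff ℝ ∞ f) (c : ℝ) (x : V) :
    DD c (fun y => f y ^ 2) x = 2 * f x * DD c f x := by
  unfold DD RR
  simp only [sq_pd hf]
  ring

/-- The divergence theorem for the field `(x - a) f`. -/
lemma div_Z {f : V → ℝ} (hf : ContDiff ℝ ∞ f) (hc : HasCompactSupport f) (c : ℝ) :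
    Z (fun x => 3 * f x + DD c f x) := by
  have h0 := Z_pd ((sm_crd 0).mul hf) hc.mul_left 0
  have h1 := Z_pd ((sm_crd 1).mul hf) hc.mul_left 1
  have s2 : ContDiff ℝ ∞ (fun y : V => y 2 - c) := (sm_crd 2).sub contDiff_const
  have h2 := Z_pd (s2.mul hf) hc.mul_left 2
  have h3 := (h0.add h1).add h2
  have e : (fun x => 3 * f x + DD c f x) = fun x => pd 0 (fun y => y 0 * f y) x
      + pd 1 (fun y => y 1 * f y) x + pd 2 (fun y => (y 2 - c) * f y) x := by
    funext x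
    have p2 : pd 2 (fun y : V => y 2 - c) x = 1 := by
      rw [pd_sub' (sm_crd 2) contDiff_const, pd_crd, pd_const']
      simp
    rw [pd_mulf (sm_crd 0) hf, pd_mulf (sm_crd 1) hf, pd_mulf s2 hf, pd_crd, pd_crd]
    beta_reduce
    rw [p2]
    unfold DD RR
    simp only [if_true]
    ring
  rw [e]
  exact h3

lemma X2_pos (c : ℝ) (hτ : 0 < τ) (x : V) : 0 < X2 c τ x := by
  unfold X2
  have := sg_nn x
  have := sq_nonneg (x 2 - c)
  linarith

lemma X2_sm (c τ : ℝ) : ContDiff ℝ ∞ (X2 c τ) := by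
  unfold X2 sg
  fun_prop

lemma X2_pow_sm (c : ℝ) (hτ : 0 < τ) (a : ℝ) : ContDiff ℝ ∞ (fun y : V => X2 c τ y ^ a) :=
  (X2_sm c τ).rpow_const_of_ne fun x => (X2_pos c hτ x).ne'

lemma X2_DD (c τ : ℝ) (x : V) : DD c (X2 c τ) x = 2 * (X2 c τ x - τ) := by
  have s2 : ContDiff ℝ ∞ (fun y : V => y 2 - c) := (sm_crd 2).sub contDiff_const
  have s3 : ContDiff ℝ ∞ (fun y : V => (y 2 - c) ^ 2) := s2.pow 2
  have e : X2 c τ = fun y => (fun z => sg z + (z 2 - c) ^ 2) y + (fun _ => τ) y := by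
    funext y
    rfl
  have p2 : ∀ j : Fin 3, pd j (fun y : V => y 2 - c) = fun _ => if (2 : Fin 3) = j then 1 else 0 := by
    intro j
    rw [pd_sub' (sm_crd 2) contDiff_const, pd_crd, pd_const']
    funext y
    simp
  have p3 : ∀ j : Fin 3, pd j (X2 c τ) x
      = (if j = 2 then 0 else 2 * x j) + 2 * (x 2 - c) * (if (2 : Fin 3) = j then 1 else 0) := by
    intro j
    rw [e, pd_add' (sg_cd.add s3) contDiff_const, pd_add' sg_cd s3, sq_pd s2, p2, pd_const']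
    beta_reduce
    rw [pd_sg]
    ring
  unfold DD RR
  rw [p3, p3, p3]
  simp only [show (0 : Fin 3) ≠ 2 by decide, show (1 : Fin 3) ≠ 2 by decide,
    show (2 : Fin 3) ≠ 0 by decide, show (2 : Fin 3) ≠ 1 by decide, if_false, if_true]
  unfold X2 sg
  ring

lemma X2_pow_DD (c : ℝ) (hτ : 0 < τ) (a : ℝ) (x : V) :
    DD c (fun y : V => X2 c τ y ^ a) x = a * X2 c τ x ^ (a - 1) * (2 * (X2 c τ x - τ)) := by
  have hd : HasDerivAt (fun s : ℝ => s ^ a) (a * X2 c τ x ^ (a - 1)) (X2 c τ x) :=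
    Real.hasDerivAt_rpow_const (Or.inl (X2_pos c hτ x).ne')
  have hp : ∀ j, pd j (fun y : V => X2 c τ y ^ a) x = a * X2 c τ x ^ (a - 1) * pd j (X2 c τ) x :=
    fun j => pd_comp_at (g := fun s : ℝ => s ^ a) hd ((X2_sm c τ).differentiable (by simp) x) j
  rw [← X2_DD]
  unfold DD RR
  rw [hp, hp, hp]
  ring

/-- The derivative of the cut-off in the direction `x - a`. -/
lemma DD_cut (hK : 0 ≤ K) (hr : 0 ≤ r) (hφ : Cut c r h r1 h1 K φ) (x : V) :
    (x ∈ Out c r h r1 h1 ∧ x ∈ Co c r h ∧ |DD c (fun y => φ y ^ 2) x| ≤ 2 * K * (r ^ 2 + h)) ∨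
      DD c (fun y => φ y ^ 2) x = 0 := by
  rcases cut_dich hφ x with ⟨ho, hc⟩ | ⟨k, hk⟩
  · refine Or.inl ⟨ho, hc, ?_⟩
    obtain ⟨c1, c2, c3⟩ := hφ.bd x
    rw [DD_sq hφ.sm]
    have h1 : |DD c φ x| ≤ K * (r ^ 2 + h) := by
      unfold DD
      refine (abs_add_le _ _).trans ?_
      have h2 : |RR φ x| ≤ K * r ^ 2 := c3.trans (mul_le_mul_of_nonneg_left hc.1.le hK)
      have h3 : |(x 2 - c) * pd 2 φ x| ≤ h * K := by
        rw [abs_mul]
        exact mul_le_mul hc.2.le (c1 2) (abs_nonneg _) ((abs_nonneg _).trans hc.2.le)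
      linarith
    rw [abs_mul, abs_mul, abs_two, abs_of_nonneg (hφ.nn x)]
    calc 2 * φ x * |DD c φ x| ≤ 2 * 1 * (K * (r ^ 2 + h)) := by
          gcongr
          exact hφ.le x
      _ = 2 * K * (r ^ 2 + h) := by ring
  · right
    obtain ⟨a1, a2, a3⟩ := const_pd hk
    rw [DD_sq hφ.sm]
    unfold DD
    rw [a3, a1 2]
    ring

lemma X2_out (hr1 : 0 < r1) (hh1 : 0 < h1) (hτ : 0 < τ) {x : V} (hx : x ∈ Out c r h r1 h1) :
    min (r1 ^ 2) (h1 ^ 2) ≤ X2 c τ x := by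
  unfold X2
  have g1 := sg_nn x
  have g2 := sq_nonneg (x 2 - c)
  rcases hx.2 with h2 | h2
  · refine (min_le_left _ _).trans ?_
    linarith
  · refine (min_le_right _ _).trans ?_
    have h3 : h1 ^ 2 ≤ (x 2 - c) ^ 2 := by
      rw [← sq_abs (x 2 - c)]
      exact pow_le_pow_left₀ hh1.le h2 2
    linarith

lemma cut_sq (hφ : Cut c r h r1 h1 K φ) :
    ContDiff ℝ ∞ (fun y => φ y ^ 2) ∧ HasCompactSupport (fun y => φ y ^ 2) := by
  refine ⟨hφ.sm.pow 2, ?_⟩
  have e : (fun y => φ y ^ 2) = fun y => φ y * φ y := by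
    funext y
    ring
  rw [e]
  exact hφ.cs.mul_right

end MH

open MH

/-- MASS. The integral of `X2 ^ (-κ)`, `κ < 3 / 2`. -/
theorem p_Mass : StmMass := by
  intro c r h r1 h1 K T κ φ hr1 hr hh1 hh hK hT hκ hφ
  have hr0 : 0 ≤ r := (hr1.trans hr).le
  have hh0 : 0 ≤ h := (hh1.trans hh).le
  obtain ⟨ζ, hζ⟩ : ∃ ζ : V → ℝ, ζ = fun y => φ y ^ 2 := ⟨_, rfl⟩
  obtain ⟨hζs, hζc⟩ := cut_sq hφ
  rw [← hζ] at hζs hζc
  have hζ0 : ∀ x, 0 ≤ ζ x := fun x => by rw [hζ]; positivity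
  obtain ⟨m0, hm0⟩ : ∃ m0 : ℝ, m0 = min (r1 ^ 2) (h1 ^ 2) := ⟨_, rfl⟩
  have hm0p : 0 < m0 := by rw [hm0]; exact lt_min (by positivity) (by positivity)
  obtain ⟨M0, hM0⟩ : ∃ M0 : ℝ, M0 = r ^ 2 + h ^ 2 + T := ⟨_, rfl⟩
  have hM0p : 0 < M0 := by rw [hM0]; positivity
  obtain ⟨m, hm⟩ : ∃ m : ℝ, m = 3 - 2 * max κ 0 := ⟨_, rfl⟩
  have hmp : 0 < m := by
    rw [hm]
    rcases max_cases κ 0 with ⟨e, -⟩ | ⟨e, -⟩ <;> rw [e] <;> linarith
  obtain ⟨B, hB⟩ : ∃ B : ℝ, B = 2 * K * (r ^ 2 + h) * (m0 ^ (-κ) + M0 ^ (-κ)) := ⟨_, rfl⟩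
  have hB0 : 0 ≤ B := by
    rw [hB]
    have := Real.rpow_nonneg hm0p.le (-κ)
    have := Real.rpow_nonneg hM0p.le (-κ)
    positivity
  refine ⟨m⁻¹ * ((volume (Co c r h)).toReal * B), fun τ hτ => ?_⟩
  have hXs := X2_pow_sm c hτ.1 (-κ)
  have hZ := div_Z (hζs.mul hXs) hζc.mul_right c
  have iF : Integrable (fun x => ζ x * X2 c τ x ^ (-κ)) :=
    int_cs (hζs.mul hXs).continuous hζc.mul_right
  have hpt : ∀ x, m * (ζ x * X2 c τ x ^ (-κ)) ≤
      (3 * (ζ x * X2 c τ x ^ (-κ)) + DD c (fun y => ζ y * X2 c τ y ^ (-κ)) x)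
        + (Co c r h).indicator (fun _ : V => B) x := by
    intro x
    have hXp := X2_pos c hτ.1 x
    have hP : 0 ≤ X2 c τ x ^ (-κ) := Real.rpow_nonneg hXp.le _
    have hP1 : 0 ≤ X2 c τ x ^ (-κ - 1) := Real.rpow_nonneg hXp.le _
    have hPX : X2 c τ x ^ (-κ - 1) * X2 c τ x = X2 c τ x ^ (-κ) := by
      rw [← Real.rpow_add_one hXp.ne']
      congr 1
      ring
    rw [DD_mul hζs hXs, X2_pow_DD c hτ.1]
    -- the term with the derivative of the cut-off
    have hout : -(X2 c τ x ^ (-κ) * DD c ζ x) ≤ (Co c r h).indicator (fun _ : V => B) x := by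
      have hD := DD_cut hK hr0 hφ x
      rw [← hζ] at hD
      rcases hD with ⟨ho, hc, hb⟩ | h0
      · rw [indicator_of_mem hc, hB]
        have hlo : m0 ≤ X2 c τ x := by rw [hm0]; exact X2_out hr1 hh1 hτ.1 ho
        have hup : X2 c τ x ≤ M0 := by
          rw [hM0]
          unfold X2
          have g1 := hc.1
          have g2 : (x 2 - c) ^ 2 ≤ h ^ 2 := by
            rw [← sq_abs (x 2 - c)]
            exact pow_le_pow_left₀ (abs_nonneg _) hc.2.le 2
          have g3 := hτ.2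
          linarith
        have hPu : X2 c τ x ^ (-κ) ≤ m0 ^ (-κ) + M0 ^ (-κ) := by
          have n1 := Real.rpow_nonneg hm0p.le (-κ)
          have n2 := Real.rpow_nonneg hM0p.le (-κ)
          rcases le_total 0 κ with hk | hk
          · have := Real.rpow_le_rpow_of_nonpos hm0p hlo (show -κ ≤ 0 by linarith)
            linarith
          · have := Real.rpow_le_rpow hXp.le hup (show 0 ≤ -κ by linarith)
            linarith
        have h4 : |X2 c τ x ^ (-κ) * DD c ζ x| ≤ (m0 ^ (-κ) + M0 ^ (-κ)) * (2 * K * (r ^ 2 + h)) := by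
          rw [abs_mul, abs_of_nonneg hP]
          exact mul_le_mul hPu hb (abs_nonneg _) (hP.trans hPu)
        have h5 := neg_abs_le (X2 c τ x ^ (-κ) * DD c ζ x)
        linarith
      · rw [h0, mul_zero, neg_zero]
        exact indicator_nonneg (fun _ _ => hB0) _
    -- the main term
    have hmain : m * X2 c τ x ^ (-κ) ≤ 3 * X2 c τ x ^ (-κ)
        + -κ * X2 c τ x ^ (-κ - 1) * (2 * (X2 c τ x - τ)) := by
      have e1 : -κ * X2 c τ x ^ (-κ - 1) * (2 * (X2 c τ x - τ))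
          = -(2 * κ) * (X2 c τ x ^ (-κ - 1) * X2 c τ x) + 2 * κ * (τ * X2 c τ x ^ (-κ - 1)) := by
        ring
      rw [e1, hPX, hm]
      have hq : 0 ≤ τ * X2 c τ x ^ (-κ - 1) := mul_nonneg hτ.1.le hP1
      rcases le_total 0 κ with hk | hk
      · rw [max_eq_left hk]
        have := mul_nonneg (mul_nonneg zero_le_two hk) hq
        linarith
      · rw [max_eq_right hk]
        have hτX : τ * X2 c τ x ^ (-κ - 1) ≤ X2 c τ x ^ (-κ) := by
          rw [← hPX, mul_comm τ]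
          refine mul_le_mul_of_nonneg_left ?_ hP1
          unfold X2
          have g1 := sg_nn x
          have g2 := sq_nonneg (x 2 - c)
          linarith
        have h6 := mul_nonneg (show 0 ≤ -(2 * κ) by linarith) (sub_nonneg.2 hτX)
        linarith
    have h7 := mul_le_mul_of_nonneg_left hmain (hζ0 x)
    linarith
  have h8 := integral_mono (iF.const_mul m) (hZ.1.add (ind_int hr0 B)) hpt
  have h9 := integral_add hZ.1 (ind_int (c := c) (h := h) hr0 B)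
  simp only [Pi.add_apply] at h8 h9
  rw [h9, hZ.2, zero_add, ind_val, integral_const_mul] at h8
  have e9 : ∫ x, φ x ^ 2 * X2 c τ x ^ (-κ) = ∫ x, ζ x * X2 c τ x ^ (-κ) := by rw [hζ]
  rw [e9, inv_mul_eq_div, le_div_iff₀ hmp]
  linarith

/-- HAR2. Hardy inequality with a cut-off. -/
theorem p_Har2 : StmHar2 := by
  intro c r h r1 h1 K φ hr1 hr hh1 hh hK hφ
  have hr0 : 0 ≤ r := (hr1.trans hr).le
  have hh0 : 0 ≤ h := (hh1.trans hh).le
  obtain ⟨ζ, hζ⟩ : ∃ ζ : V → ℝ, ζ = fun y => φ y ^ 2 := ⟨_, rfl⟩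
  obtain ⟨hζs, hζc⟩ := cut_sq hφ
  rw [← hζ] at hζs hζc
  have hζ0 : ∀ x, 0 ≤ ζ x := fun x => by rw [hζ]; positivity
  have hζ1 : ∀ x, ζ x ≤ 1 := fun x => by
    rw [hζ]
    exact pow_le_one₀ (hφ.nn x) (hφ.le x)
  obtain ⟨m0, hm0⟩ : ∃ m0 : ℝ, m0 = min (r1 ^ 2) (h1 ^ 2) := ⟨_, rfl⟩
  have hm0p : 0 < m0 := by rw [hm0]; exact lt_min (by positivity) (by positivity)
  obtain ⟨B, hB⟩ : ∃ B : ℝ, B = K ^ 2 / m0 * (2 * K * (r ^ 2 + h)) := ⟨_, rfl⟩
  have hB0 : 0 ≤ B := by rw [hB]; positivity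
  obtain ⟨vC, hvC⟩ : ∃ vC : ℝ, vC = (volume (Co c r h)).toReal := ⟨_, rfl⟩
  have hvC0 : 0 ≤ vC := by rw [hvC]; exact ENNReal.toReal_nonneg
  refine ⟨4 + 2 * (vC * B), by positivity, fun τ g hτ hg hgK => ?_⟩
  have hXs := X2_pow_sm c hτ (-1)
  have hg2 : ContDiff ℝ ∞ (fun y => g y ^ 2) := hg.pow 2
  have hgX : ContDiff ℝ ∞ (fun y => g y ^ 2 * X2 c τ y ^ (-1 : ℝ)) := hg2.mul hXs
  have hZ := div_Z (hζs.mul hgX) hζc.mul_right c
  have iF : Integrable (fun x => ζ x * (g x ^ 2 * X2 c τ x ^ (-1 : ℝ))) :=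
    int_cs (hζs.mul hgX).continuous hζc.mul_right
  have iG : IntegrableOn (fun x => gr2 g x) (Co c r h) :=
    ((gr2_sm hg).continuous.continuousOn.integrableOn_compact (Cy_compact hr0)).mono_set
      (Co_sub_Cy c r h)
  have iGi : Integrable ((Co c r h).indicator fun x => 2 * gr2 g x) :=
    (integrable_indicator_iff (Co_meas c r h)).2 (iG.const_mul 2)
  have hpt : ∀ x, 1 / 2 * (ζ x * (g x ^ 2 * X2 c τ x ^ (-1 : ℝ))) ≤
      ((3 * (ζ x * (g x ^ 2 * X2 c τ x ^ (-1 : ℝ)))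
        + DD c (fun y => ζ y * (g y ^ 2 * X2 c τ y ^ (-1 : ℝ))) x)
        + (Co c r h).indicator (fun x => 2 * gr2 g x) x)
        + (Co c r h).indicator (fun _ : V => B) x := by
    intro x
    have hXp := X2_pos c hτ x
    obtain ⟨P, hP⟩ : ∃ P : ℝ, P = X2 c τ x ^ (-1 : ℝ) := ⟨_, rfl⟩
    have hPi : P = (X2 c τ x)⁻¹ := by rw [hP, Real.rpow_neg_one]
    have hPp : 0 < P := by rw [hPi]; positivity
    have hP2 : X2 c τ x ^ (-1 - 1 : ℝ) = P ^ 2 := by
      rw [hP, ← Real.rpow_natCast, ← Real.rpow_mul hXp.le]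
      norm_num
    have hPX : P * X2 c τ x = 1 := by rw [hPi]; exact inv_mul_cancel₀ hXp.ne'
    rw [DD_mul hζs hgX, DD_mul hg2 hXs, X2_pow_DD c hτ, DD_sq hg, hP2, ← hP]
    -- the term with the derivative of the cut-off
    have hout : -(g x ^ 2 * P * DD c ζ x) ≤ (Co c r h).indicator (fun _ : V => B) x := by
      have hD := DD_cut hK hr0 hφ x
      rw [← hζ] at hD
      rcases hD with ⟨ho, hc, hb⟩ | h0
      · rw [indicator_of_mem hc, hB]
        have hlo : m0 ≤ X2 c τ x := by rw [hm0]; exact X2_out hr1 hh1 hτ ho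
        have hPu : P ≤ 1 / m0 := by
          rw [hPi, ← one_div]
          exact one_div_le_one_div_of_le hm0p hlo
        have hgu : g x ^ 2 ≤ K ^ 2 := by
          rw [← sq_abs (g x)]
          exact pow_le_pow_left₀ (abs_nonneg _) (hgK x ho) 2
        have hgP : g x ^ 2 * P ≤ K ^ 2 / m0 := by
          calc g x ^ 2 * P ≤ K ^ 2 * (1 / m0) :=
                mul_le_mul hgu hPu hPp.le (by positivity)
            _ = K ^ 2 / m0 := by ring
        have hgP0 : 0 ≤ g x ^ 2 * P := by positivity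
        have h4 : |g x ^ 2 * P * DD c ζ x| ≤ K ^ 2 / m0 * (2 * K * (r ^ 2 + h)) := by
          rw [abs_mul, abs_of_nonneg hgP0]
          exact mul_le_mul hgP hb (abs_nonneg _) (hgP0.trans hgP)
        have h5 := neg_abs_le (g x ^ 2 * P * DD c ζ x)
        linarith
      · rw [h0, mul_zero, neg_zero]
        exact indicator_nonneg (fun _ _ => hB0) _
    -- the gradient
    have hgr : ζ x * (2 * gr2 g x) ≤ (Co c r h).indicator (fun x => 2 * gr2 g x) x := by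
      by_cases hc : x ∈ Co c r h
      · rw [indicator_of_mem hc]
        have := mul_le_mul_of_nonneg_right (hζ1 x)
          (show 0 ≤ 2 * gr2 g x by have := gr2_nn g x; linarith)
        linarith
      · rw [indicator_of_notMem hc]
        have hz : ζ x = 0 := by
          rw [hζ]
          beta_reduce
          have : φ x = 0 := by
            by_contra hne
            exact hc (cut_mem hφ hne)
          rw [this]
          norm_num
        rw [hz, zero_mul]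
    -- the main term
    have hmain : 1 / 2 * (g x ^ 2 * P) ≤ 3 * (g x ^ 2 * P)
        + (g x ^ 2 * (-1 * P ^ 2 * (2 * (X2 c τ x - τ))) + P * (2 * g x * DD c g x))
        + 2 * gr2 g x := by
      have hgr2 : gr2 g x = pd 0 g x ^ 2 + pd 1 g x ^ 2 + pd 2 g x ^ 2 := by
        unfold gr2
        rw [Fin.sum_univ_three]
      obtain ⟨a0, ha0⟩ : ∃ a : ℝ, a = pd 0 g x := ⟨_, rfl⟩
      obtain ⟨a1, ha1⟩ : ∃ a : ℝ, a = pd 1 g x := ⟨_, rfl⟩
      obtain ⟨a2, ha2⟩ : ∃ a : ℝ, a = pd 2 g x := ⟨_, rfl⟩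
      obtain ⟨z, hz⟩ : ∃ z : ℝ, z = x 2 - c := ⟨_, rfl⟩
      have hDg : DD c g x = x 0 * a0 + x 1 * a1 + z * a2 := by
        unfold DD RR
        rw [ha0, ha1, ha2, hz]
      have hXe : X2 c τ x = x 0 ^ 2 + x 1 ^ 2 + z ^ 2 + τ := by
        unfold X2 sg
        rw [hz]
      have hy : P ^ 2 * (x 0 ^ 2 + x 1 ^ 2 + z ^ 2) = P - P ^ 2 * τ := by
        have : P ^ 2 * X2 c τ x = P := by
          rw [pow_two, mul_assoc, hPX, mul_one]
        rw [hXe] at this
        linarith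
      rw [hgr2, ← ha0, ← ha1, ← ha2, hDg]
      have e1 : g x ^ 2 * (-1 * P ^ 2 * (2 * (X2 c τ x - τ)))
          = -(2 * g x ^ 2 * (P ^ 2 * (x 0 ^ 2 + x 1 ^ 2 + z ^ 2))) := by
        rw [hXe]
        ring
      have q0 := sq_nonneg (g x * P * x 0 + 2 * a0)
      have q1 := sq_nonneg (g x * P * x 1 + 2 * a1)
      have q2 := sq_nonneg (g x * P * z + 2 * a2)
      have e2 : (g x * P * x 0 + 2 * a0) ^ 2 + (g x * P * x 1 + 2 * a1) ^ 2
          + (g x * P * z + 2 * a2) ^ 2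
          = g x ^ 2 * (P ^ 2 * (x 0 ^ 2 + x 1 ^ 2 + z ^ 2))
            + 2 * (P * (2 * g x * (x 0 * a0 + x 1 * a1 + z * a2)))
            + 4 * (a0 ^ 2 + a1 ^ 2 + a2 ^ 2) := by ring
      rw [e1]
      rw [hy] at e2 ⊢
      have q3 : 0 ≤ g x ^ 2 * (P ^ 2 * τ) := by positivity
      have q4 : 0 ≤ g x ^ 2 * P := by positivity
      nlinarith
    have h7 := mul_le_mul_of_nonneg_left hmain (hζ0 x)
    have e7 : ζ x * (3 * (g x ^ 2 * P)
        + (g x ^ 2 * (-1 * P ^ 2 * (2 * (X2 c τ x - τ))) + P * (2 * g x * DD c g x))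
        + 2 * gr2 g x) = 3 * (ζ x * (g x ^ 2 * P))
        + ζ x * (g x ^ 2 * (-1 * P ^ 2 * (2 * (X2 c τ x - τ))) + P * (2 * g x * DD c g x))
        + ζ x * (2 * gr2 g x) := by ring
    rw [e7] at h7
    linarith
  have h8 := integral_mono (iF.const_mul (1 / 2)) ((hZ.1.add iGi).add (ind_int hr0 B)) hpt
  have h9 := integral_add (hZ.1.add iGi) (ind_int (c := c) (h := h) hr0 B)
  have h10 := integral_add hZ.1 iGi
  simp only [Pi.add_apply] at h8 h9 h10
  rw [h9, h10, hZ.2, zero_add, ind_val, integral_const_mul, integral_indicator (Co_meas c r h),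
    integral_const_mul, ← hvC] at h8
  have e9 : ∫ x, φ x ^ 2 * (g x ^ 2 / X2 c τ x)
      = ∫ x, ζ x * (g x ^ 2 * X2 c τ x ^ (-1 : ℝ)) := by
    rw [hζ]
    refine integral_congr_ae (Eventually.of_forall fun x => ?_)
    beta_reduce
    rw [Real.rpow_neg_one, div_eq_mul_inv]
  rw [e9]
  have hI : 0 ≤ ∫ x in Co c r h, gr2 g x := integral_nonneg fun x => gr2_nn g x
  have h11 : 0 ≤ vC * B * ∫ x in Co c r h, gr2 g x := by positivity
  nlinarith

end Pool.Agent.V8H53.OW
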