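import Pool.Agent.V8H53.OW.Str
import Pool.Agent.Q175.AX.CutL

/-!
Project OW: the decrease of the maximum.
-/

set_option autoImplicit false

open MeasureTheory Set Metric Filter Topology
open scoped ContDiff
open H459R3.NS Pool.Agent.W268.NS Pool.Agent.Q67.VD

namespace Pool.Agent.V8H53.OW

open Pool.Agent.Q85.CC Pool.Agent.Q85.CL Pool.Agent.TH305.AX
open Pool.Agent.Q67.AXI
open Pool.Agent.W583.MD (sm_pd)
open Pool.Agent.TH305.DR (pd_add' pd_sub' pd_neg' pd_cmul pd_const')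
open Pool.Agent.Q175.AX (Co_open Cy_compact Co_meas Co_fin Co_sub_Cy sg_cd sg_nn)

/-- slices are smooth -/
lemma slc {a b : ℝ} {f : ℝ → V → ℝ}
    (hf : ContDiffOn ℝ ∞ (fun z : ℝ × V => f z.1 z.2) (Ioo a b ×ˢ univ)) {t : ℝ}
    (ht : t ∈ Ioo a b) : ContDiff ℝ ∞ (f t) := by
  rw [← contDiffOn_univ]
  exact hf.comp (f := fun x : V => ((t, x) : ℝ × V)) (by fun_prop) fun x _ => ⟨ht, mem_univ _⟩

lemma Lin.aff {a b a' b' : ℝ} {O O' : Set V} {w ψ : ℝ → V → ℝ} (h : Lin a b O w ψ) (α β : ℝ)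
    (ha : a ≤ a') (hb : b' ≤ b) (hO : O' ⊆ O) : Lin a' b' O' (fun t x => α * w t x + β) ψ := by
  have hI : Ioo a' b' ⊆ Ioo a b := Ioo_subset_Ioo ha hb
  refine ⟨?_, fun t ht => h.smψ t (hI ht), fun t ht x hx hs => ?_⟩
  · exact (contDiffOn_const.mul (h.sm.mono (prod_mono hI subset_rfl))).add contDiffOn_const
  · have hw := slc h.sm (hI ht)
    have hp : ∀ j, pd j (fun x => α * w t x + β) = fun x => α * pd j (w t) x := by
      intro j
      rw [pd_add' (contDiff_const.mul hw) contDiff_const, pd_const']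
      funext x
      rw [pd_mulf contDiff_const hw, pd_const']
      ring
    have e := ((h.eq t (hI ht) x (hO hx) hs).const_mul α).add_const β
    refine e.congr_deriv ?_
    have hpp : ∀ j, pd j (fun x => α * pd j (w t) x) x = α * pd j (pd j (w t)) x := by
      intro j
      rw [pd_mulf contDiff_const (sm_pd hw j), pd_const']
      ring
    unfold lap RR
    simp only [hp, hpp, Fin.sum_univ_three]
    ring

lemma L4_int {r h : ℝ} {g : V → ℝ} (hr : 0 ≤ r) (hg : ContDiff ℝ ∞ g) :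
    IntegrableOn (fun x => sg x ^ 2 * g x ^ 4) (Co 0 r h) := by
  have h1 : Continuous (fun x => sg x ^ 2 * g x ^ 4) :=
    (sg_cd.continuous.pow 2).mul (hg.continuous.pow 4)
  exact (h1.continuousOn.integrableOn_compact (Cy_compact hr)).mono_set (Co_sub_Cy 0 r h)

theorem osc (hDG : StmDG) (hLg : StmLg) : StmOsc := by
  intro Λ hΛ
  obtain ⟨η, hη, hdg⟩ := hDG Λ hΛ
  obtain ⟨N, δ, hN, hδ, hδ1, hlg⟩ := hLg Λ η hΛ hη
  refine ⟨N, δ / 2, hN, by linarith, by linarith, ?_⟩
  intro W ψ hLin hWs hb hL4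
  have hI1 : Ioo (-1 : ℝ) 0 ⊆ Ioo (-N) 0 := Ioo_subset_Ioo (by linarith) le_rfl
  have hsub : Co 0 (1 / 2) (1 / 2) ⊆ Co 0 1 1 := fun x hx =>
    ⟨hx.1.trans (by norm_num), hx.2.trans (by norm_num)⟩
  -- one sign
  have hone : ∀ σ : ℝ, (σ = 1 ∨ σ = -1) → ∀ t ∈ Ioo (-(1 / 4) : ℝ) 0,
      ∀ x ∈ Co 0 (1 / 4) (1 / 4), σ * (sg x * W t x) ≤ 1 - δ / 2 := by
    intro σ hσ
    have hσ1 : |σ| = 1 := by rcases hσ with h | h <;> rw [h] <;> simp
    have hbσ : ∀ t ∈ Ioo (-N) 0, ∀ x ∈ Co 0 1 1, |sg x * (σ * W t x)| ≤ 1 := by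
      intro t ht x hx
      have e : sg x * (σ * W t x) = σ * (sg x * W t x) := by ring
      rw [e, abs_mul, hσ1, one_mul]
      exact hb t ht x hx
    have hLσ : Lin (-N) 0 (Co 0 1 1) (fun t x => sg x * (σ * W t x)) ψ := by
      have h1 := hLin.aff σ 0 le_rfl le_rfl subset_rfl
      have e : (fun (t : ℝ) (x : V) => sg x * (σ * W t x))
          = fun t x => σ * (sg x * W t x) + 0 := by
        funext t x
        ring
      rw [e]
      exact h1
    have hm := hlg (fun t x => σ * W t x) ψ hLσ (contDiffOn_const.mul hWs) hbσ hL4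
    have hδ0 : δ ≠ 0 := hδ.ne'
    have hw := hdg (fun t x => δ⁻¹ * (sg x * (σ * W t x)) + (-(δ⁻¹ * (1 - δ)))) ψ
      (hLσ.aff δ⁻¹ (-(δ⁻¹ * (1 - δ))) (by linarith) le_rfl hsub)
      (by
        intro t ht x hx
        constructor
        · have h1 := (abs_le.1 (hbσ t (hI1 ht) x (hsub hx))).2
          have h2 : δ⁻¹ * (sg x * (σ * W t x)) ≤ δ⁻¹ * 1 :=
            mul_le_mul_of_nonneg_left h1 (inv_nonneg.2 hδ.le)
          have h3 : δ⁻¹ * 1 - δ⁻¹ * (1 - δ) = 1 := by
            field_simp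
            ring
          linarith
        · intro hs
          rw [hs]
          have h2 : 0 < δ⁻¹ * (1 - δ) := mul_pos (inv_pos.2 hδ) (by linarith)
          linarith)
      (by
        intro t ht
        refine le_trans ?_ (hL4 t (hI1 ht))
        refine setIntegral_mono_set (L4_int zero_le_one (hLin.smψ t (hI1 ht)))
          (Eventually.of_forall fun x => ?_) hsub.eventuallyLE
        show 0 ≤ sg x ^ 2 * ψ t x ^ 4
        positivity)
      (by
        intro t ht
        refine le_trans (le_of_eq ?_) (hm t ht)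
        congr 1
        ext x
        simp only [Set.mem_ofPred_eq]
        refine and_congr_right fun _ => ?_
        have e : δ⁻¹ * (sg x * (σ * W t x)) + -(δ⁻¹ * (1 - δ))
            = δ⁻¹ * (sg x * (σ * W t x) - (1 - δ)) := by ring
        rw [e]
        rw [mul_pos_iff_of_pos_left (inv_pos.2 hδ)]
        exact sub_pos)
    intro t ht x hx
    have h1 := hw t ht x hx
    have e : δ⁻¹ * (sg x * (σ * W t x)) + -(δ⁻¹ * (1 - δ))
        = (σ * (sg x * W t x) - (1 - δ)) / δ := by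
      field_simp
      ring
    rw [e, div_le_iff₀ hδ] at h1
    linarith
  intro t ht x hx
  rw [abs_le]
  have h1 := hone 1 (Or.inl rfl) t ht x hx
  have h2 := hone (-1) (Or.inr rfl) t ht x hx
  constructor <;> linarith

end Pool.Agent.V8H53.OW
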