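import Pool.Agent.V8H53.OW.Defs
import Pool.Agent.Q119.AXI.Dt
import Pool.Agent.Q182.AXI.T1P
import Pool.Agent.Q150.AXI.EqO
import Pool.Agent.Q95.AXP.Yd

/-!
OW-LG, part A (helper40): the weight, chain rules.
-/

set_option autoImplicit false

open MeasureTheory Set Metric Filter Topology
open scoped ContDiff
open H459R3.NS Pool.Agent.W268.NS Pool.Agent.Q67.VD

namespace Pool.Agent.V8H53.OW.LgP

open Pool.Agent.Q85.CC Pool.Agent.Q85.CL Pool.Agent.TH305.AX Pool.Agent.Q67.AXI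
open Pool.Agent.W583.MD (sm_pd pd_mul')
open Pool.Agent.Q149.AXI (sm_RR RR_mul pd_com pd2_RR pd_off RR_sq sm_gr2 cs_pd
  cs_gr2 gr2_nonneg Cy_closed Cy_bdd sg_cont)
open Pool.Agent.Q182.AXI.T1P (int_pd int_RR)
open Pool.Agent.Q150.AXI (sm_sg pd_sg RR_sgf)

/-! ### The function `exp (-1 / s)` -/

/-- the derivative of `exp (-1 / s)` -/
noncomputable def e1 (s : ℝ) : ℝ := s⁻¹ ^ 2 * expNegInvGlue s

lemma e_hd (s : ℝ) : HasDerivAt expNegInvGlue (e1 s) s := by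
  have h := expNegInvGlue.hasDerivAt_polynomial_eval_inv_mul 1 s
  simpa [e1] using h

lemma e_eq {s : ℝ} (hs : 0 < s) : expNegInvGlue s = Real.exp (-s⁻¹) := by
  unfold expNegInvGlue
  rw [if_neg (not_le.2 hs)]

lemma e_le_one (s : ℝ) : expNegInvGlue s ≤ 1 := by
  rcases le_or_gt s 0 with h | h
  · rw [expNegInvGlue.zero_of_nonpos h]
    exact zero_le_one
  · rw [e_eq h]
    exact Real.exp_le_one_iff.2 (by have := inv_pos.2 h; linarith)

lemma e1_nn (s : ℝ) : 0 ≤ e1 s := mul_nonneg (sq_nonneg _) (expNegInvGlue.nonneg s)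

lemma e1_zero {s : ℝ} (hs : s ≤ 0) : e1 s = 0 := by
  unfold e1
  rw [expNegInvGlue.zero_of_nonpos hs, mul_zero]

lemma e_le_e1 {s : ℝ} (hs : s ≤ 1) : expNegInvGlue s ≤ e1 s := by
  rcases le_or_gt s 0 with h | h
  · rw [e1_zero h, expNegInvGlue.zero_of_nonpos h]
  · have h1 : 1 ≤ s⁻¹ := (one_le_inv₀ h).2 hs
    have h2 : 1 ≤ s⁻¹ ^ 2 := one_le_pow₀ h1
    unfold e1
    have := expNegInvGlue.nonneg s
    nlinarith

lemma e1_sq (s : ℝ) : e1 s ^ 2 ≤ 24 * expNegInvGlue s := by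
  rcases le_or_gt s 0 with h | h
  · rw [e1_zero h, expNegInvGlue.zero_of_nonpos h]
    norm_num
  · unfold e1
    rw [e_eq h]
    have hu : 0 < s⁻¹ := inv_pos.2 h
    obtain ⟨u, hu'⟩ : ∃ u : ℝ, u = s⁻¹ := ⟨_, rfl⟩
    rw [← hu'] at hu ⊢
    have h1 : u ^ 4 / 24 ≤ Real.exp u := by
      have := Real.pow_div_factorial_le_exp u hu.le 4
      simpa [Nat.factorial] using this
    have h2 : Real.exp (-u) * Real.exp u = 1 := by
      rw [← Real.exp_add]
      simp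
    have h3 : 0 < Real.exp (-u) := Real.exp_pos _
    have h4 : u ^ 4 * Real.exp (-u) ≤ 24 := by
      nlinarith
    nlinarith

lemma e1_le (s : ℝ) : e1 s ≤ 5 := by
  have h1 := e1_sq s
  have h2 := e_le_one s
  have h3 := e1_nn s
  nlinarith

lemma e_low {s : ℝ} (hs : 1 / 2 ≤ s) : Real.exp (-2) ≤ expNegInvGlue s := by
  have h0 : 0 < s := by linarith
  rw [e_eq h0]
  apply Real.exp_le_exp.2
  have : s⁻¹ ≤ 2 := by
    rw [inv_le_comm₀ h0 (by norm_num)]
    linarith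
  linarith

lemma e_sm : ContDiff ℝ ∞ expNegInvGlue := expNegInvGlue.contDiff

lemma e1_sm : ContDiff ℝ ∞ e1 := by
  have h : e1 = deriv expNegInvGlue := by
    funext s
    exact (e_hd s).deriv.symm
  rw [h]
  exact (contDiff_infty_iff_deriv.1 e_sm).2

/-! ### Chain rules -/

lemma pd_comp {h : ℝ → ℝ} {h' : ℝ} {g : V → ℝ} (hg : ContDiff ℝ ∞ g) {x : V}
    (hh : HasDerivAt h h' (g x)) (i : Fin 3) : pd i (fun y => h (g y)) x = h' * pd i g x := by
  have h1 : HasFDerivAt g (fderiv ℝ g x) x := (hg.differentiable (by norm_cast) x).hasFDerivAt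
  have h2 := hh.comp_hasFDerivAt x h1
  unfold pd
  have h3 : (fun y => h (g y)) = h ∘ g := rfl
  rw [h3, h2.fderiv]
  simp

lemma RR_comp {h : ℝ → ℝ} {h' : ℝ} {g : V → ℝ} (hg : ContDiff ℝ ∞ g) {x : V}
    (hh : HasDerivAt h h' (g x)) : RR (fun y => h (g y)) x = h' * RR g x := by
  unfold RR
  rw [pd_comp hg hh, pd_comp hg hh]
  ring

lemma lap_comp {h : ℝ → ℝ} {g : V → ℝ} (hs : ContDiff ℝ ∞ h) (hg : ContDiff ℝ ∞ g) (x : V) :
    lap (fun y => h (g y)) x = deriv h (g x) * lap g x + deriv (deriv h) (g x) * gr2 g x := by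
  have hd : ∀ y, HasDerivAt h (deriv h y) y := fun y =>
    (hs.differentiable (by norm_cast) y).hasDerivAt
  have hs1 : ContDiff ℝ ∞ (deriv h) := (contDiff_infty_iff_deriv.1 hs).2
  have hd1 : ∀ y, HasDerivAt (deriv h) (deriv (deriv h) y) y := fun y =>
    (hs1.differentiable (by norm_cast) y).hasDerivAt
  have h1 : ∀ i, pd i (fun y => h (g y)) = fun y => deriv h (g y) * pd i g y := fun i => by
    funext y
    exact pd_comp hg (hd _) i
  unfold lap gr2
  simp only [h1]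
  rw [Finset.mul_sum, Finset.mul_sum, ← Finset.sum_add_distrib]
  refine Finset.sum_congr rfl fun i _ => ?_
  have h2 : ContDiff ℝ ∞ (fun y => deriv h (g y)) := hs1.comp hg
  rw [pd_mul' h2 (sm_pd hg i)]
  rw [show pd i (fun y => deriv h (g y)) x = deriv (deriv h) (g x) * pd i g x from
    pd_comp hg (hd1 _) i]
  ring

/-! ### The weight -/

/-- the weight -/
noncomputable def ze (x : V) : ℝ := expNegInvGlue (1 - sg x) * expNegInvGlue (1 - x 2 ^ 2)

/-- `-(2 / ρ) ∂_ρ` of the weight -/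
noncomputable def ka (x : V) : ℝ := 4 * (e1 (1 - sg x) * expNegInvGlue (1 - x 2 ^ 2))

lemma sm_a : ContDiff ℝ ∞ (fun x : V => 1 - sg x) := contDiff_const.sub sm_sg

lemma sm_b : ContDiff ℝ ∞ (fun x : V => 1 - x 2 ^ 2) := contDiff_const.sub ((sm_crd 2).pow 2)

lemma sm_ea : ContDiff ℝ ∞ (fun x : V => expNegInvGlue (1 - sg x)) := e_sm.comp sm_a

lemma sm_eb : ContDiff ℝ ∞ (fun x : V => expNegInvGlue (1 - x 2 ^ 2)) := e_sm.comp sm_b

lemma ze_sm : ContDiff ℝ ∞ ze := sm_ea.mul sm_eb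

lemma ka_sm : ContDiff ℝ ∞ ka :=
  contDiff_const.mul ((e1_sm.comp sm_a).mul sm_eb)

lemma ze_nn (x : V) : 0 ≤ ze x := mul_nonneg (expNegInvGlue.nonneg _) (expNegInvGlue.nonneg _)

lemma ze_le (x : V) : ze x ≤ 1 :=
  mul_le_one₀ (e_le_one _) (expNegInvGlue.nonneg _) (e_le_one _)

lemma ka_nn (x : V) : 0 ≤ ka x :=
  mul_nonneg (by norm_num) (mul_nonneg (e1_nn _) (expNegInvGlue.nonneg _))

lemma ka_le (x : V) : ka x ≤ 20 := by
  unfold ka
  have h1 := e1_le (1 - sg x)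
  have h2 := e_le_one (1 - x 2 ^ 2)
  have h3 := e1_nn (1 - sg x)
  have h4 := expNegInvGlue.nonneg (1 - x 2 ^ 2)
  nlinarith

lemma ze_ka (x : V) : 4 * ze x ≤ ka x := by
  unfold ka ze
  have h1 : expNegInvGlue (1 - sg x) ≤ e1 (1 - sg x) := e_le_e1 (by
    have := sg_nonneg x
    linarith)
  have h4 := expNegInvGlue.nonneg (1 - x 2 ^ 2)
  have := mul_le_mul_of_nonneg_right h1 h4
  linarith

lemma off_co {x : V} (hx : x ∉ Co 0 1 1) : 1 - sg x ≤ 0 ∨ 1 - x 2 ^ 2 ≤ 0 := by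
  by_contra hcon
  push Not at hcon
  apply hx
  refine ⟨by linarith [hcon.1], ?_⟩
  rw [sub_zero]
  have h1 : x 2 ^ 2 < 1 := by linarith [hcon.2]
  exact (sq_lt_one_iff_abs_lt_one _).1 h1

lemma ze_off {x : V} (hx : x ∉ Co 0 1 1) : ze x = 0 := by
  unfold ze
  rcases off_co hx with h | h
  · rw [expNegInvGlue.zero_of_nonpos h, zero_mul]
  · rw [expNegInvGlue.zero_of_nonpos h, mul_zero]

lemma ka_off {x : V} (hx : x ∉ Co 0 1 1) : ka x = 0 := by
  unfold ka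
  rcases off_co hx with h | h
  · rw [e1_zero h, zero_mul, mul_zero]
  · rw [expNegInvGlue.zero_of_nonpos h, mul_zero, mul_zero]

lemma co_cy {c r h : ℝ} : Co c r h ⊆ Cy c r h := fun _ hx => ⟨hx.1.le, hx.2.le⟩

lemma ze_cs : HasCompactSupport ze := by
  refine HasCompactSupport.intro (Pool.Agent.Q95.AXP.cy_compact 0 (r := 1) (h := 1) one_pos)
    fun x hx => ze_off fun h => hx (co_cy h)

lemma ka_cs : HasCompactSupport ka := by
  refine HasCompactSupport.intro (Pool.Agent.Q95.AXP.cy_compact 0 (r := 1) (h := 1) one_pos)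
    fun x hx => ka_off fun h => hx (co_cy h)

lemma pd_ze (x : V) (i : Fin 3) : pd i ze x =
    -(e1 (1 - sg x) * expNegInvGlue (1 - x 2 ^ 2) * pd i sg x)
      - expNegInvGlue (1 - sg x) * e1 (1 - x 2 ^ 2) * (2 * x 2 * (if (2 : Fin 3) = i then 1 else 0))
    := by
  have h1 : pd i (fun x : V => expNegInvGlue (1 - sg x)) x = e1 (1 - sg x) * (-pd i sg x) := by
    rw [pd_comp (g := fun x => 1 - sg x) sm_a (e_hd _)]
    congr 1
    unfold pd
    rw [fderiv_const_sub]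
    rfl
  have h2 : pd i (fun x : V => expNegInvGlue (1 - x 2 ^ 2)) x =
      e1 (1 - x 2 ^ 2) * (-(2 * x 2 * (if (2 : Fin 3) = i then 1 else 0))) := by
    rw [pd_comp (g := fun x : V => 1 - x 2 ^ 2) sm_b (e_hd _)]
    congr 1
    have h3 : pd i (fun x : V => 1 - x 2 ^ 2) x = -pd i (fun x : V => x 2 ^ 2) x := by
      unfold pd
      rw [fderiv_const_sub]
      rfl
    have h4 : (fun x : V => x 2 ^ 2) = fun x : V => x 2 * x 2 := by
      funext y
      ring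
    rw [h3, h4, pd_mul' (sm_crd 2) (sm_crd 2), pd_crd]
    ring
  have h5 : ze = fun x : V => expNegInvGlue (1 - sg x) * expNegInvGlue (1 - x 2 ^ 2) := rfl
  rw [h5, pd_mul' sm_ea sm_eb, h1, h2]
  ring

lemma RR_ze (x : V) : 2 * RR ze x = -(sg x * ka x) := by
  unfold RR ka
  rw [pd_ze, pd_ze, pd_sg, pd_sg]
  simp only [Pool.Agent.Q150.AXI.sd, sg]
  have e1 : ((2 : Fin 3) = 0) = False := by simp
  have e2 : ((2 : Fin 3) = 1) = False := by simp
  simp only [e1, e2, if_false]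
  norm_num
  ring

lemma gr2_ze (x : V) : gr2 ze x ≤ 192 * ze x := by
  have h1 : gr2 ze x = 4 * sg x * e1 (1 - sg x) ^ 2 * expNegInvGlue (1 - x 2 ^ 2) ^ 2
      + 4 * x 2 ^ 2 * expNegInvGlue (1 - sg x) ^ 2 * e1 (1 - x 2 ^ 2) ^ 2 := by
    unfold gr2
    rw [Fin.sum_univ_three, pd_ze, pd_ze, pd_ze, pd_sg, pd_sg, pd_sg]
    simp only [Pool.Agent.Q150.AXI.sd, sg]
    have e1 : ((2 : Fin 3) = 0) = False := by simp
    have e2 : ((2 : Fin 3) = 1) = False := by simp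
    have e3 : ((0 : Fin 3) = 2) = False := by simp
    have e4 : ((1 : Fin 3) = 2) = False := by simp
    have e5 : ((0 : Fin 3) = 1) = False := by simp
    have e6 : ((1 : Fin 3) = 0) = False := by simp
    simp only [e1, e2, e3, e4, e5, e6, if_false, if_true]
    norm_num
    ring
  rw [h1]
  by_cases hx : x ∈ Co 0 1 1
  · have hs0 := sg_nonneg x
    have hs1 : sg x ≤ 1 := by
      have := hx.1
      norm_num at this
      exact this.le
    have hz1 : x 2 ^ 2 ≤ 1 := by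
      have := hx.2
      rw [sub_zero] at this
      exact ((sq_lt_one_iff_abs_lt_one _).2 this).le
    have a1 := e1_sq (1 - sg x)
    have a2 := e1_sq (1 - x 2 ^ 2)
    have b1 := expNegInvGlue.nonneg (1 - sg x)
    have b2 := expNegInvGlue.nonneg (1 - x 2 ^ 2)
    have c1 := e_le_one (1 - sg x)
    have c2 := e_le_one (1 - x 2 ^ 2)
    have z0 := sq_nonneg (x 2)
    unfold ze
    obtain ⟨a, ha⟩ : ∃ a : ℝ, a = expNegInvGlue (1 - sg x) := ⟨_, rfl⟩
    obtain ⟨b, hb⟩ : ∃ b : ℝ, b = expNegInvGlue (1 - x 2 ^ 2) := ⟨_, rfl⟩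
    obtain ⟨p, hp⟩ : ∃ p : ℝ, p = e1 (1 - sg x) ^ 2 := ⟨_, rfl⟩
    obtain ⟨q, hq⟩ : ∃ q : ℝ, q = e1 (1 - x 2 ^ 2) ^ 2 := ⟨_, rfl⟩
    have hp0 : 0 ≤ p := by rw [hp]; positivity
    have hq0 : 0 ≤ q := by rw [hq]; positivity
    rw [← ha] at a1 b1 c1 ⊢
    rw [← hb] at a2 b2 c2 ⊢
    rw [← hp] at a1 ⊢
    rw [← hq] at a2 ⊢
    have d1 : sg x * p * b ^ 2 ≤ 24 * (a * b) := by
      calc sg x * p * b ^ 2 ≤ 1 * (24 * a) * b := by
            refine mul_le_mul (mul_le_mul hs1 a1 hp0 zero_le_one) ?_ (sq_nonneg _) (by positivity)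
            nlinarith
        _ = _ := by ring
    have d2 : x 2 ^ 2 * a ^ 2 * q ≤ 24 * (a * b) := by
      calc x 2 ^ 2 * a ^ 2 * q ≤ 1 * a * (24 * b) := by
            refine mul_le_mul (mul_le_mul hz1 ?_ (sq_nonneg _) zero_le_one) a2 hq0 (by positivity)
            nlinarith
        _ = _ := by ring
    linarith
  · rw [ze_off hx]
    rcases off_co hx with h | h
    · rw [e1_zero h, expNegInvGlue.zero_of_nonpos h]
      norm_num
    · rw [e1_zero h, expNegInvGlue.zero_of_nonpos h]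
      norm_num

lemma ze_low {x : V} (hx : x ∈ Co 0 (1 / 2) (1 / 2)) : Real.exp (-4) ≤ ze x := by
  obtain ⟨h1, h2⟩ := hx
  rw [sub_zero] at h2
  have h3 : x 2 ^ 2 ≤ (1 / 2) ^ 2 := by
    rw [← sq_abs]
    exact pow_le_pow_left₀ (abs_nonneg _) h2.le 2
  have a1 := e_low (s := 1 - sg x) (by norm_num at h1; linarith)
  have a2 := e_low (s := 1 - x 2 ^ 2) (by norm_num at h3; linarith)
  have h4 : Real.exp (-4) = Real.exp (-2) * Real.exp (-2) := by
    rw [← Real.exp_add]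
    norm_num
  rw [h4]
  exact mul_le_mul a1 a2 (Real.exp_pos _).le (expNegInvGlue.nonneg _)

end Pool.Agent.V8H53.OW.LgP
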