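import Pool.Agent.V8H53.OW.Defs3
import Pool.Agent.V8H53.OW.LgA

/-!
Project OW: the `L¹` estimate of `v_θ / ρ`.
-/

set_option autoImplicit false

open MeasureTheory Set Metric Filter Topology
open scoped ContDiff
open H459R3.NS Pool.Agent.W268.NS Pool.Agent.Q67.VD

namespace Pool.Agent.V8H53.OW

open Pool.Agent.Q85.CC Pool.Agent.Q85.CL Pool.Agent.TH305.AX
open Pool.Agent.Q67.AXI
open Pool.Agent.W583.MD (sm_pd cs_pd pd_mul' Z Z.add Z.sub Z.smul Z.sum int_cs Z_pd)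
open Pool.Agent.TH305.DR (pd_add' pd_sub' pd_neg' pd_cmul pd_const')
open Pool.Agent.V8Lead (p_AAs p_Alg p_AxF p_H0 p_Dt p_Jnt p_EqW)
open Pool.Agent.Q175.AX (Co_open Cy_compact Co_meas Co_fin ind_int ind_val cut_dich const_pd cut_out
  cut_mem Co_sub_Cy LL_mul LL_meas sq_pd RRsg_int RRsg_int' cs_zero lap_sm gr2_sm sg_nn RR_ev
  RR_const lap_ev lap_const pd_ev pd_comp_at gr2_nn)
open Pool.Agent.V8H53.OW.LgP (pd_comp RR_comp lap_comp)

/-- The operators applied to `sq0 l ∘ g`. -/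
lemma ops_sq {l : ℝ} (hl : 0 < l) {g : V → ℝ} (hg : ContDiff ℝ ∞ g) (v : V → V) (x : V) :
    LL (fun y => sq0 l (g y)) x = sq1 l (g x) * LL g x + sq2 l (g x) * gr2 g x ∧
    W221.NS.adv v (fun y => sq0 l (g y)) x = sq1 l (g x) * W221.NS.adv v g x := by
  have hd : deriv (sq0 l) = sq1 l := funext fun w => (sq0_hd hl w).deriv
  have hdd : deriv (sq1 l) = sq2 l := funext fun w => (sq1_hd hl w).deriv
  have h1 := lap_comp (sq0_cd hl) hg x
  have h2 := RR_comp hg (sq0_hd hl (g x))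
  rw [hd, hdd] at h1
  constructor
  · unfold LL
    rw [h1, h2]
    ring
  · unfold W221.NS.adv
    simp only [Fin.sum_univ_three, pd_comp hg (sq0_hd hl (g x))]
    ring

lemma sq2_ct {l : ℝ} (hl : 0 < l) : Continuous (sq2 l) := by
  have h1 : Continuous fun w : ℝ => Real.sqrt (l ^ 2 + w ^ 2) := by fun_prop
  exact continuous_const.div (h1.pow 3) fun w => pow_ne_zero 3 (Real.sqrt_pos.2 (sq_pos hl w)).ne'

theorem p_W1 : StmW1 := by
  intro T E c R H K r h r1 h1 T₁ l u p φ hsol hK hr hrR hhH hT₁ hT₁T hl hφ hb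
  have hsub : Co c r h ⊆ Co c R H := Pool.Agent.Q285.AXI.co_mono hr hrR hhH
  obtain ⟨-, jW, -, -⟩ := p_Jnt T u hsol.smooth_u
  have hI : ∀ t ∈ Ico T₁ T, t ∈ Ioo 0 T := fun t ht => ⟨hT₁.trans_le ht.1, ht.2⟩
  have hφ2c : HasCompactSupport (fun y => φ y ^ 2) := by
    have e : (fun y => φ y ^ 2) = fun y => φ y * φ y := by
      funext y
      ring
    rw [e]
    exact hφ.cs.mul_right
  have hφ2 : Continuous (fun y => φ y ^ 2) := hφ.sm.continuous.pow 2
  have hus : ∀ t ∈ Ioo 0 T, ContDiff ℝ ∞ (u t) := fun t ht =>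
    Pool.Agent.Q285.AXI.slice hsol.smooth_u ht
  have hAs : ∀ t ∈ Ioo 0 T, ContDiff ℝ ∞ (UU (u t)) ∧ ContDiff ℝ ∞ (WW (u t)) ∧
      ContDiff ℝ ∞ (JJ (u t)) ∧ ContDiff ℝ ∞ (OO (u t)) := fun t ht =>
    (p_Alg (u t) (hus t ht) (hsol.axi t ht)).1
  have hout : ∀ x, x ∉ Co c r h → φ x = 0 := fun x hx => by
    by_contra hcon
    exact hx (cut_mem hφ hcon)
  -- the two functions
  obtain ⟨F, hF⟩ : ∃ F : ℝ → V → ℝ, F = fun t x => sq0 l (WW (u t) x) := ⟨_, rfl⟩
  have jF : ContDiffOn ℝ ∞ (fun z : ℝ × V => F z.1 z.2) (Ioo 0 T ×ˢ univ) := by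
    rw [hF]
    exact (sq0_cd hl).comp_contDiffOn jW
  obtain ⟨D, hD⟩ : ∃ D : ℝ → V → ℝ,
      D = fun t x => φ x ^ 2 * (sq2 l (WW (u t) x) * gr2 (WW (u t)) x) := ⟨_, rfl⟩
  have hDc : ContinuousOn (fun z : ℝ × V => D z.1 z.2) (Ioo 0 T ×ˢ univ) := by
    have eφ : ContinuousOn (fun z : ℝ × V => φ z.2 ^ 2) (Ioo 0 T ×ˢ univ) :=
      (hφ2.comp continuous_snd).continuousOn
    have e2 : ContinuousOn (fun z : ℝ × V => sq2 l (WW (u z.1) z.2)) (Ioo 0 T ×ˢ univ) :=
      (sq2_ct hl).comp_continuousOn jW.continuousOn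
    have e3 : ∀ i, ContinuousOn (fun z : ℝ × V => pd i (fun y => WW (u z.1) y) z.2)
        (Ioo 0 T ×ˢ univ) := fun i =>
      (Pool.Agent.Q153.AXI.jpd (f := fun t x => WW (u t) x) jW i).continuousOn
    have e4 : ContinuousOn (fun z : ℝ × V => gr2 (WW (u z.1)) z.2) (Ioo 0 T ×ˢ univ) := by
      unfold gr2
      exact continuousOn_finsetSum _ fun i _ => (e3 i).pow 2
    rw [hD]
    exact eφ.mul (e2.mul e4)
  have hDs : ∀ t x, x ∉ tsupport φ → D t x = 0 := by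
    intro t x hx
    rw [hD]
    beta_reduce
    rw [image_eq_zero_of_notMem_tsupport hx]
    ring
  have hDt : ∀ t ∈ Ioo 0 T, Continuous (D t) := fun t ht =>
    hDc.comp_continuous (f := fun x : V => ((t, x) : ℝ × V)) (by fun_prop)
      fun x => ⟨ht, mem_univ _⟩
  have hDi : ∀ t ∈ Ioo 0 T, Integrable (D t) := fun t ht =>
    int_cs (hDt t ht) (HasCompactSupport.intro hφ.cs fun x hx => hDs t x hx)
  have hD0 : ∀ t x, 0 ≤ D t x := fun t x => by
    rw [hD]
    exact mul_nonneg (sq_nonneg _) (mul_nonneg (sq2_nn l _) (gr2_nn (WW (u t)) x))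
  obtain ⟨Y, hY⟩ : ∃ Y : ℝ → ℝ, Y = fun t => ∫ x, D t x := ⟨_, rfl⟩
  have hYc : ContinuousOn Y (Ioo 0 T) := by
    rw [hY]
    exact continuousOn_integral_of_compact_support (k := tsupport φ) hφ.cs hDc
      fun t x _ hx => hDs t x hx
  have hY0 : ∀ t, 0 ≤ Y t := fun t => by
    rw [hY]
    exact integral_nonneg fun x => hD0 t x
  have hYe : Y = fun t => ∫ x, φ x ^ 2 * (sq2 l (WW (u t) x) * gr2 (WW (u t)) x) := by
    rw [hY, hD]
  rw [← hYe]
  refine ⟨hYc, ?_⟩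
  -- the dissipation
  obtain ⟨G, hG⟩ : ∃ G : ℝ → ℝ, G = fun t => ∫ x in Co c r h, W221.NS.gsq (u t) x := ⟨_, rfl⟩
  have hGint : IntegrableOn G (Ioo 0 T) := by
    rw [hG]; exact Pool.Agent.Q285.AXI.dis_int hsub hsol.dis
  have hGnn : ∀ t, 0 ≤ G t := by
    intro t
    rw [hG]
    exact integral_nonneg fun x => Pool.Agent.Q285.AXI.gsq_nn _ x
  have hUG : ∀ t ∈ Ioo 0 T,
      Integrable (fun x => φ x ^ 2 * -(2 * UU (u t) x * WW (u t) x * sq1 l (WW (u t) x))) ∧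
      ∫ x, φ x ^ 2 * -(2 * UU (u t) x * WW (u t) x * sq1 l (WW (u t) x)) ≤ G t := by
    intro t ht
    obtain ⟨sU, sW, -, -⟩ := hAs t ht
    have i1 : Integrable
        (fun x => φ x ^ 2 * -(2 * UU (u t) x * WW (u t) x * sq1 l (WW (u t) x))) := by
      refine int_cs (hφ2.mul ?_) hφ2c.mul_right
      exact (((continuous_const.mul sU.continuous).mul sW.continuous).mul
        ((sq1_cd hl).continuous.comp sW.continuous)).neg
    have hgc : Continuous (W221.NS.gsq (u t)) := Pool.Agent.Q153.AXI.gsqCont (hus t ht)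
    have i2 : IntegrableOn (W221.NS.gsq (u t)) (Co c r h) :=
      (hgc.continuousOn.integrableOn_compact (Cy_compact hr.le)).mono_set (Co_sub_Cy c r h)
    refine ⟨i1, ?_⟩
    rw [hG]
    beta_reduce
    rw [← integral_indicator (Co_meas c r h)]
    refine integral_mono_ae i1 ((integrable_indicator_iff (Co_meas c r h)).2 i2) ?_
    filter_upwards [Pool.Agent.Q175.AX.axis_ae] with x hx
    by_cases hxC : x ∈ Co c r h
    · rw [indicator_of_mem hxC]
      have g1 := Pool.Agent.V8H53.AX.UW_gsq p_Alg (hus t ht) (hsol.axi t ht) hx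
      have g2 : φ x ^ 2 ≤ 1 := pow_le_one₀ (hφ.nn x) (hφ.le x)
      have g3 : sq1 l (WW (u t) x) ^ 2 ≤ 1 := by
        have := sq1_le hl (WW (u t) x)
        rw [← sq_abs]
        exact pow_le_one₀ (abs_nonneg _) this
      have g4 : -(2 * UU (u t) x * WW (u t) x * sq1 l (WW (u t) x))
          ≤ UU (u t) x ^ 2 + WW (u t) x ^ 2 := by
        nlinarith [sq_nonneg (UU (u t) x + sq1 l (WW (u t) x) * WW (u t) x),
          mul_nonneg (sq_nonneg (WW (u t) x)) (sub_nonneg.2 g3)]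
      have g5 : 0 ≤ UU (u t) x ^ 2 + WW (u t) x ^ 2 := by positivity
      calc φ x ^ 2 * -(2 * UU (u t) x * WW (u t) x * sq1 l (WW (u t) x))
          ≤ φ x ^ 2 * (UU (u t) x ^ 2 + WW (u t) x ^ 2) :=
            mul_le_mul_of_nonneg_left g4 (sq_nonneg _)
        _ ≤ 1 * (UU (u t) x ^ 2 + WW (u t) x ^ 2) := mul_le_mul_of_nonneg_right g2 g5
        _ ≤ _ := by linarith
    · rw [indicator_of_notMem hxC, hout x hxC]
      simp
  -- the derivative
  obtain ⟨K₅, hK₅⟩ : ∃ K₅ : ℝ, K₅ = (volume (Co c r h)).toReal * ((l + K) * (6 * K + 12 * K ^ 2)) :=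
    ⟨_, rfl⟩
  have hK₅0 : 0 ≤ K₅ := by
    rw [hK₅]
    have : 0 ≤ (volume (Co c r h)).toReal := ENNReal.toReal_nonneg
    positivity
  have hder : ∀ t ∈ Ico T₁ T, ∫ x, φ x ^ 2 * deriv (fun s => F s x) t ≤ K₅ + G t - Y t := by
    intro t ht
    have htI := hI t ht
    obtain ⟨sU, sW, -, -⟩ := hAs t htI
    have hFt : F t = fun y => sq0 l (WW (u t) y) := by rw [hF]
    have sF : ContDiff ℝ ∞ (F t) := by rw [hFt]; exact (sq0_cd hl).comp sW
    have hdf : DFO (Co c r h) (u t) := fun x hx => hsol.divfree t htI x (hsub hx)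
    have hFb : ∀ x ∈ Out c r h r1 h1, F t x ≤ l + K := fun x hx => by
      rw [hFt]
      have g1 := sq0_le hl (WW (u t) x)
      have g2 := (hb t ht x hx).2.2.1
      linarith
    obtain ⟨iF, bF⟩ := sub_en (hus t htI) hdf hK (show 0 ≤ l + K by positivity) hr.le hφ (hb t ht)
      sF (fun x => by rw [hFt]; exact sq0_nn _ _) hFb
    rw [← hK₅] at bF
    obtain ⟨iS, bS⟩ := hUG t htI
    have h2 : ∫ x, φ x ^ 2 * deriv (fun s => F s x) t =
        ∫ x, ((φ x ^ 2 * (LL (F t) x - W221.NS.adv (u t) (F t) x) - D t x)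
          + φ x ^ 2 * -(2 * UU (u t) x * WW (u t) x * sq1 l (WW (u t) x))) := by
      refine integral_congr_ae ?_
      filter_upwards [Pool.Agent.Q175.AX.axis_ae] with x hx
      by_cases hxC : x ∈ Co c r h
      · have g1 := p_EqW T E c R H u p hsol t htI x (hsub hxC) hx
        have g2 : HasDerivAt (fun s => F s x) (sq1 l (WW (u t) x) * (LL (WW (u t)) x
            - W221.NS.adv (u t) (WW (u t)) x - 2 * UU (u t) x * WW (u t) x)) t := by
          rw [hF]
          exact HasDerivAt.comp t (h₂ := sq0 l) (sq0_hd hl (WW (u t) x)) g1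
        obtain ⟨o1, o2⟩ := ops_sq hl sW (u t) x
        rw [g2.deriv, hFt, o1, o2, hD]
        ring
      · rw [hD]
        beta_reduce
        rw [hout x hxC]
        simp
    have e1 := integral_add (iF.sub (hDi t htI)) iS
    have e2 := integral_sub iF (hDi t htI)
    simp only [Pi.sub_apply] at e1 e2
    have e3 : Y t = ∫ x, D t x := by rw [hY]
    rw [h2, e1, e2, ← e3]
    linarith
  -- integration in time
  obtain ⟨N₁, hN₁⟩ : ∃ N₁ : ℝ, N₁ = ∫ t in Ioo 0 T, G t := ⟨_, rfl⟩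
  have hGI : ∀ t ∈ Ico T₁ T, ∫ s in T₁..t, G s ≤ N₁ := by
    intro t ht
    rw [intervalIntegral.integral_of_le ht.1, hN₁]
    exact setIntegral_mono_set hGint (Eventually.of_forall fun s => hGnn s)
      (HasSubset.Subset.eventuallyLE fun s hs => ⟨hT₁.trans hs.1, hs.2.trans_lt ht.2⟩)
  have hFe : ∀ t, ∫ x, φ x ^ 2 * sq0 l (WW (u t) x) = ∫ x, φ x ^ 2 * F t x := fun t => by rw [hF]
  simp only [hFe]
  have hF0 : ∀ t, 0 ≤ ∫ x, φ x ^ 2 * F t x := fun t =>
    integral_nonneg fun x => mul_nonneg (sq_nonneg _) (by rw [hF]; exact sq0_nn _ _)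
  refine ⟨(∫ x, φ x ^ 2 * F T₁ x) + K₅ * (T - T₁) + N₁, fun t ht => ?_⟩
  have hd := dtLin jF hφ.sm hφ.cs
  have hIs : ∀ s ∈ Icc T₁ t, s ∈ Ioo 0 T := fun s hs =>
    ⟨hT₁.trans_le hs.1, hs.2.trans_lt ht.2⟩
  have hYI : ContinuousOn Y (Icc T₁ t) := hYc.mono hIs
  have hGi : IntegrableOn G (Icc T₁ t) := hGint.mono_set hIs
  have hGi' : IntervalIntegrable G volume T₁ t :=
    (intervalIntegrable_iff_integrableOn_Ioc_of_le ht.1).2 (hGi.mono_set Ioc_subset_Icc_self)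
  have hYi' : IntervalIntegrable Y volume T₁ t := hYI.intervalIntegrable_of_Icc ht.1
  have q1 := intervalIntegral.sub_le_integral_of_hasDeriv_right_of_le (a := T₁) (b := t)
    (g := fun t => ∫ x, φ x ^ 2 * F t x)
    (g' := fun t => ∫ x, φ x ^ 2 * deriv (fun s => F s x) t)
    (φ := fun s => (K₅ + G s) - Y s) ht.1
    (fun s hs => (hd s (hIs s hs)).1.continuousAt.continuousWithinAt)
    (fun s hs => (hd s (hIs s (Ioo_subset_Icc_self hs))).1.hasDerivWithinAt)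
    (((integrableOn_const (by simp)).add hGi).sub hYI.integrableOn_Icc)
    (fun s hs => hder s ⟨hs.1.le, hs.2.trans ht.2⟩)
  rw [intervalIntegral.integral_sub ((by simp : IntervalIntegrable (fun _ => K₅) volume T₁ t).add
    hGi') hYi', intervalIntegral.integral_add (by simp) hGi', intervalIntegral.integral_const,
    smul_eq_mul] at q1
  have q2 : 0 ≤ ∫ s in T₁..t, Y s := intervalIntegral.integral_nonneg ht.1 fun s _ => hY0 s
  have q3 := hGI t ht
  have q4 := hF0 t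
  have q5 : (t - T₁) * K₅ ≤ K₅ * (T - T₁) := by
    rw [mul_comm]
    exact mul_le_mul_of_nonneg_left (by linarith [ht.2]) hK₅0
  constructor <;> linarith

end Pool.Agent.V8H53.OW
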