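import Pool.Agent.V8H53.OW.Defs2
import Pool.Agent.V8Lead.Axi
import Pool.Agent.Q149.AXI.YdW

/-!
Project OW, AXIS (helper40): the singular term of the equation as an integral over the axis.
-/

set_option autoImplicit false

open MeasureTheory Set Metric Filter Topology
open scoped ContDiff
open H459R3.NS Pool.Agent.W268.NS Pool.Agent.Q67.VD

namespace Pool.Agent.V8H53.OW

open Pool.Agent.Q85.CC Pool.Agent.Q85.CL Pool.Agent.TH305.AX Pool.Agent.Q67.AXI
open Pool.Agent.V8Lead (p_AxF)
open Pool.Agent.Q149.AXI (ae_sg pd_off)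

namespace AxisP

lemma q_off {F q : V → ℝ} (hq : Continuous q) (h : ∀ x, RR F x = sg x * q x) {x : V}
    (hx : x ∉ tsupport F) : q x = 0 := by
  by_contra hne
  have ho : IsOpen ({y | q y ≠ 0} ∩ (tsupport F)ᶜ) :=
    (isOpen_ne_fun hq continuous_const).inter (isClosed_tsupport F).isOpen_compl
  have hp : 0 < volume ({y | q y ≠ 0} ∩ (tsupport F)ᶜ) := ho.measure_pos volume ⟨x, hne, hx⟩
  have h0 : volume ({y | q y ≠ 0} ∩ (tsupport F)ᶜ) = 0 := by
    refine measure_mono_null (fun y hy => ?_) (ae_iff.1 ae_sg)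
    simp only [mem_ofPred_eq, not_not]
    by_contra hs
    have h1 := h y
    have h2 : RR F y = 0 := by
      unfold RR
      rw [pd_off hy.2, pd_off hy.2]
      ring
    rw [h2] at h1
    rcases mul_eq_zero.1 h1.symm with h3 | h3
    · exact hs h3
    · exact hy.1 h3
  exact hp.ne' h0

/-- integration over slices -/
lemma slices {q : V → ℝ} (hq : Continuous q) (hc : HasCompactSupport q) :
    ∫ x, q x = ∫ z : ℝ, ∫ p : ℝ × ℝ, q ![p.1, p.2, z] := by
  have e := volume_preserving_piFinSuccAbove (fun _ : Fin 3 => ℝ) 2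
  have hi : Integrable q := hq.integrable_of_hasCompactSupport hc
  have h1 := e.symm.integral_comp' (g := q)
  rw [← h1]
  have h2 : Integrable (fun w : ℝ × (Fin 2 → ℝ) =>
      q ((MeasurableEquiv.piFinSuccAbove (fun _ : Fin 3 => ℝ) 2).symm w)) :=
    (e.symm.integrable_comp_emb (MeasurableEquiv.measurableEmbedding _)).2 hi
  rw [Measure.volume_eq_prod ℝ (Fin 2 → ℝ)] at h2 ⊢
  rw [integral_prod _ h2]
  refine integral_congr_ae (Eventually.of_forall fun z => ?_)
  simp only
  rw [← ((volume_preserving_finTwoArrow ℝ).symm).integral_comp']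
  refine integral_congr_ae (Eventually.of_forall fun p => ?_)
  simp only
  congr 1
  funext i
  fin_cases i <;> rfl

/-- the plane -/
lemma plane {F q : V → ℝ} (sF : ContDiff ℝ ∞ F) (cF : HasCompactSupport F) (hq : Continuous q)
    (aq : AxF q) (h0 : ∀ x, pd 0 F x = x 0 * q x) (hoff : ∀ x, x ∉ tsupport F → q x = 0) (z : ℝ) :
    ∫ p : ℝ × ℝ, q ![p.1, p.2, z] = -(2 * Real.pi * F ![0, 0, z]) := by
  obtain ⟨R, hR0, hR⟩ : ∃ R : ℝ, 0 < R ∧ ∀ x : V, R < ‖x‖ → x ∉ tsupport F := by
    obtain ⟨R, hR⟩ := cF.isCompact.isBounded.subset_closedBall (0 : V)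
    refine ⟨max R 1, by positivity, fun x hx hmem => ?_⟩
    have := hR hmem
    rw [mem_closedBall, dist_zero_right] at this
    exact absurd hx (not_lt.2 (this.trans (le_max_left _ _)))
  have hn : ∀ r : ℝ, R < r → (![r, 0, z] : V) ∉ tsupport F := fun r hr => by
    refine hR _ (hr.trans_le ?_)
    have h1 := norm_le_pi_norm (![r, 0, z] : V) 0
    simp only [Matrix.cons_val_zero, Real.norm_eq_abs] at h1
    exact (le_abs_self r).trans h1
  rw [← integral_comp_polarCoord_symm]
  have e1 : ∀ p : ℝ × ℝ, p.1 • q ![(polarCoord.symm p).1, (polarCoord.symm p).2, z] =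
      (p.1 * q ![p.1, 0, z]) * 1 := by
    intro p
    have h1 := aq p.2 ![p.1, 0, z]
    have h2 : rot p.2 ![p.1, 0, z] = ![(polarCoord.symm p).1, (polarCoord.symm p).2, z] := by
      rw [polarCoord_symm_apply]
      funext i
      fin_cases i <;> simp [rot] <;> ring
    rw [h2] at h1
    rw [h1, smul_eq_mul, mul_one]
  simp only [e1]
  rw [polarCoord_target, Measure.volume_eq_prod, setIntegral_prod_mul (fun r => r * q ![r, 0, z])
    (fun _ : ℝ => (1 : ℝ))]
  have e2 : ∫ _ in Ioo (-Real.pi) Real.pi, (1 : ℝ) = 2 * Real.pi := by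
    rw [setIntegral_const, smul_eq_mul, mul_one, Measure.real, Real.volume_Ioo,
      ENNReal.toReal_ofReal (by linarith [Real.pi_pos])]
    ring
  have cl : Continuous fun r : ℝ => (![r, 0, z] : V) := by
    refine continuous_pi fun i => ?_
    fin_cases i
    · exact continuous_id
    · exact continuous_const
    · exact continuous_const
  have e3 : ∫ r in Ioi (0 : ℝ), r * q ![r, 0, z] = 0 - F ![0, 0, z] := by
    refine integral_Ioi_of_hasDerivAt_of_tendsto' (f := fun r => F ![r, 0, z]) (fun r _ => ?_)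
      ?_ ?_
    · have hF : HasFDerivAt F (fderiv ℝ F ![r, 0, z]) ![r, 0, z] :=
        (sF.differentiable (by simp) _).hasFDerivAt
      have hl : HasDerivAt (fun r : ℝ => (![r, 0, z] : V)) (Pi.single 0 1) r := by
        rw [hasDerivAt_pi]
        intro i
        fin_cases i
        · simpa using hasDerivAt_id' r
        · simpa using hasDerivAt_const r (0 : ℝ)
        · simpa using hasDerivAt_const r z
      have h1 := hF.comp_hasDerivAt r hl
      have h2 : fderiv ℝ F ![r, 0, z] (Pi.single 0 1) = r * q ![r, 0, z] := h0 ![r, 0, z]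
      rw [h2] at h1
      exact h1
    · have hc : Continuous fun r : ℝ => r * q ![r, 0, z] := continuous_id.mul (hq.comp cl)
      have hz : ∀ r ∈ Ioi (0 : ℝ) \ Icc 0 R, r * q ![r, 0, z] = 0 := fun r hr => by
        have : R < r := by
          by_contra hcon
          exact hr.2 ⟨hr.1.le, not_lt.1 hcon⟩
        rw [hoff _ (hn r this), mul_zero]
      exact (hc.continuousOn.integrableOn_Icc (a := 0) (b := R)).of_forall_sdiff_eq_zero
        measurableSet_Ioi hz
    · refine tendsto_const_nhds.congr' ?_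
      filter_upwards [eventually_gt_atTop R] with r hr
      exact (image_eq_zero_of_notMem_tsupport (hn r hr)).symm
  rw [e2, e3]
  ring

end AxisP

open AxisP in
theorem p_Axis : StmAxis := by
  intro F sF cF aF
  obtain ⟨-, -, -, q, sq, aq, hq⟩ := p_AxF F sF aF
  have hoff : ∀ x, x ∉ tsupport F → q x = 0 := fun x hx =>
    q_off sq.continuous (fun x => (hq x).2.2) hx
  have cq : HasCompactSupport q := HasCompactSupport.intro cF.isCompact hoff
  have h1 : ∫ x, RR F x / sg x = ∫ x, q x := by
    refine integral_congr_ae ?_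
    filter_upwards [ae_sg] with x hx
    rw [(hq x).2.2]
    field_simp
  rw [h1, slices sq.continuous cq]
  have h2 : ∀ z : ℝ, ∫ p : ℝ × ℝ, q ![p.1, p.2, z] = -(2 * Real.pi * F ![0, 0, z]) := fun z =>
    plane sF cF sq.continuous aq (fun x => (hq x).1) hoff z
  simp only [h2]
  rw [integral_neg, integral_const_mul]

end Pool.Agent.V8H53.OW
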