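import Pool.Agent.V8H53.OW.Osc

/-!
Project OW: the decay of the circulation at the axis.
-/

set_option autoImplicit false

open MeasureTheory Set Metric Filter Topology
open scoped ContDiff
open H459R3.NS Pool.Agent.W268.NS Pool.Agent.Q67.VD

namespace Pool.Agent.V8H53.OW

open Pool.Agent.Q85.CC Pool.Agent.Q85.CL Pool.Agent.TH305.AX
open Pool.Agent.Q67.AXI
open Pool.Agent.W583.MD (sm_pd)
open Pool.Agent.TH305.DR (pd_add' pd_sub' pd_neg' pd_cmul pd_const')
open Pool.Agent.V8Lead (p_AAs p_Alg p_AxF p_Jnt p_EqC)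
open Pool.Agent.Q175.AX (Co_open Cy_compact Co_meas Co_fin Co_sub_Cy sg_cd sg_nn)

/-- the affine map -/
noncomputable def af (s z : ℝ) (y : V) : V := s • y + ![0, 0, z]

lemma af_cd (s z : ℝ) : ContDiff ℝ ∞ (af s z) := by
  unfold af
  fun_prop

lemma af_0 (s z : ℝ) (y : V) : af s z y 0 = s * y 0 := by simp [af]

lemma af_1 (s z : ℝ) (y : V) : af s z y 1 = s * y 1 := by simp [af]

lemma af_2 (s z : ℝ) (y : V) : af s z y 2 = s * y 2 + z := by
  show s * y 2 + (![0, 0, z] : V) 2 = _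
  rfl

lemma sg_af (s z : ℝ) (y : V) : sg (af s z y) = s ^ 2 * sg y := by
  unfold sg
  rw [af_0, af_1]
  ring

lemma pd_af {f : V → ℝ} (hf : ContDiff ℝ ∞ f) (s z : ℝ) (j : Fin 3) :
    pd j (fun y => f (af s z y)) = fun y => s * pd j f (af s z y) := by
  funext y
  have h1 : HasFDerivAt (af s z) (s • (ContinuousLinearMap.id ℝ V)) y := by
    unfold af
    exact ((hasFDerivAt_id y).const_smul s).add_const _
  have h2 := ((hf.differentiable (by simp)) (af s z y)).hasFDerivAt.comp y h1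
  unfold pd
  have e : (fun y => f (af s z y)) = f ∘ af s z := rfl
  rw [e, h2.fderiv]
  simp

lemma af_mem {s z : ℝ} (hs : 0 < s) {y : V} (hy : y ∈ Co 0 1 1) : af s z y ∈ Co z s s := by
  refine ⟨?_, ?_⟩
  · rw [sg_af]
    have := hy.1
    nlinarith [pow_pos hs 2]
  · rw [af_2]
    have h1 := hy.2
    rw [sub_zero] at h1
    have : s * y 2 + z - z = s * y 2 := by ring
    rw [this, abs_mul, abs_of_pos hs]
    nlinarith

/-- the scaled equation -/
lemma Lin_scale {T E c R H : ℝ} {u : ℝ → V → V} {p : ℝ → V → ℝ} (hsol : AxL T E c R H u p)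
    {s z t₀ S N T' : ℝ} (hs : 0 < s) (hT' : 0 ≤ T') (hN : T' ≤ t₀ - N * s ^ 2) (ht₀ : t₀ ≤ T)
    (hsub : Co z s s ⊆ Co c R H) :
    Lin (-N) 0 (Co 0 1 1)
      (fun τ y => sg y * (s ^ 2 * WW (u (t₀ + s ^ 2 * τ)) (af s z y) / S))
      (fun τ y => s * PS (u (t₀ + s ^ 2 * τ)) (af s z y)) ∧
    ContDiffOn ℝ ∞ (fun q : ℝ × V => s ^ 2 * WW (u (t₀ + s ^ 2 * q.1)) (af s z q.2) / S)
      (Ioo (-N) 0 ×ˢ univ) := by
  have hs2 : 0 < s ^ 2 := by positivity
  have hI : ∀ τ ∈ Ioo (-N) 0, t₀ + s ^ 2 * τ ∈ Ioo 0 T := by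
    intro τ hτ
    constructor
    · nlinarith [hτ.1]
    · nlinarith [hτ.2]
  obtain ⟨-, jW, -, -⟩ := p_Jnt T u hsol.smooth_u
  have hmap : ContDiff ℝ ∞ (fun q : ℝ × V => ((t₀ + s ^ 2 * q.1, af s z q.2) : ℝ × V)) := by
    unfold af
    fun_prop
  have hWc : ContDiffOn ℝ ∞ (fun q : ℝ × V => WW (u (t₀ + s ^ 2 * q.1)) (af s z q.2))
      (Ioo (-N) 0 ×ˢ univ) :=
    jW.comp (f := fun q : ℝ × V => ((t₀ + s ^ 2 * q.1, af s z q.2) : ℝ × V)) hmap.contDiffOn
      fun q hq => ⟨hI q.1 hq.1, mem_univ _⟩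
  have hWS : ContDiffOn ℝ ∞ (fun q : ℝ × V => s ^ 2 * WW (u (t₀ + s ^ 2 * q.1)) (af s z q.2) / S)
      (Ioo (-N) 0 ×ˢ univ) := (contDiffOn_const.mul hWc).div_const S
  refine ⟨⟨?_, ?_, ?_⟩, hWS⟩
  · have h1 : ContDiffOn ℝ ∞ (fun q : ℝ × V => sg q.2) (Ioo (-N) 0 ×ˢ univ) :=
      (sg_cd.comp contDiff_snd).contDiffOn
    exact h1.mul hWS
  · intro τ hτ
    have hu := Pool.Agent.Q285.AXI.slice hsol.smooth_u (hI τ hτ)
    exact contDiff_const.mul ((PS_sm hu).comp (af_cd s z))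
  · intro τ hτ y hy hsy
    have ht := hI τ hτ
    obtain ⟨t, htd⟩ : ∃ t : ℝ, t = t₀ + s ^ 2 * τ := ⟨_, rfl⟩
    have hu := Pool.Agent.Q285.AXI.slice hsol.smooth_u ht
    have ha := hsol.axi _ ht
    have hx := hsub (af_mem hs hy)
    obtain ⟨x, hxd⟩ : ∃ x : V, x = af s z y := ⟨_, rfl⟩
    have hsx : sg x = s ^ 2 * sg y := by rw [hxd, sg_af]
    have hsx0 : sg x ≠ 0 := by rw [hsx]; positivity
    rw [← hxd] at hx
    rw [← htd] at ht hu ha
    have hcirc : ∀ t' ∈ Ioo 0 T, ∀ y', circ (u t') (af s z y')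
        = s ^ 2 * sg y' * WW (u t') (af s z y') := by
      intro t' ht' y'
      rw [((p_Alg (u t') (Pool.Agent.Q285.AXI.slice hsol.smooth_u ht') (hsol.axi t' ht')).2.2.2
        (af s z y')).2.2.2.2.2.2.2.2.1, sg_af]
    have hf : ContDiff ℝ ∞ (circ (u t)) := by
      unfold circ
      exact ((sm_crd 0).mul (sm_cmp hu 1)).sub ((sm_crd 1).mul (sm_cmp hu 0))
    have hfa : AxF (circ (u t)) := fun θ x => circ_rot ha θ x
    have hwf : (fun y => sg y * (s ^ 2 * WW (u (t₀ + s ^ 2 * τ)) (af s z y) / S))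
        = fun y => S⁻¹ * circ (u t) (af s z y) := by
      funext y'
      rw [hcirc t ht y', ← htd]
      ring
    have hfc : ContDiff ℝ ∞ (fun y => circ (u t) (af s z y)) := hf.comp (af_cd s z)
    have hp : ∀ j, pd j (fun y => S⁻¹ * circ (u t) (af s z y))
        = fun y => S⁻¹ * s * pd j (circ (u t)) (af s z y) := by
      intro j
      funext y'
      rw [pd_mulf contDiff_const hfc, pd_const', pd_af hf]
      ring
    have hpp : ∀ j, pd j (fun y => S⁻¹ * s * pd j (circ (u t)) (af s z y)) y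
        = S⁻¹ * s ^ 2 * pd j (pd j (circ (u t))) x := by
      intro j
      have hfj : ContDiff ℝ ∞ (fun y => pd j (circ (u t)) (af s z y)) :=
        (sm_pd hf j).comp (af_cd s z)
      rw [pd_mulf contDiff_const hfj, pd_const', pd_af (sm_pd hf j)]
      beta_reduce
      rw [← hxd]
      ring
    have hPs := PS_sm hu
    have hψ : ∀ j, pd j (fun y => s * PS (u (t₀ + s ^ 2 * τ)) (af s z y)) y
        = s ^ 2 * pd j (PS (u t)) x := by
      intro j
      have hfj : ContDiff ℝ ∞ (fun y => PS (u t) (af s z y)) := hPs.comp (af_cd s z)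
      rw [← htd, pd_mulf contDiff_const hfj, pd_const', pd_af hPs]
      beta_reduce
      rw [← hxd]
      ring
    have e0 := p_EqC T E c R H u p hsol t ht x hx hsx0
    have hg : HasDerivAt (fun σ : ℝ => t₀ + s ^ 2 * σ) (s ^ 2) τ := by
      simpa using ((hasDerivAt_id τ).const_mul (s ^ 2)).const_add t₀
    rw [htd] at e0
    have e1 := (e0.comp τ hg).const_mul S⁻¹
    rw [← htd] at e1
    have hev : (fun σ => sg y * (s ^ 2 * WW (u (t₀ + s ^ 2 * σ)) (af s z y) / S)) =ᶠ[𝓝 τ]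
        fun σ => S⁻¹ * circ (u (t₀ + s ^ 2 * σ)) x := by
      filter_upwards [isOpen_Ioo.mem_nhds hτ] with σ hσ
      rw [hxd, hcirc _ (hI σ hσ) y]
      ring
    refine (e1.congr_of_eventuallyEq hev).congr_deriv ?_
    have hadv := adv_PS hu ha (c := c) (R := R) (H := H) (fun x hx => hsol.divfree t ht x hx)
      hf hfa hx
    rw [hadv, hwf]
    have hx0 : x 0 = s * y 0 := by rw [hxd, af_0]
    have hx1 : x 1 = s * y 1 := by rw [hxd, af_1]
    have hRR : RR (fun y => S⁻¹ * circ (u t) (af s z y)) y = S⁻¹ * RR (circ (u t)) x := by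
      unfold RR
      rw [hp, hp, hx0, hx1]
      beta_reduce
      rw [← hxd]
      ring
    have hRψ : RR (fun y => s * PS (u (t₀ + s ^ 2 * τ)) (af s z y)) y = s * RR (PS (u t)) x := by
      unfold RR
      rw [hψ, hψ, hx0, hx1]
      ring
    have hlap : lap (fun y => S⁻¹ * circ (u t) (af s z y)) y
        = S⁻¹ * s ^ 2 * lap (circ (u t)) x := by
      unfold lap
      rw [Fin.sum_univ_three, Fin.sum_univ_three, hp, hp, hp, hpp, hpp, hpp]
      ring
    have h2s : 2 / sg y = s ^ 2 * (2 / sg x) := by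
      rw [hsx]
      field_simp
    rw [hRR, hRψ, hlap, hψ 2, hp 2, h2s]
    beta_reduce
    rw [← hxd, ← htd]
    ring

end Pool.Agent.V8H53.OW
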