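import Pool.Agent.V8H53.OW.Dec

/-!
Project OW: the decay of the circulation at the axis, iteration.
-/

set_option autoImplicit false

open MeasureTheory Set Metric Filter Topology
open scoped ContDiff
open H459R3.NS Pool.Agent.W268.NS Pool.Agent.Q67.VD

namespace Pool.Agent.V8H53.OW

open Pool.Agent.Q85.CC Pool.Agent.Q85.CL Pool.Agent.TH305.AX
open Pool.Agent.Q67.AXI
open Pool.Agent.W583.MD (sm_pd)
open Pool.Agent.V8Lead (p_AAs p_Alg p_AxF p_Jnt p_EqC)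
open Pool.Agent.Q175.AX (Co_open Cy_compact Co_meas Co_fin Co_sub_Cy sg_cd sg_nn)

lemma af_mem_iff {s z : ℝ} (hs : 0 < s) {y : V} : af s z y ∈ Co z s s ↔ y ∈ Co 0 1 1 := by
  refine ⟨fun h => ⟨?_, ?_⟩, af_mem hs⟩
  · have h1 := h.1
    rw [sg_af] at h1
    have h2 : 0 < s ^ 2 := by positivity
    by_contra hcon
    push Not at hcon
    nlinarith
  · have h1 := h.2
    rw [af_2] at h1
    have e : s * y 2 + z - z = s * y 2 := by ring
    rw [e, abs_mul, abs_of_pos hs] at h1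
    rw [sub_zero]
    by_contra hcon
    push Not at hcon
    nlinarith

lemma int_af {s z : ℝ} (hs : 0 < s) (G : V → ℝ) :
    ∫ y in Co 0 1 1, G (af s z y) = (s ^ 3)⁻¹ * ∫ x in Co z s s, G x := by
  rw [← integral_indicator (Co_meas 0 1 1), ← integral_indicator (Co_meas z s s)]
  have e : (fun y => (Co 0 1 1).indicator (fun y => G (af s z y)) y)
      = fun y => (fun x => (Co z s s).indicator G (x + ![0, 0, z])) (s • y) := by
    funext y
    show _ = (Co z s s).indicator G (af s z y)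
    by_cases hy : y ∈ Co 0 1 1
    · rw [indicator_of_mem hy, indicator_of_mem (af_mem hs hy)]
    · rw [indicator_of_notMem hy, indicator_of_notMem fun h => hy ((af_mem_iff hs).1 h)]
  rw [e, Measure.integral_comp_smul volume (fun x => (Co z s s).indicator G (x + ![0, 0, z])) s,
    integral_add_right_eq_self]
  simp only [Module.finrank_fintype_fun_eq_card, Fintype.card_fin, smul_eq_mul]
  rw [abs_of_pos (by positivity)]

/-- One step. -/
lemma step {Λ N δ : ℝ} (hN : 1 ≤ N)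
    (hosc : ∀ W ψ : ℝ → V → ℝ, Lin (-N) 0 (Co 0 1 1) (fun t x => sg x * W t x) ψ →
      ContDiffOn ℝ ∞ (fun z : ℝ × V => W z.1 z.2) (Ioo (-N) 0 ×ˢ univ) →
      (∀ t ∈ Ioo (-N) 0, ∀ x ∈ Co 0 1 1, |sg x * W t x| ≤ 1) →
      (∀ t ∈ Ioo (-N) 0, ∫ x in Co 0 1 1, sg x ^ 2 * ψ t x ^ 4 ≤ Λ) →
      ∀ t ∈ Ioo (-(1 / 4) : ℝ) 0, ∀ x ∈ Co 0 (1 / 4) (1 / 4), |sg x * W t x| ≤ 1 - δ)
    {T E c R H : ℝ} {u : ℝ → V → V} {p : ℝ → V → ℝ} (hsol : AxL T E c R H u p) {s s' h h' S T' T'' : ℝ}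
    (hs : 0 < s) (hs' : s' ≤ s / 4) (hs'0 : 0 < s') (hhh : h' + s ≤ h)
    (hsub : Co c s h ⊆ Co c R H) (hT' : 0 ≤ T') (hTT : T' + N * s ^ 2 ≤ T'') (hS : 0 < S)
    (hcirc : ∀ t ∈ Ico T' T, ∀ x ∈ Co c s h, |circ (u t) x| ≤ S)
    (hL4 : ∀ t ∈ Ico T' T, ∀ z, Co z s s ⊆ Co c s h →
      ∫ x in Co z s s, sg x ^ 2 * PS (u t) x ^ 4 ≤ Λ * s ^ 3) :
    ∀ t ∈ Ico T'' T, ∀ x ∈ Co c s' h', |circ (u t) x| ≤ (1 - δ) * S := by
  intro t ht x hx
  have hs2 : 0 < s ^ 2 := by positivity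
  obtain ⟨ε, hε⟩ : ∃ ε : ℝ, ε = min ((T - t) / 2) (s ^ 2 / 8) := ⟨_, rfl⟩
  have hε0 : 0 < ε := by
    rw [hε]
    exact lt_min (by linarith [ht.2]) (by positivity)
  have hε1 : ε ≤ (T - t) / 2 := by rw [hε]; exact min_le_left _ _
  have hε2 : ε ≤ s ^ 2 / 8 := by rw [hε]; exact min_le_right _ _
  obtain ⟨z, hz⟩ : ∃ z : ℝ, z = x 2 := ⟨_, rfl⟩
  have hzc : |z - c| < h' := by rw [hz]; exact hx.2
  have hsubz : Co z s s ⊆ Co c s h := by
    intro y hy
    refine ⟨hy.1, ?_⟩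
    calc |y 2 - c| = |(y 2 - z) + (z - c)| := by ring_nf
      _ ≤ |y 2 - z| + |z - c| := abs_add_le _ _
      _ < s + h' := add_lt_add hy.2 hzc
      _ ≤ h := by linarith
  obtain ⟨t₀, ht₀⟩ : ∃ t₀ : ℝ, t₀ = t + ε := ⟨_, rfl⟩
  have hI : ∀ τ ∈ Ioo (-N) 0, t₀ + s ^ 2 * τ ∈ Ico T' T := by
    intro τ hτ
    constructor
    · nlinarith [hτ.1, ht.1]
    · nlinarith [hτ.2, ht.2]
  have hI0 : ∀ τ ∈ Ioo (-N) 0, t₀ + s ^ 2 * τ ∈ Ioo 0 T := by
    intro τ hτ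
    constructor
    · nlinarith [hτ.1, ht.1]
    · nlinarith [hτ.2, ht.2]
  obtain ⟨hLin, hWs⟩ := Lin_scale (S := S) (N := N) (t₀ := t₀) (T' := T') hsol hs hT'
    (by rw [ht₀]; linarith [ht.1]) (by rw [ht₀]; linarith [ht.2]) (hsubz.trans hsub)
  have hcw : ∀ t' ∈ Ioo 0 T, ∀ y', sg y' * (s ^ 2 * WW (u t') (af s z y') / S)
      = circ (u t') (af s z y') / S := by
    intro t' ht' y'
    rw [((p_Alg (u t') (Pool.Agent.Q285.AXI.slice hsol.smooth_u ht') (hsol.axi t' ht')).2.2.2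
      (af s z y')).2.2.2.2.2.2.2.2.1, sg_af]
    ring
  have h1 := hosc (fun τ y => s ^ 2 * WW (u (t₀ + s ^ 2 * τ)) (af s z y) / S)
    (fun τ y => s * PS (u (t₀ + s ^ 2 * τ)) (af s z y)) hLin hWs
    (by
      intro τ hτ y hy
      rw [hcw _ (hI0 τ hτ), abs_div, abs_of_pos hS, div_le_one hS]
      exact hcirc _ (hI τ hτ) _ (hsubz (af_mem hs hy)))
    (by
      intro τ hτ
      have e : ∀ y : V, sg y ^ 2 * (s * PS (u (t₀ + s ^ 2 * τ)) (af s z y)) ^ 4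
          = (fun x => sg x ^ 2 * PS (u (t₀ + s ^ 2 * τ)) x ^ 4) (af s z y) := by
        intro y
        beta_reduce
        rw [sg_af]
        ring
      have h3 := int_af (z := z) hs (fun x => sg x ^ 2 * PS (u (t₀ + s ^ 2 * τ)) x ^ 4)
      rw [integral_congr_ae (Eventually.of_forall e), h3]
      have h2 := hL4 _ (hI τ hτ) z hsubz
      have hs3 : 0 < s ^ 3 := by positivity
      rw [inv_mul_le_iff₀ hs3]
      linarith)
    (-(ε / s ^ 2)) ⟨by
      have : ε / s ^ 2 < 1 / 4 := by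
        rw [div_lt_iff₀ hs2]
        linarith
      linarith, by
      have : 0 < ε / s ^ 2 := by positivity
      linarith⟩ ![x 0 / s, x 1 / s, 0] ⟨by
      have e : sg (![x 0 / s, x 1 / s, 0] : V) = sg x / s ^ 2 := by
        show (x 0 / s) ^ 2 + (x 1 / s) ^ 2 = _
        unfold sg
        field_simp
      rw [e, div_lt_iff₀ hs2]
      have h3 := hx.1
      nlinarith, by
      show |(0 : ℝ) - 0| < 1 / 4
      norm_num⟩
  have e1 : t₀ + s ^ 2 * (-(ε / s ^ 2)) = t := by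
    rw [ht₀]
    field_simp
    ring
  have e2 : af s z (![x 0 / s, x 1 / s, 0] : V) = x := by
    funext i
    fin_cases i
    · show af s z _ 0 = x 0
      rw [af_0]
      show s * (x 0 / s) = x 0
      field_simp
    · show af s z _ 1 = x 1
      rw [af_1]
      show s * (x 1 / s) = x 1
      field_simp
    · show af s z _ 2 = x 2
      rw [af_2]
      show s * 0 + z = x 2
      rw [hz]
      ring
  rw [e1] at h1
  rw [hcw t ⟨by nlinarith [ht.1], ht.2⟩, e2, abs_div, abs_of_pos hS, div_le_iff₀ hS] at h1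
  exact h1

/-- The decay. -/
theorem dec (hOsc : StmOsc) {T E c R H : ℝ} {u : ℝ → V → V} {p : ℝ → V → ℝ}
    (hsol : AxL T E c R H u p) {r h T₁ C₀ Λ : ℝ} (hr : 0 < r) (hh : 0 < h)
    (hsub : Co c r h ⊆ Co c R H) (hT₁ : 0 < T₁) (hT₁T : T₁ < T) (hC₀ : 0 < C₀) (hΛ : 0 ≤ Λ)
    (hcirc : ∀ t ∈ Ico T₁ T, ∀ x ∈ Co c r h, |circ (u t) x| ≤ C₀)
    (hL4 : ∀ t ∈ Ico T₁ T, ∀ z s, 0 < s → Co z s s ⊆ Co c r h →
      ∫ x in Co z s s, sg x ^ 2 * PS (u t) x ^ 4 ≤ Λ * s ^ 3) :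
    ∃ β M T₂ r₂ h₂ : ℝ, 0 < β ∧ 0 ≤ M ∧ T₁ ≤ T₂ ∧ T₂ < T ∧ 0 < r₂ ∧ 0 < h₂ ∧ r₂ ≤ r ∧ h₂ ≤ h ∧
      ∀ t ∈ Ico T₂ T, ∀ x ∈ Co c r₂ h₂, |circ (u t) x| ≤ M * sg x ^ (β / 2) := by
  obtain ⟨N, δ, hN, hδ, hδ1, hosc⟩ := hOsc Λ hΛ
  have hN0 : 0 < N := by linarith
  obtain ⟨r₀, hr₀⟩ : ∃ r₀ : ℝ, r₀ = min 1 (min r (min (h / 4) ((T - T₁) / (4 * N)))) := ⟨_, rfl⟩
  have hr₀0 : 0 < r₀ := by
    rw [hr₀]
    refine lt_min zero_lt_one (lt_min hr (lt_min (by positivity) ?_))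
    exact div_pos (by linarith) (by positivity)
  have hr₀1 : r₀ ≤ 1 := by rw [hr₀]; exact min_le_left _ _
  have hr₀r : r₀ ≤ r := by rw [hr₀]; exact (min_le_right _ _).trans (min_le_left _ _)
  have hr₀h : r₀ ≤ h / 4 := by
    rw [hr₀]
    exact (min_le_right _ _).trans ((min_le_right _ _).trans (min_le_left _ _))
  have hr₀T : N * r₀ ≤ (T - T₁) / 4 := by
    have h1 : r₀ ≤ (T - T₁) / (4 * N) := by
      rw [hr₀]
      exact (min_le_right _ _).trans ((min_le_right _ _).trans (min_le_right _ _))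
    rw [le_div_iff₀ (by positivity)] at h1
    linarith
  obtain ⟨T₂, hT₂⟩ : ∃ T₂ : ℝ, T₂ = T₁ + 2 * N * r₀ ^ 2 := ⟨_, rfl⟩
  have hr₀2 : N * r₀ ^ 2 ≤ (T - T₁) / 4 := by
    have h1 : r₀ ^ 2 ≤ r₀ := by nlinarith
    exact (mul_le_mul_of_nonneg_left h1 hN0.le).trans hr₀T
  have hT₂T : T₂ < T := by rw [hT₂]; linarith
  have hT₂1 : T₁ ≤ T₂ := by
    rw [hT₂]
    have : 0 ≤ 2 * N * r₀ ^ 2 := by positivity
    linarith
  obtain ⟨l, hl⟩ : ∃ l : ℝ, l = 1 / (4 * N) := ⟨_, rfl⟩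
  have hl0 : 0 < l := by rw [hl]; positivity
  have hl4 : l ≤ 1 / 4 := by
    rw [hl]
    exact one_div_le_one_div_of_le (by norm_num) (by linarith)
  have hδ0 : 0 < 1 - δ := by linarith
  have hP : ∀ n : ℕ, ∀ t ∈ Ico (T₂ - 2 * N * (r₀ * l ^ n) ^ 2) T,
      ∀ x ∈ Co c (r₀ * l ^ n) (h / 2 + 2 * (r₀ * l ^ n)), |circ (u t) x| ≤ (1 - δ) ^ n * C₀ := by
    intro n
    induction n with
    | zero =>
      intro t ht x hx
      rw [pow_zero, mul_one] at ht hx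
      rw [pow_zero, one_mul]
      refine hcirc t ⟨?_, ht.2⟩ x ⟨hx.1.trans_le ?_, hx.2.trans_le (by linarith)⟩
      · have := ht.1
        rw [hT₂] at this
        linarith
      · exact pow_le_pow_left₀ hr₀0.le hr₀r 2
    | succ n ih =>
      obtain ⟨s, hs⟩ : ∃ s : ℝ, s = r₀ * l ^ n := ⟨_, rfl⟩
      have hs0 : 0 < s := by rw [hs]; positivity
      have hsr₀ : s ≤ r₀ := by
        rw [hs]
        have : l ^ n ≤ 1 := pow_le_one₀ hl0.le (by linarith)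
        nlinarith
      have e : r₀ * l ^ (n + 1) = l * s := by rw [hs, pow_succ]; ring
      rw [← hs] at ih
      rw [e]
      have hls : l * s ≤ s / 4 := by nlinarith
      have hls0 : 0 < l * s := by positivity
      have hsubs : Co c s (h / 2 + 2 * s) ⊆ Co c r h := fun y hy =>
        ⟨hy.1.trans_le (pow_le_pow_left₀ hs0.le (hsr₀.trans hr₀r) 2), hy.2.trans_le (by linarith)⟩
      have hs2 : s ^ 2 ≤ r₀ ^ 2 := pow_le_pow_left₀ hs0.le hsr₀ 2
      have hNs2 : N * s ^ 2 ≤ N * r₀ ^ 2 := mul_le_mul_of_nonneg_left hs2 hN0.le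
      have hT'1 : T₁ ≤ T₂ - 2 * N * s ^ 2 := by
        rw [hT₂]
        linarith
      have hls2 : (l * s) ^ 2 ≤ s ^ 2 / 16 := by
        have : (l * s) ^ 2 ≤ (s / 4) ^ 2 := pow_le_pow_left₀ hls0.le hls 2
        linarith
      have hNls2 : N * (l * s) ^ 2 ≤ N * (s ^ 2 / 16) := mul_le_mul_of_nonneg_left hls2 hN0.le
      have h1 := step (Λ := Λ) (N := N) (δ := δ) hN hosc hsol (c := c) (s := s) (s' := l * s)
        (h := h / 2 + 2 * s) (h' := h / 2 + 2 * (l * s)) (S := (1 - δ) ^ n * C₀)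
        (T' := T₂ - 2 * N * s ^ 2) (T'' := T₂ - 2 * N * (l * s) ^ 2) hs0 hls hls0
        (by linarith) (hsubs.trans hsub) (by linarith) (by
          have : 0 ≤ N * s ^ 2 := by positivity
          linarith) (by positivity) ih
        (fun t ht z hz => hL4 t ⟨hT'1.trans ht.1, ht.2⟩ z s hs0 (hz.trans hsubs))
      intro t ht x hx
      have h2 := h1 t ht x hx
      rw [pow_succ]
      linarith
  obtain ⟨β, hβ⟩ : ∃ β : ℝ, β = Real.log (1 - δ) / Real.log l := ⟨_, rfl⟩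
  have hlogl : Real.log l < 0 := Real.log_neg hl0 (by linarith)
  have hlogδ : Real.log (1 - δ) < 0 := Real.log_neg hδ0 (by linarith)
  have hβ0 : 0 < β := by rw [hβ]; exact div_pos_of_neg_of_neg hlogδ hlogl
  have hlβ : l ^ β = 1 - δ := by
    rw [Real.rpow_def_of_pos hl0, hβ, mul_div_cancel₀ _ hlogl.ne, Real.exp_log hδ0]
  refine ⟨β, C₀ / (1 - δ) * (1 / (l * r₀)) ^ β, T₂, r₀, h / 2, hβ0, by positivity, hT₂1, hT₂T,
    hr₀0, by positivity, hr₀r, by linarith, ?_⟩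
  intro t ht x hx
  have hsx := sg_nn x
  rcases hsx.eq_or_lt with h0 | hpos
  · have h1 : x 0 = 0 ∧ x 1 = 0 := by
      have h2 : x 0 ^ 2 + x 1 ^ 2 = 0 := h0.symm
      constructor <;> nlinarith [sq_nonneg (x 0), sq_nonneg (x 1)]
    have h2 : circ (u t) x = 0 := by
      unfold circ
      rw [h1.1, h1.2]
      ring
    rw [h2, abs_zero]
    positivity
  · obtain ⟨ρ, hρ⟩ : ∃ ρ : ℝ, ρ = √(sg x) := ⟨_, rfl⟩
    have hρ0 : 0 < ρ := by rw [hρ]; exact Real.sqrt_pos.2 hpos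
    have hρ2 : ρ ^ 2 = sg x := by rw [hρ]; exact Real.sq_sqrt hsx
    have hρr : ρ < r₀ := by
      have h1 := hx.1
      rw [← hρ2] at h1
      exact lt_of_pow_lt_pow_left₀ 2 hr₀0.le h1
    obtain ⟨n, hn1, hn2⟩ := exists_nat_pow_near_of_lt_one (x := ρ / r₀) (y := l) (by positivity)
      ((div_le_one hr₀0).2 hρr.le) hl0 (by linarith)
    rw [lt_div_iff₀ hr₀0] at hn1
    rw [div_le_iff₀ hr₀0] at hn2
    -- the bound with `(1 - δ) ^ n / (1 - δ)`
    have hbd : |circ (u t) x| ≤ C₀ / (1 - δ) * (1 - δ) ^ n := by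
      have htn : ∀ m : ℕ, t ∈ Ico (T₂ - 2 * N * (r₀ * l ^ m) ^ 2) T := fun m =>
        ⟨by
          have : 0 ≤ 2 * N * (r₀ * l ^ m) ^ 2 := by positivity
          linarith [ht.1], ht.2⟩
      have hxn : ∀ m : ℕ, ρ < r₀ * l ^ m → x ∈ Co c (r₀ * l ^ m) (h / 2 + 2 * (r₀ * l ^ m)) :=
        fun m hm => ⟨by
          rw [← hρ2]
          exact pow_lt_pow_left₀ hm hρ0.le (by norm_num), by
          have : 0 < r₀ * l ^ m := by positivity
          linarith [hx.2]⟩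
      rcases Nat.eq_zero_or_pos n with hn | hn
      · subst hn
        have h1 := hP 0 t (htn 0) x (hxn 0 (by simpa using hρr))
        rw [pow_zero, one_mul] at h1
        rw [pow_zero, mul_one]
        refine h1.trans ?_
        rw [le_div_iff₀ hδ0]
        nlinarith
      · obtain ⟨m, rfl⟩ : ∃ m, n = m + 1 := ⟨n - 1, by omega⟩
        have h2 : ρ < r₀ * l ^ m := by
          have h3 : l ^ (m + 1) < l ^ m := by
            rw [pow_succ]
            have : 0 < l ^ m := by positivity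
            nlinarith
          nlinarith
        have h1 := hP m t (htn m) x (hxn m h2)
        refine h1.trans (le_of_eq ?_)
        rw [pow_succ]
        field_simp
    have h5 : (1 - δ) ^ n ≤ (1 / (l * r₀)) ^ β * sg x ^ (β / 2) := by
      have h6 : sg x ^ (β / 2) = ρ ^ β := by
        rw [← hρ2, ← Real.rpow_natCast ρ 2, ← Real.rpow_mul hρ0.le]
        congr 1
        push_cast
        ring
      rw [h6, ← Real.mul_rpow (by positivity) hρ0.le, ← hlβ, ← Real.rpow_natCast, ← Real.rpow_mul hl0.le,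
        mul_comm β, Real.rpow_mul hl0.le, Real.rpow_natCast]
      refine Real.rpow_le_rpow (by positivity) ?_ hβ0.le
      rw [one_div, inv_mul_eq_div, le_div_iff₀ (by positivity)]
      calc l ^ n * (l * r₀) = l ^ (n + 1) * r₀ := by rw [pow_succ]; ring
        _ ≤ ρ := hn1.le
    calc |circ (u t) x| ≤ C₀ / (1 - δ) * (1 - δ) ^ n := hbd
      _ ≤ C₀ / (1 - δ) * ((1 / (l * r₀)) ^ β * sg x ^ (β / 2)) :=
        mul_le_mul_of_nonneg_left h5 (by positivity)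
      _ = _ := by ring

end Pool.Agent.V8H53.OW
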