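import Pool.Agent.Q67.AXI.Defs

/-!
Project OW (helper53): a smooth axisymmetric Navier-Stokes solution with `ω_θ / ρ` bounded from
below near a point of the axis is regular there. Statements of the parts.

`V = Fin 3 → ℝ`, `sg x = ρ²`, `RR = ρ ∂_ρ`, `LL = Δ + (2 / ρ) ∂_ρ`, `Co c r h` is the open cylinder
`ρ < r`, `|z - c| < h`.
-/

set_option autoImplicit false

open MeasureTheory Set Metric Filter Topology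
open scoped ContDiff
open H459R3.NS Pool.Agent.W268.NS Pool.Agent.Q67.VD

namespace Pool.Agent.V8H53.OW

open Pool.Agent.Q85.CC Pool.Agent.Q85.CL Pool.Agent.TH305.AX Pool.Agent.Q67.AXI

/-- `w` solves `∂ₜ w + b · ∇ w + (2 / ρ) ∂_ρ w = Δ w` off the axis in `O` for the times in `(a, b)`,
where `b_ρ = -ρ ∂_z ψ`, `b_z = 2 ψ + ρ ∂_ρ ψ`. -/
structure Lin (a b : ℝ) (O : Set V) (w ψ : ℝ → V → ℝ) : Prop where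
  sm : ContDiffOn ℝ ∞ (fun z : ℝ × V => w z.1 z.2) (Ioo a b ×ˢ univ)
  smψ : ∀ t ∈ Ioo a b, ContDiff ℝ ∞ (ψ t)
  eq : ∀ t ∈ Ioo a b, ∀ x ∈ O, sg x ≠ 0 → HasDerivAt (fun s => w s x)
    (lap (w t) x - 2 / sg x * RR (w t) x + pd 2 (ψ t) x * RR (w t) x
      - (2 * ψ t x + RR (ψ t) x) * pd 2 (w t) x) t

/-- OW-KER. `ρ F` is in `L⁴` on cylinders at the axis, at the critical scale, if `LL F` is in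
`L¹`. -/
def StmKer : Prop := ∃ C : ℝ, 0 ≤ C ∧ ∀ F : V → ℝ, ContDiff ℝ ∞ F → HasCompactSupport F → AxF F →
  ∀ c r : ℝ, 0 < r → ∫ x in Co c r r, sg x ^ 2 * F x ^ 4 ≤ C * r ^ 3 * (∫ x, |LL F x|) ^ 4

/-- OW-DG. De Giorgi's lemma. -/
def StmDG : Prop := ∀ Λ : ℝ, 0 ≤ Λ → ∃ η : ℝ, 0 < η ∧ ∀ w ψ : ℝ → V → ℝ,
  Lin (-1) 0 (Co 0 (1 / 2) (1 / 2)) w ψ →
  (∀ t ∈ Ioo (-1 : ℝ) 0, ∀ x ∈ Co 0 (1 / 2) (1 / 2), w t x ≤ 1 ∧ (sg x = 0 → w t x < 0)) →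
  (∀ t ∈ Ioo (-1 : ℝ) 0, ∫ x in Co 0 (1 / 2) (1 / 2), sg x ^ 2 * ψ t x ^ 4 ≤ Λ) →
  (∀ t ∈ Ioo (-1 : ℝ) 0, volume.real {x | x ∈ Co 0 (1 / 2) (1 / 2) ∧ 0 < w t x} ≤ η) →
    ∀ t ∈ Ioo (-(1 / 4) : ℝ) 0, ∀ x ∈ Co 0 (1 / 4) (1 / 4), w t x ≤ 1 / 2

/-- OW-LG. The estimate of the logarithm. -/
def StmLg : Prop := ∀ Λ η : ℝ, 0 ≤ Λ → 0 < η → ∃ N δ : ℝ, 1 ≤ N ∧ 0 < δ ∧ δ < 1 ∧
  ∀ W ψ : ℝ → V → ℝ, Lin (-N) 0 (Co 0 1 1) (fun t x => sg x * W t x) ψ →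
  ContDiffOn ℝ ∞ (fun z : ℝ × V => W z.1 z.2) (Ioo (-N) 0 ×ˢ univ) →
  (∀ t ∈ Ioo (-N) 0, ∀ x ∈ Co 0 1 1, |sg x * W t x| ≤ 1) →
  (∀ t ∈ Ioo (-N) 0, ∫ x in Co 0 1 1, sg x ^ 2 * ψ t x ^ 4 ≤ Λ) →
    ∀ t ∈ Ioo (-1 : ℝ) 0,
      volume.real {x | x ∈ Co 0 (1 / 2) (1 / 2) ∧ 1 - δ < sg x * W t x} ≤ η

/-- OW-OSC. The maximum decreases. -/
def StmOsc : Prop := ∀ Λ : ℝ, 0 ≤ Λ → ∃ N δ : ℝ, 1 ≤ N ∧ 0 < δ ∧ δ < 1 ∧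
  ∀ W ψ : ℝ → V → ℝ, Lin (-N) 0 (Co 0 1 1) (fun t x => sg x * W t x) ψ →
  ContDiffOn ℝ ∞ (fun z : ℝ × V => W z.1 z.2) (Ioo (-N) 0 ×ˢ univ) →
  (∀ t ∈ Ioo (-N) 0, ∀ x ∈ Co 0 1 1, |sg x * W t x| ≤ 1) →
  (∀ t ∈ Ioo (-N) 0, ∫ x in Co 0 1 1, sg x ^ 2 * ψ t x ^ 4 ≤ Λ) →
    ∀ t ∈ Ioo (-(1 / 4) : ℝ) 0, ∀ x ∈ Co 0 (1 / 4) (1 / 4), |sg x * W t x| ≤ 1 - δ

end Pool.Agent.V8H53.OW
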