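import Pool.Agent.V8H53.OW.Defs

/-!
Project OW, second part: the statements of the jobs.
-/

set_option autoImplicit false

open MeasureTheory Set Metric Filter Topology
open scoped ContDiff
open H459R3.NS Pool.Agent.W268.NS Pool.Agent.Q67.VD

namespace Pool.Agent.V8H53.OW

open Pool.Agent.Q85.CC Pool.Agent.Q85.CL Pool.Agent.TH305.AX Pool.Agent.Q67.AXI

/-- `|x - a|² + τ` for the point `a = (0, 0, c)`. -/
def X2 (c τ : ℝ) (x : V) : ℝ := sg x + (x 2 - c) ^ 2 + τ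

/-- THR2. The threshold `C X2 ^ (-d)`, `0 ≤ d < 5 / 4`, with `κ = max 1 (2 d - 1)`. -/
def StmThr2 : Prop := ∀ (C d X₀ : ℝ), 0 ≤ C → 0 ≤ d → d < 5 / 4 → 0 < X₀ →
  ∃ K₀ : ℝ, 0 ≤ K₀ ∧ ∀ (c τ : ℝ) (v : V → V), 0 < τ → ContDiff ℝ ∞ v → Axi v →
    ∀ x : V, sg x ≠ 0 → X2 c τ x ≤ X₀ →
      LL (fun y => C * X2 c τ y ^ (-d)) x - W221.NS.adv v (fun y => C * X2 c τ y ^ (-d)) x
          - C * d * X2 c τ x ^ (-d - 1) ≤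
        K₀ * X2 c τ x ^ (-(max 1 (2 * d - 1)) - 1) + K₀ * (UU v x ^ 2 + v x 2 ^ 2 / X2 c τ x) ∧
      -(LL (fun y => C * X2 c τ y ^ (-d)) x - W221.NS.adv v (fun y => C * X2 c τ y ^ (-d)) x) ≤
        K₀ * X2 c τ x ^ (-(max 1 (2 * d - 1)) - 1) + K₀ * (UU v x ^ 2 + v x 2 ^ 2 / X2 c τ x)

/-- MASS. The integral of `X2 ^ (-κ)`, `κ < 3 / 2`. -/
def StmMass : Prop := ∀ (c r h r1 h1 K T κ : ℝ) (φ : V → ℝ), 0 < r1 → r1 < r → 0 < h1 → h1 < h →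
  0 ≤ K → 0 < T → κ < 3 / 2 → Cut c r h r1 h1 K φ →
    ∃ M : ℝ, ∀ τ ∈ Ioc 0 T, ∫ x, φ x ^ 2 * X2 c τ x ^ (-κ) ≤ M

/-- HAR2. Hardy inequality with a cut-off. -/
def StmHar2 : Prop := ∀ (c r h r1 h1 K : ℝ) (φ : V → ℝ), 0 < r1 → r1 < r → 0 < h1 → h1 < h →
  0 ≤ K → Cut c r h r1 h1 K φ →
    ∃ M : ℝ, 0 ≤ M ∧ ∀ (τ : ℝ) (g : V → ℝ), 0 < τ → ContDiff ℝ ∞ g →
      (∀ x ∈ Out c r h r1 h1, |g x| ≤ K) →
        ∫ x, φ x ^ 2 * (g x ^ 2 / X2 c τ x) ≤ M * ((∫ x in Co c r h, gr2 g x) + 1)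

/-- AXIS. The singular term of the equation as an integral over the axis. -/
def StmAxis : Prop := ∀ F : V → ℝ, ContDiff ℝ ∞ F → HasCompactSupport F → AxF F →
  ∫ x, RR F x / sg x = -(2 * Real.pi * ∫ z : ℝ, F ![0, 0, z])

end Pool.Agent.V8H53.OW
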