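import Pool.Agent.V8H53.OW.L2a

/-!
Project OW, third part: the threshold `√(l² + (v_θ / ρ)²)`.
-/

set_option autoImplicit false

open MeasureTheory Set Metric Filter Topology
open scoped ContDiff
open H459R3.NS Pool.Agent.W268.NS Pool.Agent.Q67.VD

namespace Pool.Agent.V8H53.OW

open Pool.Agent.Q85.CC Pool.Agent.Q85.CL Pool.Agent.TH305.AX Pool.Agent.Q67.AXI

/-- `√(l² + w²)`. -/
noncomputable def sq0 (l w : ℝ) : ℝ := Real.sqrt (l ^ 2 + w ^ 2)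

/-- The derivative of `sq0`. -/
noncomputable def sq1 (l w : ℝ) : ℝ := w / Real.sqrt (l ^ 2 + w ^ 2)

/-- The second derivative of `sq0`. -/
noncomputable def sq2 (l w : ℝ) : ℝ := l ^ 2 / Real.sqrt (l ^ 2 + w ^ 2) ^ 3

lemma sq_pos {l : ℝ} (hl : 0 < l) (w : ℝ) : 0 < l ^ 2 + w ^ 2 := by positivity

lemma sq0_cd {l : ℝ} (hl : 0 < l) : ContDiff ℝ ∞ (sq0 l) :=
  (contDiff_const.add (contDiff_id.pow 2)).sqrt fun w => (sq_pos hl w).ne'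

lemma sq0_hd {l : ℝ} (hl : 0 < l) (w : ℝ) : HasDerivAt (sq0 l) (sq1 l w) w := by
  have h1 : HasDerivAt (fun w : ℝ => l ^ 2 + w ^ 2) (2 * w) w := by
    simpa using (hasDerivAt_pow 2 w).const_add (l ^ 2)
  refine (h1.sqrt (sq_pos hl w).ne').congr_deriv ?_
  unfold sq1
  field_simp

lemma sq1_cd {l : ℝ} (hl : 0 < l) : ContDiff ℝ ∞ (sq1 l) :=
  contDiff_id.div (sq0_cd hl) fun w => (Real.sqrt_pos.2 (sq_pos hl w)).ne'

lemma sq1_hd {l : ℝ} (hl : 0 < l) (w : ℝ) : HasDerivAt (sq1 l) (sq2 l w) w := by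
  have h0 : Real.sqrt (l ^ 2 + w ^ 2) ≠ 0 := (Real.sqrt_pos.2 (sq_pos hl w)).ne'
  have h1 := (hasDerivAt_id w).div (sq0_hd hl w) h0
  refine h1.congr_deriv ?_
  have h2 : Real.sqrt (l ^ 2 + w ^ 2) ^ 2 = l ^ 2 + w ^ 2 := Real.sq_sqrt (sq_pos hl w).le
  unfold sq2 sq1 sq0
  simp only [id_eq]
  field_simp
  rw [h2]
  ring

lemma sq0_nn (l w : ℝ) : 0 ≤ sq0 l w := Real.sqrt_nonneg _

lemma sq0_ge (l w : ℝ) : |w| ≤ sq0 l w := Real.abs_le_sqrt (by nlinarith [sq_nonneg l])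

lemma sq0_le {l : ℝ} (hl : 0 < l) (w : ℝ) : sq0 l w ≤ l + |w| := by
  unfold sq0
  rw [Real.sqrt_le_left (by positivity)]
  have := sq_abs w
  have h1 := abs_nonneg w
  nlinarith

lemma sq1_le {l : ℝ} (hl : 0 < l) (w : ℝ) : |sq1 l w| ≤ 1 := by
  unfold sq1
  rw [abs_div, abs_of_nonneg (Real.sqrt_nonneg _), div_le_one (Real.sqrt_pos.2 (sq_pos hl w))]
  exact sq0_ge l w

lemma sq2_nn (l w : ℝ) : 0 ≤ sq2 l w := by
  unfold sq2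
  positivity

/-- W1. The `L¹` estimate of `v_θ / ρ`. -/
def StmW1 : Prop := ∀ (T E c R H K r h r1 h1 T₁ l : ℝ) (u : ℝ → V → V) (p : ℝ → V → ℝ)
  (φ : V → ℝ), AxL T E c R H u p → 0 ≤ K → 0 < r → r < R → h < H → 0 < T₁ → T₁ < T → 0 < l →
  Cut c r h r1 h1 K φ → (∀ t ∈ Ico T₁ T, ∀ x ∈ Out c r h r1 h1, BdA K (u t) x) →
    ContinuousOn (fun t => ∫ x, φ x ^ 2 * (sq2 l (WW (u t) x) * gr2 (WW (u t)) x)) (Ioo 0 T) ∧
    ∃ M : ℝ, ∀ t ∈ Ico T₁ T, ∫ x, φ x ^ 2 * sq0 l (WW (u t) x) ≤ M ∧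
      ∫ s in T₁..t, (∫ x, φ x ^ 2 * (sq2 l (WW (u s) x) * gr2 (WW (u s)) x)) ≤ M

end Pool.Agent.V8H53.OW
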