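import Pool.Agent.V8H53.OW.Defs

/-!
Project OW, fourth part: the region `ρ² < (T - t) ^ g`.
-/

set_option autoImplicit false

open MeasureTheory Set Metric Filter Topology
open scoped ContDiff
open H459R3.NS Pool.Agent.W268.NS Pool.Agent.Q67.VD

namespace Pool.Agent.V8H53.OW

open Pool.Agent.Q85.CC Pool.Agent.Q85.CL Pool.Agent.TH305.AX Pool.Agent.Q67.AXI

/-- FI. Powers of `ρ²` are integrable. -/
def StmFi : Prop := ∀ c r h b : ℝ, 0 ≤ b → b < 1 →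
  ∫⁻ x in Co c r h, ENNReal.ofReal (sg x ^ (-b)) < ⊤

/-- FAR1. The production is finite in the outer region. -/
def StmFar1 : Prop := ∀ (T E c R H r h T₁ C₀ g : ℝ) (u : ℝ → V → V) (p : ℝ → V → ℝ),
  AxL T E c R H u p → 0 < r → r < R → 0 < h → h < H → 0 < T₁ → T₁ < T → 0 ≤ g → g < 1 / 2 →
  (∀ t ∈ Ico T₁ T, ∀ x ∈ Cy c r h, |circ (u t) x| ≤ C₀) →
    ∃ F : ℝ → ENNReal, Measurable F ∧ ∫⁻ t in Ioo T₁ T, F t < ⊤ ∧ ∀ t ∈ Ioo T₁ T,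
      ∫⁻ x in {x | x ∈ Co c r h ∧ (T - t) ^ g ≤ sg x},
        ENNReal.ofReal |2 * WW (u t) x * JJ (u t) x| ≤ F t

/-- FAR2. The fourth power is integrable in the outer region. -/
def StmFar2 : Prop := ∀ (T E c R H r h T₁ C₀ g : ℝ) (u : ℝ → V → V) (p : ℝ → V → ℝ),
  AxL T E c R H u p → 0 < r → r < R → 0 < h → h < H → 0 < T₁ → T₁ < T → 0 ≤ g → g < 1 / 3 →
  (∀ t ∈ Ico T₁ T, ∀ x ∈ Cy c r h, |circ (u t) x| ≤ C₀) →
    ∃ F : ℝ → ENNReal, Measurable F ∧ ∫⁻ t in Ioo T₁ T, F t < ⊤ ∧ ∀ t ∈ Ioo T₁ T,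
      ∫⁻ x in {x | x ∈ Co c r h ∧ (T - t) ^ g ≤ sg x},
        ENNReal.ofReal (WW (u t) x ^ 4) ≤ F t

end Pool.Agent.V8H53.OW
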