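import Pool.Agent.V8H53.OW.Defs4

/-!
Project OW, fifth part: the region where `|v_θ / ρ|` is small.
-/

set_option autoImplicit false

open MeasureTheory Set Metric Filter Topology
open scoped ContDiff
open H459R3.NS Pool.Agent.W268.NS Pool.Agent.Q67.VD

namespace Pool.Agent.V8H53.OW

open Pool.Agent.Q85.CC Pool.Agent.Q85.CL Pool.Agent.TH305.AX Pool.Agent.Q67.AXI

/-- The square of the threshold of `v_θ / ρ`. -/
noncomputable def mu (T M e t : ℝ) (x : V) : ℝ := M ^ 2 * (sg x + (T - t)) ^ (-(2 * e))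

/-- FAR3. The fourth power is integrable where `W ^ 2` is not above `mu`. -/
def StmFar3 : Prop := ∀ (c r h M e T T₁ : ℝ) (W : ℝ → V → ℝ), 0 < M → 0 ≤ e → e < 1 / 2 →
  T₁ < T → (∀ t ∈ Ioo T₁ T, Continuous (W t)) →
    ∃ F : ℝ → ENNReal, Measurable F ∧ ∫⁻ t in Ioo T₁ T, F t < ⊤ ∧ ∀ t ∈ Ioo T₁ T,
      ∫⁻ x in {x | x ∈ Co c r h ∧ W t x ^ 2 ≤ mu T M e t x},
        ENNReal.ofReal (W t x ^ 4) ≤ F t

end Pool.Agent.V8H53.OW
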