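import Pool.Agent.V8H53.OW.Defs3
import Pool.Agent.V8H53.OW.Defs5

/-!
Project OW, sixth part: the region where `ω_ρ / ρ` is small.
-/

set_option autoImplicit false

open MeasureTheory Set Metric Filter Topology
open scoped ContDiff
open H459R3.NS Pool.Agent.W268.NS Pool.Agent.Q67.VD

namespace Pool.Agent.V8H53.OW

open Pool.Agent.Q85.CC Pool.Agent.Q85.CL Pool.Agent.TH305.AX Pool.Agent.Q67.AXI

/-- FJ. Powers of `|x - a|²` are integrable. -/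
def StmFj : Prop := ∀ c r h κ : ℝ, 0 ≤ κ → κ < 3 / 2 →
  ∫⁻ x in Co c r h, ENNReal.ofReal (X2 c 0 x ^ (-κ)) < ⊤

/-- FAR4. The production is finite where `|ω_ρ / ρ|` is not above the threshold. -/
def StmFar4 : Prop := ∀ (T E c R H r h T₁ l M b d : ℝ) (u : ℝ → V → V) (p : ℝ → V → ℝ),
  AxL T E c R H u p → 0 < r → r < R → 0 < h → h < H → 0 < T₁ → T₁ < T → 0 < l → 0 ≤ M →
  0 ≤ b → b < 1 → 0 ≤ d → d < 5 / 4 →
    ∃ F : ℝ → ENNReal, Measurable F ∧ ∫⁻ t in Ioo T₁ T, F t < ⊤ ∧ ∀ t ∈ Ioo T₁ T,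
      ∫⁻ x in {x | x ∈ Co c r h ∧ |JJ (u t) x| ≤ M * (sq0 l (WW (u t) x)
          + X2 c (T - t) x ^ (-d) + (sg x + (T - t)) ^ (-b))},
        ENNReal.ofReal |2 * WW (u t) x * JJ (u t) x| ≤ F t

end Pool.Agent.V8H53.OW
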