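import Pool.Agent.V8H53.OW.L1

/-!
Project OW: a smooth convex function, linear functionals.
-/

set_option autoImplicit false

open MeasureTheory Set Metric Filter Topology Polynomial
open scoped ContDiff

namespace Pool.Agent.V8H53.OW

/-- `x exp (-1 / x)` for positive `x`. -/
noncomputable def g0 (x : ℝ) : ℝ := x * expNegInvGlue x

/-- The derivative of `g0`. -/
noncomputable def g1 (x : ℝ) : ℝ := (1 + x⁻¹) * expNegInvGlue x

/-- The second derivative of `g0`. -/
noncomputable def g2 (x : ℝ) : ℝ := x⁻¹ ^ 3 * expNegInvGlue x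

lemma g0_cd : ContDiff ℝ ∞ g0 := contDiff_id.mul expNegInvGlue.contDiff

lemma g1_eq : g1 = fun x => (1 + X : ℝ[X]).eval x⁻¹ * expNegInvGlue x := by
  funext x
  simp [g1]

lemma g1_cd : ContDiff ℝ ∞ g1 := by
  rw [g1_eq]
  exact expNegInvGlue.contDiff_polynomial_eval_inv_mul _

lemma g0_hd (x : ℝ) : HasDerivAt g0 (g1 x) x := by
  have h1 := expNegInvGlue.hasDerivAt_polynomial_eval_inv_mul (1 : ℝ[X]) x
  simp only [eval_one, one_mul] at h1
  have h2 := (hasDerivAt_id x).mul h1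
  refine h2.congr_deriv ?_
  by_cases hx : x = 0
  · rw [hx]
    simp [g1]
  · simp [g1]
    field_simp

lemma g1_hd (x : ℝ) : HasDerivAt g1 (g2 x) x := by
  rw [g1_eq]
  refine (expNegInvGlue.hasDerivAt_polynomial_eval_inv_mul (1 + X : ℝ[X]) x).congr_deriv ?_
  have e : (X ^ 2 * ((1 + X : ℝ[X]) - derivative (R := ℝ) (1 + X : ℝ[X]))).eval x⁻¹
      = x⁻¹ ^ 3 := by
    simp only [eval_mul, eval_pow, eval_X, eval_sub, eval_add, eval_one, derivative_add,
      derivative_one, derivative_X, eval_zero]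
    ring
  rw [e, g2]

lemma g2_nn (x : ℝ) : 0 ≤ g2 x := by
  rcases le_or_gt x 0 with h | h
  · rw [g2, expNegInvGlue.zero_of_nonpos h, mul_zero]
  · exact mul_nonneg (by positivity) (expNegInvGlue.nonneg x)

lemma g1_neg {x : ℝ} (h : x ≤ 0) : g1 x = 0 := by
  rw [g1, expNegInvGlue.zero_of_nonpos h, mul_zero]

lemma g0_neg {x : ℝ} (h : x ≤ 0) : g0 x = 0 := by
  rw [g0, expNegInvGlue.zero_of_nonpos h, mul_zero]

lemma egl {x : ℝ} (h : 0 < x) : expNegInvGlue x = Real.exp (-x⁻¹) := by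
  simp [expNegInvGlue, not_le.2 h]

lemma g1_nn (x : ℝ) : 0 ≤ g1 x := by
  rcases le_or_gt x 0 with h | h
  · rw [g1_neg h]
  · exact mul_nonneg (by positivity) (expNegInvGlue.nonneg x)

lemma g1_le (x : ℝ) : g1 x ≤ 1 := by
  rcases le_or_gt x 0 with h | h
  · rw [g1_neg h]
    exact zero_le_one
  · rw [g1, egl h]
    have h1 := Real.add_one_le_exp x⁻¹
    rw [Real.exp_neg]
    have h2 := Real.exp_pos x⁻¹
    rw [← div_eq_mul_inv, div_le_one h2]
    linarith

lemma g0_nn (x : ℝ) : 0 ≤ g0 x := by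
  rcases le_or_gt x 0 with h | h
  · rw [g0_neg h]
  · exact mul_nonneg h.le (expNegInvGlue.nonneg x)

lemma g0_ge (x : ℝ) : x - 1 ≤ g0 x := by
  rcases le_or_gt x 0 with h | h
  · rw [g0_neg h]
    linarith
  · rw [g0, egl h]
    have h1 := Real.add_one_le_exp (-x⁻¹)
    have h2 : x * (-x⁻¹ + 1) = x - 1 := by
      field_simp
      ring
    calc x - 1 = x * (-x⁻¹ + 1) := h2.symm
      _ ≤ x * Real.exp (-x⁻¹) := mul_le_mul_of_nonneg_left h1 h.le

lemma g0_le (x : ℝ) : g0 x ≤ |x| := by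
  rcases le_or_gt x 0 with h | h
  · rw [g0_neg h]
    exact abs_nonneg _
  · rw [g0, egl h, abs_of_pos h]
    have h1 : Real.exp (-x⁻¹) ≤ 1 := Real.exp_le_one_iff.2 (by
      have : 0 < x⁻¹ := inv_pos.2 h
      linarith)
    exact mul_le_of_le_one_right h.le h1

end Pool.Agent.V8H53.OW
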