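import Pool.Agent.V8H53.OW.L1g

/-!
Project OW: a smooth convex function with second derivative supported in `[0, 1]`.
-/

set_option autoImplicit false

open MeasureTheory Set Metric Filter Topology
open scoped ContDiff

namespace Pool.Agent.V8H53.OW

/-- A smooth step. -/
noncomputable def k1 (x : ℝ) : ℝ := Real.smoothTransition x

/-- The primitive of `k1`. -/
noncomputable def k0 (x : ℝ) : ℝ := ∫ s in (0 : ℝ)..x, k1 s

/-- The derivative of `k1`. -/
noncomputable def k2 (x : ℝ) : ℝ := deriv k1 x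

lemma k1_cd : ContDiff ℝ ∞ k1 := Real.smoothTransition.contDiff

lemma k0_hd (x : ℝ) : HasDerivAt k0 (k1 x) x :=
  intervalIntegral.integral_hasDerivAt_right (k1_cd.continuous.intervalIntegrable _ _)
    (k1_cd.continuous.stronglyMeasurableAtFilter _ _) k1_cd.continuous.continuousAt

lemma k0_cd : ContDiff ℝ ∞ k0 := by
  rw [contDiff_infty_iff_deriv]
  refine ⟨fun x => (k0_hd x).differentiableAt, ?_⟩
  have e : deriv k0 = k1 := funext fun x => (k0_hd x).deriv
  rw [e]
  exact k1_cd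

lemma k1_hd (x : ℝ) : HasDerivAt k1 (k2 x) x :=
  ((k1_cd.differentiable (by simp)) x).hasDerivAt

lemma k2_cd : ContDiff ℝ ∞ k2 := (contDiff_infty_iff_deriv.1 k1_cd).2

lemma k1_nn (x : ℝ) : 0 ≤ k1 x := Real.smoothTransition.nonneg x

lemma k1_le (x : ℝ) : k1 x ≤ 1 := Real.smoothTransition.le_one x

lemma k1_neg {x : ℝ} (h : x ≤ 0) : k1 x = 0 := Real.smoothTransition.zero_of_nonpos h

lemma k1_one {x : ℝ} (h : 1 ≤ x) : k1 x = 1 := Real.smoothTransition.one_of_one_le h

lemma k1_mono : Monotone k1 := Real.smoothTransition.monotone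

lemma k2_nn (x : ℝ) : 0 ≤ k2 x := k1_mono.deriv_nonneg

lemma k2_neg {x : ℝ} (h : x ≤ 0) : k2 x = 0 := by
  have h1 : IsClosed {y : ℝ | k2 y = 0} := isClosed_eq k2_cd.continuous continuous_const
  have h2 : Iio (0 : ℝ) ⊆ {y : ℝ | k2 y = 0} := by
    intro y hy
    have h3 : k1 =ᶠ[𝓝 y] fun _ => (0 : ℝ) := by
      filter_upwards [isOpen_Iio.mem_nhds hy] with z hz
      exact k1_neg (le_of_lt hz)
    show k2 y = 0
    rw [k2, h3.deriv_eq, deriv_const]
  have h3 := h1.closure_subset_iff.2 h2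
  rw [closure_Iio] at h3
  exact h3 h

lemma k2_one {x : ℝ} (h : 1 ≤ x) : k2 x = 0 := by
  have h1 : IsClosed {y : ℝ | k2 y = 0} := isClosed_eq k2_cd.continuous continuous_const
  have h2 : Ioi (1 : ℝ) ⊆ {y : ℝ | k2 y = 0} := by
    intro y hy
    have h3 : k1 =ᶠ[𝓝 y] fun _ => (1 : ℝ) := by
      filter_upwards [isOpen_Ioi.mem_nhds hy] with z hz
      exact k1_one (le_of_lt hz)
    show k2 y = 0
    rw [k2, h3.deriv_eq, deriv_const]
  have h3 := h1.closure_subset_iff.2 h2
  rw [closure_Ioi] at h3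
  exact h3 h

lemma k2_bd : ∃ B : ℝ, 0 ≤ B ∧ ∀ x, k2 x ≤ B := by
  obtain ⟨B, hB⟩ := (isCompact_Icc (a := (0 : ℝ)) (b := 1)).exists_bound_of_continuousOn
    k2_cd.continuous.continuousOn
  refine ⟨max B 0, le_max_right _ _, fun x => ?_⟩
  by_cases h : x ∈ Icc (0 : ℝ) 1
  · exact ((le_abs_self _).trans (hB x h)).trans (le_max_left _ _)
  · have : x ≤ 0 ∨ 1 ≤ x := by
      by_contra hcon
      push Not at hcon
      exact h ⟨hcon.1.le, hcon.2.le⟩
    rcases this with h1 | h1
    · rw [k2_neg h1]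
      exact le_max_right _ _
    · rw [k2_one h1]
      exact le_max_right _ _

lemma k0_neg {x : ℝ} (h : x ≤ 0) : k0 x = 0 := by
  rw [k0, intervalIntegral.integral_symm, neg_eq_zero]
  have h1 : ∫ s in x..0, k1 s = ∫ s in x..0, (0 : ℝ) := by
    refine intervalIntegral.integral_congr fun s hs => ?_
    rw [uIcc_of_le h] at hs
    exact k1_neg hs.2
  rw [h1]
  simp

lemma k0_nn (x : ℝ) : 0 ≤ k0 x := by
  rcases le_or_gt x 0 with h | h
  · rw [k0_neg h]
  · exact intervalIntegral.integral_nonneg h.le fun s _ => k1_nn s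

lemma k0_le (x : ℝ) : k0 x ≤ max x 0 := by
  rcases le_or_gt x 0 with h | h
  · rw [k0_neg h]
    exact le_max_right _ _
  · have h1 : k0 x ≤ ∫ s in (0 : ℝ)..x, (1 : ℝ) :=
      intervalIntegral.integral_mono_on h.le (k1_cd.continuous.intervalIntegrable _ _)
        (by simp) fun s _ => k1_le s
    rw [intervalIntegral.integral_const, smul_eq_mul, mul_one, sub_zero] at h1
    exact h1.trans (le_max_left _ _)

lemma k0_ge (x : ℝ) : x - 1 ≤ k0 x := by
  rcases le_or_gt x 1 with h | h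
  · linarith [k0_nn x]
  · have h2 : k0 x = (∫ s in (0 : ℝ)..1, k1 s) + ∫ s in (1 : ℝ)..x, k1 s :=
      (intervalIntegral.integral_add_adjacent_intervals
        (k1_cd.continuous.intervalIntegrable _ _) (k1_cd.continuous.intervalIntegrable _ _)).symm
    have h3 : 0 ≤ ∫ s in (0 : ℝ)..1, k1 s :=
      intervalIntegral.integral_nonneg zero_le_one fun s _ => k1_nn s
    have h4 : ∫ s in (1 : ℝ)..x, k1 s = ∫ s in (1 : ℝ)..x, (1 : ℝ) := by
      refine intervalIntegral.integral_congr fun s hs => ?_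
      rw [uIcc_of_le h.le] at hs
      exact k1_one hs.1
    rw [intervalIntegral.integral_const, smul_eq_mul, mul_one] at h4
    linarith

end Pool.Agent.V8H53.OW
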