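import Pool.Agent.V8H53.OW.Pot

/-!
Project OW: the bound of `∫ |ω_θ / ρ|` if `ω_θ / ρ` is bounded from below.
-/

set_option autoImplicit false

open MeasureTheory Set Metric Filter Topology
open scoped ContDiff
open H459R3.NS Pool.Agent.W268.NS Pool.Agent.Q67.VD

namespace Pool.Agent.V8H53.OW

open Pool.Agent.Q85.CC Pool.Agent.Q85.CL Pool.Agent.TH305.AX
open Pool.Agent.Q67.AXI
open Pool.Agent.W583.MD (sm_pd cs_pd pd_mul' Z Z.add Z.sub Z.smul Z.sum int_cs Z_pd)
open Pool.Agent.TH305.DR (pd_add' pd_sub' pd_neg' pd_cmul pd_const')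
open Pool.Agent.V8Lead (p_AAs p_Alg p_AxF p_H0 p_Dt p_Jnt p_EqO)
open Pool.Agent.Q175.AX (Co_open Cy_compact Co_meas Co_fin ind_int ind_val cut_dich const_pd cut_out
  cut_mem Co_sub_Cy LL_mul LL_meas sq_pd RRsg_int RRsg_int' cs_zero lap_sm gr2_sm sg_nn RR_ev
  RR_const lap_ev lap_const pd_ev)

variable {v : V → V} {φ : V → ℝ} {c r h r1 h1 K C₁ σ : ℝ}

/-- One time. -/
lemma l1_en (hv : ContDiff ℝ ∞ v) (ha : Axi v) (hd : DFO (Co c r h) v) (hK : 0 ≤ K) (hC : 0 ≤ C₁)
    (hr : 0 ≤ r) (hσ : |σ| = 1)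
    (hφ : Cut c r h r1 h1 K φ) (hb : ∀ x ∈ Out c r h r1 h1, BdA K v x)
    (hO : ∀ x ∈ Co c r h, 0 ≤ σ * OO v x + C₁) :
    ∫ x, φ x ^ 2 * (σ * (LL (OO v) x - W221.NS.adv v (OO v) x - 2 * WW v x * JJ v x)) ≤
      (volume (Co c r h)).toReal * (4 * K * (K + C₁) + 2 * K ^ 2 + 14 * K ^ 3) := by
  obtain ⟨⟨sU, sW, sJ, sO⟩, -, -, hid⟩ := p_Alg v hv ha
  have hv' : ∀ i, ContDiff ℝ ∞ (fun y => v y i) := fun i => contDiff_pi.1 hv i
  obtain ⟨ζ, hζ⟩ : ∃ ζ : V → ℝ, ζ = fun y => φ y ^ 2 := ⟨_, rfl⟩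
  have hζs : ContDiff ℝ ∞ ζ := by rw [hζ]; exact hφ.sm.pow 2
  have hζc : HasCompactSupport ζ := by
    have e : ζ = fun y => φ y * φ y := by
      rw [hζ]
      funext y
      ring
    rw [e]
    exact hφ.cs.mul_right
  have hζ0 : ∀ x, 0 ≤ ζ x := fun x => by rw [hζ]; positivity
  have hζp : ∀ j x, pd j ζ x = 2 * φ x * pd j φ x := fun j x => by rw [hζ, sq_pd hφ.sm]
  have sO' : ContDiff ℝ ∞ (fun y => σ * OO v y) := contDiff_const.mul sO
  have hOs : ContDiff ℝ ∞ (fun y => σ * OO v y + C₁) := sO'.add contDiff_const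
  have hW2 : ContDiff ℝ ∞ (fun y => WW v y ^ 2) := sW.pow 2
  -- total derivatives
  have Z1 : Z (fun x => ∑ j, pd j (fun y => ζ y * pd j (OO v) y) x) :=
    Z.sum fun j => Z_pd (hζs.mul (sm_pd sO j)) hζc.mul_right j
  have Z1' : Z (fun x => ∑ j, pd j (fun y => OO v y * pd j ζ y) x) :=
    Z.sum fun j => Z_pd (sO.mul (sm_pd hζs j)) (cs_pd hζc j).mul_left j
  have Z2 : Z (fun x => ∑ j, pd j (fun y => ζ y * OO v y * v y j) x) :=
    Z.sum fun j => Z_pd ((hζs.mul sO).mul (hv' j)) hζc.mul_right.mul_right j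
  have Z3 : Z (pd 2 (fun y => ζ y * WW v y ^ 2)) := Z_pd (hζs.mul hW2) hζc.mul_right 2
  have hHs : ContDiff ℝ ∞ (fun y => ζ y * (σ * OO v y + C₁)) := hζs.mul hOs
  have hHc : HasCompactSupport (fun y => ζ y * (σ * OO v y + C₁)) := hζc.mul_right
  have hH := p_H0 (fun y => ζ y * (σ * OO v y + C₁)) (hHs.of_le (by norm_cast)) hHc (fun x => by
    by_cases hx : x ∈ Co c r h
    · exact mul_nonneg (hζ0 x) (hO x hx)
    · have h0 : φ x = 0 := by
        by_contra hcon
        exact hx (cut_mem hφ hcon)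
      rw [hζ]
      simp [h0])
  obtain ⟨B, hB⟩ : ∃ B : V → ℝ, B = fun x => σ * (OO v x * lap ζ x)
      - 2 * ((σ * OO v x + C₁) * (RR ζ x / sg x)) + σ * (OO v x * W221.NS.adv v ζ x)
      - σ * (WW v x ^ 2 * pd 2 ζ x) := ⟨_, rfl⟩
  have hlapc : HasCompactSupport (lap ζ) := Pool.Agent.Q175.AX.cs_of hζc fun x hx => by
    rw [lap_ev (cs_zero hx), lap_const]
  have hadvc : HasCompactSupport (W221.NS.adv v ζ) := Pool.Agent.Q175.AX.cs_of hζc fun x hx => by
    unfold W221.NS.adv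
    refine Finset.sum_eq_zero fun j _ => ?_
    rw [pd_ev (cs_zero hx), pd_const']
    simp
  have hadvs : ContDiff ℝ ∞ (W221.NS.adv v ζ) := by
    unfold W221.NS.adv
    exact ContDiff.sum fun j _ => (hv' j).mul (sm_pd hζs j)
  have hBi : Integrable B := by
    have j1 : Integrable (fun x => OO v x * lap ζ x) :=
      int_cs (sO.mul (lap_sm hζs)).continuous hlapc.mul_left
    have j2 : Integrable (fun x => (σ * OO v x + C₁) * (RR ζ x / sg x)) :=
      RRsg_int' p_H0 (hζs.of_le (by norm_cast)) hOs.continuous hζc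
    have j3 : Integrable (fun x => OO v x * W221.NS.adv v ζ x) :=
      int_cs (sO.mul hadvs).continuous hadvc.mul_left
    have j4 : Integrable (fun x => WW v x ^ 2 * pd 2 ζ x) :=
      int_cs (hW2.mul (sm_pd hζs 2)).continuous (cs_pd hζc 2).mul_left
    rw [hB]
    exact (((j1.const_mul σ).sub (j2.const_mul 2)).add (j3.const_mul σ)).sub (j4.const_mul σ)
  have key : ∀ x, φ x ^ 2 * (σ * (LL (OO v) x - W221.NS.adv v (OO v) x - 2 * WW v x * JJ v x))
      = σ * ((((∑ j, pd j (fun y => ζ y * pd j (OO v) y) x)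
        - ∑ j, pd j (fun y => OO v y * pd j ζ y) x)
        - ∑ j, pd j (fun y => ζ y * OO v y * v y j) x)
        + pd 2 (fun y => ζ y * WW v y ^ 2) x)
        + 2 * (RR (fun y => ζ y * (σ * OO v y + C₁)) x / sg x) + B x := by
    intro x
    have hJ : JJ v x = -pd 2 (WW v) x := (hid x).2.2.2.2.2.1
    have e1 : RR (fun y => ζ y * (σ * OO v y + C₁)) x
        = ζ x * (σ * RR (OO v) x) + (σ * OO v x + C₁) * RR ζ x := by
      unfold RR
      rw [pd_mulf hζs hOs, pd_mulf hζs hOs, pd_add' sO' contDiff_const,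
        pd_add' sO' contDiff_const, pd_const', pd_const', pd_mulf contDiff_const sO,
        pd_mulf contDiff_const sO, pd_const', pd_const']
      ring
    have e2 : φ x ^ 2 = ζ x := by rw [hζ]
    have hdiv : ζ x * ∑ i, pd i (fun y => v y i) x = 0 := by
      by_cases hx : x ∈ Co c r h
      · rw [hd x hx, mul_zero]
      · have h0 : φ x = 0 := by
          by_contra hcon
          exact hx (cut_mem hφ hcon)
        rw [hζ]
        simp [h0]
    rw [e1, e2, hJ, hB]
    unfold LL lap W221.NS.adv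
    simp only [Fin.sum_univ_three] at hdiv ⊢
    simp only [pd_mulf hζs (sm_pd sO _), pd_mulf sO (sm_pd hζs _), pd_mulf (hζs.mul sO) (hv' _),
      pd_mulf hζs sO, pd_mulf hζs hW2, sq_pd sW]
    linear_combination (σ * OO v x) * hdiv
  have hZ := (((Z1.sub Z1').sub Z2).add Z3).smul σ
  have J1 := hZ.1.add (hH.1.const_mul 2)
  rw [integral_congr_ae (Eventually.of_forall key)]
  have E1 := integral_add J1 hBi
  have E2 := integral_add hZ.1 (hH.1.const_mul 2)
  simp only [Pi.add_apply] at E1 E2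
  rw [E1, E2, hZ.2, integral_const_mul]
  have hBb : ∀ x, B x ≤ (Co c r h).indicator
      (fun _ : V => 4 * K * (K + C₁) + 2 * K ^ 2 + 14 * K ^ 3) x := by
    intro x
    rcases cut_dich hφ x with ⟨ho, hc⟩ | ⟨k, hk⟩
    · rw [indicator_of_mem hc]
      obtain ⟨b1, b2, b3, b4, b5, b6⟩ := hb x ho
      obtain ⟨c1, c2, c3⟩ := hφ.bd x
      have hφ1 : |φ x| ≤ 1 := by
        rw [abs_of_nonneg (hφ.nn x)]
        exact hφ.le x
      have hlap : lap ζ x = 2 * (φ x * lap φ x) + 2 * gr2 φ x := by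
        have e : ζ = fun y => φ y * φ y := by
          rw [hζ]
          funext y
          ring
        rw [e, Pool.Agent.Q175.AX.lap_mul hφ.sm hφ.sm]
        unfold gr2
        simp only [Fin.sum_univ_three]
        ring
      have hgr : gr2 φ x ≤ 3 * K ^ 2 := by
        unfold gr2
        rw [Fin.sum_univ_three]
        have hq : ∀ i, pd i φ x ^ 2 ≤ K ^ 2 := fun i => sq_le_sq' (by
          linarith [(abs_le.1 (c1 i)).1]) (abs_le.1 (c1 i)).2
        linarith [hq 0, hq 1, hq 2]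
      have hgr0 : 0 ≤ gr2 φ x := by unfold gr2; positivity
      have t1 : |σ * (OO v x * lap ζ x)| ≤ K * (2 * K + 6 * K ^ 2) := by
        rw [abs_mul, hσ, one_mul, abs_mul]
        refine mul_le_mul b5 ?_ (abs_nonneg _) hK
        rw [hlap]
        have : |φ x * lap φ x| ≤ 1 * K := by
          rw [abs_mul]
          exact mul_le_mul hφ1 c2 (abs_nonneg _) zero_le_one
        have h3 := abs_le.1 this
        rw [abs_le]
        constructor <;> linarith [h3.1, h3.2]
      have hRζ : |RR ζ x / sg x| ≤ 2 * K := by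
        have e : RR ζ x = 2 * φ x * RR φ x := by
          unfold RR
          rw [hζp, hζp]
          ring
        rw [e]
        by_cases hs : sg x = 0
        · rw [hs, div_zero, abs_zero]
          positivity
        · have hsp : 0 < sg x := lt_of_le_of_ne (sg_nn x) (Ne.symm hs)
          rw [abs_div, abs_of_pos hsp, div_le_iff₀ hsp, abs_mul, abs_mul, abs_two]
          calc 2 * |φ x| * |RR φ x| ≤ 2 * 1 * (K * sg x) := by gcongr
            _ = 2 * K * sg x := by ring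
      have t2 : |(σ * OO v x + C₁) * (RR ζ x / sg x)| ≤ (K + C₁) * (2 * K) := by
        rw [abs_mul]
        refine mul_le_mul ?_ hRζ (abs_nonneg _) (by positivity)
        calc |σ * OO v x + C₁| ≤ |σ * OO v x| + |C₁| := abs_add_le _ _
          _ ≤ K + C₁ := by rw [abs_of_nonneg hC, abs_mul, hσ, one_mul]; linarith
      have hp : ∀ j, |pd j ζ x| ≤ 2 * K := by
        intro j
        rw [hζp, abs_mul, abs_mul, abs_two]
        calc 2 * |φ x| * |pd j φ x| ≤ 2 * 1 * K := by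
              gcongr
              exact c1 j
          _ = 2 * K := by ring
      have t3 : |σ * (OO v x * W221.NS.adv v ζ x)| ≤ K * (6 * K ^ 2) := by
        rw [abs_mul, hσ, one_mul, abs_mul]
        refine mul_le_mul b5 ?_ (abs_nonneg _) hK
        unfold W221.NS.adv
        rw [Fin.sum_univ_three]
        have hq : ∀ j, |v x j * pd j ζ x| ≤ K * (2 * K) := fun j => by
          rw [abs_mul]
          exact mul_le_mul (b1 j) (hp j) (abs_nonneg _) hK
        have q0 := abs_le.1 (hq 0)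
        have q1 := abs_le.1 (hq 1)
        have q2 := abs_le.1 (hq 2)
        rw [abs_le]
        constructor <;> nlinarith [q0.1, q0.2, q1.1, q1.2, q2.1, q2.2]
      have t4 : |σ * (WW v x ^ 2 * pd 2 ζ x)| ≤ K ^ 2 * (2 * K) := by
        rw [abs_mul, hσ, one_mul, abs_mul, abs_pow]
        exact mul_le_mul (pow_le_pow_left₀ (abs_nonneg _) b3 2) (hp 2) (abs_nonneg _)
          (by positivity)
      rw [hB]
      beta_reduce
      have g1 := (abs_le.1 t1).2
      have g2 := (abs_le.1 t2).1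
      have g3 := (abs_le.1 t3).2
      have g4 := (abs_le.1 t4).1
      nlinarith [g1, g2, g3, g4]
    · have hk' : ζ =ᶠ[𝓝 x] fun _ => k ^ 2 := by
        filter_upwards [hk] with y hy
        rw [hζ]
        beta_reduce
        rw [hy]
      obtain ⟨a1, a2, a3⟩ := const_pd hk'
      have : B x = 0 := by
        rw [hB]
        unfold W221.NS.adv
        simp [a1, a2, a3]
      rw [this]
      exact indicator_nonneg (fun _ _ => by positivity) _
  have h6 : ∫ x, B x ≤ (volume (Co c r h)).toReal * (4 * K * (K + C₁) + 2 * K ^ 2 + 14 * K ^ 3) := by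
    rw [← ind_val]
    exact integral_mono hBi (ind_int hr _) hBb
  have h7 := hH.2
  linarith

/-- The bound of the integral. -/
theorem l1 {T E R H T₁ : ℝ} {u : ℝ → V → V} {p : ℝ → V → ℝ} (hsol : AxL T E c R H u p)
    (hK : 0 ≤ K) (hC : 0 ≤ C₁) (hr : 0 < r) (hrR : r < R) (hhH : h < H) (hT₁ : 0 < T₁)
    (hσ : |σ| = 1)
    (hφ : Cut c r h r1 h1 K φ) (hb : ∀ t ∈ Ico T₁ T, ∀ x ∈ Out c r h r1 h1, BdA K (u t) x)
    (hO : ∀ t ∈ Ico T₁ T, ∀ x ∈ Co c r h, 0 ≤ σ * OO (u t) x + C₁) :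
    ∃ M : ℝ, ∀ t ∈ Ico T₁ T, ∫ x, φ x ^ 2 * |OO (u t) x| ≤ M := by
  have hsub : Co c r h ⊆ Co c R H := Pool.Agent.Q285.AXI.co_mono hr hrR hhH
  obtain ⟨-, -, -, jO⟩ := p_Jnt T u hsol.smooth_u
  have jO1 : ContDiffOn ℝ ∞ (fun z : ℝ × V => OO (u z.1) z.2 + 1) (Ioo 0 T ×ˢ univ) :=
    jO.add contDiffOn_const
  have hI : ∀ t ∈ Ico T₁ T, t ∈ Ioo 0 T := fun t ht => ⟨hT₁.trans_le ht.1, ht.2⟩
  obtain ⟨-, hD1⟩ := p_Dt T (fun t => OO (u t)) φ jO hφ.sm hφ.cs
  obtain ⟨-, hD2⟩ := p_Dt T (fun t x => OO (u t) x + 1) φ jO1 hφ.sm hφ.cs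
  have hφ2c : HasCompactSupport (fun y => φ y ^ 2) := by
    have e : (fun y => φ y ^ 2) = fun y => φ y * φ y := by
      funext y
      ring
    rw [e]
    exact hφ.cs.mul_right
  have hφ2 : Continuous (fun y => φ y ^ 2) := hφ.sm.continuous.pow 2
  have hOs : ∀ t ∈ Ioo 0 T, ContDiff ℝ ∞ (OO (u t)) := fun t ht =>
    (p_Alg (u t) (Pool.Agent.Q285.AXI.slice hsol.smooth_u ht) (hsol.axi t ht)).1.2.2.2
  obtain ⟨Y, hY⟩ : ∃ Y : ℝ → ℝ, Y = fun t => ∫ x, φ x ^ 2 * OO (u t) x := ⟨_, rfl⟩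
  have hYe : ∀ t ∈ Ioo 0 T, Y t = ((∫ x, φ x ^ 2 * (OO (u t) x + 1) ^ 2)
      - (∫ x, φ x ^ 2 * OO (u t) x ^ 2) - ∫ x, φ x ^ 2) / 2 := by
    intro t ht
    have hc := (hOs t ht).continuous
    have i1 : Integrable (fun x => φ x ^ 2 * (OO (u t) x + 1) ^ 2) :=
      int_cs (hφ2.mul ((hc.add continuous_const).pow 2)) hφ2c.mul_right
    have i2 : Integrable (fun x => φ x ^ 2 * OO (u t) x ^ 2) :=
      int_cs (hφ2.mul (hc.pow 2)) hφ2c.mul_right
    have i3 : Integrable (fun x => φ x ^ 2) := int_cs hφ2 hφ2c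
    have e1 := integral_sub (i1.sub i2) i3
    simp only [Pi.sub_apply] at e1
    rw [integral_sub i1 i2] at e1
    rw [hY, ← e1, ← integral_div]
    refine integral_congr_ae (Eventually.of_forall fun x => ?_)
    beta_reduce
    ring
  have hder : ∀ t ∈ Ioo 0 T, HasDerivAt Y
      (∫ x, φ x ^ 2 * deriv (fun s => OO (u s) x) t) t := by
    intro t ht
    have e1 := ((hD2 t ht).sub (hD1 t ht)).sub (hasDerivAt_const t (∫ x, φ x ^ 2))
    have e2 := (e1.div_const 2).congr_of_eventuallyEq (f₁ := Y) (by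
      filter_upwards [isOpen_Ioo.mem_nhds ht] with s hs
      rw [hYe s hs]
      rfl)
    refine e2.congr_deriv ?_
    have hds : ∀ x, deriv (fun s => OO (u s) x + 1) t = deriv (fun s => OO (u s) x) t := fun x =>
      deriv_add_const _
    simp only [hds]
    have hcd : Continuous (fun x => deriv (fun s => OO (u s) x) t) := by
      have h1 : ContDiffOn ℝ ∞ (fun z : ℝ × V => OO (u z.1) z.2) (Ioo 0 T ×ˢ univ) := jO
      have hopen : IsOpen (Ioo (0 : ℝ) T ×ˢ (univ : Set V)) := isOpen_Ioo.prod isOpen_univ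
      have h2 : ContinuousOn (fderiv ℝ (fun z : ℝ × V => OO (u z.1) z.2))
          (Ioo 0 T ×ˢ univ) := h1.continuousOn_fderiv_of_isOpen hopen (by norm_num)
      have h3 : ∀ x, deriv (fun s => OO (u s) x) t =
          fderiv ℝ (fun z : ℝ × V => OO (u z.1) z.2) (t, x) ((1 : ℝ), (0 : V)) := by
        intro x
        have hm : ((t, x) : ℝ × V) ∈ Ioo (0 : ℝ) T ×ˢ (univ : Set V) := ⟨ht, mem_univ _⟩
        have h4 : HasFDerivAt (fun z : ℝ × V => OO (u z.1) z.2) _ (t, x) :=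
          ((h1.contDiffAt (hopen.mem_nhds hm)).differentiableAt (by norm_num)).hasFDerivAt
        have h5 : HasDerivAt (fun s : ℝ => ((s, x) : ℝ × V)) ((1 : ℝ), (0 : V)) t :=
          (hasDerivAt_id t).prodMk (hasDerivAt_const t x)
        exact (h4.comp_hasDerivAt t h5).deriv
      simp only [h3]
      have h6 : Continuous (fun x : V => fderiv ℝ (fun z : ℝ × V => OO (u z.1) z.2) (t, x)) :=
        h2.comp_continuous (by fun_prop) fun x => ⟨ht, mem_univ _⟩
      exact h6.clm_apply continuous_const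
    have hc := (hOs t ht).continuous
    have i1 : Integrable (fun x => 2 * φ x ^ 2 * (OO (u t) x + 1)
        * deriv (fun s => OO (u s) x) t) := by
      refine int_cs (((continuous_const.mul hφ2).mul (hc.add continuous_const)).mul hcd) ?_
      exact (hφ2c.mul_left.mul_right).mul_right
    have i2 : Integrable (fun x => 2 * φ x ^ 2 * OO (u t) x
        * deriv (fun s => OO (u s) x) t) := by
      refine int_cs (((continuous_const.mul hφ2).mul hc).mul hcd) ?_
      exact (hφ2c.mul_left.mul_right).mul_right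
    rw [sub_zero, ← integral_sub i1 i2, ← integral_div]
    refine integral_congr_ae (Eventually.of_forall fun x => ?_)
    beta_reduce
    ring
  obtain ⟨K₄, hK₄⟩ : ∃ K₄ : ℝ, K₄ = (volume (Co c r h)).toReal
      * (4 * K * (K + C₁) + 2 * K ^ 2 + 14 * K ^ 3) := ⟨_, rfl⟩
  have hK₄0 : 0 ≤ K₄ := by rw [hK₄]; positivity
  have hdle : ∀ t ∈ Ico T₁ T, σ * ∫ x, φ x ^ 2 * deriv (fun s => OO (u s) x) t ≤ K₄ := by
    intro t ht
    have h1 := l1_en (Pool.Agent.Q285.AXI.slice hsol.smooth_u (hI t ht)) (hsol.axi t (hI t ht))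
      (fun x hx => hsol.divfree t (hI t ht) x (hsub hx)) hK hC hr.le hσ hφ (hb t ht) (hO t ht)
    rw [← hK₄] at h1
    refine le_of_eq_of_le ?_ h1
    rw [← integral_const_mul]
    refine integral_congr_ae ?_
    filter_upwards [Pool.Agent.Q175.AX.axis_ae] with x hx
    by_cases hxC : x ∈ Co c r h
    · rw [(p_EqO T E c R H u p hsol t (hI t ht) x (hsub hxC) hx).deriv]
      ring
    · have h0 : φ x = 0 := by
        by_contra hcon
        exact hxC (cut_mem hφ hcon)
      simp [h0]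
  have hYb : ∀ t ∈ Ico T₁ T, σ * Y t ≤ σ * Y T₁ + K₄ * (T - T₁) := by
    intro t ht
    have hsubI : Icc T₁ t ⊆ Ico T₁ T := fun s hs => ⟨hs.1, hs.2.trans_lt ht.2⟩
    have h1 := Convex.image_sub_le_mul_sub_of_deriv_le (convex_Icc T₁ t) (f := fun t => σ * Y t)
      (fun s hs => ((hder s (hI s (hsubI hs))).const_mul σ).continuousAt.continuousWithinAt)
      (fun s hs => ((hder s (hI s (hsubI (interior_subset hs)))).const_mul
        σ).differentiableAt.differentiableWithinAt)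
      (C := K₄) (fun s hs => by
        rw [((hder s (hI s (hsubI (interior_subset hs)))).const_mul σ).deriv]
        exact hdle s (hsubI (interior_subset hs))) T₁ ⟨le_rfl, ht.1⟩ t ⟨ht.1, le_rfl⟩ ht.1
    have h2 : K₄ * (t - T₁) ≤ K₄ * (T - T₁) := mul_le_mul_of_nonneg_left (by linarith [ht.2]) hK₄0
    linarith
  refine ⟨σ * Y T₁ + K₄ * (T - T₁) + 2 * C₁ * ∫ x, φ x ^ 2, fun t ht => ?_⟩
  have hc := (hOs t (hI t ht)).continuous
  have i1 : Integrable (fun x => φ x ^ 2 * OO (u t) x) := int_cs (hφ2.mul hc) hφ2c.mul_right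
  have i2 : Integrable (fun x => φ x ^ 2 * |OO (u t) x|) := int_cs (hφ2.mul hc.abs) hφ2c.mul_right
  have i3 : Integrable (fun x => φ x ^ 2) := int_cs hφ2 hφ2c
  have h1 : ∫ x, φ x ^ 2 * |OO (u t) x| ≤ ∫ x, (σ * (φ x ^ 2 * OO (u t) x)
      + 2 * C₁ * φ x ^ 2) := by
    refine integral_mono i2 ((i1.const_mul σ).add (i3.const_mul _)) fun x => ?_
    beta_reduce
    by_cases hxC : x ∈ Co c r h
    · have h2 := hO t ht x hxC
      have h3 : |OO (u t) x| ≤ σ * OO (u t) x + 2 * C₁ := by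
        have h5 : |OO (u t) x| = |σ * OO (u t) x| := by rw [abs_mul, hσ, one_mul]
        rw [h5, abs_le]
        constructor <;> linarith
      have h4 := mul_le_mul_of_nonneg_left h3 (sq_nonneg (φ x))
      linarith
    · have h0 : φ x = 0 := by
        by_contra hcon
        exact hxC (cut_mem hφ hcon)
      simp [h0]
  rw [integral_add (i1.const_mul σ) (i3.const_mul _), integral_const_mul, integral_const_mul] at h1
  have h2 := hYb t ht
  have h3 : Y t = ∫ x, φ x ^ 2 * OO (u t) x := by rw [hY]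
  rw [h3] at h2
  linarith

end Pool.Agent.V8H53.OW
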