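import Pool.Agent.V8H53.OW.L1g

/-!
Project OW: the bound of `∫ |ω_θ / ρ|` if the production of `ω_θ / ρ` of one sign is finite.
-/

set_option autoImplicit false

open MeasureTheory Set Metric Filter Topology
open scoped ContDiff
open H459R3.NS Pool.Agent.W268.NS Pool.Agent.Q67.VD

namespace Pool.Agent.V8H53.OW

open Pool.Agent.Q85.CC Pool.Agent.Q85.CL Pool.Agent.TH305.AX
open Pool.Agent.Q67.AXI
open Pool.Agent.W583.MD (sm_pd cs_pd pd_mul' Z Z.add Z.sub Z.smul Z.sum int_cs Z_pd)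
open Pool.Agent.TH305.DR (pd_add' pd_sub' pd_neg' pd_cmul pd_const')
open Pool.Agent.V8Lead (p_AAs p_Alg p_AxF p_H0 p_Dt p_Jnt p_EqO)
open Pool.Agent.Q175.AX (Co_open Cy_compact Co_meas Co_fin ind_int ind_val cut_dich const_pd cut_out
  cut_mem Co_sub_Cy LL_mul LL_meas sq_pd RRsg_int RRsg_int' cs_zero lap_sm gr2_sm sg_nn RR_ev
  RR_const lap_ev lap_const pd_ev pd_comp_at gr2_nn)

variable {v : V → V} {φ : V → ℝ} {c r h r1 h1 K C₁ σ : ℝ}

/-- The operators for `g0 (-(σ O + C))`. -/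
lemma ops_P {O : V → ℝ} (hO : ContDiff ℝ ∞ O) (σ C : ℝ) :
    ContDiff ℝ ∞ (fun y => g0 (-(σ * O y + C))) ∧
    (∀ j, pd j (fun y => g0 (-(σ * O y + C))) = fun y => -(g1 (-(σ * O y + C)) * (σ * pd j O y))) ∧
    ∀ x, LL (fun y => g0 (-(σ * O y + C))) x = g2 (-(σ * O x + C)) * (σ ^ 2 * gr2 O x)
      - g1 (-(σ * O x + C)) * (σ * LL O x) := by
  have hq : ContDiff ℝ ∞ (fun y => -(σ * O y + C)) :=
    ((contDiff_const.mul hO).add contDiff_const).neg
  have hqp : ∀ j x, pd j (fun y => -(σ * O y + C)) x = -(σ * pd j O x) := by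
    intro j x
    have e : (fun y => -(σ * O y + C)) = fun y => (fun _ => -σ) y * O y + (fun _ => -C) y := by
      funext y
      ring
    rw [e, pd_add' (contDiff_const.mul hO) contDiff_const, pd_mulf contDiff_const hO, pd_const',
      pd_const']
    ring
  have hp : ∀ j, pd j (fun y => g0 (-(σ * O y + C)))
      = fun y => -(g1 (-(σ * O y + C)) * (σ * pd j O y)) := by
    intro j
    funext x
    rw [pd_comp_at (g0_hd _) ((hq.differentiable (by simp)) x), hqp]
    ring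
  have h1s : ContDiff ℝ ∞ (fun y => g1 (-(σ * O y + C))) := g1_cd.comp hq
  have hpp : ∀ j x, pd j (fun y => -(g1 (-(σ * O y + C)) * (σ * pd j O y))) x
      = g2 (-(σ * O x + C)) * (σ ^ 2 * pd j O x ^ 2)
        - g1 (-(σ * O x + C)) * (σ * pd j (pd j O) x) := by
    intro j x
    have e : (fun y => -(g1 (-(σ * O y + C)) * (σ * pd j O y)))
        = fun y => (fun y => g1 (-(σ * O y + C))) y * ((fun _ => -σ) y * pd j O y) := by
      funext y
      ring
    have e1 := pd_comp_at (g1_hd (-(σ * O x + C))) ((hq.differentiable (by simp)) x) j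
    rw [e, pd_mulf h1s (contDiff_const.mul (sm_pd hO j)), pd_mulf contDiff_const (sm_pd hO j),
      pd_const']
    beta_reduce
    rw [e1, hqp]
    ring
  refine ⟨g0_cd.comp hq, hp, fun x => ?_⟩
  unfold LL lap RR gr2
  simp only [Fin.sum_univ_three, hp, hpp]
  ring

/-- The bound of the integral. -/
theorem l1P {T E R H T₁ : ℝ} {u : ℝ → V → V} {p : ℝ → V → ℝ} (hsol : AxL T E c R H u p)
    (hK : 0 ≤ K) (hr : 0 < r) (hrR : r < R) (hhH : h < H) (hT₁ : 0 < T₁)
    (hσ : |σ| = 1)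
    (hφ : Cut c r h r1 h1 K φ) (hb : ∀ t ∈ Ico T₁ T, ∀ x ∈ Out c r h r1 h1, BdA K (u t) x)
    (hprod : ∫⁻ t in Ioo T₁ T, ∫⁻ x in {x | x ∈ Co c r h ∧ σ * OO (u t) x < -C₁},
      ENNReal.ofReal (σ * (2 * WW (u t) x * JJ (u t) x)) < ⊤) :
    ∃ M : ℝ, ∀ t ∈ Ico T₁ T, ∫ x, φ x ^ 2 * |OO (u t) x| ≤ M := by
  have hsub : Co c r h ⊆ Co c R H := Pool.Agent.Q285.AXI.co_mono hr hrR hhH
  have hσ2 : σ ^ 2 = 1 := by rw [← sq_abs, hσ, one_pow]
  obtain ⟨-, jW, jJ, jO⟩ := p_Jnt T u hsol.smooth_u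
  have hI : ∀ t ∈ Ico T₁ T, t ∈ Ioo 0 T := fun t ht => ⟨hT₁.trans_le ht.1, ht.2⟩
  have hφ2c : HasCompactSupport (fun y => φ y ^ 2) := by
    have e : (fun y => φ y ^ 2) = fun y => φ y * φ y := by
      funext y
      ring
    rw [e]
    exact hφ.cs.mul_right
  have hφ2 : Continuous (fun y => φ y ^ 2) := hφ.sm.continuous.pow 2
  have hus : ∀ t ∈ Ioo 0 T, ContDiff ℝ ∞ (u t) := fun t ht =>
    Pool.Agent.Q285.AXI.slice hsol.smooth_u ht
  have hAs : ∀ t ∈ Ioo 0 T, ContDiff ℝ ∞ (UU (u t)) ∧ ContDiff ℝ ∞ (WW (u t)) ∧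
      ContDiff ℝ ∞ (JJ (u t)) ∧ ContDiff ℝ ∞ (OO (u t)) := fun t ht =>
    (p_Alg (u t) (hus t ht) (hsol.axi t ht)).1
  -- the two functions
  obtain ⟨P, hP⟩ : ∃ P : ℝ → V → ℝ, P = fun t x => g0 (-(σ * OO (u t) x + C₁)) := ⟨_, rfl⟩
  obtain ⟨Q, hQ⟩ : ∃ Q : ℝ → V → ℝ, Q = fun t x => (σ * OO (u t) x + C₁) + P t x + 1 := ⟨_, rfl⟩
  have jq : ContDiffOn ℝ ∞ (fun z : ℝ × V => σ * OO (u z.1) z.2 + C₁) (Ioo 0 T ×ˢ univ) :=
    (contDiffOn_const.mul jO).add contDiffOn_const
  have jP : ContDiffOn ℝ ∞ (fun z : ℝ × V => P z.1 z.2) (Ioo 0 T ×ˢ univ) := by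
    rw [hP]
    exact g0_cd.comp_contDiffOn jq.neg
  have jQ : ContDiffOn ℝ ∞ (fun z : ℝ × V => Q z.1 z.2) (Ioo 0 T ×ˢ univ) := by
    rw [hQ]
    exact (jq.add jP).add contDiffOn_const
  -- the production
  obtain ⟨D, hD⟩ : ∃ D : ℝ → V → ℝ, D = fun t x => φ x ^ 2 * (g1 (-(σ * OO (u t) x + C₁))
    * (σ * (2 * WW (u t) x * JJ (u t) x))) := ⟨_, rfl⟩
  have hDc : ContinuousOn (fun z : ℝ × V => D z.1 z.2) (Ioo 0 T ×ˢ univ) := by
    rw [hD]
    have e1 : ContinuousOn (fun z : ℝ × V => φ z.2 ^ 2) (Ioo 0 T ×ˢ univ) :=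
      (hφ2.comp continuous_snd).continuousOn
    have e2 : ContinuousOn (fun z : ℝ × V => g1 (-(σ * OO (u z.1) z.2 + C₁)))
        (Ioo 0 T ×ˢ univ) := g1_cd.continuous.comp_continuousOn jq.continuousOn.neg
    exact e1.mul (e2.mul (continuousOn_const.mul ((continuousOn_const.mul jW.continuousOn).mul
      jJ.continuousOn)))
  have hDt : ∀ t ∈ Ioo 0 T, Continuous (D t) := fun t ht =>
    hDc.comp_continuous (f := fun x : V => ((t, x) : ℝ × V)) (by fun_prop)
      fun x => ⟨ht, mem_univ _⟩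
  have hDs : ∀ t, HasCompactSupport (D t) := fun t => by
    rw [hD]
    exact hφ2c.mul_right
  obtain ⟨pr, hpr⟩ : ∃ pr : ℝ → ℝ, pr = fun t => ∫ x, D t x := ⟨_, rfl⟩
  have hprc : ContinuousOn pr (Ioo 0 T) := by
    rw [hpr]
    refine continuousOn_integral_of_compact_support (k := tsupport φ) hφ.cs hDc
      fun t x ht hx => ?_
    rw [hD]
    beta_reduce
    rw [image_eq_zero_of_notMem_tsupport hx]
    ring
  -- bounds on the outer part
  obtain ⟨KP, hKP⟩ : ∃ KP : ℝ, KP = 2 * (K + |C₁|) + 1 := ⟨_, rfl⟩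
  have hKP0 : 0 ≤ KP := by rw [hKP]; positivity
  have hq_out : ∀ t ∈ Ico T₁ T, ∀ x ∈ Out c r h r1 h1, |σ * OO (u t) x + C₁| ≤ K + |C₁| := by
    intro t ht x hx
    have h5 := (hb t ht x hx).2.2.2.2.1
    calc |σ * OO (u t) x + C₁| ≤ |σ * OO (u t) x| + |C₁| := abs_add_le _ _
      _ ≤ K + |C₁| := by rw [abs_mul, hσ, one_mul]; linarith
  have hP0 : ∀ t x, 0 ≤ P t x := fun t x => by rw [hP]; exact g0_nn _
  have hQ0 : ∀ t x, 0 ≤ Q t x := fun t x => by
    rw [hQ, hP]
    have := g0_ge (-(σ * OO (u t) x + C₁))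
    beta_reduce
    linarith
  have hPb : ∀ t ∈ Ico T₁ T, ∀ x ∈ Out c r h r1 h1, P t x ≤ KP := by
    intro t ht x hx
    have h1 := hq_out t ht x hx
    have h2 := g0_le (-(σ * OO (u t) x + C₁))
    rw [abs_neg] at h2
    rw [hP, hKP]
    beta_reduce
    have := abs_nonneg C₁
    linarith
  have hQb : ∀ t ∈ Ico T₁ T, ∀ x ∈ Out c r h r1 h1, Q t x ≤ KP := by
    intro t ht x hx
    have h1 := hq_out t ht x hx
    have h2 := g0_le (-(σ * OO (u t) x + C₁))
    rw [abs_neg] at h2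
    have h3 := le_abs_self (σ * OO (u t) x + C₁)
    rw [hQ, hP, hKP]
    beta_reduce
    linarith
  -- the source of `Q`
  obtain ⟨vol, hvol⟩ : ∃ vol : ℝ, vol = (volume (Co c r h)).toReal := ⟨_, rfl⟩
  have hvol0 : 0 ≤ vol := by rw [hvol]; exact ENNReal.toReal_nonneg
  have hsrc : ∀ t ∈ Ico T₁ T, Integrable (fun x => φ x ^ 2 * -(σ * (2 * WW (u t) x * JJ (u t) x))) ∧
      ∫ x, φ x ^ 2 * -(σ * (2 * WW (u t) x * JJ (u t) x)) ≤ vol * (2 * K ^ 3) := by
    intro t ht
    obtain ⟨-, sW, sJ, -⟩ := hAs t (hI t ht)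
    have hi : Integrable (fun x => φ x ^ 2 * -(σ * (2 * WW (u t) x * JJ (u t) x))) := by
      refine int_cs ?_ hφ2c.mul_right
      exact hφ2.mul ((continuous_const.mul ((continuous_const.mul sW.continuous).mul
        sJ.continuous)).neg)
    refine ⟨hi, ?_⟩
    obtain ⟨ζ, hζ⟩ : ∃ ζ : V → ℝ, ζ = fun y => φ y ^ 2 := ⟨_, rfl⟩
    have hζs : ContDiff ℝ ∞ ζ := by rw [hζ]; exact hφ.sm.pow 2
    have hζc : HasCompactSupport ζ := by rw [hζ]; exact hφ2c
    have hW2 : ContDiff ℝ ∞ (fun y => WW (u t) y ^ 2) := sW.pow 2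
    have Z3 := (Z_pd (hζs.mul hW2) hζc.mul_right 2).smul σ
    obtain ⟨-, -, -, hid⟩ := p_Alg (u t) (hus t (hI t ht)) (hsol.axi t (hI t ht))
    have iB : Integrable (fun x => -(σ * (WW (u t) x ^ 2 * pd 2 ζ x))) :=
      ((int_cs (hW2.mul (sm_pd hζs 2)).continuous (cs_pd hζc 2).mul_left).const_mul σ).neg
    have key : ∀ x, φ x ^ 2 * -(σ * (2 * WW (u t) x * JJ (u t) x))
        = σ * pd 2 (fun y => ζ y * WW (u t) y ^ 2) x + -(σ * (WW (u t) x ^ 2 * pd 2 ζ x)) := by
      intro x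
      have e2 : φ x ^ 2 = ζ x := by rw [hζ]
      rw [pd_mulf hζs hW2, sq_pd sW, (hid x).2.2.2.2.2.1, e2]
      ring
    rw [integral_congr_ae (Eventually.of_forall key), integral_add Z3.1 iB, Z3.2, zero_add,
      hvol, ← ind_val]
    refine integral_mono iB (ind_int hr.le _) fun x => ?_
    beta_reduce
    rcases cut_dich hφ x with ⟨ho, hc⟩ | ⟨k, hk⟩
    · rw [indicator_of_mem hc]
      obtain ⟨b1, b2, b3, b4, b5, b6⟩ := hb t ht x ho
      obtain ⟨c1, c2, c3⟩ := hφ.bd x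
      have hp : |pd 2 ζ x| ≤ 2 * K := by
        rw [hζ, sq_pd hφ.sm]
        rw [abs_mul, abs_mul, abs_two, abs_of_nonneg (hφ.nn x)]
        calc 2 * φ x * |pd 2 φ x| ≤ 2 * 1 * K := by
              gcongr
              · exact hφ.le x
              · exact c1 2
          _ = 2 * K := by ring
      have t4 : |σ * (WW (u t) x ^ 2 * pd 2 ζ x)| ≤ K ^ 2 * (2 * K) := by
        rw [abs_mul, hσ, one_mul, abs_mul, abs_pow]
        exact mul_le_mul (pow_le_pow_left₀ (abs_nonneg _) b3 2) hp (abs_nonneg _)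
          (by positivity)
      have := (abs_le.1 t4).1
      nlinarith
    · have hk' : ζ =ᶠ[𝓝 x] fun _ => k ^ 2 := by
        filter_upwards [hk] with y hy
        rw [hζ]
        beta_reduce
        rw [hy]
      obtain ⟨a1, a2, a3⟩ := const_pd hk'
      rw [a1 2, mul_zero, mul_zero, neg_zero]
      exact indicator_nonneg (fun _ _ => by positivity) _
  -- the derivatives
  have hdO : ∀ t ∈ Ioo 0 T, ∀ x, DifferentiableAt ℝ (fun s => OO (u s) x) t := by
    intro t ht x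
    have hopen : IsOpen (Ioo (0 : ℝ) T ×ˢ (univ : Set V)) := isOpen_Ioo.prod isOpen_univ
    have hm : ((t, x) : ℝ × V) ∈ Ioo (0 : ℝ) T ×ˢ (univ : Set V) := ⟨ht, mem_univ _⟩
    have h4 : HasFDerivAt (fun z : ℝ × V => OO (u z.1) z.2) _ (t, x) :=
      ((jO.contDiffAt (hopen.mem_nhds hm)).differentiableAt (by norm_num)).hasFDerivAt
    have h5 : HasDerivAt (fun s : ℝ => ((s, x) : ℝ × V)) ((1 : ℝ), (0 : V)) t :=
      (hasDerivAt_id t).prodMk (hasDerivAt_const t x)
    exact (h4.comp_hasDerivAt t h5).differentiableAt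
  have hdP : ∀ t ∈ Ioo 0 T, ∀ x, HasDerivAt (fun s => P s x)
      (-(g1 (-(σ * OO (u t) x + C₁)) * (σ * deriv (fun s => OO (u s) x) t))) t := by
    intro t ht x
    rw [hP]
    have h5 : HasDerivAt (fun s => -(σ * OO (u s) x + C₁))
        (-(σ * deriv (fun s => OO (u s) x) t)) t :=
      (((hdO t ht x).hasDerivAt.const_mul σ).add_const C₁).neg
    have h6 := HasDerivAt.comp t (h₂ := g0) (g0_hd (-(σ * OO (u t) x + C₁))) h5
    refine h6.congr_deriv ?_
    ring
  have hdQ : ∀ t ∈ Ioo 0 T, ∀ x, HasDerivAt (fun s => Q s x)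
      (σ * deriv (fun s => OO (u s) x) t
        + -(g1 (-(σ * OO (u t) x + C₁)) * (σ * deriv (fun s => OO (u s) x) t))) t := by
    intro t ht x
    rw [hQ]
    exact ((((hdO t ht x).hasDerivAt.const_mul σ).add_const C₁).add (hdP t ht x)).add_const 1
  have hDi : ∀ t ∈ Ioo 0 T, Integrable (D t) := fun t ht => int_cs (hDt t ht) (hDs t)
  obtain ⟨K₅, hK₅⟩ : ∃ K₅ : ℝ, K₅ = vol * (KP * (6 * K + 12 * K ^ 2)) + vol * (2 * K ^ 3) :=
    ⟨_, rfl⟩
  have hder : ∀ t ∈ Ico T₁ T, (∫ x, φ x ^ 2 * deriv (fun s => P s x) t ≤ K₅ + pr t) ∧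
      ∫ x, φ x ^ 2 * deriv (fun s => Q s x) t ≤ K₅ + pr t := by
    intro t ht
    have htI := hI t ht
    obtain ⟨-, sW, sJ, sO⟩ := hAs t htI
    obtain ⟨oP1, oP2, oP3⟩ := ops_P sO σ C₁
    have hdf : DFO (Co c r h) (u t) := fun x hx => hsol.divfree t htI x (hsub hx)
    have hPt : P t = fun y => g0 (-(σ * OO (u t) y + C₁)) := by rw [hP]
    have hQt : Q t = fun y => (σ * OO (u t) y + C₁) + g0 (-(σ * OO (u t) y + C₁)) + 1 := by
      rw [hQ, hP]
    have sP : ContDiff ℝ ∞ (P t) := by rw [hPt]; exact oP1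
    have sq : ContDiff ℝ ∞ (fun y => σ * OO (u t) y + C₁) :=
      (contDiff_const.mul sO).add contDiff_const
    have sQ : ContDiff ℝ ∞ (Q t) := by rw [hQt]; exact (sq.add oP1).add contDiff_const
    have hprt : pr t = ∫ x, D t x := by rw [hpr]
    obtain ⟨iP, bP⟩ := sub_en (hus t htI) hdf hK hKP0 hr.le hφ (hb t ht) sP (hP0 t)
      (hPb t ht)
    obtain ⟨iQ, bQ⟩ := sub_en (hus t htI) hdf hK hKP0 hr.le hφ (hb t ht) sQ (hQ0 t)
      (hQb t ht)
    rw [← hvol] at bP bQ
    obtain ⟨iS, bS⟩ := hsrc t ht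
    have hvK : 0 ≤ vol * (2 * K ^ 3) := by positivity
    -- the operators for `Q`
    have hqp : ∀ j, pd j (fun y => σ * OO (u t) y + C₁) = fun y => σ * pd j (OO (u t)) y := by
      intro j
      rw [pd_add' (contDiff_const.mul sO) contDiff_const, pd_const']
      funext x
      rw [pd_mulf contDiff_const sO, pd_const']
      ring
    have hQp : ∀ j, pd j (Q t) = fun y => σ * pd j (OO (u t)) y
        + -(g1 (-(σ * OO (u t) y + C₁)) * (σ * pd j (OO (u t)) y)) := by
      intro j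
      rw [hQt, pd_add' (sq.add oP1) contDiff_const, pd_add' sq oP1, hqp, oP2, pd_const']
      funext y
      ring
    have hLQ : ∀ x, LL (Q t) x = σ * LL (OO (u t)) x + LL (P t) x := by
      intro x
      have hs1 : ∀ j, ContDiff ℝ ∞ (fun y => σ * pd j (OO (u t)) y) := fun j =>
        contDiff_const.mul (sm_pd sO j)
      have e1 : ∀ j, pd j (P t) = fun y => -(g1 (-(σ * OO (u t) y + C₁))
          * (σ * pd j (OO (u t)) y)) := fun j => by rw [hPt, oP2]
      have e2 : ∀ j, pd j (Q t) = fun y => σ * pd j (OO (u t)) y + pd j (P t) y := fun j => by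
        rw [hQp, e1]
      have e3 : ∀ j, pd j (pd j (Q t)) x = σ * pd j (pd j (OO (u t))) x
          + pd j (pd j (P t)) x := by
        intro j
        rw [e2 j, pd_add' (hs1 j) (sm_pd sP j), pd_mulf contDiff_const (sm_pd sO j), pd_const']
        ring
      unfold LL lap RR
      simp only [Fin.sum_univ_three, e3]
      simp only [e2]
      ring
    have hPp : ∀ j, pd j (P t) = fun y => -(g1 (-(σ * OO (u t) y + C₁))
        * (σ * pd j (OO (u t)) y)) := fun j => by rw [hPt, oP2]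
    have hLP : ∀ x, LL (P t) x = g2 (-(σ * OO (u t) x + C₁)) * (σ ^ 2 * gr2 (OO (u t)) x)
        - g1 (-(σ * OO (u t) x + C₁)) * (σ * LL (OO (u t)) x) := fun x => by rw [hPt, oP3]
    have haP : ∀ x, W221.NS.adv (u t) (P t) x = -(g1 (-(σ * OO (u t) x + C₁))
        * (σ * W221.NS.adv (u t) (OO (u t)) x)) := by
      intro x
      unfold W221.NS.adv
      simp only [Fin.sum_univ_three, hPp]
      ring
    have haQ : ∀ x, W221.NS.adv (u t) (Q t) x = σ * W221.NS.adv (u t) (OO (u t)) x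
        + W221.NS.adv (u t) (P t) x := by
      intro x
      rw [haP]
      unfold W221.NS.adv
      simp only [Fin.sum_univ_three, hQp]
      ring
    have hnn : ∀ x, 0 ≤ φ x ^ 2 * (g2 (-(σ * OO (u t) x + C₁)) * gr2 (OO (u t)) x) := fun x =>
      mul_nonneg (sq_nonneg _) (mul_nonneg (g2_nn _) (gr2_nn _ _))
    have hout : ∀ x, x ∉ Co c r h → φ x = 0 := fun x hx => by
      by_contra hcon
      exact hx (cut_mem hφ hcon)
    obtain ⟨-, cP⟩ := dtLin jP hφ.sm hφ.cs t htI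
    obtain ⟨-, cQ⟩ := dtLin jQ hφ.sm hφ.cs t htI
    constructor
    · have h1 : ∫ x, φ x ^ 2 * deriv (fun s => P s x) t ≤
          ∫ x, (φ x ^ 2 * (LL (P t) x - W221.NS.adv (u t) (P t) x) + D t x) := by
        refine integral_mono_ae (int_cs (hφ2.mul cP) hφ2c.mul_right) (iP.add (hDi t htI)) ?_
        filter_upwards [Pool.Agent.Q175.AX.axis_ae] with x hx
        beta_reduce
        by_cases hxC : x ∈ Co c r h
        · rw [(hdP t htI x).deriv, (p_EqO T E c R H u p hsol t htI x (hsub hxC) hx).deriv, hLP,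
            haP, hσ2, hD]
          beta_reduce
          have := hnn x
          linarith
        · rw [hout x hxC, hD]
          beta_reduce
          rw [hout x hxC]
          simp
      rw [integral_add iP (hDi t htI)] at h1
      rw [hK₅, hprt]
      linarith
    · have h1 : ∫ x, φ x ^ 2 * deriv (fun s => Q s x) t ≤
          ∫ x, ((φ x ^ 2 * (LL (Q t) x - W221.NS.adv (u t) (Q t) x) + D t x)
            + φ x ^ 2 * -(σ * (2 * WW (u t) x * JJ (u t) x))) := by
        refine integral_mono_ae (int_cs (hφ2.mul cQ) hφ2c.mul_right)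
          ((iQ.add (hDi t htI)).add iS) ?_
        filter_upwards [Pool.Agent.Q175.AX.axis_ae] with x hx
        beta_reduce
        by_cases hxC : x ∈ Co c r h
        · rw [(hdQ t htI x).deriv, (p_EqO T E c R H u p hsol t htI x (hsub hxC) hx).deriv, hLQ,
            haQ, hLP, haP, hσ2, hD]
          beta_reduce
          have := hnn x
          linarith
        · rw [hout x hxC, hD]
          beta_reduce
          rw [hout x hxC]
          simp
      have h2' := integral_add (iQ.add (hDi t htI)) iS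
      have h2 := integral_add iQ (hDi t htI)
      simp only [Pi.add_apply] at h2' h2
      rw [h2', h2] at h1
      rw [hK₅, hprt]
      linarith
  -- the integral of the production
  obtain ⟨I, hIdef⟩ : ∃ I : ℝ → ENNReal, I = fun t =>
      ∫⁻ x in {x | x ∈ Co c r h ∧ σ * OO (u t) x < -C₁},
        ENNReal.ofReal (σ * (2 * WW (u t) x * JJ (u t) x)) := ⟨_, rfl⟩
  have hpr1 : ∀ t ∈ Ioo 0 T, ENNReal.ofReal (pr t) ≤ I t := by
    intro t ht
    have hmi : Integrable (fun x => max (D t x) 0) := (hDi t ht).pos_part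
    have h1 : pr t ≤ ∫ x, max (D t x) 0 := by
      rw [hpr]
      exact integral_mono (hDi t ht) hmi fun x => le_max_left _ _
    refine (ENNReal.ofReal_le_ofReal h1).trans ?_
    rw [ofReal_integral_eq_lintegral_ofReal hmi (Eventually.of_forall fun x => le_max_right _ _),
      hIdef]
    refine le_trans (lintegral_mono fun x => ?_) (lintegral_indicator_le _ _)
    by_cases hx : x ∈ {x | x ∈ Co c r h ∧ σ * OO (u t) x < -C₁}
    · rw [indicator_of_mem hx]
      beta_reduce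
      rcases le_total (σ * (2 * WW (u t) x * JJ (u t) x)) 0 with hw | hw
      · have : D t x ≤ 0 := by
          rw [hD]
          exact mul_nonpos_of_nonneg_of_nonpos (sq_nonneg _)
            (mul_nonpos_of_nonneg_of_nonpos (g1_nn _) hw)
        rw [max_eq_right this]
        simp
      · refine ENNReal.ofReal_le_ofReal (max_le ?_ hw)
        rw [hD]
        beta_reduce
        have hφ1 : φ x ^ 2 ≤ 1 := pow_le_one₀ (hφ.nn x) (hφ.le x)
        have h3 := g1_le (-(σ * OO (u t) x + C₁))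
        have h4 := g1_nn (-(σ * OO (u t) x + C₁))
        calc φ x ^ 2 * (g1 (-(σ * OO (u t) x + C₁)) * (σ * (2 * WW (u t) x * JJ (u t) x)))
            ≤ 1 * (1 * (σ * (2 * WW (u t) x * JJ (u t) x))) := by
              refine mul_le_mul hφ1 (mul_le_mul_of_nonneg_right h3 hw) (mul_nonneg h4 hw)
                zero_le_one
          _ = σ * (2 * WW (u t) x * JJ (u t) x) := by ring
    · rw [indicator_of_notMem hx]
      have hz : D t x = 0 := by
        by_cases hxC : x ∈ Co c r h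
        · have h5 : ¬ σ * OO (u t) x < -C₁ := fun hc => hx ⟨hxC, hc⟩
          have h6 : -(σ * OO (u t) x + C₁) ≤ 0 := by linarith [not_lt.1 h5]
          rw [hD]
          beta_reduce
          rw [g1_neg h6]
          ring
        · have h0 : φ x = 0 := by
            by_contra hcon
            exact hxC (cut_mem hφ hcon)
          rw [hD]
          beta_reduce
          rw [h0]
          ring
      rw [hz, max_self]
      simp
  have hprod' : ∫⁻ t in Ioo T₁ T, I t < ⊤ := by rw [hIdef]; exact hprod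
  obtain ⟨N, hN⟩ : ∃ N : ℝ, N = (∫⁻ t in Ioo T₁ T, I t).toReal := ⟨_, rfl⟩
  have hN0 : 0 ≤ N := by rw [hN]; exact ENNReal.toReal_nonneg
  have hprc' : ∀ t ∈ Ico T₁ T, ContinuousOn pr (Icc T₁ t) := fun t ht =>
    hprc.mono fun s hs => ⟨hT₁.trans_le hs.1, hs.2.trans_lt ht.2⟩
  have hprI : ∀ t ∈ Ico T₁ T, ∫ s in T₁..t, pr s ≤ N := by
    intro t ht
    have hci := hprc' t ht
    have hcm : ContinuousOn (fun s => max (pr s) 0) (Icc T₁ t) := hci.sup continuousOn_const
    have hm : ∫ s in T₁..t, pr s ≤ ∫ s in T₁..t, max (pr s) 0 :=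
      intervalIntegral.integral_mono_on ht.1
        (hci.intervalIntegrable_of_Icc ht.1) (hcm.intervalIntegrable_of_Icc ht.1)
        fun s _ => le_max_left _ _
    refine hm.trans ?_
    have hnn : 0 ≤ᵐ[volume.restrict (Ioc T₁ t)] fun s => max (pr s) 0 :=
      Eventually.of_forall fun s => le_max_right _ _
    rw [intervalIntegral.integral_of_le ht.1,
      integral_eq_lintegral_of_nonneg_ae hnn
        ((hcm.mono Ioc_subset_Icc_self).aestronglyMeasurable measurableSet_Ioc), hN]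
    refine ENNReal.toReal_mono hprod'.ne ?_
    calc ∫⁻ s in Ioc T₁ t, ENNReal.ofReal (max (pr s) 0)
        ≤ ∫⁻ s in Ioc T₁ t, I s := by
          refine setLIntegral_mono' measurableSet_Ioc fun s hs => ?_
          have hs' : s ∈ Ioo 0 T := ⟨hT₁.trans hs.1, hs.2.trans_lt ht.2⟩
          rcases le_total (pr s) 0 with hw | hw
          · rw [max_eq_right hw]
            simp
          · rw [max_eq_left hw]
            exact hpr1 s hs'
      _ ≤ ∫⁻ s in Ioo T₁ T, I s :=
          lintegral_mono_set fun s hs => ⟨hs.1, hs.2.trans_lt ht.2⟩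
  have hK₅0 : 0 ≤ K₅ := by
    rw [hK₅]
    positivity
  -- integration in time
  have hint : ∀ (f : ℝ → V → ℝ),
      ContDiffOn ℝ ∞ (fun z : ℝ × V => f z.1 z.2) (Ioo 0 T ×ˢ univ) →
      (∀ t ∈ Ico T₁ T, ∫ x, φ x ^ 2 * deriv (fun s => f s x) t ≤ K₅ + pr t) →
      ∀ t ∈ Ico T₁ T, ∫ x, φ x ^ 2 * f t x ≤ (∫ x, φ x ^ 2 * f T₁ x) + (K₅ * (T - T₁) + N) := by
    intro f jf hf t ht
    have hd := dtLin jf hφ.sm hφ.cs
    have hIs : ∀ s ∈ Icc T₁ t, s ∈ Ioo 0 T := fun s hs =>
      ⟨hT₁.trans_le hs.1, hs.2.trans_lt ht.2⟩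
    have h1 := intervalIntegral.sub_le_integral_of_hasDeriv_right_of_le (a := T₁) (b := t)
      (g := fun t => ∫ x, φ x ^ 2 * f t x)
      (g' := fun t => ∫ x, φ x ^ 2 * deriv (fun s => f s x) t) (φ := fun s => K₅ + pr s) ht.1
      (fun s hs => (hd s (hIs s hs)).1.continuousAt.continuousWithinAt)
      (fun s hs => (hd s (hIs s (Ioo_subset_Icc_self hs))).1.hasDerivWithinAt)
      ((continuousOn_const.add (hprc' t ht)).integrableOn_Icc)
      (fun s hs => hf s ⟨hs.1.le, hs.2.trans ht.2⟩)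
    rw [intervalIntegral.integral_add (by simp)
      ((hprc' t ht).intervalIntegrable_of_Icc ht.1), intervalIntegral.integral_const,
      smul_eq_mul] at h1
    have h2 := hprI t ht
    have h3 : (t - T₁) * K₅ ≤ K₅ * (T - T₁) := by
      rw [mul_comm]
      exact mul_le_mul_of_nonneg_left (by linarith [ht.2]) hK₅0
    beta_reduce at h1
    linarith
  have hPi := hint P jP fun t ht => (hder t ht).1
  have hQi := hint Q jQ fun t ht => (hder t ht).2
  refine ⟨((∫ x, φ x ^ 2 * P T₁ x) + (K₅ * (T - T₁) + N))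
    + ((∫ x, φ x ^ 2 * Q T₁ x) + (K₅ * (T - T₁) + N)) + (1 + |C₁|) * ∫ x, φ x ^ 2,
    fun t ht => ?_⟩
  have htI := hI t ht
  obtain ⟨-, -, -, sO⟩ := hAs t htI
  have cP : Continuous (P t) := by
    rw [hP]
    exact (ops_P sO σ C₁).1.continuous
  have cQ : Continuous (Q t) := by
    rw [hQ]
    exact (((continuous_const.mul sO.continuous).add continuous_const).add cP).add
      continuous_const
  have iP : Integrable (fun x => φ x ^ 2 * P t x) := int_cs (hφ2.mul cP) hφ2c.mul_right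
  have iQ : Integrable (fun x => φ x ^ 2 * Q t x) := int_cs (hφ2.mul cQ) hφ2c.mul_right
  have iO : Integrable (fun x => φ x ^ 2 * |OO (u t) x|) :=
    int_cs (hφ2.mul sO.continuous.abs) hφ2c.mul_right
  have i1 : Integrable (fun x => φ x ^ 2) := int_cs hφ2 hφ2c
  have hle : ∫ x, φ x ^ 2 * |OO (u t) x| ≤
      ∫ x, ((φ x ^ 2 * P t x + φ x ^ 2 * Q t x) + (1 + |C₁|) * φ x ^ 2) := by
    refine integral_mono iO ((iP.add iQ).add (i1.const_mul _)) fun x => ?_
    beta_reduce
    have h1 : |OO (u t) x| ≤ P t x + Q t x + (1 + |C₁|) := by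
      have e1 : |OO (u t) x| = |σ * OO (u t) x| := by rw [abs_mul, hσ, one_mul]
      have e2 : σ * OO (u t) x = Q t x - P t x - 1 - C₁ := by
        rw [hQ]
        ring
      rw [e1, e2]
      have h3 := hP0 t x
      have h4 := hQ0 t x
      have h5 := abs_le.1 (le_refl |C₁|)
      rw [abs_le]
      constructor <;> linarith [h5.1, h5.2]
    have h2 := mul_le_mul_of_nonneg_left h1 (sq_nonneg (φ x))
    linarith
  have h2' := integral_add (iP.add iQ) (i1.const_mul (1 + |C₁|))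
  have h2 := integral_add iP iQ
  simp only [Pi.add_apply] at h2' h2
  rw [h2', h2, integral_const_mul] at hle
  have := hPi t ht
  have := hQi t ht
  linarith

end Pool.Agent.V8H53.OW
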