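import Pool.Agent.V8H53.OW.L1q

/-!
Project OW: the bound of `∫ |ω_θ / ρ|` if the production of one sign above a threshold is finite or
if `v_θ / ρ` is in `L⁴` where `ω_θ / ρ` is in a window.
-/

set_option autoImplicit false

open MeasureTheory Set Metric Filter Topology
open scoped ContDiff
open H459R3.NS Pool.Agent.W268.NS Pool.Agent.Q67.VD

namespace Pool.Agent.V8H53.OW

open Pool.Agent.Q85.CC Pool.Agent.Q85.CL Pool.Agent.TH305.AX
open Pool.Agent.Q67.AXI
open Pool.Agent.W583.MD (sm_pd cs_pd pd_mul' Z Z.add Z.sub Z.smul Z.sum int_cs Z_pd)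
open Pool.Agent.TH305.DR (pd_add' pd_sub' pd_neg' pd_cmul pd_const')
open Pool.Agent.V8Lead (p_AAs p_Alg p_AxF p_H0 p_Dt p_Jnt p_EqO)
open Pool.Agent.Q175.AX (Co_open Cy_compact Co_meas Co_fin ind_int ind_val cut_dich const_pd cut_out
  cut_mem Co_sub_Cy LL_mul LL_meas sq_pd RRsg_int RRsg_int' cs_zero lap_sm gr2_sm sg_nn RR_ev
  RR_const lap_ev lap_const pd_ev pd_comp_at gr2_nn sg_cd pd_sg)

variable {v : V → V} {φ : V → ℝ} {c r h r1 h1 K σ : ℝ}

/-! ### Finite integrals over space-time -/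

/-- The integral in time of a spatial integral which is bounded by a finite upper integral. -/
lemma pr_N {T T₁ : ℝ} (hT₁ : 0 < T₁) {D : ℝ → V → ℝ} {k : Set V} (hk : IsCompact k)
    (hDc : ContinuousOn (fun z : ℝ × V => D z.1 z.2) (Ioo 0 T ×ˢ univ))
    (hDs : ∀ t x, x ∉ k → D t x = 0) {S : ℝ → Set V} {g : ℝ → V → ENNReal}
    (hg : ∀ t ∈ Ioo T₁ T, ∀ x, ENNReal.ofReal (D t x) ≤ (S t).indicator (g t) x)
    (hfin : ∫⁻ t in Ioo T₁ T, ∫⁻ x in S t, g t x < ⊤) :
    ContinuousOn (fun t => ∫ x, D t x) (Ioo 0 T) ∧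
    ∃ N : ℝ, ∀ t ∈ Ico T₁ T, ∫ s in T₁..t, (∫ x, D s x) ≤ N := by
  have hDt : ∀ t ∈ Ioo 0 T, Continuous (D t) := fun t ht =>
    hDc.comp_continuous (f := fun x : V => ((t, x) : ℝ × V)) (by fun_prop)
      fun x => ⟨ht, mem_univ _⟩
  have hprc : ContinuousOn (fun t => ∫ x, D t x) (Ioo 0 T) :=
    continuousOn_integral_of_compact_support (k := k) hk hDc fun t x _ hx => hDs t x hx
  have hDi : ∀ t ∈ Ioo 0 T, Integrable (D t) := fun t ht =>
    int_cs (hDt t ht) (HasCompactSupport.intro hk fun x hx => hDs t x hx)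
  refine ⟨hprc, ?_⟩
  obtain ⟨pr, hpr⟩ : ∃ pr : ℝ → ℝ, pr = fun t => ∫ x, D t x := ⟨_, rfl⟩
  rw [← hpr] at hprc
  obtain ⟨I, hIdef⟩ : ∃ I : ℝ → ENNReal, I = fun t => ∫⁻ x in S t, g t x := ⟨_, rfl⟩
  have hpr1 : ∀ t ∈ Ioo T₁ T, ENNReal.ofReal (pr t) ≤ I t := by
    intro t ht
    have htI : t ∈ Ioo 0 T := ⟨hT₁.trans ht.1, ht.2⟩
    have hmi : Integrable (fun x => max (D t x) 0) := (hDi t htI).pos_part
    have h1 : pr t ≤ ∫ x, max (D t x) 0 := by
      rw [hpr]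
      exact integral_mono (hDi t htI) hmi fun x => le_max_left _ _
    refine (ENNReal.ofReal_le_ofReal h1).trans ?_
    rw [ofReal_integral_eq_lintegral_ofReal hmi (Eventually.of_forall fun x => le_max_right _ _),
      hIdef]
    refine le_trans (lintegral_mono fun x => ?_) (lintegral_indicator_le _ _)
    have h2 := hg t ht x
    rcases le_total (D t x) 0 with hw | hw
    · beta_reduce
      rw [max_eq_right hw]
      simp
    · beta_reduce
      rw [max_eq_left hw]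
      exact h2
  have hfin' : ∫⁻ t in Ioo T₁ T, I t < ⊤ := by rw [hIdef]; exact hfin
  refine ⟨(∫⁻ t in Ioo T₁ T, I t).toReal, fun t ht => ?_⟩
  have e : ∫ s in T₁..t, (∫ x, D s x) = ∫ s in T₁..t, pr s := by rw [hpr]
  rw [e]
  have hci : ContinuousOn pr (Icc T₁ t) :=
    hprc.mono fun s hs => ⟨hT₁.trans_le hs.1, hs.2.trans_lt ht.2⟩
  have hcm : ContinuousOn (fun s => max (pr s) 0) (Icc T₁ t) := hci.sup continuousOn_const
  have hm : ∫ s in T₁..t, pr s ≤ ∫ s in T₁..t, max (pr s) 0 :=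
    intervalIntegral.integral_mono_on ht.1
      (hci.intervalIntegrable_of_Icc ht.1) (hcm.intervalIntegrable_of_Icc ht.1)
      fun s _ => le_max_left _ _
  refine hm.trans ?_
  have hnn : 0 ≤ᵐ[volume.restrict (Ioc T₁ t)] fun s => max (pr s) 0 :=
    Eventually.of_forall fun s => le_max_right _ _
  rw [intervalIntegral.integral_of_le ht.1,
    integral_eq_lintegral_of_nonneg_ae hnn
      ((hcm.mono Ioc_subset_Icc_self).aestronglyMeasurable measurableSet_Ioc)]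
  refine ENNReal.toReal_mono hfin'.ne ?_
  calc ∫⁻ s in Ioc T₁ t, ENNReal.ofReal (max (pr s) 0)
      ≤ ∫⁻ s in Ioc T₁ t, I s := by
        refine setLIntegral_mono' measurableSet_Ioc fun s hs => ?_
        have hs' : s ∈ Ioo T₁ T := ⟨hs.1, hs.2.trans_lt ht.2⟩
        rcases le_total (pr s) 0 with hw | hw
        · rw [max_eq_right hw]
          simp
        · rw [max_eq_left hw]
          exact hpr1 s hs'
    _ ≤ ∫⁻ s in Ioo T₁ T, I s :=
        lintegral_mono_set fun s hs => ⟨hs.1, hs.2.trans_lt ht.2⟩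

/-! ### The window -/

/-- Integration by parts in the term of the production. -/
lemma win_en {q : V → ℝ} (hv : ContDiff ℝ ∞ v) (ha : Axi v) (hK : 0 ≤ K) (hr : 0 ≤ r)
    (hφ : Cut c r h r1 h1 K φ) (hb : ∀ x ∈ Out c r h r1 h1, BdA K v x) (hq : ContDiff ℝ ∞ q) :
    ∫ x, φ x ^ 2 * (-(k2 (-q x) * gr2 q x) + k1 (-q x) * (σ * (2 * WW v x * JJ v x))) ≤
      (∫ x, φ x ^ 2 * (k2 (-q x) * (σ ^ 2 / 4 * WW v x ^ 4)))
        + (volume (Co c r h)).toReal * (|σ| * (2 * K ^ 3)) := by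
  obtain ⟨⟨-, sW, sJ, -⟩, -, -, hid⟩ := p_Alg v hv ha
  have hφ2c : HasCompactSupport (fun y => φ y ^ 2) := by
    have e : (fun y => φ y ^ 2) = fun y => φ y * φ y := by
      funext y
      ring
    rw [e]
    exact hφ.cs.mul_right
  have hφ2 : Continuous (fun y => φ y ^ 2) := hφ.sm.continuous.pow 2
  obtain ⟨ζ, hζ⟩ : ∃ ζ : V → ℝ, ζ = fun y => φ y ^ 2 := ⟨_, rfl⟩
  have hζs : ContDiff ℝ ∞ ζ := by rw [hζ]; exact hφ.sm.pow 2
  have hζc : HasCompactSupport ζ := by rw [hζ]; exact hφ2c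
  have hW2 : ContDiff ℝ ∞ (fun y => WW v y ^ 2) := sW.pow 2
  have hkq : ContDiff ℝ ∞ (fun y => k1 (-q y)) := k1_cd.comp hq.neg
  have hqn : ContDiff ℝ ∞ (fun y => -q y) := hq.neg
  have hqp : ∀ j x, pd j (fun y => -q y) x = -pd j q x := by
    intro j x
    have e : (fun y => -q y) = fun y => (fun _ => (-1 : ℝ)) y * q y := by
      funext y
      ring
    rw [e, pd_mulf contDiff_const hq, pd_const']
    ring
  have hkp : ∀ x, pd 2 (fun y => k1 (-q y)) x = -(k2 (-q x) * pd 2 q x) := by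
    intro x
    rw [pd_comp_at (k1_hd (-q x)) ((hqn.differentiable (by simp)) x), hqp]
    ring
  have Z3 := (Z_pd (hζs.mul (hkq.mul hW2)) hζc.mul_right 2).smul (-σ)
  have ck1 : Continuous (fun x => k1 (-q x)) := hkq.continuous
  have ck2 : Continuous (fun x => k2 (-q x)) := k2_cd.continuous.comp hq.continuous.neg
  have iR : Integrable (fun x => φ x ^ 2 * (k2 (-q x) * (σ ^ 2 / 4 * WW v x ^ 4))) :=
    int_cs (hφ2.mul (ck2.mul (continuous_const.mul (sW.continuous.pow 4)))) hφ2c.mul_right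
  have iL : Integrable (fun x => φ x ^ 2 * (-(k2 (-q x) * gr2 q x)
      + k1 (-q x) * (σ * (2 * WW v x * JJ v x)))) := by
    refine int_cs (hφ2.mul ?_) hφ2c.mul_right
    exact ((ck2.mul (gr2_sm hq).continuous).neg).add (ck1.mul (continuous_const.mul
      ((continuous_const.mul sW.continuous).mul sJ.continuous)))
  have iO := ind_int (c := c) (h := h) hr (|σ| * (2 * K ^ 3))
  have hpt : ∀ x, φ x ^ 2 * (-(k2 (-q x) * gr2 q x) + k1 (-q x) * (σ * (2 * WW v x * JJ v x))) ≤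
      (-σ * pd 2 (fun y => ζ y * (k1 (-q y) * WW v y ^ 2)) x
        + φ x ^ 2 * (k2 (-q x) * (σ ^ 2 / 4 * WW v x ^ 4)))
        + (Co c r h).indicator (fun _ : V => |σ| * (2 * K ^ 3)) x := by
    intro x
    have e2 : φ x ^ 2 = ζ x := by rw [hζ]
    have hζ0 : 0 ≤ ζ x := by rw [hζ]; positivity
    have hout : σ * (pd 2 ζ x * (k1 (-q x) * WW v x ^ 2)) ≤
        (Co c r h).indicator (fun _ : V => |σ| * (2 * K ^ 3)) x := by
      rcases cut_dich hφ x with ⟨ho, hc⟩ | ⟨k, hk⟩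
      · rw [indicator_of_mem hc]
        obtain ⟨b1, b2, b3, b4, b5, b6⟩ := hb x ho
        obtain ⟨c1, c2, c3⟩ := hφ.bd x
        have hp : |pd 2 ζ x| ≤ 2 * K := by
          rw [hζ, sq_pd hφ.sm]
          rw [abs_mul, abs_mul, abs_two, abs_of_nonneg (hφ.nn x)]
          calc 2 * φ x * |pd 2 φ x| ≤ 2 * 1 * K := by
                gcongr
                · exact hφ.le x
                · exact c1 2
            _ = 2 * K := by ring
        have t3 : |k1 (-q x) * WW v x ^ 2| ≤ 1 * K ^ 2 := by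
          rw [abs_mul, abs_pow, abs_of_nonneg (k1_nn _)]
          exact mul_le_mul (k1_le _) (pow_le_pow_left₀ (abs_nonneg _) b3 2) (by positivity)
            zero_le_one
        have t4 : |σ * (pd 2 ζ x * (k1 (-q x) * WW v x ^ 2))| ≤ |σ| * (2 * K * (1 * K ^ 2)) := by
          rw [abs_mul, abs_mul]
          exact mul_le_mul_of_nonneg_left (mul_le_mul hp t3 (abs_nonneg _) (by positivity))
            (abs_nonneg _)
        have e : |σ| * (2 * K * (1 * K ^ 2)) = |σ| * (2 * K ^ 3) := by ring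
        rw [← e]
        exact (le_abs_self _).trans t4
      · have hk' : ζ =ᶠ[𝓝 x] fun _ => k ^ 2 := by
          filter_upwards [hk] with y hy
          rw [hζ]
          beta_reduce
          rw [hy]
        obtain ⟨a1, a2, a3⟩ := const_pd hk'
        rw [a1 2, zero_mul, mul_zero]
        exact indicator_nonneg (fun _ _ => by positivity) _
    have hgr : pd 2 q x ^ 2 ≤ gr2 q x := by
      unfold gr2
      rw [Fin.sum_univ_three]
      have := sq_nonneg (pd 0 q x)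
      have := sq_nonneg (pd 1 q x)
      linarith
    have hkk : 0 ≤ ζ x * k2 (-q x) := mul_nonneg hζ0 (k2_nn _)
    have h1 := mul_le_mul_of_nonneg_left hgr hkk
    have h2 : 0 ≤ ζ x * k2 (-q x) * (pd 2 q x + σ * WW v x ^ 2 / 2) ^ 2 :=
      mul_nonneg hkk (sq_nonneg _)
    have e6 : pd 2 (fun y => ζ y * (k1 (-q y) * WW v y ^ 2)) x
        = ζ x * (k1 (-q x) * (2 * WW v x * pd 2 (WW v) x) + -(k2 (-q x) * pd 2 q x) * WW v x ^ 2)
          + pd 2 ζ x * (k1 (-q x) * WW v x ^ 2) := by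
      rw [pd_mulf hζs (hkq.mul hW2), pd_mulf hkq hW2]
      beta_reduce
      rw [hkp, sq_pd sW]
    rw [e6, (hid x).2.2.2.2.2.1, e2]
    have e5 : ζ x * k2 (-q x) * (pd 2 q x + σ * WW v x ^ 2 / 2) ^ 2
        = ζ x * k2 (-q x) * pd 2 q x ^ 2 + ζ x * (k2 (-q x) * pd 2 q x * (σ * WW v x ^ 2))
          + ζ x * (k2 (-q x) * (σ ^ 2 / 4 * WW v x ^ 4)) := by ring
    rw [e5] at h2
    linarith
  have h1 := integral_mono iL ((Z3.1.add iR).add iO) hpt
  have h2 := integral_add (Z3.1.add iR) iO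
  have h3 := integral_add Z3.1 iR
  simp only [Pi.add_apply] at h1 h2 h3
  rw [h2, h3, Z3.2, zero_add, ind_val] at h1
  exact h1

/-! ### The threshold -/

lemma thr_pos {τ : ℝ} (hτ : 0 < τ) (x : V) : 0 < sg x + τ := by
  have := sg_nn x
  linarith

lemma thr_sm {τ : ℝ} (hτ : 0 < τ) (a : ℝ) : ContDiff ℝ ∞ (fun y : V => (sg y + τ) ^ a) :=
  (sg_cd.add contDiff_const).rpow_const_of_ne fun x => (thr_pos hτ x).ne'

lemma thr_hd {τ : ℝ} (hτ : 0 < τ) (a : ℝ) (x : V) :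
    HasDerivAt (fun s : ℝ => (s + τ) ^ a) (a * (sg x + τ) ^ (a - 1)) (sg x) := by
  have h := ((hasDerivAt_id (sg x)).add_const τ).rpow_const (p := a) (Or.inl (thr_pos hτ x).ne')
  refine h.congr_deriv ?_
  simp

lemma thr_pd {τ : ℝ} (hτ : 0 < τ) (a : ℝ) (j : Fin 3) (x : V) :
    pd j (fun y : V => (sg y + τ) ^ a) x
      = a * (sg x + τ) ^ (a - 1) * (if j = 2 then 0 else 2 * x j) := by
  rw [pd_comp_at (g := fun s : ℝ => (s + τ) ^ a) (thr_hd hτ a x)
    ((sg_cd.differentiable (by simp)) x), pd_sg]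

lemma thr_LL {τ : ℝ} (hτ : 0 < τ) (a : ℝ) {x : V} (hx : sg x ≠ 0) :
    LL (fun y : V => (sg y + τ) ^ a) x
      = 8 * a * (sg x + τ) ^ (a - 1) + 4 * a * (a - 1) * sg x * (sg x + τ) ^ (a - 2) := by
  have hp : ∀ j, pd j (fun y : V => (sg y + τ) ^ a)
      = fun x => (sg x + τ) ^ (a - 1) * (a * (if j = 2 then 0 else 2 * x j)) := by
    intro j
    funext y
    rw [thr_pd hτ a j y]
    ring
  have hp0 : pd 0 (fun y : V => (sg y + τ) ^ a)
      = fun x => (sg x + τ) ^ (a - 1) * (a * 2 * x 0) := by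
    rw [hp]
    funext y
    simp only [show (0 : Fin 3) ≠ 2 by decide, if_false]
    ring
  have hp1 : pd 1 (fun y : V => (sg y + τ) ^ a)
      = fun x => (sg x + τ) ^ (a - 1) * (a * 2 * x 1) := by
    rw [hp]
    funext y
    simp only [show (1 : Fin 3) ≠ 2 by decide, if_false]
    ring
  have hp2 : pd 2 (fun y : V => (sg y + τ) ^ a) = fun _ => 0 := by
    rw [hp]
    funext y
    simp
  have hl : ∀ i : Fin 3, ContDiff ℝ ∞ (fun x : V => a * 2 * x i) := fun i =>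
    contDiff_const.mul (sm_crd i)
  have hll : ∀ i : Fin 3, pd i (fun x : V => a * 2 * x i) x = a * 2 := by
    intro i
    rw [pd_mulf contDiff_const (sm_crd i), pd_crd, pd_const']
    simp
  have e1 : (a - 1 - 1 : ℝ) = a - 2 := by ring
  unfold LL lap RR
  rw [Fin.sum_univ_three, hp0, hp1, hp2, pd_mulf (thr_sm hτ _) (hl 0),
    pd_mulf (thr_sm hτ _) (hl 1), pd_const']
  beta_reduce
  rw [hll, hll, thr_pd hτ, thr_pd hτ, e1]
  simp only [show (0 : Fin 3) ≠ 2 by decide, show (1 : Fin 3) ≠ 2 by decide, if_false]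
  have e2 : x 0 * ((sg x + τ) ^ (a - 1) * (a * 2 * x 0)) + x 1 * ((sg x + τ) ^ (a - 1)
      * (a * 2 * x 1)) = sg x * (2 * a * (sg x + τ) ^ (a - 1)) := by
    unfold sg
    ring
  rw [e2]
  have e3 : 2 / sg x * (sg x * (2 * a * (sg x + τ) ^ (a - 1)))
      = 4 * a * (sg x + τ) ^ (a - 1) := by
    field_simp
    ring
  rw [e3]
  have e4 : 4 * a * (a - 1) * sg x * (sg x + τ) ^ (a - 2)
      = 4 * a * (a - 1) * (x 0 ^ 2 + x 1 ^ 2) * (sg x + τ) ^ (a - 2) := rfl
  rw [e4]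
  ring

/-- The differential inequality of the threshold. -/
lemma thr_ineq {τ b C X₀ : ℝ} (hv : ContDiff ℝ ∞ v) (ha : Axi v) (hτ : 0 < τ) (hb0 : 0 ≤ b)
    (hb1 : b < 1) (hC : 0 ≤ C) {x : V} (hx : sg x ≠ 0) (hX : sg x + τ ≤ X₀) (C₁ : ℝ) :
    LL (fun y => C * (sg y + τ) ^ (-b) + C₁) x
      - W221.NS.adv v (fun y => C * (sg y + τ) ^ (-b) + C₁) x
      - C * b * (sg x + τ) ^ (-b - 1) ≤ C * b * X₀ ^ (1 - b) * UU v x ^ 2 := by
  have hX0 := thr_pos hτ x
  obtain ⟨o1, o2⟩ := ops_lin (thr_sm hτ (-b)) (contDiff_const (c := C₁)) C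
  have hc : LL (fun _ : V => C₁) x = 0 := by
    unfold LL lap RR
    simp only [pd_const']
    simp
  have hrad : x 0 * v x 0 + x 1 * v x 1 = sg x * UU v x := by
    obtain ⟨-, -, -, hid⟩ := p_Alg v hv ha
    exact (hid x).2.2.2.2.2.2.2.2.2.1
  have hadv : W221.NS.adv v (fun y => C * (sg y + τ) ^ (-b) + C₁) x
      = -(2 * C * b * (sg x + τ) ^ (-b - 1) * (sg x * UU v x)) := by
    unfold W221.NS.adv
    rw [Fin.sum_univ_three]
    simp only [o1, pd_const', thr_pd hτ]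
    simp only [show (0 : Fin 3) ≠ 2 by decide, show (1 : Fin 3) ≠ 2 by decide, if_false]
    rw [← hrad]
    simp
    ring
  obtain ⟨Y, hY⟩ : ∃ Y : ℝ, Y = (sg x + τ) ^ (-b - 1) := ⟨_, rfl⟩
  have hY0 : 0 < Y := by rw [hY]; exact Real.rpow_pos_of_pos hX0 _
  have hYX : (sg x + τ) ^ (-b - 2) * (sg x + τ) = Y := by
    rw [hY, ← Real.rpow_add_one hX0.ne']
    congr 1
    ring
  have hYX2 : Y * (sg x + τ) ^ 2 = (sg x + τ) ^ (1 - b) := by
    rw [hY, ← Real.rpow_natCast, ← Real.rpow_add hX0]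
    congr 1
    push_cast
    ring
  have hYm : (sg x + τ) ^ (-b - 2) * sg x ≤ Y := by
    rw [← hYX]
    exact mul_le_mul_of_nonneg_left (by linarith) (Real.rpow_nonneg hX0.le _)
  have hXX : (sg x + τ) ^ (1 - b) ≤ X₀ ^ (1 - b) :=
    Real.rpow_le_rpow hX0.le hX (by linarith)
  rw [o2, thr_LL hτ (-b) hx, hc, hadv, ← hY]
  have hCb : 0 ≤ C * b := mul_nonneg hC hb0
  have h1 : 4 * (C * b) * (b + 1) * ((sg x + τ) ^ (-b - 2) * sg x) ≤ 4 * (C * b) * (b + 1) * Y :=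
    mul_le_mul_of_nonneg_left hYm (by positivity)
  have h2 : 4 * (C * b) * (b + 1) * Y ≤ 8 * (C * b) * Y := by
    have : 0 ≤ 4 * (C * b) * Y := by positivity
    nlinarith
  have h3 : Y * (2 * sg x * UU v x - 1) ≤ X₀ ^ (1 - b) * UU v x ^ 2 := by
    have g1 : 2 * sg x * UU v x - 1 ≤ (sg x + τ) ^ 2 * UU v x ^ 2 := by
      have g2 : sg x ^ 2 ≤ (sg x + τ) ^ 2 := pow_le_pow_left₀ (sg_nn x) (by linarith) 2
      have g3 := mul_le_mul_of_nonneg_right g2 (sq_nonneg (UU v x))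
      nlinarith [sq_nonneg (sg x * UU v x - 1)]
    calc Y * (2 * sg x * UU v x - 1) ≤ Y * ((sg x + τ) ^ 2 * UU v x ^ 2) :=
          mul_le_mul_of_nonneg_left g1 hY0.le
      _ = (sg x + τ) ^ (1 - b) * UU v x ^ 2 := by rw [← mul_assoc, hYX2]
      _ ≤ _ := mul_le_mul_of_nonneg_right hXX (sq_nonneg _)
  have h4 := mul_le_mul_of_nonneg_left h3 hCb
  have e1 : C * (8 * -b * Y + 4 * -b * (-b - 1) * sg x * (sg x + τ) ^ (-b - 2))
      = -(8 * (C * b) * Y) + 4 * (C * b) * (b + 1) * ((sg x + τ) ^ (-b - 2) * sg x) := by ring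
  rw [e1]
  nlinarith

/-- The integral of the threshold. -/
lemma thr_int {T b : ℝ} (hK : 0 ≤ K) (hr : 0 < r) (hT : 0 < T) (hb1 : b < 1)
    (hφ : Cut c r h r1 h1 K φ) : ∃ M : ℝ, ∀ τ ∈ Ioc 0 T,
      ∫ x, φ x ^ 2 * (sg x + τ) ^ (-b) ≤ M := by
  obtain ⟨ζ, hζ⟩ : ∃ ζ : V → ℝ, ζ = fun y => φ y ^ 2 := ⟨_, rfl⟩
  have hζs : ContDiff ℝ ∞ ζ := by rw [hζ]; exact hφ.sm.pow 2
  have hζc : HasCompactSupport ζ := by
    have e : ζ = fun y => φ y * φ y := by
      rw [hζ]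
      funext y
      ring
    rw [e]
    exact hφ.cs.mul_right
  have hζ0 : ∀ x, 0 ≤ ζ x := fun x => by rw [hζ]; positivity
  have hb : 0 < 1 - b := by linarith
  obtain ⟨m, hm⟩ : ∃ m : ℝ, m = (r ^ 2 + T) ^ (1 - b) * (2 * K) := ⟨_, rfl⟩
  have hm0 : 0 ≤ m := by rw [hm]; positivity
  refine ⟨(2 * (1 - b))⁻¹ * ((volume (Co c r h)).toReal * m), fun τ hτ => ?_⟩
  have hs := thr_sm hτ.1 (1 - b)
  have hsb := thr_sm hτ.1 (-b)
  have hH := p_H0 (fun y => ζ y * (sg y + τ) ^ (1 - b)) ((hζs.mul hs).of_le (by norm_cast))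
    hζc.mul_right (fun x => mul_nonneg (hζ0 x) (Real.rpow_nonneg (thr_pos hτ.1 x).le _))
  have iF : Integrable (fun x => ζ x * (sg x + τ) ^ (-b)) :=
    int_cs (hζs.mul hsb).continuous hζc.mul_right
  have hRR : ∀ x, RR (fun y : V => (sg y + τ) ^ (1 - b)) x
      = 2 * (1 - b) * sg x * (sg x + τ) ^ (-b) := by
    intro x
    have e1 : (1 - b - 1 : ℝ) = -b := by ring
    unfold RR
    rw [thr_pd hτ.1, thr_pd hτ.1, e1]
    simp only [show (0 : Fin 3) ≠ 2 by decide, show (1 : Fin 3) ≠ 2 by decide, if_false]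
    unfold sg
    ring
  have hle : ∫ x, 2 * (1 - b) * (ζ x * (sg x + τ) ^ (-b)) ≤
      ∫ x, (RR (fun y => ζ y * (sg y + τ) ^ (1 - b)) x / sg x
        + (Co c r h).indicator (fun _ : V => m) x) := by
    refine integral_mono_ae (iF.const_mul _) (hH.1.add (ind_int hr.le m)) ?_
    filter_upwards [Pool.Agent.Q175.AX.axis_ae] with x hx
    have hsp : 0 < sg x := lt_of_le_of_ne (sg_nn x) (Ne.symm hx)
    have e1 : RR (fun y => ζ y * (sg y + τ) ^ (1 - b)) x / sg x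
        = 2 * (1 - b) * (ζ x * (sg x + τ) ^ (-b)) + (sg x + τ) ^ (1 - b) * (RR ζ x / sg x) := by
      have e2 : RR (fun y => ζ y * (sg y + τ) ^ (1 - b)) x
          = ζ x * RR (fun y : V => (sg y + τ) ^ (1 - b)) x + (sg x + τ) ^ (1 - b) * RR ζ x := by
        unfold RR
        rw [pd_mulf hζs hs, pd_mulf hζs hs]
        ring
      rw [e2, hRR]
      field_simp
    beta_reduce
    rw [e1]
    have hG0 : 0 ≤ (sg x + τ) ^ (1 - b) := Real.rpow_nonneg (thr_pos hτ.1 x).le _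
    have h4 : -((sg x + τ) ^ (1 - b) * (RR ζ x / sg x))
        ≤ (Co c r h).indicator (fun _ : V => m) x := by
      by_cases hxC : x ∈ Co c r h
      · rw [indicator_of_mem hxC, hm]
        obtain ⟨c1, c2, c3⟩ := hφ.bd x
        have hφ1 : |φ x| ≤ 1 := by
          rw [abs_of_nonneg (hφ.nn x)]
          exact hφ.le x
        have hRζ : |RR ζ x / sg x| ≤ 2 * K := by
          have e : RR ζ x = 2 * φ x * RR φ x := by
            unfold RR
            rw [hζ, sq_pd hφ.sm, sq_pd hφ.sm]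
            ring
          rw [e, abs_div, abs_of_pos hsp, div_le_iff₀ hsp, abs_mul, abs_mul, abs_two]
          calc 2 * |φ x| * |RR φ x| ≤ 2 * 1 * (K * sg x) := by gcongr
            _ = 2 * K * sg x := by ring
        have hG1 : (sg x + τ) ^ (1 - b) ≤ (r ^ 2 + T) ^ (1 - b) :=
          Real.rpow_le_rpow (thr_pos hτ.1 x).le (by linarith [hxC.1, hτ.2]) hb.le
        have h5 := mul_le_mul hG1 hRζ (abs_nonneg _) (by positivity)
        have h6 := neg_abs_le (RR ζ x / sg x)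
        have h7 := mul_le_mul_of_nonneg_left h6 hG0
        linarith
      · rw [indicator_of_notMem hxC]
        have h0 : x ∉ tsupport ζ := fun hcon => by
          refine hxC (hφ.supp (closure_mono (fun y hy => ?_) hcon))
          intro h0
          apply hy
          rw [hζ]
          simp [h0]
        rw [RR_ev (cs_zero h0), RR_const]
        simp
    linarith
  have h8 := integral_add hH.1 (ind_int (c := c) (h := h) hr.le m)
  rw [h8, ind_val, integral_const_mul] at hle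
  have e9 : ∫ x, φ x ^ 2 * (sg x + τ) ^ (-b) = ∫ x, ζ x * (sg x + τ) ^ (-b) := by rw [hζ]
  rw [e9, inv_mul_eq_div, le_div_iff₀ (by linarith)]
  have := hH.2
  linarith

end Pool.Agent.V8H53.OW
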