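import Pool.Agent.V8H53.OW.L1r

/-!
Project OW: the bound of `∫ |ω_θ / ρ|` if the production of one sign above a threshold is finite or
if `v_θ / ρ` is in `L⁴` where `ω_θ / ρ` is in a window.
-/

set_option autoImplicit false

open MeasureTheory Set Metric Filter Topology
open scoped ContDiff
open H459R3.NS Pool.Agent.W268.NS Pool.Agent.Q67.VD

namespace Pool.Agent.V8H53.OW

open Pool.Agent.Q85.CC Pool.Agent.Q85.CL Pool.Agent.TH305.AX
open Pool.Agent.Q67.AXI
open Pool.Agent.W583.MD (sm_pd cs_pd pd_mul' Z Z.add Z.sub Z.smul Z.sum int_cs Z_pd)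
open Pool.Agent.TH305.DR (pd_add' pd_sub' pd_neg' pd_cmul pd_const')
open Pool.Agent.V8Lead (p_AAs p_Alg p_AxF p_H0 p_Dt p_Jnt p_EqO)
open Pool.Agent.Q175.AX (Co_open Cy_compact Co_meas Co_fin ind_int ind_val cut_dich const_pd cut_out
  cut_mem Co_sub_Cy sq_pd sg_nn gr2_nn sg_cd pd_sg gr2_sm)

variable {v : V → V} {φ : V → ℝ} {c r h r1 h1 K σ : ℝ}

/-- The condition of finite production, or of the window. -/
def CondP (T T₁ σ C C₁ b : ℝ) (O : Set V) (u : ℝ → V → V) : Prop :=
  (∫⁻ t in Ioo T₁ T, ∫⁻ x in {x | x ∈ O ∧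
      σ * OO (u t) x + (C * (sg x + (T - t)) ^ (-b) + C₁) < 0},
    ENNReal.ofReal (σ * (2 * WW (u t) x * JJ (u t) x)) < ⊤) ∨
  (∫⁻ t in Ioo T₁ T, ∫⁻ x in {x | x ∈ O ∧
      σ * OO (u t) x + (C * (sg x + (T - t)) ^ (-b) + C₁) ∈ Ioo (-1) 0},
    ENNReal.ofReal (WW (u t) x ^ 4) < ⊤)

lemma CondP.mono {T T₁ T₂ C C₁ b : ℝ} {O O' : Set V} {u : ℝ → V → V}
    (h : CondP T T₁ σ C C₁ b O u) (hT : T₁ ≤ T₂) (hO : O' ⊆ O) : CondP T T₂ σ C C₁ b O' u := by
  rcases h with h | h
  · left
    refine lt_of_le_of_lt ?_ h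
    refine (lintegral_mono_set (Ioo_subset_Ioo_left hT)).trans' (lintegral_mono fun t => ?_)
    exact lintegral_mono_set fun x hx => ⟨hO hx.1, hx.2⟩
  · right
    refine lt_of_le_of_lt ?_ h
    refine (lintegral_mono_set (Ioo_subset_Ioo_left hT)).trans' (lintegral_mono fun t => ?_)
    exact lintegral_mono_set fun x hx => ⟨hO hx.1, hx.2⟩

/-- The bound of the integral. -/
theorem l1K {T E R H T₁ C C₁ b : ℝ} {u : ℝ → V → V} {p : ℝ → V → ℝ} (hsol : AxL T E c R H u p)
    (hK : 0 ≤ K) (hr : 0 < r) (hrR : r < R) (hhH : h < H) (hT₁ : 0 < T₁)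
    (hφ : Cut c r h r1 h1 K φ) (hb : ∀ t ∈ Ico T₁ T, ∀ x ∈ Out c r h r1 h1, BdA K (u t) x)
    (hσ : σ ≠ 0) (hC : 0 ≤ C) (hb0 : 0 ≤ b) (hb1 : b < 1)
    (hcond : CondP T T₁ σ C C₁ b (Co c r h) u) :
    ∃ M : ℝ, ∀ t ∈ Ico T₁ T, ∫ x, φ x ^ 2 * |OO (u t) x| ≤ M := by
  rcases le_or_gt T T₁ with hTT | hT₁T
  · exact ⟨0, fun t ht => absurd (ht.1.trans_lt ht.2) (not_lt.2 hTT)⟩
  have hT : 0 < T := hT₁.trans hT₁T
  obtain ⟨-, jW, jJ, jO⟩ := p_Jnt T u hsol.smooth_u
  have hI : ∀ t ∈ Ico T₁ T, t ∈ Ioo 0 T := fun t ht => ⟨hT₁.trans_le ht.1, ht.2⟩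
  have hφ2c : HasCompactSupport (fun y => φ y ^ 2) := by
    have e : (fun y => φ y ^ 2) = fun y => φ y * φ y := by
      funext y
      ring
    rw [e]
    exact hφ.cs.mul_right
  have hφ2 : Continuous (fun y => φ y ^ 2) := hφ.sm.continuous.pow 2
  have hus : ∀ t ∈ Ioo 0 T, ContDiff ℝ ∞ (u t) := fun t ht =>
    Pool.Agent.Q285.AXI.slice hsol.smooth_u ht
  have hAs : ∀ t ∈ Ioo 0 T, ContDiff ℝ ∞ (UU (u t)) ∧ ContDiff ℝ ∞ (WW (u t)) ∧
      ContDiff ℝ ∞ (JJ (u t)) ∧ ContDiff ℝ ∞ (OO (u t)) := fun t ht =>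
    (p_Alg (u t) (hus t ht) (hsol.axi t ht)).1
  have hout : ∀ x, x ∉ Co c r h → φ x = 0 := fun x hx => by
    by_contra hcon
    exact hx (cut_mem hφ hcon)
  -- the threshold
  obtain ⟨f, hf⟩ : ∃ f : ℝ → V → ℝ, f = fun t x => C * (sg x + (T - t)) ^ (-b) + C₁ := ⟨_, rfl⟩
  have hft : ∀ t, f t = fun y => C * (sg y + (T - t)) ^ (-b) + C₁ := fun t => by rw [hf]
  have jf : ContDiffOn ℝ ∞ (fun z : ℝ × V => f z.1 z.2) (Ioo 0 T ×ˢ univ) := by
    rw [hf]
    have g1 : ContDiff ℝ ∞ (fun z : ℝ × V => sg z.2 + (T - z.1)) :=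
      (sg_cd.comp contDiff_snd).add (contDiff_const.sub contDiff_fst)
    refine (contDiffOn_const.mul (g1.contDiffOn.rpow_const_of_ne fun z hz => ?_)).add
      contDiffOn_const
    exact (thr_pos (by linarith [hz.1.2]) z.2).ne'
  have hτ : ∀ t ∈ Ioo 0 T, 0 < T - t := fun t ht => by linarith [ht.2]
  have sf : ∀ t ∈ Ioo 0 T, ContDiff ℝ ∞ (f t) := fun t ht => Pool.Agent.W583.MD.slice jf ht
  have hKf : 0 ≤ C * b * (r ^ 2 + T) ^ (1 - b) := by positivity
  have hf2 : ∀ t ∈ Ioo 0 T, ∀ x ∈ Co c r h, sg x ≠ 0 →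
      LL (f t) x - W221.NS.adv (u t) (f t) x - deriv (fun s => f s x) t
        ≤ C * b * (r ^ 2 + T) ^ (1 - b) * UU (u t) x ^ 2 := by
    intro t ht x hx hx0
    have hp := hτ t ht
    have e : deriv (fun s => f s x) t = C * b * (sg x + (T - t)) ^ (-b - 1) := by
      rw [hf]
      have g1 : HasDerivAt (fun s : ℝ => sg x + (T - s)) (-1) t := by
        simpa using ((hasDerivAt_id t).const_sub T).const_add (sg x)
      have g2 := g1.rpow_const (p := -b) (Or.inl (thr_pos hp x).ne')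
      have g3 := (g2.const_mul C).add_const C₁
      rw [g3.deriv]
      ring
    rw [e, hft]
    exact thr_ineq (hus t ht) (hsol.axi t ht) hp hb0 hb1 hC hx0 (by linarith [hx.1, ht.1]) C₁
  have hf3 : ∀ t ∈ Ioo 0 T, ∀ x, f t x ≤ |C₁| + C * (T - t) ^ (-b) := by
    intro t ht x
    have hp := hτ t ht
    have g1 : (sg x + (T - t)) ^ (-b) ≤ (T - t) ^ (-b) :=
      Real.rpow_le_rpow_of_nonpos hp (by linarith [sg_nn x]) (by linarith)
    have g2 := mul_le_mul_of_nonneg_left g1 hC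
    have g3 := le_abs_self C₁
    rw [hf]
    beta_reduce
    linarith
  have hf4 : ∀ t ∈ Ioo 0 T, ∀ x, -|C₁| ≤ f t x := by
    intro t ht x
    have g1 : 0 ≤ C * (sg x + (T - t)) ^ (-b) :=
      mul_nonneg hC (Real.rpow_nonneg (thr_pos (hτ t ht) x).le _)
    have g3 := neg_abs_le C₁
    rw [hf]
    beta_reduce
    linarith
  obtain ⟨Mb, hMb⟩ := thr_int (T := T) hK hr hT hb1 hφ
  have hf5 : ∀ t ∈ Ico T₁ T, ∫ x, φ x ^ 2 * f t x ≤ C * Mb + C₁ * ∫ x, φ x ^ 2 := by
    intro t ht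
    have hp := hτ t (hI t ht)
    have g1 := hMb (T - t) ⟨hp, by linarith [(hI t ht).1]⟩
    have i1 : Integrable (fun x => φ x ^ 2 * (sg x + (T - t)) ^ (-b)) :=
      int_cs (hφ2.mul (thr_sm hp _).continuous) hφ2c.mul_right
    have i2 : Integrable (fun x => φ x ^ 2) := int_cs hφ2 hφ2c
    have e : ∀ x, φ x ^ 2 * f t x = C * (φ x ^ 2 * (sg x + (T - t)) ^ (-b)) + C₁ * φ x ^ 2 := by
      intro x
      rw [hft]
      ring
    rw [integral_congr_ae (Eventually.of_forall e), integral_add (i1.const_mul C)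
      (i2.const_mul C₁), integral_const_mul, integral_const_mul]
    have := mul_le_mul_of_nonneg_left g1 hC
    linarith
  have jq : ContDiffOn ℝ ∞ (fun z : ℝ × V => σ * OO (u z.1) z.2 + f z.1 z.2)
      (Ioo 0 T ×ˢ univ) := (contDiffOn_const.mul jO).add jf
  have eφ : ContinuousOn (fun z : ℝ × V => φ z.2 ^ 2) (Ioo 0 T ×ˢ univ) :=
    (hφ2.comp continuous_snd).continuousOn
  have sq : ∀ t ∈ Ioo 0 T, ContDiff ℝ ∞ (fun y => σ * OO (u t) y + f t y) := fun t ht =>
    (contDiff_const.mul (hAs t ht).2.2.2).add (sf t ht)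
  rcases hcond with hcond | hcond
  · -- finite production
    obtain ⟨D, hD⟩ : ∃ D : ℝ → V → ℝ, D = fun t x => φ x ^ 2 *
      (k1 (-(σ * OO (u t) x + f t x)) * (σ * (2 * WW (u t) x * JJ (u t) x))) := ⟨_, rfl⟩
    have hDc : ContinuousOn (fun z : ℝ × V => D z.1 z.2) (Ioo 0 T ×ˢ univ) := by
      rw [hD]
      have e2 : ContinuousOn (fun z : ℝ × V => k1 (-(σ * OO (u z.1) z.2 + f z.1 z.2)))
          (Ioo 0 T ×ˢ univ) := k1_cd.continuous.comp_continuousOn jq.continuousOn.neg
      exact eφ.mul (e2.mul (continuousOn_const.mul ((continuousOn_const.mul jW.continuousOn).mul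
        jJ.continuousOn)))
    obtain ⟨hprc, N, hN⟩ := pr_N (T := T) (T₁ := T₁) hT₁ (D := D) (k := tsupport φ) hφ.cs hDc
      (fun t x hx => by
        rw [hD]
        beta_reduce
        rw [image_eq_zero_of_notMem_tsupport hx]
        ring)
      (S := fun t => {x | x ∈ Co c r h ∧
        σ * OO (u t) x + (C * (sg x + (T - t)) ^ (-b) + C₁) < 0})
      (g := fun t x => ENNReal.ofReal (σ * (2 * WW (u t) x * JJ (u t) x))) (fun t ht x => by
        by_cases hx : x ∈ {x | x ∈ Co c r h ∧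
          σ * OO (u t) x + (C * (sg x + (T - t)) ^ (-b) + C₁) < 0}
        · rw [indicator_of_mem hx]
          rcases le_total (σ * (2 * WW (u t) x * JJ (u t) x)) 0 with hw | hw
          · have : D t x ≤ 0 := by
              rw [hD]
              exact mul_nonpos_of_nonneg_of_nonpos (sq_nonneg _)
                (mul_nonpos_of_nonneg_of_nonpos (k1_nn _) hw)
            rw [ENNReal.ofReal_of_nonpos this]
            exact zero_le
          · refine ENNReal.ofReal_le_ofReal ?_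
            rw [hD]
            beta_reduce
            have hφ1 : φ x ^ 2 ≤ 1 := pow_le_one₀ (hφ.nn x) (hφ.le x)
            have h3 := k1_le (-(σ * OO (u t) x + f t x))
            have h4 := k1_nn (-(σ * OO (u t) x + f t x))
            calc φ x ^ 2 * (k1 (-(σ * OO (u t) x + f t x))
                  * (σ * (2 * WW (u t) x * JJ (u t) x)))
                ≤ 1 * (1 * (σ * (2 * WW (u t) x * JJ (u t) x))) := by
                  refine mul_le_mul hφ1 (mul_le_mul_of_nonneg_right h3 hw) (mul_nonneg h4 hw)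
                    zero_le_one
              _ = σ * (2 * WW (u t) x * JJ (u t) x) := by ring
        · rw [indicator_of_notMem hx]
          have hz : D t x = 0 := by
            by_cases hxC : x ∈ Co c r h
            · have h5 : ¬ σ * OO (u t) x + (C * (sg x + (T - t)) ^ (-b) + C₁) < 0 :=
                fun hc => hx ⟨hxC, hc⟩
              have h6 : -(σ * OO (u t) x + f t x) ≤ 0 := by
                rw [hft]
                linarith [not_lt.1 h5]
              rw [hD]
              beta_reduce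
              rw [k1_neg h6]
              ring
            · rw [hD]
              beta_reduce
              rw [hout x hxC]
              ring
          rw [hz]
          simp) hcond
    refine l1F (f := f) (pr := fun t => ∫ x, D t x) (KD := 0) (N := N) hsol hK hr hrR hhH hT₁ hφ hb
      hσ (abs_nonneg C₁) hC hb1 hKf jf hf2 hf3 hf4 hf5 hprc (fun t ht => ?_) hN
    have htI := hI t ht
    obtain ⟨-, sW, sJ, sO⟩ := hAs t htI
    have ck1 : Continuous (fun x => k1 (-(σ * OO (u t) x + f t x))) :=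
      k1_cd.continuous.comp (sq t htI).continuous.neg
    have ck2 : Continuous (fun x => k2 (-(σ * OO (u t) x + f t x))) :=
      k2_cd.continuous.comp (sq t htI).continuous.neg
    have cW : Continuous (fun x => σ * (2 * WW (u t) x * JJ (u t) x)) :=
      continuous_const.mul ((continuous_const.mul sW.continuous).mul sJ.continuous)
    rw [add_zero, hD]
    refine integral_mono (int_cs (hφ2.mul (((ck2.mul (gr2_sm (sq t htI)).continuous).neg).add
      (ck1.mul cW))) hφ2c.mul_right) (int_cs (hφ2.mul (ck1.mul cW)) hφ2c.mul_right) fun x => ?_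
    refine mul_le_mul_of_nonneg_left ?_ (sq_nonneg _)
    have g1 := mul_nonneg (k2_nn (-(σ * OO (u t) x + f t x)))
      (gr2_nn (fun y => σ * OO (u t) y + f t y) x)
    linarith
  · -- the window
    obtain ⟨B, hB0, hB⟩ := k2_bd
    obtain ⟨D, hD⟩ : ∃ D : ℝ → V → ℝ, D = fun t x => φ x ^ 2 *
      (k2 (-(σ * OO (u t) x + f t x)) * (σ ^ 2 / 4 * WW (u t) x ^ 4)) := ⟨_, rfl⟩
    have hDc : ContinuousOn (fun z : ℝ × V => D z.1 z.2) (Ioo 0 T ×ˢ univ) := by
      rw [hD]
      have e2 : ContinuousOn (fun z : ℝ × V => k2 (-(σ * OO (u z.1) z.2 + f z.1 z.2)))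
          (Ioo 0 T ×ˢ univ) := k2_cd.continuous.comp_continuousOn jq.continuousOn.neg
      exact eφ.mul (e2.mul (continuousOn_const.mul (jW.continuousOn.pow 4)))
    have hfin : ∫⁻ t in Ioo T₁ T, ∫⁻ x in {x | x ∈ Co c r h ∧
        σ * OO (u t) x + (C * (sg x + (T - t)) ^ (-b) + C₁) ∈ Ioo (-1) 0},
        ENNReal.ofReal (B * (σ ^ 2 / 4)) * ENNReal.ofReal (WW (u t) x ^ 4) < ⊤ := by
      have e : ∀ t : ℝ, ∫⁻ x in {x | x ∈ Co c r h ∧
          σ * OO (u t) x + (C * (sg x + (T - t)) ^ (-b) + C₁) ∈ Ioo (-1) 0},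
          ENNReal.ofReal (B * (σ ^ 2 / 4)) * ENNReal.ofReal (WW (u t) x ^ 4)
          = ENNReal.ofReal (B * (σ ^ 2 / 4)) * ∫⁻ x in {x | x ∈ Co c r h ∧
          σ * OO (u t) x + (C * (sg x + (T - t)) ^ (-b) + C₁) ∈ Ioo (-1) 0},
            ENNReal.ofReal (WW (u t) x ^ 4) := fun t =>
        lintegral_const_mul' _ _ ENNReal.ofReal_ne_top
      simp only [e]
      rw [lintegral_const_mul' _ _ ENNReal.ofReal_ne_top]
      exact ENNReal.mul_lt_top ENNReal.ofReal_lt_top hcond
    obtain ⟨hprc, N, hN⟩ := pr_N (T := T) (T₁ := T₁) hT₁ (D := D) (k := tsupport φ) hφ.cs hDc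
      (fun t x hx => by
        rw [hD]
        beta_reduce
        rw [image_eq_zero_of_notMem_tsupport hx]
        ring)
      (S := fun t => {x | x ∈ Co c r h ∧
        σ * OO (u t) x + (C * (sg x + (T - t)) ^ (-b) + C₁) ∈ Ioo (-1) 0})
      (g := fun t x => ENNReal.ofReal (B * (σ ^ 2 / 4)) * ENNReal.ofReal (WW (u t) x ^ 4))
      (fun t ht x => by
        by_cases hx : x ∈ {x | x ∈ Co c r h ∧
          σ * OO (u t) x + (C * (sg x + (T - t)) ^ (-b) + C₁) ∈ Ioo (-1) 0}
        · rw [indicator_of_mem hx, ← ENNReal.ofReal_mul (by positivity)]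
          refine ENNReal.ofReal_le_ofReal ?_
          rw [hD]
          beta_reduce
          have hφ1 : φ x ^ 2 ≤ 1 := pow_le_one₀ (hφ.nn x) (hφ.le x)
          have h3 := hB (-(σ * OO (u t) x + f t x))
          have h4 := k2_nn (-(σ * OO (u t) x + f t x))
          have hw : 0 ≤ σ ^ 2 / 4 * WW (u t) x ^ 4 := by positivity
          calc φ x ^ 2 * (k2 (-(σ * OO (u t) x + f t x)) * (σ ^ 2 / 4 * WW (u t) x ^ 4))
              ≤ 1 * (B * (σ ^ 2 / 4 * WW (u t) x ^ 4)) := by
                refine mul_le_mul hφ1 (mul_le_mul_of_nonneg_right h3 hw) (mul_nonneg h4 hw)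
                  zero_le_one
            _ = B * (σ ^ 2 / 4) * WW (u t) x ^ 4 := by ring
        · rw [indicator_of_notMem hx]
          have hz : D t x = 0 := by
            by_cases hxC : x ∈ Co c r h
            · have h5 : ¬ σ * OO (u t) x + (C * (sg x + (T - t)) ^ (-b) + C₁) ∈ Ioo (-1) 0 :=
                fun hc => hx ⟨hxC, hc⟩
              have h6 : k2 (-(σ * OO (u t) x + f t x)) = 0 := by
                have e : f t x = C * (sg x + (T - t)) ^ (-b) + C₁ := by rw [hft]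
                rw [← e] at h5
                by_cases h7 : σ * OO (u t) x + f t x < 0
                · refine k2_one ?_
                  by_contra hcon
                  exact h5 ⟨by linarith, h7⟩
                · exact k2_neg (by linarith)
              rw [hD]
              beta_reduce
              rw [h6]
              ring
            · rw [hD]
              beta_reduce
              rw [hout x hxC]
              ring
          rw [hz]
          simp) hfin
    refine l1F (f := f) (pr := fun t => ∫ x, D t x)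
      (KD := (volume (Co c r h)).toReal * (|σ| * (2 * K ^ 3))) (N := N) hsol hK hr hrR hhH hT₁ hφ
      hb hσ (abs_nonneg C₁) hC hb1 hKf jf hf2 hf3 hf4 hf5 hprc (fun t ht => ?_) hN
    rw [hD]
    exact win_en (q := fun y => σ * OO (u t) y + f t y) (hus t (hI t ht)) (hsol.axi t (hI t ht)) hK
      hr.le hφ (hb t ht) (sq t (hI t ht))

end Pool.Agent.V8H53.OW
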