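import Pool.Agent.V8H53.OW.L2a

/-!
Project OW: the bound of `∫ |ω_θ / ρ|` if the production of one sign above a threshold is finite or
if the production in a window is finite; thresholds centred at a point of the axis.
-/

set_option autoImplicit false

open MeasureTheory Set Metric Filter Topology
open scoped ContDiff
open H459R3.NS Pool.Agent.W268.NS Pool.Agent.Q67.VD

namespace Pool.Agent.V8H53.OW

open Pool.Agent.Q85.CC Pool.Agent.Q85.CL Pool.Agent.TH305.AX
open Pool.Agent.Q67.AXI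
open Pool.Agent.W583.MD (sm_pd cs_pd pd_mul' Z Z.add Z.sub Z.smul Z.sum int_cs Z_pd)
open Pool.Agent.TH305.DR (pd_add' pd_sub' pd_neg' pd_cmul pd_const')
open Pool.Agent.V8Lead (p_AAs p_Alg p_AxF p_H0 p_Dt p_Jnt p_EqO)
open Pool.Agent.Q175.AX (Co_open Cy_compact Co_meas Co_fin ind_int ind_val cut_dich const_pd cut_out
  cut_mem Co_sub_Cy sq_pd sg_nn gr2_nn sg_cd pd_sg gr2_sm pd_comp_at)

variable {v : V → V} {φ : V → ℝ} {c r h r1 h1 K σ : ℝ}

/-! ### The window -/

/-- Integration by parts in the term of the production. -/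
lemma win_en2 {q : V → ℝ} (hv : ContDiff ℝ ∞ v) (ha : Axi v) (hK : 0 ≤ K) (hr : 0 ≤ r)
    (hφ : Cut c r h r1 h1 K φ) (hb : ∀ x ∈ Out c r h r1 h1, BdA K v x) (hq : ContDiff ℝ ∞ q) :
    ∫ x, φ x ^ 2 * (-(k2 (-q x) * gr2 q x) + k1 (-q x) * (σ * (2 * WW v x * JJ v x))) ≤
      (∫ x, φ x ^ 2 * (k2 (-q x) * (-pd 2 q x * (pd 2 q x + σ * WW v x ^ 2))))
        + (volume (Co c r h)).toReal * (|σ| * (2 * K ^ 3)) := by
  obtain ⟨⟨-, sW, sJ, -⟩, -, -, hid⟩ := p_Alg v hv ha
  have hφ2c : HasCompactSupport (fun y => φ y ^ 2) := by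
    have e : (fun y => φ y ^ 2) = fun y => φ y * φ y := by
      funext y
      ring
    rw [e]
    exact hφ.cs.mul_right
  have hφ2 : Continuous (fun y => φ y ^ 2) := hφ.sm.continuous.pow 2
  obtain ⟨ζ, hζ⟩ : ∃ ζ : V → ℝ, ζ = fun y => φ y ^ 2 := ⟨_, rfl⟩
  have hζs : ContDiff ℝ ∞ ζ := by rw [hζ]; exact hφ.sm.pow 2
  have hζc : HasCompactSupport ζ := by rw [hζ]; exact hφ2c
  have hW2 : ContDiff ℝ ∞ (fun y => WW v y ^ 2) := sW.pow 2
  have hkq : ContDiff ℝ ∞ (fun y => k1 (-q y)) := k1_cd.comp hq.neg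
  have hqn : ContDiff ℝ ∞ (fun y => -q y) := hq.neg
  have hqp : ∀ j x, pd j (fun y => -q y) x = -pd j q x := by
    intro j x
    have e : (fun y => -q y) = fun y => (fun _ => (-1 : ℝ)) y * q y := by
      funext y
      ring
    rw [e, pd_mulf contDiff_const hq, pd_const']
    ring
  have hkp : ∀ x, pd 2 (fun y => k1 (-q y)) x = -(k2 (-q x) * pd 2 q x) := by
    intro x
    rw [pd_comp_at (k1_hd (-q x)) ((hqn.differentiable (by simp)) x), hqp]
    ring
  have Z3 := (Z_pd (hζs.mul (hkq.mul hW2)) hζc.mul_right 2).smul (-σ)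
  have ck1 : Continuous (fun x => k1 (-q x)) := hkq.continuous
  have ck2 : Continuous (fun x => k2 (-q x)) := k2_cd.continuous.comp hq.continuous.neg
  have cp2 : Continuous (pd 2 q) := (sm_pd hq 2).continuous
  have iR : Integrable (fun x => φ x ^ 2 * (k2 (-q x) *
      (-pd 2 q x * (pd 2 q x + σ * WW v x ^ 2)))) :=
    int_cs (hφ2.mul (ck2.mul (cp2.neg.mul (cp2.add (continuous_const.mul
      (sW.continuous.pow 2)))))) hφ2c.mul_right
  have iL : Integrable (fun x => φ x ^ 2 * (-(k2 (-q x) * gr2 q x)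
      + k1 (-q x) * (σ * (2 * WW v x * JJ v x)))) := by
    refine int_cs (hφ2.mul ?_) hφ2c.mul_right
    exact ((ck2.mul (gr2_sm hq).continuous).neg).add (ck1.mul (continuous_const.mul
      ((continuous_const.mul sW.continuous).mul sJ.continuous)))
  have iO := ind_int (c := c) (h := h) hr (|σ| * (2 * K ^ 3))
  have hpt : ∀ x, φ x ^ 2 * (-(k2 (-q x) * gr2 q x) + k1 (-q x) * (σ * (2 * WW v x * JJ v x))) ≤
      (-σ * pd 2 (fun y => ζ y * (k1 (-q y) * WW v y ^ 2)) x
        + φ x ^ 2 * (k2 (-q x) * (-pd 2 q x * (pd 2 q x + σ * WW v x ^ 2))))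
        + (Co c r h).indicator (fun _ : V => |σ| * (2 * K ^ 3)) x := by
    intro x
    have e2 : φ x ^ 2 = ζ x := by rw [hζ]
    have hζ0 : 0 ≤ ζ x := by rw [hζ]; positivity
    have hout : σ * (pd 2 ζ x * (k1 (-q x) * WW v x ^ 2)) ≤
        (Co c r h).indicator (fun _ : V => |σ| * (2 * K ^ 3)) x := by
      rcases cut_dich hφ x with ⟨ho, hc⟩ | ⟨k, hk⟩
      · rw [indicator_of_mem hc]
        obtain ⟨b1, b2, b3, b4, b5, b6⟩ := hb x ho
        obtain ⟨c1, c2, c3⟩ := hφ.bd x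
        have hp : |pd 2 ζ x| ≤ 2 * K := by
          rw [hζ, sq_pd hφ.sm]
          rw [abs_mul, abs_mul, abs_two, abs_of_nonneg (hφ.nn x)]
          calc 2 * φ x * |pd 2 φ x| ≤ 2 * 1 * K := by
                gcongr
                · exact hφ.le x
                · exact c1 2
            _ = 2 * K := by ring
        have t3 : |k1 (-q x) * WW v x ^ 2| ≤ 1 * K ^ 2 := by
          rw [abs_mul, abs_pow, abs_of_nonneg (k1_nn _)]
          exact mul_le_mul (k1_le _) (pow_le_pow_left₀ (abs_nonneg _) b3 2) (by positivity)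
            zero_le_one
        have t4 : |σ * (pd 2 ζ x * (k1 (-q x) * WW v x ^ 2))| ≤ |σ| * (2 * K * (1 * K ^ 2)) := by
          rw [abs_mul, abs_mul]
          exact mul_le_mul_of_nonneg_left (mul_le_mul hp t3 (abs_nonneg _) (by positivity))
            (abs_nonneg _)
        have e : |σ| * (2 * K * (1 * K ^ 2)) = |σ| * (2 * K ^ 3) := by ring
        rw [← e]
        exact (le_abs_self _).trans t4
      · have hk' : ζ =ᶠ[𝓝 x] fun _ => k ^ 2 := by
          filter_upwards [hk] with y hy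
          rw [hζ]
          beta_reduce
          rw [hy]
        obtain ⟨a1, a2, a3⟩ := const_pd hk'
        rw [a1 2, zero_mul, mul_zero]
        exact indicator_nonneg (fun _ _ => by positivity) _
    have hgr : pd 2 q x ^ 2 ≤ gr2 q x := by
      unfold gr2
      rw [Fin.sum_univ_three]
      have := sq_nonneg (pd 0 q x)
      have := sq_nonneg (pd 1 q x)
      linarith
    have hkk : 0 ≤ ζ x * k2 (-q x) := mul_nonneg hζ0 (k2_nn _)
    have h1 := mul_le_mul_of_nonneg_left hgr hkk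
    have e6 : pd 2 (fun y => ζ y * (k1 (-q y) * WW v y ^ 2)) x
        = ζ x * (k1 (-q x) * (2 * WW v x * pd 2 (WW v) x) + -(k2 (-q x) * pd 2 q x) * WW v x ^ 2)
          + pd 2 ζ x * (k1 (-q x) * WW v x ^ 2) := by
      rw [pd_mulf hζs (hkq.mul hW2), pd_mulf hkq hW2]
      beta_reduce
      rw [hkp, sq_pd sW]
    rw [e6, (hid x).2.2.2.2.2.1, e2]
    linarith
  have h1 := integral_mono iL ((Z3.1.add iR).add iO) hpt
  have h2 := integral_add (Z3.1.add iR) iO
  have h3 := integral_add Z3.1 iR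
  simp only [Pi.add_apply] at h1 h2 h3
  rw [h2, h3, Z3.2, zero_add, ind_val] at h1
  exact h1

/-! ### The threshold -/

/-- The threshold `C ((|x - a|² + T - t) ^ (-d) + (ρ² + T - t) ^ (-b))`. -/
noncomputable def thr (T C b d c t : ℝ) (x : V) : ℝ :=
  C * X2 c (T - t) x ^ (-d) + C * (sg x + (T - t)) ^ (-b)

lemma X2_pos {c τ : ℝ} (hτ : 0 < τ) (x : V) : 0 < X2 c τ x := by
  have h1 := sg_nn x
  have h2 := sq_nonneg (x 2 - c)
  unfold X2
  linarith

lemma X2_cd (c τ : ℝ) : ContDiff ℝ ∞ (X2 c τ) := by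
  unfold X2
  exact (sg_cd.add (((sm_crd 2).sub contDiff_const).pow 2)).add contDiff_const

/-- The threshold ODE. -/
lemma rpow_hd {s T t a : ℝ} (h : 0 < s + (T - t)) :
    HasDerivAt (fun t' : ℝ => (s + (T - t')) ^ (-a)) (a * (s + (T - t)) ^ (-a - 1)) t := by
  have g1 : HasDerivAt (fun t' : ℝ => s + (T - t')) (-1) t := by
    simpa using ((hasDerivAt_id t).const_sub T).const_add s
  have g2 := g1.rpow_const (p := -a) (Or.inl h.ne')
  refine g2.congr_deriv ?_
  ring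

lemma X2_hd {c T t a : ℝ} {x : V} (h : 0 < T - t) :
    HasDerivAt (fun t' : ℝ => X2 c (T - t') x ^ (-a)) (a * X2 c (T - t) x ^ (-a - 1)) t := by
  have h1 : 0 < sg x + (x 2 - c) ^ 2 + (T - t) := X2_pos h x
  exact rpow_hd h1

/-- The level function. -/
noncomputable def qq (T σ C C₁ b d c : ℝ) (u : ℝ → V → V) (t : ℝ) (x : V) : ℝ :=
  σ * OO (u t) x + (thr T C b d c t x + C₁)

/-- The condition of finite production, or of the window. -/
def CondQ (T T₁ σ C C₁ b d c : ℝ) (O : Set V) (u : ℝ → V → V) : Prop :=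
  (∫⁻ t in Ioo T₁ T, ∫⁻ x in {x | x ∈ O ∧ qq T σ C C₁ b d c u t x < 0},
    ENNReal.ofReal (σ * (2 * WW (u t) x * JJ (u t) x)) < ⊤) ∨
  (∫⁻ t in Ioo T₁ T, ∫⁻ x in {x | x ∈ O ∧ qq T σ C C₁ b d c u t x ∈ Ioo (-1) 0},
    ENNReal.ofReal (-pd 2 (qq T σ C C₁ b d c u t) x *
      (pd 2 (qq T σ C C₁ b d c u t) x + σ * WW (u t) x ^ 2)) < ⊤)

lemma CondQ.mono {T T₁ T₂ C C₁ b d c' : ℝ} {O O' : Set V} {u : ℝ → V → V}
    (h : CondQ T T₁ σ C C₁ b d c' O u) (hT : T₁ ≤ T₂) (hO : O' ⊆ O) :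
    CondQ T T₂ σ C C₁ b d c' O' u := by
  rcases h with h | h
  · left
    refine lt_of_le_of_lt ?_ h
    refine (lintegral_mono_set (Ioo_subset_Ioo_left hT)).trans' (lintegral_mono fun t => ?_)
    exact lintegral_mono_set fun x hx => ⟨hO hx.1, hx.2⟩
  · right
    refine lt_of_le_of_lt ?_ h
    refine (lintegral_mono_set (Ioo_subset_Ioo_left hT)).trans' (lintegral_mono fun t => ?_)
    exact lintegral_mono_set fun x hx => ⟨hO hx.1, hx.2⟩

end Pool.Agent.V8H53.OW
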