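import Pool.Agent.V8H53.OW.L1g
import Pool.Agent.V8H53.OW.Defs2

/-!
Project OW: the bound of `∫ |ω_θ / ρ|` if the production of `ω_θ / ρ` of one sign is finite.
-/

set_option autoImplicit false

open MeasureTheory Set Metric Filter Topology
open scoped ContDiff
open H459R3.NS Pool.Agent.W268.NS Pool.Agent.Q67.VD

namespace Pool.Agent.V8H53.OW

open Pool.Agent.Q85.CC Pool.Agent.Q85.CL Pool.Agent.TH305.AX
open Pool.Agent.Q67.AXI
open Pool.Agent.W583.MD (sm_pd cs_pd pd_mul' Z Z.add Z.sub Z.smul Z.sum int_cs Z_pd)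
open Pool.Agent.TH305.DR (pd_add' pd_sub' pd_neg' pd_cmul pd_const')
open Pool.Agent.V8Lead (p_AAs p_Alg p_AxF p_H0 p_Dt p_Jnt p_EqO)
open Pool.Agent.Q175.AX (Co_open Cy_compact Co_meas Co_fin ind_int ind_val cut_dich const_pd cut_out
  cut_mem Co_sub_Cy LL_mul LL_meas sq_pd RRsg_int RRsg_int' cs_zero lap_sm gr2_sm sg_nn RR_ev
  RR_const lap_ev lap_const pd_ev pd_comp_at gr2_nn)

variable {v : V → V} {φ : V → ℝ} {c r h r1 h1 K C₁ σ : ℝ}

/-- The linear functional at one time, with the integral over the axis. -/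
lemma sub_ax (hAx : StmAxis) {F : V → ℝ} {KF : ℝ} (hv : ContDiff ℝ ∞ v) (hd : DFO (Co c r h) v)
    (hK : 0 ≤ K) (hKF : 0 ≤ KF)
    (hr : 0 ≤ r) (hφ : Cut c r h r1 h1 K φ) (hb : ∀ x ∈ Out c r h r1 h1, BdA K v x)
    (hF : ContDiff ℝ ∞ F) (hFa : AxF F)
    (hFb : ∀ x ∈ Out c r h r1 h1, |F x| ≤ KF) :
    Integrable (fun x => φ x ^ 2 * (LL F x - W221.NS.adv v F x)) ∧
    ∫ x, φ x ^ 2 * (LL F x - W221.NS.adv v F x) ≤
      (volume (Co c r h)).toReal * (KF * (6 * K + 12 * K ^ 2))
        + 4 * Real.pi * ∫ z : ℝ, φ ![0, 0, z] ^ 2 * -F ![0, 0, z] := by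
  have hv' : ∀ i, ContDiff ℝ ∞ (fun y => v y i) := fun i => contDiff_pi.1 hv i
  obtain ⟨ζ, hζ⟩ : ∃ ζ : V → ℝ, ζ = fun y => φ y ^ 2 := ⟨_, rfl⟩
  have hζs : ContDiff ℝ ∞ ζ := by rw [hζ]; exact hφ.sm.pow 2
  have hζc : HasCompactSupport ζ := by
    have e : ζ = fun y => φ y * φ y := by
      rw [hζ]
      funext y
      ring
    rw [e]
    exact hφ.cs.mul_right
  have hζ0 : ∀ x, 0 ≤ ζ x := fun x => by rw [hζ]; positivity
  have hζp : ∀ j x, pd j ζ x = 2 * φ x * pd j φ x := fun j x => by rw [hζ, sq_pd hφ.sm]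
  have Z1 : Z (fun x => ∑ j, pd j (fun y => ζ y * pd j F y) x) :=
    Z.sum fun j => Z_pd (hζs.mul (sm_pd hF j)) hζc.mul_right j
  have Z1' : Z (fun x => ∑ j, pd j (fun y => F y * pd j ζ y) x) :=
    Z.sum fun j => Z_pd (hF.mul (sm_pd hζs j)) (cs_pd hζc j).mul_left j
  have Z2 : Z (fun x => ∑ j, pd j (fun y => ζ y * F y * v y j) x) :=
    Z.sum fun j => Z_pd ((hζs.mul hF).mul (hv' j)) hζc.mul_right.mul_right j
  have hHs : ContDiff ℝ ∞ (fun y => ζ y * F y) := hζs.mul hF
  have hHc : HasCompactSupport (fun y => ζ y * F y) := hζc.mul_right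
  have hζa : AxF ζ := fun θ x => by
    rw [hζ]
    beta_reduce
    rw [hφ.ax θ x]
  have hH2 := hAx (fun y => ζ y * F y) hHs hHc fun θ x => by
    beta_reduce
    rw [hζa θ x, hFa θ x]
  have hH : Integrable (fun x => RR (fun y => ζ y * F y) x / sg x) := by
    have h0 := RRsg_int' p_H0 (hHs.of_le (by norm_cast)) (continuous_const (y := (1 : ℝ))) hHc
    simpa using h0
  obtain ⟨B, hB⟩ : ∃ B : V → ℝ, B = fun x => F x * lap ζ x
      - 2 * (F x * (RR ζ x / sg x)) + F x * W221.NS.adv v ζ x := ⟨_, rfl⟩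
  have hlapc : HasCompactSupport (lap ζ) := Pool.Agent.Q175.AX.cs_of hζc fun x hx => by
    rw [lap_ev (cs_zero hx), lap_const]
  have hadvc : HasCompactSupport (W221.NS.adv v ζ) := Pool.Agent.Q175.AX.cs_of hζc fun x hx => by
    unfold W221.NS.adv
    refine Finset.sum_eq_zero fun j _ => ?_
    rw [pd_ev (cs_zero hx), pd_const']
    simp
  have hadvs : ContDiff ℝ ∞ (W221.NS.adv v ζ) := by
    unfold W221.NS.adv
    exact ContDiff.sum fun j _ => (hv' j).mul (sm_pd hζs j)
  have hBi : Integrable B := by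
    have j1 : Integrable (fun x => F x * lap ζ x) :=
      int_cs (hF.mul (lap_sm hζs)).continuous hlapc.mul_left
    have j2 : Integrable (fun x => F x * (RR ζ x / sg x)) :=
      RRsg_int' p_H0 (hζs.of_le (by norm_cast)) hF.continuous hζc
    have j3 : Integrable (fun x => F x * W221.NS.adv v ζ x) :=
      int_cs (hF.mul hadvs).continuous hadvc.mul_left
    rw [hB]
    exact (j1.sub (j2.const_mul 2)).add j3
  have key : ∀ x, φ x ^ 2 * (LL F x - W221.NS.adv v F x)
      = (((∑ j, pd j (fun y => ζ y * pd j F y) x)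
        - ∑ j, pd j (fun y => F y * pd j ζ y) x)
        - ∑ j, pd j (fun y => ζ y * F y * v y j) x)
        + 2 * (RR (fun y => ζ y * F y) x / sg x) + B x := by
    intro x
    have e1 : RR (fun y => ζ y * F y) x = ζ x * RR F x + F x * RR ζ x := by
      unfold RR
      rw [pd_mulf hζs hF, pd_mulf hζs hF]
      ring
    have e2 : φ x ^ 2 = ζ x := by rw [hζ]
    have hdiv : ζ x * ∑ i, pd i (fun y => v y i) x = 0 := by
      by_cases hx : x ∈ Co c r h
      · rw [hd x hx, mul_zero]
      · have h0 : φ x = 0 := by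
          by_contra hcon
          exact hx (cut_mem hφ hcon)
        rw [hζ]
        simp [h0]
    rw [e1, e2, hB]
    unfold LL lap W221.NS.adv
    simp only [Fin.sum_univ_three] at hdiv ⊢
    simp only [pd_mulf hζs (sm_pd hF _), pd_mulf hF (sm_pd hζs _), pd_mulf (hζs.mul hF) (hv' _),
      pd_mulf hζs hF]
    linear_combination F x * hdiv
  have hZ := (Z1.sub Z1').sub Z2
  have J1 := hZ.1.add (hH.const_mul 2)
  have hkey := Eventually.of_forall (f := ae (volume : Measure V)) key
  refine ⟨(J1.add hBi).congr (hkey.mono fun x hx => hx.symm), ?_⟩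
  rw [integral_congr_ae hkey]
  have E1 := integral_add J1 hBi
  have E2 := integral_add hZ.1 (hH.const_mul 2)
  simp only [Pi.add_apply] at E1 E2
  rw [E1, E2, hZ.2, integral_const_mul]
  have hBb : ∀ x, B x ≤ (Co c r h).indicator
      (fun _ : V => KF * (6 * K + 12 * K ^ 2)) x := by
    intro x
    rcases cut_dich hφ x with ⟨ho, hc⟩ | ⟨k, hk⟩
    · rw [indicator_of_mem hc]
      obtain ⟨b1, b2, b3, b4, b5, b6⟩ := hb x ho
      obtain ⟨c1, c2, c3⟩ := hφ.bd x
      have hFx : |F x| ≤ KF := hFb x ho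
      have hφ1 : |φ x| ≤ 1 := by
        rw [abs_of_nonneg (hφ.nn x)]
        exact hφ.le x
      have hlap : lap ζ x = 2 * (φ x * lap φ x) + 2 * gr2 φ x := by
        have e : ζ = fun y => φ y * φ y := by
          rw [hζ]
          funext y
          ring
        rw [e, Pool.Agent.Q175.AX.lap_mul hφ.sm hφ.sm]
        unfold gr2
        simp only [Fin.sum_univ_three]
        ring
      have hgr : gr2 φ x ≤ 3 * K ^ 2 := by
        unfold gr2
        rw [Fin.sum_univ_three]
        have hq : ∀ i, pd i φ x ^ 2 ≤ K ^ 2 := fun i => sq_le_sq' (by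
          linarith [(abs_le.1 (c1 i)).1]) (abs_le.1 (c1 i)).2
        linarith [hq 0, hq 1, hq 2]
      have hgr0 : 0 ≤ gr2 φ x := by unfold gr2; positivity
      have t1 : |F x * lap ζ x| ≤ KF * (2 * K + 6 * K ^ 2) := by
        rw [abs_mul]
        refine mul_le_mul hFx ?_ (abs_nonneg _) hKF
        rw [hlap]
        have : |φ x * lap φ x| ≤ 1 * K := by
          rw [abs_mul]
          exact mul_le_mul hφ1 c2 (abs_nonneg _) zero_le_one
        have h3 := abs_le.1 this
        rw [abs_le]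
        constructor <;> linarith [h3.1, h3.2]
      have hRζ : |RR ζ x / sg x| ≤ 2 * K := by
        have e : RR ζ x = 2 * φ x * RR φ x := by
          unfold RR
          rw [hζp, hζp]
          ring
        rw [e]
        by_cases hs : sg x = 0
        · rw [hs, div_zero, abs_zero]
          positivity
        · have hsp : 0 < sg x := lt_of_le_of_ne (sg_nn x) (Ne.symm hs)
          rw [abs_div, abs_of_pos hsp, div_le_iff₀ hsp, abs_mul, abs_mul, abs_two]
          calc 2 * |φ x| * |RR φ x| ≤ 2 * 1 * (K * sg x) := by gcongr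
            _ = 2 * K * sg x := by ring
      have t2 : |F x * (RR ζ x / sg x)| ≤ KF * (2 * K) := by
        rw [abs_mul]
        exact mul_le_mul hFx hRζ (abs_nonneg _) hKF
      have hp : ∀ j, |pd j ζ x| ≤ 2 * K := by
        intro j
        rw [hζp, abs_mul, abs_mul, abs_two]
        calc 2 * |φ x| * |pd j φ x| ≤ 2 * 1 * K := by
              gcongr
              exact c1 j
          _ = 2 * K := by ring
      have t3 : |F x * W221.NS.adv v ζ x| ≤ KF * (6 * K ^ 2) := by
        rw [abs_mul]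
        refine mul_le_mul hFx ?_ (abs_nonneg _) hKF
        unfold W221.NS.adv
        rw [Fin.sum_univ_three]
        have hq : ∀ j, |v x j * pd j ζ x| ≤ K * (2 * K) := fun j => by
          rw [abs_mul]
          exact mul_le_mul (b1 j) (hp j) (abs_nonneg _) hK
        have q0 := abs_le.1 (hq 0)
        have q1 := abs_le.1 (hq 1)
        have q2 := abs_le.1 (hq 2)
        rw [abs_le]
        constructor <;> nlinarith [q0.1, q0.2, q1.1, q1.2, q2.1, q2.2]
      rw [hB]
      beta_reduce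
      have g1 := (abs_le.1 t1).2
      have g2 := (abs_le.1 t2).1
      have g3 := (abs_le.1 t3).2
      nlinarith [g1, g2, g3]
    · have hk' : ζ =ᶠ[𝓝 x] fun _ => k ^ 2 := by
        filter_upwards [hk] with y hy
        rw [hζ]
        beta_reduce
        rw [hy]
      obtain ⟨a1, a2, a3⟩ := const_pd hk'
      have : B x = 0 := by
        rw [hB]
        unfold W221.NS.adv
        simp [a1, a2, a3]
      rw [this]
      exact indicator_nonneg (fun _ _ => by positivity) _
  have h6 : ∫ x, B x ≤ (volume (Co c r h)).toReal * (KF * (6 * K + 12 * K ^ 2)) := by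
    rw [← ind_val]
    exact integral_mono hBi (ind_int hr _) hBb
  have h7 : ∫ z : ℝ, φ ![0, 0, z] ^ 2 * -F ![0, 0, z] = -∫ z : ℝ, ζ ![0, 0, z] * F ![0, 0, z] := by
    rw [← integral_neg, hζ]
    refine integral_congr_ae (Eventually.of_forall fun z => ?_)
    ring
  rw [hH2, h7]
  linarith


end Pool.Agent.V8H53.OW
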