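import Pool.Agent.V8H53.OW.L1
import Pool.Agent.V8H53.OW.Dec2
import Pool.Agent.V8H53.AX.Tra

/-!
Project OW: regularity at a point of the axis.
-/

set_option autoImplicit false

open MeasureTheory Set Metric Filter Topology
open scoped ContDiff ENNReal
open H459R3.NS Pool.Agent.W268.NS Pool.Agent.Q67.VD

namespace Pool.Agent.V8H53.OW

open Pool.Agent.Q85.CC Pool.Agent.Q85.CL Pool.Agent.TH305.AX Pool.Agent.Q67.AXI
open Pool.Agent.Q151.AXI (bdA_mono cut_mono slice inner)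
open Pool.Agent.Q65.AXI (circ_bd)
open Pool.Agent.V8Lead
open Pool.Agent.V8H53.AX (Form Rgs Rgn p_MainS rgs_meas)
open Pool.Agent.Q175.AX (Co_open Cy_compact Co_meas Co_fin Co_sub_Cy sg_nn gr2_nn)

lemma axL_mono {T E c R H r h : ℝ} {u : ℝ → V → V} {p : ℝ → V → ℝ} (hsol : AxL T E c R H u p)
    (hsub : Co c r h ⊆ Co c R H) : AxL T E c r h u p where
  openO := Co_open c r h
  smooth_u := hsol.smooth_u
  smooth_p := hsol.smooth_p
  divfree t ht x hx := hsol.divfree t ht x (hsub hx)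
  momentum t ht x hx := hsol.momentum t ht x (hsub hx)
  en_int t ht := (hsol.en_int t ht).mono_set hsub
  en t ht := by
    refine le_trans (setIntegral_mono_set (hsol.en_int t ht) (Eventually.of_forall fun x => ?_)
      hsub.eventuallyLE) (hsol.en t ht)
    show 0 ≤ W221.NS.nsq (u t) x
    unfold W221.NS.nsq
    positivity
  dis := hsol.dis.mono_set (prod_mono subset_rfl hsub)
  prs := hsol.prs.mono_set (prod_mono subset_rfl hsub)
  axi := hsol.axi

/-- If the circulation decays at the axis then the form inequality is trivial. -/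
lemma form_dec {β M : ℝ} {O : Set V} {v : V → V} (hβ : 0 < β) (hv : Continuous v)
    (h : ∀ x ∈ O, |circ v x| ≤ M * sg x ^ (β / 2)) : Form 1 0 (1 / 2) β M 0 O v := by
  intro g _ _ _ tg _
  have h1 : 0 ≤ ∫ x in Rgs β M v, rad v x / sg x * g x ^ 2 := by
    refine setIntegral_nonneg (rgs_meas hβ hv) fun x hx => ?_
    by_cases hg : g x = 0
    · rw [hg]
      simp
    · have hxO : x ∈ O := tg (subset_tsupport g hg)
      rcases hx with hx | hx
      · exact mul_nonneg (div_nonneg (le_of_lt hx) (sg_nn x)) (sq_nonneg _)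
      · exact absurd hx (not_lt.2 (h x hxO))
  have h2 : 0 ≤ ∫ x, (gr2 g x / (((0 : ℕ) : ℝ) + 1) + 2 * g x ^ 2 / sg x) := by
    refine integral_nonneg fun x => ?_
    have h3 := gr2_nn g x
    have h4 := sg_nn x
    show 0 ≤ gr2 g x / (((0 : ℕ) : ℝ) + 1) + 2 * g x ^ 2 / sg x
    positivity
  rw [zero_mul, add_zero]
  have h5 : 0 ≤ (1 - 1 / 2) * (1 : ℝ) * ∫ x, (gr2 g x / (((0 : ℕ) : ℝ) + 1) + 2 * g x ^ 2 / sg x) :=
    mul_nonneg (by norm_num) h2
  linarith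

/-- Regularity if `ω_θ / ρ` is bounded from one side, or its integral is bounded. -/
theorem mainO (hKer : StmKer) (hOsc : StmOsc) {T E c R H T₀ C₁ σ : ℝ} {u : ℝ → V → V}
    {p : ℝ → V → ℝ} (hR : 0 < R) (hH : 0 < H) (hsol : AxL T E c R H u p) (hT₀0 : 0 ≤ T₀)
    (hT₀ : T₀ < T) (hC₁ : 0 ≤ C₁)
    (hcond : (|σ| = 1 ∧ ∀ t ∈ Ioo T₀ T, ∀ x ∈ Co c R H, sg x ≠ 0 → 0 ≤ σ * OO (u t) x + C₁) ∨
      ∀ t ∈ Ioo T₀ T, ∫ x in Co c R H, |OO (u t) x| ≤ C₁) :
    Rg T u ![0, 0, c] := by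
  have hT : 0 < T := hT₀0.trans_lt hT₀
  obtain ⟨r, hr⟩ : ∃ r : ℝ, r = min (R / 2) 1 := ⟨_, rfl⟩
  have hr0 : 0 < r := by rw [hr]; exact lt_min (by linarith) one_pos
  have hrR : r < R := by rw [hr]; exact (min_le_left _ _).trans_lt (by linarith)
  obtain ⟨h₀, hh₀⟩ : ∃ h₀ : ℝ, h₀ = min H 1 / 2 := ⟨_, rfl⟩
  have hh₀0 : 0 < h₀ := by rw [hh₀]; positivity
  have hh₀H : h₀ < H := by rw [hh₀]; have := min_le_left H 1; linarith
  have hh₀1 : h₀ < 1 := by rw [hh₀]; have := min_le_right H 1; linarith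
  obtain ⟨h, h1, hh1, hh1h, hhh₀, hG⟩ := p_Gd T E c R H u p hT hR hH hsol r h₀ hr0 hrR hh₀0 hh₀H
  have hh0 : 0 < h := hh1.trans hh1h
  have hhH : h < H := hhh₀.trans hh₀H
  obtain ⟨KB, TB, hKB, hTB0, hTBT, hbB⟩ := hG r (r / 2) le_rfl (by positivity) (by linarith)
  obtain ⟨KC, φ, hKC, hφ⟩ := p_Cut c r h (r / 2) h1 (by positivity) (by linarith) hh1 hh1h
  obtain ⟨K, hK⟩ : ∃ K : ℝ, K = max 1 (max KB KC) := ⟨_, rfl⟩
  have hK1 : 1 ≤ K := by rw [hK]; exact le_max_left _ _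
  have hKBK : KB ≤ K := by rw [hK]; exact (le_max_left _ _).trans (le_max_right _ _)
  have hKCK : KC ≤ K := by rw [hK]; exact (le_max_right _ _).trans (le_max_right _ _)
  have hK0 : 0 ≤ K := by linarith
  obtain ⟨T₁, hT₁⟩ : ∃ T₁ : ℝ, T₁ = max TB ((T₀ + T) / 2) := ⟨_, rfl⟩
  have hT₁B : TB ≤ T₁ := by rw [hT₁]; exact le_max_left _ _
  have hT₁0 : T₀ < T₁ := by
    have : (T₀ + T) / 2 ≤ T₁ := by rw [hT₁]; exact le_max_right _ _
    linarith
  have hT₁T : T₁ < T := by rw [hT₁]; exact max_lt hTBT (by linarith)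
  have hT₁p : 0 < T₁ := hTB0.trans_le hT₁B
  have hφ' := cut_mono hKCK hφ
  have hbK : ∀ t ∈ Ico T₁ T, ∀ x ∈ Out c r h (r / 2) h1, BdA K (u t) x := fun t ht x hx =>
    bdA_mono hKBK (hbB t ⟨hT₁B.trans ht.1, ht.2⟩ x hx)
  obtain ⟨C₀, hC₀, hcirc⟩ := circ_bd p_Alg p_Bar T E c R H r h T₁ K u p hsol hr0 hrR hh0 hhH hT₁p
    hT₁T (by
      intro t ht x hx hb
      refine (hbK t ht x ⟨hx, ?_⟩).2.2.1
      rcases hb with hb | hb
      · left
        rw [hb]
        exact pow_le_pow_left₀ (by positivity) (by linarith) 2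
      · right
        rw [hb]
        exact hh1h.le)
  have hsubR : Co c r h ⊆ Co c R H := Pool.Agent.Q285.AXI.co_mono hr0 hrR hhH
  have hI : ∀ t ∈ Ico T₁ T, t ∈ Ioo 0 T := fun t ht => ⟨hT₁p.trans_le ht.1, ht.2⟩
  have hOs : ∀ t ∈ Ioo 0 T, ContDiff ℝ ∞ (OO (u t)) := fun t ht =>
    (p_Alg (u t) (slice hsol.smooth_u ht) (hsol.axi t ht)).1.2.2.2
  -- the bound of the integral
  obtain ⟨M, hM⟩ : ∃ M : ℝ, ∀ t ∈ Ico T₁ T, ∫ x, φ x ^ 2 * |OO (u t) x| ≤ M := by
    rcases hcond with ⟨hσ, hO⟩ | hO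
    · refine l1 hsol hK0 hC₁ hr0 hrR hhH hT₁p hσ hφ' hbK (fun t ht x hx => ?_)
      have htI : t ∈ Ioo T₀ T := ⟨hT₁0.trans_le ht.1, ht.2⟩
      have hcont : Continuous (fun y => σ * OO (u t) y + C₁) :=
        (continuous_const.mul (hOs t (hI t ht)).continuous).add continuous_const
      have h2 : IsClosed {y : V | 0 ≤ σ * OO (u t) y + C₁} := isClosed_le continuous_const hcont
      have h3 : x ∈ closure (Co c r h ∩ {x : V | sg x ≠ 0}) :=
        Pool.Agent.Q175.AX.axis_dense.open_subset_closure_inter (Co_open c r h) hx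
      exact h2.closure_subset_iff.2 (fun y hy => hO t htI y (hsubR hy.1) hy.2) h3
    · refine ⟨C₁, fun t ht => ?_⟩
      have htI : t ∈ Ioo T₀ T := ⟨hT₁0.trans_le ht.1, ht.2⟩
      refine le_trans ?_ (hO t htI)
      have hc := (hOs t (hI t ht)).continuous
      have i1 : IntegrableOn (fun x => |OO (u t) x|) (Co c R H) :=
        (hc.abs.continuousOn.integrableOn_compact (Cy_compact hR.le)).mono_set
          (Co_sub_Cy c R H)
      rw [← integral_indicator (Co_meas c R H)]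
      refine integral_mono_of_nonneg (Eventually.of_forall fun x => ?_)
        ((integrable_indicator_iff (Co_meas c R H)).2 i1) (Eventually.of_forall fun x => ?_)
      · show 0 ≤ φ x ^ 2 * |OO (u t) x|
        positivity
      · beta_reduce
        by_cases hx : x ∈ Co c R H
        · rw [indicator_of_mem hx]
          have h2 : φ x ^ 2 ≤ 1 := pow_le_one₀ (hφ.nn x) (hφ.le x)
          calc φ x ^ 2 * |OO (u t) x| ≤ 1 * |OO (u t) x| :=
                mul_le_mul_of_nonneg_right h2 (abs_nonneg _)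
            _ = _ := one_mul _
        · have h0 : φ x = 0 := by
            by_contra hcon
            exact hx (hsubR (Pool.Agent.Q175.AX.cut_mem hφ hcon))
          rw [h0, indicator_of_notMem hx]
          simp
  -- the critical bound
  obtain ⟨Λ, hΛ, hpot⟩ := pot (c := c) hKer M hK0 (r := r) (h := h) (r1 := r / 2) (h1 := h1)
    (by positivity) (by linarith) hh1 hh1h (by linarith)
  have hsub1 : Co c (r / 2) h1 ⊆ Co c R H := fun x hx =>
    hsubR ⟨hx.1.trans (by nlinarith), hx.2.trans hh1h⟩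
  obtain ⟨β, M', T₂, r₂, h₂, hβ, hM', hT₁₂, hT₂T, hr₂, hh₂, hr₂r, hh₂h, hdec⟩ := dec hOsc hsol
    (c := c) (r := r / 2) (h := h1) (T₁ := T₁) (C₀ := C₀) (Λ := Λ) (by positivity) hh1 hsub1 hT₁p
    hT₁T hC₀ hΛ
    (fun t ht x hx => hcirc t ht x ⟨hx.1.le.trans (by nlinarith), hx.2.le.trans hh1h.le⟩)
    (fun t ht z s hs hz => hpot (u t) φ (slice hsol.smooth_u (hI t ht)) (hsol.axi t (hI t ht))
      (fun x hx => hsol.divfree t (hI t ht) x (hsubR hx)) hφ' (hbK t ht) (hM t ht) z s hs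
      (hz.trans (Co_sub_Cy _ _ _)))
  -- regularity
  have hsub2 : Co c r₂ h₂ ⊆ Co c R H := fun x hx =>
    hsub1 ⟨hx.1.trans_le (pow_le_pow_left₀ hr₂.le hr₂r 2), hx.2.trans_le hh₂h⟩
  refine p_MainS 0 T E c r₂ h₂ T₂ (1 / 2) 0 β M' u p (fun _ => 0) hr₂ hh₂ (axL_mono hsol hsub2)
    (by linarith) hT₂T (by norm_num) le_rfl (by norm_num) hβ hM' (by simp) ?_
  refine Eventually.of_forall fun t ht => ?_
  have htI : t ∈ Ioo 0 T := ⟨by linarith [ht.1], ht.2⟩
  have e : (0 : ℝ) / (T - t) + 0 = 0 := by ring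
  beta_reduce
  rw [e]
  exact form_dec hβ (slice hsol.smooth_u htI).continuous
    (fun x hx => hdec t ⟨ht.1.le, ht.2⟩ x hx)

end Pool.Agent.V8H53.OW
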