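import Pool.Agent.V8H53.OW.L2c
import Pool.Agent.V8H53.OW.MainO
import Pool.Agent.V8H53.OW.Dec2
import Pool.Agent.V8H53.AX.Tra

/-!
Project OW: regularity at a point of the axis.
-/

set_option autoImplicit false

open MeasureTheory Set Metric Filter Topology
open scoped ContDiff ENNReal
open H459R3.NS Pool.Agent.W268.NS Pool.Agent.Q67.VD

namespace Pool.Agent.V8H53.OW

open Pool.Agent.Q85.CC Pool.Agent.Q85.CL Pool.Agent.TH305.AX Pool.Agent.Q67.AXI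
open Pool.Agent.Q151.AXI (bdA_mono cut_mono slice inner)
open Pool.Agent.Q65.AXI (circ_bd)
open Pool.Agent.V8Lead
open Pool.Agent.V8H53.AX (Form Rgs Rgn p_MainS rgs_meas)
open Pool.Agent.Q175.AX (Co_open Cy_compact Co_meas Co_fin Co_sub_Cy sg_nn gr2_nn)

/-- The integral of `|ω_θ / ρ|` is bounded, for all cut-off functions such that the solution is
bounded on the outer part. -/
def L1B (T T₀ c R H : ℝ) (u : ℝ → V → V) : Prop :=
  ∀ (T₁ r h r1 h1 K : ℝ) (φ : V → ℝ), T₀ < T₁ → T₁ < T → 0 < T₁ → 0 < r1 → r1 < r → r < R →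
    0 < h1 → h1 < h → h < H → 0 ≤ K → Cut c r h r1 h1 K φ →
    (∀ t ∈ Ico T₁ T, ∀ x ∈ Out c r h r1 h1, BdA K (u t) x) →
      ∃ M : ℝ, ∀ t ∈ Ico T₁ T, ∫ x, φ x ^ 2 * |OO (u t) x| ≤ M

/-- Finite production, or a finite window. -/
lemma L1B_Q (hThr : StmThr2) (hMass : StmMass) (hHar : StmHar2)
    {T E c R H T₀ C C₁ b d σ : ℝ} {u : ℝ → V → V} {p : ℝ → V → ℝ} (hsol : AxL T E c R H u p)
    (hσ : σ ≠ 0) (hC : 0 ≤ C) (hb0 : 0 ≤ b) (hb1 : b < 1) (hd0 : 0 ≤ d) (hd1 : d < 5 / 4)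
    (hcond : CondQ T T₀ σ C C₁ b d c (Co c R H) u) : L1B T T₀ c R H u := by
  intro T₁ r h r1 h1 K φ hT₀ _ hT₁p hr1 hr1r hrR hh1 hh1h hhH hK hφ hb
  exact l2K hThr hMass hHar hsol hK hr1 hr1r hh1 hh1h hrR hhH hT₁p hφ hb hσ hC hb0 hb1 hd0 hd1
    (hcond.mono hT₀.le (Pool.Agent.Q285.AXI.co_mono (hr1.trans hr1r) hrR hhH))

/-- Bounded integral. -/
lemma L1B_int {T E c R H T₀ C₁ : ℝ} {u : ℝ → V → V} {p : ℝ → V → ℝ} (hR : 0 < R)
    (hsol : AxL T E c R H u p)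
    (hO : ∀ t ∈ Ioo T₀ T, ∫ x in Co c R H, |OO (u t) x| ≤ C₁) : L1B T T₀ c R H u := by
  intro T₁ r h r1 h1 K φ hT₁0 _ hT₁p hr1 hr1r hrR hh1 hh1h hhH hK hφ hb
  have hsubR : Co c r h ⊆ Co c R H := Pool.Agent.Q285.AXI.co_mono (hr1.trans hr1r) hrR hhH
  have hI : ∀ t ∈ Ico T₁ T, t ∈ Ioo 0 T := fun t ht => ⟨hT₁p.trans_le ht.1, ht.2⟩
  have hOs : ∀ t ∈ Ioo 0 T, ContDiff ℝ ∞ (OO (u t)) := fun t ht =>
    (p_Alg (u t) (slice hsol.smooth_u ht) (hsol.axi t ht)).1.2.2.2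
  refine ⟨C₁, fun t ht => ?_⟩
  have htI : t ∈ Ioo T₀ T := ⟨hT₁0.trans_le ht.1, ht.2⟩
  refine le_trans ?_ (hO t htI)
  have hc := (hOs t (hI t ht)).continuous
  have i1 : IntegrableOn (fun x => |OO (u t) x|) (Co c R H) :=
    (hc.abs.continuousOn.integrableOn_compact (Cy_compact hR.le)).mono_set
      (Co_sub_Cy c R H)
  rw [← integral_indicator (Co_meas c R H)]
  refine integral_mono_of_nonneg (Eventually.of_forall fun x => ?_)
    ((integrable_indicator_iff (Co_meas c R H)).2 i1) (Eventually.of_forall fun x => ?_)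
  · show 0 ≤ φ x ^ 2 * |OO (u t) x|
    positivity
  · beta_reduce
    by_cases hx : x ∈ Co c R H
    · rw [indicator_of_mem hx]
      have h2 : φ x ^ 2 ≤ 1 := pow_le_one₀ (hφ.nn x) (hφ.le x)
      calc φ x ^ 2 * |OO (u t) x| ≤ 1 * |OO (u t) x| :=
            mul_le_mul_of_nonneg_right h2 (abs_nonneg _)
        _ = _ := one_mul _
    · have h0 : φ x = 0 := by
        by_contra hcon
        exact hx (hsubR (Pool.Agent.Q175.AX.cut_mem hφ hcon))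
      rw [h0, indicator_of_notMem hx]
      simp

/-- Regularity if the integral of `|ω_θ / ρ|` is bounded. -/
theorem mainL (hKer : StmKer) (hOsc : StmOsc)
    {T E c R H T₀ : ℝ} {u : ℝ → V → V}
    {p : ℝ → V → ℝ} (hR : 0 < R) (hH : 0 < H) (hsol : AxL T E c R H u p) (hT₀0 : 0 ≤ T₀)
    (hT₀ : T₀ < T) (hL : L1B T T₀ c R H u) :
    Rg T u ![0, 0, c] := by
  have hT : 0 < T := hT₀0.trans_lt hT₀
  obtain ⟨r, hr⟩ : ∃ r : ℝ, r = min (R / 2) 1 := ⟨_, rfl⟩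
  have hr0 : 0 < r := by rw [hr]; exact lt_min (by linarith) one_pos
  have hrR : r < R := by rw [hr]; exact (min_le_left _ _).trans_lt (by linarith)
  obtain ⟨h₀, hh₀⟩ : ∃ h₀ : ℝ, h₀ = min H 1 / 2 := ⟨_, rfl⟩
  have hh₀0 : 0 < h₀ := by rw [hh₀]; positivity
  have hh₀H : h₀ < H := by rw [hh₀]; have := min_le_left H 1; linarith
  have hh₀1 : h₀ < 1 := by rw [hh₀]; have := min_le_right H 1; linarith
  obtain ⟨h, h1, hh1, hh1h, hhh₀, hG⟩ := p_Gd T E c R H u p hT hR hH hsol r h₀ hr0 hrR hh₀0 hh₀H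
  have hh0 : 0 < h := hh1.trans hh1h
  have hhH : h < H := hhh₀.trans hh₀H
  obtain ⟨KB, TB, hKB, hTB0, hTBT, hbB⟩ := hG r (r / 2) le_rfl (by positivity) (by linarith)
  obtain ⟨KC, φ, hKC, hφ⟩ := p_Cut c r h (r / 2) h1 (by positivity) (by linarith) hh1 hh1h
  obtain ⟨K, hK⟩ : ∃ K : ℝ, K = max 1 (max KB KC) := ⟨_, rfl⟩
  have hK1 : 1 ≤ K := by rw [hK]; exact le_max_left _ _
  have hKBK : KB ≤ K := by rw [hK]; exact (le_max_left _ _).trans (le_max_right _ _)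
  have hKCK : KC ≤ K := by rw [hK]; exact (le_max_right _ _).trans (le_max_right _ _)
  have hK0 : 0 ≤ K := by linarith
  obtain ⟨T₁, hT₁⟩ : ∃ T₁ : ℝ, T₁ = max TB ((T₀ + T) / 2) := ⟨_, rfl⟩
  have hT₁B : TB ≤ T₁ := by rw [hT₁]; exact le_max_left _ _
  have hT₁0 : T₀ < T₁ := by
    have : (T₀ + T) / 2 ≤ T₁ := by rw [hT₁]; exact le_max_right _ _
    linarith
  have hT₁T : T₁ < T := by rw [hT₁]; exact max_lt hTBT (by linarith)
  have hT₁p : 0 < T₁ := hTB0.trans_le hT₁B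
  have hφ' := cut_mono hKCK hφ
  have hbK : ∀ t ∈ Ico T₁ T, ∀ x ∈ Out c r h (r / 2) h1, BdA K (u t) x := fun t ht x hx =>
    bdA_mono hKBK (hbB t ⟨hT₁B.trans ht.1, ht.2⟩ x hx)
  obtain ⟨C₀, hC₀, hcirc⟩ := circ_bd p_Alg p_Bar T E c R H r h T₁ K u p hsol hr0 hrR hh0 hhH hT₁p
    hT₁T (by
      intro t ht x hx hb
      refine (hbK t ht x ⟨hx, ?_⟩).2.2.1
      rcases hb with hb | hb
      · left
        rw [hb]
        exact pow_le_pow_left₀ (by positivity) (by linarith) 2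
      · right
        rw [hb]
        exact hh1h.le)
  have hsubR : Co c r h ⊆ Co c R H := Pool.Agent.Q285.AXI.co_mono hr0 hrR hhH
  have hI : ∀ t ∈ Ico T₁ T, t ∈ Ioo 0 T := fun t ht => ⟨hT₁p.trans_le ht.1, ht.2⟩
  have hOs : ∀ t ∈ Ioo 0 T, ContDiff ℝ ∞ (OO (u t)) := fun t ht =>
    (p_Alg (u t) (slice hsol.smooth_u ht) (hsol.axi t ht)).1.2.2.2
  -- the bound of the integral
  obtain ⟨M, hM⟩ := hL T₁ r h (r / 2) h1 K φ hT₁0 hT₁T hT₁p (by positivity) (by linarith) hrR hh1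
    hh1h hhH hK0 hφ' hbK
  -- the critical bound
  obtain ⟨Λ, hΛ, hpot⟩ := pot (c := c) hKer M hK0 (r := r) (h := h) (r1 := r / 2) (h1 := h1)
    (by positivity) (by linarith) hh1 hh1h (by linarith)
  have hsub1 : Co c (r / 2) h1 ⊆ Co c R H := fun x hx =>
    hsubR ⟨hx.1.trans (by nlinarith), hx.2.trans hh1h⟩
  obtain ⟨β, M', T₂, r₂, h₂, hβ, hM', hT₁₂, hT₂T, hr₂, hh₂, hr₂r, hh₂h, hdec⟩ := dec hOsc hsol
    (c := c) (r := r / 2) (h := h1) (T₁ := T₁) (C₀ := C₀) (Λ := Λ) (by positivity) hh1 hsub1 hT₁p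
    hT₁T hC₀ hΛ
    (fun t ht x hx => hcirc t ht x ⟨hx.1.le.trans (by nlinarith), hx.2.le.trans hh1h.le⟩)
    (fun t ht z s hs hz => hpot (u t) φ (slice hsol.smooth_u (hI t ht)) (hsol.axi t (hI t ht))
      (fun x hx => hsol.divfree t (hI t ht) x (hsubR hx)) hφ' (hbK t ht) (hM t ht) z s hs
      (hz.trans (Co_sub_Cy _ _ _)))
  -- regularity
  have hsub2 : Co c r₂ h₂ ⊆ Co c R H := fun x hx =>
    hsub1 ⟨hx.1.trans_le (pow_le_pow_left₀ hr₂.le hr₂r 2), hx.2.trans_le hh₂h⟩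
  refine p_MainS 0 T E c r₂ h₂ T₂ (1 / 2) 0 β M' u p (fun _ => 0) hr₂ hh₂ (axL_mono hsol hsub2)
    (by linarith) hT₂T (by norm_num) le_rfl (by norm_num) hβ hM' (by simp) ?_
  refine Eventually.of_forall fun t ht => ?_
  have htI : t ∈ Ioo 0 T := ⟨by linarith [ht.1], ht.2⟩
  have e : (0 : ℝ) / (T - t) + 0 = 0 := by ring
  beta_reduce
  rw [e]
  exact form_dec hβ (slice hsol.smooth_u htI).continuous
    (fun x hx => hdec t ⟨ht.1.le, ht.2⟩ x hx)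

end Pool.Agent.V8H53.OW
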