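import Pool.Agent.V8H53.OW.L3a
import Pool.Agent.V8H53.OW.MainL

/-!
Project OW: the bound of `∫ |ω_θ / ρ|` if the positive part of `± ω_θ / ρ` has bounded integrals and
is integrable over the axis.
-/

set_option autoImplicit false

open MeasureTheory Set Metric Filter Topology
open scoped ContDiff
open H459R3.NS Pool.Agent.W268.NS Pool.Agent.Q67.VD

namespace Pool.Agent.V8H53.OW

open Pool.Agent.Q85.CC Pool.Agent.Q85.CL Pool.Agent.TH305.AX
open Pool.Agent.Q67.AXI
open Pool.Agent.W583.MD (sm_pd cs_pd pd_mul' Z Z.add Z.sub Z.smul Z.sum int_cs Z_pd)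
open Pool.Agent.TH305.DR (pd_add' pd_sub' pd_neg' pd_cmul pd_const')
open Pool.Agent.V8Lead (p_AAs p_Alg p_AxF p_H0 p_Dt p_Jnt p_EqO)
open Pool.Agent.Q175.AX (Co_open Cy_compact Co_meas Co_fin ind_int ind_val cut_dich const_pd cut_out
  cut_mem Co_sub_Cy sq_pd sg_nn gr2_nn sg_cd pd_sg gr2_sm pd_comp_at)

variable {v : V → V} {φ : V → ℝ} {c r h r1 h1 K σ : ℝ}

/-- The integral in time of a spatial integral which is bounded by a finite upper integral. -/
lemma pr_N1 {T T₁ : ℝ} (hT₁ : 0 < T₁) {D : ℝ → ℝ → ℝ} {k : Set ℝ} (hk : IsCompact k)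
    (hDc : ContinuousOn (fun z : ℝ × ℝ => D z.1 z.2) (Ioo 0 T ×ˢ univ))
    (hDs : ∀ t x, x ∉ k → D t x = 0) {S : ℝ → Set ℝ} {g : ℝ → ℝ → ENNReal}
    (hg : ∀ t ∈ Ioo T₁ T, ∀ x, ENNReal.ofReal (D t x) ≤ (S t).indicator (g t) x)
    (hfin : ∫⁻ t in Ioo T₁ T, ∫⁻ x in S t, g t x < ⊤) :
    ContinuousOn (fun t => ∫ x, D t x) (Ioo 0 T) ∧
    ∃ N : ℝ, ∀ t ∈ Ico T₁ T, ∫ s in T₁..t, (∫ x, D s x) ≤ N := by
  have hDt : ∀ t ∈ Ioo 0 T, Continuous (D t) := fun t ht =>
    hDc.comp_continuous (f := fun x : ℝ => ((t, x) : ℝ × ℝ)) (by fun_prop)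
      fun x => ⟨ht, mem_univ _⟩
  have hprc : ContinuousOn (fun t => ∫ x, D t x) (Ioo 0 T) :=
    continuousOn_integral_of_compact_support (k := k) hk hDc fun t x _ hx => hDs t x hx
  have hDi : ∀ t ∈ Ioo 0 T, Integrable (D t) := fun t ht =>
    (hDt t ht).integrable_of_hasCompactSupport
      (HasCompactSupport.intro hk fun x hx => hDs t x hx)
  refine ⟨hprc, ?_⟩
  obtain ⟨pr, hpr⟩ : ∃ pr : ℝ → ℝ, pr = fun t => ∫ x, D t x := ⟨_, rfl⟩
  rw [← hpr] at hprc
  obtain ⟨I, hIdef⟩ : ∃ I : ℝ → ENNReal, I = fun t => ∫⁻ x in S t, g t x := ⟨_, rfl⟩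
  have hpr1 : ∀ t ∈ Ioo T₁ T, ENNReal.ofReal (pr t) ≤ I t := by
    intro t ht
    have htI : t ∈ Ioo 0 T := ⟨hT₁.trans ht.1, ht.2⟩
    have hmi : Integrable (fun x => max (D t x) 0) := (hDi t htI).pos_part
    have h1 : pr t ≤ ∫ x, max (D t x) 0 := by
      rw [hpr]
      exact integral_mono (hDi t htI) hmi fun x => le_max_left _ _
    refine (ENNReal.ofReal_le_ofReal h1).trans ?_
    rw [ofReal_integral_eq_lintegral_ofReal hmi (Eventually.of_forall fun x => le_max_right _ _),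
      hIdef]
    refine le_trans (lintegral_mono fun x => ?_) (lintegral_indicator_le _ _)
    have h2 := hg t ht x
    rcases le_total (D t x) 0 with hw | hw
    · beta_reduce
      rw [max_eq_right hw]
      simp
    · beta_reduce
      rw [max_eq_left hw]
      exact h2
  have hfin' : ∫⁻ t in Ioo T₁ T, I t < ⊤ := by rw [hIdef]; exact hfin
  refine ⟨(∫⁻ t in Ioo T₁ T, I t).toReal, fun t ht => ?_⟩
  have e : ∫ s in T₁..t, (∫ x, D s x) = ∫ s in T₁..t, pr s := by rw [hpr]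
  rw [e]
  have hci : ContinuousOn pr (Icc T₁ t) :=
    hprc.mono fun s hs => ⟨hT₁.trans_le hs.1, hs.2.trans_lt ht.2⟩
  have hcm : ContinuousOn (fun s => max (pr s) 0) (Icc T₁ t) := hci.sup continuousOn_const
  have hm : ∫ s in T₁..t, pr s ≤ ∫ s in T₁..t, max (pr s) 0 :=
    intervalIntegral.integral_mono_on ht.1
      (hci.intervalIntegrable_of_Icc ht.1) (hcm.intervalIntegrable_of_Icc ht.1)
      fun s _ => le_max_left _ _
  refine hm.trans ?_
  have hnn : 0 ≤ᵐ[volume.restrict (Ioc T₁ t)] fun s => max (pr s) 0 :=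
    Eventually.of_forall fun s => le_max_right _ _
  rw [intervalIntegral.integral_of_le ht.1,
    integral_eq_lintegral_of_nonneg_ae hnn
      ((hcm.mono Ioc_subset_Icc_self).aestronglyMeasurable measurableSet_Ioc)]
  refine ENNReal.toReal_mono hfin'.ne ?_
  calc ∫⁻ s in Ioc T₁ t, ENNReal.ofReal (max (pr s) 0)
      ≤ ∫⁻ s in Ioc T₁ t, I s := by
        refine setLIntegral_mono' measurableSet_Ioc fun s hs => ?_
        have hs' : s ∈ Ioo T₁ T := ⟨hs.1, hs.2.trans_lt ht.2⟩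
        rcases le_total (pr s) 0 with hw | hw
        · rw [max_eq_right hw]
          simp
        · rw [max_eq_left hw]
          exact hpr1 s hs'
    _ ≤ ∫⁻ s in Ioo T₁ T, I s :=
        lintegral_mono_set fun s hs => ⟨hs.1, hs.2.trans_lt ht.2⟩

/-- One-sided bounds. -/
lemma L1B_one (hAx : StmAxis) {T E c R H T₀ M₁ s : ℝ} {u : ℝ → V → V} {p : ℝ → V → ℝ} (hR : 0 < R)
    (hsol : AxL T E c R H u p) (hs : |s| = 1)
    (hO1 : ∀ t ∈ Ioo T₀ T, ∫ x in Co c R H, max (s * OO (u t) x) 0 ≤ M₁)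
    (hO2 : ∫⁻ t in Ioo T₀ T, ∫⁻ z in Ioo (c - H) (c + H),
      ENNReal.ofReal (s * OO (u t) ![0, 0, z]) < ⊤) : L1B T T₀ c R H u := by
  intro T₁ r h r1 h1 K φ hT₁0 hT₁T hT₁ hr1 hr1r hrR hh1 hh1h hhH hK hφ hb
  have hr : 0 < r := hr1.trans hr1r
  have hsub : Co c r h ⊆ Co c R H := Pool.Agent.Q285.AXI.co_mono hr hrR hhH
  obtain ⟨-, jW, jJ, jO⟩ := p_Jnt T u hsol.smooth_u
  have hI : ∀ t ∈ Ico T₁ T, t ∈ Ioo 0 T := fun t ht => ⟨hT₁.trans_le ht.1, ht.2⟩
  have hφ2c : HasCompactSupport (fun y => φ y ^ 2) := by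
    have e : (fun y => φ y ^ 2) = fun y => φ y * φ y := by
      funext y
      ring
    rw [e]
    exact hφ.cs.mul_right
  have hφ2 : Continuous (fun y => φ y ^ 2) := hφ.sm.continuous.pow 2
  have hus : ∀ t ∈ Ioo 0 T, ContDiff ℝ ∞ (u t) := fun t ht =>
    Pool.Agent.Q285.AXI.slice hsol.smooth_u ht
  have hAs : ∀ t ∈ Ioo 0 T, ContDiff ℝ ∞ (UU (u t)) ∧ ContDiff ℝ ∞ (WW (u t)) ∧
      ContDiff ℝ ∞ (JJ (u t)) ∧ ContDiff ℝ ∞ (OO (u t)) := fun t ht =>
    (p_Alg (u t) (hus t ht) (hsol.axi t ht)).1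
  have hout : ∀ x, x ∉ Co c r h → φ x = 0 := fun x hx => by
    by_contra hcon
    exact hx (cut_mem hφ hcon)
  obtain ⟨σ, hσs⟩ : ∃ σ : ℝ, σ = -s := ⟨_, rfl⟩
  obtain ⟨S, hS⟩ : ∃ S : ℝ, S = |σ| := ⟨_, rfl⟩
  have hS1 : S = 1 := by rw [hS, hσs, abs_neg, hs]
  have hS0 : 0 < S := by rw [hS1]; exact one_pos
  -- the source
  obtain ⟨vol, hvol⟩ : ∃ vol : ℝ, vol = (volume (Co c r h)).toReal := ⟨_, rfl⟩
  have hvol0 : 0 ≤ vol := by rw [hvol]; exact ENNReal.toReal_nonneg
  have hsrc : ∀ t ∈ Ico T₁ T, Integrable (fun x => φ x ^ 2 * -(σ * (2 * WW (u t) x * JJ (u t) x))) ∧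
      ∫ x, φ x ^ 2 * -(σ * (2 * WW (u t) x * JJ (u t) x)) ≤ vol * (S * (2 * K ^ 3)) := by
    intro t ht
    obtain ⟨-, sW, sJ, -⟩ := hAs t (hI t ht)
    have hi : Integrable (fun x => φ x ^ 2 * -(σ * (2 * WW (u t) x * JJ (u t) x))) := by
      refine int_cs ?_ hφ2c.mul_right
      exact hφ2.mul ((continuous_const.mul ((continuous_const.mul sW.continuous).mul
        sJ.continuous)).neg)
    refine ⟨hi, ?_⟩
    obtain ⟨ζ, hζ⟩ : ∃ ζ : V → ℝ, ζ = fun y => φ y ^ 2 := ⟨_, rfl⟩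
    have hζs : ContDiff ℝ ∞ ζ := by rw [hζ]; exact hφ.sm.pow 2
    have hζc : HasCompactSupport ζ := by rw [hζ]; exact hφ2c
    have hW2 : ContDiff ℝ ∞ (fun y => WW (u t) y ^ 2) := sW.pow 2
    have Z3 := (Z_pd (hζs.mul hW2) hζc.mul_right 2).smul σ
    obtain ⟨-, -, -, hid⟩ := p_Alg (u t) (hus t (hI t ht)) (hsol.axi t (hI t ht))
    have iB : Integrable (fun x => -(σ * (WW (u t) x ^ 2 * pd 2 ζ x))) :=
      ((int_cs (hW2.mul (sm_pd hζs 2)).continuous (cs_pd hζc 2).mul_left).const_mul σ).neg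
    have key : ∀ x, φ x ^ 2 * -(σ * (2 * WW (u t) x * JJ (u t) x))
        = σ * pd 2 (fun y => ζ y * WW (u t) y ^ 2) x + -(σ * (WW (u t) x ^ 2 * pd 2 ζ x)) := by
      intro x
      have e2 : φ x ^ 2 = ζ x := by rw [hζ]
      rw [pd_mulf hζs hW2, sq_pd sW, (hid x).2.2.2.2.2.1, e2]
      ring
    rw [integral_congr_ae (Eventually.of_forall key), integral_add Z3.1 iB, Z3.2, zero_add,
      hvol, ← ind_val]
    refine integral_mono iB (ind_int hr.le _) fun x => ?_
    beta_reduce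
    rcases cut_dich hφ x with ⟨ho, hc⟩ | ⟨k, hk⟩
    · rw [indicator_of_mem hc]
      obtain ⟨b1, b2, b3, b4, b5, b6⟩ := hb t ht x ho
      obtain ⟨c1, c2, c3⟩ := hφ.bd x
      have hp : |pd 2 ζ x| ≤ 2 * K := by
        rw [hζ, sq_pd hφ.sm]
        rw [abs_mul, abs_mul, abs_two, abs_of_nonneg (hφ.nn x)]
        calc 2 * φ x * |pd 2 φ x| ≤ 2 * 1 * K := by
              gcongr
              · exact hφ.le x
              · exact c1 2
          _ = 2 * K := by ring
      have t4 : |σ * (WW (u t) x ^ 2 * pd 2 ζ x)| ≤ S * (K ^ 2 * (2 * K)) := by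
        rw [abs_mul, ← hS, abs_mul, abs_pow]
        exact mul_le_mul_of_nonneg_left (mul_le_mul (pow_le_pow_left₀ (abs_nonneg _) b3 2) hp
          (abs_nonneg _) (by positivity)) hS0.le
      have h6 := (abs_le.1 t4).1
      have e : S * (K ^ 2 * (2 * K)) = S * (2 * K ^ 3) := by ring
      linarith
    · have hk' : ζ =ᶠ[𝓝 x] fun _ => k ^ 2 := by
        filter_upwards [hk] with y hy
        rw [hζ]
        beta_reduce
        rw [hy]
      obtain ⟨a1, a2, a3⟩ := const_pd hk'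
      rw [a1 2, mul_zero, mul_zero, neg_zero]
      exact indicator_nonneg (fun _ _ => by positivity) _
  -- the function
  obtain ⟨F, hF⟩ : ∃ F : ℝ → V → ℝ, F = fun t x => -s * OO (u t) x := ⟨_, rfl⟩
  have jF : ContDiffOn ℝ ∞ (fun z : ℝ × V => F z.1 z.2) (Ioo 0 T ×ˢ univ) := by
    rw [hF]
    exact contDiffOn_const.mul jO
  have hdd : ∀ t ∈ Ioo 0 T, ∀ x, DifferentiableAt ℝ (fun s => OO (u s) x) t := by
    intro t ht x
    have hopen : IsOpen (Ioo (0 : ℝ) T ×ˢ (univ : Set V)) := isOpen_Ioo.prod isOpen_univ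
    have hm : ((t, x) : ℝ × V) ∈ Ioo (0 : ℝ) T ×ˢ (univ : Set V) := ⟨ht, mem_univ _⟩
    have h4 : HasFDerivAt (fun z : ℝ × V => OO (u z.1) z.2) _ (t, x) :=
      ((jO.contDiffAt (hopen.mem_nhds hm)).differentiableAt (by norm_num)).hasFDerivAt
    have h5 : HasDerivAt (fun s : ℝ => ((s, x) : ℝ × V)) ((1 : ℝ), (0 : V)) t :=
      (hasDerivAt_id t).prodMk (hasDerivAt_const t x)
    exact (h4.comp_hasDerivAt t h5).differentiableAt
  have hdF : ∀ t ∈ Ioo 0 T, ∀ x, HasDerivAt (fun s => F s x)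
      (-s * deriv (fun s => OO (u s) x) t) t := by
    intro t ht x
    rw [hF]
    exact (hdd t ht x).hasDerivAt.const_mul (-s)
  -- the integral over the axis
  have hax : Continuous (fun z : ℝ => (![0, 0, z] : V)) := by
    refine continuous_pi fun i => ?_
    fin_cases i
    · exact continuous_const
    · exact continuous_const
    · exact continuous_id
  have hφz : ∀ z : ℝ, z ∉ Icc (c - h) (c + h) → φ ![0, 0, z] = 0 := by
    intro z hz
    refine hout _ fun hx => hz ?_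
    have h3 : |z - c| < h := hx.2
    rw [abs_lt] at h3
    exact ⟨by linarith, by linarith⟩
  obtain ⟨D, hD⟩ : ∃ D : ℝ → ℝ → ℝ, D = fun t z =>
    φ ![0, 0, z] ^ 2 * (s * OO (u t) ![0, 0, z]) := ⟨_, rfl⟩
  have hDc : ContinuousOn (fun z : ℝ × ℝ => D z.1 z.2) (Ioo 0 T ×ˢ univ) := by
    rw [hD]
    have e1 : ContinuousOn (fun z : ℝ × ℝ => φ ![0, 0, z.2] ^ 2) (Ioo 0 T ×ˢ univ) :=
      ((hφ2.comp hax).comp continuous_snd).continuousOn
    have e2 : ContinuousOn (fun z : ℝ × ℝ => OO (u z.1) ![0, 0, z.2]) (Ioo 0 T ×ˢ univ) :=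
      jO.continuousOn.comp (f := fun z : ℝ × ℝ => ((z.1, ![0, 0, z.2]) : ℝ × V))
        (continuous_fst.prodMk (hax.comp continuous_snd)).continuousOn
        fun z hz => ⟨hz.1, mem_univ _⟩
    exact e1.mul (continuousOn_const.mul e2)
  obtain ⟨hprc, N, hN⟩ := pr_N1 (T := T) (T₁ := T₁) hT₁ (D := D) (k := Icc (c - h) (c + h))
    isCompact_Icc hDc (fun t x hx => by
      rw [hD]
      beta_reduce
      rw [hφz x hx]
      ring)
    (S := fun _ => Ioo (c - H) (c + H))
    (g := fun t z => ENNReal.ofReal (s * OO (u t) ![0, 0, z])) (fun t ht z => by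
      by_cases hz : z ∈ Ioo (c - H) (c + H)
      · rw [indicator_of_mem hz]
        rcases le_total (s * OO (u t) ![0, 0, z]) 0 with hw | hw
        · have : D t z ≤ 0 := by
            rw [hD]
            exact mul_nonpos_of_nonneg_of_nonpos (sq_nonneg _) hw
          rw [ENNReal.ofReal_of_nonpos this]
          exact zero_le
        · refine ENNReal.ofReal_le_ofReal ?_
          rw [hD]
          beta_reduce
          have hφ1 : φ ![0, 0, z] ^ 2 ≤ 1 := pow_le_one₀ (hφ.nn _) (hφ.le _)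
          calc _ ≤ 1 * (s * OO (u t) ![0, 0, z]) := mul_le_mul_of_nonneg_right hφ1 hw
            _ = _ := one_mul _
      · rw [indicator_of_notMem hz]
        have h1 : z ∉ Icc (c - h) (c + h) := fun h2 =>
          hz ⟨by linarith [h2.1], by linarith [h2.2]⟩
        have hz0 : D t z = 0 := by
          rw [hD]
          beta_reduce
          rw [hφz z h1]
          ring
        rw [hz0]
        simp)
    (lt_of_le_of_lt (lintegral_mono_set (Ioo_subset_Ioo_left hT₁0.le)) hO2)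
  obtain ⟨K₅, hK₅⟩ : ∃ K₅ : ℝ, K₅ = vol * (K * (6 * K + 12 * K ^ 2)) + vol * (S * (2 * K ^ 3)) :=
    ⟨_, rfl⟩
  have hK₅0 : 0 ≤ K₅ := by rw [hK₅]; positivity
  have hder : ∀ t ∈ Ico T₁ T, ∫ x, φ x ^ 2 * deriv (fun s => F s x) t
      ≤ K₅ + 4 * Real.pi * ∫ z, D t z := by
    intro t ht
    have htI := hI t ht
    obtain ⟨-, sW, sJ, sO⟩ := hAs t htI
    have hdf : DFO (Co c r h) (u t) := fun x hx => hsol.divfree t htI x (hsub hx)
    obtain ⟨o1, o2⟩ := ops_lin sO (contDiff_const (c := (0 : ℝ))) (-s)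
    have hFt : F t = fun y => -s * OO (u t) y + (fun _ => (0 : ℝ)) y := by
      rw [hF]
      funext y
      ring
    have sF : ContDiff ℝ ∞ (F t) := by
      rw [hF]
      exact contDiff_const.mul sO
    have aF : AxF (F t) := fun θ x => by
      have := (p_Alg (u t) (hus t htI) (hsol.axi t htI)).2.1.2.2.2 θ x
      rw [hF]
      beta_reduce
      rw [this]
    have hc0 : ∀ x, LL (fun _ : V => (0 : ℝ)) x = 0 := by
      intro x
      unfold LL lap RR
      simp only [pd_const']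
      simp
    have hLF : ∀ x, LL (F t) x = -s * LL (OO (u t)) x := fun x => by
      rw [hFt, o2, hc0, add_zero]
    have haF : ∀ x, W221.NS.adv (u t) (F t) x = -s * W221.NS.adv (u t) (OO (u t)) x := by
      intro x
      rw [hFt]
      unfold W221.NS.adv
      simp only [Fin.sum_univ_three, o1, pd_const']
      ring
    obtain ⟨iF, bF⟩ := sub_ax hAx (hus t htI) hdf hK hK hr.le hφ (hb t ht) sF aF (fun x hx => by
      have h5 := (hb t ht x hx).2.2.2.2.1
      rw [hF]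
      beta_reduce
      rw [abs_mul, abs_neg, hs, one_mul]
      exact h5)
    rw [← hvol] at bF
    obtain ⟨iS, bS⟩ := hsrc t ht
    obtain ⟨-, cF⟩ := dtLin jF hφ.sm hφ.cs t htI
    have e : ∫ x, φ x ^ 2 * deriv (fun s => F s x) t =
        ∫ x, (φ x ^ 2 * (LL (F t) x - W221.NS.adv (u t) (F t) x)
          + φ x ^ 2 * -(σ * (2 * WW (u t) x * JJ (u t) x))) := by
      refine integral_congr_ae ?_
      filter_upwards [Pool.Agent.Q175.AX.axis_ae] with x hx
      by_cases hxC : x ∈ Co c r h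
      · rw [(hdF t htI x).deriv, (p_EqO T E c R H u p hsol t htI x (hsub hxC) hx).deriv, hLF, haF,
          hσs]
        ring
      · rw [hout x hxC]
        ring
    have e2 : ∫ z : ℝ, φ ![0, 0, z] ^ 2 * -F t ![0, 0, z] = ∫ z, D t z := by
      refine integral_congr_ae (Eventually.of_forall fun z => ?_)
      rw [hD, hF]
      ring
    rw [e2] at bF
    rw [e, integral_add iF iS, hK₅]
    linarith
  -- integration in time
  refine ⟨2 * M₁ + ((∫ x, φ x ^ 2 * F T₁ x) + K₅ * (T - T₁) + 4 * Real.pi * N), fun t ht => ?_⟩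
  have hIs : ∀ s ∈ Icc T₁ t, s ∈ Ioo 0 T := fun s hs =>
    ⟨hT₁.trans_le hs.1, hs.2.trans_lt ht.2⟩
  have hd := dtLin jF hφ.sm hφ.cs
  have hprI : ContinuousOn (fun t => ∫ z, D t z) (Icc T₁ t) := hprc.mono hIs
  have hpri' : IntervalIntegrable (fun t => ∫ z, D t z) volume T₁ t :=
    hprI.intervalIntegrable_of_Icc ht.1
  have h1 := intervalIntegral.sub_le_integral_of_hasDeriv_right_of_le (a := T₁) (b := t)
    (g := fun t => ∫ x, φ x ^ 2 * F t x)
    (g' := fun t => ∫ x, φ x ^ 2 * deriv (fun s => F s x) t)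
    (φ := fun s => K₅ + 4 * Real.pi * ∫ z, D s z) ht.1
    (fun s hs => (hd s (hIs s hs)).1.continuousAt.continuousWithinAt)
    (fun s hs => (hd s (hIs s (Ioo_subset_Icc_self hs))).1.hasDerivWithinAt)
    ((continuousOn_const.add (continuousOn_const.mul hprI)).integrableOn_Icc)
    (fun s hs => hder s ⟨hs.1.le, hs.2.trans ht.2⟩)
  rw [intervalIntegral.integral_add (by simp) (hpri'.const_mul (4 * Real.pi)),
    intervalIntegral.integral_const_mul, intervalIntegral.integral_const, smul_eq_mul] at h1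
  have h2 := mul_le_mul_of_nonneg_left (hN t ht) (show 0 ≤ 4 * Real.pi by positivity)
  have h3 : (t - T₁) * K₅ ≤ K₅ * (T - T₁) := by
    rw [mul_comm]
    exact mul_le_mul_of_nonneg_left (by linarith [ht.2]) hK₅0
  have htI := hI t ht
  have sO := (hAs t htI).2.2.2
  have cm : Continuous (fun x => max (s * OO (u t) x) 0) :=
    (continuous_const.mul sO.continuous).max continuous_const
  have cF : Continuous (F t) := by
    rw [hF]
    exact continuous_const.mul sO.continuous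
  have im : Integrable (fun x => φ x ^ 2 * max (s * OO (u t) x) 0) :=
    int_cs (hφ2.mul cm) hφ2c.mul_right
  have iF : Integrable (fun x => φ x ^ 2 * F t x) := int_cs (hφ2.mul cF) hφ2c.mul_right
  have e3 : ∀ x, φ x ^ 2 * |OO (u t) x|
      = 2 * (φ x ^ 2 * max (s * OO (u t) x) 0) + φ x ^ 2 * F t x := by
    intro x
    have e4 : |OO (u t) x| = |s * OO (u t) x| := by rw [abs_mul, hs, one_mul]
    have e5 : |s * OO (u t) x| = 2 * max (s * OO (u t) x) 0 - s * OO (u t) x := by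
      rcases le_total (s * OO (u t) x) 0 with h6 | h6
      · rw [abs_of_nonpos h6, max_eq_right h6]
        ring
      · rw [abs_of_nonneg h6, max_eq_left h6]
        ring
    rw [e4, e5, hF]
    ring
  rw [integral_congr_ae (Eventually.of_forall e3), integral_add (im.const_mul 2) iF,
    integral_const_mul]
  have h4 : ∫ x, φ x ^ 2 * max (s * OO (u t) x) 0 ≤ M₁ := by
    refine le_trans ?_ (hO1 t ⟨hT₁0.trans_le ht.1, ht.2⟩)
    have i1 : IntegrableOn (fun x => max (s * OO (u t) x) 0) (Co c R H) :=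
      (cm.continuousOn.integrableOn_compact (Cy_compact hR.le)).mono_set (Co_sub_Cy c R H)
    rw [← integral_indicator (Co_meas c R H)]
    refine integral_mono im ((integrable_indicator_iff (Co_meas c R H)).2 i1) fun x => ?_
    by_cases hx : x ∈ Co c R H
    · rw [indicator_of_mem hx]
      have h2 : φ x ^ 2 ≤ 1 := pow_le_one₀ (hφ.nn x) (hφ.le x)
      calc φ x ^ 2 * max (s * OO (u t) x) 0 ≤ 1 * max (s * OO (u t) x) 0 :=
            mul_le_mul_of_nonneg_right h2 (le_max_right _ _)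
        _ = _ := one_mul _
    · have h0 : φ x = 0 := hout x fun hxC => hx (hsub hxC)
      rw [indicator_of_notMem hx]
      beta_reduce
      rw [h0]
      simp
  beta_reduce at h1
  linarith

end Pool.Agent.V8H53.OW
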