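import Pool.Agent.V8H53.OW.L4a
import Pool.Agent.V8H53.OW.L2c

/-!
Project OW: the threshold with `|v_θ / ρ|`.
-/

set_option autoImplicit false

open MeasureTheory Set Metric Filter Topology
open scoped ContDiff
open H459R3.NS Pool.Agent.W268.NS Pool.Agent.Q67.VD

namespace Pool.Agent.V8H53.OW

open Pool.Agent.Q85.CC Pool.Agent.Q85.CL Pool.Agent.TH305.AX
open Pool.Agent.Q67.AXI
open Pool.Agent.W583.MD (sm_pd cs_pd pd_mul' Z Z.add Z.sub Z.smul Z.sum int_cs Z_pd)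
open Pool.Agent.TH305.DR (pd_add' pd_sub' pd_neg' pd_cmul pd_const')
open Pool.Agent.V8Lead (p_AAs p_Alg p_AxF p_H0 p_Dt p_Jnt p_EqO p_EqW)
open Pool.Agent.Q175.AX (Co_open Cy_compact Co_meas Co_fin ind_int ind_val cut_dich const_pd cut_out
  cut_mem Co_sub_Cy sq_pd sg_nn gr2_nn sg_cd pd_sg gr2_sm pd_comp_at)

variable {c l : ℝ}

/-- Composition with `sq0`. -/
lemma ops_S (hl : 0 < l) {g : V → ℝ} (hg : ContDiff ℝ ∞ g) :
    ContDiff ℝ ∞ (fun y => sq0 l (g y)) ∧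
    (∀ j, pd j (fun y => sq0 l (g y)) = fun y => sq1 l (g y) * pd j g y) ∧
    ∀ x, LL (fun y => sq0 l (g y)) x = sq2 l (g x) * gr2 g x + sq1 l (g x) * LL g x := by
  have hp : ∀ j, pd j (fun y => sq0 l (g y)) = fun y => sq1 l (g y) * pd j g y := by
    intro j
    funext x
    rw [pd_comp_at (sq0_hd hl _) ((hg.differentiable (by simp)) x)]
  have h1s : ContDiff ℝ ∞ (fun y => sq1 l (g y)) := (sq1_cd hl).comp hg
  have hpp : ∀ j x, pd j (fun y => sq1 l (g y) * pd j g y) x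
      = sq2 l (g x) * pd j g x ^ 2 + sq1 l (g x) * pd j (pd j g) x := by
    intro j x
    rw [pd_mulf h1s (sm_pd hg j)]
    beta_reduce
    rw [pd_comp_at (sq1_hd hl _) ((hg.differentiable (by simp)) x)]
    ring
  refine ⟨(sq0_cd hl).comp hg, hp, fun x => ?_⟩
  unfold LL lap RR gr2
  simp only [Fin.sum_univ_three, hp, hpp]
  ring

/-- The equation of `√(l² + W²)`. -/
lemma sq_eq {T E R H : ℝ} {u : ℝ → V → V} {p : ℝ → V → ℝ} (hsol : AxL T E c R H u p)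
    (hl : 0 < l) {t : ℝ} (ht : t ∈ Ioo 0 T) {x : V} (hx : x ∈ Co c R H) (hx0 : sg x ≠ 0) :
    LL (fun y => sq0 l (WW (u t) y)) x - W221.NS.adv (u t) (fun y => sq0 l (WW (u t) y)) x
      - deriv (fun s => sq0 l (WW (u s) x)) t
      = sq2 l (WW (u t) x) * gr2 (WW (u t)) x
        + sq1 l (WW (u t) x) * (2 * UU (u t) x * WW (u t) x) := by
  have hus : ContDiff ℝ ∞ (u t) := Pool.Agent.Q285.AXI.slice hsol.smooth_u ht
  obtain ⟨-, sW, -, -⟩ := (p_Alg (u t) hus (hsol.axi t ht)).1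
  obtain ⟨-, o2, o3⟩ := ops_S hl sW
  have h1 := HasDerivAt.comp t (sq0_hd hl (WW (u t) x)) (p_EqW T E c R H u p hsol t ht x hx hx0)
  have h2 : deriv (fun s => sq0 l (WW (u s) x)) t = _ := h1.deriv
  have h3 : W221.NS.adv (u t) (fun y => sq0 l (WW (u t) y)) x
      = sq1 l (WW (u t) x) * W221.NS.adv (u t) (WW (u t)) x := by
    unfold W221.NS.adv
    simp only [Fin.sum_univ_three, o2]
    ring
  rw [o3, h2, h3]
  ring

/-- The level function. -/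
noncomputable def qr (T σ C C₂ C₁ b d c l : ℝ) (u : ℝ → V → V) (t : ℝ) (x : V) : ℝ :=
  σ * OO (u t) x + (C₂ * sq0 l (WW (u t) x) + (thr T C b d c t x + C₁))

/-- The condition of finite production, or of the window. -/
def CondR (T T₁ σ C C₂ C₁ b d c l : ℝ) (O : Set V) (u : ℝ → V → V) : Prop :=
  (∫⁻ t in Ioo T₁ T, ∫⁻ x in {x | x ∈ O ∧ qr T σ C C₂ C₁ b d c l u t x < 0},
    ENNReal.ofReal (σ * (2 * WW (u t) x * JJ (u t) x)) < ⊤) ∨
  (∫⁻ t in Ioo T₁ T, ∫⁻ x in {x | x ∈ O ∧ qr T σ C C₂ C₁ b d c l u t x ∈ Ioo (-1) 0},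
    ENNReal.ofReal (-pd 2 (qr T σ C C₂ C₁ b d c l u t) x *
      (pd 2 (qr T σ C C₂ C₁ b d c l u t) x + σ * WW (u t) x ^ 2)) < ⊤)

lemma CondR.mono {T T₁ T₂ σ C C₂ C₁ b d c' l : ℝ} {O O' : Set V} {u : ℝ → V → V}
    (h : CondR T T₁ σ C C₂ C₁ b d c' l O u) (hT : T₁ ≤ T₂) (hO : O' ⊆ O) :
    CondR T T₂ σ C C₂ C₁ b d c' l O' u := by
  rcases h with h | h
  · left
    refine lt_of_le_of_lt ?_ h
    refine (lintegral_mono_set (Ioo_subset_Ioo_left hT)).trans' (lintegral_mono fun t => ?_)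
    exact lintegral_mono_set fun x hx => ⟨hO hx.1, hx.2⟩
  · right
    refine lt_of_le_of_lt ?_ h
    refine (lintegral_mono_set (Ioo_subset_Ioo_left hT)).trans' (lintegral_mono fun t => ?_)
    exact lintegral_mono_set fun x hx => ⟨hO hx.1, hx.2⟩

end Pool.Agent.V8H53.OW
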