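import Pool.Agent.V8H53.OW.L4b

/-!
Project OW: the bound of `∫ |ω_θ / ρ|` if the net production is bounded; thresholds with
`|v_θ / ρ|`.
-/

set_option autoImplicit false

open MeasureTheory Set Metric Filter Topology
open scoped ContDiff
open H459R3.NS Pool.Agent.W268.NS Pool.Agent.Q67.VD

namespace Pool.Agent.V8H53.OW

open Pool.Agent.Q85.CC Pool.Agent.Q85.CL Pool.Agent.TH305.AX
open Pool.Agent.Q67.AXI
open Pool.Agent.W583.MD (sm_pd cs_pd pd_mul' Z Z.add Z.sub Z.smul Z.sum int_cs Z_pd)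
open Pool.Agent.TH305.DR (pd_add' pd_sub' pd_neg' pd_cmul pd_const')
open Pool.Agent.V8Lead (p_AAs p_Alg p_AxF p_H0 p_Dt p_Jnt p_EqO)
open Pool.Agent.Q175.AX (Co_open Cy_compact Co_meas Co_fin ind_int ind_val cut_dich const_pd cut_out
  cut_mem Co_sub_Cy sq_pd sg_nn gr2_nn sg_cd pd_sg gr2_sm pd_comp_at)

variable {v : V → V} {φ : V → ℝ} {c r h r1 h1 K σ : ℝ}

/-- The bound of the integral. -/
theorem l5K (hThr : StmThr2) (hMass : StmMass) (hHar : StmHar2) (hW1 : StmW1)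
    {T E R H T₁ C C₂ C₁ b d l KD N : ℝ} {pr : ℝ → ℝ}
    {u : ℝ → V → V} {p : ℝ → V → ℝ} (hsol : AxL T E c R H u p)
    (hK : 0 ≤ K) (hr1 : 0 < r1) (hr1r : r1 < r) (hh1 : 0 < h1) (hh1h : h1 < h)
    (hrR : r < R) (hhH : h < H) (hT₁ : 0 < T₁)
    (hφ : Cut c r h r1 h1 K φ) (hb : ∀ t ∈ Ico T₁ T, ∀ x ∈ Out c r h r1 h1, BdA K (u t) x)
    (hσ : σ ≠ 0) (hC : 0 ≤ C) (hb0 : 0 ≤ b) (hb1 : b < 1) (hd0 : 0 ≤ d) (hd1 : d < 5 / 4)
    (hl : 0 < l) (hC₂ : 0 ≤ C₂) (hprc : ContinuousOn pr (Ioo 0 T))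
    (hR1 : ∀ t ∈ Ico T₁ T, ∫ x, φ x ^ 2 *
      (-(k2 (-qr T σ C C₂ C₁ b d c l u t x) * gr2 (qr T σ C C₂ C₁ b d c l u t) x)
        + k1 (-qr T σ C C₂ C₁ b d c l u t x) * (σ * (2 * WW (u t) x * JJ (u t) x)))
        ≤ pr t + KD)
    (hN : ∀ t ∈ Ico T₁ T, ∫ s in T₁..t, pr s ≤ N) :
    ∃ M : ℝ, ∀ t ∈ Ico T₁ T, ∫ x, φ x ^ 2 * |OO (u t) x| ≤ M := by
  rcases le_or_gt T T₁ with hTT | hT₁T
  · exact ⟨0, fun t ht => absurd (ht.1.trans_lt ht.2) (not_lt.2 hTT)⟩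
  have hT : 0 < T := hT₁.trans hT₁T
  have hr : 0 < r := hr1.trans hr1r
  have hh : 0 < h := hh1.trans hh1h
  obtain ⟨-, jW, jJ, jO⟩ := p_Jnt T u hsol.smooth_u
  have hI : ∀ t ∈ Ico T₁ T, t ∈ Ioo 0 T := fun t ht => ⟨hT₁.trans_le ht.1, ht.2⟩
  have hφ2c : HasCompactSupport (fun y => φ y ^ 2) := by
    have e : (fun y => φ y ^ 2) = fun y => φ y * φ y := by
      funext y
      ring
    rw [e]
    exact hφ.cs.mul_right
  have hφ2 : Continuous (fun y => φ y ^ 2) := hφ.sm.continuous.pow 2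
  have hus : ∀ t ∈ Ioo 0 T, ContDiff ℝ ∞ (u t) := fun t ht =>
    Pool.Agent.Q285.AXI.slice hsol.smooth_u ht
  have hAs : ∀ t ∈ Ioo 0 T, ContDiff ℝ ∞ (UU (u t)) ∧ ContDiff ℝ ∞ (WW (u t)) ∧
      ContDiff ℝ ∞ (JJ (u t)) ∧ ContDiff ℝ ∞ (OO (u t)) := fun t ht =>
    (p_Alg (u t) (hus t ht) (hsol.axi t ht)).1
  have hout : ∀ x, x ∉ Co c r h → φ x = 0 := fun x hx => by
    by_contra hcon
    exact hx (cut_mem hφ hcon)
  have hτ : ∀ t ∈ Ioo 0 T, 0 < T - t := fun t ht => by linarith [ht.2]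
  obtain ⟨κ, hκ⟩ : ∃ κ : ℝ, κ = max 1 (2 * d - 1) := ⟨_, rfl⟩
  have hκ1 : 1 ≤ κ := by rw [hκ]; exact le_max_left _ _
  have hκ2 : κ < 3 / 2 := by rw [hκ]; exact max_lt (by norm_num) (by linarith)
  obtain ⟨X₀, hX₀⟩ : ∃ X₀ : ℝ, X₀ = r ^ 2 + h ^ 2 + T := ⟨_, rfl⟩
  have hX₀0 : 0 < X₀ := by rw [hX₀]; positivity
  have hX2 : ∀ t ∈ Ioo 0 T, ∀ x ∈ Co c r h, X2 c (T - t) x ≤ X₀ := by
    intro t ht x hx
    have h1 : (x 2 - c) ^ 2 ≤ h ^ 2 := by
      rw [← sq_abs]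
      exact pow_le_pow_left₀ (abs_nonneg _) hx.2.le 2
    have h2 := hx.1
    rw [hX₀]
    unfold X2
    linarith [ht.1]
  obtain ⟨K₀, hK₀, hThr'⟩ := hThr C d X₀ hC hd0 hd1 hX₀0
  obtain ⟨K₃, hK₃⟩ : ∃ K₃ : ℝ, K₃ = C * b * (r ^ 2 + T) ^ (1 - b) := ⟨_, rfl⟩
  have hK₃0 : 0 ≤ K₃ := by rw [hK₃]; positivity
  -- the functions
  obtain ⟨g₂, hg⟩ : ∃ g₂ : ℝ → V → ℝ, g₂ = fun t x => C * X2 c (T - t) x ^ (-d) := ⟨_, rfl⟩
  obtain ⟨g₁, hg1⟩ : ∃ g₁ : ℝ → V → ℝ, g₁ = fun t x => C * (sg x + (T - t)) ^ (-b) + C₁ :=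
    ⟨_, rfl⟩
  obtain ⟨f₀, hf₀⟩ : ∃ f : ℝ → V → ℝ, f = fun t x => 1 * g₂ t x + g₁ t x := ⟨_, rfl⟩
  obtain ⟨g₃, hg3⟩ : ∃ g₃ : ℝ → V → ℝ, g₃ = fun t x => sq0 l (WW (u t) x) := ⟨_, rfl⟩
  obtain ⟨f, hf⟩ : ∃ f : ℝ → V → ℝ, f = fun t x => C₂ * g₃ t x + f₀ t x := ⟨_, rfl⟩
  obtain ⟨G₂, hG2⟩ : ∃ G₂ : ℝ → V → ℝ, G₂ = fun t x => C₂ * g₃ t x + g₂ t x := ⟨_, rfl⟩
  obtain ⟨η₂, he2⟩ : ∃ η₂ : ℝ → V → ℝ, η₂ = fun t x => -C₂ * g₃ t x := ⟨_, rfl⟩
  obtain ⟨η, he⟩ : ∃ η : ℝ → V → ℝ, η = fun t x => K₀ / κ * X2 c (T - t) x ^ (-κ) := ⟨_, rfl⟩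
  obtain ⟨w₀, hw₀⟩ : ∃ w : ℝ → V → ℝ, w = fun t x => (K₀ + K₃) *
    (UU (u t) x ^ 2 + u t x 2 ^ 2 / X2 c (T - t) x) := ⟨_, rfl⟩
  obtain ⟨w₁, hw₁⟩ : ∃ w : ℝ → V → ℝ, w = fun t x => C₂ * (sq2 l (WW (u t) x) * gr2 (WW (u t)) x)
    + C₂ * (UU (u t) x ^ 2 + WW (u t) x ^ 2) := ⟨_, rfl⟩
  obtain ⟨w, hw⟩ : ∃ w : ℝ → V → ℝ, w = fun t x => w₀ t x + w₁ t x := ⟨_, rfl⟩
  have hgt : ∀ t, g₂ t = fun y => C * X2 c (T - t) y ^ (-d) := fun t => by rw [hg]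
  have hg1t : ∀ t, g₁ t = fun y => C * (sg y + (T - t)) ^ (-b) + C₁ := fun t => by rw [hg1]
  have hf0t : ∀ t, f₀ t = fun y => 1 * g₂ t y + g₁ t y := fun t => by rw [hf₀]
  have hg3t : ∀ t, g₃ t = fun y => sq0 l (WW (u t) y) := fun t => by rw [hg3]
  have hft : ∀ t, f t = fun y => C₂ * g₃ t y + f₀ t y := fun t => by rw [hf]
  have hG2t : ∀ t, G₂ t = fun y => C₂ * g₃ t y + g₂ t y := fun t => by rw [hG2]
  have jX : ∀ a : ℝ, ContDiffOn ℝ ∞ (fun z : ℝ × V => X2 c (T - z.1) z.2 ^ a)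
      (Ioo 0 T ×ˢ univ) := by
    intro a
    have g1 : ContDiff ℝ ∞ (fun z : ℝ × V => X2 c (T - z.1) z.2) := by
      unfold X2
      exact ((sg_cd.comp contDiff_snd).add ((((sm_crd 2).comp contDiff_snd).sub
        contDiff_const).pow 2)).add (contDiff_const.sub contDiff_fst)
    refine g1.contDiffOn.rpow_const_of_ne fun z hz => ?_
    exact (X2_pos (by linarith [hz.1.2]) z.2).ne'
  have jg : ContDiffOn ℝ ∞ (fun z : ℝ × V => g₂ z.1 z.2) (Ioo 0 T ×ˢ univ) := by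
    rw [hg]
    exact contDiffOn_const.mul (jX _)
  have jg1 : ContDiffOn ℝ ∞ (fun z : ℝ × V => g₁ z.1 z.2) (Ioo 0 T ×ˢ univ) := by
    rw [hg1]
    have g1 : ContDiff ℝ ∞ (fun z : ℝ × V => sg z.2 + (T - z.1)) :=
      (sg_cd.comp contDiff_snd).add (contDiff_const.sub contDiff_fst)
    refine (contDiffOn_const.mul (g1.contDiffOn.rpow_const_of_ne fun z hz => ?_)).add
      contDiffOn_const
    exact (thr_pos (by linarith [hz.1.2]) z.2).ne'
  have jf0 : ContDiffOn ℝ ∞ (fun z : ℝ × V => f₀ z.1 z.2) (Ioo 0 T ×ˢ univ) := by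
    rw [hf₀]
    exact (contDiffOn_const.mul jg).add jg1
  have jg3 : ContDiffOn ℝ ∞ (fun z : ℝ × V => g₃ z.1 z.2) (Ioo 0 T ×ˢ univ) := by
    rw [hg3]
    exact (sq0_cd hl).comp_contDiffOn jW
  have jf : ContDiffOn ℝ ∞ (fun z : ℝ × V => f z.1 z.2) (Ioo 0 T ×ˢ univ) := by
    rw [hf]
    exact (contDiffOn_const.mul jg3).add jf0
  have jG2 : ContDiffOn ℝ ∞ (fun z : ℝ × V => G₂ z.1 z.2) (Ioo 0 T ×ˢ univ) := by
    rw [hG2]
    exact (contDiffOn_const.mul jg3).add jg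
  have je2 : ContDiffOn ℝ ∞ (fun z : ℝ × V => η₂ z.1 z.2) (Ioo 0 T ×ˢ univ) := by
    rw [he2]
    exact contDiffOn_const.mul jg3
  have je : ContDiffOn ℝ ∞ (fun z : ℝ × V => η z.1 z.2) (Ioo 0 T ×ˢ univ) := by
    rw [he]
    exact contDiffOn_const.mul (jX _)
  have sf : ∀ t ∈ Ioo 0 T, ContDiff ℝ ∞ (f t) := fun t ht => Pool.Agent.W583.MD.slice jf ht
  have sg2 : ∀ t ∈ Ioo 0 T, ContDiff ℝ ∞ (g₂ t) := fun t ht => Pool.Agent.W583.MD.slice jg ht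
  have sg1 : ∀ t ∈ Ioo 0 T, ContDiff ℝ ∞ (g₁ t) := fun t ht => Pool.Agent.W583.MD.slice jg1 ht
  have sg3 : ∀ t ∈ Ioo 0 T, ContDiff ℝ ∞ (g₃ t) := fun t ht => Pool.Agent.W583.MD.slice jg3 ht
  have sf0 : ∀ t ∈ Ioo 0 T, ContDiff ℝ ∞ (f₀ t) := fun t ht => Pool.Agent.W583.MD.slice jf0 ht
  have hdd : ∀ {g : ℝ → V → ℝ}, ContDiffOn ℝ ∞ (fun z : ℝ × V => g z.1 z.2) (Ioo 0 T ×ˢ univ) →
      ∀ t ∈ Ioo 0 T, ∀ x, DifferentiableAt ℝ (fun s => g s x) t := by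
    intro g jg t ht x
    have hopen : IsOpen (Ioo (0 : ℝ) T ×ˢ (univ : Set V)) := isOpen_Ioo.prod isOpen_univ
    have hm : ((t, x) : ℝ × V) ∈ Ioo (0 : ℝ) T ×ˢ (univ : Set V) := ⟨ht, mem_univ _⟩
    have h4 : HasFDerivAt (fun z : ℝ × V => g z.1 z.2) _ (t, x) :=
      ((jg.contDiffAt (hopen.mem_nhds hm)).differentiableAt (by norm_num)).hasFDerivAt
    have h5 : HasDerivAt (fun s : ℝ => ((s, x) : ℝ × V)) ((1 : ℝ), (0 : V)) t :=
      (hasDerivAt_id t).prodMk (hasDerivAt_const t x)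
    exact (h4.comp_hasDerivAt t h5).differentiableAt
  have dfa : ∀ t ∈ Ioo 0 T, ∀ x, deriv (fun s => f s x) t
      = C₂ * deriv (fun s => g₃ s x) t + deriv (fun s => f₀ s x) t := by
    intro t ht x
    rw [hf]
    exact (((hdd jg3 t ht x).hasDerivAt.const_mul C₂).add (hdd jf0 t ht x).hasDerivAt).deriv
  have de2 : ∀ t ∈ Ioo 0 T, ∀ x, deriv (fun s => η₂ s x) t = -C₂ * deriv (fun s => g₃ s x) t := by
    intro t ht x
    rw [he2]
    exact ((hdd jg3 t ht x).hasDerivAt.const_mul (-C₂)).deriv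
  have hadv : ∀ {g g' : V → ℝ}, ContDiff ℝ ∞ g → ContDiff ℝ ∞ g' → ∀ (v : V → V) (x : V),
      W221.NS.adv v (fun y => C₂ * g y + g' y) x
        = C₂ * W221.NS.adv v g x + W221.NS.adv v g' x := by
    intro g g' hg hg' v x
    obtain ⟨o1, -⟩ := ops_lin hg hg' C₂
    unfold W221.NS.adv
    simp only [Fin.sum_univ_three, o1]
    ring
  have hg3e : ∀ t ∈ Ioo 0 T, ∀ x ∈ Co c r h, sg x ≠ 0 →
      LL (g₃ t) x - W221.NS.adv (u t) (g₃ t) x - deriv (fun s => g₃ s x) t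
        ≤ sq2 l (WW (u t) x) * gr2 (WW (u t)) x + (UU (u t) x ^ 2 + WW (u t) x ^ 2) ∧
      -(UU (u t) x ^ 2 + WW (u t) x ^ 2) ≤
        LL (g₃ t) x - W221.NS.adv (u t) (g₃ t) x - deriv (fun s => g₃ s x) t := by
    intro t ht x hx hx0
    have h1 := sq_eq hsol hl ht (Pool.Agent.Q285.AXI.co_mono hr hrR hhH hx) hx0
    have h2 : |sq1 l (WW (u t) x) * (2 * UU (u t) x * WW (u t) x)|
        ≤ UU (u t) x ^ 2 + WW (u t) x ^ 2 := by
      rw [abs_mul]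
      have h3 : |2 * UU (u t) x * WW (u t) x| ≤ UU (u t) x ^ 2 + WW (u t) x ^ 2 := by
        rw [abs_le]
        constructor
        · nlinarith [sq_nonneg (UU (u t) x + WW (u t) x)]
        · nlinarith [sq_nonneg (UU (u t) x - WW (u t) x)]
      calc _ ≤ 1 * |2 * UU (u t) x * WW (u t) x| :=
            mul_le_mul_of_nonneg_right (sq1_le hl _) (abs_nonneg _)
        _ ≤ _ := by rw [one_mul]; exact h3
    have h4 := abs_le.1 h2
    have h5 : 0 ≤ sq2 l (WW (u t) x) * gr2 (WW (u t)) x := mul_nonneg (sq2_nn _ _) (gr2_nn _ _)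
    rw [hg3t, hg3]
    beta_reduce
    rw [h1]
    constructor <;> linarith [h4.1, h4.2]
  have de : ∀ t ∈ Ioo 0 T, ∀ x, deriv (fun s => η s x) t = K₀ * X2 c (T - t) x ^ (-κ - 1) := by
    intro t ht x
    rw [he, ((X2_hd (c := c) (a := κ) (x := x) (hτ t ht)).const_mul (K₀ / κ)).deriv]
    field_simp
  have dg2 : ∀ t ∈ Ioo 0 T, ∀ x, HasDerivAt (fun s => g₂ s x)
      (C * (d * X2 c (T - t) x ^ (-d - 1))) t := by
    intro t ht x
    rw [hg]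
    exact (X2_hd (hτ t ht)).const_mul C
  have dg1 : ∀ t ∈ Ioo 0 T, ∀ x, HasDerivAt (fun s => g₁ s x)
      (C * (b * (sg x + (T - t)) ^ (-b - 1))) t := by
    intro t ht x
    rw [hg1]
    exact ((rpow_hd (thr_pos (hτ t ht) x)).const_mul C).add_const C₁
  have df : ∀ t ∈ Ioo 0 T, ∀ x, deriv (fun s => f₀ s x) t
      = C * (d * X2 c (T - t) x ^ (-d - 1)) + C * (b * (sg x + (T - t)) ^ (-b - 1)) := by
    intro t ht x
    rw [hf₀]
    have h3 : HasDerivAt (fun s => 1 * g₂ s x + g₁ s x)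
        (1 * (C * (d * X2 c (T - t) x ^ (-d - 1))) + C * (b * (sg x + (T - t)) ^ (-b - 1))) t :=
      ((dg2 t ht x).const_mul 1).add (dg1 t ht x)
    show deriv (fun s => 1 * g₂ s x + g₁ s x) t = _
    rw [h3.deriv]
    ring
  have he0 : ∀ t ∈ Ioo 0 T, ∀ x, 0 ≤ deriv (fun s => η s x) t := by
    intro t ht x
    rw [de t ht x]
    exact mul_nonneg hK₀ (Real.rpow_nonneg (X2_pos (hτ t ht) x).le _)
  have hw0' : ∀ t ∈ Ioo 0 T, ∀ x, 0 ≤ w₀ t x := by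
    intro t ht x
    have := (X2_pos (c := c) (hτ t ht) x)
    rw [hw₀]
    positivity
  have hw1' : ∀ t ∈ Ioo 0 T, ∀ x, 0 ≤ w₁ t x := by
    intro t ht x
    have h5 : 0 ≤ sq2 l (WW (u t) x) * gr2 (WW (u t)) x := mul_nonneg (sq2_nn _ _) (gr2_nn _ _)
    rw [hw₁]
    positivity
  have hw0 : ∀ t ∈ Ioo 0 T, ∀ x, 0 ≤ w t x := by
    intro t ht x
    rw [hw]
    exact add_nonneg (hw0' t ht x) (hw1' t ht x)
  have hThr2 : ∀ t ∈ Ioo 0 T, ∀ x ∈ Co c r h, sg x ≠ 0 → _ := fun t ht x hx hx0 =>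
    hThr' c (T - t) (u t) (hτ t ht) (hus t ht) (hsol.axi t ht) x hx0 (hX2 t ht x hx)
  have hE1' : ∀ t ∈ Ioo 0 T, ∀ x ∈ Co c r h, sg x ≠ 0 →
      LL (f₀ t) x - W221.NS.adv (u t) (f₀ t) x - deriv (fun s => f₀ s x) t
        ≤ deriv (fun s => η s x) t + w₀ t x := by
    intro t ht x hx hx0
    have hp := hτ t ht
    have h1 := (hThr2 t ht x hx hx0).1
    have h2 := thr_ineq (hus t ht) (hsol.axi t ht) hp hb0 hb1 hC hx0
      (X₀ := r ^ 2 + T) (by linarith [hx.1, ht.1]) C₁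
    rw [← hgt, ← hκ] at h1
    rw [← hg1t, ← hK₃] at h2
    have hq : 0 ≤ u t x 2 ^ 2 / X2 c (T - t) x := div_nonneg (sq_nonneg _) (X2_pos hp x).le
    have h3 : 0 ≤ K₃ * (u t x 2 ^ 2 / X2 c (T - t) x) := mul_nonneg hK₃0 hq
    rw [df t ht x, de t ht x, hf0t, (ops_lin (sg2 t ht) (sg1 t ht) 1).2,
      adv_lin (sg2 t ht) (sg1 t ht), hw₀]
    linarith
  have hE1 : ∀ t ∈ Ioo 0 T, ∀ x ∈ Co c r h, sg x ≠ 0 →
      LL (f t) x - W221.NS.adv (u t) (f t) x - deriv (fun s => f s x) t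
        ≤ deriv (fun s => η s x) t + w t x := by
    intro t ht x hx hx0
    have h1 := hE1' t ht x hx hx0
    have h2 := mul_le_mul_of_nonneg_left (hg3e t ht x hx hx0).1 hC₂
    rw [dfa t ht x, hft, (ops_lin (sg3 t ht) (sf0 t ht) C₂).2, hadv (sg3 t ht) (sf0 t ht), hw]
    beta_reduce
    rw [hw₁]
    beta_reduce
    linarith
  have hE2' : ∀ t ∈ Ioo 0 T, ∀ x ∈ Co c r h, sg x ≠ 0 →
      -(LL (g₂ t) x - W221.NS.adv (u t) (g₂ t) x) ≤ deriv (fun s => η s x) t + w₀ t x := by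
    intro t ht x hx hx0
    have hp := hτ t ht
    have h1 := (hThr2 t ht x hx hx0).2
    rw [← hgt, ← hκ] at h1
    have hq : 0 ≤ UU (u t) x ^ 2 + u t x 2 ^ 2 / X2 c (T - t) x :=
      add_nonneg (sq_nonneg _) (div_nonneg (sq_nonneg _) (X2_pos hp x).le)
    have h3 : 0 ≤ K₃ * (UU (u t) x ^ 2 + u t x 2 ^ 2 / X2 c (T - t) x) := mul_nonneg hK₃0 hq
    rw [de t ht x, hw₀]
    linarith
  have hE2 : ∀ t ∈ Ioo 0 T, ∀ x ∈ Co c r h, sg x ≠ 0 →
      -(LL (G₂ t) x - W221.NS.adv (u t) (G₂ t) x) ≤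
        deriv (fun s => η s x) t + w t x + deriv (fun s => η₂ s x) t := by
    intro t ht x hx hx0
    have h1 := hE2' t ht x hx hx0
    have h2 := mul_le_mul_of_nonneg_left (hg3e t ht x hx hx0).2 hC₂
    have h5 : 0 ≤ C₂ * (sq2 l (WW (u t) x) * gr2 (WW (u t)) x) :=
      mul_nonneg hC₂ (mul_nonneg (sq2_nn _ _) (gr2_nn _ _))
    rw [de2 t ht x, hG2t, (ops_lin (sg3 t ht) (sg2 t ht) C₂).2, hadv (sg3 t ht) (sg2 t ht), hw]
    beta_reduce
    rw [hw₁]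
    beta_reduce
    linarith
  have hf3 : ∀ t ∈ Ioo 0 T, ∀ x, f t x ≤ G₂ t x + (|C₁| + C * (T - t) ^ (-b)) := by
    intro t ht x
    have hp := hτ t ht
    have g1 : (sg x + (T - t)) ^ (-b) ≤ (T - t) ^ (-b) :=
      Real.rpow_le_rpow_of_nonpos hp (by linarith [sg_nn x]) (by linarith)
    have g2 := mul_le_mul_of_nonneg_left g1 hC
    have g3 := le_abs_self C₁
    rw [hft, hf0t, hG2, hg1]
    beta_reduce
    linarith
  have hf4 : ∀ t ∈ Ioo 0 T, ∀ x, -|C₁| ≤ f t x := by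
    intro t ht x
    have g1 : 0 ≤ C * (sg x + (T - t)) ^ (-b) :=
      mul_nonneg hC (Real.rpow_nonneg (thr_pos (hτ t ht) x).le _)
    have g2 : 0 ≤ C * X2 c (T - t) x ^ (-d) :=
      mul_nonneg hC (Real.rpow_nonneg (X2_pos (hτ t ht) x).le _)
    have g3 := neg_abs_le C₁
    have g4 : 0 ≤ C₂ * g₃ t x := by
      rw [hg3]
      exact mul_nonneg hC₂ (sq0_nn _ _)
    rw [hft, hf0t, hg1, hg]
    beta_reduce
    linarith
  obtain ⟨m₀, hm₀⟩ : ∃ m₀ : ℝ, m₀ = min (r1 ^ 2) (h1 ^ 2) := ⟨_, rfl⟩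
  have hm₀0 : 0 < m₀ := by rw [hm₀]; exact lt_min (by positivity) (by positivity)
  have hfO' : ∀ t ∈ Ico T₁ T, ∀ x ∈ Out c r h r1 h1, g₂ t x ≤ C * m₀ ^ (-d) := by
    intro t ht x hx
    have hp := hτ t (hI t ht)
    have h1 : m₀ ≤ X2 c (T - t) x := by
      have g1 := sg_nn x
      have g2 := sq_nonneg (x 2 - c)
      unfold X2
      rcases hx.2 with h3 | h3
      · have : m₀ ≤ r1 ^ 2 := by rw [hm₀]; exact min_le_left _ _
        linarith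
      · have g3 : h1 ^ 2 ≤ (x 2 - c) ^ 2 := by
          rw [← sq_abs (x 2 - c)]
          exact pow_le_pow_left₀ hh1.le h3 2
        have : m₀ ≤ h1 ^ 2 := by rw [hm₀]; exact min_le_right _ _
        linarith
    rw [hg]
    exact mul_le_mul_of_nonneg_left (Real.rpow_le_rpow_of_nonpos hm₀0 h1 (by linarith)) hC
  have hfO : ∀ t ∈ Ico T₁ T, ∀ x ∈ Out c r h r1 h1, G₂ t x ≤ C₂ * (l + K) + C * m₀ ^ (-d) := by
    intro t ht x hx
    have h1 := hfO' t ht x hx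
    have h2 : g₃ t x ≤ l + K := by
      rw [hg3]
      have := sq0_le hl (WW (u t) x)
      have h3 := (hb t ht x hx).2.2.1
      beta_reduce
      linarith
    have h4 := mul_le_mul_of_nonneg_left h2 hC₂
    rw [hG2]
    beta_reduce
    linarith
  obtain ⟨Mb, hMb⟩ := thr_int (T := T) hK hr hT hb1 hφ
  obtain ⟨Md, hMd⟩ := hMass c r h r1 h1 K T d φ hr1 hr1r hh1 hh1h hK hT (by linarith) hφ
  obtain ⟨Me, hMe⟩ := hMass c r h r1 h1 K T κ φ hr1 hr1r hh1 hh1h hK hT hκ2 hφ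
  have hτ' : ∀ t ∈ Ico T₁ T, T - t ∈ Ioc 0 T := fun t ht =>
    ⟨hτ t (hI t ht), by linarith [(hI t ht).1]⟩
  have iX : ∀ a : ℝ, ∀ t ∈ Ico T₁ T, Integrable (fun x => φ x ^ 2 * X2 c (T - t) x ^ a) := by
    intro a t ht
    refine int_cs (hφ2.mul ?_) hφ2c.mul_right
    exact ((X2_cd c (T - t)).rpow_const_of_ne fun x =>
      (X2_pos (hτ t (hI t ht)) x).ne').continuous
  obtain ⟨hWc, MW, hMW⟩ := hW1 T E c R H K r h r1 h1 T₁ l u p φ hsol hK hr hrR hhH hT₁ hT₁T hl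
    hφ hb
  have hf5' : ∀ t ∈ Ico T₁ T, ∫ x, φ x ^ 2 * f₀ t x
      ≤ C * Md + C * Mb + C₁ * ∫ x, φ x ^ 2 := by
    intro t ht
    have hp := hτ t (hI t ht)
    have g1 := hMb (T - t) (hτ' t ht)
    have g2 := hMd (T - t) (hτ' t ht)
    have i0 := iX (-d) t ht
    have i1 : Integrable (fun x => φ x ^ 2 * (sg x + (T - t)) ^ (-b)) :=
      int_cs (hφ2.mul (thr_sm hp _).continuous) hφ2c.mul_right
    have i2 : Integrable (fun x => φ x ^ 2) := int_cs hφ2 hφ2c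
    have e : ∀ x, φ x ^ 2 * f₀ t x = (C * (φ x ^ 2 * X2 c (T - t) x ^ (-d))
        + C * (φ x ^ 2 * (sg x + (T - t)) ^ (-b))) + C₁ * φ x ^ 2 := by
      intro x
      rw [hf0t, hg1t, hgt]
      ring
    have e3 := integral_add ((i0.const_mul C).add (i1.const_mul C)) (i2.const_mul C₁)
    have e4 := integral_add (i0.const_mul C) (i1.const_mul C)
    simp only [Pi.add_apply] at e3 e4
    rw [integral_congr_ae (Eventually.of_forall e), e3, e4, integral_const_mul,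
      integral_const_mul, integral_const_mul]
    have h3 := mul_le_mul_of_nonneg_left g1 hC
    have h4 := mul_le_mul_of_nonneg_left g2 hC
    linarith
  have i3' : ∀ t ∈ Ico T₁ T, Integrable (fun x => φ x ^ 2 * g₃ t x) := fun t ht =>
    int_cs (hφ2.mul (sg3 t (hI t ht)).continuous) hφ2c.mul_right
  have hf5 : ∀ t ∈ Ico T₁ T, ∫ x, φ x ^ 2 * f t x
      ≤ C₂ * MW + (C * Md + C * Mb + C₁ * ∫ x, φ x ^ 2) := by
    intro t ht
    have g1 := hf5' t ht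
    have g2 : ∫ x, φ x ^ 2 * g₃ t x ≤ MW := by
      rw [hg3t]
      exact (hMW t ht).1
    have i0 : Integrable (fun x => φ x ^ 2 * f₀ t x) :=
      int_cs (hφ2.mul (sf0 t (hI t ht)).continuous) hφ2c.mul_right
    have e : ∀ x, φ x ^ 2 * f t x = C₂ * (φ x ^ 2 * g₃ t x) + φ x ^ 2 * f₀ t x := by
      intro x
      rw [hft]
      ring
    rw [integral_congr_ae (Eventually.of_forall e), integral_add ((i3' t ht).const_mul C₂) i0,
      integral_const_mul]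
    exact add_le_add (mul_le_mul_of_nonneg_left g2 hC₂) g1
  have he7 : ∀ t ∈ Ico T₁ T, ∫ x, φ x ^ 2 * η₂ t x ≤ 0 := by
    intro t ht
    refine integral_nonpos fun x => ?_
    show φ x ^ 2 * η₂ t x ≤ 0
    have g4 : 0 ≤ C₂ * g₃ t x := by
      rw [hg3]
      exact mul_nonneg hC₂ (sq0_nn _ _)
    refine mul_nonpos_of_nonneg_of_nonpos (sq_nonneg _) ?_
    rw [he2]
    beta_reduce
    linarith
  have hKκ : 0 ≤ K₀ / κ := div_nonneg hK₀ (by linarith)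
  have he5 : ∀ t ∈ Ico T₁ T, 0 ≤ ∫ x, φ x ^ 2 * η t x := by
    intro t ht
    refine integral_nonneg fun x => mul_nonneg (sq_nonneg _) ?_
    rw [he]
    exact mul_nonneg hKκ (Real.rpow_nonneg (X2_pos (hτ t (hI t ht)) x).le _)
  have he6 : ∀ t ∈ Ico T₁ T, ∫ x, φ x ^ 2 * η t x ≤ K₀ / κ * Me := by
    intro t ht
    have g2 := hMe (T - t) (hτ' t ht)
    have e : ∀ x, φ x ^ 2 * η t x = K₀ / κ * (φ x ^ 2 * X2 c (T - t) x ^ (-κ)) := by
      intro x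
      rw [he]
      ring
    rw [integral_congr_ae (Eventually.of_forall e), integral_const_mul]
    exact mul_le_mul_of_nonneg_left g2 hKκ
  obtain ⟨Mh, hMh0, hMh⟩ := hHar c r h r1 h1 K φ hr1 hr1r hh1 hh1h hK hφ
  obtain ⟨D₀, hD₀⟩ : ∃ D₀ : ℝ → ℝ, D₀ = fun t => ∫ x in Co c r h, W221.NS.gsq (u t) x := ⟨_, rfl⟩
  have hD0nn : ∀ t, 0 ≤ D₀ t := by
    intro t
    rw [hD₀]
    exact integral_nonneg fun x => Pool.Agent.Q285.AXI.gsq_nn _ x
  have hD0int : IntegrableOn D₀ (Ioo 0 T) := by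
    rw [hD₀]
    exact Pool.Agent.Q285.AXI.dis_int (Pool.Agent.Q285.AXI.co_mono hr hrR hhH) hsol.dis
  obtain ⟨DW, hDW⟩ : ∃ DW : ℝ → ℝ, DW = fun t =>
    ∫ x, φ x ^ 2 * (sq2 l (WW (u t) x) * gr2 (WW (u t)) x) := ⟨_, rfl⟩
  have hDWnn : ∀ t, 0 ≤ DW t := by
    intro t
    rw [hDW]
    exact integral_nonneg fun x => mul_nonneg (sq_nonneg _) (mul_nonneg (sq2_nn _ _) (gr2_nn _ _))
  rw [← hDW] at hWc
  obtain ⟨G, hG⟩ : ∃ G : ℝ → ℝ, G = fun t => (K₀ + K₃) * (1 + Mh) * (D₀ t + 1)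
    + (C₂ * DW t + C₂ * D₀ t) := ⟨_, rfl⟩
  have hw5' : ∀ t ∈ Ico T₁ T, Integrable (fun x => φ x ^ 2 * w₀ t x) ∧
      ∫ x, φ x ^ 2 * w₀ t x ≤ (K₀ + K₃) * (1 + Mh) * (D₀ t + 1) := by
    rw [hD₀]
    intro t ht
    have htI := hI t ht
    have hp := hτ t htI
    obtain ⟨sU, -, -, -⟩ := hAs t htI
    have hu2 : ContDiff ℝ ∞ (fun y => u t y 2) := contDiff_pi.1 (hus t htI) 2
    have i1 : Integrable (fun x => φ x ^ 2 * UU (u t) x ^ 2) :=
      int_cs (hφ2.mul (sU.continuous.pow 2)) hφ2c.mul_right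
    have i2 : Integrable (fun x => φ x ^ 2 * (u t x 2 ^ 2 / X2 c (T - t) x)) := by
      refine int_cs (hφ2.mul ?_) hφ2c.mul_right
      exact (hu2.continuous.pow 2).div (X2_cd c (T - t)).continuous fun x => (X2_pos hp x).ne'
    have e : ∀ x, φ x ^ 2 * w₀ t x = (K₀ + K₃) * (φ x ^ 2 * UU (u t) x ^ 2
        + φ x ^ 2 * (u t x 2 ^ 2 / X2 c (T - t) x)) := by
      intro x
      rw [hw₀]
      ring
    have i3 := (i1.add i2).const_mul (K₀ + K₃)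
    refine ⟨i3.congr (Eventually.of_forall fun x => (e x).symm), ?_⟩
    rw [integral_congr_ae (Eventually.of_forall e), integral_const_mul, integral_add i1 i2,
      mul_assoc]
    refine mul_le_mul_of_nonneg_left ?_ (by positivity)
    have hgc : Continuous (W221.NS.gsq (u t)) := Pool.Agent.Q153.AXI.gsqCont (hus t htI)
    have i4 : IntegrableOn (W221.NS.gsq (u t)) (Co c r h) :=
      (hgc.continuousOn.integrableOn_compact (Cy_compact hr.le)).mono_set (Co_sub_Cy c r h)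
    have hG0 : 0 ≤ ∫ x in Co c r h, W221.NS.gsq (u t) x :=
      integral_nonneg fun x => Pool.Agent.Q285.AXI.gsq_nn _ x
    have h1 : ∫ x, φ x ^ 2 * UU (u t) x ^ 2 ≤ ∫ x in Co c r h, W221.NS.gsq (u t) x := by
      rw [← integral_indicator (Co_meas c r h)]
      refine integral_mono_ae i1 ((integrable_indicator_iff (Co_meas c r h)).2 i4) ?_
      filter_upwards [Pool.Agent.Q175.AX.axis_ae] with x hx
      by_cases hxC : x ∈ Co c r h
      · rw [indicator_of_mem hxC]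
        have h1 := Pool.Agent.V8H53.AX.UW_gsq p_Alg (hus t htI) (hsol.axi t htI) hx
        have h2 : φ x ^ 2 ≤ 1 := pow_le_one₀ (hφ.nn x) (hφ.le x)
        have h3 : UU (u t) x ^ 2 ≤ W221.NS.gsq (u t) x := by
          have := sq_nonneg (WW (u t) x)
          linarith
        calc φ x ^ 2 * UU (u t) x ^ 2 ≤ 1 * UU (u t) x ^ 2 :=
              mul_le_mul_of_nonneg_right h2 (sq_nonneg _)
          _ = UU (u t) x ^ 2 := one_mul _
          _ ≤ _ := h3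
      · rw [indicator_of_notMem hxC, hout x hxC]
        simp
    have h2 := hMh (T - t) (fun y => u t y 2) hp hu2 fun x hx => (hb t ht x hx).1 2
    have h3 : ∫ x in Co c r h, gr2 (fun y => u t y 2) x
        ≤ ∫ x in Co c r h, W221.NS.gsq (u t) x := by
      have i5 : IntegrableOn (gr2 (fun y => u t y 2)) (Co c r h) :=
        ((gr2_sm hu2).continuous.continuousOn.integrableOn_compact (Cy_compact hr.le)).mono_set
          (Co_sub_Cy c r h)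
      refine setIntegral_mono i5 i4 fun x => ?_
      unfold gr2 W221.NS.gsq
      exact Finset.single_le_sum (f := fun i : Fin 3 => ∑ j, pd j (fun y => u t y i) x ^ 2)
        (fun i _ => Finset.sum_nonneg fun j _ => sq_nonneg _) (Finset.mem_univ 2)
    have h4 := mul_le_mul_of_nonneg_left (add_le_add_left h3 1) hMh0
    have h5 : 0 ≤ Mh * ∫ x in Co c r h, W221.NS.gsq (u t) x := mul_nonneg hMh0 hG0
    linarith
  have hKw0 : 0 ≤ (K₀ + K₃) * (1 + Mh) := by positivity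
  have hw5 : ∀ t ∈ Ico T₁ T, Integrable (fun x => φ x ^ 2 * w t x) ∧
      ∫ x, φ x ^ 2 * w t x ≤ G t := by
    intro t ht
    have htI := hI t ht
    obtain ⟨g1, g2⟩ := hw5' t ht
    obtain ⟨sU, sW, -, -⟩ := hAs t htI
    have cs2 : Continuous (fun x => sq2 l (WW (u t) x)) := by
      unfold sq2
      refine continuous_const.div ?_ fun x => ?_
      · exact (Real.continuous_sqrt.comp (continuous_const.add (sW.continuous.pow 2))).pow 3
      · exact (pow_pos (Real.sqrt_pos.2 (sq_pos hl _)) 3).ne'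
    have i1 : Integrable (fun x => φ x ^ 2 * (sq2 l (WW (u t) x) * gr2 (WW (u t)) x)) :=
      int_cs (hφ2.mul (cs2.mul (gr2_sm sW).continuous)) hφ2c.mul_right
    have i2 : Integrable (fun x => φ x ^ 2 * (UU (u t) x ^ 2 + WW (u t) x ^ 2)) :=
      int_cs (hφ2.mul ((sU.continuous.pow 2).add (sW.continuous.pow 2))) hφ2c.mul_right
    have e : ∀ x, φ x ^ 2 * w t x = φ x ^ 2 * w₀ t x
        + (C₂ * (φ x ^ 2 * (sq2 l (WW (u t) x) * gr2 (WW (u t)) x))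
        + C₂ * (φ x ^ 2 * (UU (u t) x ^ 2 + WW (u t) x ^ 2))) := by
      intro x
      rw [hw, hw₁]
      ring
    have i3 := g1.add ((i1.const_mul C₂).add (i2.const_mul C₂))
    refine ⟨i3.congr (Eventually.of_forall fun x => (e x).symm), ?_⟩
    have e3 := integral_add g1 ((i1.const_mul C₂).add (i2.const_mul C₂))
    have e4 := integral_add (i1.const_mul C₂) (i2.const_mul C₂)
    simp only [Pi.add_apply] at e3 e4
    rw [integral_congr_ae (Eventually.of_forall e), e3, e4, integral_const_mul, integral_const_mul,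
      hG]
    have hgc : Continuous (W221.NS.gsq (u t)) := Pool.Agent.Q153.AXI.gsqCont (hus t htI)
    have i4 : IntegrableOn (W221.NS.gsq (u t)) (Co c r h) :=
      (hgc.continuousOn.integrableOn_compact (Cy_compact hr.le)).mono_set (Co_sub_Cy c r h)
    have h1 : ∫ x, φ x ^ 2 * (UU (u t) x ^ 2 + WW (u t) x ^ 2) ≤ D₀ t := by
      rw [hD₀]
      beta_reduce
      rw [← integral_indicator (Co_meas c r h)]
      refine integral_mono_ae i2 ((integrable_indicator_iff (Co_meas c r h)).2 i4) ?_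
      filter_upwards [Pool.Agent.Q175.AX.axis_ae] with x hx
      by_cases hxC : x ∈ Co c r h
      · rw [indicator_of_mem hxC]
        have h1 := Pool.Agent.V8H53.AX.UW_gsq p_Alg (hus t htI) (hsol.axi t htI) hx
        have h2 : φ x ^ 2 ≤ 1 := pow_le_one₀ (hφ.nn x) (hφ.le x)
        calc φ x ^ 2 * (UU (u t) x ^ 2 + WW (u t) x ^ 2)
            ≤ 1 * (UU (u t) x ^ 2 + WW (u t) x ^ 2) :=
              mul_le_mul_of_nonneg_right h2 (by positivity)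
          _ = UU (u t) x ^ 2 + WW (u t) x ^ 2 := one_mul _
          _ ≤ _ := h1
      · rw [indicator_of_notMem hxC, hout x hxC]
        simp
    have h2 := mul_le_mul_of_nonneg_left h1 hC₂
    have e5 : ∫ x, φ x ^ 2 * (sq2 l (WW (u t) x) * gr2 (WW (u t)) x) = DW t := by rw [hDW]
    rw [e5]
    beta_reduce
    linarith
  have hGnn : ∀ t ∈ Ico T₁ T, 0 ≤ G t := by
    intro t ht
    have h1 := hD0nn t
    have h2 := hDWnn t
    rw [hG]
    positivity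
  have hIs : ∀ t ∈ Ico T₁ T, ∀ s ∈ Icc T₁ t, s ∈ Ioo 0 T := fun t ht s hs =>
    ⟨hT₁.trans_le hs.1, hs.2.trans_lt ht.2⟩
  have iD : ∀ t ∈ Ico T₁ T, IntegrableOn D₀ (Icc T₁ t) := fun t ht => hD0int.mono_set (hIs t ht)
  have iDW : ∀ t ∈ Ico T₁ T, IntegrableOn DW (Icc T₁ t) := fun t ht =>
    (hWc.mono (hIs t ht)).integrableOn_Icc
  have hGint : ∀ t ∈ Ico T₁ T, IntegrableOn G (Icc T₁ t) := by
    intro t ht
    rw [hG]
    exact (((iD t ht).add (integrableOn_const (by simp))).const_mul _).add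
      (((iDW t ht).const_mul C₂).add ((iD t ht).const_mul C₂))
  obtain ⟨ND, hND⟩ : ∃ ND : ℝ, ND = ∫ t in Ioo 0 T, D₀ t := ⟨_, rfl⟩
  have hDI : ∀ t ∈ Ico T₁ T, ∫ s in T₁..t, D₀ s ≤ ND := by
    intro t ht
    rw [intervalIntegral.integral_of_le ht.1, hND]
    exact setIntegral_mono_set hD0int (Eventually.of_forall fun s => hD0nn s)
      (HasSubset.Subset.eventuallyLE fun s hs => ⟨hT₁.trans hs.1, hs.2.trans_lt ht.2⟩)
  have hGI : ∀ t ∈ Ico T₁ T, ∫ s in T₁..t, G s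
      ≤ (K₀ + K₃) * (1 + Mh) * (ND + (T - T₁)) + (C₂ * MW + C₂ * ND) := by
    intro t ht
    have j1 : IntervalIntegrable D₀ volume T₁ t :=
      (intervalIntegrable_iff_integrableOn_Ioc_of_le ht.1).2 ((iD t ht).mono_set Ioc_subset_Icc_self)
    have j2 : IntervalIntegrable DW volume T₁ t :=
      (intervalIntegrable_iff_integrableOn_Ioc_of_le ht.1).2
        ((iDW t ht).mono_set Ioc_subset_Icc_self)
    have j3 : IntervalIntegrable (fun _ : ℝ => (1 : ℝ)) volume T₁ t := by simp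
    rw [hG, intervalIntegral.integral_add ((j1.add j3).const_mul _)
      ((j2.const_mul C₂).add (j1.const_mul C₂)), intervalIntegral.integral_add (j2.const_mul C₂)
      (j1.const_mul C₂), intervalIntegral.integral_const_mul, intervalIntegral.integral_const_mul,
      intervalIntegral.integral_const_mul, intervalIntegral.integral_add j1 j3,
      intervalIntegral.integral_const]
    have h1 := hDI t ht
    have h2 := (hMW t ht).2
    have e5 : ∫ s in T₁..t, (∫ x, φ x ^ 2 * (sq2 l (WW (u s) x) * gr2 (WW (u s)) x))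
        = ∫ s in T₁..t, DW s := by rw [hDW]
    rw [e5] at h2
    have h3 : (t - T₁) • (1 : ℝ) ≤ T - T₁ := by
      rw [smul_eq_mul, mul_one]
      linarith [ht.2]
    have h4 := mul_le_mul_of_nonneg_left (add_le_add h1 h3) hKw0
    have h5 := mul_le_mul_of_nonneg_left h1 hC₂
    have h6 := mul_le_mul_of_nonneg_left h2 hC₂
    linarith
  have jq : ContDiffOn ℝ ∞ (fun z : ℝ × V => σ * OO (u z.1) z.2 + f z.1 z.2)
      (Ioo 0 T ×ˢ univ) := (contDiffOn_const.mul jO).add jf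
  have hqq : ∀ t, (fun y => σ * OO (u t) y + f t y) = qr T σ C C₂ C₁ b d c l u t := by
    intro t
    funext y
    rw [hft, hf0t, hg1t, hgt, hg3t]
    unfold qr thr
    ring
  have hqq' : ∀ t x, σ * OO (u t) x + f t x = qr T σ C C₂ C₁ b d c l u t x := fun t x =>
    congrFun (hqq t) x
  refine l1H (f := f) (g₂ := G₂) (η := η) (η₂ := η₂) (w := w) (pr := pr)
    (KD := KD) (N := N) (G := G) hsol hK hr hrR hhH hT₁ hφ hb hσ (abs_nonneg C₁) hC
    (by positivity) hb1 hGnn hGint hGI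
    jf jG2 je je2 he0 hw0 hE1 hE2 hf3 hfO hf4 hf5 he5 he6 he7 hw5 hprc (fun t ht => ?_) hN
  refine le_trans (le_of_eq ?_) (hR1 t ht)
  refine integral_congr_ae (Eventually.of_forall fun x => ?_)
  beta_reduce
  rw [hqq, hqq']

end Pool.Agent.V8H53.OW
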