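import Pool.Agent.V8H53.OW.L1r
import Pool.Agent.V8H53.OW.Defs3

/-!
Project OW: the bound of `∫ |ω_θ / ρ|` with a general threshold function `f`, third version: a general convex function.
-/

set_option autoImplicit false

open MeasureTheory Set Metric Filter Topology
open scoped ContDiff
open H459R3.NS Pool.Agent.W268.NS Pool.Agent.Q67.VD

namespace Pool.Agent.V8H53.OW

open Pool.Agent.Q85.CC Pool.Agent.Q85.CL Pool.Agent.TH305.AX
open Pool.Agent.Q67.AXI
open Pool.Agent.W583.MD (sm_pd cs_pd pd_mul' Z Z.add Z.sub Z.smul Z.sum int_cs Z_pd)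
open Pool.Agent.TH305.DR (pd_add' pd_sub' pd_neg' pd_cmul pd_const')
open Pool.Agent.V8Lead (p_AAs p_Alg p_AxF p_H0 p_Dt p_Jnt p_EqO)
open Pool.Agent.Q175.AX (Co_open Cy_compact Co_meas Co_fin ind_int ind_val cut_dich const_pd cut_out
  cut_mem Co_sub_Cy LL_mul LL_meas sq_pd RRsg_int RRsg_int' cs_zero lap_sm gr2_sm sg_nn RR_ev
  RR_const lap_ev lap_const pd_ev pd_comp_at gr2_nn)

variable {v : V → V} {φ : V → ℝ} {c r h r1 h1 K σ : ℝ}

/-- A convex function with a bounded derivative. -/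
structure Cvx (K0 K1 K2 : ℝ → ℝ) : Prop where
  cd0 : ContDiff ℝ ∞ K0
  cd1 : ContDiff ℝ ∞ K1
  cd2 : Continuous K2
  hd0 : ∀ x, HasDerivAt K0 (K1 x) x
  hd1 : ∀ x, HasDerivAt K1 (K2 x) x
  nn0 : ∀ x, 0 ≤ K0 x
  ge0 : ∀ x, x - 1 ≤ K0 x
  le0 : ∀ x, K0 x ≤ 2 * max x 0
  nn1 : ∀ x, 0 ≤ K1 x
  le1 : ∀ x, K1 x ≤ 2
  neg1 : ∀ x, x ≤ 0 → K1 x = 0
  nn2 : ∀ x, 0 ≤ K2 x

lemma ops_C {K0 K1 K2 : ℝ → ℝ} (hC : Cvx K0 K1 K2) {q : V → ℝ} (hq : ContDiff ℝ ∞ q) :
    ContDiff ℝ ∞ (fun y => K0 (-q y)) ∧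
    (∀ j, pd j (fun y => K0 (-q y)) = fun y => -(K1 (-q y) * pd j q y)) ∧
    ∀ x, LL (fun y => K0 (-q y)) x = K2 (-q x) * gr2 q x - K1 (-q x) * LL q x := by
  have hqn : ContDiff ℝ ∞ (fun y => -q y) := hq.neg
  have hqp : ∀ j x, pd j (fun y => -q y) x = -pd j q x := by
    intro j x
    have e : (fun y => -q y) = fun y => (fun _ => (-1 : ℝ)) y * q y := by
      funext y
      ring
    rw [e, pd_mulf contDiff_const hq, pd_const']
    ring
  have hp : ∀ j, pd j (fun y => K0 (-q y)) = fun y => -(K1 (-q y) * pd j q y) := by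
    intro j
    funext x
    rw [pd_comp_at (hC.hd0 _) ((hqn.differentiable (by simp)) x), hqp]
    ring
  have h1s : ContDiff ℝ ∞ (fun y => K1 (-q y)) := hC.cd1.comp hqn
  have hpp : ∀ j x, pd j (fun y => -(K1 (-q y) * pd j q y)) x
      = K2 (-q x) * pd j q x ^ 2 - K1 (-q x) * pd j (pd j q) x := by
    intro j x
    have e : (fun y => -(K1 (-q y) * pd j q y))
        = fun y => (fun y => K1 (-q y)) y * ((fun _ => (-1 : ℝ)) y * pd j q y) := by
      funext y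
      ring
    have e1 := pd_comp_at (hC.hd1 (-q x)) ((hqn.differentiable (by simp)) x) j
    rw [e, pd_mulf h1s (contDiff_const.mul (sm_pd hq j)), pd_mulf contDiff_const (sm_pd hq j),
      pd_const']
    beta_reduce
    rw [e1, hqp]
    ring
  refine ⟨hC.cd0.comp hqn, hp, fun x => ?_⟩
  unfold LL lap RR gr2
  simp only [Fin.sum_univ_three, hp, hpp]
  ring

/-- The bound of the integral. -/
theorem l7H {K0 K1 K2 : ℝ → ℝ} (hCv : Cvx K0 K1 K2) {T E R H T₁ A₀ A₁ A₂ b Mf Me Me₂ KD N N₁ : ℝ} {u : ℝ → V → V} {p : ℝ → V → ℝ}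
    {f g₂ η η₂ w : ℝ → V → ℝ} {pr G : ℝ → ℝ} (hsol : AxL T E c R H u p)
    (hK : 0 ≤ K) (hr : 0 < r) (hrR : r < R) (hhH : h < H) (hT₁ : 0 < T₁)
    (hφ : Cut c r h r1 h1 K φ) (hb : ∀ t ∈ Ico T₁ T, ∀ x ∈ Out c r h r1 h1, BdA K (u t) x)
    (hσ : σ ≠ 0) (hA₀ : 0 ≤ A₀) (hA₁ : 0 ≤ A₁) (hA₂ : 0 ≤ A₂) (hb1 : b < 1)
    (hGnn : ∀ t ∈ Ico T₁ T, 0 ≤ G t) (hGint : ∀ t ∈ Ico T₁ T, IntegrableOn G (Icc T₁ t))
    (hGI : ∀ t ∈ Ico T₁ T, ∫ s in T₁..t, G s ≤ N₁)
    (jf : ContDiffOn ℝ ∞ (fun z : ℝ × V => f z.1 z.2) (Ioo 0 T ×ˢ univ))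
    (jg : ContDiffOn ℝ ∞ (fun z : ℝ × V => g₂ z.1 z.2) (Ioo 0 T ×ˢ univ))
    (je : ContDiffOn ℝ ∞ (fun z : ℝ × V => η z.1 z.2) (Ioo 0 T ×ˢ univ))
    (je2 : ContDiffOn ℝ ∞ (fun z : ℝ × V => η₂ z.1 z.2) (Ioo 0 T ×ˢ univ))
    (he0 : ∀ t ∈ Ioo 0 T, ∀ x, 0 ≤ deriv (fun s => η s x) t)
    (hw0 : ∀ t ∈ Ioo 0 T, ∀ x, 0 ≤ w t x)
    (hE1 : ∀ t ∈ Ioo 0 T, ∀ x ∈ Co c r h, sg x ≠ 0 →
      LL (f t) x - W221.NS.adv (u t) (f t) x - deriv (fun s => f s x) t
        ≤ deriv (fun s => η s x) t + w t x)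
    (hE2 : ∀ t ∈ Ioo 0 T, ∀ x ∈ Co c r h, sg x ≠ 0 →
      -(LL (g₂ t) x - W221.NS.adv (u t) (g₂ t) x) ≤
        deriv (fun s => η s x) t + w t x + deriv (fun s => η₂ s x) t)
    (hf3 : ∀ t ∈ Ioo 0 T, ∀ x, f t x ≤ g₂ t x + (A₀ + A₁ * (T - t) ^ (-b)))
    (hfO : ∀ t ∈ Ico T₁ T, ∀ x ∈ Out c r h r1 h1, g₂ t x ≤ A₂)
    (hf4 : ∀ t ∈ Ioo 0 T, ∀ x, -A₀ ≤ f t x)
    (hf5 : ∀ t ∈ Ico T₁ T, ∫ x, φ x ^ 2 * f t x ≤ Mf)
    (he5 : ∀ t ∈ Ico T₁ T, 0 ≤ ∫ x, φ x ^ 2 * η t x)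
    (he6 : ∀ t ∈ Ico T₁ T, ∫ x, φ x ^ 2 * η t x ≤ Me)
    (he7 : ∀ t ∈ Ico T₁ T, ∫ x, φ x ^ 2 * η₂ t x ≤ Me₂)
    (hw5 : ∀ t ∈ Ico T₁ T, Integrable (fun x => φ x ^ 2 * w t x) ∧
      ∫ x, φ x ^ 2 * w t x ≤ G t)
    (hprc : ContinuousOn pr (Ioo 0 T))
    (hR1 : ∀ t ∈ Ico T₁ T, ∫ x, φ x ^ 2 *
      (-(K2 (-(σ * OO (u t) x + f t x)) * gr2 (fun y => σ * OO (u t) y + f t y) x)
        + K1 (-(σ * OO (u t) x + f t x)) * (σ * (2 * WW (u t) x * JJ (u t) x))) ≤ pr t + KD)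
    (hN : ∀ t ∈ Ico T₁ T, ∫ s in T₁..t, pr s ≤ N) :
    ∃ M : ℝ, ∀ t ∈ Ico T₁ T, ∫ x, φ x ^ 2 * |OO (u t) x| ≤ M := by
  rcases le_or_gt T T₁ with hTT | hT₁T
  · exact ⟨0, fun t ht => absurd (ht.1.trans_lt ht.2) (not_lt.2 hTT)⟩
  have hsub : Co c r h ⊆ Co c R H := Pool.Agent.Q285.AXI.co_mono hr hrR hhH
  obtain ⟨-, jW, jJ, jO⟩ := p_Jnt T u hsol.smooth_u
  have hI : ∀ t ∈ Ico T₁ T, t ∈ Ioo 0 T := fun t ht => ⟨hT₁.trans_le ht.1, ht.2⟩
  have hφ2c : HasCompactSupport (fun y => φ y ^ 2) := by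
    have e : (fun y => φ y ^ 2) = fun y => φ y * φ y := by
      funext y
      ring
    rw [e]
    exact hφ.cs.mul_right
  have hφ2 : Continuous (fun y => φ y ^ 2) := hφ.sm.continuous.pow 2
  have hus : ∀ t ∈ Ioo 0 T, ContDiff ℝ ∞ (u t) := fun t ht =>
    Pool.Agent.Q285.AXI.slice hsol.smooth_u ht
  have hAs : ∀ t ∈ Ioo 0 T, ContDiff ℝ ∞ (UU (u t)) ∧ ContDiff ℝ ∞ (WW (u t)) ∧
      ContDiff ℝ ∞ (JJ (u t)) ∧ ContDiff ℝ ∞ (OO (u t)) := fun t ht =>
    (p_Alg (u t) (hus t ht) (hsol.axi t ht)).1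
  have hfs : ∀ t ∈ Ioo 0 T, ContDiff ℝ ∞ (f t) := fun t ht =>
    Pool.Agent.W583.MD.slice jf ht
  have hgs : ∀ t ∈ Ioo 0 T, ContDiff ℝ ∞ (g₂ t) := fun t ht =>
    Pool.Agent.W583.MD.slice jg ht
  obtain ⟨A, hA⟩ : ∃ A : ℝ → ℝ, A = fun t => A₀ + A₁ * (T - t) ^ (-b) := ⟨_, rfl⟩
  have hAnn : ∀ t ∈ Ioo 0 T, 0 ≤ A t := fun t ht => by
    have : 0 < T - t := by linarith [ht.2]
    rw [hA]
    positivity
  have hout : ∀ x, x ∉ Co c r h → φ x = 0 := fun x hx => by
    by_contra hcon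
    exact hx (cut_mem hφ hcon)
  obtain ⟨S, hS⟩ : ∃ S : ℝ, S = |σ| := ⟨_, rfl⟩
  have hS0 : 0 < S := by rw [hS]; exact abs_pos.2 hσ
  -- the two functions
  obtain ⟨P, hP⟩ : ∃ P : ℝ → V → ℝ, P = fun t x => K0 (-(σ * OO (u t) x + f t x)) := ⟨_, rfl⟩
  obtain ⟨Q, hQ⟩ : ∃ Q : ℝ → V → ℝ, Q = fun t x => σ * OO (u t) x + (P t x + 1) := ⟨_, rfl⟩
  have jq : ContDiffOn ℝ ∞ (fun z : ℝ × V => σ * OO (u z.1) z.2 + f z.1 z.2)
      (Ioo 0 T ×ˢ univ) := (contDiffOn_const.mul jO).add jf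
  have jP : ContDiffOn ℝ ∞ (fun z : ℝ × V => P z.1 z.2) (Ioo 0 T ×ˢ univ) := by
    rw [hP]
    exact hCv.cd0.comp_contDiffOn jq.neg
  have jQ : ContDiffOn ℝ ∞ (fun z : ℝ × V => Q z.1 z.2) (Ioo 0 T ×ˢ univ) := by
    rw [hQ]
    exact (contDiffOn_const.mul jO).add (jP.add contDiffOn_const)
  -- bounds on the outer part
  obtain ⟨KP, hKP⟩ : ∃ KP : ℝ, KP = 2 * (S * K + A₀) := ⟨_, rfl⟩
  have hKP0 : 0 ≤ KP := by rw [hKP]; positivity
  have hO_out : ∀ t ∈ Ico T₁ T, ∀ x ∈ Out c r h r1 h1, |σ * OO (u t) x| ≤ S * K := by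
    intro t ht x hx
    have h5 := (hb t ht x hx).2.2.2.2.1
    rw [abs_mul, ← hS]
    exact mul_le_mul_of_nonneg_left h5 hS0.le
  have hP0 : ∀ t x, 0 ≤ P t x := fun t x => by rw [hP]; exact hCv.nn0 _
  have hPge : ∀ t x, -(σ * OO (u t) x + f t x) - 1 ≤ P t x := fun t x => by
    rw [hP]; exact hCv.ge0 _
  have hPb : ∀ t ∈ Ico T₁ T, ∀ x ∈ Out c r h r1 h1, P t x ≤ KP := by
    intro t ht x hx
    have h1 := (abs_le.1 (hO_out t ht x hx)).1
    have h2 := hCv.le0 (-(σ * OO (u t) x + f t x))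
    have h3 := hf4 t (hI t ht) x
    have h4 : max (-(σ * OO (u t) x + f t x)) 0 ≤ S * K + A₀ := by
      refine max_le ?_ (by positivity)
      linarith
    rw [hP]
    refine h2.trans ?_
    rw [hKP]
    linarith
  have hF0 : ∀ t ∈ Ioo 0 T, ∀ x, 0 ≤ 1 * g₂ t x + (Q t x + A t) := fun t ht x => by
    have h1 := hPge t x
    have h2 := hf3 t ht x
    rw [hQ, hA]
    beta_reduce
    linarith
  have hFb : ∀ t ∈ Ico T₁ T, ∀ x ∈ Out c r h r1 h1,
      1 * g₂ t x + (Q t x + A t) ≤ S * K + KP + 1 + A₂ + A t := by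
    intro t ht x hx
    have h1 := (abs_le.1 (hO_out t ht x hx)).2
    have h2 := hPb t ht x hx
    have h3 := hfO t ht x hx
    rw [hQ]
    beta_reduce
    linarith
  -- the source of `Q`
  obtain ⟨vol, hvol⟩ : ∃ vol : ℝ, vol = (volume (Co c r h)).toReal := ⟨_, rfl⟩
  have hvol0 : 0 ≤ vol := by rw [hvol]; exact ENNReal.toReal_nonneg
  have hsrc : ∀ t ∈ Ico T₁ T, Integrable (fun x => φ x ^ 2 * -(σ * (2 * WW (u t) x * JJ (u t) x))) ∧
      ∫ x, φ x ^ 2 * -(σ * (2 * WW (u t) x * JJ (u t) x)) ≤ vol * (S * (2 * K ^ 3)) := by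
    intro t ht
    obtain ⟨-, sW, sJ, -⟩ := hAs t (hI t ht)
    have hi : Integrable (fun x => φ x ^ 2 * -(σ * (2 * WW (u t) x * JJ (u t) x))) := by
      refine int_cs ?_ hφ2c.mul_right
      exact hφ2.mul ((continuous_const.mul ((continuous_const.mul sW.continuous).mul
        sJ.continuous)).neg)
    refine ⟨hi, ?_⟩
    obtain ⟨ζ, hζ⟩ : ∃ ζ : V → ℝ, ζ = fun y => φ y ^ 2 := ⟨_, rfl⟩
    have hζs : ContDiff ℝ ∞ ζ := by rw [hζ]; exact hφ.sm.pow 2
    have hζc : HasCompactSupport ζ := by rw [hζ]; exact hφ2c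
    have hW2 : ContDiff ℝ ∞ (fun y => WW (u t) y ^ 2) := sW.pow 2
    have Z3 := (Z_pd (hζs.mul hW2) hζc.mul_right 2).smul σ
    obtain ⟨-, -, -, hid⟩ := p_Alg (u t) (hus t (hI t ht)) (hsol.axi t (hI t ht))
    have iB : Integrable (fun x => -(σ * (WW (u t) x ^ 2 * pd 2 ζ x))) :=
      ((int_cs (hW2.mul (sm_pd hζs 2)).continuous (cs_pd hζc 2).mul_left).const_mul σ).neg
    have key : ∀ x, φ x ^ 2 * -(σ * (2 * WW (u t) x * JJ (u t) x))
        = σ * pd 2 (fun y => ζ y * WW (u t) y ^ 2) x + -(σ * (WW (u t) x ^ 2 * pd 2 ζ x)) := by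
      intro x
      have e2 : φ x ^ 2 = ζ x := by rw [hζ]
      rw [pd_mulf hζs hW2, sq_pd sW, (hid x).2.2.2.2.2.1, e2]
      ring
    rw [integral_congr_ae (Eventually.of_forall key), integral_add Z3.1 iB, Z3.2, zero_add,
      hvol, ← ind_val]
    refine integral_mono iB (ind_int hr.le _) fun x => ?_
    beta_reduce
    rcases cut_dich hφ x with ⟨ho, hc⟩ | ⟨k, hk⟩
    · rw [indicator_of_mem hc]
      obtain ⟨b1, b2, b3, b4, b5, b6⟩ := hb t ht x ho
      obtain ⟨c1, c2, c3⟩ := hφ.bd x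
      have hp : |pd 2 ζ x| ≤ 2 * K := by
        rw [hζ, sq_pd hφ.sm]
        rw [abs_mul, abs_mul, abs_two, abs_of_nonneg (hφ.nn x)]
        calc 2 * φ x * |pd 2 φ x| ≤ 2 * 1 * K := by
              gcongr
              · exact hφ.le x
              · exact c1 2
          _ = 2 * K := by ring
      have t4 : |σ * (WW (u t) x ^ 2 * pd 2 ζ x)| ≤ S * (K ^ 2 * (2 * K)) := by
        rw [abs_mul, ← hS, abs_mul, abs_pow]
        exact mul_le_mul_of_nonneg_left (mul_le_mul (pow_le_pow_left₀ (abs_nonneg _) b3 2) hp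
          (abs_nonneg _) (by positivity)) hS0.le
      have h6 := (abs_le.1 t4).1
      have e : S * (K ^ 2 * (2 * K)) = S * (2 * K ^ 3) := by ring
      linarith
    · have hk' : ζ =ᶠ[𝓝 x] fun _ => k ^ 2 := by
        filter_upwards [hk] with y hy
        rw [hζ]
        beta_reduce
        rw [hy]
      obtain ⟨a1, a2, a3⟩ := const_pd hk'
      rw [a1 2, mul_zero, mul_zero, neg_zero]
      exact indicator_nonneg (fun _ _ => by positivity) _
  -- the derivatives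
  have hdd : ∀ {g : ℝ → V → ℝ}, ContDiffOn ℝ ∞ (fun z : ℝ × V => g z.1 z.2) (Ioo 0 T ×ˢ univ) →
      ∀ t ∈ Ioo 0 T, ∀ x, DifferentiableAt ℝ (fun s => g s x) t := by
    intro g jg t ht x
    have hopen : IsOpen (Ioo (0 : ℝ) T ×ˢ (univ : Set V)) := isOpen_Ioo.prod isOpen_univ
    have hm : ((t, x) : ℝ × V) ∈ Ioo (0 : ℝ) T ×ˢ (univ : Set V) := ⟨ht, mem_univ _⟩
    have h4 : HasFDerivAt (fun z : ℝ × V => g z.1 z.2) _ (t, x) :=
      ((jg.contDiffAt (hopen.mem_nhds hm)).differentiableAt (by norm_num)).hasFDerivAt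
    have h5 : HasDerivAt (fun s : ℝ => ((s, x) : ℝ × V)) ((1 : ℝ), (0 : V)) t :=
      (hasDerivAt_id t).prodMk (hasDerivAt_const t x)
    exact (h4.comp_hasDerivAt t h5).differentiableAt
  have hdP : ∀ t ∈ Ioo 0 T, ∀ x, HasDerivAt (fun s => P s x)
      (-(K1 (-(σ * OO (u t) x + f t x)) * (σ * deriv (fun s => OO (u s) x) t
        + deriv (fun s => f s x) t))) t := by
    intro t ht x
    rw [hP]
    have h5 : HasDerivAt (fun s => -(σ * OO (u s) x + f s x))
        (-(σ * deriv (fun s => OO (u s) x) t + deriv (fun s => f s x) t)) t :=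
      (((hdd jO t ht x).hasDerivAt.const_mul σ).add (hdd jf t ht x).hasDerivAt).neg
    have h6 := HasDerivAt.comp t (h₂ := K0) (hCv.hd0 (-(σ * OO (u t) x + f t x))) h5
    refine h6.congr_deriv ?_
    ring
  have hdQ : ∀ t ∈ Ioo 0 T, ∀ x, HasDerivAt (fun s => Q s x)
      (σ * deriv (fun s => OO (u s) x) t
        + -(K1 (-(σ * OO (u t) x + f t x)) * (σ * deriv (fun s => OO (u s) x) t
        + deriv (fun s => f s x) t))) t := by
    intro t ht x
    rw [hQ]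
    exact ((hdd jO t ht x).hasDerivAt.const_mul σ).add ((hdP t ht x).add_const 1)
  obtain ⟨Q', hQ'⟩ : ∃ Q' : ℝ → V → ℝ, Q' = fun t x => Q t x - η₂ t x := ⟨_, rfl⟩
  have jQ' : ContDiffOn ℝ ∞ (fun z : ℝ × V => Q' z.1 z.2) (Ioo 0 T ×ˢ univ) := by
    rw [hQ']
    exact jQ.sub je2
  have hdQ' : ∀ t ∈ Ioo 0 T, ∀ x, deriv (fun s => Q' s x) t
      = deriv (fun s => Q s x) t - deriv (fun s => η₂ s x) t := by
    intro t ht x
    rw [hQ']
    exact ((hdd jQ t ht x).hasDerivAt.sub (hdd je2 t ht x).hasDerivAt).deriv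
  obtain ⟨m, hm⟩ : ∃ m : ℝ, m = vol * (6 * K + 12 * K ^ 2) := ⟨_, rfl⟩
  have hm0 : 0 ≤ m := by rw [hm]; positivity
  obtain ⟨K₅, hK₅⟩ : ∃ K₅ : ℝ, K₅ = m * (S * K + KP + 1 + A₂ + A₀) + vol * (S * (2 * K ^ 3)) + |KD|
      := ⟨_, rfl⟩
  have hK₅0 : 0 ≤ K₅ := by rw [hK₅]; positivity
  obtain ⟨y, hy⟩ : ∃ y : ℝ → ℝ, y = fun t => ∫ x, φ x ^ 2 * deriv (fun s => η s x) t := ⟨_, rfl⟩
  have hder : ∀ t ∈ Ico T₁ T,
      (∫ x, φ x ^ 2 * deriv (fun s => P s x) t
        ≤ K₅ + (m * A₁ * (T - t) ^ (-b) + 3 * y t) + (3 * G t + pr t)) ∧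
      ∫ x, φ x ^ 2 * deriv (fun s => Q' s x) t
        ≤ K₅ + (m * A₁ * (T - t) ^ (-b) + 3 * y t) + (3 * G t + pr t) := by
    intro t ht
    have htI := hI t ht
    have htp : 0 < T - t := by linarith [ht.2]
    obtain ⟨sU, sW, sJ, sO⟩ := hAs t htI
    have sf := hfs t htI
    have sq : ContDiff ℝ ∞ (fun y => σ * OO (u t) y + f t y) := (contDiff_const.mul sO).add sf
    obtain ⟨oq1, oq2⟩ := ops_lin sO sf σ
    obtain ⟨oP1, oP2, oP3⟩ := ops_C hCv sq
    have hdf : DFO (Co c r h) (u t) := fun x hx => hsol.divfree t htI x (hsub hx)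
    have hPt : P t = fun y => K0 (-(σ * OO (u t) y + f t y)) := by rw [hP]
    have sP : ContDiff ℝ ∞ (P t) := by rw [hPt]; exact oP1
    have hQt : Q t = fun y => σ * OO (u t) y + (fun y => P t y + 1) y := by rw [hQ]
    have sP1 : ContDiff ℝ ∞ (fun y => P t y + 1) := sP.add contDiff_const
    obtain ⟨oQ1, oQ2⟩ := ops_lin sO sP1 σ
    have sQ : ContDiff ℝ ∞ (Q t) := by rw [hQt]; exact (contDiff_const.mul sO).add sP1
    have hconst : ∀ {g : V → ℝ} (k : ℝ), ContDiff ℝ ∞ g →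
        (∀ j, pd j (fun y => g y + k) = pd j g) ∧ ∀ x, LL (fun y => g y + k) x = LL g x := by
      intro g k hg
      have h1 : ∀ j, pd j (fun y => g y + k) = pd j g := by
        intro j
        funext x
        rw [pd_add' hg contDiff_const, pd_const']
        ring
      refine ⟨h1, fun x => ?_⟩
      unfold LL lap RR
      simp only [h1]
    have sg2 := hgs t htI
    have sQA : ContDiff ℝ ∞ (fun y => Q t y + A t) := sQ.add contDiff_const
    have sF : ContDiff ℝ ∞ (fun y => 1 * g₂ t y + (Q t y + A t)) :=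
      (contDiff_const.mul sg2).add sQA
    obtain ⟨cF1, cF2⟩ := ops_lin sg2 sQA 1
    obtain ⟨cA1, cA2⟩ := hconst (A t) sQ
    obtain ⟨cP1, cP2⟩ := hconst 1 sP
    have htp : 0 < T - t := by linarith [ht.2]
    have hKF0 : 0 ≤ S * K + KP + 1 + A₂ + A t := by
      have := hAnn t htI
      positivity
    obtain ⟨iP, bP⟩ := sub_en (hus t htI) hdf hK hKP0 hr.le hφ (hb t ht) sP (hP0 t)
      (hPb t ht)
    obtain ⟨iQ, bQ⟩ := sub_en (hus t htI) hdf hK hKF0 hr.le hφ (hb t ht) sF (hF0 t htI)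
      (hFb t ht)
    have hadv : ∀ x, W221.NS.adv (u t) (fun y => 1 * g₂ t y + (Q t y + A t)) x
        = W221.NS.adv (u t) (g₂ t) x + W221.NS.adv (u t) (Q t) x := by
      intro x
      unfold W221.NS.adv
      simp only [Fin.sum_univ_three, cF1, cA1]
      ring
    simp only [cF2, hadv, cA2] at iQ bQ
    simp only [one_mul] at iQ bQ
    rw [← hvol] at bP bQ
    obtain ⟨iS, bS⟩ := hsrc t ht
    obtain ⟨iW, bW⟩ := hw5 t ht
    obtain ⟨-, cE⟩ := dtLin je hφ.sm hφ.cs t htI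
    have iE : Integrable (fun x => φ x ^ 2 * deriv (fun s => η s x) t) :=
      int_cs (hφ2.mul cE) hφ2c.mul_right
    have iU : Integrable (fun x => φ x ^ 2 * deriv (fun s => η s x) t + φ x ^ 2 * w t x) :=
      iE.add iW
    obtain ⟨-, cE2⟩ := dtLin je2 hφ.sm hφ.cs t htI
    have iE2 : Integrable (fun x => φ x ^ 2 * deriv (fun s => η₂ s x) t) :=
      int_cs (hφ2.mul cE2) hφ2c.mul_right
    have eU := integral_add iE iW
    have bU : ∫ x, (φ x ^ 2 * deriv (fun s => η s x) t + φ x ^ 2 * w t x)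
        ≤ y t + G t := by
      rw [eU, hy]
      linarith
    have bU0 : 0 ≤ y t := by
      rw [hy]
      exact integral_nonneg fun x => mul_nonneg (sq_nonneg _) (he0 t htI x)
    -- the formulas
    have hLP : ∀ x, LL (P t) x = K2 (-(σ * OO (u t) x + f t x))
        * gr2 (fun y => σ * OO (u t) y + f t y) x
        - K1 (-(σ * OO (u t) x + f t x)) * (σ * LL (OO (u t)) x + LL (f t) x) := fun x => by
      rw [hPt, oP3, oq2]
    have hPp : ∀ j x, pd j (P t) x = -(K1 (-(σ * OO (u t) x + f t x))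
        * (σ * pd j (OO (u t)) x + pd j (f t) x)) := fun j x => by rw [hPt, oP2, oq1]
    have haP : ∀ x, W221.NS.adv (u t) (P t) x = -(K1 (-(σ * OO (u t) x + f t x))
        * (σ * W221.NS.adv (u t) (OO (u t)) x + W221.NS.adv (u t) (f t) x)) := by
      intro x
      unfold W221.NS.adv
      simp only [Fin.sum_univ_three, hPp]
      ring
    have hLQ : ∀ x, LL (Q t) x = σ * LL (OO (u t)) x + LL (P t) x := fun x => by
      rw [hQt, oQ2, cP2]
    have haQ : ∀ x, W221.NS.adv (u t) (Q t) x = σ * W221.NS.adv (u t) (OO (u t)) x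
        + W221.NS.adv (u t) (P t) x := by
      intro x
      rw [hQt]
      unfold W221.NS.adv
      simp only [Fin.sum_univ_three, oQ1, cP1]
      ring
    obtain ⟨-, cP⟩ := dtLin jP hφ.sm hφ.cs t htI
    obtain ⟨-, cQ⟩ := dtLin jQ' hφ.sm hφ.cs t htI
    -- the term of the convex function
    obtain ⟨B, hB⟩ : ∃ B : V → ℝ, B = fun x => φ x ^ 2 *
      (-(K2 (-(σ * OO (u t) x + f t x)) * gr2 (fun y => σ * OO (u t) y + f t y) x)
        + K1 (-(σ * OO (u t) x + f t x)) * (σ * (2 * WW (u t) x * JJ (u t) x))) := ⟨_, rfl⟩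
    have iB : Integrable B := by
      rw [hB]
      refine int_cs (hφ2.mul ?_) hφ2c.mul_right
      have g1 : Continuous (fun x => K2 (-(σ * OO (u t) x + f t x))) :=
        hCv.cd2.comp sq.continuous.neg
      have g2 : Continuous (fun x => K1 (-(σ * OO (u t) x + f t x))) :=
        hCv.cd1.continuous.comp sq.continuous.neg
      have g3 : Continuous (fun x => gr2 (fun y => σ * OO (u t) y + f t y) x) :=
        (gr2_sm sq).continuous
      exact ((g1.mul g3).neg).add (g2.mul (continuous_const.mul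
        ((continuous_const.mul sW.continuous).mul sJ.continuous)))
    have bB : ∫ x, B x ≤ pr t + KD := by
      rw [hB]
      exact hR1 t ht
    have hpt : ∀ x, sg x ≠ 0 → x ∈ Co c r h →
        -(K1 (-(σ * OO (u t) x + f t x)) * (σ * deriv (fun s => OO (u s) x) t
        + deriv (fun s => f s x) t)) ≤ (LL (P t) x - W221.NS.adv (u t) (P t) x)
        + (-(K2 (-(σ * OO (u t) x + f t x)) * gr2 (fun y => σ * OO (u t) y + f t y) x)
        + K1 (-(σ * OO (u t) x + f t x)) * (σ * (2 * WW (u t) x * JJ (u t) x)))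
        + 2 * (deriv (fun s => η s x) t + w t x) := by
      intro x hx hxC
      have h1 := hE1 t htI x hxC hx
      have g1 := hCv.nn1 (-(σ * OO (u t) x + f t x))
      have g2 := hCv.le1 (-(σ * OO (u t) x + f t x))
      have g3 : 0 ≤ deriv (fun s => η s x) t + w t x := add_nonneg (he0 t htI x) (hw0 t htI x)
      have h2 := mul_le_mul_of_nonneg_left h1 g1
      have h3 : K1 (-(σ * OO (u t) x + f t x)) * (deriv (fun s => η s x) t + w t x)
          ≤ 2 * (deriv (fun s => η s x) t + w t x) := mul_le_mul_of_nonneg_right g2 g3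
      rw [(p_EqO T E c R H u p hsol t htI x (hsub hxC) hx).deriv, hLP, haP]
      linarith
    have hv3 : 0 ≤ vol * (S * (2 * K ^ 3)) := by positivity
    have hKDa := le_abs_self KD
    have hKG : 0 ≤ G t := hGnn t ht
    have h5 : 0 ≤ m * A₁ * (T - t) ^ (-b) := by positivity
    have eA : A t = A₀ + A₁ * (T - t) ^ (-b) := by rw [hA]
    constructor
    · have h1 : ∫ x, φ x ^ 2 * deriv (fun s => P s x) t ≤
          ∫ x, (((φ x ^ 2 * (LL (P t) x - W221.NS.adv (u t) (P t) x) + B x)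
            + (φ x ^ 2 * deriv (fun s => η s x) t + φ x ^ 2 * w t x))
            + (φ x ^ 2 * deriv (fun s => η s x) t + φ x ^ 2 * w t x)) := by
        refine integral_mono_ae (int_cs (hφ2.mul cP) hφ2c.mul_right)
          (((iP.add iB).add iU).add iU) ?_
        filter_upwards [Pool.Agent.Q175.AX.axis_ae] with x hx
        beta_reduce
        by_cases hxC : x ∈ Co c r h
        · rw [(hdP t htI x).deriv, hB]
          beta_reduce
          have := mul_le_mul_of_nonneg_left (hpt x hx hxC) (sq_nonneg (φ x))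
          linarith
        · rw [hout x hxC, hB]
          beta_reduce
          rw [hout x hxC]
          simp
      have h2'' := integral_add ((iP.add iB).add iU) iU
      have h2' := integral_add (iP.add iB) iU
      have h2 := integral_add iP iB
      simp only [Pi.add_apply] at h2'' h2' h2
      rw [h2'', h2', h2] at h1
      have h6 : vol * (KP * (6 * K + 12 * K ^ 2)) ≤ m * (S * K + KP + 1 + A₂ + A₀) := by
        have h7 : m * KP ≤ m * (S * K + KP + 1 + A₂ + A₀) :=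
          mul_le_mul_of_nonneg_left (by nlinarith) hm0
        have e : vol * (KP * (6 * K + 12 * K ^ 2)) = m * KP := by rw [hm]; ring
        linarith
      rw [hK₅]
      linarith
    · have h1 : ∫ x, φ x ^ 2 * deriv (fun s => Q' s x) t ≤
          ∫ x, (((((φ x ^ 2 * (LL (g₂ t) x + LL (Q t) x - (W221.NS.adv (u t) (g₂ t) x
            + W221.NS.adv (u t) (Q t) x)) + B x)
            + (φ x ^ 2 * deriv (fun s => η s x) t + φ x ^ 2 * w t x))
            + (φ x ^ 2 * deriv (fun s => η s x) t + φ x ^ 2 * w t x))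
            + (φ x ^ 2 * deriv (fun s => η s x) t + φ x ^ 2 * w t x))
            + φ x ^ 2 * -(σ * (2 * WW (u t) x * JJ (u t) x))) := by
        refine integral_mono_ae (int_cs (hφ2.mul cQ) hφ2c.mul_right)
          (((((iQ.add iB).add iU).add iU).add iU).add iS) ?_
        filter_upwards [Pool.Agent.Q175.AX.axis_ae] with x hx
        beta_reduce
        by_cases hxC : x ∈ Co c r h
        · have h8 := hpt x hx hxC
          have h9 := mul_le_mul_of_nonneg_left h8 (sq_nonneg (φ x))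
          have h10 := mul_le_mul_of_nonneg_left (hE2 t htI x hxC hx) (sq_nonneg (φ x))
          rw [hdQ' t htI x, (hdQ t htI x).deriv, hLQ, haQ, hB]
          rw [(p_EqO T E c R H u p hsol t htI x (hsub hxC) hx).deriv] at h9 ⊢
          beta_reduce
          linarith
        · rw [hout x hxC, hB]
          beta_reduce
          rw [hout x hxC]
          simp
      have h2s := integral_add ((((iQ.add iB).add iU).add iU).add iU) iS
      have h2''' := integral_add (((iQ.add iB).add iU).add iU) iU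
      have h2'' := integral_add ((iQ.add iB).add iU) iU
      have h2' := integral_add (iQ.add iB) iU
      have h2 := integral_add iQ iB
      simp only [Pi.add_apply] at h2s h2''' h2'' h2' h2
      rw [h2s, h2''', h2'', h2', h2] at h1
      have e : vol * ((S * K + KP + 1 + A₂ + A t) * (6 * K + 12 * K ^ 2))
          = m * (S * K + KP + 1 + A₂ + A₀) + m * A₁ * (T - t) ^ (-b) := by
        rw [hm, eA]
        ring
      rw [hK₅]
      linarith
  -- integration in time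
  obtain ⟨N₂, hN₂⟩ : ∃ N₂ : ℝ, N₂ = m * A₁ * ((T - T₁) ^ (1 - b) / (1 - b))
      + 3 * Me + K₅ * (T - T₁) + 3 * N₁ + N := ⟨_, rfl⟩
  have hb0' : 0 < 1 - b := by linarith
  have hint : ∀ (g : ℝ → V → ℝ),
      ContDiffOn ℝ ∞ (fun z : ℝ × V => g z.1 z.2) (Ioo 0 T ×ˢ univ) →
      (∀ t ∈ Ico T₁ T, ∫ x, φ x ^ 2 * deriv (fun s => g s x) t
        ≤ K₅ + (m * A₁ * (T - t) ^ (-b) + 3 * y t) + (3 * G t + pr t)) →
      ∀ t ∈ Ico T₁ T, ∫ x, φ x ^ 2 * g t x ≤ (∫ x, φ x ^ 2 * g T₁ x) + N₂ := by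
    intro g jg hg t ht
    have hd := dtLin jg hφ.sm hφ.cs
    have hIs : ∀ s ∈ Icc T₁ t, s ∈ Ioo 0 T := fun s hs =>
      ⟨hT₁.trans_le hs.1, hs.2.trans_lt ht.2⟩
    have hpw : ∀ s ∈ Icc T₁ t, HasDerivAt (fun s => m * A₁ * ((T - s) ^ (1 - b) / (1 - b))
        + -(3 * ∫ x, φ x ^ 2 * η s x)) (-(m * A₁ * (T - s) ^ (-b)) + -(3 * y s)) s := by
      intro s hs
      have hsp : 0 < T - s := by linarith [(hIs s hs).2]
      have e1 := ((hasDerivAt_id s).const_sub T).rpow_const (p := 1 - b) (Or.inl hsp.ne')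
      have e2 := (e1.div_const (1 - b)).const_mul (m * A₁)
      have e4 : HasDerivAt (fun s => m * A₁ * ((T - s) ^ (1 - b) / (1 - b)))
          (-(m * A₁ * (T - s) ^ (-b))) s := by
        refine e2.congr_deriv ?_
        have e3 : (1 - b - 1 : ℝ) = -b := by ring
        simp only [id_eq, e3]
        field_simp
      refine e4.add ?_
      rw [hy]
      exact ((dtLin je hφ.sm hφ.cs s (hIs s hs)).1.const_mul 3).neg
    have hprI : ContinuousOn pr (Icc T₁ t) := hprc.mono hIs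
    have hGi : IntegrableOn G (Icc T₁ t) := hGint t ht
    have hGi' : IntervalIntegrable G volume T₁ t :=
      (intervalIntegrable_iff_integrableOn_Ioc_of_le ht.1).2 (hGi.mono_set Ioc_subset_Icc_self)
    have hpri' : IntervalIntegrable pr volume T₁ t := hprI.intervalIntegrable_of_Icc ht.1
    have h1 := intervalIntegral.sub_le_integral_of_hasDeriv_right_of_le (a := T₁) (b := t)
      (g := fun t => (∫ x, φ x ^ 2 * g t x) + (m * A₁ * ((T - t) ^ (1 - b) / (1 - b))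
        + -(3 * ∫ x, φ x ^ 2 * η t x)))
      (g' := fun t => (∫ x, φ x ^ 2 * deriv (fun s => g s x) t)
        + (-(m * A₁ * (T - t) ^ (-b)) + -(3 * y t)))
      (φ := fun s => K₅ + (3 * G s + pr s)) ht.1
      (fun s hs => ((hd s (hIs s hs)).1.add (hpw s hs)).continuousAt.continuousWithinAt)
      (fun s hs => ((hd s (hIs s (Ioo_subset_Icc_self hs))).1.add
        (hpw s (Ioo_subset_Icc_self hs))).hasDerivWithinAt)
      ((integrableOn_const (by simp)).add
        ((hGi.const_mul 3).add hprI.integrableOn_Icc))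
      (fun s hs => by
        have := hg s ⟨hs.1.le, hs.2.trans ht.2⟩
        beta_reduce
        linarith)
    rw [intervalIntegral.integral_add (by simp) ((hGi'.const_mul 3).add hpri'),
      intervalIntegral.integral_add (hGi'.const_mul 3) hpri',
      intervalIntegral.integral_const_mul, intervalIntegral.integral_const, smul_eq_mul] at h1
    have h2 := hN t ht
    have h2' := hGI t ht
    have h3 : (t - T₁) * K₅ ≤ K₅ * (T - T₁) := by
      rw [mul_comm]
      exact mul_le_mul_of_nonneg_left (by linarith [ht.2]) hK₅0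
    have h4 := he5 T₁ ⟨le_rfl, hT₁T⟩
    have h5 := he6 t ht
    have htp : 0 < T - t := by linarith [ht.2]
    have h6 : 0 ≤ m * A₁ * ((T - t) ^ (1 - b) / (1 - b)) := by positivity
    beta_reduce at h1
    rw [hN₂]
    linarith
  have hPi := hint P jP fun t ht => (hder t ht).1
  have hQi := hint Q' jQ' fun t ht => (hder t ht).2
  refine ⟨S⁻¹ * (((∫ x, φ x ^ 2 * P T₁ x) + N₂) + ((∫ x, φ x ^ 2 * Q' T₁ x) + N₂ + Me₂)
    + 2 * Mf + (1 + 2 * A₀) * ∫ x, φ x ^ 2), fun t ht => ?_⟩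
  have htI := hI t ht
  obtain ⟨-, -, -, sO⟩ := hAs t htI
  have sf := hfs t htI
  have cP : Continuous (P t) := by
    rw [hP]
    exact hCv.cd0.continuous.comp ((continuous_const.mul sO.continuous).add sf.continuous).neg
  have cQ : Continuous (Q t) := by
    rw [hQ]
    exact (continuous_const.mul sO.continuous).add (cP.add continuous_const)
  have iP : Integrable (fun x => φ x ^ 2 * P t x) := int_cs (hφ2.mul cP) hφ2c.mul_right
  have iQ : Integrable (fun x => φ x ^ 2 * Q t x) := int_cs (hφ2.mul cQ) hφ2c.mul_right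
  have iF : Integrable (fun x => φ x ^ 2 * f t x) := int_cs (hφ2.mul sf.continuous) hφ2c.mul_right
  have iO : Integrable (fun x => φ x ^ 2 * |OO (u t) x|) :=
    int_cs (hφ2.mul sO.continuous.abs) hφ2c.mul_right
  have i1 : Integrable (fun x => φ x ^ 2) := int_cs hφ2 hφ2c
  have hle : S * ∫ x, φ x ^ 2 * |OO (u t) x| ≤
      ∫ x, (((φ x ^ 2 * P t x + φ x ^ 2 * Q t x) + 2 * (φ x ^ 2 * f t x))
        + (1 + 2 * A₀) * φ x ^ 2) := by
    rw [← integral_const_mul]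
    refine integral_mono (iO.const_mul S)
      (((iP.add iQ).add (iF.const_mul 2)).add (i1.const_mul _)) fun x => ?_
    beta_reduce
    have h1 : S * |OO (u t) x| ≤ P t x + Q t x + 2 * f t x + (1 + 2 * A₀) := by
      have e1 : S * |OO (u t) x| = |σ * OO (u t) x| := by rw [abs_mul, hS]
      have e2 : σ * OO (u t) x = Q t x - P t x - 1 := by
        rw [hQ]
        ring
      have h3 := hP0 t x
      have h4 := hPge t x
      have h5 := hf4 t htI x
      have h6 : -f t x ≤ Q t x := by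
        have : Q t x = σ * OO (u t) x + (P t x + 1) := by rw [hQ]
        linarith
      rw [e1, e2, abs_le]
      constructor <;> linarith
    have h2 := mul_le_mul_of_nonneg_left h1 (sq_nonneg (φ x))
    linarith
  have h2'' := integral_add ((iP.add iQ).add (iF.const_mul 2)) (i1.const_mul (1 + 2 * A₀))
  have h2' := integral_add (iP.add iQ) (iF.const_mul 2)
  have h2 := integral_add iP iQ
  simp only [Pi.add_apply] at h2'' h2' h2
  rw [h2'', h2', h2, integral_const_mul, integral_const_mul] at hle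
  have g1 := hPi t ht
  have g2 := hQi t ht
  have g2' : ∫ x, φ x ^ 2 * Q t x = (∫ x, φ x ^ 2 * Q' t x) + ∫ x, φ x ^ 2 * η₂ t x := by
    have se2 : ContDiff ℝ ∞ (η₂ t) := Pool.Agent.W583.MD.slice je2 htI
    have i2 : Integrable (fun x => φ x ^ 2 * η₂ t x) :=
      int_cs (hφ2.mul se2.continuous) hφ2c.mul_right
    have i1' : Integrable (fun x => φ x ^ 2 * Q' t x) := by
      rw [hQ']
      exact int_cs (hφ2.mul (cQ.sub se2.continuous)) hφ2c.mul_right
    rw [← integral_add i1' i2]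
    refine integral_congr_ae (Eventually.of_forall fun x => ?_)
    rw [hQ']
    ring
  have g4 := he7 t ht
  have g3 := hf5 t ht
  rw [inv_mul_eq_div, le_div_iff₀ hS0, mul_comm]
  linarith

end Pool.Agent.V8H53.OW
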