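import Pool.Agent.V8H53.OW.L7a
import Pool.Agent.V8H53.OW.L6a

/-!
Project OW: the convex function `2 s - ((1 + s) ^ a - 1)`, and the production where `W ^ 2` is not
above a power of `G`.
-/

set_option autoImplicit false

open MeasureTheory Set Metric Filter Topology
open scoped ContDiff
open H459R3.NS Pool.Agent.W268.NS Pool.Agent.Q67.VD

namespace Pool.Agent.V8H53.OW

open Pool.Agent.Q85.CC Pool.Agent.Q85.CL Pool.Agent.TH305.AX
open Pool.Agent.Q67.AXI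
open Pool.Agent.W583.MD (sm_pd cs_pd pd_mul' Z Z.add Z.sub Z.smul Z.sum int_cs Z_pd)
open Pool.Agent.TH305.DR (pd_add' pd_sub' pd_neg' pd_cmul pd_const')
open Pool.Agent.V8Lead (p_AAs p_Alg p_AxF p_H0 p_Dt p_Jnt p_EqO p_EqW)
open Pool.Agent.Q175.AX (Co_open Cy_compact Co_meas Co_fin ind_int ind_val cut_dich const_pd cut_out
  cut_mem Co_sub_Cy sq_pd sg_nn gr2_nn sg_cd pd_sg gr2_sm pd_comp_at)

variable {v : V → V} {φ : V → ℝ} {c r h r1 h1 K σ : ℝ}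

/-- The convex function. -/
noncomputable def c0 (a y : ℝ) : ℝ := 2 * k0 y - ((1 + k0 y) ^ a - 1)

/-- Its derivative. -/
noncomputable def c1 (a y : ℝ) : ℝ := (2 - a * (1 + k0 y) ^ (a - 1)) * k1 y

/-- Its second derivative. -/
noncomputable def c2 (a y : ℝ) : ℝ :=
  a * (1 - a) * (1 + k0 y) ^ (a - 2) * k1 y ^ 2 + (2 - a * (1 + k0 y) ^ (a - 1)) * k2 y

lemma s_ge (y : ℝ) : 1 ≤ 1 + k0 y := by linarith [k0_nn y]

lemma pw_cd1 (a : ℝ) : ContDiff ℝ ∞ (fun y => (1 + k0 y) ^ a) :=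
  (contDiff_const.add k0_cd).rpow_const_of_ne fun y => by linarith [s_ge y]

lemma pw_hd1 (a y : ℝ) : HasDerivAt (fun y => (1 + k0 y) ^ a)
    (a * (1 + k0 y) ^ (a - 1) * k1 y) y := by
  have h1 := ((k0_hd y).const_add 1).rpow_const (p := a) (Or.inl (by linarith [s_ge y]))
  refine h1.congr_deriv ?_
  ring

lemma a1_bd {a : ℝ} (h0 : 0 < a) (h1 : a < 1) (y : ℝ) :
    0 ≤ a * (1 + k0 y) ^ (a - 1) ∧ a * (1 + k0 y) ^ (a - 1) ≤ 1 := by
  have g1 : (1 + k0 y) ^ (a - 1) ≤ 1 := Real.rpow_le_one_of_one_le_of_nonpos (s_ge y) (by linarith)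
  have g0 : 0 ≤ (1 + k0 y) ^ (a - 1) := Real.rpow_nonneg (by linarith [s_ge y]) _
  refine ⟨mul_nonneg h0.le g0, ?_⟩
  calc _ ≤ 1 * 1 := mul_le_mul h1.le g1 g0 zero_le_one
    _ = 1 := one_mul 1

theorem c_cvx {a : ℝ} (h0 : 0 < a) (h1 : a < 1) : Cvx (c0 a) (c1 a) (c2 a) where
  cd0 := (contDiff_const.mul k0_cd).sub ((pw_cd1 a).sub contDiff_const)
  cd1 := (contDiff_const.sub (contDiff_const.mul (pw_cd1 _))).mul k1_cd
  cd2 := by
    unfold c2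
    exact ((continuous_const.mul (pw_cd1 _).continuous).mul (k1_cd.continuous.pow 2)).add
      ((continuous_const.sub (continuous_const.mul (pw_cd1 _).continuous)).mul
        k2_cd.continuous)
  hd0 := fun y => by
    have g := ((k0_hd y).const_mul 2).sub ((pw_hd1 a y).sub_const 1)
    refine g.congr_deriv ?_
    unfold c1
    ring
  hd1 := fun y => by
    have g := (((pw_hd1 (a - 1) y).const_mul a).const_sub 2).mul (k1_hd y)
    refine g.congr_deriv ?_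
    unfold c2
    have e : a - 1 - 1 = a - 2 := by ring
    rw [e]
    ring
  nn0 := fun y => by
    have g1 : (1 + k0 y) ^ a ≤ (1 + k0 y) ^ (1 : ℝ) :=
      Real.rpow_le_rpow_of_exponent_le (s_ge y) h1.le
    rw [Real.rpow_one] at g1
    unfold c0
    linarith [k0_nn y]
  ge0 := fun y => by
    have g1 : (1 + k0 y) ^ a ≤ (1 + k0 y) ^ (1 : ℝ) :=
      Real.rpow_le_rpow_of_exponent_le (s_ge y) h1.le
    rw [Real.rpow_one] at g1
    unfold c0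
    linarith [k0_ge y]
  le0 := fun y => by
    have g1 : 1 ≤ (1 + k0 y) ^ a := Real.one_le_rpow (s_ge y) h0.le
    unfold c0
    linarith [k0_le y]
  nn1 := fun y => by
    obtain ⟨g1, g2⟩ := a1_bd h0 h1 y
    exact mul_nonneg (by linarith) (k1_nn y)
  le1 := fun y => by
    obtain ⟨g1, g2⟩ := a1_bd h0 h1 y
    unfold c1
    calc _ ≤ 2 * 1 := mul_le_mul (by linarith) (k1_le y) (k1_nn y) (by norm_num)
      _ = 2 := by norm_num
  neg1 := fun y hy => by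
    unfold c1
    rw [k1_neg hy, mul_zero]
  nn2 := fun y => by
    obtain ⟨g1, g2⟩ := a1_bd h0 h1 y
    have g3 : 0 ≤ (1 + k0 y) ^ (a - 2) := Real.rpow_nonneg (by linarith [s_ge y]) _
    have g4 : 0 ≤ a * (1 - a) := mul_nonneg h0.le (by linarith)
    exact add_nonneg (mul_nonneg (mul_nonneg g4 g3) (sq_nonneg _))
      (mul_nonneg (by linarith) (k2_nn y))

lemma c2_ge {a : ℝ} (h0 : 0 < a) (h1 : a < 1) (y : ℝ) :
    a * (1 - a) * (1 + k0 y) ^ (a - 2) * k1 y ^ 2 ≤ c2 a y := by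
  obtain ⟨g1, g2⟩ := a1_bd h0 h1 y
  have := mul_nonneg (show 0 ≤ 2 - a * (1 + k0 y) ^ (a - 1) by linarith) (k2_nn y)
  unfold c2
  linarith

lemma k2_zero {y : ℝ} (h : 1 < y) : k2 y = 0 := by
  have h1 : k1 =ᶠ[𝓝 y] fun _ => 1 := by
    filter_upwards [lt_mem_nhds h] with z hz
    exact k1_one hz.le
  exact ((k1_hd y).congr_of_eventuallyEq h1.symm).unique (hasDerivAt_const y (1 : ℝ))

lemma c2_le {a B : ℝ} (h0 : 0 < a) (h1 : a < 1) (hB : ∀ x, k2 x ≤ B) (y : ℝ) :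
    c2 a y ≤ 1 + 2 * B ∧ c2 a y * (1 + k0 y) ^ a ≤ 1 + 4 * B := by
  obtain ⟨g1, g2⟩ := a1_bd h0 h1 y
  have hs := s_ge y
  have q0 : 0 ≤ (1 + k0 y) ^ (a - 2) := Real.rpow_nonneg (by linarith) _
  have q1 : (1 + k0 y) ^ (a - 2) ≤ 1 := Real.rpow_le_one_of_one_le_of_nonpos hs (by linarith)
  have q2 : 0 ≤ (1 + k0 y) ^ a := Real.rpow_nonneg (by linarith) _
  have q3 : (1 + k0 y) ^ (a - 2) * (1 + k0 y) ^ a ≤ 1 := by
    rw [← Real.rpow_add (by linarith)]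
    exact Real.rpow_le_one_of_one_le_of_nonpos hs (by linarith)
  have p0 : 0 ≤ a * (1 - a) := mul_nonneg h0.le (by linarith)
  have p1 : a * (1 - a) ≤ 1 := by nlinarith
  have r0 := k1_nn y
  have r1 : k1 y ^ 2 ≤ 1 := pow_le_one₀ r0 (k1_le y)
  have u0 := k2_nn y
  have hB0 : 0 ≤ B := u0.trans (hB y)
  have w0 : 0 ≤ 2 - a * (1 + k0 y) ^ (a - 1) := by linarith
  have w1 : (2 - a * (1 + k0 y) ^ (a - 1)) * k2 y ≤ 2 * B :=
    mul_le_mul (by linarith) (hB y) u0 (by norm_num)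
  have w2 : (2 - a * (1 + k0 y) ^ (a - 1)) * k2 y * (1 + k0 y) ^ a ≤ 4 * B := by
    rcases lt_or_ge 1 y with h | h
    · rw [k2_zero h]
      linarith
    · have t1 : k0 y ≤ 1 := (k0_le y).trans (max_le h zero_le_one)
      have t2 : (1 + k0 y) ^ a ≤ 2 := by
        calc (1 + k0 y) ^ a ≤ (1 + k0 y) ^ (1 : ℝ) := Real.rpow_le_rpow_of_exponent_le hs h1.le
          _ ≤ 2 := by rw [Real.rpow_one]; linarith
      calc _ ≤ 2 * B * 2 := mul_le_mul w1 t2 q2 (by positivity)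
        _ = 4 * B := by ring
  have v1 : a * (1 - a) * (1 + k0 y) ^ (a - 2) * k1 y ^ 2 ≤ 1 * 1 * 1 :=
    mul_le_mul (mul_le_mul p1 q1 q0 zero_le_one) r1 (sq_nonneg _) (by norm_num)
  have v2 : a * (1 - a) * (1 + k0 y) ^ (a - 2) * k1 y ^ 2 * (1 + k0 y) ^ a ≤ 1 := by
    have e : a * (1 - a) * (1 + k0 y) ^ (a - 2) * k1 y ^ 2 * (1 + k0 y) ^ a
        = a * (1 - a) * k1 y ^ 2 * ((1 + k0 y) ^ (a - 2) * (1 + k0 y) ^ a) := by ring
    rw [e]
    calc _ ≤ 1 * 1 * 1 := mul_le_mul (mul_le_mul p1 r1 (sq_nonneg _) zero_le_one) q3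
          (mul_nonneg q0 q2) (by norm_num)
      _ = 1 := by norm_num
  unfold c2
  constructor
  · linarith
  · rw [add_mul]
    linarith

/-- The inequality of the three terms. -/
lemma alg7 {X G κ k g σ M₃ P S μ H w B₁ B₂ E N : ℝ} (hG : X ^ 2 ≤ G) (hκ : g * k ^ 2 ≤ κ)
    (hg : 0 < g) (hM₃ : 0 ≤ M₃) (hμ : 0 ≤ μ) (hH0 : 0 ≤ H)
    (hHw : H ≤ w ^ 2) (hHm : H ≤ 2 * (μ + M₃ * P)) (hP : 0 ≤ P) (h1 : κ ≤ B₁) (h2 : κ * P ≤ B₂)
    (hE : E ^ 2 ≤ 2 * g * N) (hS : S ≤ E * (k * |X|)) :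
    -(κ * G) - σ * (κ * X * H) + S ≤ 2 * σ ^ 2 * B₁ * μ ^ 2 + 2 * σ ^ 2 * M₃ * B₂ * w ^ 2 + N := by
  have hκ0 : 0 ≤ κ := le_trans (by positivity) hκ
  have e1 : κ * X ^ 2 ≤ κ * G := mul_le_mul_of_nonneg_left hG hκ0
  have e2 : -(κ * X ^ 2) / 2 - σ * (κ * X * H) ≤ σ ^ 2 * κ * H ^ 2 / 2 := by
    nlinarith [mul_nonneg hκ0 (sq_nonneg (X + σ * H))]
  have e3 : H ^ 2 ≤ 4 * μ ^ 2 + 4 * (M₃ * P) * w ^ 2 := by
    have t1 := mul_le_mul_of_nonneg_left hHm hH0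
    have t2 := mul_le_mul_of_nonneg_left hHw (mul_nonneg hM₃ hP)
    nlinarith [sq_nonneg (H - 2 * μ)]
  have e4 : σ ^ 2 * κ * H ^ 2 / 2 ≤ 2 * σ ^ 2 * B₁ * μ ^ 2 + 2 * σ ^ 2 * M₃ * B₂ * w ^ 2 := by
    have t1 := mul_le_mul_of_nonneg_left e3 (show 0 ≤ σ ^ 2 * κ / 2 by positivity)
    have t2 := mul_le_mul_of_nonneg_left h1 (show 0 ≤ 2 * σ ^ 2 * μ ^ 2 by positivity)
    have t3 := mul_le_mul_of_nonneg_left h2 (show 0 ≤ 2 * σ ^ 2 * M₃ * w ^ 2 by positivity)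
    nlinarith
  have e5 : E * (k * |X|) ≤ g * k ^ 2 * X ^ 2 / 2 + N := by
    have t1 : 0 ≤ 2 * g * (g * k ^ 2 * X ^ 2 / 2 + N - E * (k * |X|)) := by
      have t2 : (k * |X|) ^ 2 = k ^ 2 * X ^ 2 := by rw [mul_pow, sq_abs]
      have t3 := sq_nonneg (g * (k * |X|) - E)
      have t4 : (g * (k * |X|) - E) ^ 2 = g ^ 2 * (k ^ 2 * X ^ 2) - 2 * g * (E * (k * |X|))
          + E ^ 2 := by
        rw [← t2]
        ring
      rw [t4] at t3
      have t5 : 2 * g * (g * k ^ 2 * X ^ 2 / 2 + N - E * (k * |X|))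
          = g ^ 2 * (k ^ 2 * X ^ 2) + 2 * g * N - 2 * g * (E * (k * |X|)) := by ring
      rw [t5]
      linarith
    have t6 := (mul_nonneg_iff_of_pos_left (show 0 < 2 * g by positivity)).1 t1
    linarith
  have e6 := mul_le_mul_of_nonneg_right hκ (sq_nonneg X)
  linarith

end Pool.Agent.V8H53.OW
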