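import Pool.Agent.V8H53.OW.L7b

/-!
Project OW: the production where `W ^ 2` is not above a power of `G` is absorbed by the
dissipation.
-/

set_option autoImplicit false

open MeasureTheory Set Metric Filter Topology
open scoped ContDiff
open H459R3.NS Pool.Agent.W268.NS Pool.Agent.Q67.VD

namespace Pool.Agent.V8H53.OW

open Pool.Agent.Q85.CC Pool.Agent.Q85.CL Pool.Agent.TH305.AX
open Pool.Agent.Q67.AXI
open Pool.Agent.W583.MD (sm_pd cs_pd pd_mul' Z Z.add Z.sub Z.smul Z.sum int_cs Z_pd)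
open Pool.Agent.TH305.DR (pd_add' pd_sub' pd_neg' pd_cmul pd_const')
open Pool.Agent.V8Lead (p_AAs p_Alg p_AxF p_H0 p_Dt p_Jnt p_EqO p_EqW)
open Pool.Agent.Q175.AX (Co_open Cy_compact Co_meas Co_fin ind_int ind_val cut_dich const_pd cut_out
  cut_mem Co_sub_Cy sq_pd sg_nn gr2_nn sg_cd pd_sg gr2_sm pd_comp_at)

variable {v : V → V} {φ : V → ℝ} {c r h r1 h1 K σ : ℝ}

lemma k0_zero {x : ℝ} (h : x ≤ 0) : k0 x = 0 :=
  le_antisymm ((k0_le x).trans (max_le h le_rfl)) (k0_nn x)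

/-- The height of the truncation. -/
noncomputable def th7 (a M₃ : ℝ) (μ q : V → ℝ) (x : V) : ℝ := μ x + M₃ * (1 + k0 (-q x)) ^ a

/-- Integration by parts in the term of the production, where `W ^ 2` is not above `th7`. -/
lemma win_en7 {a M₃ : ℝ} (ha0 : 0 < a) (ha1 : a < 1) (hM₃ : 0 ≤ M₃) {q μ : V → ℝ} (hv : ContDiff ℝ ∞ v) (ha : Axi v) (hK : 0 ≤ K) (hr : 0 ≤ r)
    (hφ : Cut c r h r1 h1 K φ) (hb : ∀ x ∈ Out c r h r1 h1, BdA K v x) (hq : ContDiff ℝ ∞ q)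
    (hμ : ContDiff ℝ ∞ μ) (hμ0 : ∀ x, 0 < μ x) {B : ℝ} (hB : ∀ x, k2 x ≤ B) :
    ∫ x, φ x ^ 2 * (-(c2 a (-q x) * gr2 q x) + c1 a (-q x) * (σ * (2 * WW v x * JJ v x))) ≤
      (∫ x, φ x ^ 2 * (c1 a (-q x) * (k1 (WW v x ^ 2 / th7 a M₃ μ q x - 1)
        * (σ * (2 * WW v x * JJ v x)))))
        + 2 * σ ^ 2 * (1 + 2 * B) * (∫ x, φ x ^ 2 * μ x ^ 2)
        + 4 * |σ| * (∫ x, φ x ^ 2 * |pd 2 μ x|)
        + (2 * σ ^ 2 * M₃ * (1 + 4 * B) + 8 * σ ^ 2 * M₃ / (a * (1 - a)))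
          * (∫ x, φ x ^ 2 * WW v x ^ 2)
        + (volume (Co c r h)).toReal * (|σ| * (4 * K ^ 3)) := by
  have hCv := c_cvx ha0 ha1
  obtain ⟨⟨-, sW, sJ, -⟩, -, -, hid⟩ := p_Alg v hv ha
  have hφ2c : HasCompactSupport (fun y => φ y ^ 2) := by
    have e : (fun y => φ y ^ 2) = fun y => φ y * φ y := by
      funext y
      ring
    rw [e]
    exact hφ.cs.mul_right
  have hφ2 : Continuous (fun y => φ y ^ 2) := hφ.sm.continuous.pow 2
  obtain ⟨ζ, hζ⟩ : ∃ ζ : V → ℝ, ζ = fun y => φ y ^ 2 := ⟨_, rfl⟩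
  have hζs : ContDiff ℝ ∞ ζ := by rw [hζ]; exact hφ.sm.pow 2
  have hζc : HasCompactSupport ζ := by rw [hζ]; exact hφ2c
  have hW2 : ContDiff ℝ ∞ (fun y => WW v y ^ 2) := sW.pow 2
  have hqn : ContDiff ℝ ∞ (fun y => -q y) := hq.neg
  have hqp : ∀ j x, pd j (fun y => -q y) x = -pd j q x := by
    intro j x
    have e : (fun y => -q y) = fun y => (fun _ => (-1 : ℝ)) y * q y := by
      funext y
      ring
    rw [e, pd_mulf contDiff_const hq, pd_const']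
    ring
  obtain ⟨Θ, hΘd⟩ : ∃ Θ : V → ℝ, Θ = th7 a M₃ μ q := ⟨_, rfl⟩
  have hs0 : ∀ x, 0 < 1 + k0 (-q x) := fun x => by linarith [s_ge (-q x)]
  have hpc : ContDiff ℝ ∞ (fun y => (1 + k0 (-q y)) ^ a) := (pw_cd1 a).comp hqn
  have hΘe : Θ = fun y => μ y + (fun y => M₃ * (1 + k0 (-q y)) ^ a) y := by rw [hΘd]; rfl
  have hΘ : ContDiff ℝ ∞ Θ := by rw [hΘe]; exact hμ.add (contDiff_const.mul hpc)
  have hΘp : ∀ x, pd 2 Θ x = pd 2 μ x
      - M₃ * (a * (1 + k0 (-q x)) ^ (a - 1) * k1 (-q x) * pd 2 q x) := by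
    intro x
    have e1 := pd_comp_at (pw_hd1 a (-q x)) ((hqn.differentiable (by simp)) x) 2
    rw [hΘe, pd_add' hμ (contDiff_const.mul hpc), pd_mulf contDiff_const hpc, pd_const']
    beta_reduce
    rw [e1, hqp]
    ring
  have hPn : ∀ x, 0 ≤ (1 + k0 (-q x)) ^ a := fun x => Real.rpow_nonneg (hs0 x).le _
  have hΘ0 : ∀ x, 0 < Θ x := fun x => by
    rw [hΘe]
    exact add_pos_of_pos_of_nonneg (hμ0 x) (mul_nonneg hM₃ (hPn x))
  rw [← hΘd]
  have hdv : ContDiff ℝ ∞ (fun y => WW v y ^ 2 / Θ y) := hW2.div hΘ fun x => (hΘ0 x).ne'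
  have hdp : ∀ x, pd 2 (fun y => WW v y ^ 2 / Θ y) x
      = (2 * WW v x * pd 2 (WW v) x - WW v x ^ 2 / Θ x * pd 2 Θ x) / Θ x := by
    intro x
    have h1 : (fun y => WW v y ^ 2) = fun y => (fun y => WW v y ^ 2 / Θ y) y * Θ y := by
      funext y
      have := (hΘ0 y).ne'
      field_simp
    have h2 : pd 2 (fun y => WW v y ^ 2) x = WW v x ^ 2 / Θ x * pd 2 Θ x
        + pd 2 (fun y => WW v y ^ 2 / Θ y) x * Θ x := by
      conv_lhs => rw [h1]
      rw [pd_mulf hdv hΘ]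
    rw [sq_pd sW] at h2
    rw [eq_div_iff (hΘ0 x).ne']
    linarith
  have hdv1 : ContDiff ℝ ∞ (fun y => WW v y ^ 2 / Θ y - 1) := hdv.sub contDiff_const
  have hdp1 : ∀ x, pd 2 (fun y => WW v y ^ 2 / Θ y - 1) x
      = (2 * WW v x * pd 2 (WW v) x - WW v x ^ 2 / Θ x * pd 2 Θ x) / Θ x := by
    intro x
    rw [pd_sub' hdv contDiff_const, pd_const', ← hdp]
    ring
  obtain ⟨H, hH⟩ : ∃ H : V → ℝ, H = fun y => tr (Θ y) (WW v y) := ⟨_, rfl⟩
  have hkc : ContDiff ℝ ∞ (fun y => k0 (WW v y ^ 2 / Θ y - 1)) := k0_cd.comp hdv1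
  have hHs : ContDiff ℝ ∞ H := by
    rw [hH]
    unfold tr
    exact hW2.sub (hΘ.mul hkc)
  have hHp : ∀ x, pd 2 H x = 2 * WW v x * pd 2 (WW v) x
      * (1 - k1 (WW v x ^ 2 / Θ x - 1)) - pd 2 Θ x * (k0 (WW v x ^ 2 / Θ x - 1)
        - WW v x ^ 2 / Θ x * k1 (WW v x ^ 2 / Θ x - 1)) := by
    intro x
    have h1 : H = fun y => (fun y => WW v y ^ 2) y
        - (fun y => Θ y * (fun y => k0 (WW v y ^ 2 / Θ y - 1)) y) y := by
      rw [hH]
      rfl
    rw [h1, pd_sub' hW2 (hΘ.mul hkc), pd_mulf hΘ hkc, sq_pd sW]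
    beta_reduce
    rw [pd_comp_at (k0_hd _) ((hdv1.differentiable (by simp)) x), hdp1]
    have := (hΘ0 x).ne'
    field_simp
    ring
  have hkq : ContDiff ℝ ∞ (fun y => c1 a (-q y)) := hCv.cd1.comp hq.neg
  have hkp : ∀ x, pd 2 (fun y => c1 a (-q y)) x = -(c2 a (-q x) * pd 2 q x) := by
    intro x
    rw [pd_comp_at (hCv.hd1 (-q x)) ((hqn.differentiable (by simp)) x), hqp]
    ring
  have Z3 := (Z_pd (hζs.mul (hkq.mul hHs)) hζc.mul_right 2).smul (-σ)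
  have ck1 : Continuous (fun x => c1 a (-q x)) := hkq.continuous
  have ck2 : Continuous (fun x => c2 a (-q x)) := hCv.cd2.comp hq.continuous.neg
  have ck3 : Continuous (fun x => k1 (WW v x ^ 2 / Θ x - 1)) := k1_cd.continuous.comp hdv1.continuous
  have cWJ : Continuous (fun x => σ * (2 * WW v x * JJ v x)) := continuous_const.mul
    ((continuous_const.mul sW.continuous).mul sJ.continuous)
  have iR : Integrable (fun x => φ x ^ 2 * (c1 a (-q x) * (k1 (WW v x ^ 2 / Θ x - 1)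
      * (σ * (2 * WW v x * JJ v x))))) :=
    int_cs (hφ2.mul (ck1.mul (ck3.mul cWJ))) hφ2c.mul_right
  have iM : Integrable (fun x => φ x ^ 2 * μ x ^ 2) :=
    int_cs (hφ2.mul (hμ.continuous.pow 2)) hφ2c.mul_right
  have iP : Integrable (fun x => φ x ^ 2 * |pd 2 μ x|) :=
    int_cs (hφ2.mul (sm_pd hμ 2).continuous.abs) hφ2c.mul_right
  have iW : Integrable (fun x => φ x ^ 2 * WW v x ^ 2) :=
    int_cs (hφ2.mul (sW.continuous.pow 2)) hφ2c.mul_right
  have iL : Integrable (fun x => φ x ^ 2 * (-(c2 a (-q x) * gr2 q x)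
      + c1 a (-q x) * (σ * (2 * WW v x * JJ v x)))) := by
    refine int_cs (hφ2.mul ?_) hφ2c.mul_right
    exact ((ck2.mul (gr2_sm hq).continuous).neg).add (ck1.mul cWJ)
  have iO := ind_int (c := c) (h := h) hr (|σ| * (4 * K ^ 3))
  obtain ⟨A1, hA1⟩ : ∃ A1 : ℝ, A1 = 2 * σ ^ 2 * (1 + 2 * B) := ⟨_, rfl⟩
  obtain ⟨A2, hA2⟩ : ∃ A2 : ℝ, A2 = 4 * |σ| := ⟨_, rfl⟩
  obtain ⟨A3, hA3⟩ : ∃ A3 : ℝ, A3 = 2 * σ ^ 2 * M₃ * (1 + 4 * B) + 8 * σ ^ 2 * M₃ / (a * (1 - a)) :=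
    ⟨_, rfl⟩
  have haa : 0 < a * (1 - a) := mul_pos ha0 (by linarith)
  have hpt : ∀ x, φ x ^ 2 * (-(c2 a (-q x) * gr2 q x)
      + c1 a (-q x) * (σ * (2 * WW v x * JJ v x))) ≤
      ((((-σ * pd 2 (fun y => ζ y * (c1 a (-q y) * H y)) x
        + φ x ^ 2 * (c1 a (-q x) * (k1 (WW v x ^ 2 / Θ x - 1) * (σ * (2 * WW v x * JJ v x)))))
        + A1 * (φ x ^ 2 * μ x ^ 2)) + A2 * (φ x ^ 2 * |pd 2 μ x|))
        + A3 * (φ x ^ 2 * WW v x ^ 2))
        + (Co c r h).indicator (fun _ : V => |σ| * (4 * K ^ 3)) x := by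
    intro x
    have e2 : φ x ^ 2 = ζ x := by rw [hζ]
    have hζ0 : 0 ≤ ζ x := by rw [hζ]; positivity
    have hHx : H x = tr (Θ x) (WW v x) := by rw [hH]
    obtain ⟨t1, t2, t3⟩ := tr_bd (hΘ0 x) (WW v x)
    rw [← hHx] at t1 t2 t3
    have hΘx : Θ x = μ x + M₃ * (1 + k0 (-q x)) ^ a := by rw [hΘe]
    have hout : σ * (pd 2 ζ x * (c1 a (-q x) * H x)) ≤
        (Co c r h).indicator (fun _ : V => |σ| * (4 * K ^ 3)) x := by
      rcases cut_dich hφ x with ⟨ho, hc⟩ | ⟨k, hk⟩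
      · rw [indicator_of_mem hc]
        obtain ⟨b1, b2, b3, b4, b5, b6⟩ := hb x ho
        obtain ⟨c1', c2', c3⟩ := hφ.bd x
        have hp : |pd 2 ζ x| ≤ 2 * K := by
          rw [hζ, sq_pd hφ.sm]
          rw [abs_mul, abs_mul, abs_two, abs_of_nonneg (hφ.nn x)]
          calc 2 * φ x * |pd 2 φ x| ≤ 2 * 1 * K := by
                gcongr
                · exact hφ.le x
                · exact c1' 2
            _ = 2 * K := by ring
        have t3 : |c1 a (-q x) * H x| ≤ 2 * K ^ 2 := by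
          rw [abs_mul, abs_of_nonneg (hCv.nn1 _), abs_of_nonneg t1]
          refine mul_le_mul (hCv.le1 _) (t2.trans ?_) t1 (by norm_num)
          rw [← sq_abs]
          exact pow_le_pow_left₀ (abs_nonneg _) b3 2
        have t4 : |σ * (pd 2 ζ x * (c1 a (-q x) * H x))| ≤ |σ| * (2 * K * (2 * K ^ 2)) := by
          rw [abs_mul, abs_mul]
          exact mul_le_mul_of_nonneg_left (mul_le_mul hp t3 (abs_nonneg _) (by positivity))
            (abs_nonneg _)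
        have e : |σ| * (2 * K * (2 * K ^ 2)) = |σ| * (4 * K ^ 3) := by ring
        rw [← e]
        exact (le_abs_self _).trans t4
      · have hk' : ζ =ᶠ[𝓝 x] fun _ => k ^ 2 := by
          filter_upwards [hk] with y hy
          rw [hζ]
          beta_reduce
          rw [hy]
        obtain ⟨a1, a2, a3⟩ := const_pd hk'
        rw [a1 2, zero_mul, mul_zero]
        exact indicator_nonneg (fun _ _ => by positivity) _
    have hgr : pd 2 q x ^ 2 ≤ gr2 q x := by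
      unfold gr2
      rw [Fin.sum_univ_three]
      have := sq_nonneg (pd 0 q x)
      have := sq_nonneg (pd 1 q x)
      linarith
    obtain ⟨kk, hkk⟩ : ∃ kk : ℝ, kk = k0 (WW v x ^ 2 / Θ x - 1)
        - WW v x ^ 2 / Θ x * k1 (WW v x ^ 2 / Θ x - 1) := ⟨_, rfl⟩
    have hk2 : |kk| ≤ 2 := by
      rw [hkk]
      exact kk_bd (s := WW v x ^ 2 / Θ x) (div_nonneg (sq_nonneg _) (hΘ0 x).le)
    have n1 := hCv.nn1 (-q x)
    have n2 := hCv.le1 (-q x)
    -- the term with the derivative of `μ`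
    have hY3 : -(σ * (c1 a (-q x) * (pd 2 μ x * kk))) ≤ A2 * |pd 2 μ x| := by
      refine (neg_le_abs _).trans ?_
      rw [abs_mul, abs_mul, abs_mul, abs_of_nonneg n1, hA2]
      calc |σ| * (c1 a (-q x) * (|pd 2 μ x| * |kk|))
          ≤ |σ| * (2 * (|pd 2 μ x| * 2)) := by
            refine mul_le_mul_of_nonneg_left (mul_le_mul n2
              (mul_le_mul_of_nonneg_left hk2 (abs_nonneg _)) (by positivity) (by norm_num))
              (abs_nonneg _)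
        _ = _ := by ring
    -- the term with the derivative of the power
    obtain ⟨S1, hS1⟩ : ∃ S1 : ℝ, S1 = (1 + k0 (-q x)) ^ (a - 1) := ⟨_, rfl⟩
    obtain ⟨S2, hS2⟩ : ∃ S2 : ℝ, S2 = (1 + k0 (-q x)) ^ (a - 2) := ⟨_, rfl⟩
    obtain ⟨P, hP⟩ : ∃ P : ℝ, P = (1 + k0 (-q x)) ^ a := ⟨_, rfl⟩
    have hS1p : 0 < S1 := by rw [hS1]; exact Real.rpow_pos_of_pos (hs0 x) _
    have hS2p : 0 < S2 := by rw [hS2]; exact Real.rpow_pos_of_pos (hs0 x) _
    have hPp : 0 < P := by rw [hP]; exact Real.rpow_pos_of_pos (hs0 x) _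
    have hSS : S1 ^ 2 = S2 * P := by
      rw [hS1, hS2, hP, ← Real.rpow_add (hs0 x), ← Real.rpow_natCast, ← Real.rpow_mul (hs0 x).le]
      congr 1
      push_cast
      ring
    obtain ⟨E, hE⟩ : ∃ E : ℝ, E = if Θ x < WW v x ^ 2 then 4 * |σ| * M₃ * S1 else 0 := ⟨_, rfl⟩
    have hSle : σ * (c1 a (-q x) * (M₃ * (a * S1 * k1 (-q x) * pd 2 q x) * kk))
        ≤ E * (k1 (-q x) * |pd 2 q x|) := by
      rw [hE]
      split_ifs with hc
      · refine (le_abs_self _).trans ?_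
        have m1 := k1_nn (-q x)
        rw [abs_mul, abs_mul, abs_mul, abs_mul, abs_mul, abs_of_nonneg n1, abs_of_nonneg hM₃,
          abs_of_nonneg (show 0 ≤ a * S1 * k1 (-q x) by positivity)]
        calc |σ| * (c1 a (-q x) * (M₃ * (a * S1 * k1 (-q x) * |pd 2 q x|) * |kk|))
            ≤ |σ| * (2 * (M₃ * (1 * S1 * k1 (-q x) * |pd 2 q x|) * 2)) := by
              gcongr
          _ = _ := by ring
      · have hc' : WW v x ^ 2 / Θ x - 1 ≤ 0 := by
          have := (div_le_one (hΘ0 x)).2 (not_lt.1 hc)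
          linarith
        have : kk = 0 := by
          rw [hkk, k0_zero hc', k1_neg hc']
          ring
        rw [this]
        simp
    have hE2 : E ^ 2 ≤ 2 * (a * (1 - a) * S2) * (8 * σ ^ 2 * M₃ / (a * (1 - a)) * WW v x ^ 2) := by
      rw [hE]
      split_ifs with hc
      · have h5 : M₃ * P ≤ WW v x ^ 2 := by
          rw [hP]
          linarith [hμ0 x]
        have e5 : (4 * |σ| * M₃ * S1) ^ 2 = 16 * σ ^ 2 * M₃ * S2 * (M₃ * P) := by
          rw [mul_pow, mul_pow, mul_pow, sq_abs, hSS]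
          ring
        have e6 : 2 * (a * (1 - a) * S2) * (8 * σ ^ 2 * M₃ / (a * (1 - a)) * WW v x ^ 2)
            = 16 * σ ^ 2 * M₃ * S2 * WW v x ^ 2 := by
          obtain ⟨y, hy⟩ : ∃ y : ℝ, y = a * (1 - a) := ⟨_, rfl⟩
          rw [← hy] at haa ⊢
          field_simp
          ring
        rw [e5, e6]
        exact mul_le_mul_of_nonneg_left h5 (by positivity)
      · have : 0 ≤ 2 * (a * (1 - a) * S2) * (8 * σ ^ 2 * M₃ / (a * (1 - a)) * WW v x ^ 2) := by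
          positivity
        simpa using this
    obtain ⟨l1, l2⟩ := c2_le ha0 ha1 hB (-q x)
    have l3 := c2_ge ha0 ha1 (-q x)
    rw [← hS2] at l3
    rw [← hP] at l2 hΘx
    rw [hΘx] at t3
    have hmain := alg7 (X := pd 2 q x) (G := gr2 q x) (κ := c2 a (-q x)) (k := k1 (-q x))
      (g := a * (1 - a) * S2) (σ := σ) (M₃ := M₃) (P := P) (μ := μ x) (H := H x) (w := WW v x)
      hgr l3 (by positivity) hM₃ (hμ0 x).le t1 t2 t3 hPp.le l1 l2 hE2 hSle
    have e6 : pd 2 (fun y => ζ y * (c1 a (-q y) * H y)) x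
        = ζ x * (c1 a (-q x) * pd 2 H x + -(c2 a (-q x) * pd 2 q x) * H x)
          + pd 2 ζ x * (c1 a (-q x) * H x) := by
      rw [pd_mulf hζs (hkq.mul hHs), pd_mulf hkq hHs]
      beta_reduce
      rw [hkp]
    have g1 := mul_le_mul_of_nonneg_left hmain hζ0
    have g2 := mul_le_mul_of_nonneg_left hY3 hζ0
    rw [e6, (hid x).2.2.2.2.2.1, e2, hHp, ← hkk, hΘp, ← hS1, hA1, hA3]
    linarith
  have h1 := integral_mono iL (((((Z3.1.add iR).add (iM.const_mul A1)).add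
    (iP.const_mul A2)).add (iW.const_mul A3)).add iO) hpt
  have h2 := integral_add ((((Z3.1.add iR).add (iM.const_mul A1)).add
    (iP.const_mul A2)).add (iW.const_mul A3)) iO
  have h2' := integral_add (((Z3.1.add iR).add (iM.const_mul A1)).add
    (iP.const_mul A2)) (iW.const_mul A3)
  have h2'' := integral_add ((Z3.1.add iR).add (iM.const_mul A1)) (iP.const_mul A2)
  have h3 := integral_add (Z3.1.add iR) (iM.const_mul A1)
  have h4 := integral_add Z3.1 iR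
  simp only [Pi.add_apply] at h1 h2 h2' h2'' h3 h4
  rw [h2, h2', h2'', h3, h4, Z3.2, zero_add, ind_val, integral_const_mul, integral_const_mul,
    integral_const_mul, hA1, hA2, hA3] at h1
  exact h1

end Pool.Agent.V8H53.OW
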