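import Pool.Agent.V8H53.OW.L6b
import Pool.Agent.V8H53.OW.L7c
import Pool.Agent.V8H53.OW.L7d

/-!
Project OW: the bound of `∫ |ω_θ / ρ|` if the production is finite on the set where `W²`, `|J|` and
`G` are above the thresholds and `W²` is above a power of `G`.
-/

set_option autoImplicit false

open MeasureTheory Set Metric Filter Topology
open scoped ContDiff ENNReal
open H459R3.NS Pool.Agent.W268.NS Pool.Agent.Q67.VD

namespace Pool.Agent.V8H53.OW

open Pool.Agent.Q85.CC Pool.Agent.Q85.CL Pool.Agent.TH305.AX Pool.Agent.Q67.AXI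
open Pool.Agent.V8Lead
open Pool.Agent.Q65.AXI (circ_bd)
open Pool.Agent.W583.MD (sm_pd int_cs)
open Pool.Agent.TH305.DR (pd_add' pd_const')
open Pool.Agent.Q175.AX (Co_open Cy_compact Co_meas Co_fin Co_sub_Cy sg_nn sg_cd pd_ev sq_pd)

/-- The condition in the region. -/
def CondX (T T₁ σ C C₂ b d c l g M₁ M₂ a M₃ : ℝ) (O : Set V) (u : ℝ → V → V) : Prop :=
  ∫⁻ t in Ioo T₁ T, ∫⁻ x in {x | x ∈ O ∧ sg x < (T - t) ^ g ∧
      th7 a M₃ (fun y => M₁ * thP T b d c t y) (qr T σ C C₂ 0 b d c l u t) x <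
        WW (u t) x ^ 2 ∧ M₂ * thJ T b d c l u t x < |JJ (u t) x| ∧
      qr T σ C C₂ 0 b d c l u t x < 0},
    ENNReal.ofReal (σ * (2 * WW (u t) x * JJ (u t) x)) < ⊤

/-- Finite production. -/
lemma L1B_X (hThr : StmThr2) (hMass : StmMass) (hHar : StmHar2) (hW1 : StmW1)
    (hF1 : StmFar1) (hF4 : StmFar4)
    {T E c R H T₀ C C₂ b d l g M₁ M₂ σ a M₃ : ℝ} (ha0 : 0 < a) (ha1 : a < 1) (hM₃ : 0 ≤ M₃)
    {u : ℝ → V → V} {p : ℝ → V → ℝ}
    (hsol : AxL T E c R H u p)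
    (hσ : σ ≠ 0) (hC : 0 ≤ C) (hb0 : 0 ≤ b) (hb1 : b < 1) (hd0 : 0 ≤ d) (hd1 : d < 5 / 4)
    (hl : 0 < l) (hC₂ : 0 ≤ C₂) (hg : 0 ≤ g) (hg' : g < 1 / 2) (hM₁ : 0 < M₁) (hM₂ : 0 ≤ M₂)
    (hc : CondX T T₀ σ C C₂ b d c l g M₁ M₂ a M₃ (Co c R H) u) : L1B T T₀ c R H u := by
  intro T₁ r h r1 h1 K φ hT₀ hT₁T hT₁p hr1 hr1r hrR hh1 hh1h hhH hK hφ hb
  have hT : 0 < T := hT₁p.trans hT₁T
  have hr0 : 0 < r := hr1.trans hr1r
  have hh0 : 0 < h := hh1.trans hh1h
  have hI : ∀ t ∈ Ico T₁ T, t ∈ Ioo 0 T := fun t ht => ⟨hT₁p.trans_le ht.1, ht.2⟩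
  have hus : ∀ t ∈ Ioo 0 T, ContDiff ℝ ∞ (u t) := fun t ht =>
    Pool.Agent.Q285.AXI.slice hsol.smooth_u ht
  obtain ⟨C₀, hC₀, hcirc⟩ := circ_bd p_Alg p_Bar T E c R H r h T₁ K u p hsol hr0 hrR hh0 hhH hT₁p
    hT₁T (by
      intro t ht x hx hb'
      refine (hb t ht x ⟨hx, ?_⟩).2.2.1
      rcases hb' with hb' | hb'
      · left
        rw [hb']
        exact pow_le_pow_left₀ hr1.le hr1r.le 2
      · right
        rw [hb']
        exact hh1h.le)
  have hsub : Co c r h ⊆ Co c R H := Pool.Agent.Q285.AXI.co_mono hr0 hrR hhH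
  obtain ⟨F, hFm, hFi, hF⟩ := hF1 T E c R H r h T₁ C₀ g u p hsol hr0 hrR hh0 hhH hT₁p hT₁T hg hg'
    hcirc
  obtain ⟨F₄, hFm₄, hFi₄, hF₄⟩ := hF4 T E c R H r h T₁ l M₂ b d u p hsol hr0 hrR hh0 hhH hT₁p
    hT₁T hl hM₂ hb0 hb1 hd0 hd1
  have hσa : ∀ t x, ENNReal.ofReal (σ * (2 * WW (u t) x * JJ (u t) x))
      ≤ ENNReal.ofReal |σ| * ENNReal.ofReal |2 * WW (u t) x * JJ (u t) x| := by
    intro t x
    rw [← ENNReal.ofReal_mul (abs_nonneg _), ← abs_mul]
    exact ENNReal.ofReal_le_ofReal (le_abs_self _)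
  have hc' : ∫⁻ t in Ioo T₁ T, ∫⁻ x in {x | x ∈ Co c r h ∧
      th7 a M₃ (fun y => M₁ * thP T b d c t y) (qr T σ C C₂ 0 b d c l u t) x <
        WW (u t) x ^ 2 ∧ qr T σ C C₂ 0 b d c l u t x < 0},
      ENNReal.ofReal (σ * (2 * WW (u t) x * JJ (u t) x)) < ⊤ := by
    refine far_split (k := ENNReal.ofReal |σ|)
      (S₁ := fun t => {x | x ∈ Co c r h ∧
        th7 a M₃ (fun y => M₁ * thP T b d c t y) (qr T σ C C₂ 0 b d c l u t) x <
        WW (u t) x ^ 2 ∧ M₂ * thJ T b d c l u t x < |JJ (u t) x| ∧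
        qr T σ C C₂ 0 b d c l u t x < 0})
      (S₂ := fun t => {x | x ∈ Co c r h ∧ |JJ (u t) x| ≤ M₂ * (sq0 l (WW (u t) x)
        + X2 c (T - t) x ^ (-d) + (sg x + (T - t)) ^ (-b))})
      (f' := fun t x => ENNReal.ofReal |2 * WW (u t) x * JJ (u t) x|)
      ENNReal.ofReal_ne_top hFm₄ hFi₄ (fun t x hx => ?_) ?_ (fun t ht x => hσa t x) hF₄
    · rcases lt_or_ge (M₂ * thJ T b d c l u t x) |JJ (u t) x| with h | h
      · exact Or.inl ⟨hx.1, hx.2.1, h, hx.2.2⟩
      · exact Or.inr ⟨hx.1, h⟩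
    refine far_split (k := ENNReal.ofReal |σ|)
      (S₁ := fun t => {x | x ∈ Co c r h ∧ sg x < (T - t) ^ g ∧
        th7 a M₃ (fun y => M₁ * thP T b d c t y) (qr T σ C C₂ 0 b d c l u t) x <
        WW (u t) x ^ 2 ∧ M₂ * thJ T b d c l u t x < |JJ (u t) x| ∧
        qr T σ C C₂ 0 b d c l u t x < 0})
      (S₂ := fun t => {x | x ∈ Co c r h ∧ (T - t) ^ g ≤ sg x})
      (f' := fun t x => ENNReal.ofReal |2 * WW (u t) x * JJ (u t) x|)
      ENNReal.ofReal_ne_top hFm hFi (fun t x hx => ?_) ?_ (fun t ht x => hσa t x) hF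
    · rcases lt_or_ge (sg x) ((T - t) ^ g) with h | h
      · exact Or.inl ⟨hx.1, h, hx.2⟩
      · exact Or.inr ⟨hx.1, h⟩
    · refine lt_of_le_of_lt ?_ hc
      refine (lintegral_mono_set (Ioo_subset_Ioo_left hT₀.le)).trans'
        (lintegral_mono fun t => ?_)
      exact lintegral_mono_set fun x hx => ⟨hsub hx.1, hx.2⟩
  have hφ2c : HasCompactSupport (fun y => φ y ^ 2) := by
    have e : (fun y => φ y ^ 2) = fun y => φ y * φ y := by
      funext y
      ring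
    rw [e]
    exact hφ.cs.mul_right
  have hφ2 : Continuous (fun y => φ y ^ 2) := hφ.sm.continuous.pow 2
  have hout : ∀ x, x ∉ Co c r h → φ x = 0 := fun x hx => by
    by_contra hcon
    exact hx (Pool.Agent.Q175.AX.cut_mem hφ hcon)
  obtain ⟨-, jW, jJ, -⟩ := p_Jnt T u hsol.smooth_u
  have jq := qr_j (σ := σ) (C := C) (C₂ := C₂) (C₁ := 0) (b := b) (d := d) hsol hl
  have hCv := c_cvx ha0 ha1
  have jm0 : ContinuousOn (fun z : ℝ × V => M₁ * thP T b d c z.1 z.2) (Ioo 0 T ×ˢ univ) := by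
    have g1 : Continuous (fun z : ℝ × V => X2 c (T - z.1) z.2) := by
      unfold X2
      exact ((sg_cd.continuous.comp continuous_snd).add (((((sm_crd 2).continuous).comp
        continuous_snd).sub continuous_const).pow 2)).add (continuous_const.sub continuous_fst)
    have g3 : Continuous (fun z : ℝ × V => sg z.2 + (T - z.1)) :=
      (sg_cd.continuous.comp continuous_snd).add (continuous_const.sub continuous_fst)
    unfold thP
    refine continuousOn_const.mul ((g1.continuousOn.rpow_const fun z hz => Or.inl ?_).add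
      (g3.continuousOn.rpow_const fun z hz => Or.inl ?_))
    · exact (X2_pos (by linarith [hz.1.2]) z.2).ne'
    · exact (thr_pos (by linarith [hz.1.2]) z.2).ne'
  have hμ0 : ∀ t < T, ∀ x, 0 < M₁ * thP T b d c t x := fun t ht x => mul_pos hM₁ (thP_pos ht x)
  obtain ⟨Θ, hΘ⟩ : ∃ Θ : ℝ → V → ℝ, Θ = fun t x =>
    th7 a M₃ (fun y => M₁ * thP T b d c t y) (qr T σ C C₂ 0 b d c l u t) x := ⟨_, rfl⟩
  have hΘe : ∀ t x, Θ t x = M₁ * thP T b d c t x
      + M₃ * (1 + k0 (-qr T σ C C₂ 0 b d c l u t x)) ^ a := fun t x => by rw [hΘ]; rfl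
  have hΘ0 : ∀ t < T, ∀ x, 0 < Θ t x := fun t ht x => by
    rw [hΘe]
    exact add_pos_of_pos_of_nonneg (hμ0 t ht x) (mul_nonneg hM₃
      (Real.rpow_nonneg (by linarith [s_ge (-qr T σ C C₂ 0 b d c l u t x)]) _))
  have jm : ContinuousOn (fun z : ℝ × V => Θ z.1 z.2) (Ioo 0 T ×ˢ univ) := by
    have e : (fun z : ℝ × V => Θ z.1 z.2) = fun z : ℝ × V => M₁ * thP T b d c z.1 z.2
        + M₃ * (fun y => (1 + k0 y) ^ a) (-qr T σ C C₂ 0 b d c l u z.1 z.2) :=
      funext fun z => hΘe _ _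
    rw [e]
    exact jm0.add (continuousOn_const.mul ((pw_cd1 a).continuous.comp_continuousOn
      jq.continuousOn.neg))
  obtain ⟨B, hB0, hB⟩ := k2_bd
  have hc2 : ∫⁻ t in Ioo T₁ T, ∫⁻ x in {x | x ∈ Co c r h ∧
      Θ t x < WW (u t) x ^ 2 ∧ qr T σ C C₂ 0 b d c l u t x < 0},
      ENNReal.ofReal (2 * (σ * (2 * WW (u t) x * JJ (u t) x))) < ⊤ := by
    have e : ∀ t x, ENNReal.ofReal (2 * (σ * (2 * WW (u t) x * JJ (u t) x)))
        = 2 * ENNReal.ofReal (σ * (2 * WW (u t) x * JJ (u t) x)) := fun t x => by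
      rw [ENNReal.ofReal_mul (by norm_num)]
      simp
    simp only [e]
    simp only [lintegral_const_mul' (2 : ENNReal) _ (by norm_num)]
    rw [hΘ]
    exact ENNReal.mul_lt_top (by norm_num) hc'
  obtain ⟨D, hD⟩ : ∃ D : ℝ → V → ℝ, D = fun t x => φ x ^ 2 *
    (c1 a (-qr T σ C C₂ 0 b d c l u t x) * (k1 (WW (u t) x ^ 2 / Θ t x - 1)
      * (σ * (2 * WW (u t) x * JJ (u t) x)))) := ⟨_, rfl⟩
  have hDc : ContinuousOn (fun z : ℝ × V => D z.1 z.2) (Ioo 0 T ×ˢ univ) := by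
    rw [hD]
    have eφ : ContinuousOn (fun z : ℝ × V => φ z.2 ^ 2) (Ioo 0 T ×ˢ univ) :=
      (hφ2.comp continuous_snd).continuousOn
    have e2 : ContinuousOn (fun z : ℝ × V => c1 a (-qr T σ C C₂ 0 b d c l u z.1 z.2))
        (Ioo 0 T ×ˢ univ) := hCv.cd1.continuous.comp_continuousOn jq.continuousOn.neg
    have e3 : ContinuousOn (fun z : ℝ × V => k1 (WW (u z.1) z.2 ^ 2
        / Θ z.1 z.2 - 1)) (Ioo 0 T ×ˢ univ) := by
      refine k1_cd.continuous.comp_continuousOn ((((jW.continuousOn.pow 2).div jm fun z hz =>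
        ?_).sub continuousOn_const))
      exact (hΘ0 _ hz.1.2 z.2).ne'
    exact eφ.mul (e2.mul (e3.mul (continuousOn_const.mul ((continuousOn_const.mul
      jW.continuousOn).mul jJ.continuousOn))))
  obtain ⟨hprc, N, hN⟩ := pr_N (T := T) (T₁ := T₁) hT₁p (D := D) (k := tsupport φ) hφ.cs hDc
    (fun t x hx => by
      rw [hD]
      beta_reduce
      rw [image_eq_zero_of_notMem_tsupport hx]
      ring)
    (S := fun t => {x | x ∈ Co c r h ∧
      Θ t x < WW (u t) x ^ 2 ∧ qr T σ C C₂ 0 b d c l u t x < 0})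
    (g := fun t x => ENNReal.ofReal (2 * (σ * (2 * WW (u t) x * JJ (u t) x)))) (fun t ht x => by
      by_cases hx : x ∈ {x | x ∈ Co c r h ∧
        Θ t x < WW (u t) x ^ 2 ∧ qr T σ C C₂ 0 b d c l u t x < 0}
      · rw [indicator_of_mem hx]
        have g1 := hCv.nn1 (-qr T σ C C₂ 0 b d c l u t x)
        have g2 := hCv.le1 (-qr T σ C C₂ 0 b d c l u t x)
        have g3 := k1_nn (WW (u t) x ^ 2 / Θ t x - 1)
        have g4 := k1_le (WW (u t) x ^ 2 / Θ t x - 1)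
        rcases le_total (σ * (2 * WW (u t) x * JJ (u t) x)) 0 with hw | hw
        · have : D t x ≤ 0 := by
            rw [hD]
            exact mul_nonpos_of_nonneg_of_nonpos (sq_nonneg _)
              (mul_nonpos_of_nonneg_of_nonpos g1 (mul_nonpos_of_nonneg_of_nonpos g3 hw))
          rw [ENNReal.ofReal_of_nonpos this]
          exact zero_le
        · refine ENNReal.ofReal_le_ofReal ?_
          rw [hD]
          beta_reduce
          have hφ1 : φ x ^ 2 ≤ 1 := pow_le_one₀ (hφ.nn x) (hφ.le x)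
          calc φ x ^ 2 * (c1 a (-qr T σ C C₂ 0 b d c l u t x)
                * (k1 (WW (u t) x ^ 2 / Θ t x - 1)
                * (σ * (2 * WW (u t) x * JJ (u t) x))))
              ≤ 1 * (2 * (1 * (σ * (2 * WW (u t) x * JJ (u t) x)))) := by
                refine mul_le_mul hφ1 (mul_le_mul g2 (mul_le_mul_of_nonneg_right g4 hw)
                  (mul_nonneg g3 hw) (by norm_num)) (mul_nonneg g1 (mul_nonneg g3 hw))
                  zero_le_one
            _ = 2 * (σ * (2 * WW (u t) x * JJ (u t) x)) := by ring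
      · rw [indicator_of_notMem hx]
        have hz : D t x = 0 := by
          rw [hD]
          beta_reduce
          by_cases hxC : x ∈ Co c r h
          · by_cases hxm : Θ t x < WW (u t) x ^ 2
            · have h5 : ¬ qr T σ C C₂ 0 b d c l u t x < 0 := fun hc => hx ⟨hxC, hxm, hc⟩
              have h6 : -qr T σ C C₂ 0 b d c l u t x ≤ 0 := by linarith [not_lt.1 h5]
              rw [hCv.neg1 _ h6]
              ring
            · have h6 : WW (u t) x ^ 2 / Θ t x - 1 ≤ 0 := by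
                have := (div_le_one (hΘ0 t ht.2 x)).2 (not_lt.1 hxm)
                linarith
              rw [k1_neg h6]
              ring
          · rw [hout x hxC]
            ring
        rw [hz]
        simp) hc2
  obtain ⟨Mb, hMb⟩ := thr_int (T := T) (b := b) hK hr0 hT hb1 hφ
  obtain ⟨Md, hMd⟩ := hMass c r h r1 h1 K T (6 * d / 5) φ hr1 hr1r hh1 hh1h hK hT
    (by linarith) hφ
  obtain ⟨Me, hMe⟩ := hMass c r h r1 h1 K T (3 / 5 * (d + 1 / 2)) φ hr1 hr1r hh1 hh1h hK hT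
    (by linarith) hφ
  have hτ : ∀ t ∈ Ico T₁ T, T - t ∈ Ioc 0 T := fun t ht =>
    ⟨by linarith [ht.2], by linarith [(hI t ht).1]⟩
  obtain ⟨S, hS⟩ : ∃ S : ℝ, S = |σ| := ⟨_, rfl⟩
  have hS0 : 0 ≤ S := by rw [hS]; positivity
  have hTm : T ∈ Ioc 0 T := ⟨hT, le_rfl⟩
  have hMb0 : 0 ≤ Mb := le_trans (integral_nonneg fun x => mul_nonneg (sq_nonneg _)
    (Real.rpow_nonneg (thr_pos hT x).le _)) (hMb T hTm)
  have hMd0 : 0 ≤ Md := le_trans (integral_nonneg fun x => mul_nonneg (sq_nonneg _)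
    (Real.rpow_nonneg (X2_pos hT x).le _)) (hMd T hTm)
  have hMe0 : 0 ≤ Me := le_trans (integral_nonneg fun x => mul_nonneg (sq_nonneg _)
    (Real.rpow_nonneg (X2_pos hT x).le _)) (hMe T hTm)
  -- the three powers
  obtain ⟨a₁, ha₁⟩ : ∃ a₁ : ℝ, a₁ = 4 * d / 5 := ⟨_, rfl⟩
  obtain ⟨a₃, ha₃⟩ : ∃ a₃ : ℝ, a₃ = 2 / 5 * (d + 1 / 2) := ⟨_, rfl⟩
  have a10 : 0 ≤ a₁ := by rw [ha₁]; positivity
  have a11 : a₁ < 1 := by rw [ha₁]; linarith
  have a30 : 0 ≤ a₃ := by rw [ha₃]; positivity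
  have a31 : a₃ < 1 := by rw [ha₃]; linarith
  obtain ⟨K₆, hK₆⟩ : ∃ K₆ : ℝ, K₆ = 2 * σ ^ 2 * (1 + 2 * B) * (2 * M₁ ^ 2 * Md) := ⟨_, rfl⟩
  obtain ⟨K₇, hK₇⟩ : ∃ K₇ : ℝ, K₇ = 2 * σ ^ 2 * (1 + 2 * B) * (2 * M₁ ^ 2 * Mb) := ⟨_, rfl⟩
  obtain ⟨K₈, hK₈⟩ : ∃ K₈ : ℝ, K₈ = 4 * S * (2 * M₁ * d * Me) := ⟨_, rfl⟩
  have hK₆0 : 0 ≤ K₆ := by rw [hK₆]; positivity
  have hK₇0 : 0 ≤ K₇ := by rw [hK₇]; positivity
  have hK₈0 : 0 ≤ K₈ := by rw [hK₈]; positivity
  obtain ⟨K₉, hK₉⟩ : ∃ K₉ : ℝ, K₉ = 2 * σ ^ 2 * M₃ * (1 + 4 * B) + 8 * σ ^ 2 * M₃ / (a * (1 - a)) :=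
    ⟨_, rfl⟩
  have haa : 0 < a * (1 - a) := mul_pos ha0 (by linarith)
  have hK₉0 : 0 ≤ K₉ := by rw [hK₉]; positivity
  -- the integral of `W ^ 2`
  obtain ⟨D₀, hD₀⟩ : ∃ D₀ : ℝ → ℝ, D₀ = fun t => ∫ x in Co c r h, W221.NS.gsq (u t) x := ⟨_, rfl⟩
  have hD0nn : ∀ t, 0 ≤ D₀ t := by
    intro t
    rw [hD₀]
    exact integral_nonneg fun x => Pool.Agent.Q285.AXI.gsq_nn _ x
  have hD0int : IntegrableOn D₀ (Ioo 0 T) := by
    rw [hD₀]
    exact Pool.Agent.Q285.AXI.dis_int hsub hsol.dis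
  obtain ⟨IW, hIW⟩ : ∃ IW : ℝ → ℝ, IW = fun t => ∫ x, φ x ^ 2 * WW (u t) x ^ 2 := ⟨_, rfl⟩
  have hIWc : ContinuousOn IW (Ioo 0 T) := by
    rw [hIW]
    refine continuousOn_integral_of_compact_support (k := tsupport φ) hφ.cs ?_ fun t x _ hx => ?_
    · exact ((hφ2.comp continuous_snd).continuousOn).mul (jW.continuousOn.pow 2)
    · rw [image_eq_zero_of_notMem_tsupport hx]
      ring
  have hIWle : ∀ t ∈ Ico T₁ T, IW t ≤ D₀ t := by
    intro t ht
    have htI := hI t ht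
    obtain ⟨-, sW, -, -⟩ := (p_Alg (u t) (hus t htI) (hsol.axi t htI)).1
    have i2 : Integrable (fun x => φ x ^ 2 * WW (u t) x ^ 2) :=
      int_cs (hφ2.mul (sW.continuous.pow 2)) hφ2c.mul_right
    have hgc : Continuous (W221.NS.gsq (u t)) := Pool.Agent.Q153.AXI.gsqCont (hus t htI)
    have i4 : IntegrableOn (W221.NS.gsq (u t)) (Co c r h) :=
      (hgc.continuousOn.integrableOn_compact (Cy_compact hr0.le)).mono_set (Co_sub_Cy c r h)
    rw [hD₀, hIW]
    beta_reduce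
    rw [← integral_indicator (Co_meas c r h)]
    refine integral_mono_ae i2 ((integrable_indicator_iff (Co_meas c r h)).2 i4) ?_
    filter_upwards [Pool.Agent.Q175.AX.axis_ae] with x hx
    by_cases hxC : x ∈ Co c r h
    · rw [indicator_of_mem hxC]
      have h1 := Pool.Agent.V8H53.AX.UW_gsq p_Alg (hus t htI) (hsol.axi t htI) hx
      have h2 : φ x ^ 2 ≤ 1 := pow_le_one₀ (hφ.nn x) (hφ.le x)
      have h3 : WW (u t) x ^ 2 ≤ W221.NS.gsq (u t) x := by
        have := sq_nonneg (UU (u t) x)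
        linarith
      calc φ x ^ 2 * WW (u t) x ^ 2 ≤ 1 * WW (u t) x ^ 2 :=
            mul_le_mul_of_nonneg_right h2 (sq_nonneg _)
        _ = WW (u t) x ^ 2 := one_mul _
        _ ≤ _ := h3
    · rw [indicator_of_notMem hxC, hout x hxC]
      simp
  obtain ⟨ND, hND⟩ : ∃ ND : ℝ, ND = ∫ t in Ioo 0 T, D₀ t := ⟨_, rfl⟩
  have hIWI : ∀ t ∈ Ico T₁ T, ∫ s in T₁..t, IW s ≤ ND := by
    intro t ht
    have hIs : ∀ s ∈ Icc T₁ t, s ∈ Ioo 0 T := fun s hs =>
      ⟨hT₁p.trans_le hs.1, hs.2.trans_lt ht.2⟩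
    have j1 : IntervalIntegrable D₀ volume T₁ t :=
      (intervalIntegrable_iff_integrableOn_Ioc_of_le ht.1).2 ((hD0int.mono_set hIs).mono_set
        Ioc_subset_Icc_self)
    have j2 : IntervalIntegrable IW volume T₁ t :=
      (hIWc.mono hIs).intervalIntegrable_of_Icc ht.1
    refine (intervalIntegral.integral_mono_on ht.1 j2 j1 fun s hs =>
      hIWle s ⟨hs.1, hs.2.trans_lt ht.2⟩).trans ?_
    rw [intervalIntegral.integral_of_le ht.1, hND]
    exact setIntegral_mono_set hD0int (Eventually.of_forall fun s => hD0nn s)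
      (HasSubset.Subset.eventuallyLE fun s hs => ⟨hT₁p.trans hs.1, hs.2.trans_lt ht.2⟩)
  have hrc : ∀ a : ℝ, ContinuousOn (fun t : ℝ => (T - t) ^ (-a)) (Ioo 0 T) := by
    intro a
    refine (continuousOn_const.sub continuousOn_id).rpow_const fun t ht => Or.inl ?_
    have : 0 < T - t := by linarith [ht.2]
    exact this.ne'
  refine l7K hCv hThr hMass hHar hW1 hsol hK hr1 hr1r hh1 hh1h hrR hhH hT₁p hφ hb hσ hC hb0 hb1 hd0
    hd1 hl hC₂ (pr := fun t => ((∫ x, D t x) + K₉ * IW t) + (K₆ * (T - t) ^ (-a₁) + (K₇ * (T - t) ^ (-b)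
      + K₈ * (T - t) ^ (-a₃))))
    (KD := (volume (Co c r h)).toReal * (|σ| * (4 * K ^ 3)))
    (N := (N + K₉ * ND) + (K₆ * ((T - T₁) ^ (1 - a₁) / (1 - a₁)) + (K₇ * ((T - T₁) ^ (1 - b) / (1 - b))
      + K₈ * ((T - T₁) ^ (1 - a₃) / (1 - a₃))))) (C₁ := 0)
    ((hprc.add (continuousOn_const.mul hIWc)).add ((continuousOn_const.mul (hrc _)).add ((continuousOn_const.mul (hrc _)).add
      (continuousOn_const.mul (hrc _))))) (fun t ht => ?_) (fun t ht => ?_)
  · have htI := hI t ht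
    have htp : 0 < T - t := by linarith [ht.2]
    obtain ⟨μ, hμ⟩ : ∃ μ : V → ℝ, μ = fun x => M₁ * thP T b d c t x := ⟨_, rfl⟩
    have sP := thP_sm (b := b) (d := d) (c := c) ht.2
    have sm : ContDiff ℝ ∞ μ := by
      rw [hμ]
      exact contDiff_const.mul sP
    have sq : ContDiff ℝ ∞ (qr T σ C C₂ 0 b d c l u t) := Pool.Agent.W583.MD.slice jq htI
    have h1 := win_en7 ha0 ha1 hM₃ (σ := σ) (q := qr T σ C C₂ 0 b d c l u t) (hus t htI)
      (hsol.axi t htI) hK hr0.le hφ (hb t ht) sq sm (fun x => by rw [hμ]; exact hμ0 t ht.2 x) hB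
    refine h1.trans ?_
    have iX : ∀ a : ℝ, Integrable (fun x => φ x ^ 2 * X2 c (T - t) x ^ a) := fun a =>
      int_cs (hφ2.mul (Thr2.pw_cd htp a).continuous) hφ2c.mul_right
    have iS : ∀ a : ℝ, Integrable (fun x => φ x ^ 2 * (sg x + (T - t)) ^ a) := fun a =>
      int_cs (hφ2.mul (thr_sm htp a).continuous) hφ2c.mul_right
    have hXt : ∀ x, T - t ≤ X2 c (T - t) x := fun x => by
      have g1 := sg_nn x
      have g2 := sq_nonneg (x 2 - c)
      unfold X2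
      linarith
    have h2 : ∫ x, φ x ^ 2 * μ x ^ 2
        ≤ 2 * M₁ ^ 2 * ((T - t) ^ (-a₁) * Md + (T - t) ^ (-b) * Mb) := by
      have i1 : Integrable (fun x => φ x ^ 2 * μ x ^ 2) :=
        int_cs (hφ2.mul (sm.continuous.pow 2)) hφ2c.mul_right
      have h3 : ∫ x, φ x ^ 2 * μ x ^ 2 ≤ ∫ x, (2 * M₁ ^ 2 * ((T - t) ^ (-a₁)
          * (φ x ^ 2 * X2 c (T - t) x ^ (-(6 * d / 5))))
          + 2 * M₁ ^ 2 * ((T - t) ^ (-b) * (φ x ^ 2 * (sg x + (T - t)) ^ (-b)))) := by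
        refine integral_mono i1 ((((iX _).const_mul _).const_mul _).add
          (((iS _).const_mul _).const_mul _)) fun x => ?_
        have g1 := pw_split (X := X2 c (T - t) x) (a := 2 * d) (k := 6 * d / 5) htp (hXt x)
          (by linarith)
        have g2 := pw_split (X := sg x + (T - t)) (a := 2 * b) (k := b) htp
          (by linarith [sg_nn x]) (by linarith)
        have e1 : -(2 * d - 6 * d / 5) = -a₁ := by rw [ha₁]; ring
        have e2 : -(2 * b - b) = -b := by ring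
        rw [e1] at g1
        rw [e2] at g2
        have e3 : X2 c (T - t) x ^ (-(2 * d)) = (X2 c (T - t) x ^ (-d)) ^ 2 := by
          rw [← Real.rpow_natCast, ← Real.rpow_mul (X2_pos htp x).le]
          congr 1
          push_cast
          ring
        have e4 : (sg x + (T - t)) ^ (-(2 * b)) = ((sg x + (T - t)) ^ (-b)) ^ 2 := by
          rw [← Real.rpow_natCast, ← Real.rpow_mul (thr_pos htp x).le]
          congr 1
          push_cast
          ring
        rw [e3] at g1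
        rw [e4] at g2
        have g3 : thP T b d c t x ^ 2
            ≤ 2 * ((X2 c (T - t) x ^ (-d)) ^ 2 + ((sg x + (T - t)) ^ (-b)) ^ 2) := by
          unfold thP
          nlinarith [sq_nonneg (X2 c (T - t) x ^ (-d) - (sg x + (T - t)) ^ (-b))]
        have g4 : thP T b d c t x ^ 2 ≤ 2 * ((T - t) ^ (-a₁) * X2 c (T - t) x ^ (-(6 * d / 5))
            + (T - t) ^ (-b) * (sg x + (T - t)) ^ (-b)) := by linarith
        have g5 := mul_le_mul_of_nonneg_left g4 (show 0 ≤ φ x ^ 2 * M₁ ^ 2 by positivity)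
        rw [hμ]
        beta_reduce
        have e5 : φ x ^ 2 * (M₁ * thP T b d c t x) ^ 2
            = φ x ^ 2 * M₁ ^ 2 * thP T b d c t x ^ 2 := by ring
        rw [e5]
        refine g5.trans (le_of_eq ?_)
        ring
      have h4 := integral_add (((iX (-(6 * d / 5))).const_mul ((T - t) ^ (-a₁))).const_mul
        (2 * M₁ ^ 2)) (((iS (-b)).const_mul ((T - t) ^ (-b))).const_mul (2 * M₁ ^ 2))
      rw [h4, integral_const_mul, integral_const_mul, integral_const_mul,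
        integral_const_mul] at h3
      have g1 := mul_le_mul_of_nonneg_left (hMd (T - t) (hτ t ht)) (Real.rpow_nonneg htp.le (-a₁))
      have g2 := mul_le_mul_of_nonneg_left (hMb (T - t) (hτ t ht)) (Real.rpow_nonneg htp.le (-b))
      have g3 := mul_le_mul_of_nonneg_left (add_le_add g1 g2) (show 0 ≤ 2 * M₁ ^ 2 by positivity)
      linarith
    have h5 : ∫ x, φ x ^ 2 * |pd 2 μ x| ≤ 2 * M₁ * d * ((T - t) ^ (-a₃) * Me) := by
      have i1 : Integrable (fun x => φ x ^ 2 * |pd 2 μ x|) :=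
        int_cs (hφ2.mul (sm_pd sm 2).continuous.abs) hφ2c.mul_right
      have h3 : ∫ x, φ x ^ 2 * |pd 2 μ x| ≤ ∫ x, 2 * M₁ * d * ((T - t) ^ (-a₃)
          * (φ x ^ 2 * X2 c (T - t) x ^ (-(3 / 5 * (d + 1 / 2))))) := by
        refine integral_mono i1 (((iX _).const_mul _).const_mul _) fun x => ?_
        have hX0 := X2_pos (c := c) htp x
        have g1 := pw_split (X := X2 c (T - t) x) (a := d + 1 / 2) (k := 3 / 5 * (d + 1 / 2)) htp
          (hXt x) (by linarith)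
        have e1 : -(d + 1 / 2 - 3 / 5 * (d + 1 / 2)) = -a₃ := by rw [ha₃]; ring
        rw [e1] at g1
        have e2 : pd 2 μ x = M₁ * (-d * X2 c (T - t) x ^ (-d - 1) * (2 * (x 2 - c))) := by
          have e3 : μ = fun y => (fun _ => M₁) y * thP T b d c t y := by rw [hμ]
          rw [e3, pd_mulf contDiff_const sP]
          beta_reduce
          rw [pd_const', thP_pd ht.2]
          ring
        have g2 : |x 2 - c| ≤ X2 c (T - t) x ^ (1 / 2 : ℝ) := by
          rw [← Real.sqrt_eq_rpow]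
          refine Real.abs_le_sqrt ?_
          have := sg_nn x
          unfold X2
          linarith
        have g3 : X2 c (T - t) x ^ (-d - 1) * |x 2 - c| ≤ X2 c (T - t) x ^ (-(d + 1 / 2)) := by
          have g4 := mul_le_mul_of_nonneg_left g2 (Real.rpow_nonneg hX0.le (-d - 1))
          rw [← Real.rpow_add hX0] at g4
          have e4 : -d - 1 + 1 / 2 = -(d + 1 / 2) := by ring
          rw [e4] at g4
          exact g4
        have g5 : |pd 2 μ x| = 2 * M₁ * d * (X2 c (T - t) x ^ (-d - 1) * |x 2 - c|) := by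
          rw [e2]
          have e5 : M₁ * (-d * X2 c (T - t) x ^ (-d - 1) * (2 * (x 2 - c)))
              = -(2 * M₁ * d * (X2 c (T - t) x ^ (-d - 1) * (x 2 - c))) := by ring
          rw [e5, abs_neg, abs_mul (2 * M₁ * d), abs_of_nonneg (by positivity : 0 ≤ 2 * M₁ * d),
            abs_mul, abs_of_nonneg (Real.rpow_nonneg hX0.le (-d - 1))]
        have g6 := mul_le_mul_of_nonneg_left (g3.trans g1)
          (show 0 ≤ φ x ^ 2 * (2 * M₁ * d) by positivity)
        beta_reduce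
        rw [g5]
        calc _ = φ x ^ 2 * (2 * M₁ * d) * (X2 c (T - t) x ^ (-d - 1) * |x 2 - c|) := by ring
          _ ≤ _ := g6
          _ = _ := by ring
      rw [integral_const_mul, integral_const_mul] at h3
      have g1 := mul_le_mul_of_nonneg_left (hMe (T - t) (hτ t ht)) (Real.rpow_nonneg htp.le (-a₃))
      have g3 := mul_le_mul_of_nonneg_left g1 (show 0 ≤ 2 * M₁ * d by positivity)
      linarith
    have h3 := mul_le_mul_of_nonneg_left h2 (show 0 ≤ 2 * σ ^ 2 * (1 + 2 * B) by positivity)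
    have h6 := mul_le_mul_of_nonneg_left h5 (show 0 ≤ 4 * S by positivity)
    have e7 : ∫ x, φ x ^ 2 * (c1 a (-qr T σ C C₂ 0 b d c l u t x) * (k1 (WW (u t) x ^ 2
        / th7 a M₃ μ (qr T σ C C₂ 0 b d c l u t) x - 1)
        * (σ * (2 * WW (u t) x * JJ (u t) x)))) = ∫ x, D t x := by rw [hD, hΘ, hμ]
    have e8 : ∫ x, φ x ^ 2 * WW (u t) x ^ 2 = IW t := by rw [hIW]
    rw [e7, e8, ← hK₉, hK₆, hK₇, hK₈, ← hS]
    beta_reduce
    linarith
  · have hIs : ∀ s ∈ Icc T₁ t, s ∈ Ioo 0 T := fun s hs =>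
      ⟨hT₁p.trans_le hs.1, hs.2.trans_lt ht.2⟩
    have j1 : IntervalIntegrable (fun t => ∫ x, D t x) volume T₁ t :=
      (hprc.mono hIs).intervalIntegrable_of_Icc ht.1
    have j2 : ∀ a : ℝ, IntervalIntegrable (fun t : ℝ => (T - t) ^ (-a)) volume T₁ t := fun a =>
      ((hrc a).mono hIs).intervalIntegrable_of_Icc ht.1
    have j3 : IntervalIntegrable IW volume T₁ t := (hIWc.mono hIs).intervalIntegrable_of_Icc ht.1
    rw [intervalIntegral.integral_add (j1.add (j3.const_mul K₉)) (((j2 a₁).const_mul K₆).add (((j2 b).const_mul K₇).add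
      ((j2 a₃).const_mul K₈))), intervalIntegral.integral_add ((j2 a₁).const_mul K₆)
      (((j2 b).const_mul K₇).add ((j2 a₃).const_mul K₈)), intervalIntegral.integral_add
      ((j2 b).const_mul K₇) ((j2 a₃).const_mul K₈), intervalIntegral.integral_add j1
      (j3.const_mul K₉), intervalIntegral.integral_const_mul, intervalIntegral.integral_const_mul,
      intervalIntegral.integral_const_mul, intervalIntegral.integral_const_mul]
    have g1 := mul_le_mul_of_nonneg_left (time_int a10 a11 ht.1 ht.2) hK₆0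
    have g2 := mul_le_mul_of_nonneg_left (time_int hb0 hb1 ht.1 ht.2) hK₇0
    have g3 := mul_le_mul_of_nonneg_left (time_int a30 a31 ht.1 ht.2) hK₈0
    have g4 := mul_le_mul_of_nonneg_left (hIWI t ht) hK₉0
    exact add_le_add (add_le_add (hN t ht) g4) (add_le_add g1 (add_le_add g2 g3))

end Pool.Agent.V8H53.OW
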