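import Pool.Agent.V8H53.OW.LgA

/-!
OW-LG, part B (helper40): integrations by parts.
-/

set_option autoImplicit false

open MeasureTheory Set Metric Filter Topology
open scoped ContDiff
open H459R3.NS Pool.Agent.W268.NS Pool.Agent.Q67.VD

namespace Pool.Agent.V8H53.OW.LgP

open Pool.Agent.Q85.CC Pool.Agent.Q85.CL Pool.Agent.TH305.AX Pool.Agent.Q67.AXI
open Pool.Agent.W583.MD (sm_pd pd_mul')
open Pool.Agent.Q149.AXI (sm_RR RR_mul pd_com pd2_RR pd_off RR_sq sm_gr2 cs_pd
  cs_gr2 gr2_nonneg Cy_closed Cy_bdd sg_cont)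
open Pool.Agent.Q182.AXI.T1P (int_pd int_RR)
open Pool.Agent.Q150.AXI (sm_sg pd_sg RR_sgf)
open Pool.Agent.Q111.AXI (ae_sg)

lemma ic {z f : V → ℝ} (hz : Continuous z) (hc : HasCompactSupport z) (hf : Continuous f) :
    Integrable (fun x => z x * f x) :=
  (hz.mul hf).integrable_of_hasCompactSupport hc.mul_right

lemma cs_RR {z : V → ℝ} (hc : HasCompactSupport z) : HasCompactSupport (RR z) := by
  refine HasCompactSupport.intro hc.isCompact fun x hx => ?_
  unfold RR
  simp [pd_off hx]

/-- by parts, the gradient -/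
lemma ibp_lap {z H : V → ℝ} (hz : ContDiff ℝ ∞ z) (hc : HasCompactSupport z)
    (hH : ContDiff ℝ ∞ H) :
    ∫ x, z x * lap H x = -∫ x, ∑ i, pd i z x * pd i H x := by
  have hi : ∀ i, (∫ x, z x * pd i (pd i H) x) = -∫ x, pd i z x * pd i H x := by
    intro i
    have h1 := int_pd (g := fun x => z x * pd i H x) (hz.mul (sm_pd hH i)) hc.mul_right i
    have h2 : (fun x => pd i (fun x => z x * pd i H x) x) =
        fun x => z x * pd i (pd i H) x + pd i z x * pd i H x := by
      funext x
      rw [pd_mul' hz (sm_pd hH i)]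
    rw [h2, integral_add (ic hz.continuous hc (sm_pd (sm_pd hH i) i).continuous)
      (ic (sm_pd hz i).continuous (cs_pd hc i) (sm_pd hH i).continuous)] at h1
    linarith
  unfold lap
  simp only [Finset.mul_sum]
  rw [integral_finsetSum _ fun i _ => ic hz.continuous hc (sm_pd (sm_pd hH i) i).continuous,
    integral_finsetSum _ fun i _ => ic (sm_pd hz i).continuous (cs_pd hc i) (sm_pd hH i).continuous,
    ← Finset.sum_neg_distrib]
  exact Finset.sum_congr rfl fun i _ => hi i

/-- by parts, the drift -/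
lemma ibp_drift {z H ψ : V → ℝ} (hz : ContDiff ℝ ∞ z) (hc : HasCompactSupport z)
    (hH : ContDiff ℝ ∞ H) (hψ : ContDiff ℝ ∞ ψ) :
    ∫ x, z x * (pd 2 ψ x * RR H x - (2 * ψ x + RR ψ x) * pd 2 H x) =
      -∫ x, ψ x * (pd 2 z x * RR H x - RR z x * pd 2 H x) := by
  have s1 : ContDiff ℝ ∞ (fun x => z x * ψ x) := hz.mul hψ
  have c1 : HasCompactSupport (fun x => z x * ψ x) := hc.mul_right
  have h1 := int_pd (g := fun x => (z x * ψ x) * RR H x) (s1.mul (sm_RR hH)) c1.mul_right 2
  have h2 := int_RR (g := fun x => (z x * ψ x) * pd 2 H x) (s1.mul (sm_pd hH 2)) c1.mul_right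
  have e1 : (fun x => pd 2 (fun x => (z x * ψ x) * RR H x) x) = fun x =>
      z x * (ψ x * pd 2 (RR H) x + pd 2 ψ x * RR H x) + pd 2 z x * (ψ x * RR H x) := by
    funext x
    rw [pd_mul' s1 (sm_RR hH), pd_mul' hz hψ]
    ring
  have e2 : (fun x => 2 * ((fun x => (z x * ψ x) * pd 2 H x) x)
      + RR (fun x => (z x * ψ x) * pd 2 H x) x) = fun x =>
      z x * (2 * ψ x * pd 2 H x + ψ x * RR (pd 2 H) x + RR ψ x * pd 2 H x)
        + RR z x * (ψ x * pd 2 H x) := by
    funext x
    rw [RR_mul s1 (sm_pd hH 2), RR_mul hz hψ]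
    ring
  have p2 := (sm_pd hH 2).continuous
  have q2 := (sm_RR hH).continuous
  have c2 := hψ.continuous
  have c3 := (sm_pd hψ 2).continuous
  have c4 := (sm_RR hψ).continuous
  have i1 := ic hz.continuous hc (f := fun x => ψ x * pd 2 (RR H) x + pd 2 ψ x * RR H x)
    ((c2.mul (sm_pd (sm_RR hH) 2).continuous).add (c3.mul q2))
  have i2 := ic (sm_pd hz 2).continuous (cs_pd hc 2) (f := fun x => ψ x * RR H x) (c2.mul q2)
  have i3 := ic hz.continuous hc (f := fun x => 2 * ψ x * pd 2 H x + ψ x * RR (pd 2 H) x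
    + RR ψ x * pd 2 H x) ((((continuous_const.mul c2).mul p2).add
      (c2.mul (sm_RR (sm_pd hH 2)).continuous)).add (c4.mul p2))
  have i4 := ic (sm_RR hz).continuous (cs_RR hc) (f := fun x => ψ x * pd 2 H x) (c2.mul p2)
  have i5 := ic hz.continuous hc (f := fun x => pd 2 ψ x * RR H x
    - (2 * ψ x + RR ψ x) * pd 2 H x) ((c3.mul q2).sub
      (((continuous_const.mul c2).add c4).mul p2))
  rw [e1, integral_add i1 i2] at h1
  rw [e2, integral_add i3 i4] at h2
  have e3 : (∫ x, z x * (ψ x * pd 2 (RR H) x + pd 2 ψ x * RR H x))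
      - (∫ x, z x * (2 * ψ x * pd 2 H x + ψ x * RR (pd 2 H) x + RR ψ x * pd 2 H x)) =
      ∫ x, z x * (pd 2 ψ x * RR H x - (2 * ψ x + RR ψ x) * pd 2 H x) := by
    rw [← integral_sub i1 i3]
    refine integral_congr_ae (Eventually.of_forall fun x => ?_)
    simp only
    rw [pd2_RR hH]
    ring
  have e4 : (∫ x, pd 2 z x * (ψ x * RR H x)) - (∫ x, RR z x * (ψ x * pd 2 H x)) =
      ∫ x, ψ x * (pd 2 z x * RR H x - RR z x * pd 2 H x) := by
    rw [← integral_sub i2 i4]
    refine integral_congr_ae (Eventually.of_forall fun x => ?_)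
    simp only
    ring
  rw [← e3, ← e4]
  linarith

/-- by parts with the singular weight -/
lemma ibp_sing {G P : V → ℝ} {L : ℝ} (hG : ContDiff ℝ ∞ G) (hc : HasCompactSupport G)
    (hL : ∀ x, |G x| ≤ L * sg x) (hP : Continuous P) (hPc : HasCompactSupport P)
    (he : ∀ x, RR G x = sg x * P x) : ∫ x, P x = 0 := by
  have hL0 : 0 ≤ L := by
    have h1 := hL ![1, 0, 0]
    have h2 : sg ![1, 0, 0] = 1 := by simp [sg]
    rw [h2, mul_one] at h1
    exact (abs_nonneg _).trans h1
  have key : ∀ δ : ℝ, 0 < δ → ∫ x, sg x / (sg x + δ) * P x =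
      -∫ x, 2 * δ / (sg x + δ) ^ 2 * G x := by
    intro δ hδ
    have hne : ∀ x : V, sg x + δ ≠ 0 := fun x => by
      have := sg_nonneg x
      positivity
    have sf : ContDiff ℝ ∞ (fun x : V => (sg x + δ)⁻¹) :=
      (sm_sg.add contDiff_const).inv hne
    have h1 := int_RR (g := fun x => (sg x + δ)⁻¹ * G x) (sf.mul hG) hc.mul_left
    have h2 : ∀ x, RR (fun x : V => (sg x + δ)⁻¹) x = -(2 * sg x) / (sg x + δ) ^ 2 := by
      intro x
      have h3 : HasDerivAt (fun s : ℝ => (s + δ)⁻¹) (-1 / (sg x + δ) ^ 2) (sg x) :=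
        ((hasDerivAt_id (sg x)).add_const δ).inv (hne x)
      rw [RR_comp (h := fun s => (s + δ)⁻¹) sm_sg h3]
      have h4 : RR sg x = 2 * sg x := by
        unfold RR
        rw [pd_sg, pd_sg]
        simp only [Pool.Agent.Q150.AXI.sd, sg]
        norm_num
        ring
      rw [h4]
      ring
    have h3 : (fun x => 2 * ((fun x => (sg x + δ)⁻¹ * G x) x)
        + RR (fun x => (sg x + δ)⁻¹ * G x) x) =
        fun x => sg x / (sg x + δ) * P x + 2 * δ / (sg x + δ) ^ 2 * G x := by
      funext x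
      rw [RR_mul sf hG, h2, he]
      have := hne x
      field_simp
      ring
    have c1 : Continuous (fun x : V => sg x / (sg x + δ)) :=
      sg_cont.div (sg_cont.add continuous_const) hne
    have c2 : Continuous (fun x : V => 2 * δ / (sg x + δ) ^ 2) :=
      continuous_const.div ((sg_cont.add continuous_const).pow 2) fun x => pow_ne_zero 2 (hne x)
    have i1 : Integrable (fun x : V => sg x / (sg x + δ) * P x) :=
      (c1.mul hP).integrable_of_hasCompactSupport hPc.mul_left
    have i2 : Integrable (fun x : V => 2 * δ / (sg x + δ) ^ 2 * G x) :=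
      (c2.mul hG.continuous).integrable_of_hasCompactSupport hc.mul_left
    rw [h3, integral_add i1 i2] at h1
    linarith
  have hδ0 : ∀ n : ℕ, (0 : ℝ) < 1 / ((n : ℝ) + 1) := fun n => by positivity
  have hlim : Tendsto (fun n : ℕ => (1 : ℝ) / ((n : ℝ) + 1)) atTop (𝓝 0) :=
    tendsto_one_div_add_atTop_nhds_zero_nat
  have t1 : Tendsto (fun n : ℕ => ∫ x, sg x / (sg x + 1 / ((n : ℝ) + 1)) * P x) atTop
      (𝓝 (∫ x, P x)) := by
    refine tendsto_integral_of_dominated_convergence (fun x => |P x|) (fun n => ?_)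
      (hP.integrable_of_hasCompactSupport hPc).abs (fun n => ?_) ?_
    · have hne : ∀ x : V, sg x + 1 / ((n : ℝ) + 1) ≠ 0 := fun x => by
        have := sg_nonneg x
        have := hδ0 n
        positivity
      exact ((sg_cont.div (sg_cont.add continuous_const) hne).mul hP).aestronglyMeasurable
    · refine Eventually.of_forall fun x => ?_
      rw [norm_mul, Real.norm_eq_abs, Real.norm_eq_abs]
      have h1 := sg_nonneg x
      have h2 := hδ0 n
      have h3 : |sg x / (sg x + 1 / ((n : ℝ) + 1))| ≤ 1 := by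
        rw [abs_of_nonneg (by positivity)]
        rw [div_le_one (by positivity)]
        linarith
      calc _ ≤ 1 * |P x| := mul_le_mul_of_nonneg_right h3 (abs_nonneg _)
        _ = _ := one_mul _
    · filter_upwards [ae_sg] with x hx
      have h1 : Tendsto (fun n : ℕ => sg x / (sg x + 1 / ((n : ℝ) + 1)) * P x) atTop
          (𝓝 (sg x / (sg x + 0) * P x)) :=
        (tendsto_const_nhds.div (tendsto_const_nhds.add hlim) (by rwa [add_zero])).mul_const _
      rwa [add_zero, div_self hx, one_mul] at h1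
  have t2 : Tendsto (fun n : ℕ => ∫ x, 2 * (1 / ((n : ℝ) + 1)) /
      (sg x + 1 / ((n : ℝ) + 1)) ^ 2 * G x) atTop (𝓝 (∫ _ : V, (0 : ℝ))) := by
    have hm : MeasurableSet (tsupport G) := (isClosed_tsupport G).measurableSet
    refine tendsto_integral_of_dominated_convergence ((tsupport G).indicator fun _ => L)
      (fun n => ?_) ((integrableOn_const hc.measure_lt_top.ne).integrable_indicator hm)
      (fun n => ?_) ?_
    · have hne : ∀ x : V, sg x + 1 / ((n : ℝ) + 1) ≠ 0 := fun x => by
        have := sg_nonneg x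
        have := hδ0 n
        positivity
      exact ((continuous_const.div ((sg_cont.add continuous_const).pow 2)
        fun x => pow_ne_zero 2 (hne x)).mul hG.continuous).aestronglyMeasurable
    · refine Eventually.of_forall fun x => ?_
      by_cases hx : x ∈ tsupport G
      · rw [indicator_of_mem hx, norm_mul, Real.norm_eq_abs, Real.norm_eq_abs]
        have h1 := sg_nonneg x
        have h2 := hδ0 n
        obtain ⟨δ, hδ⟩ : ∃ δ : ℝ, δ = 1 / ((n : ℝ) + 1) := ⟨_, rfl⟩
        rw [← hδ] at h2 ⊢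
        have h3 : 0 < sg x + δ := by positivity
        rw [abs_of_nonneg (by positivity)]
        have h4 := hL x
        calc 2 * δ / (sg x + δ) ^ 2 * |G x| ≤ 2 * δ / (sg x + δ) ^ 2 * (L * sg x) :=
              mul_le_mul_of_nonneg_left h4 (by positivity)
          _ = L * (2 * δ * sg x / (sg x + δ) ^ 2) := by ring
          _ ≤ L * 1 := by
              refine mul_le_mul_of_nonneg_left ?_ hL0
              rw [div_le_one (by positivity)]
              nlinarith [sq_nonneg (sg x), sq_nonneg δ]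
          _ = L := mul_one L
      · rw [image_eq_zero_of_notMem_tsupport hx]
        simp [indicator_of_notMem hx]
    · filter_upwards [ae_sg] with x hx
      have h1 : Tendsto (fun n : ℕ => 2 * (1 / ((n : ℝ) + 1)) /
          (sg x + 1 / ((n : ℝ) + 1)) ^ 2 * G x) atTop (𝓝 (2 * 0 / (sg x + 0) ^ 2 * G x)) :=
        ((tendsto_const_nhds.mul hlim).div ((tendsto_const_nhds.add hlim).pow 2)
          (by rw [add_zero]; exact pow_ne_zero 2 hx)).mul_const _
      simpa using h1
  have t3 : Tendsto (fun n : ℕ => ∫ x, sg x / (sg x + 1 / ((n : ℝ) + 1)) * P x) atTop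
      (𝓝 0) := by
    have h1 := t2.neg
    simp only [integral_zero, neg_zero] at h1
    refine h1.congr fun n => ?_
    exact (key _ (hδ0 n)).symm
  exact tendsto_nhds_unique t1 t3

end Pool.Agent.V8H53.OW.LgP
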