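import Pool.Agent.V8H53.OW.LgB

/-!
OW-LG, part C (helper40): the logarithm and the differential inequality.
-/

set_option autoImplicit false

open MeasureTheory Set Metric Filter Topology
open scoped ContDiff
open H459R3.NS Pool.Agent.W268.NS Pool.Agent.Q67.VD

namespace Pool.Agent.V8H53.OW.LgP

open Pool.Agent.Q85.CC Pool.Agent.Q85.CL Pool.Agent.TH305.AX Pool.Agent.Q67.AXI
open Pool.Agent.W583.MD (sm_pd pd_mul')
open Pool.Agent.Q149.AXI (sm_RR RR_mul pd_com pd2_RR pd_off RR_sq sm_gr2 cs_pd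
  cs_gr2 gr2_nonneg Cy_closed Cy_bdd sg_cont)
open Pool.Agent.Q182.AXI.T1P (int_pd int_RR pt_main)
open Pool.Agent.Q150.AXI (sm_sg pd_sg RR_sgf)
open Pool.Agent.Q111.AXI (ae_sg)

/-! ### The logarithm -/

/-- a smooth function equal to `y` for `y ≤ 1 + ε / 4` and at most `1 + ε / 2` -/
noncomputable def qc (ε y : ℝ) : ℝ :=
  y * (1 - Real.smoothTransition ((y - 1 - ε / 4) / (ε / 4)))
    + Real.smoothTransition ((y - 1 - ε / 4) / (ε / 4))

/-- the logarithm -/
noncomputable def hl (ε y : ℝ) : ℝ := -Real.log ((1 + ε - qc ε y) / (1 + ε))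

variable {ε : ℝ}

lemma st_sm : ContDiff ℝ ∞ (fun y : ℝ => Real.smoothTransition ((y - 1 - ε / 4) / (ε / 4))) :=
  Real.smoothTransition.contDiff.comp (by fun_prop)

lemma qc_sm : ContDiff ℝ ∞ (qc ε) :=
  (contDiff_id.mul (contDiff_const.sub st_sm)).add st_sm

lemma qc_eq (hε : 0 < ε) {y : ℝ} (hy : y ≤ 1 + ε / 4) : qc ε y = y := by
  unfold qc
  rw [Real.smoothTransition.zero_of_nonpos (div_nonpos_of_nonpos_of_nonneg (by linarith)
    (by linarith))]
  ring

lemma qc_le (hε : 0 < ε) (y : ℝ) : qc ε y ≤ 1 + ε / 2 := by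
  rcases le_or_gt (1 + ε / 2) y with h | h
  · unfold qc
    rw [Real.smoothTransition.one_of_one_le (by rw [le_div_iff₀ (by positivity)]; linarith)]
    linarith
  · unfold qc
    obtain ⟨s, hs⟩ : ∃ s : ℝ, s = Real.smoothTransition ((y - 1 - ε / 4) / (ε / 4)) := ⟨_, rfl⟩
    have h0 : 0 ≤ s := by rw [hs]; exact Real.smoothTransition.nonneg _
    have h1 : s ≤ 1 := by rw [hs]; exact Real.smoothTransition.le_one _
    rw [← hs]
    nlinarith

lemma qc_pos (hε : 0 < ε) (y : ℝ) : 0 < (1 + ε - qc ε y) / (1 + ε) := by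
  have := qc_le hε y
  apply div_pos <;> linarith

lemma hl_sm (hε : 0 < ε) : ContDiff ℝ ∞ (hl ε) := by
  unfold hl
  refine (ContDiff.log ?_ fun y => (qc_pos hε y).ne').neg
  exact (contDiff_const.sub qc_sm).div_const _

lemma hl_eq (hε : 0 < ε) {y : ℝ} (hy : y ≤ 1 + ε / 4) :
    hl ε y = -Real.log ((1 + ε - y) / (1 + ε)) := by
  unfold hl
  rw [qc_eq hε hy]

lemma hl_hd (hε : 0 < ε) {y : ℝ} (hy : y < 1 + ε / 4) :
    HasDerivAt (hl ε) (1 + ε - y)⁻¹ y := by
  have h1 : hl ε =ᶠ[𝓝 y] fun z => -Real.log ((1 + ε - z) / (1 + ε)) := by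
    filter_upwards [Iio_mem_nhds hy] with z hz
    exact hl_eq hε (le_of_lt hz)
  have hp : 0 < 1 + ε - y := by linarith
  have h2 : HasDerivAt (fun z => (1 + ε - z) / (1 + ε)) ((-1) / (1 + ε)) y :=
    ((hasDerivAt_id y).const_sub (1 + ε)).div_const (1 + ε)
  have h3 : HasDerivAt (fun z => -Real.log ((1 + ε - z) / (1 + ε)))
      (-(-1 / (1 + ε) / ((1 + ε - y) / (1 + ε)))) y := (h2.log (by positivity)).neg
  refine HasDerivAt.congr_of_eventuallyEq ?_ h1
  have hq : 0 < 1 + ε := by linarith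
  have e : -(-1 / (1 + ε) / ((1 + ε - y) / (1 + ε))) = (1 + ε - y)⁻¹ := by
    field_simp
  rwa [e] at h3

lemma hl_d (hε : 0 < ε) {y : ℝ} (hy : y < 1 + ε / 4) : deriv (hl ε) y = (1 + ε - y)⁻¹ :=
  (hl_hd hε hy).deriv

lemma hl_dd (hε : 0 < ε) {y : ℝ} (hy : y < 1 + ε / 4) :
    deriv (deriv (hl ε)) y = deriv (hl ε) y ^ 2 := by
  have h1 : deriv (hl ε) =ᶠ[𝓝 y] fun z => (1 + ε - z)⁻¹ := by
    filter_upwards [Iio_mem_nhds hy] with z hz
    exact hl_d hε hz
  have hp : 0 < 1 + ε - y := by linarith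
  rw [h1.deriv_eq, hl_d hε hy]
  have h2 := ((hasDerivAt_id y).const_sub (1 + ε)).inv hp.ne'
  have h3 : HasDerivAt (fun z => (1 + ε - z)⁻¹) (-(-1) / (1 + ε - y) ^ 2) y := h2
  rw [h3.deriv]
  field_simp

lemma hl_up (hε : 0 < ε) {y : ℝ} (hy : y ≤ 1) : hl ε y ≤ y / (1 + ε - y) := by
  rw [hl_eq hε (by linarith)]
  have hp : 0 < 1 + ε - y := by linarith
  have hq : 0 < 1 + ε := by linarith
  have h1 := Real.one_sub_inv_le_log_of_pos (x := (1 + ε - y) / (1 + ε)) (by positivity)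
  have h2 : ((1 + ε - y) / (1 + ε))⁻¹ = 1 + y / (1 + ε - y) := by
    field_simp
    ring
  rw [h2] at h1
  linarith

lemma hl_dn (hε : 0 < ε) {y : ℝ} (hy : y ≤ 1) : y / (1 + ε) ≤ hl ε y := by
  rw [hl_eq hε (by linarith)]
  have hp : 0 < 1 + ε - y := by linarith
  have hq : 0 < 1 + ε := by linarith
  have h1 := Real.log_le_sub_one_of_pos (x := (1 + ε - y) / (1 + ε)) (by positivity)
  have h2 : (1 + ε - y) / (1 + ε) - 1 = -(y / (1 + ε)) := by
    field_simp
    ring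
  rw [h2] at h1
  linarith

lemma hl_ge (hε : 0 < ε) {y : ℝ} (hy : |y| ≤ 1) : -1 ≤ hl ε y := by
  obtain ⟨h1, h2⟩ := abs_le.1 hy
  refine le_trans ?_ (hl_dn hε h2)
  rw [le_div_iff₀ (by linarith)]
  linarith

lemma hl_abs (hε : 0 < ε) {y : ℝ} (hy : |y| ≤ 1) : |hl ε y| ≤ ε⁻¹ * |y| := by
  obtain ⟨h1, h2⟩ := abs_le.1 hy
  have a1 := hl_up hε h2
  have a2 := hl_dn hε h2
  have hp : 0 < 1 + ε - y := by linarith
  have b1 : y / (1 + ε - y) ≤ ε⁻¹ * |y| := by
    rw [div_le_iff₀ hp]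
    have c1 : ε ≤ 1 + ε - y := by linarith
    calc y ≤ |y| := le_abs_self y
      _ = ε⁻¹ * |y| * ε := by field_simp
      _ ≤ _ := mul_le_mul_of_nonneg_left c1 (by positivity)
  have b2 : -(ε⁻¹ * |y|) ≤ y / (1 + ε) := by
    rw [le_div_iff₀ (by linarith)]
    have c1 : ε ≤ 1 + ε := by linarith
    have c2 : |y| ≤ ε⁻¹ * |y| * (1 + ε) := by
      calc |y| = ε⁻¹ * |y| * ε := by field_simp
        _ ≤ _ := mul_le_mul_of_nonneg_left c1 (by positivity)
    have := neg_abs_le y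
    linarith
  exact abs_le.2 ⟨b2.trans a2, a1.trans b1⟩

lemma hl_top (hε : 0 < ε) {y : ℝ} (hy : y ≤ 1) : hl ε y ≤ Real.log ((1 + ε) / ε) := by
  rw [hl_eq hε (by linarith), ← Real.log_inv]
  have hp : 0 < 1 + ε - y := by linarith
  apply Real.log_le_log (by positivity)
  rw [inv_div]
  exact div_le_div_of_nonneg_left (by positivity) hε (by linarith)

lemma hl_low (hε : 0 < ε) {δ k y : ℝ} (hy : y ≤ 1) (hk : ε + δ ≤ Real.exp (-k)) (h : 1 - δ < y) :
    k ≤ hl ε y := by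
  rw [hl_eq hε (by linarith)]
  have hp : 0 < 1 + ε - y := by linarith
  have h1 : (1 + ε - y) / (1 + ε) ≤ Real.exp (-k) := by
    rw [div_le_iff₀ (by linarith)]
    have := Real.exp_pos (-k)
    nlinarith
  have h2 := Real.log_le_log (by positivity) h1
  rw [Real.log_exp] at h2
  linarith

/-! ### The differential inequality at one time -/

lemma young {a b s : ℝ} (hb : 0 ≤ b) (hs : 0 ≤ s) (h : a ^ 2 ≤ 192 * s * b) :
    |a| ≤ s / 4 + 192 * b := by
  refine abs_le_of_sq_le_sq ?_ (by positivity)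
  nlinarith [sq_nonneg (s / 4 - 192 * b)]

lemma cs_ineq (a b : Fin 3 → ℝ) : (∑ i, a i * b i) ^ 2 ≤ (∑ i, a i ^ 2) * ∑ i, b i ^ 2 :=
  Finset.sum_mul_sq_le_sq_mul_sq _ _ _

/-- the square of the drift expression -/
lemma drift_sq (z H : V → ℝ) (x : V) :
    (pd 2 z x * RR H x - RR z x * pd 2 H x) ^ 2 ≤ sg x * (gr2 z x * gr2 H x) := by
  unfold RR gr2 sg
  rw [Fin.sum_univ_three, Fin.sum_univ_three]
  obtain ⟨a0, ha0⟩ : ∃ a : ℝ, a = pd 0 z x := ⟨_, rfl⟩
  obtain ⟨a1, ha1⟩ : ∃ a : ℝ, a = pd 1 z x := ⟨_, rfl⟩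
  obtain ⟨a2, ha2⟩ : ∃ a : ℝ, a = pd 2 z x := ⟨_, rfl⟩
  obtain ⟨b0, hb0⟩ : ∃ a : ℝ, a = pd 0 H x := ⟨_, rfl⟩
  obtain ⟨b1, hb1⟩ : ∃ a : ℝ, a = pd 1 H x := ⟨_, rfl⟩
  obtain ⟨b2, hb2⟩ : ∃ a : ℝ, a = pd 2 H x := ⟨_, rfl⟩
  rw [← ha0, ← ha1, ← ha2, ← hb0, ← hb1, ← hb2]
  obtain ⟨p, hp⟩ : ∃ a : ℝ, a = a2 * b0 - a0 * b2 := ⟨_, rfl⟩
  obtain ⟨q, hq⟩ : ∃ a : ℝ, a = a2 * b1 - a1 * b2 := ⟨_, rfl⟩
  have e1 : a2 * (x 0 * b0 + x 1 * b1) - (x 0 * a0 + x 1 * a1) * b2 = x 0 * p + x 1 * q := by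
    rw [hp, hq]
    ring
  rw [e1]
  have h1 : (x 0 * p + x 1 * q) ^ 2 ≤ (x 0 ^ 2 + x 1 ^ 2) * (p ^ 2 + q ^ 2) := by
    nlinarith [sq_nonneg (x 0 * q - x 1 * p)]
  have h2 : p ^ 2 + q ^ 2 ≤ (a0 ^ 2 + a1 ^ 2 + a2 ^ 2) * (b0 ^ 2 + b1 ^ 2 + b2 ^ 2) := by
    rw [hp, hq]
    nlinarith [sq_nonneg (a0 * b1 - a1 * b0), sq_nonneg (a0 * b0 + a1 * b1 + a2 * b2)]
  exact h1.trans (mul_le_mul_of_nonneg_left h2 (by positivity))

lemma point_ineq {H ψ : V → ℝ} {x : V} (hH : -1 ≤ H x) :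
    -(∑ i, pd i ze x * pd i H x) - ze x * gr2 H x - ka x * H x
      - ψ x * (pd 2 ze x * RR H x - RR ze x * pd 2 H x) ≤
      -4 * (ze x * H x) + (404 + 192 * (sg x ^ 2 * ψ x ^ 4)) := by
  have g0 := gr2_nonneg H x
  have z0 := ze_nn x
  have gz := gr2_ze x
  have s0 := sg_nonneg x
  have h1 : |∑ i, pd i ze x * pd i H x| ≤ ze x * gr2 H x / 4 + 192 * 1 := by
    refine young zero_le_one (by positivity) ?_
    have h2 := cs_ineq (fun i => pd i ze x) (fun i => pd i H x)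
    have h3 : (∑ i, pd i ze x ^ 2) * ∑ i, pd i H x ^ 2 ≤ 192 * ze x * gr2 H x :=
      mul_le_mul_of_nonneg_right gz g0
    have h4 := h2.trans h3
    simpa [mul_assoc] using h4
  have h2 : |ψ x * (pd 2 ze x * RR H x - RR ze x * pd 2 H x)| ≤
      ze x * gr2 H x / 4 + 192 * (sg x * ψ x ^ 2) := by
    refine young (by positivity) (by positivity) ?_
    rw [mul_pow]
    have h3 := drift_sq ze H x
    have h4 : sg x * (gr2 ze x * gr2 H x) ≤ sg x * (192 * ze x * gr2 H x) :=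
      mul_le_mul_of_nonneg_left (mul_le_mul_of_nonneg_right gz g0) s0
    calc ψ x ^ 2 * (pd 2 ze x * RR H x - RR ze x * pd 2 H x) ^ 2 ≤
        ψ x ^ 2 * (sg x * (192 * ze x * gr2 H x)) :=
          mul_le_mul_of_nonneg_left (h3.trans h4) (sq_nonneg _)
      _ = _ := by ring
  have h3 : sg x * ψ x ^ 2 ≤ 1 + sg x ^ 2 * ψ x ^ 4 := by
    nlinarith [sq_nonneg (sg x * ψ x ^ 2 - 1), sq_nonneg (sg x * ψ x ^ 2)]
  have h4 : -(ka x * H x) ≤ -4 * (ze x * H x) + 20 := by
    have k1 := ze_ka x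
    have k2 := ka_le x
    have k3 : 0 ≤ H x + 1 := by linarith
    have k4 := mul_le_mul_of_nonneg_right k1 k3
    nlinarith
  have h5 := (abs_le.1 h1).1
  have h6 := (abs_le.1 h2).1
  have h7 : 0 ≤ ze x * gr2 H x := mul_nonneg z0 g0
  linarith

lemma point_off {H ψ : V → ℝ} {x : V} (hx : x ∉ Co 0 1 1) :
    -(∑ i, pd i ze x * pd i H x) - ze x * gr2 H x - ka x * H x
      - ψ x * (pd 2 ze x * RR H x - RR ze x * pd 2 H x) = -4 * (ze x * H x) := by
  have h0 := ze_off hx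
  have h1 := ka_off hx
  have h2 : gr2 ze x ≤ 0 := by
    have := gr2_ze x
    rwa [h0, mul_zero] at this
  have h3 : ∀ i, pd i ze x = 0 := by
    intro i
    have h4 : pd i ze x ^ 2 ≤ gr2 ze x :=
      Finset.single_le_sum (f := fun i => pd i ze x ^ 2) (fun i _ => sq_nonneg _)
        (Finset.mem_univ i)
    have h5 : pd i ze x ^ 2 = 0 := le_antisymm (h4.trans h2) (sq_nonneg _)
    exact pow_eq_zero_iff (two_ne_zero) |>.1 h5
  have h4 : RR ze x = 0 := by
    unfold RR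
    rw [h3, h3]
    ring
  simp [h0, h1, h3, h4]

lemma int4 {a b c d : V → ℝ} (ha : Integrable a) (hb : Integrable b) (hc : Integrable c)
    (hd : Integrable d) : ∫ x, (a x - b x - c x + d x) =
      (∫ x, a x) - (∫ x, b x) - (∫ x, c x) + ∫ x, d x := by
  have h1 := integral_add (f := fun x => a x - b x - c x) (g := d) ((ha.sub hb).sub hc) hd
  have h2 := integral_sub (f := fun x => a x - b x) (g := c) (ha.sub hb) hc
  have h3 := integral_sub (f := a) (g := b) ha hb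
  rw [h1, h2, h3]

lemma int4' {a b c d : V → ℝ} (ha : Integrable a) (hb : Integrable b) (hc : Integrable c)
    (hd : Integrable d) : ∫ x, (-(a x) - b x - c x - d x) =
      (-∫ x, a x) - (∫ x, b x) - (∫ x, c x) - ∫ x, d x := by
  have h1 := integral_sub (f := fun x => -(a x) - b x - c x) (g := d) ((ha.neg.sub hb).sub hc) hd
  have h2 := integral_sub (f := fun x => -(a x) - b x) (g := c) (ha.neg.sub hb) hc
  have h3 := integral_sub (f := fun x => -(a x)) (g := b) ha.neg hb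
  rw [h1, h2, h3, integral_neg]

/-- the differential inequality -/
theorem diff_ineq (hε : 0 < ε) {Λ : ℝ} {W ψ D : V → ℝ} (hW : ContDiff ℝ ∞ W)
    (hψ : ContDiff ℝ ∞ ψ) (hG : ∀ x ∈ Co 0 1 1, |sg x * W x| ≤ 1)
    (hΛ : ∫ x in Co 0 1 1, sg x ^ 2 * ψ x ^ 4 ≤ Λ)
    (hD : ∀ x ∈ Co 0 1 1, sg x ≠ 0 → D x = lap (fun y => sg y * W y) x
      - 2 / sg x * RR (fun y => sg y * W y) x + pd 2 ψ x * RR (fun y => sg y * W y) x
      - (2 * ψ x + RR ψ x) * pd 2 (fun y => sg y * W y) x) :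
    ∫ x, ze x * (deriv (hl ε) (sg x * W x) * D x) ≤
      -4 * (∫ x, ze x * hl ε (sg x * W x)) + (404 * volume.real (Co 0 1 1) + 192 * Λ) := by
  obtain ⟨Γ, hΓ⟩ : ∃ Γ : V → ℝ, Γ = fun y => sg y * W y := ⟨_, rfl⟩
  have sΓ : ContDiff ℝ ∞ Γ := by rw [hΓ]; exact sm_sg.mul hW
  obtain ⟨H, hH⟩ : ∃ H : V → ℝ, H = fun y => hl ε (Γ y) := ⟨_, rfl⟩
  have sH : ContDiff ℝ ∞ H := by rw [hH]; exact (hl_sm hε).comp sΓ
  have hΓx : ∀ x, Γ x = sg x * W x := fun x => by rw [hΓ]
  have hHx : ∀ x, H x = hl ε (sg x * W x) := fun x => by rw [hH, hΓ]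
  have sd1 : ContDiff ℝ ∞ (deriv (hl ε)) := (contDiff_infty_iff_deriv.1 (hl_sm hε)).2
  obtain ⟨h', hh'⟩ : ∃ h' : V → ℝ, h' = fun y => deriv (hl ε) (Γ y) := ⟨_, rfl⟩
  have sh' : ContDiff ℝ ∞ h' := by rw [hh']; exact sd1.comp sΓ
  have hh'x : ∀ x, h' x = deriv (hl ε) (sg x * W x) := fun x => by rw [hh', hΓ]
  have hdall : ∀ y, HasDerivAt (hl ε) (deriv (hl ε) y) y := fun y =>
    ((hl_sm hε).differentiable (by norm_cast) y).hasDerivAt
  have eRR : ∀ x, RR H x = h' x * RR Γ x := fun x => by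
    rw [hH, hh']
    exact RR_comp sΓ (hdall _)
  have epd : ∀ i x, pd i H x = h' x * pd i Γ x := fun i x => by
    rw [hH, hh']
    exact pd_comp sΓ (hdall _) i
  have elap : ∀ x, lap H x = h' x * lap Γ x + deriv (deriv (hl ε)) (Γ x) * gr2 Γ x := fun x => by
    rw [hH, hh']
    exact lap_comp (hl_sm hε) sΓ x
  have egr : ∀ x, gr2 H x = h' x ^ 2 * gr2 Γ x := fun x => by
    unfold gr2
    rw [Finset.mul_sum]
    refine Finset.sum_congr rfl fun i _ => ?_
    rw [epd]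
    ring
  have eRRΓ : ∀ x, RR Γ x = sg x * (RR W x + 2 * W x) := fun x => by
    rw [hΓ, RR_sgf hW]
    ring
  have hin : ∀ x ∈ Co 0 1 1, Γ x < 1 + ε / 4 := fun x hx => by
    have := (abs_le.1 (hG x hx)).2
    rw [hΓx]
    linarith
  -- the integrand, almost everywhere
  have e0 : (∫ x, ze x * (deriv (hl ε) (sg x * W x) * D x)) = ∫ x, (ze x * lap H x
      - ze x * gr2 H x - 2 * (ze x * (h' x * (RR W x + 2 * W x)))
      + ze x * (pd 2 ψ x * RR H x - (2 * ψ x + RR ψ x) * pd 2 H x)) := by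
    refine integral_congr_ae ?_
    filter_upwards [ae_sg] with x hx
    by_cases hc : x ∈ Co 0 1 1
    · have h1 := hD x hc hx
      rw [← hΓ] at h1
      rw [h1, ← hh'x, elap, egr, eRR, epd, eRRΓ, hl_dd hε (hin x hc)]
      rw [hh']
      simp only
      field_simp
      ring
    · rw [ze_off hc]
      ring
  rw [e0]
  -- by parts
  have cH := sH.continuous
  have ch' := sh'.continuous
  have cz := ze_sm.continuous
  have cW2 : Continuous (fun x => RR W x + 2 * W x) :=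
    (sm_RR hW).continuous.add (continuous_const.mul hW.continuous)
  have clap : Continuous (lap H) := by
    unfold lap
    exact continuous_finsetSum _ fun i _ => (sm_pd (sm_pd sH i) i).continuous
  have cgr : Continuous (gr2 H) := sm_gr2 sH
  have cdr : Continuous (fun x => pd 2 ψ x * RR H x - (2 * ψ x + RR ψ x) * pd 2 H x) :=
    ((sm_pd hψ 2).continuous.mul (sm_RR sH).continuous).sub
      (((continuous_const.mul hψ.continuous).add (sm_RR hψ).continuous).mul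
        (sm_pd sH 2).continuous)
  have i1 := ic cz ze_cs clap
  have i2 := ic cz ze_cs cgr
  have i3 := (ic cz ze_cs (ch'.mul cW2)).const_mul 2
  have i4 := ic cz ze_cs cdr
  have i5 := ic ka_sm.continuous ka_cs cH
  have i6 : Integrable (fun x => ∑ i, pd i ze x * pd i H x) :=
    integrable_finsetSum _ fun i _ =>
      ic (sm_pd ze_sm i).continuous (cs_pd ze_cs i) (sm_pd sH i).continuous
  have i7 : Integrable (fun x => ψ x * (pd 2 ze x * RR H x - RR ze x * pd 2 H x)) := by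
    have k1 := ic (sm_pd ze_sm 2).continuous (cs_pd ze_cs 2)
      (hψ.continuous.mul (sm_RR sH).continuous)
    have k2 := ic (sm_RR ze_sm).continuous (cs_RR ze_cs)
      (hψ.continuous.mul (sm_pd sH 2).continuous)
    refine (k1.sub k2).congr (Eventually.of_forall fun x => ?_)
    simp only [Pi.sub_apply, Pi.mul_apply]
    ring
  have i8 := ic cz ze_cs cH
  have j3 : (∫ x, 2 * (ze x * (h' x * (RR W x + 2 * W x)))) = ∫ x, ka x * H x := by
    obtain ⟨B, hB⟩ := (Pool.Agent.Q95.AXP.cy_compact 0 (r := 1) (h := 1)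
      one_pos).exists_bound_of_continuousOn hW.continuous.continuousOn
    have h1 := ibp_sing (G := fun x => ze x * H x)
      (P := fun x => ze x * (h' x * (RR W x + 2 * W x)) - ka x * H x / 2) (L := ε⁻¹ * B)
      (ze_sm.mul sH) ze_cs.mul_right (fun x => ?_)
      ((cz.mul (ch'.mul cW2)).sub ((ka_sm.continuous.mul cH).div_const 2)) ?_ (fun x => ?_)
    · have k1 : Integrable (fun x => ze x * (h' x * (RR W x + 2 * W x))) :=
        ic cz ze_cs (ch'.mul cW2)
      rw [integral_sub k1 (i5.div_const 2), integral_div] at h1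
      rw [integral_const_mul]
      linarith
    · by_cases hc : x ∈ Co 0 1 1
      · have h2 := hB x (co_cy hc)
        rw [Real.norm_eq_abs] at h2
        have h3 := hl_abs hε (hG x hc)
        rw [abs_mul, abs_of_nonneg (ze_nn x), hHx]
        rw [abs_mul (sg x), abs_of_nonneg (sg_nonneg x)] at h3
        have h4 := ze_le x
        have h5 := sg_nonneg x
        calc ze x * |hl ε (sg x * W x)| ≤ 1 * (ε⁻¹ * (sg x * |W x|)) :=
              mul_le_mul h4 h3 (abs_nonneg _) zero_le_one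
          _ ≤ 1 * (ε⁻¹ * (sg x * B)) := by
              refine mul_le_mul_of_nonneg_left (mul_le_mul_of_nonneg_left
                (mul_le_mul_of_nonneg_left h2 h5) (by positivity)) zero_le_one
          _ = _ := by ring
      · rw [ze_off hc, zero_mul, abs_zero]
        have h2 : 0 ≤ B := by
          have := hB 0 (by
            refine ⟨?_, ?_⟩
            · simp [sg]
            · simp)
          exact (norm_nonneg _).trans this
        have := sg_nonneg x
        positivity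
    · refine HasCompactSupport.intro (Pool.Agent.Q95.AXP.cy_compact 0 (r := 1) (h := 1) one_pos)
        fun x hx => ?_
      have hc : x ∉ Co 0 1 1 := fun h => hx (co_cy h)
      rw [ze_off hc, ka_off hc]
      ring
    · rw [RR_mul ze_sm sH, eRR, eRRΓ]
      have := RR_ze x
      have e : RR ze x = -(sg x * ka x) / 2 := by linarith
      rw [e]
      ring
  have j1 := ibp_lap ze_sm ze_cs sH
  have j4 := ibp_drift ze_sm ze_cs sH hψ
  have e1 : (∫ x, (ze x * lap H x - ze x * gr2 H x - 2 * (ze x * (h' x * (RR W x + 2 * W x)))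
      + ze x * (pd 2 ψ x * RR H x - (2 * ψ x + RR ψ x) * pd 2 H x))) =
      ∫ x, (-(∑ i, pd i ze x * pd i H x) - ze x * gr2 H x - ka x * H x
        - ψ x * (pd 2 ze x * RR H x - RR ze x * pd 2 H x)) := by
    have l1 : (∫ x, (ze x * lap H x - ze x * gr2 H x - 2 * (ze x * (h' x * (RR W x + 2 * W x)))
      + ze x * (pd 2 ψ x * RR H x - (2 * ψ x + RR ψ x) * pd 2 H x))) =
        (∫ x, ze x * lap H x) - (∫ x, ze x * gr2 H x)
          - (∫ x, 2 * (ze x * (h' x * (RR W x + 2 * W x))))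
          + ∫ x, ze x * (pd 2 ψ x * RR H x - (2 * ψ x + RR ψ x) * pd 2 H x) := by
      exact int4 i1 i2 i3 i4
    have l2 : (∫ x, (-(∑ i, pd i ze x * pd i H x) - ze x * gr2 H x - ka x * H x
        - ψ x * (pd 2 ze x * RR H x - RR ze x * pd 2 H x))) =
        (-∫ x, ∑ i, pd i ze x * pd i H x) - (∫ x, ze x * gr2 H x) - (∫ x, ka x * H x)
          - ∫ x, ψ x * (pd 2 ze x * RR H x - RR ze x * pd 2 H x) := by
      exact int4' i6 i2 i5 i7
    rw [l1, l2, j1, j3, j4]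
    ring
  rw [e1]
  -- the pointwise bound
  have hcom : IsCompact (Cy 0 1 1) := Pool.Agent.Q95.AXP.cy_compact 0 one_pos
  have hop : IsOpen (Co 0 1 1) :=
    (isOpen_lt sg_cont continuous_const).inter
      (isOpen_lt (f := fun z : V => |z 2 - 0|) (g := fun _ => 1) (by fun_prop) continuous_const)
  have hm : MeasurableSet (Co 0 1 1) := hop.measurableSet
  have hfin : volume (Co 0 1 1) ≠ ⊤ := ((measure_mono co_cy).trans_lt hcom.measure_lt_top).ne
  have cq : Continuous (fun x : V => sg x ^ 2 * ψ x ^ 4) :=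
    (sg_cont.pow 2).mul (hψ.continuous.pow 4)
  have iq : IntegrableOn (fun x : V => sg x ^ 2 * ψ x ^ 4) (Co 0 1 1) :=
    (cq.continuousOn.integrableOn_compact hcom).mono_set co_cy
  have ic1 : IntegrableOn (fun _ : V => (404 : ℝ)) (Co 0 1 1) := integrableOn_const hfin
  have iI : Integrable ((Co 0 1 1).indicator (fun x => 404 + 192 * (sg x ^ 2 * ψ x ^ 4))) :=
    (ic1.add (iq.const_mul 192)).integrable_indicator hm
  have hle : (∫ x, (-(∑ i, pd i ze x * pd i H x) - ze x * gr2 H x - ka x * H x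
        - ψ x * (pd 2 ze x * RR H x - RR ze x * pd 2 H x))) ≤
      ∫ x, (-4 * (ze x * H x)
        + (Co 0 1 1).indicator (fun x => 404 + 192 * (sg x ^ 2 * ψ x ^ 4)) x) := by
    refine integral_mono (((i6.neg.sub i2).sub i5).sub i7) ((i8.const_mul (-4)).add iI) fun x => ?_
    by_cases hc : x ∈ Co 0 1 1
    · have h1 := point_ineq (H := H) (ψ := ψ) (x := x) (by rw [hHx]; exact hl_ge hε (hG x hc))
      simp only [indicator_of_mem hc]
      exact h1
    · have h1 := point_off (H := H) (ψ := ψ) hc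
      simp only [indicator_of_notMem hc, add_zero]
      exact h1.le
  refine hle.trans ?_
  rw [integral_add (i8.const_mul (-4)) iI, integral_const_mul, integral_indicator hm,
    integral_add ic1 (iq.const_mul 192), integral_const_mul, setIntegral_const, smul_eq_mul]
  have e2 : (fun x => ze x * H x) = fun x => ze x * hl ε (sg x * W x) := by
    funext x
    rw [hHx]
  rw [e2]
  nlinarith

end Pool.Agent.V8H53.OW.LgP
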