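import Pool.Agent.V8H53.OW.Str
import Pool.Agent.Q175.AX.UU

/-!
Project OW: the critical bound of the stream function.
-/

set_option autoImplicit false

open MeasureTheory Set Metric Filter Topology
open scoped ContDiff
open H459R3.NS Pool.Agent.W268.NS Pool.Agent.Q67.VD

namespace Pool.Agent.V8H53.OW

open Pool.Agent.Q85.CC Pool.Agent.Q85.CL Pool.Agent.TH305.AX
open Pool.Agent.Q67.AXI
open Pool.Agent.W583.MD (sm_pd)
open Pool.Agent.V8Lead (p_AAs p_Alg p_AxF)
open Pool.Agent.Q175.AX (Co_open Cy_compact Co_meas Co_fin ind_int ind_val cut_dich const_pd cut_out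
  cut_mem Co_sub_Cy LL_mul LL_meas)

variable {v : V → V} {φ : V → ℝ} {c r h r1 h1 K : ℝ}

lemma PS_out (hv : ContDiff ℝ ∞ v) (hd : DFO (Co c r h) v) (hK : 0 ≤ K)
    (hh1 : 0 < h1) (hh1h : h1 < h) (hh : h ≤ 1) (hb : ∀ x ∈ Out c r h r1 h1, BdA K v x) {x : V}
    (hx : x ∈ Out c r h r1 h1) (hxC : x ∈ Co c r h) : |PS v x| ≤ 3 * K := by
  have hA : ∀ y : V, y ∈ Cy c r h → h1 ≤ |y 2 - c| → |PS v y| ≤ K := by
    intro y hy hy1
    unfold PS AA
    have h2 : ∀ l ∈ Set.uIoc (0 : ℝ) 1, ‖l * v ![l * y 0, l * y 1, y 2] 2‖ ≤ K := by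
      intro l hl
      rw [uIoc_of_le zero_le_one] at hl
      have hm : (![l * y 0, l * y 1, y 2] : V) ∈ Out c r h r1 h1 := by
        refine ⟨⟨?_, hy.2⟩, Or.inr hy1⟩
        have h2 : sg (![l * y 0, l * y 1, y 2] : V) = l ^ 2 * sg y := by
          unfold sg
          simp
          ring
        rw [h2]
        have h3 : l ^ 2 ≤ 1 := pow_le_one₀ hl.1.le hl.2
        have h4 : 0 ≤ sg y := by unfold sg; positivity
        calc l ^ 2 * sg y ≤ 1 * sg y := mul_le_mul_of_nonneg_right h3 h4
          _ = sg y := one_mul _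
          _ ≤ r ^ 2 := hy.1
      have h3 := (hb _ hm).1 2
      rw [Real.norm_eq_abs, abs_mul, abs_of_pos hl.1]
      calc l * |v ![l * y 0, l * y 1, y 2] 2| ≤ 1 * K :=
            mul_le_mul hl.2 h3 (abs_nonneg _) zero_le_one
        _ = K := one_mul _
    have h3 := intervalIntegral.norm_integral_le_of_norm_le_const h2
    rw [Real.norm_eq_abs] at h3
    simpa using h3
  by_cases hc : h1 ≤ |x 2 - c|
  · have := hA x hx.1 hc
    linarith
  · push Not at hc
    have hs : r1 ^ 2 ≤ sg x := by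
      rcases hx.2 with h2 | h2
      · exact h2
      · exact absurd h2 (not_le.2 hc)
    have hP := PS_sm hv
    obtain ⟨hc1, hc2⟩ := abs_lt.1 hc
    obtain ⟨y, hy⟩ : ∃ y : ℝ → V, y = fun s => ![x 0, x 1, s] := ⟨_, rfl⟩
    have hyx : y (x 2) = x := by
      rw [hy]
      funext i
      fin_cases i <;> rfl
    have hy2 : ∀ s, y s 2 = s := fun s => by rw [hy]; rfl
    have hys : ∀ s, sg (y s) = sg x := fun s => by rw [hy]; rfl
    have hyC : ∀ s ∈ Icc (x 2) (c + h1), y s ∈ Co c r h := by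
      intro s hs'
      refine ⟨by rw [hys]; exact hxC.1, ?_⟩
      rw [hy2, abs_lt]
      constructor <;> linarith [hs'.1, hs'.2]
    have hder : ∀ s ∈ Icc (x 2) (c + h1),
        HasDerivWithinAt (fun s => PS v (y s)) (-UU v (y s)) (Icc (x 2) (c + h1)) s := by
      intro s hs'
      have e1 : HasDerivAt y (Pi.single 2 1 : V) s := by
        rw [hy, hasDerivAt_pi]
        intro i
        fin_cases i
        · exact hasDerivAt_const _ _
        · exact hasDerivAt_const _ _
        · exact hasDerivAt_id _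
      have e2 := ((hP.differentiable (by simp)) (y s)).hasFDerivAt.comp_hasDerivAt s e1
      have e3 : fderiv ℝ (PS v) (y s) (Pi.single 2 1 : V) = -UU v (y s) := by
        rw [PS_U hv hd (hyC s hs'), neg_neg]
        rfl
      rw [e3] at e2
      exact e2.hasDerivWithinAt
    have hbd : ∀ s ∈ Ico (x 2) (c + h1), ‖-UU v (y s)‖ ≤ K := by
      intro s hs'
      rw [norm_neg, Real.norm_eq_abs]
      refine (hb _ ?_).2.1
      exact ⟨Co_sub_Cy _ _ _ (hyC s ⟨hs'.1, hs'.2.le⟩), Or.inl (by rw [hys]; exact hs)⟩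
    have h4 := norm_image_sub_le_of_norm_deriv_le_segment' hder hbd (c + h1)
      ⟨by linarith, le_rfl⟩
    have h5 : |PS v (y (c + h1))| ≤ K := by
      refine hA _ ⟨by rw [hys]; exact hx.1.1, ?_⟩ ?_
      · rw [hy2]
        have : c + h1 - c = h1 := by ring
        rw [this, abs_of_pos hh1]
        exact hh1h.le
      · rw [hy2]
        have : c + h1 - c = h1 := by ring
        rw [this, abs_of_pos hh1]
    rw [hyx, Real.norm_eq_abs] at h4
    have h6 : K * (c + h1 - x 2) ≤ K * 2 := by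
      apply mul_le_mul_of_nonneg_left _ hK
      linarith
    have h7 := abs_le.1 (h4.trans h6)
    have h8 := abs_le.1 h5
    rw [abs_le]
    constructor <;> linarith [h7.1, h7.2, h8.1, h8.2]

/-- The equation of `φ ψ`. -/
lemma LL_phiP (hv : ContDiff ℝ ∞ v) (ha : Axi v) (hd : DFO (Co c r h) v) (hK : 0 ≤ K)
    (hh1 : 0 < h1) (hh1h : h1 < h) (hh : h ≤ 1) (hφ : Cut c r h r1 h1 K φ)
    (hb : ∀ x ∈ Out c r h r1 h1, BdA K v x) {x : V} (hs : sg x ≠ 0) :
    |LL (fun y => φ y * PS v y) x| ≤ φ x * |OO v x|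
      + (Co c r h).indicator (fun _ : V => 25 * K ^ 2) x := by
  have hφs := hφ.sm
  have sP := PS_sm hv
  have aP := PS_ax hv ha
  rw [LL_mul hφs sP]
  have h1' : |φ x * LL (PS v) x| ≤ φ x * |OO v x| := by
    by_cases hx : x ∈ Co c r h
    · rw [PS_L hv ha hd (Co_open c r h) hx hs, abs_mul, abs_neg, abs_of_nonneg (hφ.nn x)]
    · have h0 : φ x = 0 := by
        by_contra hcon
        exact hx (cut_mem hφ hcon)
      rw [h0]
      simp
  have h2' : |2 * (∑ i, pd i φ x * pd i (PS v) x) + PS v x * LL φ x| ≤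
      (Co c r h).indicator (fun _ : V => 25 * K ^ 2) x := by
    rcases cut_dich hφ x with ⟨ho, hc⟩ | ⟨k, hk⟩
    · rw [indicator_of_mem hc]
      obtain ⟨b1, b2, b3, b4, b5, b6⟩ := hb x ho
      obtain ⟨c1, c2, c3⟩ := hφ.bd x
      have hsp : 0 < sg x := lt_of_le_of_ne (by unfold sg; positivity) (Ne.symm hs)
      have hPo := PS_out hv hd hK hh1 hh1h hh hb ho hc
      obtain ⟨-, -, -, q, -, -, hq⟩ := p_AxF _ hφs hφ.ax
      obtain ⟨-, -, -, q', -, -, hq'⟩ := p_AxF _ sP aP
      have hqb : |q x| ≤ K := by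
        have h3 := (hq x).2.2
        rw [h3, abs_mul, abs_of_pos hsp, mul_comm K] at c3
        exact le_of_mul_le_mul_left c3 hsp
      have hRP : |RR (PS v) x| ≤ 7 * K := by
        have h3 := PS_z hv x
        have h4 := abs_le.1 (b1 2)
        have h5 := abs_le.1 hPo
        rw [abs_le]
        constructor <;> linarith [h4.1, h4.2, h5.1, h5.2]
      have hsum : pd 0 φ x * pd 0 (PS v) x + pd 1 φ x * pd 1 (PS v) x = q x * RR (PS v) x := by
        rw [(hq x).1, (hq x).2.1, (hq' x).1, (hq' x).2.1, (hq' x).2.2]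
        unfold sg
        ring
      have t1 : |q x * RR (PS v) x| ≤ K * (7 * K) := by
        rw [abs_mul]
        exact mul_le_mul hqb hRP (abs_nonneg _) hK
      have t2 : |pd 2 φ x * pd 2 (PS v) x| ≤ K * K := by
        rw [abs_mul]
        have h3 : |pd 2 (PS v) x| ≤ K := by
          have h4 := PS_U hv hd hc
          rw [h4, abs_neg] at b2
          exact b2
        exact mul_le_mul (c1 2) h3 (abs_nonneg _) hK
      have t3 : |LL φ x| ≤ 3 * K := by
        unfold LL
        have : |2 / sg x * RR φ x| ≤ 2 * K := by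
          rw [abs_mul, abs_div, abs_of_pos hsp, abs_two]
          calc 2 / sg x * |RR φ x| ≤ 2 / sg x * (K * sg x) := by gcongr
            _ = 2 * K := by field_simp
        calc |lap φ x + 2 / sg x * RR φ x| ≤ |lap φ x| + |2 / sg x * RR φ x| := abs_add_le _ _
          _ ≤ K + 2 * K := add_le_add c2 this
          _ = 3 * K := by ring
      have t4 : |PS v x * LL φ x| ≤ 3 * K * (3 * K) := by
        rw [abs_mul]
        exact mul_le_mul hPo t3 (abs_nonneg _) (by positivity)
      rw [Fin.sum_univ_three, hsum]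
      have g1 := abs_le.1 t1
      have g2 := abs_le.1 t2
      have g4 := abs_le.1 t4
      rw [abs_le]
      constructor <;> nlinarith [g1.1, g1.2, g2.1, g2.2, g4.1, g4.2]
    · obtain ⟨a1, a2, a3⟩ := const_pd hk
      have : LL φ x = 0 := by
        unfold LL
        rw [a2, a3]
        ring
      rw [this]
      simp only [a1, zero_mul, Finset.sum_const_zero, mul_zero, add_zero, abs_zero]
      exact indicator_nonneg (fun _ _ => by positivity) _
  calc |φ x * LL (PS v) x + 2 * (∑ i, pd i φ x * pd i (PS v) x) + PS v x * LL φ x|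
      = |φ x * LL (PS v) x + (2 * (∑ i, pd i φ x * pd i (PS v) x) + PS v x * LL φ x)| := by
        rw [add_assoc]
    _ ≤ _ := (abs_add_le _ _).trans (add_le_add h1' h2')

/-- The critical bound. -/
theorem pot (hKer : StmKer) (M : ℝ) (hK : 0 ≤ K) (hr1 : 0 < r1) (hr1r : r1 < r)
    (hh1 : 0 < h1) (hh1h : h1 < h) (hh : h ≤ 1) : ∃ Λ : ℝ, 0 ≤ Λ ∧ ∀ (v : V → V) (φ : V → ℝ),
      ContDiff ℝ ∞ v → Axi v → DFO (Co c r h) v → Cut c r h r1 h1 K φ →
      (∀ x ∈ Out c r h r1 h1, BdA K v x) → ∫ x, φ x ^ 2 * |OO v x| ≤ M →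
        ∀ z s : ℝ, 0 < s → Co z s s ⊆ Cy c r1 h1 →
          ∫ x in Co z s s, sg x ^ 2 * PS v x ^ 4 ≤ Λ * s ^ 3 := by
  obtain ⟨C, hC, hker⟩ := hKer
  have hr : 0 ≤ r := (hr1.trans hr1r).le
  obtain ⟨vol, hvol⟩ : ∃ vol : ℝ, vol = (volume (Co c r h)).toReal := ⟨_, rfl⟩
  refine ⟨C * (|M| + vol * (K + 25 * K ^ 2)) ^ 4, by positivity, ?_⟩
  intro v φ hv ha hd hφ hb hM z s hs hsub
  obtain ⟨⟨sU, sW, sJ, sO⟩, ⟨aU, aW, aJ, aO⟩, -, -⟩ := p_Alg v hv ha
  have sP := PS_sm hv
  have aP := PS_ax hv ha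
  have hF1 : ContDiff ℝ ∞ (fun y => φ y * PS v y) := hφ.sm.mul sP
  have hF2 : HasCompactSupport (fun y => φ y * PS v y) := hφ.cs.mul_right
  have hF3 : AxF (fun y => φ y * PS v y) := fun θ x => by
    show φ (rot θ x) * PS v (rot θ x) = φ x * PS v x
    rw [hφ.ax, aP]
  have h4 := hker _ hF1 hF2 hF3 z s hs
  have hL : ∫ x, |LL (fun y => φ y * PS v y) x| ≤ |M| + vol * (K + 25 * K ^ 2) := by
    have i1 : Integrable (fun x => φ x ^ 2 * |OO v x|) :=
      ((hφ.sm.continuous.pow 2).mul sO.continuous.abs).integrable_of_hasCompactSupport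
        (HasCompactSupport.mul_right (by simpa [pow_two] using hφ.cs.mul_left (f := φ)))
    have i2 : Integrable ((Co c r h).indicator fun _ : V => K + 25 * K ^ 2) := ind_int hr _
    have hae : ∀ᵐ x : V, |LL (fun y => φ y * PS v y) x| ≤ φ x ^ 2 * |OO v x|
        + (Co c r h).indicator (fun _ : V => K + 25 * K ^ 2) x := by
      filter_upwards [Pool.Agent.Q175.AX.axis_ae] with x hx
      refine (LL_phiP hv ha hd hK hh1 hh1h hh hφ hb hx).trans ?_
      have h5 : φ x * |OO v x| ≤ φ x ^ 2 * |OO v x|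
          + (Co c r h).indicator (fun _ : V => K) x := by
        by_cases hxC : x ∈ Co c r h
        · rw [indicator_of_mem hxC]
          by_cases hxo : x ∈ Out c r h r1 h1
          · have h6 := (hb x hxo).2.2.2.2.1
            have h7 : φ x * |OO v x| ≤ 1 * K :=
              mul_le_mul (hφ.le x) h6 (abs_nonneg _) zero_le_one
            have h8 : 0 ≤ φ x ^ 2 * |OO v x| := by positivity
            linarith
          · have h6 : φ x = 1 := by
              refine hφ.one x ?_
              by_contra hcon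
              refine hxo ⟨Co_sub_Cy _ _ _ hxC, ?_⟩
              by_contra hcon2
              push Not at hcon2
              exact hcon ⟨hcon2.1.le, hcon2.2.le⟩
            rw [h6]
            simp only [one_pow, one_mul]
            linarith
        · have h0 : φ x = 0 := by
            by_contra hcon
            exact hxC (cut_mem hφ hcon)
          rw [h0, indicator_of_notMem hxC]
          simp
      have h6 : (Co c r h).indicator (fun _ : V => K + 25 * K ^ 2) x =
          (Co c r h).indicator (fun _ : V => K) x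
            + (Co c r h).indicator (fun _ : V => 25 * K ^ 2) x := by
        by_cases hxC : x ∈ Co c r h
        · simp only [indicator_of_mem hxC]
        · simp only [indicator_of_notMem hxC, add_zero]
      rw [h6]
      linarith
    calc ∫ x, |LL (fun y => φ y * PS v y) x| ≤ ∫ x, (φ x ^ 2 * |OO v x|
          + (Co c r h).indicator (fun _ : V => K + 25 * K ^ 2) x) := by
          refine integral_mono_of_nonneg (Eventually.of_forall fun x => abs_nonneg _)
            (i1.add i2) hae
      _ = (∫ x, φ x ^ 2 * |OO v x|) + vol * (K + 25 * K ^ 2) := by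
          rw [integral_add i1 i2, ind_val, hvol]
      _ ≤ _ := by
          have := le_abs_self M
          linarith
  have hL0 : 0 ≤ ∫ x, |LL (fun y => φ y * PS v y) x| := integral_nonneg fun x => abs_nonneg _
  have h5 : (∫ x, |LL (fun y => φ y * PS v y) x|) ^ 4 ≤ (|M| + vol * (K + 25 * K ^ 2)) ^ 4 :=
    pow_le_pow_left₀ hL0 hL 4
  have h6 : ∫ x in Co z s s, sg x ^ 2 * PS v x ^ 4
      = ∫ x in Co z s s, sg x ^ 2 * (φ x * PS v x) ^ 4 := by
    refine setIntegral_congr_fun (Co_meas z s s) fun x hx => ?_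
    beta_reduce
    rw [hφ.one x (hsub hx), one_mul]
  rw [h6]
  refine h4.trans ?_
  calc C * s ^ 3 * (∫ x, |LL (fun y => φ y * PS v y) x|) ^ 4
      ≤ C * s ^ 3 * (|M| + vol * (K + 25 * K ^ 2)) ^ 4 :=
        mul_le_mul_of_nonneg_left h5 (by positivity)
    _ = _ := by ring

end Pool.Agent.V8H53.OW
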