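import Pool.Agent.V8H53.OW.Defs
import Pool.Agent.V8Lead.Axi

/-!
Project OW: the stream function.
-/

set_option autoImplicit false

open MeasureTheory Set Metric Filter Topology
open scoped ContDiff
open H459R3.NS Pool.Agent.W268.NS Pool.Agent.Q67.VD

namespace Pool.Agent.V8H53.OW

open Pool.Agent.Q85.CC Pool.Agent.Q85.CL Pool.Agent.TH305.AX Pool.Agent.TH305.DR
open Pool.Agent.Q67.AXI Pool.Agent.Q257.AXI
open Pool.Agent.W583.MD (sm_pd)
open Pool.Agent.W22.ME.TD (pd_comm)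
open Pool.Agent.V8Lead (p_AAs p_Alg p_AxF)

/-- `ρ^(-2) ∫_0^ρ v_z s ds`. -/
noncomputable def PS (v : V → V) : V → ℝ := AA (fun y => v y 2)

variable {v : V → V} {c R H : ℝ}

lemma PS_sm (hv : ContDiff ℝ ∞ v) : ContDiff ℝ ∞ (PS v) := p_AAs.1 _ (sm_cmp hv 2)

lemma ax_v2 (ha : Axi v) : AxF (fun y => v y 2) := fun θ x => by
  show v (rot θ x) 2 = v x 2
  rw [ha]
  rfl

lemma PS_ax (hv : ContDiff ℝ ∞ v) (ha : Axi v) : AxF (PS v) :=
  p_AAs.2.2.2.2 _ (sm_cmp hv 2) (ax_v2 ha)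

lemma PS_z (hv : ContDiff ℝ ∞ v) (x : V) : v x 2 = 2 * PS v x + RR (PS v) x :=
  (p_AAs.2.2.2.1 _ (sm_cmp hv 2) x).symm

lemma PS_U (hv : ContDiff ℝ ∞ v) (hd : DFO (Co c R H) v) {x : V} (hx : x ∈ Co c R H) :
    UU v x = -pd 2 (PS v) x := by
  have h1 : pd 2 (PS v) = AA (pd 2 (fun y => v y 2)) := p_AAs.2.2.1 _ (sm_cmp hv 2)
  rw [h1]
  unfold UU AA
  rw [← intervalIntegral.integral_neg]
  refine intervalIntegral.integral_congr fun l hl => ?_
  rw [uIcc_of_le zero_le_one] at hl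
  have hm : (![l * x 0, l * x 1, x 2] : V) ∈ Co c R H := by
    refine ⟨?_, hx.2⟩
    have h2 : sg (![l * x 0, l * x 1, x 2] : V) = l ^ 2 * sg x := by
      unfold sg
      simp
      ring
    rw [h2]
    have h3 : l ^ 2 ≤ 1 := pow_le_one₀ hl.1 hl.2
    have h4 : 0 ≤ sg x := by unfold sg; positivity
    calc l ^ 2 * sg x ≤ 1 * sg x := mul_le_mul_of_nonneg_right h3 h4
      _ = sg x := one_mul _
      _ < R ^ 2 := hx.1
  have h5 := hd _ hm
  rw [Fin.sum_univ_three] at h5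
  beta_reduce
  linear_combination l * h5

lemma RR_RR {f : V → ℝ} (hf : ContDiff ℝ ∞ f) (ha : AxF f) (x : V) :
    RR (RR f) x = sg x * (pd 0 (pd 0 f) x + pd 1 (pd 1 f) x) := by
  obtain ⟨-, -, -, q, sq, aq, hq⟩ := p_AxF _ hf ha
  have e : RR f = fun y => sg y * q y := funext fun y => (hq y).2.2
  have e0 : pd 0 f = fun y => y 0 * q y := funext fun y => (hq y).1
  have e1 : pd 1 f = fun y => y 1 * q y := funext fun y => (hq y).2.1
  rw [e, RR_mul sg_sm sq, RR_sg, e0, e1, pd_mulf (sm_crd 0) sq, pd_mulf (sm_crd 1) sq, pd_crd,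
    pd_crd]
  simp only [if_true]
  unfold RR
  ring

lemma PS_L (hv : ContDiff ℝ ∞ v) (ha : Axi v) (hd : DFO (Co c R H) v)
    (hO : IsOpen (Co c R H)) {x : V} (hx : x ∈ Co c R H) (hs : sg x ≠ 0) :
    LL (PS v) x = -OO v x := by
  obtain ⟨⟨sU, sW, sJ, sO⟩, -, -, hid⟩ := p_Alg v hv ha
  have sP := PS_sm hv
  have aP := PS_ax hv ha
  have hOO : sg x * OO v x = sg x * pd 2 (UU v) x - RR (fun z => v z 2) x :=
    (hid x).2.2.2.2.2.2.1
  have h1 : pd 2 (UU v) x = -pd 2 (pd 2 (PS v)) x := by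
    have h2 : UU v =ᶠ[𝓝 x] fun y => -pd 2 (PS v) y := by
      filter_upwards [hO.mem_nhds hx] with y hy
      exact PS_U hv hd hy
    rw [(pd_congr_nhds h2 2).eq_of_nhds, pd, fderiv_fun_neg]
    rfl
  have h3 : RR (fun z => v z 2) x = 2 * RR (PS v) x + RR (RR (PS v)) x := by
    have e : (fun z => v z 2) = fun z => (fun _ => (2 : ℝ)) z * PS v z + RR (PS v) z :=
      funext fun z => PS_z hv z
    rw [e, RR_add (contDiff_const.mul sP) (sm_RR sP), RR_mul contDiff_const sP]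
    have c1 : RR (fun _ => (2 : ℝ)) x = 0 := by
      unfold RR
      rw [pd_const', pd_const']
      ring
    rw [c1]
    ring
  rw [RR_RR sP aP] at h3
  have h4 : sg x * LL (PS v) x = sg x * -OO v x := by
    unfold LL lap
    rw [Fin.sum_univ_three]
    have h8 : sg x * (2 / sg x * RR (PS v) x) = 2 * RR (PS v) x := by field_simp
    rw [mul_add, h8]
    rw [h1, h3] at hOO
    linear_combination hOO
  exact mul_left_cancel₀ hs h4

/-- the transport term -/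
lemma adv_PS (hv : ContDiff ℝ ∞ v) (ha : Axi v) (hd : DFO (Co c R H) v) {f : V → ℝ}
    (hf : ContDiff ℝ ∞ f) (haf : AxF f) {x : V} (hx : x ∈ Co c R H) :
    W221.NS.adv v f x = -pd 2 (PS v) x * RR f x
      + (2 * PS v x + RR (PS v) x) * pd 2 f x := by
  obtain ⟨-, -, -, hid⟩ := p_Alg v hv ha
  have h0 := (hid x).1
  have h1 := (hid x).2.1
  have h2 := (p_AxF _ hf haf).1 x
  unfold W221.NS.adv
  rw [Fin.sum_univ_three, h0, h1, PS_U hv hd hx, ← PS_z hv x]
  unfold RR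
  linear_combination WW v x * h2

end Pool.Agent.V8H53.OW
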