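import Pool.Agent.V8H53.OW.MainO
import Pool.Agent.V8Lead.AxWhole

/-!
Project OW: all viscosities, the whole space.
-/

set_option autoImplicit false

open MeasureTheory Set Metric Filter Topology
open scoped ContDiff ENNReal
open H459R3.NS Pool.Agent.W268.NS Pool.Agent.Q67.VD

namespace Pool.Agent.V8H53.OW

open Pool.Agent.Q85.CC Pool.Agent.Q85.CL Pool.Agent.TH305.AX Pool.Agent.Q67.AXI
open Pool.Agent.V8Lead
open Pool.Agent.Q175.AX (Co_open Cy_compact Co_meas Co_fin Co_sub_Cy sg_nn)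

/-- `sg OO = circ vort`. -/
lemma circ_vort {v : V → V} (hv : ContDiff ℝ ∞ v) (ha : Axi v) (x : V) :
    circ (vort v) x = sg x * OO v x := by
  obtain ⟨-, -, -, hid⟩ := p_Alg v hv ha
  have h0 := (hid x).2.2.1
  have h1 := (hid x).2.2.2.1
  unfold circ sg
  rw [h0, h1]
  ring

lemma vort_cm {O : Set V} (hO : IsOpen O) {v w : V → V} {k : ℝ} (hv : ContDiff ℝ ∞ v)
    (h : ∀ x ∈ O, w x = k • v x) {x : V} (hx : x ∈ O) : vort w x = k • vort v x := by
  have hp : ∀ i j, pd j (fun y => w y i) x = k * pd j (fun y => v y i) x := by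
    intro i j
    have h1 : (fun y => w y i) =ᶠ[𝓝 x] fun y => k * v y i := by
      filter_upwards [hO.mem_nhds hx] with y hy
      rw [h y hy]
      rfl
    rw [Pool.Agent.Q175.AX.pd_ev h1 j, pd_mulf contDiff_const (sm_cmp hv i), Pool.Agent.TH305.DR.pd_const']
    ring
  funext i
  fin_cases i
  · show pd 1 (fun y => w y 2) x - pd 2 (fun y => w y 1) x
      = k * (pd 1 (fun y => v y 2) x - pd 2 (fun y => v y 1) x)
    rw [hp, hp]
    ring
  · show pd 2 (fun y => w y 0) x - pd 0 (fun y => w y 2) x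
      = k * (pd 2 (fun y => v y 0) x - pd 0 (fun y => v y 2) x)
    rw [hp, hp]
    ring
  · show pd 0 (fun y => w y 1) x - pd 1 (fun y => w y 0) x
      = k * (pd 0 (fun y => v y 1) x - pd 1 (fun y => v y 0) x)
    rw [hp, hp]
    ring

/-- The condition at a singular point. -/
def OneS (T : ℝ) (u : ℝ → V → V) (a : V) : Prop :=
  (∀ σ C δ : ℝ, |σ| = 1 → 0 < δ → ∃ t ∈ Ioo 0 T, T - δ < t ∧ ∃ x : V, ‖x - a‖ ≤ δ ∧ 0 < sg x ∧
    σ * circ (vort (u t)) x < -(C * sg x)) ∧
  ∀ C δ : ℝ, 0 < δ → ∃ t ∈ Ioo 0 T, T - δ < t ∧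
    C < ∫ x in closedBall a δ, |circ (vort (u t)) x| / sg x

/-- The theorem at a singular point, all viscosities. -/
theorem one_DS (hKer : StmKer) (hOsc : StmOsc) (hTr : StmTra) {ν T E : ℝ} {Ω : Set V}
    {u : ℝ → V → V} {p : ℝ → V → ℝ} (hν : 0 < ν) (h : DSl ν T E Ω u p)
    (hsm : ∀ t ∈ Ioo 0 T, ContDiff ℝ ∞ (u t)) (hax : ∀ t ∈ Ioo 0 T, Axi (u t))
    {a : V} (ha : a ∈ Ω) (ha0 : a 0 = 0) (ha1 : a 1 = 0) (hs : Sing T u a) : OneS T u a := by
  have hT := hs.pos
  have hae : a = ![0, 0, a 2] := by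
    funext i
    fin_cases i
    · exact ha0
    · exact ha1
    · rfl
  -- the main step
  have key : ∀ σ C δ : ℝ, 0 < δ → 0 ≤ C →
      ((|σ| = 1 ∧ ∀ t ∈ Ioo 0 T, T - δ < t → ∀ x : V, ‖x - a‖ ≤ δ → 0 < sg x →
        -(C * sg x) ≤ σ * circ (vort (u t)) x) ∨
      ∀ t ∈ Ioo 0 T, T - δ < t → ∫ x in closedBall a δ, |circ (vort (u t)) x| / sg x ≤ C) →
        False := by
    intro σ C δ hδ hC hcond
    obtain ⟨R', hR', hRR, hsub⟩ := small_ball h.openO ha hδ
    rw [hae] at hsub
    obtain ⟨E', v, pr, hL, hv⟩ := hTr ν T E Ω u p hν hT h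
      (fun t ht θ x _ _ => hax t ht θ x) (a 2) R' hR' hsub
    have hR2 : 0 < R' / 2 := by positivity
    have hνi : 0 < ν⁻¹ := inv_pos.2 hν
    have hCoB : Co (a 2) (R' / 2) (R' / 2) ⊆ closedBall a δ := by
      intro x hx
      rw [mem_closedBall, dist_eq_norm, hae]
      refine (norm_Co hR2.le hx).trans ?_
      rw [max_self]
      linarith
    obtain ⟨T₀, hT₀⟩ : ∃ T₀ : ℝ, T₀ = max 0 (T - δ) := ⟨_, rfl⟩
    have hT₀0 : 0 ≤ T₀ := by rw [hT₀]; exact le_max_left _ _
    have hT₀δ : T - δ ≤ T₀ := by rw [hT₀]; exact le_max_right _ _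
    have hT₀T : T₀ < T := by rw [hT₀]; exact max_lt hT (by linarith)
    have hst : ∀ s ∈ Ioo (ν * T₀) (ν * T), s / ν ∈ Ioo 0 T ∧ T - δ < s / ν ∧ ν * (s / ν) = s := by
      intro s hs
      have h1 : T₀ < s / ν := by rw [lt_div_iff₀ hν, mul_comm]; exact hs.1
      have h2 : s / ν < T := by rw [div_lt_iff₀ hν, mul_comm]; exact hs.2
      exact ⟨⟨hT₀0.trans_lt h1, h2⟩, hT₀δ.trans_lt h1, by field_simp⟩
    have hOO : ∀ s ∈ Ioo (ν * T₀) (ν * T), ∀ x ∈ Co (a 2) (R' / 2) (R' / 2), sg x ≠ 0 →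
        OO (v s) x = ν⁻¹ * (circ (vort (u (s / ν))) x / sg x) := by
      intro s hs x hx hsx
      obtain ⟨ht, -, hνs⟩ := hst s hs
      have hsI : s ∈ Ioo 0 (ν * T) := ⟨lt_of_le_of_lt (by positivity) hs.1, hs.2⟩
      have h1 : vort (v s) x = ν⁻¹ • vort (u (s / ν)) x :=
        vort_cm (Co_open _ _ _) (hsm _ ht) (fun y hy => by
          have := hv _ ht y hy
          rwa [hνs] at this) hx
      have h2 := circ_cm h1
      rw [circ_vort (Pool.Agent.Q285.AXI.slice hL.smooth_u hsI) (hL.axi s hsI)] at h2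
      field_simp
      field_simp at h2
      linarith
    have hreg : Rg (ν * T) v ![0, 0, a 2] := by
      refine mainO hKer hOsc (T₀ := ν * T₀) (C₁ := ν⁻¹ * C) (σ := σ) hR2 hR2 hL (by positivity)
        (mul_lt_mul_of_pos_left hT₀T hν) (by positivity) ?_
      rcases hcond with ⟨hσ, hc⟩ | hc
      · refine Or.inl ⟨hσ, fun s hs x hx hsx => ?_⟩
        obtain ⟨ht, htδ, -⟩ := hst s hs
        have hsp : 0 < sg x := lt_of_le_of_ne (sg_nn x) (Ne.symm hsx)
        have h1 := hc _ ht htδ x (by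
          have := hCoB hx
          rwa [mem_closedBall, dist_eq_norm] at this) hsp
        rw [hOO s hs x hx hsx]
        have h2 : -C ≤ σ * (circ (vort (u (s / ν))) x / sg x) := by
          rw [← mul_div_assoc, le_div_iff₀ hsp]
          linarith
        have h3 := mul_le_mul_of_nonneg_left h2 hνi.le
        linarith
      · refine Or.inr fun s hs => ?_
        obtain ⟨ht, htδ, -⟩ := hst s hs
        have h1 := hc _ ht htδ
        have hOs : Continuous (OO (u (s / ν))) := (p_Alg _ (hsm _ ht) (hax _ ht)).1.2.2.2.continuous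
        have e1 : ∫ x in Co (a 2) (R' / 2) (R' / 2), |OO (v s) x|
            = ν⁻¹ * ∫ x in Co (a 2) (R' / 2) (R' / 2), |circ (vort (u (s / ν))) x| / sg x := by
          rw [← integral_const_mul]
          refine setIntegral_congr_ae (Co_meas _ _ _) ?_
          filter_upwards [Pool.Agent.Q175.AX.axis_ae] with x hx0 hx
          rw [hOO s hs x hx hx0, abs_mul, abs_of_pos hνi, abs_div, abs_of_nonneg (sg_nn x)]
        rw [e1]
        refine mul_le_mul_of_nonneg_left (le_trans ?_ h1) hνi.le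
        have i1 : IntegrableOn (fun x => |circ (vort (u (s / ν))) x| / sg x)
            (closedBall a δ) := by
          have i2 : IntegrableOn (fun x => |OO (u (s / ν)) x|) (closedBall a δ) :=
            hOs.abs.continuousOn.integrableOn_compact (isCompact_closedBall _ _)
          refine i2.congr_fun_ae (ae_restrict_of_ae ?_)
          filter_upwards [Pool.Agent.Q175.AX.axis_ae] with x hx0
          have hsp : 0 < sg x := lt_of_le_of_ne (sg_nn x) (Ne.symm hx0)
          rw [circ_vort (hsm _ ht) (hax _ ht), abs_mul, abs_of_pos hsp]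
          field_simp
        refine setIntegral_mono_set i1 (Eventually.of_forall fun x => ?_) hCoB.eventuallyLE
        show 0 ≤ |circ (vort (u (s / ν))) x| / sg x
        exact div_nonneg (abs_nonneg _) (sg_nn x)
    have hb := backA hν hv (mem_Co_self hR2 hR2) hreg
    rw [← hae] at hb
    exact hs.not_bdd hb
  constructor
  · intro σ C δ hσ hδ
    by_contra hcon
    push Not at hcon
    refine key σ |C| δ hδ (abs_nonneg _) (Or.inl ⟨hσ, fun t ht htδ x hx hsx => ?_⟩)
    have h1 := hcon t ht htδ x hx hsx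
    have h2 : C * sg x ≤ |C| * sg x := mul_le_mul_of_nonneg_right (le_abs_self C) hsx.le
    linarith
  · intro C δ hδ
    by_contra hcon
    push Not at hcon
    exact key 1 |C| δ hδ (abs_nonneg _) (Or.inr fun t ht htδ =>
      (hcon t ht htδ).trans (le_abs_self C))

end Pool.Agent.V8H53.OW
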