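import Pool.Agent.V8H53.OW.MainP
import Pool.Agent.V8H53.OW.TraO

/-!
Project OW: all viscosities, the whole space; the production and the window.
-/

set_option autoImplicit false

open MeasureTheory Set Metric Filter Topology
open scoped ContDiff ENNReal
open H459R3.NS Pool.Agent.W268.NS Pool.Agent.Q67.VD

namespace Pool.Agent.V8H53.OW

open Pool.Agent.Q85.CC Pool.Agent.Q85.CL Pool.Agent.TH305.AX Pool.Agent.Q67.AXI
open Pool.Agent.V8Lead
open Pool.Agent.Q175.AX (Co_open Cy_compact Co_meas Co_fin Co_sub_Cy sg_nn sg_cd pd_ev sq_pd)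

/-! ### Upper integrals -/

lemma lint_scale {ν : ℝ} (hν : 0 < ν) (F : ℝ → ℝ≥0∞) :
    ∫⁻ s, F s = ENNReal.ofReal ν * ∫⁻ t, F (ν * t) := by
  have h1 := Real.smul_map_volume_mul_left hν.ne'
  have h2 : ∫⁻ s, F s ∂(Measure.map (fun x => ν * x) volume) = ∫⁻ t, F (ν * t) :=
    lintegral_map_equiv F (MeasurableEquiv.mulLeft₀ ν hν.ne')
  calc ∫⁻ s, F s = ∫⁻ s, F s ∂(ENNReal.ofReal |ν| • Measure.map (fun x => ν * x) volume) := by
        rw [h1]
    _ = _ := by rw [lintegral_smul_measure, h2, abs_of_pos hν, smul_eq_mul]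

lemma lint_scale' {ν T₀ T : ℝ} (hν : 0 < ν) (F : ℝ → ℝ≥0∞) :
    ∫⁻ s in Ioo (ν * T₀) (ν * T), F s = ENNReal.ofReal ν * ∫⁻ t in Ioo T₀ T, F (ν * t) := by
  rw [← lintegral_indicator measurableSet_Ioo, ← lintegral_indicator measurableSet_Ioo,
    lint_scale hν]
  congr 1
  refine lintegral_congr fun t => ?_
  have hiff : ν * t ∈ Ioo (ν * T₀) (ν * T) ↔ t ∈ Ioo T₀ T := by
    rw [mem_Ioo, mem_Ioo, mul_lt_mul_iff_right₀ hν, mul_lt_mul_iff_right₀ hν]
  by_cases h : t ∈ Ioo T₀ T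
  · rw [indicator_of_mem h, indicator_of_mem (hiff.2 h)]
  · rw [indicator_of_notMem h, indicator_of_notMem fun hh => h (hiff.1 hh)]

lemma set_le {S S' O : Set V} (hO : MeasurableSet O) {g g' : V → ℝ≥0∞} {k : ℝ≥0∞} (hk : k ≠ ⊤)
    (hSO : S ⊆ O) (h : ∀ x ∈ O, sg x ≠ 0 → x ∈ S → x ∈ S')
    (hg : ∀ x ∈ O, sg x ≠ 0 → g x = k * g' x) : ∫⁻ x in S, g x ≤ k * ∫⁻ x in S', g' x := by
  have hax := Pool.Agent.Q175.AX.axis_ae
  have h1 : S ≤ᵐ[volume] S' := by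
    filter_upwards [hax] with x hx hxS
    exact h x (hSO hxS) hx hxS
  have h2 : ∀ᵐ x ∂(volume.restrict S), g x = k * g' x := by
    refine ae_restrict_of_ae_restrict_of_subset hSO ?_
    filter_upwards [ae_restrict_of_ae hax, ae_restrict_mem hO] with x hx hxO
    exact hg x hxO hx
  rw [lintegral_congr_ae h2, lintegral_const_mul' _ _ hk]
  exact mul_le_mul_right (lintegral_mono_set' h1) k

lemma fin_scale {ν T₀ T : ℝ} (hν : 0 < ν) {F : ℝ → ℝ≥0∞} {G : ℝ → ℝ≥0∞} {k : ℝ≥0∞}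
    (hk : k ≠ ⊤) (hFG : ∀ t ∈ Ioo T₀ T, F (ν * t) ≤ k * G t)
    (hG : ∫⁻ t in Ioo T₀ T, G t ≠ ⊤) : ∫⁻ s in Ioo (ν * T₀) (ν * T), F s < ⊤ := by
  rw [lint_scale' hν]
  refine ENNReal.mul_lt_top ENNReal.ofReal_lt_top ?_
  refine lt_of_le_of_lt (setLIntegral_mono' measurableSet_Ioo hFG) ?_
  rw [lintegral_const_mul' _ _ hk]
  exact ENNReal.mul_lt_top hk.lt_top (lt_top_iff_ne_top.2 hG)

/-! ### The quantities of the field -/

lemma circ_WW {v : V → V} (hv : ContDiff ℝ ∞ v) (ha : Axi v) (x : V) : circ v x = sg x * WW v x := by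
  obtain ⟨-, -, -, hid⟩ := p_Alg v hv ha
  exact (hid x).2.2.2.2.2.2.2.2.1

/-- The production in terms of the circulation. -/
lemma prod_eq {O : Set V} (hO : IsOpen O) {v w : V → V} {k : ℝ} (hv : ContDiff ℝ ∞ v)
    (hav : Axi v) (haw : Axi w) (hw : ContDiff ℝ ∞ w) (h : ∀ x ∈ O, w x = k • v x)
    {x : V} (hx : x ∈ O) (hx0 : sg x ≠ 0) :
    OO w x = k * (circ (vort v) x / sg x) ∧ WW w x = k * (circ v x / sg x) ∧
      2 * WW w x * JJ w x = -(k ^ 2 * pd 2 (fun y => (circ v y / sg y) ^ 2) x) := by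
  obtain ⟨⟨-, sW, -, -⟩, -, -, hid⟩ := p_Alg w hw haw
  have hW : ∀ y ∈ O, sg y ≠ 0 → WW w y = k * (circ v y / sg y) := by
    intro y hy hy0
    have h1 := circ_cm (h y hy)
    rw [circ_WW hw haw] at h1
    field_simp
    linarith
  refine ⟨?_, hW x hx hx0, ?_⟩
  · have h1 : vort w x = k • vort v x := vort_cm hO hv h hx
    have h2 := circ_cm h1
    rw [circ_vort hw haw] at h2
    field_simp
    linarith
  · have h3 : (fun y => WW w y ^ 2) =ᶠ[𝓝 x] fun y => k ^ 2 * (circ v y / sg y) ^ 2 := by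
      have o1 : IsOpen {y : V | sg y ≠ 0} := isOpen_ne_fun sg_cd.continuous continuous_const
      filter_upwards [hO.mem_nhds hx, o1.mem_nhds hx0] with y hy hy0
      rw [hW y hy hy0]
      ring
    have h4 : pd 2 (fun y => WW w y ^ 2) x = 2 * WW w x * pd 2 (WW w) x := by
      rw [sq_pd sW]
    have h5 : pd 2 (fun y => k ^ 2 * (circ v y / sg y) ^ 2) x
        = k ^ 2 * pd 2 (fun y => (circ v y / sg y) ^ 2) x := by
      have sWv : ContDiff ℝ ∞ (WW v) := (p_Alg v hv hav).1.2.1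
      have e : circ v = fun y => sg y * WW v y := funext (circ_WW hv hav)
      have d0 : DifferentiableAt ℝ (circ v) x := by
        rw [e]
        exact ((sg_cd.mul sWv).differentiable (by simp)) x
      have d1 : DifferentiableAt ℝ (fun y => (circ v y / sg y) ^ 2) x := by
        simp only [div_eq_mul_inv]
        exact (d0.mul (((sg_cd.differentiable (by simp)) x).inv hx0)).pow 2
      unfold pd
      rw [fderiv_const_mul d1]
      rfl
    rw [pd_ev h3 2, h5] at h4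
    rw [(hid x).2.2.2.2.2.1]
    linarith

/-! ### The theorem -/

/-- The conditions at a singular point. -/
def ProdS (ν T : ℝ) (u : ℝ → V → V) (a : V) : Prop :=
  (∀ C c₁ c₂ b T₀ R : ℝ, c₁ < c₂ → 0 ≤ b → b < 1 → 0 ≤ T₀ → T₀ < T → 0 < R →
    ∫⁻ t in Ioo T₀ T, ∫⁻ x in {x | x ∈ closedBall a R ∧
      circ (vort (u t)) x / sg x - C * (sg x + ν * (T - t)) ^ (-b) ∈ Ioo c₁ c₂},
      ENNReal.ofReal ((circ (u t) x / sg x) ^ 4) = ⊤) ∧
  (∀ s C b T₀ R : ℝ, |s| = 1 → 0 ≤ b → b < 1 → 0 ≤ T₀ → T₀ < T → 0 < R →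
    ∫⁻ t in Ioo T₀ T, ∫⁻ x in {x | x ∈ closedBall a R ∧
      C * (sg x + ν * (T - t)) ^ (-b) < s * (circ (vort (u t)) x / sg x)},
      ENNReal.ofReal (s * pd 2 (fun y => (circ (u t) y / sg y) ^ 2) x) = ⊤) ∧
  ∀ C T₀ R : ℝ, 0 ≤ T₀ → T₀ < T → 0 < R → ∃ t ∈ Ioo T₀ T,
    C < ∫ x in closedBall a R, |circ (vort (u t)) x| / sg x

/-- The scaled field near a singular point. -/
lemma sing_key (hKer : StmKer) (hOsc : StmOsc) (hTr : StmTra) {ν T E T₀ R : ℝ} {Ω : Set V}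
    {u : ℝ → V → V} {p : ℝ → V → ℝ} (hν : 0 < ν) (h : DSl ν T E Ω u p)
    (hax : ∀ t ∈ Ioo 0 T, Axi (u t))
    {a : V} (ha : a ∈ Ω) (ha0 : a 0 = 0) (ha1 : a 1 = 0) (hs : Sing T u a) (hT₀0 : 0 ≤ T₀)
    (hT₀ : T₀ < T) (hR : 0 < R) : ∃ (R' : ℝ) (v : ℝ → V → V), 0 < R' ∧
      Co (a 2) R' R' ⊆ closedBall a R ∧
      (∀ s ∈ Ioo 0 (ν * T), ContDiff ℝ ∞ (v s) ∧ Axi (v s)) ∧
      (∀ t ∈ Ioo 0 T, ∀ x ∈ Co (a 2) R' R', v (ν * t) x = ν⁻¹ • u t x) ∧
      ∀ σ C C₁ b : ℝ, ¬((σ ≠ 0 ∧ 0 ≤ C ∧ 0 ≤ b ∧ b < 1 ∧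
        CondP (ν * T) (ν * T₀) σ C C₁ b (Co (a 2) R' R') v) ∨
        ∀ s ∈ Ioo (ν * T₀) (ν * T), ∫ x in Co (a 2) R' R', |OO (v s) x| ≤ C₁) := by
  have hT := hs.pos
  have hae : a = ![0, 0, a 2] := by
    funext i
    fin_cases i
    · exact ha0
    · exact ha1
    · rfl
  obtain ⟨R', hR', hRR, hsub⟩ := small_ball h.openO ha hR
  rw [hae] at hsub
  obtain ⟨E', v, pr, hL, hv⟩ := hTr ν T E Ω u p hν hT h
    (fun t ht θ x _ _ => hax t ht θ x) (a 2) R' hR' hsub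
  have hR2 : 0 < R' / 2 := by positivity
  refine ⟨R' / 2, v, hR2, ?_, fun s hs => ⟨Pool.Agent.Q285.AXI.slice hL.smooth_u hs,
    hL.axi s hs⟩, hv, fun σ C C₁ b hcond => ?_⟩
  · intro x hx
    rw [mem_closedBall, dist_eq_norm, hae]
    refine (norm_Co hR2.le hx).trans ?_
    rw [max_self]
    linarith
  · have hreg : Rg (ν * T) v ![0, 0, a 2] :=
      mainP hKer hOsc (T₀ := ν * T₀) (C := C) (C₁ := C₁) (b := b) (σ := σ) hR2 hR2 hL
        (by positivity) (mul_lt_mul_of_pos_left hT₀ hν) hcond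
    have hb := backA hν hv (mem_Co_self hR2 hR2) hreg
    rw [← hae] at hb
    exact hs.not_bdd hb

/-- The theorem at a singular point, all viscosities. -/
theorem prod_DS (hKer : StmKer) (hOsc : StmOsc) (hTr : StmTra) {ν T E : ℝ} {Ω : Set V}
    {u : ℝ → V → V} {p : ℝ → V → ℝ} (hν : 0 < ν) (h : DSl ν T E Ω u p)
    (hsm : ∀ t ∈ Ioo 0 T, ContDiff ℝ ∞ (u t)) (hax : ∀ t ∈ Ioo 0 T, Axi (u t))
    {a : V} (ha : a ∈ Ω) (ha0 : a 0 = 0) (ha1 : a 1 = 0) (hs : Sing T u a) :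
    ProdS ν T u a := by
  have hνi : 0 < ν⁻¹ := inv_pos.2 hν
  -- the pointwise formulas
  have hform : ∀ {R' : ℝ} {v : ℝ → V → V} (_ : ∀ s ∈ Ioo 0 (ν * T), ContDiff ℝ ∞ (v s) ∧ Axi (v s))
      (_ : ∀ t ∈ Ioo 0 T, ∀ x ∈ Co (a 2) R' R', v (ν * t) x = ν⁻¹ • u t x),
      ∀ t ∈ Ioo 0 T, ∀ x ∈ Co (a 2) R' R', sg x ≠ 0 →
      OO (v (ν * t)) x = ν⁻¹ * (circ (vort (u t)) x / sg x) ∧
      WW (v (ν * t)) x = ν⁻¹ * (circ (u t) x / sg x) ∧
      2 * WW (v (ν * t)) x * JJ (v (ν * t)) x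
        = -(ν⁻¹ ^ 2 * pd 2 (fun y => (circ (u t) y / sg y) ^ 2) x) := by
    intro R' v hva hv t ht x hx hx0
    have hst : ν * t ∈ Ioo 0 (ν * T) :=
      ⟨mul_pos hν ht.1, mul_lt_mul_of_pos_left ht.2 hν⟩
    exact prod_eq (Co_open _ _ _) (hsm t ht) (hax t ht) (hva _ hst).2 (hva _ hst).1 (hv t ht) hx hx0
  have hTt : ∀ t : ℝ, ν * T - ν * t = ν * (T - t) := fun t => by ring
  refine ⟨?_, ?_, ?_⟩
  · -- the window
    intro C c₁ c₂ b T₀ R hc hb0 hb1 hT₀0 hT₀ hR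
    by_contra hcon
    obtain ⟨R', v, hR', hsub, hva, hv, hkey⟩ := sing_key hKer hOsc hTr hν h hax ha ha0 ha1 hs
      hT₀0 hT₀ hR
    have hF := hform hva hv
    obtain ⟨Δ, hΔ⟩ : ∃ Δ : ℝ, Δ = c₂ - c₁ := ⟨_, rfl⟩
    have hΔ0 : 0 < Δ := by rw [hΔ]; linarith
    have hmain : ∀ σ C' C₁ : ℝ, (∀ o X : ℝ, σ * (ν⁻¹ * o) + (C' * X + C₁) ∈ Ioo (-1) 0 →
        o - C * X ∈ Ioo c₁ c₂) → CondP (ν * T) (ν * T₀) σ C' C₁ b (Co (a 2) R' R') v := by
      intro σ C' C₁ hw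
      right
      refine fin_scale hν (k := ENNReal.ofReal (ν⁻¹ ^ 4)) ENNReal.ofReal_ne_top
        (fun t ht => ?_) hcon
      have htI : t ∈ Ioo 0 T := ⟨hT₀0.trans_lt ht.1, ht.2⟩
      refine set_le (O := Co (a 2) R' R') (Co_meas _ _ _) ENNReal.ofReal_ne_top (fun x hx => hx.1)
        (fun x hx hx0 hxS => ?_) fun x hx hx0 => ?_
      · refine ⟨hsub hx, hw _ _ ?_⟩
        have h1 := hxS.2
        rw [(hF t htI x hx hx0).1, hTt] at h1
        exact h1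
      · rw [(hF t htI x hx hx0).2.1, ← ENNReal.ofReal_mul (by positivity), mul_pow]
    rcases le_or_gt 0 C with hC | hC
    · refine hkey (-(ν / Δ)) (C / Δ) (c₁ / Δ) b (Or.inl ⟨neg_ne_zero.2 (by positivity),
        by positivity, hb0, hb1, hmain _ _ _ fun o X hq => ?_⟩)
      have e : -(ν / Δ) * (ν⁻¹ * o) + (C / Δ * X + c₁ / Δ) = -((o - C * X - c₁) / Δ) := by
        field_simp
        ring
      rw [e] at hq
      have h1 : 0 < (o - C * X - c₁) / Δ := by linarith [hq.2]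
      have h2 : (o - C * X - c₁) / Δ < 1 := by linarith [hq.1]
      rw [div_pos_iff_of_pos_right hΔ0] at h1
      rw [div_lt_one hΔ0] at h2
      exact ⟨by linarith, by linarith⟩
    · refine hkey (ν / Δ) (-C / Δ) (-c₂ / Δ) b (Or.inl ⟨by positivity,
        div_nonneg (by linarith) hΔ0.le, hb0, hb1, hmain _ _ _ fun o X hq => ?_⟩)
      have e : ν / Δ * (ν⁻¹ * o) + (-C / Δ * X + -c₂ / Δ) = (o - C * X - c₂) / Δ := by
        field_simp
        ring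
      rw [e] at hq
      have h1 : (o - C * X - c₂) / Δ < 0 := hq.2
      have h2 : -1 < (o - C * X - c₂) / Δ := hq.1
      rw [div_lt_iff₀ hΔ0] at h1
      rw [lt_div_iff₀ hΔ0] at h2
      exact ⟨by linarith, by linarith⟩
  · -- the production
    intro s C b T₀ R hs1 hb0 hb1 hT₀0 hT₀ hR
    by_contra hcon
    obtain ⟨R', v, hR', hsub, hva, hv, hkey⟩ := sing_key hKer hOsc hTr hν h hax ha ha0 ha1 hs
      hT₀0 hT₀ hR
    have hF := hform hva hv
    have hs0 : s ≠ 0 := fun h0 => by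
      rw [h0] at hs1
      simp at hs1
    refine hkey (-(s * ν)) |C| 0 b (Or.inl ⟨neg_ne_zero.2 (mul_ne_zero hs0 hν.ne'), abs_nonneg _,
      hb0, hb1, Or.inl ?_⟩)
    refine fin_scale hν (k := ENNReal.ofReal ν⁻¹) ENNReal.ofReal_ne_top (fun t ht => ?_) hcon
    have htI : t ∈ Ioo 0 T := ⟨hT₀0.trans_lt ht.1, ht.2⟩
    refine set_le (O := Co (a 2) R' R') (Co_meas _ _ _) ENNReal.ofReal_ne_top (fun x hx => hx.1)
      (fun x hx hx0 hxS => ?_) fun x hx hx0 => ?_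
    · refine ⟨hsub hx, ?_⟩
      have h1 := hxS.2
      rw [(hF t htI x hx hx0).1, hTt] at h1
      have hX : 0 ≤ (sg x + ν * (T - t)) ^ (-b) :=
        Real.rpow_nonneg (thr_pos (mul_pos hν (by linarith [ht.2])) x).le _
      have h2 := mul_le_mul_of_nonneg_right (le_abs_self C) hX
      have e : -(s * ν) * (ν⁻¹ * (circ (vort (u t)) x / sg x))
          = -(s * (circ (vort (u t)) x / sg x)) := by
        field_simp
      rw [e] at h1
      linarith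
    · have e : -(s * ν) * (2 * WW (v (ν * t)) x * JJ (v (ν * t)) x)
          = ν⁻¹ * (s * pd 2 (fun y => (circ (u t) y / sg y) ^ 2) x) := by
        rw [(hF t htI x hx hx0).2.2]
        field_simp
      rw [e, ENNReal.ofReal_mul hνi.le]
  · -- the integral
    intro C T₀ R hT₀0 hT₀ hR
    by_contra hcon
    push Not at hcon
    obtain ⟨R', v, hR', hsub, hva, hv, hkey⟩ := sing_key hKer hOsc hTr hν h hax ha ha0 ha1 hs
      hT₀0 hT₀ hR
    have hF := hform hva hv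
    refine hkey 1 1 (ν⁻¹ * C) 0 (Or.inr fun s hsI => ?_)
    obtain ⟨t, rfl⟩ : ∃ t, s = ν * t := ⟨s / ν, by field_simp⟩
    have ht : t ∈ Ioo T₀ T := by
      have h1 := (mul_lt_mul_iff_right₀ hν).1 hsI.1
      have h2 := (mul_lt_mul_iff_right₀ hν).1 hsI.2
      exact ⟨h1, h2⟩
    have htI : t ∈ Ioo 0 T := ⟨hT₀0.trans_lt ht.1, ht.2⟩
    have h1 := hcon t ht
    have hOs : Continuous (OO (u t)) := (p_Alg _ (hsm _ htI) (hax _ htI)).1.2.2.2.continuous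
    have e1 : ∫ x in Co (a 2) R' R', |OO (v (ν * t)) x|
        = ν⁻¹ * ∫ x in Co (a 2) R' R', |circ (vort (u t)) x| / sg x := by
      rw [← integral_const_mul]
      refine setIntegral_congr_ae (Co_meas _ _ _) ?_
      filter_upwards [Pool.Agent.Q175.AX.axis_ae] with x hx0 hx
      rw [(hF t htI x hx hx0).1, abs_mul, abs_of_pos hνi, abs_div, abs_of_nonneg (sg_nn x)]
    rw [e1]
    refine mul_le_mul_of_nonneg_left (le_trans ?_ h1) hνi.le
    have i1 : IntegrableOn (fun x => |circ (vort (u t)) x| / sg x) (closedBall a R) := by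
      have i2 : IntegrableOn (fun x => |OO (u t) x|) (closedBall a R) :=
        hOs.abs.continuousOn.integrableOn_compact (isCompact_closedBall _ _)
      refine i2.congr_fun_ae (ae_restrict_of_ae ?_)
      filter_upwards [Pool.Agent.Q175.AX.axis_ae] with x hx0
      have hsp : 0 < sg x := lt_of_le_of_ne (sg_nn x) (Ne.symm hx0)
      rw [circ_vort (hsm _ htI) (hax _ htI), abs_mul, abs_of_pos hsp]
      field_simp
    refine setIntegral_mono_set i1 (Eventually.of_forall fun x => ?_) hsub.eventuallyLE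
    show 0 ≤ |circ (vort (u t)) x| / sg x
    exact div_nonneg (abs_nonneg _) (sg_nn x)

end Pool.Agent.V8H53.OW
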