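import Pool.Agent.V8H53.OW.MainL
import Pool.Agent.V8H53.OW.TraP

/-!
Project OW: all viscosities, the whole space; the production and the window.
-/

set_option autoImplicit false

open MeasureTheory Set Metric Filter Topology
open scoped ContDiff ENNReal
open H459R3.NS Pool.Agent.W268.NS Pool.Agent.Q67.VD

namespace Pool.Agent.V8H53.OW

open Pool.Agent.Q85.CC Pool.Agent.Q85.CL Pool.Agent.TH305.AX Pool.Agent.Q67.AXI
open Pool.Agent.V8Lead
open Pool.Agent.W583.MD (sm_pd)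
open Pool.Agent.TH305.DR (pd_add' pd_const')
open Pool.Agent.Q175.AX (Co_open Cy_compact Co_meas Co_fin Co_sub_Cy sg_nn sg_cd pd_ev sq_pd)

/-- The excess of `ω_θ / ρ` over the threshold. -/
noncomputable def exc (ν T C b d c : ℝ) (u : ℝ → V → V) (t : ℝ) (x : V) : ℝ :=
  circ (vort (u t)) x / sg x - C * (X2 c (ν * (T - t)) x ^ (-d) + (sg x + ν * (T - t)) ^ (-b))

/-- The conditions at a singular point. -/
def ProdQ (ν T : ℝ) (u : ℝ → V → V) (a : V) : Prop :=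
  (∀ C c₁ c₂ b d T₀ R : ℝ, c₁ < c₂ → 0 ≤ b → b < 1 → 0 ≤ d → d < 5 / 4 → 0 ≤ T₀ → T₀ < T →
    0 < R → ∫⁻ t in Ioo T₀ T, ∫⁻ x in {x | x ∈ closedBall a R ∧
      exc ν T C b d (a 2) u t x ∈ Ioo c₁ c₂},
      ENNReal.ofReal (-pd 2 (exc ν T C b d (a 2) u t) x *
        (ν * pd 2 (exc ν T C b d (a 2) u t) x + (circ (u t) x / sg x) ^ 2)) = ⊤) ∧
  (∀ s C b d T₀ R : ℝ, |s| = 1 → 0 ≤ b → b < 1 → 0 ≤ d → d < 5 / 4 → 0 ≤ T₀ → T₀ < T →
    0 < R → ∫⁻ t in Ioo T₀ T, ∫⁻ x in {x | x ∈ closedBall a R ∧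
      C * (X2 (a 2) (ν * (T - t)) x ^ (-d) + (sg x + ν * (T - t)) ^ (-b))
        < s * (circ (vort (u t)) x / sg x)},
      ENNReal.ofReal (s * pd 2 (fun y => (circ (u t) y / sg y) ^ 2) x) = ⊤) ∧
  ∀ C T₀ R : ℝ, 0 ≤ T₀ → T₀ < T → 0 < R → ∃ t ∈ Ioo T₀ T,
    C < ∫ x in closedBall a R, |circ (vort (u t)) x| / sg x

/-- The scaled field near a singular point. -/
lemma sing_keyQ (hKer : StmKer) (hOsc : StmOsc) (hThr : StmThr2) (hMass : StmMass)
    (hHar : StmHar2) (hTr : StmTra) {ν T E T₀ R : ℝ} {Ω : Set V}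
    {u : ℝ → V → V} {p : ℝ → V → ℝ} (hν : 0 < ν) (h : DSl ν T E Ω u p)
    (hax : ∀ t ∈ Ioo 0 T, Axi (u t))
    {a : V} (ha : a ∈ Ω) (ha0 : a 0 = 0) (ha1 : a 1 = 0) (hs : Sing T u a) (hT₀0 : 0 ≤ T₀)
    (hT₀ : T₀ < T) (hR : 0 < R) : ∃ (R' : ℝ) (v : ℝ → V → V), 0 < R' ∧
      Co (a 2) R' R' ⊆ closedBall a R ∧
      (∀ s ∈ Ioo 0 (ν * T), ContDiff ℝ ∞ (v s) ∧ Axi (v s)) ∧
      (∀ t ∈ Ioo 0 T, ∀ x ∈ Co (a 2) R' R', v (ν * t) x = ν⁻¹ • u t x) ∧
      (∀ σ C C₁ b d : ℝ, σ ≠ 0 → 0 ≤ C → 0 ≤ b → b < 1 → 0 ≤ d → d < 5 / 4 →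
        ¬CondQ (ν * T) (ν * T₀) σ C C₁ b d (a 2) (Co (a 2) R' R') v) ∧
      ∀ C₁ : ℝ, ¬∀ s ∈ Ioo (ν * T₀) (ν * T), ∫ x in Co (a 2) R' R', |OO (v s) x| ≤ C₁ := by
  have hT := hs.pos
  have hae : a = ![0, 0, a 2] := by
    funext i
    fin_cases i
    · exact ha0
    · exact ha1
    · rfl
  obtain ⟨R', hR', hRR, hsub⟩ := small_ball h.openO ha hR
  rw [hae] at hsub
  obtain ⟨E', v, pr, hL, hv⟩ := hTr ν T E Ω u p hν hT h
    (fun t ht θ x _ _ => hax t ht θ x) (a 2) R' hR' hsub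
  have hR2 : 0 < R' / 2 := by positivity
  have key : L1B (ν * T) (ν * T₀) (a 2) (R' / 2) (R' / 2) v → False := by
    intro hLB
    have hreg : Rg (ν * T) v ![0, 0, a 2] :=
      mainL hKer hOsc (T₀ := ν * T₀) hR2 hR2 hL (by positivity)
        (mul_lt_mul_of_pos_left hT₀ hν) hLB
    have hb := backA hν hv (mem_Co_self hR2 hR2) hreg
    rw [← hae] at hb
    exact hs.not_bdd hb
  refine ⟨R' / 2, v, hR2, ?_, fun s hs => ⟨Pool.Agent.Q285.AXI.slice hL.smooth_u hs,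
    hL.axi s hs⟩, hv, fun σ C C₁ b d hσ hC hb0 hb1 hd0 hd1 hcond =>
      key (L1B_Q hThr hMass hHar hL hσ hC hb0 hb1 hd0 hd1 hcond),
    fun C₁ hcond => key (L1B_int hR2 hL hcond)⟩
  intro x hx
  rw [mem_closedBall, dist_eq_norm, hae]
  refine (norm_Co hR2.le hx).trans ?_
  rw [max_self]
  linarith

/-- The theorem at a singular point, all viscosities. -/
theorem prod_DQ (hKer : StmKer) (hOsc : StmOsc) (hThr : StmThr2) (hMass : StmMass)
    (hHar : StmHar2) (hTr : StmTra) {ν T E : ℝ} {Ω : Set V}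
    {u : ℝ → V → V} {p : ℝ → V → ℝ} (hν : 0 < ν) (h : DSl ν T E Ω u p)
    (hsm : ∀ t ∈ Ioo 0 T, ContDiff ℝ ∞ (u t)) (hax : ∀ t ∈ Ioo 0 T, Axi (u t))
    {a : V} (ha : a ∈ Ω) (ha0 : a 0 = 0) (ha1 : a 1 = 0) (hs : Sing T u a) :
    ProdQ ν T u a := by
  have hνi : 0 < ν⁻¹ := inv_pos.2 hν
  -- the pointwise formulas
  have hst : ∀ t ∈ Ioo 0 T, ν * t ∈ Ioo 0 (ν * T) := fun t ht =>
    ⟨mul_pos hν ht.1, mul_lt_mul_of_pos_left ht.2 hν⟩
  have hform : ∀ {R' : ℝ} {v : ℝ → V → V} (_ : ∀ s ∈ Ioo 0 (ν * T), ContDiff ℝ ∞ (v s) ∧ Axi (v s))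
      (_ : ∀ t ∈ Ioo 0 T, ∀ x ∈ Co (a 2) R' R', v (ν * t) x = ν⁻¹ • u t x),
      ∀ t ∈ Ioo 0 T, ∀ x ∈ Co (a 2) R' R', sg x ≠ 0 →
      OO (v (ν * t)) x = ν⁻¹ * (circ (vort (u t)) x / sg x) ∧
      WW (v (ν * t)) x = ν⁻¹ * (circ (u t) x / sg x) ∧
      2 * WW (v (ν * t)) x * JJ (v (ν * t)) x
        = -(ν⁻¹ ^ 2 * pd 2 (fun y => (circ (u t) y / sg y) ^ 2) x) := by
    intro R' v hva hv t ht x hx hx0
    exact prod_eq (Co_open _ _ _) (hsm t ht) (hax t ht) (hva _ (hst t ht)).2 (hva _ (hst t ht)).1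
      (hv t ht) hx hx0
  have hTt : ∀ t : ℝ, ν * T - ν * t = ν * (T - t) := fun t => by ring
  refine ⟨?_, ?_, ?_⟩
  · -- the window
    intro C c₁ c₂ b d T₀ R hc hb0 hb1 hd0 hd1 hT₀0 hT₀ hR
    by_contra hcon
    obtain ⟨R', v, hR', hsub, hva, hv, hkey, -⟩ := sing_keyQ hKer hOsc hThr hMass hHar hTr hν h hax
      ha ha0 ha1 hs hT₀0 hT₀ hR
    have hF := hform hva hv
    obtain ⟨Δ, hΔ⟩ : ∃ Δ : ℝ, Δ = c₂ - c₁ := ⟨_, rfl⟩
    have hΔ0 : 0 < Δ := by rw [hΔ]; linarith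
    -- `q = k * exc + l` off the axis
    have hmain : ∀ σ C' C₁ k l : ℝ, |k| = Δ⁻¹ → σ = k * ν → C' = -(k * C) → C₁ = l →
        (∀ o : ℝ, k * o + l ∈ Ioo (-1) 0 → o ∈ Ioo c₁ c₂) →
        CondQ (ν * T) (ν * T₀) σ C' C₁ b d (a 2) (Co (a 2) R' R') v := by
      intro σ C' C₁ k l hk hσ hC' hC₁ hw
      right
      have hk2 : k ^ 2 = Δ⁻¹ ^ 2 := by rw [← sq_abs, hk]
      have hk0 : k ≠ 0 := fun h0 => by
        rw [h0, abs_zero] at hk
        exact absurd hk.symm (inv_pos.2 hΔ0).ne'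
      refine fin_scale hν (k := ENNReal.ofReal (Δ⁻¹ ^ 2 * ν⁻¹)) ENNReal.ofReal_ne_top
        (fun t ht => ?_) hcon
      have htI : t ∈ Ioo 0 T := ⟨hT₀0.trans_lt ht.1, ht.2⟩
      have hqe : ∀ x ∈ Co (a 2) R' R', sg x ≠ 0 →
          qq (ν * T) σ C' C₁ b d (a 2) v (ν * t) x = k * exc ν T C b d (a 2) u t x + l := by
        intro x hx hx0
        unfold qq thr exc
        rw [(hF t htI x hx hx0).1, hTt, hσ, hC', hC₁]
        field_simp
        ring
      have hqs : ContDiff ℝ ∞ (qq (ν * T) σ C' C₁ b d (a 2) v (ν * t)) := by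
        have hp : 0 < ν * T - ν * t := by
          rw [hTt]
          exact mul_pos hν (by linarith [ht.2])
        have g1 := (p_Alg _ (hva _ (hst t htI)).1 (hva _ (hst t htI)).2).1.2.2.2
        have g2 : ContDiff ℝ ∞ (fun x => X2 (a 2) (ν * T - ν * t) x ^ (-d)) :=
          (X2_cd _ _).rpow_const_of_ne fun x => (X2_pos hp x).ne'
        have g3 := thr_sm hp (-b)
        unfold qq thr
        exact (contDiff_const.mul g1).add (((contDiff_const.mul g2).add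
          (contDiff_const.mul g3)).add contDiff_const)
      have hpq : ∀ x ∈ Co (a 2) R' R', sg x ≠ 0 →
          pd 2 (qq (ν * T) σ C' C₁ b d (a 2) v (ν * t)) x
            = k * pd 2 (exc ν T C b d (a 2) u t) x := by
        intro x hx hx0
        have o1 : IsOpen {y : V | sg y ≠ 0} := isOpen_ne_fun sg_cd.continuous continuous_const
        have h3 : exc ν T C b d (a 2) u t =ᶠ[𝓝 x]
            fun y => k⁻¹ * qq (ν * T) σ C' C₁ b d (a 2) v (ν * t) y + (fun _ => -(k⁻¹ * l)) y := by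
          filter_upwards [(Co_open _ _ _).mem_nhds hx, o1.mem_nhds hx0] with y hy hy0
          rw [hqe y hy hy0]
          field_simp
          ring
        have h4 : pd 2 (fun y => k⁻¹ * qq (ν * T) σ C' C₁ b d (a 2) v (ν * t) y
            + (fun _ => -(k⁻¹ * l)) y) x
            = k⁻¹ * pd 2 (qq (ν * T) σ C' C₁ b d (a 2) v (ν * t)) x := by
          rw [pd_add' (contDiff_const.mul hqs) contDiff_const, pd_const']
          beta_reduce
          rw [pd_mulf contDiff_const hqs, pd_const']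
          ring
        rw [pd_ev h3 2, h4]
        field_simp
      refine set_le (O := Co (a 2) R' R') (Co_meas _ _ _) ENNReal.ofReal_ne_top (fun x hx => hx.1)
        (fun x hx hx0 hxS => ?_) fun x hx hx0 => ?_
      · refine ⟨hsub hx, hw _ ?_⟩
        have h1 := hxS.2
        rw [hqe x hx hx0] at h1
        exact h1
      · rw [hpq x hx hx0, (hF t htI x hx hx0).2.1, ← ENNReal.ofReal_mul (by positivity)]
        congr 1
        rw [hσ, ← hk2]
        field_simp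
    have hkΔ : 0 < Δ⁻¹ := inv_pos.2 hΔ0
    rcases le_or_gt 0 C with hC | hC
    · refine hkey (-Δ⁻¹ * ν) (-(-Δ⁻¹ * C)) (c₁ / Δ) b d
        (mul_ne_zero (neg_ne_zero.2 hkΔ.ne') hν.ne') (by
          rw [neg_mul, neg_neg]
          positivity) hb0 hb1 hd0 hd1
        (hmain _ _ _ (-Δ⁻¹) (c₁ / Δ) (by rw [abs_neg, abs_of_pos hkΔ]) rfl rfl rfl fun o hq => ?_)
      have e : -Δ⁻¹ * o + c₁ / Δ = -((o - c₁) / Δ) := by
        field_simp
        ring
      rw [e] at hq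
      have h1 : 0 < (o - c₁) / Δ := by linarith [hq.2]
      have h2 : (o - c₁) / Δ < 1 := by linarith [hq.1]
      rw [div_pos_iff_of_pos_right hΔ0] at h1
      rw [div_lt_one hΔ0] at h2
      exact ⟨by linarith, by linarith⟩
    · refine hkey (Δ⁻¹ * ν) (-(Δ⁻¹ * C)) (-(c₂ / Δ)) b d
        (mul_ne_zero hkΔ.ne' hν.ne') (by
          have : 0 ≤ Δ⁻¹ * -C := mul_nonneg hkΔ.le (by linarith)
          linarith) hb0 hb1 hd0 hd1
        (hmain _ _ _ Δ⁻¹ (-(c₂ / Δ)) (abs_of_pos hkΔ) rfl rfl rfl fun o hq => ?_)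
      have e : Δ⁻¹ * o + -(c₂ / Δ) = (o - c₂) / Δ := by
        field_simp
        ring
      rw [e] at hq
      have h1 : (o - c₂) / Δ < 0 := hq.2
      have h2 : -1 < (o - c₂) / Δ := hq.1
      rw [div_lt_iff₀ hΔ0] at h1
      rw [lt_div_iff₀ hΔ0] at h2
      exact ⟨by linarith, by linarith⟩
  · -- the production
    intro s C b d T₀ R hs1 hb0 hb1 hd0 hd1 hT₀0 hT₀ hR
    by_contra hcon
    obtain ⟨R', v, hR', hsub, hva, hv, hkey, -⟩ := sing_keyQ hKer hOsc hThr hMass hHar hTr hν h hax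
      ha ha0 ha1 hs hT₀0 hT₀ hR
    have hF := hform hva hv
    have hs0 : s ≠ 0 := fun h0 => by
      rw [h0] at hs1
      simp at hs1
    refine hkey (-(s * ν)) |C| 0 b d (neg_ne_zero.2 (mul_ne_zero hs0 hν.ne')) (abs_nonneg _)
      hb0 hb1 hd0 hd1 (Or.inl ?_)
    refine fin_scale hν (k := ENNReal.ofReal ν⁻¹) ENNReal.ofReal_ne_top (fun t ht => ?_) hcon
    have htI : t ∈ Ioo 0 T := ⟨hT₀0.trans_lt ht.1, ht.2⟩
    refine set_le (O := Co (a 2) R' R') (Co_meas _ _ _) ENNReal.ofReal_ne_top (fun x hx => hx.1)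
      (fun x hx hx0 hxS => ?_) fun x hx hx0 => ?_
    · refine ⟨hsub hx, ?_⟩
      have h1 := hxS.2
      unfold qq thr at h1
      rw [(hF t htI x hx hx0).1, hTt] at h1
      have hp : 0 < ν * (T - t) := mul_pos hν (by linarith [ht.2])
      have hX : 0 ≤ (sg x + ν * (T - t)) ^ (-b) := Real.rpow_nonneg (thr_pos hp x).le _
      have hX' : 0 ≤ X2 (a 2) (ν * (T - t)) x ^ (-d) := Real.rpow_nonneg (X2_pos hp x).le _
      have h2 := mul_le_mul_of_nonneg_right (le_abs_self C) (add_nonneg hX' hX)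
      have e : -(s * ν) * (ν⁻¹ * (circ (vort (u t)) x / sg x))
          = -(s * (circ (vort (u t)) x / sg x)) := by
        field_simp
      rw [e] at h1
      linarith
    · have e : -(s * ν) * (2 * WW (v (ν * t)) x * JJ (v (ν * t)) x)
          = ν⁻¹ * (s * pd 2 (fun y => (circ (u t) y / sg y) ^ 2) x) := by
        rw [(hF t htI x hx hx0).2.2]
        field_simp
      rw [e, ENNReal.ofReal_mul hνi.le]
  · -- the integral
    intro C T₀ R hT₀0 hT₀ hR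
    by_contra hcon
    push Not at hcon
    obtain ⟨R', v, hR', hsub, hva, hv, -, hkey⟩ := sing_keyQ hKer hOsc hThr hMass hHar hTr hν h hax
      ha ha0 ha1 hs hT₀0 hT₀ hR
    have hF := hform hva hv
    refine hkey (ν⁻¹ * C) fun s hsI => ?_
    obtain ⟨t, rfl⟩ : ∃ t, s = ν * t := ⟨s / ν, by field_simp⟩
    have ht : t ∈ Ioo T₀ T := by
      have h1 := (mul_lt_mul_iff_right₀ hν).1 hsI.1
      have h2 := (mul_lt_mul_iff_right₀ hν).1 hsI.2
      exact ⟨h1, h2⟩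
    have htI : t ∈ Ioo 0 T := ⟨hT₀0.trans_lt ht.1, ht.2⟩
    have h1 := hcon t ht
    have hOs : Continuous (OO (u t)) := (p_Alg _ (hsm _ htI) (hax _ htI)).1.2.2.2.continuous
    have e1 : ∫ x in Co (a 2) R' R', |OO (v (ν * t)) x|
        = ν⁻¹ * ∫ x in Co (a 2) R' R', |circ (vort (u t)) x| / sg x := by
      rw [← integral_const_mul]
      refine setIntegral_congr_ae (Co_meas _ _ _) ?_
      filter_upwards [Pool.Agent.Q175.AX.axis_ae] with x hx0 hx
      rw [(hF t htI x hx hx0).1, abs_mul, abs_of_pos hνi, abs_div, abs_of_nonneg (sg_nn x)]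
    rw [e1]
    refine mul_le_mul_of_nonneg_left (le_trans ?_ h1) hνi.le
    have i1 : IntegrableOn (fun x => |circ (vort (u t)) x| / sg x) (closedBall a R) := by
      have i2 : IntegrableOn (fun x => |OO (u t) x|) (closedBall a R) :=
        hOs.abs.continuousOn.integrableOn_compact (isCompact_closedBall _ _)
      refine i2.congr_fun_ae (ae_restrict_of_ae ?_)
      filter_upwards [Pool.Agent.Q175.AX.axis_ae] with x hx0
      have hsp : 0 < sg x := lt_of_le_of_ne (sg_nn x) (Ne.symm hx0)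
      rw [circ_vort (hsm _ htI) (hax _ htI), abs_mul, abs_of_pos hsp]
      field_simp
    refine setIntegral_mono_set i1 (Eventually.of_forall fun x => ?_) hsub.eventuallyLE
    show 0 ≤ |circ (vort (u t)) x| / sg x
    exact div_nonneg (abs_nonneg _) (sg_nn x)

end Pool.Agent.V8H53.OW
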