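import Pool.Agent.V8H53.OW.TraQ
import Pool.Agent.V8H53.OW.L3b

/-!
Project OW: all viscosities, the whole space; the one-sided integrals.
-/

set_option autoImplicit false

open MeasureTheory Set Metric Filter Topology
open scoped ContDiff ENNReal
open H459R3.NS Pool.Agent.W268.NS Pool.Agent.Q67.VD

namespace Pool.Agent.V8H53.OW

open Pool.Agent.Q85.CC Pool.Agent.Q85.CL Pool.Agent.TH305.AX Pool.Agent.Q67.AXI
open Pool.Agent.V8Lead
open Pool.Agent.W583.MD (sm_pd)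
open Pool.Agent.TH305.DR (pd_add' pd_const')
open Pool.Agent.Q175.AX (Co_open Cy_compact Co_meas Co_fin Co_sub_Cy sg_nn sg_cd pd_ev sq_pd)

/-- The value of `ω_θ / ρ` on the axis. -/
lemma axis_OO {v : V → V} (hv : ContDiff ℝ ∞ v) (ha : Axi v) (z : ℝ) :
    pd 0 (fun y => vort v y 1) ![0, 0, z] = OO v ![0, 0, z] := by
  obtain ⟨⟨-, -, sJ, sO⟩, -, -, hid⟩ := p_Alg v hv ha
  have e : (fun y => vort v y 1) = fun y => y 1 * JJ v y + y 0 * OO v y :=
    funext fun y => (hid y).2.2.2.1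
  rw [e, pd_add' ((sm_crd 1).mul sJ) ((sm_crd 0).mul sO), pd_mulf (sm_crd 1) sJ,
    pd_mulf (sm_crd 0) sO, pd_crd, pd_crd]
  simp

/-- The one-sided condition at a singular point. -/
def OneQ (T : ℝ) (u : ℝ → V → V) (a : V) : Prop :=
  ∀ s C T₀ R : ℝ, |s| = 1 → 0 ≤ T₀ → T₀ < T → 0 < R →
    (∃ t ∈ Ioo T₀ T, C < ∫ x in closedBall a R, max (s * (circ (vort (u t)) x / sg x)) 0) ∨
    ∫⁻ t in Ioo T₀ T, ∫⁻ z in Ioo (a 2 - R) (a 2 + R),
      ENNReal.ofReal (s * pd 0 (fun y => vort (u t) y 1) ![0, 0, z]) = ⊤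

/-- The one-sided theorem at a singular point, all viscosities. -/
theorem one_DQ (hKer : StmKer) (hOsc : StmOsc) (hAx : StmAxis) (hTr : StmTra) {ν T E : ℝ}
    {Ω : Set V} {u : ℝ → V → V} {p : ℝ → V → ℝ} (hν : 0 < ν) (h : DSl ν T E Ω u p)
    (hsm : ∀ t ∈ Ioo 0 T, ContDiff ℝ ∞ (u t)) (hax : ∀ t ∈ Ioo 0 T, Axi (u t))
    {a : V} (ha : a ∈ Ω) (ha0 : a 0 = 0) (ha1 : a 1 = 0) (hs : Sing T u a) :
    OneQ T u a := by
  intro s C T₀ R hs1 hT₀0 hT₀ hR
  by_contra hcon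
  push Not at hcon
  obtain ⟨hc1, hc2⟩ := hcon
  have hT := hs.pos
  have hνi : 0 < ν⁻¹ := inv_pos.2 hν
  have hae : a = ![0, 0, a 2] := by
    funext i
    fin_cases i
    · exact ha0
    · exact ha1
    · rfl
  obtain ⟨R₁, hR₁, hRR, hsub⟩ := small_ball h.openO ha hR
  rw [hae] at hsub
  obtain ⟨E', v, pr, hL, hv⟩ := hTr ν T E Ω u p hν hT h
    (fun t ht θ x _ _ => hax t ht θ x) (a 2) R₁ hR₁ hsub
  obtain ⟨R', hR'⟩ : ∃ R' : ℝ, R' = R₁ / 2 := ⟨_, rfl⟩
  rw [← hR'] at hL hv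
  have hR2 : 0 < R' := by rw [hR']; positivity
  have hR'R : R' ≤ R := by rw [hR']; linarith
  have hst : ∀ t ∈ Ioo 0 T, ν * t ∈ Ioo 0 (ν * T) := fun t ht =>
    ⟨mul_pos hν ht.1, mul_lt_mul_of_pos_left ht.2 hν⟩
  have hva : ∀ s ∈ Ioo 0 (ν * T), ContDiff ℝ ∞ (v s) ∧ Axi (v s) := fun s hs =>
    ⟨Pool.Agent.Q285.AXI.slice hL.smooth_u hs, hL.axi s hs⟩
  have hsub' : Co (a 2) R' R' ⊆ closedBall a R := by
    intro x hx
    rw [mem_closedBall, dist_eq_norm, hae]
    refine (norm_Co hR2.le hx).trans ?_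
    rw [max_self]
    exact hR'R
  have hF : ∀ t ∈ Ioo 0 T, ∀ x ∈ Co (a 2) R' R', sg x ≠ 0 →
      OO (v (ν * t)) x = ν⁻¹ * (circ (vort (u t)) x / sg x) := by
    intro t ht x hx hx0
    exact (prod_eq (Co_open _ _ _) (hsm t ht) (hax t ht) (hva _ (hst t ht)).2
      (hva _ (hst t ht)).1 (hv t ht) hx hx0).1
  have hOu : ∀ t ∈ Ioo 0 T, Continuous (OO (u t)) := fun t ht =>
    (p_Alg _ (hsm _ ht) (hax _ ht)).1.2.2.2.continuous
  have hdiv : ∀ t ∈ Ioo 0 T, ∀ x, sg x ≠ 0 → circ (vort (u t)) x / sg x = OO (u t) x := by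
    intro t ht x hx0
    rw [circ_vort (hsm _ ht) (hax _ ht)]
    field_simp
  have hFa : ∀ t ∈ Ioo 0 T, ∀ x ∈ Co (a 2) R' R', OO (v (ν * t)) x = ν⁻¹ * OO (u t) x := by
    intro t ht x hx
    have hOv : Continuous (OO (v (ν * t))) :=
      (p_Alg _ (hva _ (hst t ht)).1 (hva _ (hst t ht)).2).1.2.2.2.continuous
    have h2 : IsClosed {y : V | OO (v (ν * t)) y = ν⁻¹ * OO (u t) y} :=
      isClosed_eq hOv (continuous_const.mul (hOu t ht))
    have h3 : x ∈ closure (Co (a 2) R' R' ∩ {x : V | sg x ≠ 0}) :=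
      Pool.Agent.Q175.AX.axis_dense.open_subset_closure_inter (Co_open _ _ _) hx
    refine h2.closure_subset_iff.2 (fun y hy => ?_) h3
    show OO (v (ν * t)) y = ν⁻¹ * OO (u t) y
    rw [hF t ht y hy.1 hy.2, hdiv t ht y hy.2]
  have hLB : L1B (ν * T) (ν * T₀) (a 2) R' R' v := by
    refine L1B_one hAx (M₁ := ν⁻¹ * C) hR2 hL hs1 (fun s' hsI => ?_) ?_
    · obtain ⟨t, rfl⟩ : ∃ t, s' = ν * t := ⟨s' / ν, by field_simp⟩
      have ht : t ∈ Ioo T₀ T := by
        have h1 := (mul_lt_mul_iff_right₀ hν).1 hsI.1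
        have h2 := (mul_lt_mul_iff_right₀ hν).1 hsI.2
        exact ⟨h1, h2⟩
      have htI : t ∈ Ioo 0 T := ⟨hT₀0.trans_lt ht.1, ht.2⟩
      have h1 := hc1 t ht
      have e1 : ∫ x in Co (a 2) R' R', max (s * OO (v (ν * t)) x) 0
          = ν⁻¹ * ∫ x in Co (a 2) R' R', max (s * (circ (vort (u t)) x / sg x)) 0 := by
        rw [← integral_const_mul]
        refine setIntegral_congr_ae (Co_meas _ _ _) ?_
        filter_upwards [Pool.Agent.Q175.AX.axis_ae] with x hx0 hx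
        rw [hF t htI x hx hx0, mul_max_of_nonneg _ _ hνi.le, mul_zero]
        congr 1
        ring
      rw [e1]
      refine mul_le_mul_of_nonneg_left (le_trans ?_ h1) hνi.le
      have i1 : IntegrableOn (fun x => max (s * (circ (vort (u t)) x / sg x)) 0)
          (closedBall a R) := by
        have i2 : IntegrableOn (fun x => max (s * OO (u t) x) 0) (closedBall a R) :=
          ((continuous_const.mul (hOu t htI)).max
            continuous_const).continuousOn.integrableOn_compact (isCompact_closedBall _ _)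
        refine i2.congr_fun_ae (ae_restrict_of_ae ?_)
        filter_upwards [Pool.Agent.Q175.AX.axis_ae] with x hx0
        rw [hdiv t htI x hx0]
      exact setIntegral_mono_set i1 (Eventually.of_forall fun x => le_max_right _ _)
        hsub'.eventuallyLE
    · refine fin_scale hν (k := ENNReal.ofReal ν⁻¹) ENNReal.ofReal_ne_top (fun t ht => ?_) hc2
      have htI : t ∈ Ioo 0 T := ⟨hT₀0.trans_lt ht.1, ht.2⟩
      rw [← lintegral_const_mul' _ _ ENNReal.ofReal_ne_top]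
      have hIs : Ioo (a 2 - R') (a 2 + R') ⊆ Ioo (a 2 - R) (a 2 + R) :=
        Ioo_subset_Ioo (by linarith) (by linarith)
      refine (lintegral_mono_set hIs).trans' ?_
      refine setLIntegral_mono' measurableSet_Ioo fun z hz => ?_
      have hzC : (![0, 0, z] : V) ∈ Co (a 2) R' R' := by
        refine ⟨?_, ?_⟩
        · show (0 : ℝ) ^ 2 + 0 ^ 2 < R' ^ 2
          have : 0 < R' ^ 2 := by positivity
          linarith
        · show |z - a 2| < R'
          rw [abs_lt]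
          exact ⟨by linarith [hz.1], by linarith [hz.2]⟩
      rw [hFa t htI _ hzC, axis_OO (hsm t htI) (hax t htI), ← ENNReal.ofReal_mul hνi.le]
      refine ENNReal.ofReal_le_ofReal (le_of_eq ?_)
      ring
  have hreg : Rg (ν * T) v ![0, 0, a 2] :=
    mainL hKer hOsc (T₀ := ν * T₀) hR2 hR2 hL (by positivity)
      (mul_lt_mul_of_pos_left hT₀ hν) hLB
  have hb := backA hν hv (mem_Co_self hR2 hR2) hreg
  rw [← hae] at hb
  exact hs.not_bdd hb

end Pool.Agent.V8H53.OW
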