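import Pool.Agent.V8H53.OW.TraS
import Pool.Agent.V8H53.OW.Defs4

/-!
Project OW: all viscosities, the whole space; the production and the window, thresholds with
`|v_θ / ρ|`, in the region `ρ² < (ν (T - t)) ^ g`.
-/

set_option autoImplicit false

open MeasureTheory Set Metric Filter Topology
open scoped ContDiff ENNReal
open H459R3.NS Pool.Agent.W268.NS Pool.Agent.Q67.VD

namespace Pool.Agent.V8H53.OW

open Pool.Agent.Q85.CC Pool.Agent.Q85.CL Pool.Agent.TH305.AX Pool.Agent.Q67.AXI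
open Pool.Agent.V8Lead
open Pool.Agent.Q65.AXI (circ_bd)
open Pool.Agent.W583.MD (sm_pd)
open Pool.Agent.TH305.DR (pd_add' pd_const')
open Pool.Agent.Q175.AX (Co_open Cy_compact Co_meas Co_fin Co_sub_Cy sg_nn sg_cd pd_ev sq_pd)

/-- Splitting of a region. -/
lemma far_split {T T₁ : ℝ} {S S₁ S₂ : ℝ → Set V} {f f' : ℝ → V → ENNReal} {F : ℝ → ENNReal}
    {k : ENNReal} (hk : k ≠ ⊤) (hF : Measurable F) (hFi : ∫⁻ t in Ioo T₁ T, F t < ⊤)
    (hS : ∀ t, S t ⊆ S₁ t ∪ S₂ t) (h1 : ∫⁻ t in Ioo T₁ T, ∫⁻ x in S₁ t, f t x < ⊤)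
    (hf : ∀ t ∈ Ioo T₁ T, ∀ x, f t x ≤ k * f' t x)
    (h2 : ∀ t ∈ Ioo T₁ T, ∫⁻ x in S₂ t, f' t x ≤ F t) :
    ∫⁻ t in Ioo T₁ T, ∫⁻ x in S t, f t x < ⊤ := by
  have h3 : ∫⁻ t in Ioo T₁ T, ∫⁻ x in S t, f t x
      ≤ ∫⁻ t in Ioo T₁ T, ((∫⁻ x in S₁ t, f t x) + k * F t) := by
    refine setLIntegral_mono' measurableSet_Ioo fun t ht => ?_
    refine (lintegral_mono_set (hS t)).trans ((lintegral_union_le _ _ _).trans ?_)
    refine add_le_add le_rfl ?_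
    refine (lintegral_mono fun x => hf t ht x).trans ?_
    rw [lintegral_const_mul' _ _ hk]
    exact mul_le_mul_right (h2 t ht) _
  refine h3.trans_lt ?_
  rw [lintegral_add_right _ (hF.const_mul k), lintegral_const_mul' _ _ hk]
  exact ENNReal.add_lt_top.2 ⟨h1, ENNReal.mul_lt_top hk.lt_top hFi⟩

/-- The condition in the region `ρ² < (T - t) ^ g`. -/
def CondG (T T₁ σ C C₂ C₁ b d c l g : ℝ) (O : Set V) (u : ℝ → V → V) : Prop :=
  (g < 1 / 2 ∧ ∫⁻ t in Ioo T₁ T, ∫⁻ x in {x | x ∈ O ∧ sg x < (T - t) ^ g ∧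
      qr T σ C C₂ C₁ b d c l u t x < 0},
    ENNReal.ofReal (σ * (2 * WW (u t) x * JJ (u t) x)) < ⊤) ∨
  (g < 1 / 3 ∧ ∫⁻ t in Ioo T₁ T, ∫⁻ x in {x | x ∈ O ∧ sg x < (T - t) ^ g ∧
      qr T σ C C₂ C₁ b d c l u t x ∈ Ioo (-1) 0},
    ENNReal.ofReal (-pd 2 (qr T σ C C₂ C₁ b d c l u t) x *
      (pd 2 (qr T σ C C₂ C₁ b d c l u t) x + σ * WW (u t) x ^ 2)) < ⊤)

/-- Finite production, or a finite window. -/
lemma L1B_G (hThr : StmThr2) (hMass : StmMass) (hHar : StmHar2) (hW1 : StmW1)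
    (hF1 : StmFar1) (hF2 : StmFar2)
    {T E c R H T₀ C C₂ C₁ b d l g σ : ℝ} {u : ℝ → V → V} {p : ℝ → V → ℝ}
    (hsol : AxL T E c R H u p)
    (hσ : σ ≠ 0) (hC : 0 ≤ C) (hb0 : 0 ≤ b) (hb1 : b < 1) (hd0 : 0 ≤ d) (hd1 : d < 5 / 4)
    (hl : 0 < l) (hC₂ : 0 ≤ C₂) (hg : 0 ≤ g)
    (hcond : CondG T T₀ σ C C₂ C₁ b d c l g (Co c R H) u) : L1B T T₀ c R H u := by
  intro T₁ r h r1 h1 K φ hT₀ hT₁T hT₁p hr1 hr1r hrR hh1 hh1h hhH hK hφ hb
  have hr0 : 0 < r := hr1.trans hr1r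
  have hh0 : 0 < h := hh1.trans hh1h
  obtain ⟨C₀, hC₀, hcirc⟩ := circ_bd p_Alg p_Bar T E c R H r h T₁ K u p hsol hr0 hrR hh0 hhH hT₁p
    hT₁T (by
      intro t ht x hx hb'
      refine (hb t ht x ⟨hx, ?_⟩).2.2.1
      rcases hb' with hb' | hb'
      · left
        rw [hb']
        exact pow_le_pow_left₀ hr1.le hr1r.le 2
      · right
        rw [hb']
        exact hh1h.le)
  have hsub : Co c r h ⊆ Co c R H := Pool.Agent.Q285.AXI.co_mono hr0 hrR hhH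
  refine l4K hThr hMass hHar hW1 hsol hK hr1 hr1r hh1 hh1h hrR hhH hT₁p hφ hb hσ hC hb0 hb1 hd0 hd1
    hl hC₂ (C₁ := C₁) ?_
  rcases hcond with ⟨hg', hc⟩ | ⟨hg', hc⟩
  · left
    obtain ⟨F, hFm, hFi, hF⟩ := hF1 T E c R H r h T₁ C₀ g u p hsol hr0 hrR hh0 hhH hT₁p hT₁T hg hg'
      hcirc
    refine far_split (k := ENNReal.ofReal |σ|)
      (S₁ := fun t => {x | x ∈ Co c r h ∧ sg x < (T - t) ^ g ∧
        qr T σ C C₂ C₁ b d c l u t x < 0})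
      (S₂ := fun t => {x | x ∈ Co c r h ∧ (T - t) ^ g ≤ sg x})
      (f' := fun t x => ENNReal.ofReal |2 * WW (u t) x * JJ (u t) x|)
      ENNReal.ofReal_ne_top hFm hFi (fun t x hx => ?_) ?_ (fun t ht x => ?_) hF
    · rcases lt_or_ge (sg x) ((T - t) ^ g) with h | h
      · exact Or.inl ⟨hx.1, h, hx.2⟩
      · exact Or.inr ⟨hx.1, h⟩
    · refine lt_of_le_of_lt ?_ hc
      refine (lintegral_mono_set (Ioo_subset_Ioo_left hT₀.le)).trans' (lintegral_mono fun t => ?_)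
      exact lintegral_mono_set fun x hx => ⟨hsub hx.1, hx.2⟩
    · rw [← ENNReal.ofReal_mul (abs_nonneg _), ← abs_mul]
      exact ENNReal.ofReal_le_ofReal (le_abs_self _)
  · right
    obtain ⟨F, hFm, hFi, hF⟩ := hF2 T E c R H r h T₁ C₀ g u p hsol hr0 hrR hh0 hhH hT₁p hT₁T hg hg'
      hcirc
    refine far_split (k := ENNReal.ofReal (σ ^ 2 / 4))
      (S₁ := fun t => {x | x ∈ Co c r h ∧ sg x < (T - t) ^ g ∧
        qr T σ C C₂ C₁ b d c l u t x ∈ Ioo (-1) 0})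
      (S₂ := fun t => {x | x ∈ Co c r h ∧ (T - t) ^ g ≤ sg x})
      (f' := fun t x => ENNReal.ofReal (WW (u t) x ^ 4))
      ENNReal.ofReal_ne_top hFm hFi (fun t x hx => ?_) ?_ (fun t ht x => ?_) hF
    · rcases lt_or_ge (sg x) ((T - t) ^ g) with h | h
      · exact Or.inl ⟨hx.1, h, hx.2⟩
      · exact Or.inr ⟨hx.1, h⟩
    · refine lt_of_le_of_lt ?_ hc
      refine (lintegral_mono_set (Ioo_subset_Ioo_left hT₀.le)).trans' (lintegral_mono fun t => ?_)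
      exact lintegral_mono_set fun x hx => ⟨hsub hx.1, hx.2⟩
    · rw [← ENNReal.ofReal_mul (by positivity)]
      refine ENNReal.ofReal_le_ofReal ?_
      nlinarith [sq_nonneg (pd 2 (qr T σ C C₂ C₁ b d c l u t) x + σ * WW (u t) x ^ 2 / 2)]

/-- The conditions at a singular point. -/
def ProdG (ν T : ℝ) (u : ℝ → V → V) (a : V) : Prop :=
  (∀ C c₁ c₂ b d g T₀ R : ℝ, c₁ < c₂ → 0 ≤ b → b < 1 → 0 ≤ d → d < 5 / 4 → 0 ≤ g → g < 1 / 3 →
    0 ≤ T₀ → T₀ < T → 0 < R → ∫⁻ t in Ioo T₀ T, ∫⁻ x in {x | x ∈ closedBall a R ∧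
      sg x < (ν * (T - t)) ^ g ∧ excS ν T C b d (a 2) u t x ∈ Ioo c₁ c₂},
      ENNReal.ofReal (-pd 2 (excS ν T C b d (a 2) u t) x *
        (ν * pd 2 (excS ν T C b d (a 2) u t) x + (circ (u t) x / sg x) ^ 2)) = ⊤) ∧
  (∀ s C b d g T₀ R : ℝ, |s| = 1 → 0 ≤ b → b < 1 → 0 ≤ d → d < 5 / 4 → 0 ≤ g → g < 1 / 2 →
    0 ≤ T₀ → T₀ < T → 0 < R → ∫⁻ t in Ioo T₀ T, ∫⁻ x in {x | x ∈ closedBall a R ∧
      sg x < (ν * (T - t)) ^ g ∧
      C * thS ν T b d (a 2) u t x < s * (circ (vort (u t)) x / sg x)},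
      ENNReal.ofReal (s * pd 2 (fun y => (circ (u t) y / sg y) ^ 2) x) = ⊤)

/-- The scaled field near a singular point. -/
lemma sing_keyG (hKer : StmKer) (hOsc : StmOsc) (hThr : StmThr2) (hMass : StmMass)
    (hHar : StmHar2) (hW1 : StmW1) (hF1 : StmFar1) (hF2 : StmFar2) (hTr : StmTra) {ν T E T₀ R : ℝ} {Ω : Set V}
    {u : ℝ → V → V} {p : ℝ → V → ℝ} (hν : 0 < ν) (h : DSl ν T E Ω u p)
    (hax : ∀ t ∈ Ioo 0 T, Axi (u t))
    {a : V} (ha : a ∈ Ω) (ha0 : a 0 = 0) (ha1 : a 1 = 0) (hs : Sing T u a) (hT₀0 : 0 ≤ T₀)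
    (hT₀ : T₀ < T) (hR : 0 < R) : ∃ (R' : ℝ) (v : ℝ → V → V), 0 < R' ∧
      Co (a 2) R' R' ⊆ closedBall a R ∧
      (∀ s ∈ Ioo 0 (ν * T), ContDiff ℝ ∞ (v s) ∧ Axi (v s)) ∧
      (∀ t ∈ Ioo 0 T, ∀ x ∈ Co (a 2) R' R', v (ν * t) x = ν⁻¹ • u t x) ∧
      ∀ σ C C₂ C₁ b d l g : ℝ, σ ≠ 0 → 0 ≤ C → 0 ≤ C₂ → 0 ≤ b → b < 1 → 0 ≤ d → d < 5 / 4 →
        0 < l → 0 ≤ g → ¬CondG (ν * T) (ν * T₀) σ C C₂ C₁ b d (a 2) l g (Co (a 2) R' R') v := by
  have hT := hs.pos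
  have hae : a = ![0, 0, a 2] := by
    funext i
    fin_cases i
    · exact ha0
    · exact ha1
    · rfl
  obtain ⟨R', hR', hRR, hsub⟩ := small_ball h.openO ha hR
  rw [hae] at hsub
  obtain ⟨E', v, pr, hL, hv⟩ := hTr ν T E Ω u p hν hT h
    (fun t ht θ x _ _ => hax t ht θ x) (a 2) R' hR' hsub
  have hR2 : 0 < R' / 2 := by positivity
  have key : L1B (ν * T) (ν * T₀) (a 2) (R' / 2) (R' / 2) v → False := by
    intro hLB
    have hreg : Rg (ν * T) v ![0, 0, a 2] :=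
      mainL hKer hOsc (T₀ := ν * T₀) hR2 hR2 hL (by positivity)
        (mul_lt_mul_of_pos_left hT₀ hν) hLB
    have hb := backA hν hv (mem_Co_self hR2 hR2) hreg
    rw [← hae] at hb
    exact hs.not_bdd hb
  refine ⟨R' / 2, v, hR2, ?_, fun s hs => ⟨Pool.Agent.Q285.AXI.slice hL.smooth_u hs,
    hL.axi s hs⟩, hv, fun σ C C₂ C₁ b d l g hσ hC hC₂ hb0 hb1 hd0 hd1 hl hg hcond =>
      key (L1B_G hThr hMass hHar hW1 hF1 hF2 hL hσ hC hb0 hb1 hd0 hd1 hl hC₂ hg hcond)⟩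
  intro x hx
  rw [mem_closedBall, dist_eq_norm, hae]
  refine (norm_Co hR2.le hx).trans ?_
  rw [max_self]
  linarith

/-- The theorem at a singular point, all viscosities. -/
theorem prod_DG (hKer : StmKer) (hOsc : StmOsc) (hThr : StmThr2) (hMass : StmMass)
    (hHar : StmHar2) (hW1 : StmW1) (hF1 : StmFar1) (hF2 : StmFar2) (hTr : StmTra) {ν T E : ℝ} {Ω : Set V}
    {u : ℝ → V → V} {p : ℝ → V → ℝ} (hν : 0 < ν) (h : DSl ν T E Ω u p)
    (hsm : ∀ t ∈ Ioo 0 T, ContDiff ℝ ∞ (u t)) (hax : ∀ t ∈ Ioo 0 T, Axi (u t))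
    {a : V} (ha : a ∈ Ω) (ha0 : a 0 = 0) (ha1 : a 1 = 0) (hs : Sing T u a) :
    ProdG ν T u a := by
  have hνi : 0 < ν⁻¹ := inv_pos.2 hν
  -- the pointwise formulas
  have hst : ∀ t ∈ Ioo 0 T, ν * t ∈ Ioo 0 (ν * T) := fun t ht =>
    ⟨mul_pos hν ht.1, mul_lt_mul_of_pos_left ht.2 hν⟩
  have hform : ∀ {R' : ℝ} {v : ℝ → V → V} (_ : ∀ s ∈ Ioo 0 (ν * T), ContDiff ℝ ∞ (v s) ∧ Axi (v s))
      (_ : ∀ t ∈ Ioo 0 T, ∀ x ∈ Co (a 2) R' R', v (ν * t) x = ν⁻¹ • u t x),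
      ∀ t ∈ Ioo 0 T, ∀ x ∈ Co (a 2) R' R', sg x ≠ 0 →
      OO (v (ν * t)) x = ν⁻¹ * (circ (vort (u t)) x / sg x) ∧
      WW (v (ν * t)) x = ν⁻¹ * (circ (u t) x / sg x) ∧
      2 * WW (v (ν * t)) x * JJ (v (ν * t)) x
        = -(ν⁻¹ ^ 2 * pd 2 (fun y => (circ (u t) y / sg y) ^ 2) x) := by
    intro R' v hva hv t ht x hx hx0
    exact prod_eq (Co_open _ _ _) (hsm t ht) (hax t ht) (hva _ (hst t ht)).2 (hva _ (hst t ht)).1
      (hv t ht) hx hx0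
  have hTt : ∀ t : ℝ, ν * T - ν * t = ν * (T - t) := fun t => by ring
  refine ⟨?_, ?_⟩
  · -- the window
    intro C c₁ c₂ b d g T₀ R hc hb0 hb1 hd0 hd1 hg0 hg1 hT₀0 hT₀ hR
    by_contra hcon
    obtain ⟨R', v, hR', hsub, hva, hv, hkey⟩ := sing_keyG hKer hOsc hThr hMass hHar hW1 hF1 hF2 hTr hν
      h hax ha ha0 ha1 hs hT₀0 hT₀ hR
    have hF := hform hva hv
    obtain ⟨Δ, hΔ⟩ : ∃ Δ : ℝ, Δ = c₂ - c₁ := ⟨_, rfl⟩
    have hΔ0 : 0 < Δ := by rw [hΔ]; linarith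
    -- `q = k * exc + l` off the axis
    have hmain : ∀ σ C' C₂ C₁ k l : ℝ, |k| = Δ⁻¹ → σ = k * ν → C' = -(k * C) →
        C₂ = -(k * C) * ν → C₁ = l →
        (∀ o : ℝ, k * o + l ∈ Ioo (-1) 0 → o ∈ Ioo c₁ c₂) →
        CondG (ν * T) (ν * T₀) σ C' C₂ C₁ b d (a 2) ν⁻¹ g (Co (a 2) R' R') v := by
      intro σ C' C₂ C₁ k l hk hσ hC' hC₂ hC₁ hw
      refine Or.inr ⟨hg1, ?_⟩
      have hk2 : k ^ 2 = Δ⁻¹ ^ 2 := by rw [← sq_abs, hk]
      have hk0 : k ≠ 0 := fun h0 => by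
        rw [h0, abs_zero] at hk
        exact absurd hk.symm (inv_pos.2 hΔ0).ne'
      refine fin_scale hν (k := ENNReal.ofReal (Δ⁻¹ ^ 2 * ν⁻¹)) ENNReal.ofReal_ne_top
        (fun t ht => ?_) hcon
      have htI : t ∈ Ioo 0 T := ⟨hT₀0.trans_lt ht.1, ht.2⟩
      have hqe : ∀ x ∈ Co (a 2) R' R', sg x ≠ 0 →
          qr (ν * T) σ C' C₂ C₁ b d (a 2) ν⁻¹ v (ν * t) x = k * excS ν T C b d (a 2) u t x + l := by
        intro x hx hx0
        unfold qr thr excS thS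
        rw [(hF t htI x hx hx0).1, (hF t htI x hx hx0).2.1, hTt, hσ, hC', hC₁, hC₂, sq0_scale hν]
        field_simp
        ring
      have hqs : ContDiff ℝ ∞ (qr (ν * T) σ C' C₂ C₁ b d (a 2) ν⁻¹ v (ν * t)) := by
        have hp : 0 < ν * T - ν * t := by
          rw [hTt]
          exact mul_pos hν (by linarith [ht.2])
        have g1 := (p_Alg _ (hva _ (hst t htI)).1 (hva _ (hst t htI)).2).1.2.2.2
        have g2 : ContDiff ℝ ∞ (fun x => X2 (a 2) (ν * T - ν * t) x ^ (-d)) :=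
          (X2_cd _ _).rpow_const_of_ne fun x => (X2_pos hp x).ne'
        have g3 := thr_sm hp (-b)
        have g4 : ContDiff ℝ ∞ (fun x => sq0 ν⁻¹ (WW (v (ν * t)) x)) := (sq0_cd hνi).comp
          (p_Alg _ (hva _ (hst t htI)).1 (hva _ (hst t htI)).2).1.2.1
        unfold qr thr
        exact (contDiff_const.mul g1).add ((contDiff_const.mul g4).add
          (((contDiff_const.mul g2).add (contDiff_const.mul g3)).add contDiff_const))
      have hpq : ∀ x ∈ Co (a 2) R' R', sg x ≠ 0 →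
          pd 2 (qr (ν * T) σ C' C₂ C₁ b d (a 2) ν⁻¹ v (ν * t)) x
            = k * pd 2 (excS ν T C b d (a 2) u t) x := by
        intro x hx hx0
        have o1 : IsOpen {y : V | sg y ≠ 0} := isOpen_ne_fun sg_cd.continuous continuous_const
        have h3 : excS ν T C b d (a 2) u t =ᶠ[𝓝 x]
            fun y => k⁻¹ * qr (ν * T) σ C' C₂ C₁ b d (a 2) ν⁻¹ v (ν * t) y + (fun _ => -(k⁻¹ * l)) y := by
          filter_upwards [(Co_open _ _ _).mem_nhds hx, o1.mem_nhds hx0] with y hy hy0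
          rw [hqe y hy hy0]
          field_simp
          ring
        have h4 : pd 2 (fun y => k⁻¹ * qr (ν * T) σ C' C₂ C₁ b d (a 2) ν⁻¹ v (ν * t) y
            + (fun _ => -(k⁻¹ * l)) y) x
            = k⁻¹ * pd 2 (qr (ν * T) σ C' C₂ C₁ b d (a 2) ν⁻¹ v (ν * t)) x := by
          rw [pd_add' (contDiff_const.mul hqs) contDiff_const, pd_const']
          beta_reduce
          rw [pd_mulf contDiff_const hqs, pd_const']
          ring
        rw [pd_ev h3 2, h4]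
        field_simp
      refine set_le (O := Co (a 2) R' R') (Co_meas _ _ _) ENNReal.ofReal_ne_top (fun x hx => hx.1)
        (fun x hx hx0 hxS => ?_) fun x hx hx0 => ?_
      · refine ⟨hsub hx, ?_, hw _ ?_⟩
        · have h1 := hxS.2.1
          rw [hTt] at h1
          exact h1
        · have h1 := hxS.2.2
          rw [hqe x hx hx0] at h1
          exact h1
      · rw [hpq x hx hx0, (hF t htI x hx hx0).2.1, ← ENNReal.ofReal_mul (by positivity)]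
        congr 1
        rw [hσ, ← hk2]
        field_simp
    have hkΔ : 0 < Δ⁻¹ := inv_pos.2 hΔ0
    rcases le_or_gt 0 C with hC | hC
    · have hn : 0 ≤ -(-Δ⁻¹ * C) := by
        rw [neg_mul, neg_neg]
        positivity
      refine hkey (-Δ⁻¹ * ν) (-(-Δ⁻¹ * C)) (-(-Δ⁻¹ * C) * ν) (c₁ / Δ) b d ν⁻¹ g
        (mul_ne_zero (neg_ne_zero.2 hkΔ.ne') hν.ne') hn (mul_nonneg hn hν.le) hb0 hb1 hd0 hd1 hνi hg0
        (hmain _ _ _ _ (-Δ⁻¹) (c₁ / Δ) (by rw [abs_neg, abs_of_pos hkΔ]) rfl rfl rfl rfl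
          fun o hq => ?_)
      have e : -Δ⁻¹ * o + c₁ / Δ = -((o - c₁) / Δ) := by
        field_simp
        ring
      rw [e] at hq
      have h1 : 0 < (o - c₁) / Δ := by linarith [hq.2]
      have h2 : (o - c₁) / Δ < 1 := by linarith [hq.1]
      rw [div_pos_iff_of_pos_right hΔ0] at h1
      rw [div_lt_one hΔ0] at h2
      exact ⟨by linarith, by linarith⟩
    · have hn : 0 ≤ -(Δ⁻¹ * C) := by
        have : 0 ≤ Δ⁻¹ * -C := mul_nonneg hkΔ.le (by linarith)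
        linarith
      refine hkey (Δ⁻¹ * ν) (-(Δ⁻¹ * C)) (-(Δ⁻¹ * C) * ν) (-(c₂ / Δ)) b d ν⁻¹ g
        (mul_ne_zero hkΔ.ne' hν.ne') hn (mul_nonneg hn hν.le) hb0 hb1 hd0 hd1 hνi hg0
        (hmain _ _ _ _ Δ⁻¹ (-(c₂ / Δ)) (abs_of_pos hkΔ) rfl rfl rfl rfl fun o hq => ?_)
      have e : Δ⁻¹ * o + -(c₂ / Δ) = (o - c₂) / Δ := by
        field_simp
        ring
      rw [e] at hq
      have h1 : (o - c₂) / Δ < 0 := hq.2
      have h2 : -1 < (o - c₂) / Δ := hq.1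
      rw [div_lt_iff₀ hΔ0] at h1
      rw [lt_div_iff₀ hΔ0] at h2
      exact ⟨by linarith, by linarith⟩
  · -- the production
    intro s C b d g T₀ R hs1 hb0 hb1 hd0 hd1 hg0 hg1 hT₀0 hT₀ hR
    by_contra hcon
    obtain ⟨R', v, hR', hsub, hva, hv, hkey⟩ := sing_keyG hKer hOsc hThr hMass hHar hW1 hF1 hF2 hTr hν
      h hax ha ha0 ha1 hs hT₀0 hT₀ hR
    have hF := hform hva hv
    have hs0 : s ≠ 0 := fun h0 => by
      rw [h0] at hs1
      simp at hs1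
    refine hkey (-(s * ν)) |C| (|C| * ν) 0 b d ν⁻¹ g (neg_ne_zero.2 (mul_ne_zero hs0 hν.ne'))
      (abs_nonneg _) (by positivity) hb0 hb1 hd0 hd1 hνi hg0 (Or.inl ⟨hg1, ?_⟩)
    refine fin_scale hν (k := ENNReal.ofReal ν⁻¹) ENNReal.ofReal_ne_top (fun t ht => ?_) hcon
    have htI : t ∈ Ioo 0 T := ⟨hT₀0.trans_lt ht.1, ht.2⟩
    refine set_le (O := Co (a 2) R' R') (Co_meas _ _ _) ENNReal.ofReal_ne_top (fun x hx => hx.1)
      (fun x hx hx0 hxS => ?_) fun x hx hx0 => ?_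
    · refine ⟨hsub hx, by
        have h1 := hxS.2.1
        rw [hTt] at h1
        exact h1, ?_⟩
      have h1 := hxS.2.2
      unfold qr thr at h1
      rw [(hF t htI x hx hx0).1, (hF t htI x hx hx0).2.1, hTt, sq0_scale hν] at h1
      have hp : 0 < ν * (T - t) := mul_pos hν (by linarith [ht.2])
      have hX : 0 ≤ (sg x + ν * (T - t)) ^ (-b) := Real.rpow_nonneg (thr_pos hp x).le _
      have hX' : 0 ≤ X2 (a 2) (ν * (T - t)) x ^ (-d) := Real.rpow_nonneg (X2_pos hp x).le _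
      have hX3 := Real.sqrt_nonneg (1 + (circ (u t) x / sg x) ^ 2)
      have h2 := mul_le_mul_of_nonneg_right (le_abs_self C) (add_nonneg (add_nonneg hX3 hX') hX)
      have e2 : |C| * ν * (ν⁻¹ * Real.sqrt (1 + (circ (u t) x / sg x) ^ 2))
          = |C| * Real.sqrt (1 + (circ (u t) x / sg x) ^ 2) := by
        field_simp
      have e : -(s * ν) * (ν⁻¹ * (circ (vort (u t)) x / sg x))
          = -(s * (circ (vort (u t)) x / sg x)) := by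
        field_simp
      rw [e, e2] at h1
      unfold thS
      linarith
    · have e : -(s * ν) * (2 * WW (v (ν * t)) x * JJ (v (ν * t)) x)
          = ν⁻¹ * (s * pd 2 (fun y => (circ (u t) y / sg y) ^ 2) x) := by
        rw [(hF t htI x hx hx0).2.2]
        field_simp
      rw [e, ENNReal.ofReal_mul hνi.le]

end Pool.Agent.V8H53.OW
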