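import Pool.Agent.V8H53.OW.TraT
import Pool.Agent.V8H53.OW.L5b
import Pool.Agent.V8H53.OW.Defs5

/-!
Project OW: all viscosities, the whole space; the production and the window, thresholds with
`|v_θ / ρ|`, in the region `ρ² < (ν (T - t)) ^ g`, `|v_θ / ρ| > M (ρ² + ν (T - t)) ^ (-e)`.
-/

set_option autoImplicit false

open MeasureTheory Set Metric Filter Topology
open scoped ContDiff ENNReal
open H459R3.NS Pool.Agent.W268.NS Pool.Agent.Q67.VD

namespace Pool.Agent.V8H53.OW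

open Pool.Agent.Q85.CC Pool.Agent.Q85.CL Pool.Agent.TH305.AX Pool.Agent.Q67.AXI
open Pool.Agent.V8Lead
open Pool.Agent.Q65.AXI (circ_bd)
open Pool.Agent.W583.MD (sm_pd)
open Pool.Agent.TH305.DR (pd_add' pd_const')
open Pool.Agent.Q175.AX (Co_open Cy_compact Co_meas Co_fin Co_sub_Cy sg_nn sg_cd pd_ev sq_pd)

lemma mu_pos {T M e t : ℝ} (hM : 0 < M) (ht : t < T) (x : V) : 0 < mu T M e t x :=
  mul_pos (pow_pos hM 2) (Real.rpow_pos_of_pos (thr_pos (by linarith) x) _)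

/-- Joint smoothness of the level function. -/
lemma qr_j {T E c R H σ C C₂ C₁ b d l : ℝ} {u : ℝ → V → V} {p : ℝ → V → ℝ}
    (hsol : AxL T E c R H u p) (hl : 0 < l) :
    ContDiffOn ℝ ∞ (fun z : ℝ × V => qr T σ C C₂ C₁ b d c l u z.1 z.2) (Ioo 0 T ×ˢ univ) := by
  obtain ⟨-, jW, jJ, jO⟩ := p_Jnt T u hsol.smooth_u
  have g1 : ContDiff ℝ ∞ (fun z : ℝ × V => X2 c (T - z.1) z.2) := by
    unfold X2
    exact ((sg_cd.comp contDiff_snd).add ((((sm_crd 2).comp contDiff_snd).sub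
      contDiff_const).pow 2)).add (contDiff_const.sub contDiff_fst)
  have g2 : ContDiffOn ℝ ∞ (fun z : ℝ × V => X2 c (T - z.1) z.2 ^ (-d)) (Ioo 0 T ×ˢ univ) :=
    g1.contDiffOn.rpow_const_of_ne fun z hz => (X2_pos (by linarith [hz.1.2]) z.2).ne'
  have g3 : ContDiff ℝ ∞ (fun z : ℝ × V => sg z.2 + (T - z.1)) :=
    (sg_cd.comp contDiff_snd).add (contDiff_const.sub contDiff_fst)
  have g4 : ContDiffOn ℝ ∞ (fun z : ℝ × V => (sg z.2 + (T - z.1)) ^ (-b)) (Ioo 0 T ×ˢ univ) :=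
    g3.contDiffOn.rpow_const_of_ne fun z hz => (thr_pos (by linarith [hz.1.2]) z.2).ne'
  have g5 : ContDiffOn ℝ ∞ (fun z : ℝ × V => sq0 l (WW (u z.1) z.2)) (Ioo 0 T ×ˢ univ) :=
    (sq0_cd hl).comp_contDiffOn jW
  unfold qr thr
  exact (contDiffOn_const.mul jO).add ((contDiffOn_const.mul g5).add
    (((contDiffOn_const.mul g2).add (contDiffOn_const.mul g4)).add contDiffOn_const))

/-- The condition in the region. -/
def CondK (T T₁ σ C C₂ C₁ b d c l g M e : ℝ) (O : Set V) (u : ℝ → V → V) : Prop :=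
  (g < 1 / 2 ∧ ∫⁻ t in Ioo T₁ T, ∫⁻ x in {x | x ∈ O ∧ (sg x < (T - t) ^ g ∧
      mu T M e t x < WW (u t) x ^ 2) ∧ qr T σ C C₂ C₁ b d c l u t x < 0},
    ENNReal.ofReal (σ * (2 * WW (u t) x * JJ (u t) x)) < ⊤) ∨
  (g < 1 / 3 ∧ ∫⁻ t in Ioo T₁ T, ∫⁻ x in {x | x ∈ O ∧ (sg x < (T - t) ^ g ∧
      mu T M e t x < WW (u t) x ^ 2) ∧ qr T σ C C₂ C₁ b d c l u t x ∈ Ioo (-1) 0},
    ENNReal.ofReal (-pd 2 (qr T σ C C₂ C₁ b d c l u t) x *
      (pd 2 (qr T σ C C₂ C₁ b d c l u t) x + σ * WW (u t) x ^ 2)) < ⊤)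

/-- Finite production, or a finite window. -/
lemma L1B_K (hThr : StmThr2) (hMass : StmMass) (hHar : StmHar2) (hW1 : StmW1)
    (hF1 : StmFar1) (hF2 : StmFar2) (hF3 : StmFar3)
    {T E c R H T₀ C C₂ C₁ b d l g M e σ : ℝ} {u : ℝ → V → V} {p : ℝ → V → ℝ}
    (hsol : AxL T E c R H u p)
    (hσ : σ ≠ 0) (hC : 0 ≤ C) (hb0 : 0 ≤ b) (hb1 : b < 1) (hd0 : 0 ≤ d) (hd1 : d < 5 / 4)
    (hl : 0 < l) (hC₂ : 0 ≤ C₂) (hg : 0 ≤ g) (hM : 0 < M) (he0 : 0 ≤ e) (he1 : e < 1 / 2)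
    (hcond : CondK T T₀ σ C C₂ C₁ b d c l g M e (Co c R H) u) : L1B T T₀ c R H u := by
  intro T₁ r h r1 h1 K φ hT₀ hT₁T hT₁p hr1 hr1r hrR hh1 hh1h hhH hK hφ hb
  have hT : 0 < T := hT₁p.trans hT₁T
  have hr0 : 0 < r := hr1.trans hr1r
  have hh0 : 0 < h := hh1.trans hh1h
  have hI : ∀ t ∈ Ico T₁ T, t ∈ Ioo 0 T := fun t ht => ⟨hT₁p.trans_le ht.1, ht.2⟩
  have hus : ∀ t ∈ Ioo 0 T, ContDiff ℝ ∞ (u t) := fun t ht =>
    Pool.Agent.Q285.AXI.slice hsol.smooth_u ht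
  have hAs : ∀ t ∈ Ioo 0 T, ContDiff ℝ ∞ (UU (u t)) ∧ ContDiff ℝ ∞ (WW (u t)) ∧
      ContDiff ℝ ∞ (JJ (u t)) ∧ ContDiff ℝ ∞ (OO (u t)) := fun t ht =>
    (p_Alg (u t) (hus t ht) (hsol.axi t ht)).1
  obtain ⟨C₀, hC₀, hcirc⟩ := circ_bd p_Alg p_Bar T E c R H r h T₁ K u p hsol hr0 hrR hh0 hhH hT₁p
    hT₁T (by
      intro t ht x hx hb'
      refine (hb t ht x ⟨hx, ?_⟩).2.2.1
      rcases hb' with hb' | hb'
      · left
        rw [hb']
        exact pow_le_pow_left₀ hr1.le hr1r.le 2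
      · right
        rw [hb']
        exact hh1h.le)
  have hsub : Co c r h ⊆ Co c R H := Pool.Agent.Q285.AXI.co_mono hr0 hrR hhH
  rcases hcond with ⟨hg', hc⟩ | ⟨hg', hc⟩
  · -- the production
    obtain ⟨F, hFm, hFi, hF⟩ := hF1 T E c R H r h T₁ C₀ g u p hsol hr0 hrR hh0 hhH hT₁p hT₁T hg hg'
      hcirc
    have hc' : ∫⁻ t in Ioo T₁ T, ∫⁻ x in {x | x ∈ Co c r h ∧
        mu T M e t x < WW (u t) x ^ 2 ∧ qr T σ C C₂ C₁ b d c l u t x < 0},
        ENNReal.ofReal (σ * (2 * WW (u t) x * JJ (u t) x)) < ⊤ := by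
      refine far_split (k := ENNReal.ofReal |σ|)
        (S₁ := fun t => {x | x ∈ Co c r h ∧ (sg x < (T - t) ^ g ∧
          mu T M e t x < WW (u t) x ^ 2) ∧ qr T σ C C₂ C₁ b d c l u t x < 0})
        (S₂ := fun t => {x | x ∈ Co c r h ∧ (T - t) ^ g ≤ sg x})
        (f' := fun t x => ENNReal.ofReal |2 * WW (u t) x * JJ (u t) x|)
        ENNReal.ofReal_ne_top hFm hFi (fun t x hx => ?_) ?_ (fun t ht x => ?_) hF
      · rcases lt_or_ge (sg x) ((T - t) ^ g) with h | h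
        · exact Or.inl ⟨hx.1, ⟨h, hx.2.1⟩, hx.2.2⟩
        · exact Or.inr ⟨hx.1, h⟩
      · refine lt_of_le_of_lt ?_ hc
        refine (lintegral_mono_set (Ioo_subset_Ioo_left hT₀.le)).trans'
          (lintegral_mono fun t => ?_)
        exact lintegral_mono_set fun x hx => ⟨hsub hx.1, hx.2⟩
      · rw [← ENNReal.ofReal_mul (abs_nonneg _), ← abs_mul]
        exact ENNReal.ofReal_le_ofReal (le_abs_self _)
    have hφ2c : HasCompactSupport (fun y => φ y ^ 2) := by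
      have e : (fun y => φ y ^ 2) = fun y => φ y * φ y := by
        funext y
        ring
      rw [e]
      exact hφ.cs.mul_right
    have hφ2 : Continuous (fun y => φ y ^ 2) := hφ.sm.continuous.pow 2
    have hout : ∀ x, x ∉ Co c r h → φ x = 0 := fun x hx => by
      by_contra hcon
      exact hx (Pool.Agent.Q175.AX.cut_mem hφ hcon)
    obtain ⟨-, jW, jJ, -⟩ := p_Jnt T u hsol.smooth_u
    have jq := qr_j (σ := σ) (C := C) (C₂ := C₂) (C₁ := C₁) (b := b) (d := d) hsol hl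
    have jm : ContinuousOn (fun z : ℝ × V => mu T M e z.1 z.2) (Ioo 0 T ×ˢ univ) := by
      have g3 : Continuous (fun z : ℝ × V => sg z.2 + (T - z.1)) :=
        (sg_cd.continuous.comp continuous_snd).add (continuous_const.sub continuous_fst)
      unfold mu
      refine continuousOn_const.mul (g3.continuousOn.rpow_const fun z hz => Or.inl ?_)
      exact (thr_pos (by linarith [hz.1.2]) z.2).ne'
    obtain ⟨B, hB0, hB⟩ := k2_bd
    obtain ⟨D, hD⟩ : ∃ D : ℝ → V → ℝ, D = fun t x => φ x ^ 2 *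
      (k1 (-qr T σ C C₂ C₁ b d c l u t x) * (k1 (WW (u t) x ^ 2 / mu T M e t x - 1)
        * (σ * (2 * WW (u t) x * JJ (u t) x)))) := ⟨_, rfl⟩
    have hDc : ContinuousOn (fun z : ℝ × V => D z.1 z.2) (Ioo 0 T ×ˢ univ) := by
      rw [hD]
      have eφ : ContinuousOn (fun z : ℝ × V => φ z.2 ^ 2) (Ioo 0 T ×ˢ univ) :=
        (hφ2.comp continuous_snd).continuousOn
      have e2 : ContinuousOn (fun z : ℝ × V => k1 (-qr T σ C C₂ C₁ b d c l u z.1 z.2))
          (Ioo 0 T ×ˢ univ) := k1_cd.continuous.comp_continuousOn jq.continuousOn.neg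
      have e3 : ContinuousOn (fun z : ℝ × V => k1 (WW (u z.1) z.2 ^ 2 / mu T M e z.1 z.2 - 1))
          (Ioo 0 T ×ˢ univ) := by
        refine k1_cd.continuous.comp_continuousOn ((((jW.continuousOn.pow 2).div jm fun z hz =>
          ?_).sub continuousOn_const))
        exact (mu_pos hM hz.1.2 z.2).ne'
      exact eφ.mul (e2.mul (e3.mul (continuousOn_const.mul ((continuousOn_const.mul
        jW.continuousOn).mul jJ.continuousOn))))
    obtain ⟨hprc, N, hN⟩ := pr_N (T := T) (T₁ := T₁) hT₁p (D := D) (k := tsupport φ) hφ.cs hDc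
      (fun t x hx => by
        rw [hD]
        beta_reduce
        rw [image_eq_zero_of_notMem_tsupport hx]
        ring)
      (S := fun t => {x | x ∈ Co c r h ∧
        mu T M e t x < WW (u t) x ^ 2 ∧ qr T σ C C₂ C₁ b d c l u t x < 0})
      (g := fun t x => ENNReal.ofReal (σ * (2 * WW (u t) x * JJ (u t) x))) (fun t ht x => by
        by_cases hx : x ∈ {x | x ∈ Co c r h ∧
          mu T M e t x < WW (u t) x ^ 2 ∧ qr T σ C C₂ C₁ b d c l u t x < 0}
        · rw [indicator_of_mem hx]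
          have g1 := k1_nn (-qr T σ C C₂ C₁ b d c l u t x)
          have g2 := k1_le (-qr T σ C C₂ C₁ b d c l u t x)
          have g3 := k1_nn (WW (u t) x ^ 2 / mu T M e t x - 1)
          have g4 := k1_le (WW (u t) x ^ 2 / mu T M e t x - 1)
          rcases le_total (σ * (2 * WW (u t) x * JJ (u t) x)) 0 with hw | hw
          · have : D t x ≤ 0 := by
              rw [hD]
              exact mul_nonpos_of_nonneg_of_nonpos (sq_nonneg _)
                (mul_nonpos_of_nonneg_of_nonpos g1 (mul_nonpos_of_nonneg_of_nonpos g3 hw))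
            rw [ENNReal.ofReal_of_nonpos this]
            exact zero_le
          · refine ENNReal.ofReal_le_ofReal ?_
            rw [hD]
            beta_reduce
            have hφ1 : φ x ^ 2 ≤ 1 := pow_le_one₀ (hφ.nn x) (hφ.le x)
            calc φ x ^ 2 * (k1 (-qr T σ C C₂ C₁ b d c l u t x)
                  * (k1 (WW (u t) x ^ 2 / mu T M e t x - 1)
                  * (σ * (2 * WW (u t) x * JJ (u t) x))))
                ≤ 1 * (1 * (1 * (σ * (2 * WW (u t) x * JJ (u t) x)))) := by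
                  refine mul_le_mul hφ1 (mul_le_mul g2 (mul_le_mul_of_nonneg_right g4 hw)
                    (mul_nonneg g3 hw) zero_le_one) (mul_nonneg g1 (mul_nonneg g3 hw))
                    zero_le_one
              _ = σ * (2 * WW (u t) x * JJ (u t) x) := by ring
        · rw [indicator_of_notMem hx]
          have hz : D t x = 0 := by
            rw [hD]
            beta_reduce
            by_cases hxC : x ∈ Co c r h
            · by_cases hxm : mu T M e t x < WW (u t) x ^ 2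
              · have h5 : ¬ qr T σ C C₂ C₁ b d c l u t x < 0 := fun hc => hx ⟨hxC, hxm, hc⟩
                have h6 : -qr T σ C C₂ C₁ b d c l u t x ≤ 0 := by linarith [not_lt.1 h5]
                rw [k1_neg h6]
                ring
              · have h6 : WW (u t) x ^ 2 / mu T M e t x - 1 ≤ 0 := by
                  have := (div_le_one (mu_pos (e := e) hM ht.2 x)).2 (not_lt.1 hxm)
                  linarith
                rw [k1_neg h6]
                ring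
            · rw [hout x hxC]
              ring
          rw [hz]
          simp) hc'
    obtain ⟨Mb, hMb⟩ := thr_int (T := T) (b := 2 * e) hK hr0 hT (by linarith) hφ
    have hMb0 : 0 ≤ Mb := by
      have h1 := hMb T ⟨hT, le_rfl⟩
      refine le_trans (integral_nonneg fun x => ?_) h1
      exact mul_nonneg (sq_nonneg _) (Real.rpow_nonneg (thr_pos hT x).le _)
    obtain ⟨K₆, hK₆⟩ : ∃ K₆ : ℝ, K₆ = σ ^ 2 * B * (M ^ 4 * Mb) := ⟨_, rfl⟩
    have hK₆0 : 0 ≤ K₆ := by rw [hK₆]; positivity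
    have hrc : ContinuousOn (fun t : ℝ => (T - t) ^ (-(2 * e))) (Ioo 0 T) := by
      refine (continuousOn_const.sub continuousOn_id).rpow_const fun t ht => Or.inl ?_
      have : 0 < T - t := by linarith [ht.2]
      exact this.ne'
    refine l5K hThr hMass hHar hW1 hsol hK hr1 hr1r hh1 hh1h hrR hhH hT₁p hφ hb hσ hC hb0 hb1 hd0
      hd1 hl hC₂ (pr := fun t => (∫ x, D t x) + K₆ * (T - t) ^ (-(2 * e)))
      (KD := (volume (Co c r h)).toReal * (|σ| * (2 * K ^ 3)))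
      (N := N + K₆ * ((T - T₁) ^ (1 - 2 * e) / (1 - 2 * e))) (C₁ := C₁)
      (hprc.add (continuousOn_const.mul hrc)) (fun t ht => ?_) (fun t ht => ?_)
    · have htI := hI t ht
      have htp : 0 < T - t := by linarith [ht.2]
      have sm : ContDiff ℝ ∞ (mu T M e t) := by
        unfold mu
        exact contDiff_const.mul (thr_sm htp _)
      have sm2 : ∀ x, pd 2 (mu T M e t) x = 0 := by
        intro x
        have e1 : mu T M e t = fun y => (fun _ => M ^ 2) y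
            * (fun y => (sg y + (T - t)) ^ (-(2 * e))) y := rfl
        rw [e1, pd_mulf contDiff_const (thr_sm htp _)]
        beta_reduce
        rw [pd_const', thr_pd htp]
        simp
      have sq : ContDiff ℝ ∞ (qr T σ C C₂ C₁ b d c l u t) := Pool.Agent.W583.MD.slice jq htI
      have h1 := win_en3 (σ := σ) (q := qr T σ C C₂ C₁ b d c l u t) (hus t htI) (hsol.axi t htI) hK
        hr0.le hφ (hb t ht) sq sm (mu_pos hM ht.2) sm2 hB0 hB
      refine h1.trans ?_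
      have h2 : ∫ x, φ x ^ 2 * mu T M e t x ^ 2 ≤ M ^ 4 * Mb * (T - t) ^ (-(2 * e)) := by
        have i1 : Integrable (fun x => φ x ^ 2 * mu T M e t x ^ 2) :=
          Pool.Agent.W583.MD.int_cs (hφ2.mul (sm.continuous.pow 2)) hφ2c.mul_right
        have i2 : Integrable (fun x => φ x ^ 2 * (sg x + (T - t)) ^ (-(2 * e))) :=
          Pool.Agent.W583.MD.int_cs (hφ2.mul (thr_sm htp _).continuous) hφ2c.mul_right
        have h3 : ∫ x, φ x ^ 2 * mu T M e t x ^ 2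
            ≤ ∫ x, M ^ 4 * (T - t) ^ (-(2 * e)) * (φ x ^ 2 * (sg x + (T - t)) ^ (-(2 * e))) := by
          refine integral_mono i1 (i2.const_mul _) fun x => ?_
          have hp := Real.rpow_nonneg (thr_pos htp x).le (-(2 * e))
          have h4 : (sg x + (T - t)) ^ (-(2 * e)) ≤ (T - t) ^ (-(2 * e)) :=
            Real.rpow_le_rpow_of_nonpos htp (by linarith [sg_nn x]) (by linarith)
          have h5 := mul_le_mul_of_nonneg_right h4 hp
          have h6 := mul_le_mul_of_nonneg_left h5 (show 0 ≤ M ^ 4 * φ x ^ 2 by positivity)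
          unfold mu
          calc _ = M ^ 4 * φ x ^ 2 * ((sg x + (T - t)) ^ (-(2 * e))
                * (sg x + (T - t)) ^ (-(2 * e))) := by ring
            _ ≤ _ := h6
            _ = _ := by ring
        rw [integral_const_mul] at h3
        have h4 := mul_le_mul_of_nonneg_left (hMb (T - t) ⟨htp, by linarith [htI.1]⟩)
          (show 0 ≤ M ^ 4 * (T - t) ^ (-(2 * e)) by
            have := Real.rpow_nonneg htp.le (-(2 * e))
            positivity)
        linarith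
      have h3 := mul_le_mul_of_nonneg_left h2 (show 0 ≤ σ ^ 2 * B by positivity)
      rw [hD, hK₆]
      beta_reduce
      linarith
    · have hIs : ∀ s ∈ Icc T₁ t, s ∈ Ioo 0 T := fun s hs =>
        ⟨hT₁p.trans_le hs.1, hs.2.trans_lt ht.2⟩
      have j1 : IntervalIntegrable (fun t => ∫ x, D t x) volume T₁ t :=
        (hprc.mono hIs).intervalIntegrable_of_Icc ht.1
      have j2 : IntervalIntegrable (fun t : ℝ => (T - t) ^ (-(2 * e))) volume T₁ t :=
        (hrc.mono hIs).intervalIntegrable_of_Icc ht.1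
      rw [intervalIntegral.integral_add j1 (j2.const_mul K₆), intervalIntegral.integral_const_mul]
      exact add_le_add (hN t ht) (mul_le_mul_of_nonneg_left
        (time_int (by linarith) (by linarith) ht.1 ht.2) hK₆0)
  · -- the window
    obtain ⟨F, hFm, hFi, hF⟩ := hF2 T E c R H r h T₁ C₀ g u p hsol hr0 hrR hh0 hhH hT₁p hT₁T hg hg'
      hcirc
    obtain ⟨F', hFm', hFi', hF'⟩ := hF3 c r h M e T T₁ (fun t => WW (u t)) hM he0 he1 hT₁T
      fun t ht => (hAs t ⟨hT₁p.trans ht.1, ht.2⟩).2.1.continuous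
    have hle : ∀ t x, ENNReal.ofReal (-pd 2 (qr T σ C C₂ C₁ b d c l u t) x *
        (pd 2 (qr T σ C C₂ C₁ b d c l u t) x + σ * WW (u t) x ^ 2))
        ≤ ENNReal.ofReal (σ ^ 2 / 4) * ENNReal.ofReal (WW (u t) x ^ 4) := by
      intro t x
      rw [← ENNReal.ofReal_mul (by positivity)]
      refine ENNReal.ofReal_le_ofReal ?_
      nlinarith [sq_nonneg (pd 2 (qr T σ C C₂ C₁ b d c l u t) x + σ * WW (u t) x ^ 2 / 2)]
    refine l4K hThr hMass hHar hW1 hsol hK hr1 hr1r hh1 hh1h hrR hhH hT₁p hφ hb hσ hC hb0 hb1 hd0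
      hd1 hl hC₂ (C₁ := C₁) (Or.inr ?_)
    refine far_split (k := ENNReal.ofReal (σ ^ 2 / 4))
      (S₁ := fun t => {x | x ∈ Co c r h ∧ mu T M e t x < WW (u t) x ^ 2 ∧
        qr T σ C C₂ C₁ b d c l u t x ∈ Ioo (-1) 0})
      (S₂ := fun t => {x | x ∈ Co c r h ∧ WW (u t) x ^ 2 ≤ mu T M e t x})
      (f' := fun t x => ENNReal.ofReal (WW (u t) x ^ 4))
      ENNReal.ofReal_ne_top hFm' hFi' (fun t x hx => ?_) ?_ (fun t ht x => hle t x) hF'
    · rcases lt_or_ge (mu T M e t x) (WW (u t) x ^ 2) with h | h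
      · exact Or.inl ⟨hx.1, h, hx.2⟩
      · exact Or.inr ⟨hx.1, h⟩
    refine far_split (k := ENNReal.ofReal (σ ^ 2 / 4))
      (S₁ := fun t => {x | x ∈ Co c r h ∧ (sg x < (T - t) ^ g ∧
        mu T M e t x < WW (u t) x ^ 2) ∧ qr T σ C C₂ C₁ b d c l u t x ∈ Ioo (-1) 0})
      (S₂ := fun t => {x | x ∈ Co c r h ∧ (T - t) ^ g ≤ sg x})
      (f' := fun t x => ENNReal.ofReal (WW (u t) x ^ 4))
      ENNReal.ofReal_ne_top hFm hFi (fun t x hx => ?_) ?_ (fun t ht x => hle t x) hF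
    · rcases lt_or_ge (sg x) ((T - t) ^ g) with h | h
      · exact Or.inl ⟨hx.1, ⟨h, hx.2.1⟩, hx.2.2⟩
      · exact Or.inr ⟨hx.1, h⟩
    · refine lt_of_le_of_lt ?_ hc
      refine (lintegral_mono_set (Ioo_subset_Ioo_left hT₀.le)).trans' (lintegral_mono fun t => ?_)
      exact lintegral_mono_set fun x hx => ⟨hsub hx.1, hx.2⟩

/-- The region near a point of the axis. -/
def Reg (ν T M e g : ℝ) (u : ℝ → V → V) (t : ℝ) (x : V) : Prop :=
  sg x < (ν * (T - t)) ^ g ∧ M * (sg x + ν * (T - t)) ^ (-e) < |circ (u t) x / sg x|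

/-- The conditions at a singular point. -/
def ProdK (ν T : ℝ) (u : ℝ → V → V) (a : V) : Prop :=
  (∀ C c₁ c₂ b d g M e T₀ R : ℝ, c₁ < c₂ → 0 ≤ b → b < 1 → 0 ≤ d → d < 5 / 4 → 0 ≤ g →
    g < 1 / 3 → 0 ≤ e → e < 1 / 2 →
    0 ≤ T₀ → T₀ < T → 0 < R → ∫⁻ t in Ioo T₀ T, ∫⁻ x in {x | x ∈ closedBall a R ∧
      Reg ν T M e g u t x ∧ excS ν T C b d (a 2) u t x ∈ Ioo c₁ c₂},
      ENNReal.ofReal (-pd 2 (excS ν T C b d (a 2) u t) x *
        (ν * pd 2 (excS ν T C b d (a 2) u t) x + (circ (u t) x / sg x) ^ 2)) = ⊤) ∧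
  (∀ s C b d g M e T₀ R : ℝ, |s| = 1 → 0 ≤ b → b < 1 → 0 ≤ d → d < 5 / 4 → 0 ≤ g → g < 1 / 2 →
    0 ≤ e → e < 1 / 2 →
    0 ≤ T₀ → T₀ < T → 0 < R → ∫⁻ t in Ioo T₀ T, ∫⁻ x in {x | x ∈ closedBall a R ∧
      Reg ν T M e g u t x ∧
      C * thS ν T b d (a 2) u t x < s * (circ (vort (u t)) x / sg x)},
      ENNReal.ofReal (s * pd 2 (fun y => (circ (u t) y / sg y) ^ 2) x) = ⊤)

/-- The scaled field near a singular point. -/
lemma sing_keyK (hKer : StmKer) (hOsc : StmOsc) (hThr : StmThr2) (hMass : StmMass)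
    (hHar : StmHar2) (hW1 : StmW1) (hF1 : StmFar1) (hF2 : StmFar2)
    (hF3 : StmFar3) (hTr : StmTra) {ν T E T₀ R : ℝ} {Ω : Set V}
    {u : ℝ → V → V} {p : ℝ → V → ℝ} (hν : 0 < ν) (h : DSl ν T E Ω u p)
    (hax : ∀ t ∈ Ioo 0 T, Axi (u t))
    {a : V} (ha : a ∈ Ω) (ha0 : a 0 = 0) (ha1 : a 1 = 0) (hs : Sing T u a) (hT₀0 : 0 ≤ T₀)
    (hT₀ : T₀ < T) (hR : 0 < R) : ∃ (R' : ℝ) (v : ℝ → V → V), 0 < R' ∧
      Co (a 2) R' R' ⊆ closedBall a R ∧
      (∀ s ∈ Ioo 0 (ν * T), ContDiff ℝ ∞ (v s) ∧ Axi (v s)) ∧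
      (∀ t ∈ Ioo 0 T, ∀ x ∈ Co (a 2) R' R', v (ν * t) x = ν⁻¹ • u t x) ∧
      ∀ σ C C₂ C₁ b d l g M e : ℝ, σ ≠ 0 → 0 ≤ C → 0 ≤ C₂ → 0 ≤ b → b < 1 → 0 ≤ d → d < 5 / 4 →
        0 < l → 0 ≤ g → 0 < M → 0 ≤ e → e < 1 / 2 →
        ¬CondK (ν * T) (ν * T₀) σ C C₂ C₁ b d (a 2) l g M e (Co (a 2) R' R') v := by
  have hT := hs.pos
  have hae : a = ![0, 0, a 2] := by
    funext i
    fin_cases i
    · exact ha0
    · exact ha1
    · rfl
  obtain ⟨R', hR', hRR, hsub⟩ := small_ball h.openO ha hR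
  rw [hae] at hsub
  obtain ⟨E', v, pr, hL, hv⟩ := hTr ν T E Ω u p hν hT h
    (fun t ht θ x _ _ => hax t ht θ x) (a 2) R' hR' hsub
  have hR2 : 0 < R' / 2 := by positivity
  have key : L1B (ν * T) (ν * T₀) (a 2) (R' / 2) (R' / 2) v → False := by
    intro hLB
    have hreg : Rg (ν * T) v ![0, 0, a 2] :=
      mainL hKer hOsc (T₀ := ν * T₀) hR2 hR2 hL (by positivity)
        (mul_lt_mul_of_pos_left hT₀ hν) hLB
    have hb := backA hν hv (mem_Co_self hR2 hR2) hreg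
    rw [← hae] at hb
    exact hs.not_bdd hb
  refine ⟨R' / 2, v, hR2, ?_, fun s hs => ⟨Pool.Agent.Q285.AXI.slice hL.smooth_u hs,
    hL.axi s hs⟩, hv, fun σ C C₂ C₁ b d l g M e hσ hC hC₂ hb0 hb1 hd0 hd1 hl hg hM he0 he1
      hcond => key (L1B_K hThr hMass hHar hW1 hF1 hF2 hF3 hL hσ hC hb0 hb1 hd0 hd1 hl hC₂ hg hM
        he0 he1 hcond)⟩
  intro x hx
  rw [mem_closedBall, dist_eq_norm, hae]
  refine (norm_Co hR2.le hx).trans ?_
  rw [max_self]
  linarith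

/-- The theorem at a singular point, all viscosities. -/
theorem prod_DK (hKer : StmKer) (hOsc : StmOsc) (hThr : StmThr2) (hMass : StmMass)
    (hHar : StmHar2) (hW1 : StmW1) (hF1 : StmFar1) (hF2 : StmFar2)
    (hF3 : StmFar3) (hTr : StmTra) {ν T E : ℝ} {Ω : Set V}
    {u : ℝ → V → V} {p : ℝ → V → ℝ} (hν : 0 < ν) (h : DSl ν T E Ω u p)
    (hsm : ∀ t ∈ Ioo 0 T, ContDiff ℝ ∞ (u t)) (hax : ∀ t ∈ Ioo 0 T, Axi (u t))
    {a : V} (ha : a ∈ Ω) (ha0 : a 0 = 0) (ha1 : a 1 = 0) (hs : Sing T u a) :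
    ProdK ν T u a := by
  have hνi : 0 < ν⁻¹ := inv_pos.2 hν
  -- the pointwise formulas
  have hst : ∀ t ∈ Ioo 0 T, ν * t ∈ Ioo 0 (ν * T) := fun t ht =>
    ⟨mul_pos hν ht.1, mul_lt_mul_of_pos_left ht.2 hν⟩
  have hform : ∀ {R' : ℝ} {v : ℝ → V → V} (_ : ∀ s ∈ Ioo 0 (ν * T), ContDiff ℝ ∞ (v s) ∧ Axi (v s))
      (_ : ∀ t ∈ Ioo 0 T, ∀ x ∈ Co (a 2) R' R', v (ν * t) x = ν⁻¹ • u t x),
      ∀ t ∈ Ioo 0 T, ∀ x ∈ Co (a 2) R' R', sg x ≠ 0 →
      OO (v (ν * t)) x = ν⁻¹ * (circ (vort (u t)) x / sg x) ∧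
      WW (v (ν * t)) x = ν⁻¹ * (circ (u t) x / sg x) ∧
      2 * WW (v (ν * t)) x * JJ (v (ν * t)) x
        = -(ν⁻¹ ^ 2 * pd 2 (fun y => (circ (u t) y / sg y) ^ 2) x) := by
    intro R' v hva hv t ht x hx hx0
    exact prod_eq (Co_open _ _ _) (hsm t ht) (hax t ht) (hva _ (hst t ht)).2 (hva _ (hst t ht)).1
      (hv t ht) hx hx0
  have hTt : ∀ t : ℝ, ν * T - ν * t = ν * (T - t) := fun t => by ring
  -- the region
  have hReg : ∀ {R' : ℝ} {v : ℝ → V → V} {g M e : ℝ}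
      (_ : ∀ s ∈ Ioo 0 (ν * T), ContDiff ℝ ∞ (v s) ∧ Axi (v s))
      (_ : ∀ t ∈ Ioo 0 T, ∀ x ∈ Co (a 2) R' R', v (ν * t) x = ν⁻¹ • u t x),
      ∀ t ∈ Ioo 0 T, ∀ x ∈ Co (a 2) R' R', sg x ≠ 0 → sg x < (ν * T - ν * t) ^ g ∧
        mu (ν * T) ((|M| + 1) / ν) e (ν * t) x < WW (v (ν * t)) x ^ 2 → Reg ν T M e g u t x := by
    intro R' v g M e hva hv t ht x hx hx0 hm
    obtain ⟨m1, m2⟩ := hm
    rw [hTt] at m1
    have hp : 0 < ν * (T - t) := mul_pos hν (by linarith [ht.2])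
    refine ⟨m1, ?_⟩
    have hsp : 0 < sg x + ν * (T - t) := thr_pos hp x
    unfold mu at m2
    rw [(hform hva hv t ht x hx hx0).2.1, hTt] at m2
    have hX : 0 < (sg x + ν * (T - t)) ^ (-e) := Real.rpow_pos_of_pos hsp _
    have e1 : (sg x + ν * (T - t)) ^ (-(2 * e)) = ((sg x + ν * (T - t)) ^ (-e)) ^ 2 := by
      rw [← Real.rpow_natCast, ← Real.rpow_mul hsp.le]
      congr 1
      push_cast
      ring
    rw [e1, ← mul_pow, sq_lt_sq, abs_mul ν⁻¹, abs_of_pos hνi,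
      abs_of_pos (by positivity : 0 < (|M| + 1) / ν * (sg x + ν * (T - t)) ^ (-e))] at m2
    have m3 : (|M| + 1) * (sg x + ν * (T - t)) ^ (-e) < |circ (u t) x / sg x| := by
      have := mul_lt_mul_of_pos_left m2 hν
      have e2 : ν * ((|M| + 1) / ν * (sg x + ν * (T - t)) ^ (-e))
          = (|M| + 1) * (sg x + ν * (T - t)) ^ (-e) := by
        field_simp
      have e3 : ν * (ν⁻¹ * |circ (u t) x / sg x|) = |circ (u t) x / sg x| := by
        field_simp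
      rw [e2, e3] at this
      exact this
    refine lt_of_le_of_lt (mul_le_mul_of_nonneg_right ?_ hX.le) m3
    linarith [le_abs_self M]
  refine ⟨?_, ?_⟩
  · -- the window
    intro C c₁ c₂ b d g M e T₀ R hc hb0 hb1 hd0 hd1 hg0 hg1 he0 he1 hT₀0 hT₀ hR
    by_contra hcon
    obtain ⟨R', v, hR', hsub, hva, hv, hkey⟩ := sing_keyK hKer hOsc hThr hMass hHar hW1 hF1 hF2 hF3 hTr
      hν h hax ha ha0 ha1 hs hT₀0 hT₀ hR
    have hF := hform hva hv
    obtain ⟨Δ, hΔ⟩ : ∃ Δ : ℝ, Δ = c₂ - c₁ := ⟨_, rfl⟩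
    have hΔ0 : 0 < Δ := by rw [hΔ]; linarith
    -- `q = k * exc + l` off the axis
    have hmain : ∀ σ C' C₂ C₁ k l : ℝ, |k| = Δ⁻¹ → σ = k * ν → C' = -(k * C) →
        C₂ = -(k * C) * ν → C₁ = l →
        (∀ o : ℝ, k * o + l ∈ Ioo (-1) 0 → o ∈ Ioo c₁ c₂) →
        CondK (ν * T) (ν * T₀) σ C' C₂ C₁ b d (a 2) ν⁻¹ g ((|M| + 1) / ν) e
          (Co (a 2) R' R') v := by
      intro σ C' C₂ C₁ k l hk hσ hC' hC₂ hC₁ hw
      refine Or.inr ⟨hg1, ?_⟩
      have hk2 : k ^ 2 = Δ⁻¹ ^ 2 := by rw [← sq_abs, hk]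
      have hk0 : k ≠ 0 := fun h0 => by
        rw [h0, abs_zero] at hk
        exact absurd hk.symm (inv_pos.2 hΔ0).ne'
      refine fin_scale hν (k := ENNReal.ofReal (Δ⁻¹ ^ 2 * ν⁻¹)) ENNReal.ofReal_ne_top
        (fun t ht => ?_) hcon
      have htI : t ∈ Ioo 0 T := ⟨hT₀0.trans_lt ht.1, ht.2⟩
      have hqe : ∀ x ∈ Co (a 2) R' R', sg x ≠ 0 →
          qr (ν * T) σ C' C₂ C₁ b d (a 2) ν⁻¹ v (ν * t) x = k * excS ν T C b d (a 2) u t x + l := by
        intro x hx hx0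
        unfold qr thr excS thS
        rw [(hF t htI x hx hx0).1, (hF t htI x hx hx0).2.1, hTt, hσ, hC', hC₁, hC₂, sq0_scale hν]
        field_simp
        ring
      have hqs : ContDiff ℝ ∞ (qr (ν * T) σ C' C₂ C₁ b d (a 2) ν⁻¹ v (ν * t)) := by
        have hp : 0 < ν * T - ν * t := by
          rw [hTt]
          exact mul_pos hν (by linarith [ht.2])
        have g1 := (p_Alg _ (hva _ (hst t htI)).1 (hva _ (hst t htI)).2).1.2.2.2
        have g2 : ContDiff ℝ ∞ (fun x => X2 (a 2) (ν * T - ν * t) x ^ (-d)) :=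
          (X2_cd _ _).rpow_const_of_ne fun x => (X2_pos hp x).ne'
        have g3 := thr_sm hp (-b)
        have g4 : ContDiff ℝ ∞ (fun x => sq0 ν⁻¹ (WW (v (ν * t)) x)) := (sq0_cd hνi).comp
          (p_Alg _ (hva _ (hst t htI)).1 (hva _ (hst t htI)).2).1.2.1
        unfold qr thr
        exact (contDiff_const.mul g1).add ((contDiff_const.mul g4).add
          (((contDiff_const.mul g2).add (contDiff_const.mul g3)).add contDiff_const))
      have hpq : ∀ x ∈ Co (a 2) R' R', sg x ≠ 0 →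
          pd 2 (qr (ν * T) σ C' C₂ C₁ b d (a 2) ν⁻¹ v (ν * t)) x
            = k * pd 2 (excS ν T C b d (a 2) u t) x := by
        intro x hx hx0
        have o1 : IsOpen {y : V | sg y ≠ 0} := isOpen_ne_fun sg_cd.continuous continuous_const
        have h3 : excS ν T C b d (a 2) u t =ᶠ[𝓝 x]
            fun y => k⁻¹ * qr (ν * T) σ C' C₂ C₁ b d (a 2) ν⁻¹ v (ν * t) y + (fun _ => -(k⁻¹ * l)) y := by
          filter_upwards [(Co_open _ _ _).mem_nhds hx, o1.mem_nhds hx0] with y hy hy0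
          rw [hqe y hy hy0]
          field_simp
          ring
        have h4 : pd 2 (fun y => k⁻¹ * qr (ν * T) σ C' C₂ C₁ b d (a 2) ν⁻¹ v (ν * t) y
            + (fun _ => -(k⁻¹ * l)) y) x
            = k⁻¹ * pd 2 (qr (ν * T) σ C' C₂ C₁ b d (a 2) ν⁻¹ v (ν * t)) x := by
          rw [pd_add' (contDiff_const.mul hqs) contDiff_const, pd_const']
          beta_reduce
          rw [pd_mulf contDiff_const hqs, pd_const']
          ring
        rw [pd_ev h3 2, h4]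
        field_simp
      refine set_le (O := Co (a 2) R' R') (Co_meas _ _ _) ENNReal.ofReal_ne_top (fun x hx => hx.1)
        (fun x hx hx0 hxS => ?_) fun x hx hx0 => ?_
      · refine ⟨hsub hx, ?_, hw _ ?_⟩
        · exact hReg hva hv t htI x hx hx0 hxS.2.1
        · have h1 := hxS.2.2
          rw [hqe x hx hx0] at h1
          exact h1
      · rw [hpq x hx hx0, (hF t htI x hx hx0).2.1, ← ENNReal.ofReal_mul (by positivity)]
        congr 1
        rw [hσ, ← hk2]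
        field_simp
    have hkΔ : 0 < Δ⁻¹ := inv_pos.2 hΔ0
    rcases le_or_gt 0 C with hC | hC
    · have hn : 0 ≤ -(-Δ⁻¹ * C) := by
        rw [neg_mul, neg_neg]
        positivity
      refine hkey (-Δ⁻¹ * ν) (-(-Δ⁻¹ * C)) (-(-Δ⁻¹ * C) * ν) (c₁ / Δ) b d ν⁻¹ g ((|M| + 1) / ν) e
        (mul_ne_zero (neg_ne_zero.2 hkΔ.ne') hν.ne') hn (mul_nonneg hn hν.le) hb0 hb1 hd0 hd1 hνi hg0
        (by positivity) he0 he1
        (hmain _ _ _ _ (-Δ⁻¹) (c₁ / Δ) (by rw [abs_neg, abs_of_pos hkΔ]) rfl rfl rfl rfl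
          fun o hq => ?_)
      have e : -Δ⁻¹ * o + c₁ / Δ = -((o - c₁) / Δ) := by
        field_simp
        ring
      rw [e] at hq
      have h1 : 0 < (o - c₁) / Δ := by linarith [hq.2]
      have h2 : (o - c₁) / Δ < 1 := by linarith [hq.1]
      rw [div_pos_iff_of_pos_right hΔ0] at h1
      rw [div_lt_one hΔ0] at h2
      exact ⟨by linarith, by linarith⟩
    · have hn : 0 ≤ -(Δ⁻¹ * C) := by
        have : 0 ≤ Δ⁻¹ * -C := mul_nonneg hkΔ.le (by linarith)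
        linarith
      refine hkey (Δ⁻¹ * ν) (-(Δ⁻¹ * C)) (-(Δ⁻¹ * C) * ν) (-(c₂ / Δ)) b d ν⁻¹ g ((|M| + 1) / ν) e
        (mul_ne_zero hkΔ.ne' hν.ne') hn (mul_nonneg hn hν.le) hb0 hb1 hd0 hd1 hνi hg0
        (by positivity) he0 he1
        (hmain _ _ _ _ Δ⁻¹ (-(c₂ / Δ)) (abs_of_pos hkΔ) rfl rfl rfl rfl fun o hq => ?_)
      have e : Δ⁻¹ * o + -(c₂ / Δ) = (o - c₂) / Δ := by
        field_simp
        ring
      rw [e] at hq
      have h1 : (o - c₂) / Δ < 0 := hq.2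
      have h2 : -1 < (o - c₂) / Δ := hq.1
      rw [div_lt_iff₀ hΔ0] at h1
      rw [lt_div_iff₀ hΔ0] at h2
      exact ⟨by linarith, by linarith⟩
  · -- the production
    intro s C b d g M e T₀ R hs1 hb0 hb1 hd0 hd1 hg0 hg1 he0 he1 hT₀0 hT₀ hR
    by_contra hcon
    obtain ⟨R', v, hR', hsub, hva, hv, hkey⟩ := sing_keyK hKer hOsc hThr hMass hHar hW1 hF1 hF2 hF3 hTr
      hν h hax ha ha0 ha1 hs hT₀0 hT₀ hR
    have hF := hform hva hv
    have hs0 : s ≠ 0 := fun h0 => by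
      rw [h0] at hs1
      simp at hs1
    refine hkey (-(s * ν)) |C| (|C| * ν) 0 b d ν⁻¹ g ((|M| + 1) / ν) e
      (neg_ne_zero.2 (mul_ne_zero hs0 hν.ne')) (abs_nonneg _) (by positivity) hb0 hb1 hd0 hd1 hνi
      hg0 (by positivity) he0 he1 (Or.inl ⟨hg1, ?_⟩)
    refine fin_scale hν (k := ENNReal.ofReal ν⁻¹) ENNReal.ofReal_ne_top (fun t ht => ?_) hcon
    have htI : t ∈ Ioo 0 T := ⟨hT₀0.trans_lt ht.1, ht.2⟩
    refine set_le (O := Co (a 2) R' R') (Co_meas _ _ _) ENNReal.ofReal_ne_top (fun x hx => hx.1)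
      (fun x hx hx0 hxS => ?_) fun x hx hx0 => ?_
    · refine ⟨hsub hx, hReg hva hv t htI x hx hx0 hxS.2.1, ?_⟩
      have h1 := hxS.2.2
      unfold qr thr at h1
      rw [(hF t htI x hx hx0).1, (hF t htI x hx hx0).2.1, hTt, sq0_scale hν] at h1
      have hp : 0 < ν * (T - t) := mul_pos hν (by linarith [ht.2])
      have hX : 0 ≤ (sg x + ν * (T - t)) ^ (-b) := Real.rpow_nonneg (thr_pos hp x).le _
      have hX' : 0 ≤ X2 (a 2) (ν * (T - t)) x ^ (-d) := Real.rpow_nonneg (X2_pos hp x).le _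
      have hX3 := Real.sqrt_nonneg (1 + (circ (u t) x / sg x) ^ 2)
      have h2 := mul_le_mul_of_nonneg_right (le_abs_self C) (add_nonneg (add_nonneg hX3 hX') hX)
      have e2 : |C| * ν * (ν⁻¹ * Real.sqrt (1 + (circ (u t) x / sg x) ^ 2))
          = |C| * Real.sqrt (1 + (circ (u t) x / sg x) ^ 2) := by
        field_simp
      have e : -(s * ν) * (ν⁻¹ * (circ (vort (u t)) x / sg x))
          = -(s * (circ (vort (u t)) x / sg x)) := by
        field_simp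
      rw [e, e2] at h1
      unfold thS
      linarith
    · have e : -(s * ν) * (2 * WW (v (ν * t)) x * JJ (v (ν * t)) x)
          = ν⁻¹ * (s * pd 2 (fun y => (circ (u t) y / sg y) ^ 2) x) := by
        rw [(hF t htI x hx hx0).2.2]
        field_simp
      rw [e, ENNReal.ofReal_mul hνi.le]

end Pool.Agent.V8H53.OW
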