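import Pool.Agent.V8H53.OW.L6b

/-!
Project OW: all viscosities, the whole space; the production where `W²`, `|∂_z W|` and `G` are above
the threshold.
-/

set_option autoImplicit false

open MeasureTheory Set Metric Filter Topology
open scoped ContDiff ENNReal
open H459R3.NS Pool.Agent.W268.NS Pool.Agent.Q67.VD

namespace Pool.Agent.V8H53.OW

open Pool.Agent.Q85.CC Pool.Agent.Q85.CL Pool.Agent.TH305.AX Pool.Agent.Q67.AXI
open Pool.Agent.V8Lead
open Pool.Agent.W583.MD (sm_pd)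
open Pool.Agent.TH305.DR (pd_add' pd_const')
open Pool.Agent.Q175.AX (Co_open Cy_compact Co_meas Co_fin Co_sub_Cy sg_nn sg_cd pd_ev sq_pd)

/-- The condition at a singular point. -/
def ProdN (ν T : ℝ) (u : ℝ → V → V) (a : V) : Prop :=
  ∀ s M b d g T₀ R : ℝ, |s| = 1 → 0 ≤ b → b < 1 → 0 ≤ d → d < 5 / 4 → 0 ≤ g → g < 1 / 2 →
    0 ≤ T₀ → T₀ < T → 0 < R → ∫⁻ t in Ioo T₀ T, ∫⁻ x in {x | x ∈ closedBall a R ∧
      sg x < (ν * (T - t)) ^ g ∧
      M * thS ν T b d (a 2) u t x < (circ (u t) x / sg x) ^ 2 ∧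
      M * thS ν T b d (a 2) u t x < |pd 2 (fun y => circ (u t) y / sg y) x| ∧
      M * thS ν T b d (a 2) u t x < s * (circ (vort (u t)) x / sg x)},
      ENNReal.ofReal (s * pd 2 (fun y => (circ (u t) y / sg y) ^ 2) x) = ⊤

/-- The scaled field near a singular point. -/
lemma sing_keyN (hKer : StmKer) (hOsc : StmOsc) (hThr : StmThr2) (hMass : StmMass)
    (hHar : StmHar2) (hW1 : StmW1) (hF1 : StmFar1) (hF4 : StmFar4) (hTr : StmTra)
    {ν T E T₀ R : ℝ} {Ω : Set V}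
    {u : ℝ → V → V} {p : ℝ → V → ℝ} (hν : 0 < ν) (h : DSl ν T E Ω u p)
    (hax : ∀ t ∈ Ioo 0 T, Axi (u t))
    {a : V} (ha : a ∈ Ω) (ha0 : a 0 = 0) (ha1 : a 1 = 0) (hs : Sing T u a) (hT₀0 : 0 ≤ T₀)
    (hT₀ : T₀ < T) (hR : 0 < R) : ∃ (R' : ℝ) (v : ℝ → V → V), 0 < R' ∧
      Co (a 2) R' R' ⊆ closedBall a R ∧
      (∀ s ∈ Ioo 0 (ν * T), ContDiff ℝ ∞ (v s) ∧ Axi (v s)) ∧
      (∀ t ∈ Ioo 0 T, ∀ x ∈ Co (a 2) R' R', v (ν * t) x = ν⁻¹ • u t x) ∧
      ∀ σ C C₂ b d l g M₁ M₂ : ℝ, σ ≠ 0 → 0 ≤ C → 0 ≤ C₂ → 0 ≤ b → b < 1 → 0 ≤ d → d < 5 / 4 →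
        0 < l → 0 ≤ g → g < 1 / 2 → 0 < M₁ → 0 ≤ M₂ →
        ¬CondN (ν * T) (ν * T₀) σ C C₂ b d (a 2) l g M₁ M₂ (Co (a 2) R' R') v := by
  have hT := hs.pos
  have hae : a = ![0, 0, a 2] := by
    funext i
    fin_cases i
    · exact ha0
    · exact ha1
    · rfl
  obtain ⟨R', hR', hRR, hsub⟩ := small_ball h.openO ha hR
  rw [hae] at hsub
  obtain ⟨E', v, pr, hL, hv⟩ := hTr ν T E Ω u p hν hT h
    (fun t ht θ x _ _ => hax t ht θ x) (a 2) R' hR' hsub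
  have hR2 : 0 < R' / 2 := by positivity
  have key : L1B (ν * T) (ν * T₀) (a 2) (R' / 2) (R' / 2) v → False := by
    intro hLB
    have hreg : Rg (ν * T) v ![0, 0, a 2] :=
      mainL hKer hOsc (T₀ := ν * T₀) hR2 hR2 hL (by positivity)
        (mul_lt_mul_of_pos_left hT₀ hν) hLB
    have hb := backA hν hv (mem_Co_self hR2 hR2) hreg
    rw [← hae] at hb
    exact hs.not_bdd hb
  refine ⟨R' / 2, v, hR2, ?_, fun s hs => ⟨Pool.Agent.Q285.AXI.slice hL.smooth_u hs,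
    hL.axi s hs⟩, hv, fun σ C C₂ b d l g M₁ M₂ hσ hC hC₂ hb0 hb1 hd0 hd1 hl hg hg' hM₁
      hM₂ hcond => key (L1B_N hThr hMass hHar hW1 hF1 hF4 hL hσ hC hb0 hb1 hd0 hd1 hl hC₂
        hg hg' hM₁ hM₂ hcond)⟩
  intro x hx
  rw [mem_closedBall, dist_eq_norm, hae]
  refine (norm_Co hR2.le hx).trans ?_
  rw [max_self]
  linarith

/-- From the threshold without `v_θ / ρ` to the threshold. -/
lemma w_thr {ν c₀ P w M : ℝ} (hν : 0 < ν) (hc : 0 < c₀) (hP : c₀ ≤ P)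
    (h : (2 * |M| + (1 + 8 * M ^ 2) / c₀) / ν ^ 2 * P < (ν⁻¹ * w) ^ 2) :
    M * (Real.sqrt (1 + w ^ 2) + P) < w ^ 2 := by
  have hP0 : 0 < P := hc.trans_le hP
  have h1 : (2 * |M| + (1 + 8 * M ^ 2) / c₀) * P < w ^ 2 := by
    have e1 : (2 * |M| + (1 + 8 * M ^ 2) / c₀) * P
        = ν ^ 2 * ((2 * |M| + (1 + 8 * M ^ 2) / c₀) / ν ^ 2 * P) := by field_simp
    have e2 : w ^ 2 = ν ^ 2 * (ν⁻¹ * w) ^ 2 := by field_simp
    rw [e1, e2]
    exact mul_lt_mul_of_pos_left h (by positivity)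
  have h2 : 1 + 8 * M ^ 2 ≤ (1 + 8 * M ^ 2) / c₀ * P := by
    rw [div_mul_eq_mul_div, le_div_iff₀ hc]
    exact mul_le_mul_of_nonneg_left hP (by positivity)
  have h3 : 2 * |M| * P + (1 + 8 * M ^ 2) < w ^ 2 := by
    have e : (2 * |M| + (1 + 8 * M ^ 2) / c₀) * P
        = 2 * |M| * P + (1 + 8 * M ^ 2) / c₀ * P := by ring
    linarith
  have hMP : 0 ≤ |M| * P := by positivity
  have h4 : |M| * Real.sqrt (1 + w ^ 2) ≤ w ^ 2 / 2 := by
    rw [← sq_le_sq₀ (by positivity) (by positivity), mul_pow, sq_abs,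
      Real.sq_sqrt (by positivity)]
    have g1 : 1 ≤ w ^ 2 := by nlinarith [sq_nonneg M]
    have g2 : 8 * M ^ 2 ≤ w ^ 2 := by nlinarith
    have g3 := mul_le_mul_of_nonneg_left g1 (sq_nonneg M)
    have g4 := mul_le_mul_of_nonneg_right g2 (sq_nonneg w)
    nlinarith
  have h5 := mul_le_mul_of_nonneg_right (le_abs_self M) (Real.sqrt_nonneg (1 + w ^ 2))
  have h6 := mul_le_mul_of_nonneg_right (le_abs_self M) hP0.le
  have h7 : 0 ≤ M ^ 2 := sq_nonneg M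
  linarith

/-- The theorem at a singular point, all viscosities. -/
theorem prod_DN (hKer : StmKer) (hOsc : StmOsc) (hThr : StmThr2) (hMass : StmMass)
    (hHar : StmHar2) (hW1 : StmW1) (hF1 : StmFar1) (hF4 : StmFar4) (hTr : StmTra)
    {ν T E : ℝ} {Ω : Set V}
    {u : ℝ → V → V} {p : ℝ → V → ℝ} (hν : 0 < ν) (h : DSl ν T E Ω u p)
    (hsm : ∀ t ∈ Ioo 0 T, ContDiff ℝ ∞ (u t)) (hax : ∀ t ∈ Ioo 0 T, Axi (u t))
    {a : V} (ha : a ∈ Ω) (ha0 : a 0 = 0) (ha1 : a 1 = 0) (hs : Sing T u a) :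
    ProdN ν T u a := by
  have hνi : 0 < ν⁻¹ := inv_pos.2 hν
  have hTpos := hs.pos
  -- the pointwise formulas
  have hst : ∀ t ∈ Ioo 0 T, ν * t ∈ Ioo 0 (ν * T) := fun t ht =>
    ⟨mul_pos hν ht.1, mul_lt_mul_of_pos_left ht.2 hν⟩
  have hTt : ∀ t : ℝ, ν * T - ν * t = ν * (T - t) := fun t => by ring
  intro s M b d g T₀ R hs1 hb0 hb1 hd0 hd1 hg0 hg1 hT₀0 hT₀ hR
  by_contra hcon
  obtain ⟨R', v, hR', hsub, hva, hv, hkey⟩ := sing_keyN hKer hOsc hThr hMass hHar hW1 hF1 hF4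
    hTr hν h hax ha ha0 ha1 hs hT₀0 hT₀ hR
  have hF : ∀ t ∈ Ioo 0 T, ∀ x ∈ Co (a 2) R' R', sg x ≠ 0 →
      OO (v (ν * t)) x = ν⁻¹ * (circ (vort (u t)) x / sg x) ∧
      WW (v (ν * t)) x = ν⁻¹ * (circ (u t) x / sg x) ∧
      2 * WW (v (ν * t)) x * JJ (v (ν * t)) x
        = -(ν⁻¹ ^ 2 * pd 2 (fun y => (circ (u t) y / sg y) ^ 2) x) := by
    intro t ht x hx hx0
    exact prod_eq (Co_open _ _ _) (hsm t ht) (hax t ht) (hva _ (hst t ht)).2 (hva _ (hst t ht)).1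
      (hv t ht) hx hx0
  have hs0 : s ≠ 0 := fun h0 => by
    rw [h0] at hs1
    simp at hs1
  obtain ⟨c₀, hc₀⟩ : ∃ c₀ : ℝ, c₀ = (R' ^ 2 + R' ^ 2 + ν * T) ^ (-d) := ⟨_, rfl⟩
  have hc₀0 : 0 < c₀ := by
    rw [hc₀]
    exact Real.rpow_pos_of_pos (by positivity) _
  refine hkey (-(s * ν)) |M| (|M| * ν) b d ν⁻¹ g ((2 * |M| + (1 + 8 * M ^ 2) / c₀) / ν ^ 2)
    (|M| * (1 + ν⁻¹)) (neg_ne_zero.2 (mul_ne_zero hs0 hν.ne')) (abs_nonneg _) (by positivity)
    hb0 hb1 hd0 hd1 hνi hg0 hg1 (by positivity) (by positivity) ?_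
  refine fin_scale hν (k := ENNReal.ofReal ν⁻¹) ENNReal.ofReal_ne_top (fun t ht => ?_) hcon
  have htI : t ∈ Ioo 0 T := ⟨hT₀0.trans_lt ht.1, ht.2⟩
  have hp : 0 < ν * (T - t) := mul_pos hν (by linarith [ht.2])
  refine set_le (O := Co (a 2) R' R') (Co_meas _ _ _) ENNReal.ofReal_ne_top (fun x hx => hx.1)
    (fun x hx hx0 hxS => ?_) fun x hx hx0 => ?_
  · obtain ⟨-, s1, s2, s3, s4⟩ := hxS
    have hX : 0 ≤ (sg x + ν * (T - t)) ^ (-b) := Real.rpow_nonneg (thr_pos hp x).le _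
    have hX' : 0 ≤ X2 (a 2) (ν * (T - t)) x ^ (-d) := Real.rpow_nonneg (X2_pos hp x).le _
    have hX3 := Real.sqrt_nonneg (1 + (circ (u t) x / sg x) ^ 2)
    have hth : 0 ≤ thS ν T b d (a 2) u t x := by
      unfold thS
      positivity
    have hMth := mul_le_mul_of_nonneg_right (le_abs_self M) hth
    refine ⟨hsub hx, ?_, ?_, ?_, ?_⟩
    · rw [hTt] at s1
      exact s1
    · -- the component `v_θ / ρ`
      unfold thP at s2
      rw [(hF t htI x hx hx0).2.1, hTt] at s2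
      have hP : c₀ ≤ X2 (a 2) (ν * (T - t)) x ^ (-d) + (sg x + ν * (T - t)) ^ (-b) := by
        refine le_trans ?_ (le_add_of_nonneg_right hX)
        rw [hc₀]
        refine Real.rpow_le_rpow_of_nonpos (X2_pos hp x) ?_ (by linarith)
        have g1 : (x 2 - a 2) ^ 2 ≤ R' ^ 2 := by
          rw [← sq_abs]
          exact pow_le_pow_left₀ (abs_nonneg _) hx.2.le 2
        have g2 := hx.1
        have g3 : ν * (T - t) ≤ ν * T := mul_le_mul_of_nonneg_left (by linarith [htI.1]) hν.le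
        unfold X2
        linarith
      have g4 := w_thr (w := circ (u t) x / sg x) hν hc₀0 hP s2
      have e : M * thS ν T b d (a 2) u t x = M * (Real.sqrt (1 + (circ (u t) x / sg x) ^ 2)
          + (X2 (a 2) (ν * (T - t)) x ^ (-d) + (sg x + ν * (T - t)) ^ (-b))) := by
        unfold thS
        ring
      rw [e]
      exact g4
    · -- the component `ω_ρ / ρ`
      have sWv := (p_Alg _ (hva _ (hst t htI)).1 (hva _ (hst t htI)).2).1.2.1
      obtain ⟨-, -, -, hid⟩ := p_Alg _ (hva _ (hst t htI)).1 (hva _ (hst t htI)).2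
      have o1 : IsOpen {y : V | sg y ≠ 0} := isOpen_ne_fun sg_cd.continuous continuous_const
      have h3 : (fun y => circ (u t) y / sg y) =ᶠ[𝓝 x]
          fun y => (fun _ => ν) y * WW (v (ν * t)) y := by
        filter_upwards [(Co_open _ _ _).mem_nhds hx, o1.mem_nhds hx0] with y hy hy0
        rw [(hF t htI y hy hy0).2.1]
        field_simp
      have h4 : pd 2 (fun y => circ (u t) y / sg y) x = -(ν * JJ (v (ν * t)) x) := by
        rw [pd_ev h3 2, pd_mulf contDiff_const sWv]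
        beta_reduce
        rw [pd_const', (hid x).2.2.2.2.2.1]
        ring
      rw [h4, abs_neg, abs_mul, abs_of_pos hν]
      unfold thJ at s3
      rw [(hF t htI x hx hx0).2.1, hTt, sq0_scale hν] at s3
      have h5 := mul_lt_mul_of_pos_left s3 hν
      refine lt_of_le_of_lt ?_ h5
      have e5 : ν * (|M| * (1 + ν⁻¹) * (ν⁻¹ * Real.sqrt (1 + (circ (u t) x / sg x) ^ 2)
          + X2 (a 2) (ν * (T - t)) x ^ (-d) + (sg x + ν * (T - t)) ^ (-b)))
          = |M| * thS ν T b d (a 2) u t x + |M| * (ν⁻¹ * Real.sqrt (1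
            + (circ (u t) x / sg x) ^ 2) + ν * X2 (a 2) (ν * (T - t)) x ^ (-d)
            + ν * (sg x + ν * (T - t)) ^ (-b)) := by
        unfold thS
        field_simp
        ring
      rw [e5]
      have g2 : 0 ≤ |M| * (ν⁻¹ * Real.sqrt (1
            + (circ (u t) x / sg x) ^ 2) + ν * X2 (a 2) (ν * (T - t)) x ^ (-d)
            + ν * (sg x + ν * (T - t)) ^ (-b)) := by positivity
      linarith
    · -- the component `ω_θ / ρ`
      unfold qr thr at s4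
      rw [(hF t htI x hx hx0).1, (hF t htI x hx hx0).2.1, hTt, sq0_scale hν] at s4
      have e2 : |M| * ν * (ν⁻¹ * Real.sqrt (1 + (circ (u t) x / sg x) ^ 2))
          = |M| * Real.sqrt (1 + (circ (u t) x / sg x) ^ 2) := by
        field_simp
      have e : -(s * ν) * (ν⁻¹ * (circ (vort (u t)) x / sg x))
          = -(s * (circ (vort (u t)) x / sg x)) := by
        field_simp
      rw [e, e2] at s4
      have e3 : |M| * thS ν T b d (a 2) u t x = |M| * Real.sqrt (1 + (circ (u t) x / sg x) ^ 2)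
          + |M| * X2 (a 2) (ν * (T - t)) x ^ (-d) + |M| * (sg x + ν * (T - t)) ^ (-b) := by
        unfold thS
        ring
      linarith
  · have e : -(s * ν) * (2 * WW (v (ν * t)) x * JJ (v (ν * t)) x)
        = ν⁻¹ * (s * pd 2 (fun y => (circ (u t) y / sg y) ^ 2) x) := by
      rw [(hF t htI x hx hx0).2.2]
      field_simp
    rw [e, ENNReal.ofReal_mul hνi.le]

end Pool.Agent.V8H53.OW
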